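import Pool.Agent.P.MP_5e7d86_al.St

/-! An element of infinite order of a countable field is moved off the unit circle by some
absolute value. -/

set_option autoImplicit false
set_option linter.style.haveILetI false

open Classical Polynomial

namespace ANd

namespace Abs

theorem ext_hom (hE : S_Ext) {R K Om : Type} [CommRing R] [Field K] [Field Om] [IsAlgClosed Om]
    [Countable K] [Uncountable Om] (f : R →+* K) (g : R →+* Om)
    (h : ∀ x, f x = 0 ↔ g x = 0) : ∃ φ : K →+* Om, ∀ x, φ (f x) = g x := by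
  haveI : (RingHom.ker f).IsPrime := RingHom.ker_isPrime f
  let A := R ⧸ RingHom.ker f
  let f' : A →+* K := RingHom.kerLift f
  have hf' : Function.Injective f' := RingHom.kerLift_injective f
  let g' : A →+* Om := Ideal.Quotient.lift _ g fun x hx => (h x).1 hx
  have hg' : Function.Injective g' := by
    rw [injective_iff_map_eq_zero]
    intro a ha
    obtain ⟨x, rfl⟩ := Ideal.Quotient.mk_surjective a
    exact Ideal.Quotient.eq_zero_iff_mem.2 ((h x).2 ha)
  let k := FractionRing A
  letI : Algebra k K := (IsFractionRing.lift (K := k) hf').toAlgebra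
  letI : Algebra k Om := (IsFractionRing.lift (K := k) hg').toAlgebra
  obtain ⟨φ⟩ := hE k K Om
  refine ⟨φ.toRingHom, fun x => ?_⟩
  have h1 := φ.commutes (algebraMap A k (Ideal.Quotient.mk _ x))
  have h2 : algebraMap k K (algebraMap A k (Ideal.Quotient.mk _ x)) = f x :=
    (IsFractionRing.lift_algebraMap (K := k) hf' _).trans (RingHom.kerLift_mk f x)
  have h3 : algebraMap k Om (algebraMap A k (Ideal.Quotient.mk _ x)) = g x :=
    (IsFractionRing.lift_algebraMap (K := k) hg' _).trans (Ideal.Quotient.lift_mk _ _ _)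
  rw [h2, h3] at h1
  exact h1

theorem of_poly (hE : S_Ext) {F K Om : Type} [Field F] [Field K] [Field Om] [IsAlgClosed Om]
    [Countable K] [Uncountable Om] [Algebra F K] [Algebra F Om] (v : AbsoluteValue Om ℝ)
    {th : K} {t : Om} (ht : v t ≠ 1) (h : ∀ p : F[X], aeval th p = 0 ↔ aeval t p = 0) :
    ∃ w : AbsoluteValue K ℝ, w th ≠ 1 := by
  obtain ⟨φ, hφ⟩ := ext_hom hE (aeval th : F[X] →ₐ[F] K).toRingHom
    (aeval t : F[X] →ₐ[F] Om).toRingHom h
  refine ⟨v.comp φ.injective, ?_⟩
  have := hφ X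
  simp only [AlgHom.toRingHom_eq_coe, RingHom.coe_coe, aeval_X] at this
  change v (φ th) ≠ 1
  rwa [this]

theorem of_trans (hE : S_Ext) {F K Om : Type} [Field F] [Field K] [Field Om] [IsAlgClosed Om]
    [Countable K] [Uncountable Om] [Algebra F K] [Algebra F Om] (v : AbsoluteValue Om ℝ)
    {th : K} {t : Om} (ht : v t ≠ 1) (h1 : Transcendental F th) (h2 : Transcendental F t) :
    ∃ w : AbsoluteValue K ℝ, w th ≠ 1 :=
  of_poly hE (F := F) v ht fun p =>
    ⟨fun h => by rw [transcendental_iff.1 h1 p h, map_zero],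
      fun h => by rw [transcendental_iff.1 h2 p h, map_zero]⟩

theorem of_root (hE : S_Ext) {F K Om : Type} [Field F] [Field K] [Field Om] [IsAlgClosed Om]
    [Countable K] [Uncountable Om] [Algebra F K] [Algebra F Om] (v : AbsoluteValue Om ℝ)
    {th : K} {t : Om} (ht : v t ≠ 1) (h1 : IsIntegral F th) (h2 : aeval t (minpoly F th) = 0) :
    ∃ w : AbsoluteValue K ℝ, w th ≠ 1 := by
  have e : minpoly F th = minpoly F t :=
    minpoly.eq_of_irreducible_of_monic (minpoly.irreducible h1) h2 (minpoly.monic h1)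
  refine of_poly hE (F := F) v ht fun p => ?_
  rw [← minpoly.dvd_iff, ← minpoly.dvd_iff, e]

theorem pow_one_of_alg {F K : Type} [Field F] [Finite F] [Field K] [Algebra F K] {x : K}
    (hx : x ≠ 0) (h : IsAlgebraic F x) : ∃ m : ℕ, m ≠ 0 ∧ x ^ m = 1 := by
  haveI := IntermediateField.adjoin.finiteDimensional h.isIntegral
  haveI : Finite (IntermediateField.adjoin F {x}) := Module.finite_of_finite F
  let y : IntermediateField.adjoin F {x} := IntermediateField.AdjoinSimple.gen F x
  have hy : y ≠ 0 := fun e => hx (congrArg Subtype.val e)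
  obtain ⟨m, hm, e⟩ := isOfFinOrder_iff_pow_eq_one.1 (isOfFinOrder_of_finite (Units.mk0 y hy))
  refine ⟨m, hm.ne', ?_⟩
  have := congrArg (fun u : (IntermediateField.adjoin F {x})ˣ =>
    ((u : IntermediateField.adjoin F {x}) : K)) e
  simpa [y] using this

theorem unc_padic (p : ℕ) [Fact p.Prime] : Uncountable (PadicAlgCl p) := by
  haveI : Uncountable ℚ_[p] := by
    rw [← Cardinal.aleph0_lt_mk_iff]
    exact Cardinal.aleph0_lt_continuum.trans_le
      (continuum_le_cardinal_of_nontriviallyNormedField ℚ_[p])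
  exact (algebraMap ℚ_[p] (PadicAlgCl p)).injective.uncountable

theorem exists_root {f : ℚ[X]} (hf : f.Monic) (h : f ∉ Polynomial.lifts (algebraMap ℤ ℚ)) :
    ∃ (p : ℕ) (_ : Fact p.Prime) (t : PadicAlgCl p), ‖t‖ ≠ 1 ∧ aeval t f = 0 := by
  rw [Polynomial.lifts_iff_coeff_lifts] at h
  push Not at h
  obtain ⟨n, hn⟩ := h
  have hd : (f.coeff n).den ≠ 1 := fun e => hn ⟨(f.coeff n).num, by
    simpa using Rat.coe_int_num_of_den_eq_one e⟩
  obtain ⟨p, hp, hpd⟩ := Nat.exists_prime_and_dvd hd
  haveI : Fact p.Prime := ⟨hp⟩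
  refine ⟨p, inferInstance, ?_⟩
  by_contra hc
  push Not at hc
  let S : Subring (PadicAlgCl p) := (PadicAlgCl.valued p).v.integer
  have hS : ∀ x, x ∈ S ↔ ‖x‖ ≤ 1 := fun x => by
    rw [← PadicAlgCl.valuation_coe]
    exact Valuation.mem_integer_iff _ _
  have h1 := (IsAlgClosed.splits (f.map (algebraMap ℚ (PadicAlgCl p)))).mem_lift_of_roots_mem_range
    (hf.map _) S.subtype (fun a ha => by
      have ha' : aeval a f = 0 := by
        rw [aeval_def, ← eval_map]; exact (mem_roots'.1 ha).2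
      refine ⟨⟨a, (hS a).2 ?_⟩, rfl⟩
      by_contra h'
      exact hc a (fun e => h' e.le) ha')
  rw [Polynomial.lifts_iff_coeff_lifts] at h1
  obtain ⟨⟨y, hy⟩, e⟩ := h1 n
  rw [coeff_map] at e
  have e' : y = algebraMap ℚ_[p] (PadicAlgCl p) (f.coeff n : ℚ_[p]) := by
    rw [map_ratCast]; exact e
  rw [hS, e'] at hy
  have h2 : ‖(f.coeff n : ℚ_[p])‖ ≤ 1 := (PadicAlgCl.norm_extends p _).ge.trans hy
  rw [Padic.norm_rat_le_one_iff_padicValuation_le_one, Rat.padicValuation_le_one_iff] at h2
  exact h2 hpd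

theorem char_zero (hE : S_Ext) (K : Type) [Field K] [Countable K] [CharZero K] (th : K)
    (hm : ∀ m : ℕ, m ≠ 0 → th ^ m ≠ 1) : ∃ v : AbsoluteValue K ℝ, v th ≠ 1 := by
  haveI : Uncountable ℂ := Complex.ofReal_injective.uncountable
  let vC : AbsoluteValue ℂ ℝ := IsAbsoluteValue.toAbsoluteValue (norm : ℂ → ℝ)
  by_cases ha : IsAlgebraic ℚ th
  · have hi := ha.isIntegral
    by_cases hl : minpoly ℚ th ∈ Polynomial.lifts (algebraMap ℤ ℚ)
    · obtain ⟨g, hg, -, hgm⟩ := lifts_and_natDegree_eq_and_monic hl (minpoly.monic hi)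
      haveI := IntermediateField.adjoin.finiteDimensional hi
      haveI : NumberField (IntermediateField.adjoin ℚ {th}) := ⟨⟩
      let y : IntermediateField.adjoin ℚ {th} := IntermediateField.AdjoinSimple.gen ℚ th
      have hy0 : aeval y (minpoly ℚ th) = 0 := IntermediateField.aeval_gen_minpoly ℚ th
      have hy : IsIntegral ℤ y := ⟨g, hgm, by
        rw [← aeval_def, ← aeval_map_algebraMap ℚ, hg, hy0]⟩
      by_cases hc : ∀ φ : IntermediateField.adjoin ℚ {th} →+* ℂ, ‖φ y‖ = 1
      · obtain ⟨n, hn, e⟩ := NumberField.Embeddings.pow_eq_one_of_norm_eq_one _ ℂ hy hc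
        refine absurd ?_ (hm n hn.ne')
        have := congrArg Subtype.val e
        simpa [y] using this
      · push Not at hc
        obtain ⟨φ, hφ⟩ := hc
        refine of_root hE vC (t := φ y) hφ hi ?_
        have := aeval_algHom_apply φ.toRatAlgHom y (minpoly ℚ th)
        rw [hy0, map_zero] at this
        exact this
    · obtain ⟨p, hp, t, ht, e⟩ := exists_root (minpoly.monic hi) hl
      haveI := unc_padic p
      exact of_root hE (IsAbsoluteValue.toAbsoluteValue (norm : PadicAlgCl p → ℝ)) ht hi e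
  · have h1 : Transcendental ℤ (liouvilleNumber (2 : ℕ)) := transcendental_liouvilleNumber le_rfl
    have h2 : Transcendental ℚ (liouvilleNumber (2 : ℕ)) := fun h =>
      h1 ((IsFractionRing.isAlgebraic_iff ℤ ℚ ℝ).2 h)
    have h3 : Transcendental ℚ ((liouvilleNumber (2 : ℕ) : ℝ) : ℂ) :=
      (transcendental_algebraMap_iff (R := ℚ) (algebraMap ℝ ℂ).injective).2 h2
    refine of_trans hE vC (t := ((liouvilleNumber (2 : ℕ) : ℝ) : ℂ)) ?_ ha h3
    intro e
    have e' : |liouvilleNumber (2 : ℕ)| = 1 := by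
      rw [← Real.norm_eq_abs, ← Complex.norm_real]; exact e
    rcases (abs_eq zero_le_one).1 e' with e | e
    · exact h2 (e ▸ isAlgebraic_one)
    · exact h2 (e ▸ isAlgebraic_one.neg)

end Abs

theorem pAbs (hE : S_Ext) (hO : S_Omega) : S_Abs := by
  intro K _ _ th h0 hm
  obtain ⟨p, hp⟩ := CharP.exists K
  rcases CharP.char_is_prime_or_zero K p with hpp | rfl
  · obtain ⟨Om, _, _, _, _, v, t, ht0, ht⟩ := hO p hpp
    haveI : Fact p.Prime := ⟨hpp⟩
    letI : Algebra (ZMod p) K := ZMod.algebra K p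
    letI : Algebra (ZMod p) Om := ZMod.algebra Om p
    refine Abs.of_trans hE (F := ZMod p) v ht (fun h => ?_) fun h => ?_
    · obtain ⟨m, h1, h2⟩ := Abs.pow_one_of_alg h0 h
      exact hm m h1 h2
    · obtain ⟨m, h1, h2⟩ := Abs.pow_one_of_alg ht0 h
      have h3 : v t ^ m = 1 := by rw [← map_pow, h2, map_one]
      exact ht ((pow_eq_one_iff_of_nonneg (v.nonneg t) h1).1 h3)
  · haveI := CharP.charP_to_charZero K
    exact Abs.char_zero hE K th hm

end ANd
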