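import Pool.Agent.P.MP_5e7d86_al.BRp

/-! Package AdB: the adjoint action of a short element on a fixed vector. -/

set_option autoImplicit false
open Classical
open scoped commutatorElement

namespace ANd

namespace AdB

variable {A : Type} [Ring A] [Algebra ℝ A]

theorem Ad_nest (u : Aˣ) : ∀ (i : ℕ) (v : Fin (i + 1) → A),
    Ad u (nest i v) = nest i fun s => Ad u (v s)
  | 0, _ => rfl
  | i + 1, v => by rw [nest_succ, nest_succ, Ad_br, Ad_nest u i]

end AdB

theorem pAdB (hL : S_Lie3) (hE : S_ExpLog) : S_AdB := by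
  intro G _ A _ _ S i W hW hWV
  have hsp := ((hL G A S.N S.R S.toSetup.normal).2.1 S.B0 S.B0_span i).2
  obtain ⟨C1, hC1, h1⟩ := In.exists_unif (Y := TG S.B0 i) hW (by rw [hsp]; exact hWV)
  obtain ⟨c0, hc0⟩ := (Set.finite_range fun j => S.l (S.e j)).bddAbove
  have hc : ∀ j, S.l (S.e j) ≤ c0 := fun j => hc0 ⟨j, rfl⟩
  obtain ⟨-, -, -, -, hz, hconj, -⟩ := hE A S.R.D
  refine ⟨2 + c0 + ⌈C1⌉₊, fun k hk p hp w hw => ?_⟩
  have hk' : (0 : ℝ) < k := by exact_mod_cast hk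
  have hY : ∀ j, ∀ m ≤ k, (m : ℝ) • Ad (S.R.psi p) (S.R.L (S.e j)) ∈
      S.Y ((2 + c0 + ⌈C1⌉₊) * k) := fun j m hm => by
    refine ⟨p * S.e j ^ m * p⁻¹, ⟨S.toSetup.normal.conj_mem _ (pow_mem (S.eN j) m) p, ?_⟩, ?_⟩
    · have a1 := S.len.conj p (S.e j ^ m)
      have a2 := S.len.pow (S.e j) m
      have a3 : m * S.l (S.e j) ≤ k * c0 := Nat.mul_le_mul hm (hc j)
      nlinarith [Nat.zero_le (⌈C1⌉₊ * k)]
    · have a1 := hz _ (S.R.uni _ (S.eN j)) m
      rw [zpow_natCast, Int.cast_natCast] at a1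
      rw [LData.L, map_mul, map_mul, map_inv, map_pow, hconj, a1, Ad_smul, LData.L]
  have key : ∀ y ∈ TG S.B0 i, In (TG (S.Y ((2 + c0 + ⌈C1⌉₊) * k)) i) (1 / k)
      ((AdH (S.R.psi p)).toLinearMap y) := by
    rintro _ ⟨j, hj, v, hv, rfl⟩
    have hv' : ∀ s, ∀ m ≤ k, (m : ℝ) • Ad (S.R.psi p) (v s) ∈ S.Y ((2 + c0 + ⌈C1⌉₊) * k) :=
      fun s m hm => by
        obtain ⟨a, ha⟩ := hv s
        rw [← ha]
        exact hY a m hm
    have hm : nest j (Function.update (fun s => Ad (S.R.psi p) (v s)) 0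
        ((k : ℝ) • Ad (S.R.psi p) (v 0))) ∈ TG (S.Y ((2 + c0 + ⌈C1⌉₊) * k)) i := by
      refine ⟨j, hj, _, fun s => ?_, rfl⟩
      by_cases e : s = 0
      · subst e
        rw [Function.update_self]
        exact hv' 0 k le_rfl
      · rw [Function.update_of_ne e]
        simpa using hv' s 1 hk
    have h2 := (In.mem _ hm).smul_le (t := 1 / k) (s := 1 / k) (abs_of_pos (by positivity)).le
    rw [mul_one] at h2
    refine h2.congr ?_
    rw [nest_update_smul, smul_smul, one_div_mul_cancel hk'.ne', one_smul,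
      Function.update_eq_self 0 fun s => Ad (S.R.psi p) (v s), ← AdB.Ad_nest]
    rfl
  refine (In.map _ (by positivity) key (h1 w hw)).le ?_
  rw [one_div, inv_mul_eq_div]
  refine div_le_div_of_nonneg_right ?_ hk'.le
  have := Nat.le_ceil C1
  push_cast
  have : (0 : ℝ) ≤ c0 := Nat.cast_nonneg _
  linarith

end ANd
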