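import Pool.Agent.P.MP_5e7d86_al.BRp

/-! Folner sets give an invariant mean, and invariant means pass to subgroups. -/

set_option autoImplicit false
open Classical
open scoped commutatorElement

namespace ANd

namespace Amen

open Filter Topology

variable {G : Type} [Group G]

theorem mem_tr (g x : G) (A : Set G) : x ∈ (fun x => g * x) '' A ↔ g⁻¹ * x ∈ A :=
  ⟨by rintro ⟨y, hy, rfl⟩; simpa using hy, fun h => ⟨_, h, by simp⟩⟩

theorem card_tr (S F : Finset G) {s : G} (hs : s ∈ S) (A : Set G) :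
    (F.filter fun x => x⁻¹ ∈ (fun x => s * x) '' A).card ≤ (F.filter fun x => x⁻¹ ∈ A).card +
      (F.filter fun g => ∃ s ∈ S, g * s ∉ F).card := by
  rw [← Finset.card_image_of_injective (F.filter fun x => x⁻¹ ∈ A) (mul_left_injective s⁻¹)]
  refine (Finset.card_le_card fun x hx => ?_).trans (Finset.card_union_le _ _)
  obtain ⟨h1, h2⟩ := Finset.mem_filter.1 hx
  rw [mem_tr] at h2
  by_cases h : x * s ∈ F
  · exact Finset.mem_union_left _ (Finset.mem_image.2 ⟨x * s, Finset.mem_filter.2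
      ⟨h, by rwa [mul_inv_rev]⟩, by simp⟩)
  · exact Finset.mem_union_right _ (Finset.mem_filter.2 ⟨h1, s, hs, h⟩)

theorem of_fol (S : Finset G) (hS : Subgroup.closure (S : Set G) = ⊤) (h : Fol S) : Amen G := by
  obtain ⟨C, hC⟩ := h
  choose F h1 _ h2 using fun n : ℕ => hC (n + 1) (Nat.le_add_left 1 n)
  have hp : ∀ n, (0 : ℝ) < (F n).card := fun n => Nat.cast_pos.2 (h1 n).card_pos
  obtain ⟨a, ha⟩ : ∃ a : Set G → ℕ → ℝ,
      ∀ A n, a A n = ((F n).filter fun x => x⁻¹ ∈ A).card / (F n).card := ⟨_, fun _ _ => rfl⟩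
  have a0 : ∀ A n, 0 ≤ a A n := fun A n => by rw [ha]; positivity
  have ex : ∀ A, ∃ m, Tendsto (a A) (hyperfilter ℕ) (𝓝 m) := fun A => by
    obtain ⟨m, -, hm⟩ := (isCompact_Icc (a := (0 : ℝ)) (b := 1)).ultrafilter_le_nhds
      ((hyperfilter ℕ).map (a A)) (by
        rw [Ultrafilter.coe_map, le_principal_iff, mem_map]
        refine univ_mem' fun n => ⟨a0 A n, ?_⟩
        rw [ha, div_le_one (hp n)]
        exact_mod_cast Finset.card_filter_le _ _)
    exact ⟨m, hm⟩
  choose mu hmu using ex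
  have m1 : mu Set.univ = 1 := tendsto_nhds_unique (hmu _) (by
    refine tendsto_const_nhds.congr fun n => ?_
    rw [ha]
    simp [(hp n).ne'])
  have m2 : ∀ A B, Disjoint A B → mu (A ∪ B) = mu A + mu B := fun A B hd =>
    tendsto_nhds_unique (hmu _) (((hmu A).add (hmu B)).congr fun n => by
      rw [ha, ha, ha, ← add_div, ← Nat.cast_add, ← Finset.card_union_of_disjoint, ← Finset.filter_or]
      · congr!
      · exact Finset.disjoint_filter.2 fun x _ k k' => Set.disjoint_left.1 hd k k')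
  have m3 : ∀ s ∈ S, ∀ A, mu ((fun x => s * x) '' A) ≤ mu A := fun s hs A => by
    have t : Tendsto (fun n : ℕ => a A n + 1 / ((n : ℝ) + 1)) (hyperfilter ℕ) (𝓝 (mu A + 0)) :=
      (hmu A).add (tendsto_one_div_add_atTop_nhds_zero_nat.mono_left
        (Nat.cofinite_eq_atTop ▸ hyperfilter_le_cofinite))
    rw [add_zero] at t
    refine le_of_tendsto_of_tendsto' (hmu _) t fun n => ?_
    have k1 : (((F n).filter fun x => x⁻¹ ∈ (fun x => s * x) '' A).card : ℝ) ≤ _ :=
      Nat.cast_le.2 (card_tr S (F n) hs A)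
    have k2 : (((n + 1) * _ : ℕ) : ℝ) ≤ _ := Nat.cast_le.2 (h2 n)
    push_cast at k1 k2
    rw [ha, ha, div_le_iff₀ (hp n), add_mul, div_mul_cancel₀ _ (hp n).ne']
    refine k1.trans (add_le_add le_rfl ?_)
    rw [one_div_mul_eq_div, le_div_iff₀' (by positivity)]
    exact k2
  have m4 : ∀ A, mu Aᶜ = 1 - mu A := fun A => by
    rw [← m1, ← Set.union_compl_self A, m2 _ _ disjoint_compl_right]
    ring
  refine ⟨mu, m1, fun A => ge_of_tendsto' (hmu A) (a0 A), m2, fun g => ?_⟩
  have hg : g ∈ Subgroup.closure (S : Set G) := hS ▸ Subgroup.mem_top g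
  induction hg using Subgroup.closure_induction with
  | mem s hs =>
    intro A
    have k := m3 s hs Aᶜ
    rw [show (fun x => s * x) '' Aᶜ = ((fun x => s * x) '' A)ᶜ by
      ext x; simp only [mem_tr, Set.mem_compl_iff], m4, m4] at k
    exact le_antisymm (m3 s hs A) (by linarith)
  | one => intro A; simp
  | mul x y _ _ hx hy =>
    intro A
    rw [← hy A, ← hx ((fun z => y * z) '' A), Set.image_image]
    simp only [mul_assoc]
  | inv x _ hx =>
    intro A
    rw [← hx ((fun z => x⁻¹ * z) '' A), Set.image_image]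
    simp

theorem sub (H : Subgroup G) (h : Amen G) : Amen H := by
  obtain ⟨mu, m1, m0, m2, m3⟩ := h
  have e : ∀ x : G, x * (Quotient.mk (QuotientGroup.rightRel H) x).out⁻¹ ∈ H := fun x =>
    QuotientGroup.rightRel_apply.1 (Quotient.mk_out (s := QuotientGroup.rightRel H) x)
  obtain ⟨r, hr⟩ : ∃ r : G → H, ∀ x, (r x : G) =
      x * (Quotient.mk (QuotientGroup.rightRel H) x).out⁻¹ := ⟨fun x => ⟨_, e x⟩, fun _ => rfl⟩
  have r1 : ∀ (g : H) (x : G), r ((g : G)⁻¹ * x) = g⁻¹ * r x := fun g x => Subtype.ext (by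
    have : Quotient.mk (QuotientGroup.rightRel H) ((g : G)⁻¹ * x) =
        Quotient.mk (QuotientGroup.rightRel H) x :=
      Quotient.sound (QuotientGroup.rightRel_apply.2 (by simp))
    rw [hr, this, Subgroup.coe_mul, hr, mul_assoc, Subgroup.coe_inv])
  refine ⟨fun A => mu (r ⁻¹' A), m1, fun A => m0 _, fun A B hd => m2 _ _ (hd.preimage r),
    fun g A => ?_⟩
  refine Eq.trans (congrArg mu ?_) (m3 g (r ⁻¹' A))
  ext x
  rw [Set.mem_preimage, mem_tr, mem_tr, Set.mem_preimage, r1]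

end Amen

theorem pAmen : S_Amen := ⟨fun _ _ S hS h => Amen.of_fol S hS h, fun _ _ H h => Amen.sub H h⟩

end ANd
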