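import Pool.Agent.P.MP_5e7d86_al.BRp

/-! Package Ann: the annihilator ideal of a word function in a central layer. -/

set_option autoImplicit false
set_option linter.unusedSectionVars false
open Classical
open scoped commutatorElement

namespace ANd

namespace Ann

/-- many vectors are killed by few maps of small rank -/
theorem ker_big {R I Q β : Type} [CommRing R] [IsDomain R] [Fintype I] [AddCommGroup Q]
    [Module R Q] (B : Finset β) (φ : β → (I → R) →ₗ[R] Q) (s : ℕ)
    (h : ∀ g ∈ B, Module.rank R (LinearMap.range (φ g)) ≤ s) (hc : s * B.card < Fintype.card I) :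
    ∃ n : I → R, n ≠ 0 ∧ ∀ g ∈ B, φ g n = 0 := by
  have key : ∃ K : Submodule R (I → R), (∀ n ∈ K, ∀ g ∈ B, φ g n = 0) ∧
      (Fintype.card I : Cardinal) ≤ Module.rank R K + (s * B.card : ℕ) := by
    clear hc
    induction B using Finset.induction_on with
    | empty => exact ⟨⊤, by simp, by simp [rank_top]⟩
    | insert g B hg ih =>
      obtain ⟨K, h1, h2⟩ := ih fun u hu => h u (Finset.mem_insert_of_mem hu)
      refine ⟨K ⊓ LinearMap.ker (φ g), fun n hn u hu => ?_, h2.trans ?_⟩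
      · rcases Finset.mem_insert.1 hu with rfl | hu
        · exact hn.2
        · exact h1 n hn.1 u hu
      · have e := LinearMap.rank_range_add_rank_ker ((φ g).domRestrict K)
        have h3 : Module.rank R (LinearMap.range ((φ g).domRestrict K)) ≤ s :=
          (Submodule.rank_mono (by rintro _ ⟨x, rfl⟩; exact ⟨x, rfl⟩)).trans
            (h g (Finset.mem_insert_self g B))
        have h4 : Module.rank R (LinearMap.ker ((φ g).domRestrict K)) ≤
            Module.rank R (K ⊓ LinearMap.ker (φ g) : Submodule R (I → R)) :=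
          LinearMap.rank_le_of_injective
            (LinearMap.codRestrict (K ⊓ LinearMap.ker (φ g))
              (K.subtype ∘ₗ (LinearMap.ker ((φ g).domRestrict K)).subtype)
              fun x => ⟨x.1.2, x.2⟩)
            fun x y e => by
              have e' := congrArg Subtype.val e
              exact Subtype.ext (Subtype.ext e')
        rw [← e, Finset.card_insert_of_notMem hg]
        push_cast
        calc _ ≤ (s : Cardinal) + Module.rank R (K ⊓ LinearMap.ker (φ g) : Submodule R (I → R)) +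
              s * B.card := by gcongr
          _ = _ := by ring
  obtain ⟨K, h1, h2⟩ := key
  by_cases hK : K = ⊥
  · subst hK
    rw [rank_bot, zero_add, Nat.cast_le] at h2
    omega
  · obtain ⟨n, hn, hn0⟩ := Submodule.exists_mem_ne_zero_of_ne_bot hK
    exact ⟨n, hn0, h1 n hn⟩

variable {G : Type} [Group G] {Γ' Γ : Subgroup G} {ι : Type}

/-- the abelian quotient of a layer -/
theorem exists_quot (hab : ⁅Γ', Γ'⁆ ≤ Γ) (hle : Γ ≤ Γ') :
    ∃ (Q : Type) (_ : AddCommGroup Q) (π : Γ' →* Multiplicative Q), Function.Surjective π ∧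
      ∀ x, π x = 1 ↔ (x : G) ∈ Γ := by
  have S : Sec (ι := Unit) Γ' Γ (fun _ => 1) Set.univ := ⟨hle, hab, fun _ _ => Γ'.one_mem⟩
  have hn : (Γ.subgroupOf Γ').Normal := ⟨fun b hb a => by
    rw [Subgroup.mem_subgroupOf] at hb ⊢
    exact S.conj a.2 hb⟩
  let _ : CommGroup (Γ' ⧸ Γ.subgroupOf Γ') :=
    { (inferInstance : Group (Γ' ⧸ Γ.subgroupOf Γ')) with
      mul_comm := fun p q => by
        obtain ⟨a, rfl⟩ := QuotientGroup.mk_surjective p
        obtain ⟨b, rfl⟩ := QuotientGroup.mk_surjective q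
        rw [← QuotientGroup.mk_mul, ← QuotientGroup.mk_mul, QuotientGroup.eq,
          Subgroup.mem_subgroupOf]
        have := S.comm (Γ'.inv_mem b.2) (Γ'.inv_mem a.2)
        simpa [commutatorElement_def, mul_assoc] using this }
  refine ⟨Additive (Γ' ⧸ Γ.subgroupOf Γ'), inferInstance, QuotientGroup.mk' _,
    QuotientGroup.mk'_surjective _, fun x => ?_⟩
  exact (QuotientGroup.eq_one_iff (N := Γ.subgroupOf Γ') x).trans Subgroup.mem_subgroupOf

variable {Q : Type} [AddCommGroup Q]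

/-- the additive extension of a function on the lattice -/
noncomputable def ev (φ : (ι → ℤ) → Q) : ZH ι →+ Q :=
  (Finsupp.liftAddHom fun g => zmultiplesHom _ (φ g)).comp
    AddMonoidAlgebra.coeffAddEquiv.toAddMonoidHom

theorem ev_tau (φ : (ι → ℤ) → Q) (g : ι → ℤ) : ev φ (tau g) = φ g := by
  simp [ev, AddMonoidAlgebra.coeffAddEquiv]

theorem ev_shift (φ : (ι → ℤ) → Q) (g : ι → ℤ) (x : ZH ι) :
    ev (fun u => φ (g + u)) x = ev φ (tau g * x) := by
  conv_lhs => rw [eq_sum_tau x]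
  conv_rhs => rw [eq_sum_tau x]
  rw [Finset.mul_sum, map_sum, map_sum]
  refine Finset.sum_congr rfl fun h _ => ?_
  rw [mul_smul_comm, map_zsmul, map_zsmul, tau_mul, ev_tau, ev_tau]

variable {π : Γ' →* Multiplicative Q}

theorem rp_ev (hπ : ∀ x, π x = 1 ↔ (x : G) ∈ Γ) {c : (ι → ℤ) → G} (S : Sec Γ' Γ c Set.univ)
    {x : ZH ι} {y : G} (h : Rp Γ c Set.univ x y) (hy : y ∈ Γ') :
    ev (fun u => (π ⟨c u, S.mem u trivial⟩).toAdd) x = (π ⟨y, hy⟩).toAdd := by
  induction h with
  | base x hb => rw [map_zero, (hπ _).2 hb]; rfl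
  | pos g lam x hg h0 ih =>
    rw [map_add, ih (h0.mem S), ev_tau, ← toAdd_mul, ← map_mul]
    rfl
  | neg g lam x hg h0 ih =>
    rw [map_sub, ih (h0.mem S), ev_tau, sub_eq_add_neg, ← toAdd_inv, ← toAdd_mul, ← map_inv,
      ← map_mul]
    rfl

theorem rp_one_iff (hπ : ∀ x, π x = 1 ↔ (x : G) ∈ Γ) {c : (ι → ℤ) → G}
    (S : Sec Γ' Γ c Set.univ) (x : ZH ι) :
    Rp Γ c Set.univ x 1 ↔ ev (fun u => (π ⟨c u, S.mem u trivial⟩).toAdd) x = 0 := by
  constructor
  · intro h
    rw [rp_ev hπ S h Γ'.one_mem, (hπ _).2 Γ.one_mem]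
    rfl
  · intro h
    obtain ⟨y, -, hy⟩ := Rp.exists_rep S x fun _ _ => trivial
    rw [rp_ev hπ S hy (hy.mem S)] at h
    exact hy.congr S (by simpa using (hπ _).1 h)

/-- the annihilator -/
noncomputable def ann (φ : (ι → ℤ) → Q) : Ideal (ZH ι) where
  carrier := {x | ∀ g, ev φ (tau g * x) = 0}
  zero_mem' g := by simp
  add_mem' := fun {x y} hx hy g => by rw [mul_add, map_add, hx g, hy g, add_zero]
  smul_mem' y x hx g := by
    rw [smul_eq_mul, eq_sum_tau y, Finset.sum_mul, Finset.mul_sum, map_sum]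
    refine Finset.sum_eq_zero fun h _ => ?_
    rw [smul_mul_assoc, mul_smul_comm, map_zsmul, ← mul_assoc, tau_mul, hx, smul_zero]

theorem mem_ann {φ : (ι → ℤ) → Q} {x : ZH ι} : x ∈ ann φ ↔ ∀ g, ev φ (tau g * x) = 0 := Iff.rfl

theorem ev_comb {I : Type} [Fintype I] (φ : (ι → ℤ) → Q) (g : ι → ℤ) (n : I → ℤ) (x : I → ZH ι) :
    ev φ (tau g * ∑ i, n i • x i) = ∑ i, n i • ev φ (tau g * x i) := by
  rw [Finset.mul_sum, map_sum]
  exact Finset.sum_congr rfl fun i _ => by rw [mul_smul_comm, map_zsmul]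

/-- the rank of a torsion free layer -/
theorem rank_le_of_dep (hs : Function.Surjective π) (hπ : ∀ x, π x = 1 ↔ (x : G) ∈ Γ) {s : ℕ}
    (h : Dep Γ' Γ (s + 1)) : Module.rank ℤ Q ≤ s := by
  refine rank_le fun t ht => ?_
  by_contra hc
  obtain ⟨e⟩ : Nonempty (Fin (s + 1) ↪ t) :=
    Function.Embedding.nonempty_of_card_le (by simp; omega)
  choose y hy using fun i => hs (Multiplicative.ofAdd (e i : Q))
  obtain ⟨n, hn, hm⟩ := h (fun i => y i) fun i => (y i).2
  have e1 : (List.ofFn fun i => (y i : G) ^ n i).prod =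
      ((List.ofFn fun i => y i ^ n i).prod : Γ') := by
    rw [Subgroup.val_list_prod, List.map_ofFn]
    rfl
  rw [e1, ← hπ, map_list_prod, List.map_ofFn, List.prod_ofFn] at hm
  have h2 := congrArg Multiplicative.toAdd hm
  simp only [Function.comp, map_zpow, hy, toAdd_prod, toAdd_zpow, toAdd_ofAdd, toAdd_one] at h2
  exact hn (funext (Fintype.linearIndependent_iff.1 (ht.comp e e.injective) n h2))

/-- short elements span a small space -/
theorem span_le {l : G → ℕ} {C : ℕ} (hC : ∀ (r M : ℕ) (E : ℕ → Subgroup G) (w : ℕ → G),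
    Monotone E → (∀ i < M, l (w i) ≤ r ∧ w i ∈ E (i + 1) ∧ w i ∉ E i) → M ≤ C * r)
    {K : Type} [Field K] [Module K Q] (π : Γ' →* Multiplicative Q) (r : ℕ) :
    Module.rank K (Submodule.span K {q : Q | ∃ y : Γ', l y ≤ r ∧ (π y).toAdd = q}) ≤
      (C * r : ℕ) := by
  obtain ⟨b, hb, h1, h2⟩ :=
    exists_linearIndependent K {q : Q | ∃ y : Γ', l y ≤ r ∧ (π y).toAdd = q}
  rw [← h1]
  refine (rank_span_le b).trans ?_
  by_contra hc
  rw [not_le] at hc
  obtain ⟨e⟩ : Nonempty (Fin (C * r + 1) ↪ b) := by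
    rw [← Cardinal.le_def, Cardinal.mk_fin]
    have := Order.succ_le_of_lt hc
    rwa [Cardinal.succ_natCast, ← Nat.cast_add_one] at this
  choose y hy1 hy2 using fun i => hb (e i).2
  have h3 : LinearIndependent K fun i => (e i : Q) := h2.comp e e.injective
  obtain ⟨V, hV⟩ : ∃ V : ℕ → Submodule K Q,
      ∀ k, V k = Submodule.span K ((fun i => (e i : Q)) '' {i | (i : ℕ) < k}) := ⟨_, fun _ => rfl⟩
  obtain ⟨E, hE0, hE⟩ : ∃ E : ℕ → Subgroup G, (∀ k, E k ≤ Γ') ∧
      ∀ k (z : Γ'), (z : G) ∈ E k ↔ (π z).toAdd ∈ V k := by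
    refine ⟨fun k => Subgroup.map Γ'.subtype (Subgroup.comap π
      (AddSubgroup.toSubgroup (V k).toAddSubgroup)), fun k => Subgroup.map_subtype_le _,
      fun k z => ⟨?_, fun h => ⟨z, h, rfl⟩⟩⟩
    rintro ⟨z', hz', e'⟩
    rw [← (Subtype.ext e' : z' = z)]
    exact hz'
  have hm : Monotone E := fun k k' hk z hz => by
    have h4 := (hE k ⟨z, hE0 k hz⟩).1 hz
    refine (hE k' ⟨z, hE0 k hz⟩).2 ?_
    rw [hV] at h4 ⊢
    refine Submodule.span_mono (Set.image_mono fun i hi => ?_) h4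
    exact lt_of_lt_of_le hi hk
  have := hC r (C * r + 1) E (fun i => if h : i < C * r + 1 then y ⟨i, h⟩ else 1) hm
    fun i hi => by
      simp only [dif_pos hi]
      rw [hE, hE, hy2, hV, hV]
      exact ⟨hy1 _, Submodule.subset_span ⟨⟨i, hi⟩, by simp, rfl⟩,
        h3.notMem_span_image (by simp)⟩
  omega

theorem plane_inj {a b : ι} (hab : a ≠ b) (R : ℕ) : Function.Injective
    fun p : Fin R × Fin R => (Pi.single a (p.1 : ℤ) + Pi.single b (p.2 : ℤ) : ι → ℤ) := by
  intro p q e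
  have h1 := congrFun e a
  have h2 := congrFun e b
  simp [Pi.single_eq_of_ne hab, Pi.single_eq_of_ne hab.symm] at h1 h2
  exact Prod.ext (Fin.ext h1) (Fin.ext h2)

theorem coeff_comb {I : Type} [Fintype I] (n : I → ℤ) (v : I → ι → ℤ) (h : ι → ℤ) :
    (∑ i, n i • tau (v i)).coeff h = ∑ i, if v i = h then n i else 0 := by
  rw [AddMonoidAlgebra.coeff_sum, Finsupp.finsetSum_apply]
  refine Finset.sum_congr rfl fun i _ => ?_
  simp [Finsupp.single_apply]

theorem planar [Fintype ι] {φ : (ι → ℤ) → Q} {p : ℕ} [Fact p.Prime] [Module (ZMod p) Q]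
    {B : Finset (ι → ℤ)} (hB : ∀ x, (∀ g ∈ B, ev φ (tau g * x) = 0) → x ∈ ann φ) {D : ℕ}
    (hD : ∀ K : ℕ, ∃ W : Submodule (ZMod p) Q, Module.rank (ZMod p) W ≤ (D * (K + 1) : ℕ) ∧
      ∀ h, Sm K h → φ h ∈ W) : Planar (ann φ) p := by
  intro a b hab
  obtain ⟨k, hk⟩ := exists_Sm_fin B
  obtain ⟨R, hR⟩ : ∃ R : ℕ, D * (k + (R + R) + 1) * B.card < R * R := by
    refine ⟨D * B.card * (k + 3) + 1, ?_⟩
    generalize hT : D * B.card = T
    have e : D * (k + (T * (k + 3) + 1 + (T * (k + 3) + 1)) + 1) * B.card =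
        T * (k + (T * (k + 3) + 1 + (T * (k + 3) + 1)) + 1) := by rw [← hT]; ring
    rw [e]
    generalize hU : T * (k + 3) + 1 = U
    have h1 : 1 ≤ U := by omega
    have h2 : k + (U + U) + 1 ≤ (k + 3) * U := by nlinarith
    calc T * (k + (U + U) + 1) ≤ T * ((k + 3) * U) := Nat.mul_le_mul_left _ h2
      _ = T * (k + 3) * U := by ring
      _ < U * U := Nat.mul_lt_mul_of_pos_right (by omega) h1
  obtain ⟨W, hW, hφ⟩ := hD (k + (R + R))
  let v : Fin R × Fin R → ι → ℤ := fun q => Pi.single a (q.1 : ℤ) + Pi.single b (q.2 : ℤ)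
  have hv : ∀ q, Sm (R + R) (v q) := fun q =>
    (Sm.single a (by simp)).add (Sm.single b (by simp))
  obtain ⟨n, hn, h0⟩ := ker_big B
    (fun g => Fintype.linearCombination (ZMod p) fun q => φ (g + v q)) (D * (k + (R + R) + 1))
    (fun g hg => (Submodule.rank_mono (by
      rw [Fintype.range_linearCombination, Submodule.span_le]
      rintro _ ⟨q, rfl⟩
      exact hφ _ ((hk g hg).add (hv q)))).trans hW) (by simpa using hR)
  refine ⟨∑ q, ((n q).val : ℤ) • tau (v q), hB _ fun g hg => ?_, fun h hh c hca hcb => ?_, ?_⟩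
  · rw [ev_comb, ← h0 g hg, Fintype.linearCombination_apply]
    refine Finset.sum_congr rfl fun q _ => ?_
    rw [tau_mul, ev_tau, natCast_zsmul, ← Nat.cast_smul_eq_nsmul (ZMod p), ZMod.natCast_zmod_val]
  · rw [Finsupp.mem_support_iff, coeff_comb] at hh
    obtain ⟨q, -, hq⟩ := Finset.exists_ne_zero_of_sum_ne_zero hh
    have e : v q = h := by
      by_contra e
      exact hq (if_neg e)
    rw [← e]
    simp [v, Pi.single_eq_of_ne hca, Pi.single_eq_of_ne hcb]
  · obtain ⟨q, hq⟩ := Function.ne_iff.1 hn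
    refine ⟨v q, ?_⟩
    have e : (∑ i, ((n i).val : ℤ) • tau (v i)).coeff (v q) = (n q).val := by
      rw [coeff_comb, Finset.sum_eq_single q, if_pos rfl]
      · exact fun q' _ hq' => if_neg fun e => hq' (plane_inj hab R e)
      · simp
    rw [e, Int.natCast_dvd_natCast, ← ZMod.natCast_eq_zero_iff,
      ZMod.natCast_zmod_val]
    exact hq

end Ann

open Ann in
theorem pAnn (hW : S_WF) : S_Ann := by
  intro G _ l hl hCC ι _ f N Γ' Γ hf hL hm
  have hab : ⁅Γ', Γ'⁆ ≤ Γ := (Subgroup.commutator_mono hL.leN le_rfl).trans hL.cen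
  obtain ⟨Q, _, π, hs, hπ⟩ := exists_quot hab hL.le
  have S : ∀ g : ι → ℤ, Sec Γ' Γ (fun u => f (g + u)) Set.univ := fun g =>
    ⟨hL.le, hab, fun _ _ => hm _⟩
  have S0 : Sec Γ' Γ f Set.univ := ⟨hL.le, hab, fun _ _ => hm _⟩
  let φ : (ι → ℤ) → Q := fun u => (π ⟨f u, hm u⟩).toAdd
  obtain ⟨B, hB⟩ := hL.rcr ι f hf hm
  have hB' : ∀ x, (∀ g ∈ B, ev φ (tau g * x) = 0) → x ∈ ann φ := by
    intro x hx
    obtain ⟨F, rfl, -⟩ := exists_lfc x
    have h1 : ∀ g, ev φ (tau g * lfc F) = 0 ↔ lfv f F g ∈ Γ := fun g => by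
      have h2 := Rp.lfv S0 F g fun _ _ => trivial
      rw [rp_ev hπ S0 h2 (h2.mem S0)]
      exact hπ _
    have h3 : lfv f F ∈ Subgroup.closure (Set.range fun u => shf u f) := by
      clear h1 hx
      induction F with
      | nil => exact Subgroup.one_mem _
      | cons p F ih =>
        have h4 : shf p.1 f ∈ Subgroup.closure (Set.range fun u => shf u f) :=
          Subgroup.subset_closure ⟨p.1, rfl⟩
        have e : lfv f (p :: F) = (if p.2 then shf p.1 f else (shf p.1 f)⁻¹) * lfv f F := by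
          funext g
          cases hp : p.2 <;> simp [lfv, shf, hp]
        rw [e]
        refine Subgroup.mul_mem _ ?_ ih
        split_ifs
        · exact h4
        · exact Subgroup.inv_mem _ h4
    exact fun g => (h1 g).2 (hB _ h3 (fun g hg => (h1 g).1 (hx g hg)) g)
  refine ⟨ann φ, fun x => forall_congr' fun g => ?_, fun p hp h => ?_, fun h s hd => ⟨?_, ?_⟩⟩
  · rw [rp_one_iff hπ (S g), ← ev_shift]
  · have hQ : ∀ q : Q, p • q = 0 := fun q => by
      obtain ⟨y, hy⟩ := hs (Multiplicative.ofAdd q)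
      have := congrArg Multiplicative.toAdd ((hπ (y ^ p)).2 (h y y.2))
      simpa [hy] using this
    refine ⟨fun g => by rw [mul_comm, ← nsmul_eq_mul, map_nsmul, hQ], ?_⟩
    have : Fact p.Prime := ⟨hp⟩
    let _ : Module (ZMod p) Q := AddCommGroup.zmodModule hQ
    obtain ⟨C, hC⟩ := hCC
    obtain ⟨c, hc⟩ := (hW G ι).1 l hl f hf
    refine planar hB' (D := C * c) fun K => ⟨_, (span_le hC π (c * (K + 1))).trans_eq
      (by rw [mul_assoc]), fun u hu => Submodule.subset_span ⟨⟨f u, hm u⟩, hc K u hu, rfl⟩⟩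
  · intro n x hn hx g
    have h1 := hx g
    rw [mul_smul_comm, map_zsmul] at h1
    obtain ⟨y, hy⟩ := hs (Multiplicative.ofAdd (ev φ (tau g * x)))
    have h2 : π (y ^ n.natAbs) = 1 := by
      rw [map_pow, hy, ← ofAdd_nsmul, natAbs_nsmul_eq_zero.2 h1]
      rfl
    have h3 := (hπ y).2 (h y y.2 _ (Int.natAbs_ne_zero.2 hn) ((hπ _).1 h2))
    rw [hy] at h3
    exact h3
  · refine ⟨s * B.card, fun x => ?_⟩
    obtain ⟨n, hn, h0⟩ := ker_big B
      (fun g => Fintype.linearCombination ℤ fun i => ev φ (tau g * x i)) s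
      (fun g _ => (Submodule.rank_le _).trans (rank_le_of_dep hs hπ hd)) (by simp)
    exact ⟨n, hn, hB' _ fun g hg => by
      rw [ev_comb, ← h0 g hg, Fintype.linearCombination_apply]⟩

end ANd
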