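import Pool.Agent.P.MP_5e7d86_al.BRp

/-! Auerbach bases and comparison of gauges. -/

set_option autoImplicit false
open Classical
open scoped commutatorElement

namespace ANd

namespace Auer

variable {A : Type} [Ring A] [Algebra ℝ A]

theorem basis (S : Set A) (hS : S.Finite) :
    ∃ b : Fin (Module.finrank ℝ (Submodule.span ℝ S)) → A, (∀ s, b s ∈ S) ∧
      ∀ y ∈ S, ∃ be : Fin _ → ℝ, (∀ s, |be s| ≤ 1) ∧ y = ∑ s, be s • b s := by
  have : FiniteDimensional ℝ (Submodule.span ℝ S) := FiniteDimensional.span_of_finite ℝ hS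
  obtain ⟨f, f1, -, f3⟩ := Submodule.exists_fun_fin_finrank_span_eq ℝ S
  let e := Module.finBasis ℝ (Submodule.span ℝ S)
  let T : Set (Submodule.span ℝ S) := Subtype.val ⁻¹' S
  have hT : T.Finite := hS.preimage Subtype.val_injective.injOn
  let f' : Fin _ → Submodule.span ℝ S := fun i => ⟨f i, Submodule.subset_span (f1 i)⟩
  have l1 : LinearIndependent ℝ f' := LinearIndependent.of_comp (Submodule.subtype _) f3
  have l2 : IsUnit (e.det f') := e.is_basis_iff_det.1
    ⟨l1, l1.span_eq_top_of_card_eq_finrank' (Fintype.card_fin _)⟩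
  obtain ⟨b, b1, b2⟩ := Set.exists_max_image (Set.pi Set.univ fun _ => T) (fun b => |e.det b|)
    (Set.Finite.pi fun _ => hT) ⟨f', fun i _ => f1 i⟩
  have b3 : 0 < |e.det b| := (abs_pos.2 l2.ne_zero).trans_le (b2 f' fun i _ => f1 i)
  obtain ⟨l3, l4⟩ := e.is_basis_iff_det.2 (abs_pos.1 b3).isUnit
  refine ⟨fun i => b i, fun i => b1 i trivial, fun y hy => ?_⟩
  let y' : Submodule.span ℝ S := ⟨y, Submodule.subset_span hy⟩
  refine ⟨fun i => (Module.Basis.mk l3 l4.ge).repr y' i, fun i => ?_, ?_⟩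
  · have k := LinearMap.congr_fun (e.det_smul_mk_coord_eq_det_update l3 l4.ge i) y'
    have k1 : e.det b * (Module.Basis.mk l3 l4.ge).repr y' i = e.det (Function.update b i y') := k
    have k2 := b2 (Function.update b i y') fun j _ => by
      rcases eq_or_ne j i with rfl | h
      · rw [Function.update_self]; exact hy
      · rw [Function.update_of_ne h]; exact b1 j trivial
    rw [← k1, abs_mul] at k2
    exact (mul_le_iff_le_one_right b3).1 k2
  · have k := congrArg Subtype.val ((Module.Basis.mk l3 l4.ge).sum_repr y')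
    simpa using k.symm

theorem coord {S : Set A} {m : ℕ} {b : Fin m → A}
    (h : ∀ y ∈ S, ∃ be : Fin m → ℝ, (∀ s, |be s| ≤ 1) ∧ y = ∑ s, be s • b s) {a : ℝ} {v : A}
    (hv : In S a v) : ∃ be : Fin m → ℝ, (∀ s, |be s| ≤ a) ∧ v = ∑ s, be s • b s := by
  induction hv with
  | zero => exact ⟨0, by simp, by simp⟩
  | mem v hv => exact h v hv
  | add a a' v w _ _ k k' =>
    obtain ⟨x, x1, rfl⟩ := k
    obtain ⟨y, y1, rfl⟩ := k'
    exact ⟨x + y, fun s => (abs_add_le _ _).trans (add_le_add (x1 s) (y1 s)), by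
      simp [add_smul, Finset.sum_add_distrib]⟩
  | smul t a v _ k =>
    obtain ⟨x, x1, rfl⟩ := k
    exact ⟨t • x, fun s => by
      rw [Pi.smul_apply, smul_eq_mul, abs_mul]
      exact mul_le_mul_of_nonneg_left (x1 s) (abs_nonneg t), by
      simp [Finset.smul_sum, smul_smul]⟩
  | mono a a' v h _ k =>
    obtain ⟨x, x1, rfl⟩ := k
    exact ⟨x, fun s => (x1 s).trans h, rfl⟩

theorem retr (B0 B1 : Set A) (h0 : B0.Finite) : ∃ C : ℝ, 0 ≤ C ∧
    ∀ (a : ℝ) (u : A), u ∈ Submodule.span ℝ B1 → In B0 a u → In B1 (C * a) u := by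
  obtain ⟨g, hg⟩ := (Submodule.span ℝ B1).subtype.exists_leftInverse_of_injective
    (Submodule.ker_subtype _)
  obtain ⟨C, c0, c1⟩ := In.exists_unif (Y := B1) (h0.image ((Submodule.span ℝ B1).subtype ∘ₗ g))
    (by rintro _ ⟨y, -, rfl⟩; exact (g y).2)
  refine ⟨C, c0, fun a u hu h => ?_⟩
  refine (h.map _ c0 fun y hy => c1 _ ⟨y, hy, rfl⟩).congr ?_
  exact congrArg Subtype.val (LinearMap.congr_fun hg ⟨u, hu⟩)

end Auer

theorem pAuer : S_Auer := fun _ _ _ => ⟨fun V _ S hS hV => by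
  obtain ⟨b, b1, b2⟩ := Auer.basis S hS
  exact ⟨_, Submodule.finrank_mono (Submodule.span_le.2 hV), b, b1, fun _ _ => Auer.coord b2⟩,
  fun B0 B1 h0 _ => Auer.retr B0 B1 h0⟩

end ANd
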