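import Pool.Agent.P.MP_5e7d86_al.BRp

/-! Package B1. -/

set_option autoImplicit false
open Classical
open scoped commutatorElement

namespace ANd
namespace B1

variable {A : Type} [Ring A] [Algebra ℝ A]

theorem nw_mem (V I : Submodule ℝ A) (hI : ∀ x ∈ V, ∀ y ∈ I, br x y ∈ I) {X Y : A} (hX : X ∈ V)
    (hY : Y ∈ V) (h : br X Y ∈ I) : ∀ (b c : Bool) (w : List Bool), nw X Y (b :: c :: w) ∈ I
  | b, c, [] => by
    show br (if b then X else Y) (if c then X else Y) ∈ I
    cases b <;> cases c <;> simp only [if_true, if_false, Bool.false_eq_true, br_self]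
    · exact I.zero_mem
    · rw [br_swap]; exact I.neg_mem h
    · exact h
    · exact I.zero_mem
  | b, c, d :: w => by
    show br (if b then X else Y) (nw X Y (c :: d :: w)) ∈ I
    refine hI _ ?_ _ (nw_mem V I hI hX hY h c d w)
    split_ifs
    · exact hX
    · exact hY

theorem iter_mem (V I : Submodule ℝ A) (hI : ∀ x ∈ V, ∀ y ∈ I, br x y ∈ I) {X y : A} (hX : X ∈ V)
    (h : br X y ∈ I) : ∀ j : ℕ, (br X)^[j + 1] y ∈ I
  | 0 => h
  | j + 1 => by
    rw [Function.iterate_succ_apply']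
    exact hI _ hX _ (iter_mem V I hI hX h j)

end B1

open B1 in
theorem pB1 (hB : S_BCH) (hE : S_ExpLog) : S_B1 := by
  intro A _ _ D V hV
  obtain ⟨-, e2, -, ⟨e41, e42, e43⟩, e5, e6, e7, e8, -, -⟩ := hE A D
  obtain ⟨L, hL, hb⟩ := hB A D
  have two : ∀ I : Submodule ℝ A, (∀ x ∈ V, ∀ y ∈ I, br x y ∈ I) → ∀ u ∈ D.Ex V, ∀ u' ∈ D.Ex V,
      br (D.LL u) (D.LL u') ∈ I → D.LL (u * u') - D.LL u - D.LL u' ∈ I := by
    intro I hI u hu u' hu' h
    obtain ⟨a1, a2⟩ := e2 _ hu.1
    obtain ⟨b1, b2⟩ := e2 _ hu'.1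
    have := hb _ a2 _ b2
    rw [a1, b1] at this
    have e : D.LL (u * u') - D.LL u - D.LL u' =
        (L.map fun p => p.1 • nw (D.LL u) (D.LL u') p.2).sum := by
      unfold NilD.LL
      rw [Units.val_mul, this]
      abel
    rw [e]
    refine list_sum_mem fun x hx => ?_
    obtain ⟨⟨t, w⟩, hp, rfl⟩ := List.mem_map.1 hx
    obtain ⟨h1, h2⟩ := hL _ hp
    refine I.smul_mem _ ?_
    match w, h1, h2 with
    | [], h1, _ => simp at h1
    | [b], h1, h2 => cases b <;> simp at h1 h2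
    | b :: c :: w, _, _ => exact nw_mem V I hI hu.2 hu'.2 h b c w
  refine ⟨⟨{ carrier := D.Ex V
             mul_mem' := fun {u u'} hu hu' => ⟨e42 _ _ hu.1 hu'.1, ?_⟩
             one_mem' := ⟨e41, by rw [LL_one]; exact V.zero_mem⟩
             inv_mem' := fun {u} hu => ⟨e43 _ hu.1, ?_⟩ }, rfl⟩, two, ?_, ?_⟩
  · have := two V hV.br u hu u' hu' (hV.br _ hu.2 _ hu'.2)
    have := V.add_mem (V.add_mem this hu'.2) hu.2
    simpa using this
  · have := e5 u hu.1 (-1)
    rw [zpow_neg_one] at this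
    rw [this]
    exact V.smul_mem _ hu.2
  · intro I hI u hu y hy h
    rw [e8 u hu.1 y hy, Finset.sum_range_succ']
    simp only [Nat.factorial_zero, Nat.cast_one, inv_one, one_smul, Function.iterate_zero, id,
      add_sub_cancel_right]
    exact I.sum_mem fun j _ => I.smul_mem _ (iter_mem V I hI hu.2 h j)
  · intro g hg u hu
    have := (hg _ hu.2).1
    exact ⟨e7 g u hu.1 (hV.le this), by rw [e6]; exact this⟩

end ANd
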