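import Pool.Agent.P.MP_5e7d86_al.BRp

/-! Gauge bounds for the logarithm of a product and for the adjoint action. -/

set_option autoImplicit false
open Classical
open scoped commutatorElement

namespace ANd

namespace B2

variable {A : Type} [Ring A] [Algebra ℝ A] {Y : Set A} {N M A0 : ℝ}
  (hb : ∀ i j (a b : ℝ) (v w : A), In (TG Y i) a v → In (TG Y j) b w →
    In (TG Y (i + j + 1)) (N * a * b) (br v w))
include hb

theorem step {X w : A} {k : ℕ} {a g : ℝ} (hM : N * a ≤ M) (hX : In (TG Y 0) a X)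
    (hw : In (TG Y k) g w) : In (TG Y (k + 1)) (M * g) (br X w) := by
  have := hb 0 k a g X w hX hw
  rw [zero_add] at this
  exact this.le (mul_le_mul_of_nonneg_right hM hw.nonneg)

theorem word {X X' : A} {k : ℕ} {g : ℝ} (hM : N * A0 ≤ M) (h1 : 1 ≤ M) (hX : In (TG Y 0) A0 X)
    (hX' : In (TG Y 0) A0 X') (hg : In (TG Y k) g (br X X')) :
    ∀ (w : List Bool) (b c : Bool),
      In (TG Y k) (M ^ (b :: c :: w).length * g) (nw X X' (b :: c :: w))
  | [], b, c => by
    have e : g ≤ M ^ [b, c].length * g := le_mul_of_one_le_left hg.nonneg (one_le_pow₀ h1)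
    have z : In (TG Y k) g (0 : A) := In.zero' hg.nonneg
    refine In.le ?_ e
    cases b <;> cases c
    · exact z.congr (br_self X').symm
    · exact hg.neg.congr (br_swap X' X).symm
    · exact hg
    · exact z.congr (br_self X).symm
  | d :: w, b, c => by
    have hl : In (TG Y 0) A0 (if b then X else X') := by
      cases b
      exacts [hX', hX]
    have := (step hb hM hl (word hM h1 hX hX' hg w c d)).TG_anti (Nat.le_succ k)
    rw [← mul_assoc, ← pow_succ'] at this
    exact this

theorem iter {X y : A} {i : ℕ} {a b : ℝ} (hM : N * a ≤ M) (hX : In (TG Y 0) a X)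
    (hy : In (TG Y i) b y) (j : ℕ) :
    In (TG Y (i + 1 + j)) (M ^ j * (N * a * b)) ((br X)^[j + 1] y) := by
  induction j with
  | zero => simpa using step hb le_rfl hX hy
  | succ j ih =>
    rw [Function.iterate_succ_apply', pow_succ', mul_assoc]
    exact step hb hM hX ih

end B2

theorem pB2 (hH : S_BCH) (hE : S_ExpLog) (hB : S_Br) : S_B2 := by
  intro A _ _ D A0
  obtain ⟨L, hL, bch⟩ := hH A D
  obtain ⟨-, el, -, -, -, -, -, ad, -⟩ := hE A D
  obtain ⟨N, hN⟩ : ∃ N : ℝ, N = 2 ^ D.n := ⟨_, rfl⟩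
  have N1 : 1 ≤ N := hN ▸ one_le_pow₀ one_le_two
  obtain ⟨M, M1, hM⟩ : ∃ M : ℝ, 1 ≤ M ∧ N * A0 ≤ M := ⟨max _ _, le_max_left _ _, le_max_right _ _⟩
  obtain ⟨C1, hC1⟩ : ∃ C1 : ℝ, C1 = (L.map fun p => |p.1| * M ^ p.2.length).sum := ⟨_, rfl⟩
  have c1 : 0 ≤ C1 := hC1 ▸ List.sum_nonneg fun x hx => by
    obtain ⟨p, -, rfl⟩ := List.mem_map.1 hx
    positivity
  obtain ⟨C3, hC3⟩ : ∃ C3 : ℝ, C3 = D.n * M ^ D.n * N := ⟨_, rfl⟩
  have c3 : 0 ≤ C3 := hC3 ▸ by positivity
  have c2 : C1 ≤ C1 * N := le_mul_of_one_le_right c1 N1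
  refine ⟨C1 * N + C3 + N, by positivity, fun Y hY => ?_⟩
  obtain ⟨sub, -, hb, -⟩ := hB A D Y hY
  rw [← hN] at hb
  have one : ∀ (u u' : Aˣ) (k : ℕ) (g : ℝ), D.Uni u → D.Uni u' → In (TG Y 0) A0 (D.LL u) →
      In (TG Y 0) A0 (D.LL u') → In (TG Y k) g (br (D.LL u) (D.LL u')) →
      In (TG Y k) (C1 * g) (D.LL (u * u') - D.LL u - D.LL u') := by
    intro u u' k g hu hu' hX hX' hg
    have e := bch _ (el u hu).2 _ (el u' hu').2
    rw [(el u hu).1, (el u' hu').1] at e
    have := In.list_sum (Y := TG Y k) L (fun p => |p.1| * M ^ p.2.length * g)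
      (fun p => p.1 • nw (D.LL u) (D.LL u') p.2) fun p hp => by
        rw [mul_assoc]
        refine In.smul' _ ?_
        obtain ⟨t, _ | ⟨b, _ | ⟨c, w⟩⟩⟩ := p
        · simpa using hL _ hp
        · simpa using hL _ hp
        · exact B2.word hb hM M1 hX hX' hg w b c
    rw [List.sum_map_mul_right, ← hC1] at this
    refine this.congr ?_
    rw [sub_sub, eq_sub_iff_add_eq']
    exact e.symm
  refine ⟨fun u u' k g hu hu' hX hX' hg => (one u u' k g hu hu' hX hX' hg).le
    (mul_le_mul_of_nonneg_right (by linarith) hg.nonneg),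
    fun u u' i j a b hu hu' ha ha' hX hX' => ?_, fun u y i a b hu ha hX hy => ?_⟩
  · refine (one u u' _ _ hu hu' ((hX.TG_anti i.zero_le).le ha) ((hX'.TG_anti j.zero_le).le ha')
      (hb i j a b _ _ hX hX')).le ?_
    have := mul_nonneg hX.nonneg hX'.nonneg
    nlinarith [mul_nonneg c3 this, mul_nonneg (zero_le_one.trans N1) this]
  · have ab := mul_nonneg hX.nonneg hy.nonneg
    have hMa : N * a ≤ M := (mul_le_mul_of_nonneg_left ha (by linarith)).trans hM
    have two : In (TG Y (i + 2)) (C3 * (a * b)) (Ad u y - y - br (D.LL u) y) := by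
      rcases Nat.eq_zero_or_eq_succ_pred D.n with h0 | h0
      · have : Subsingleton A :=
          subsingleton_of_zero_eq_one (D.nil [] h0.symm (by simp)).symm
        exact (In.zero' (mul_nonneg c3 ab)).congr (Subsingleton.elim _ _)
      · have := In.sum_le (Y := TG Y (i + 2)) (a := M ^ D.n * (N * a * b))
          (Finset.range D.n.pred)
          (fun j => (((j + 1 + 1).factorial : ℝ)⁻¹) • (br (D.LL u))^[j + 1 + 1] y) fun j hj => by
            have j1 := Finset.mem_range.1 hj
            have e := ((B2.iter hb hMa hX hy (j + 1)).TG_anti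
              (show i + 2 ≤ _ by omega)).smul_le (t := ((j + 1 + 1).factorial : ℝ)⁻¹) (s := 1) (by
                rw [abs_of_nonneg (by positivity)]
                exact inv_le_one_of_one_le₀ (by exact_mod_cast Nat.factorial_pos _))
            refine e.le ?_
            rw [one_mul, mul_assoc N]
            exact mul_le_mul_of_nonneg_right (pow_le_pow_right₀ M1 (by omega)) (by positivity)
        refine (this.le ?_).congr ?_
        · have : ((Finset.range D.n.pred).card : ℝ) ≤ D.n := by
            rw [Finset.card_range]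
            exact_mod_cast Nat.pred_le _
          rw [hC3, mul_assoc N, mul_assoc, mul_assoc]
          exact mul_le_mul_of_nonneg_right this (by positivity)
        · rw [ad u hu y (hy.mem_sub _ (sub i)), h0, Finset.sum_range_succ', Finset.sum_range_succ']
          simp
    have c4 := mul_nonneg (mul_nonneg c1 (zero_le_one.trans N1)) ab
    have c5 := mul_nonneg (zero_le_one.trans N1) ab
    refine ⟨(((two.TG_anti (Nat.le_succ _)).add' (B2.step hb le_rfl hX hy)).le ?_).congr
      (sub_add_cancel _ _), two.le ?_⟩ <;> nlinarith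

end ANd
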