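import Pool.Agent.P.MP_5e7d86_al.BRp
import Pool.Agent.P.MP_a14ce1_nt.Nil.BCH

/-! The universal form of the Campbell-Hausdorff formula. -/

set_option autoImplicit false
open Classical
open scoped commutatorElement Pointwise

namespace ANd

namespace BCH

open Pool.Agent.P.MP_a14ce1_nt

variable {A : Type} [Ring A] [Algebra ℝ A]

omit [Algebra ℝ A] in
theorem nw_cons (x y : A) (c : Bool) {w : List Bool} (h : w ≠ []) :
    nw x y (c :: w) = br (if c then x else y) (nw x y w) := by
  cases w with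
  | nil => exact absurd rfl h
  | cons d w => rfl

theorem nw_mem (D : NilD A) {x y : A} (hx : x ∈ D.U) (hy : y ∈ D.U) :
    ∀ w : List Bool, nw x y w ∈ D.U
  | [] => D.U.zero_mem
  | [c] => by cases c <;> assumption
  | c :: d :: w => D.br_mem _ (by cases c <;> assumption) _ (nw_mem D hx hy (d :: w))

/-- the span of the words containing both letters -/
def JJ (x y : A) : Submodule ℝ A :=
  Submodule.span ℝ {v | ∃ w : List Bool, (true ∈ w ∧ false ∈ w) ∧ nw x y w = v}

theorem br_letter (x y : A) (c : Bool) {b : A} (hb : b ∈ JJ x y) :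
    br (if c then x else y) b ∈ JJ x y := by
  induction hb using Submodule.span_induction with
  | mem _ h =>
    obtain ⟨w, hw, rfl⟩ := h
    rw [← nw_cons x y c (List.ne_nil_of_mem hw.1)]
    exact Submodule.subset_span
      ⟨_, ⟨List.mem_cons_of_mem _ hw.1, List.mem_cons_of_mem _ hw.2⟩, rfl⟩
  | zero => simp
  | add a b _ _ ha hb => rw [br_add_right]; exact add_mem ha hb
  | smul t a _ ha => rw [br_smul_right]; exact Submodule.smul_mem _ _ ha

theorem br_word (x y : A) : ∀ (w : List Bool) {b : A}, b ∈ JJ x y → br (nw x y w) b ∈ JJ x y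
  | [], _, _ => by simp [nw]
  | [c], _, hb => br_letter x y c hb
  | c :: d :: w, _, hb => by
    rw [nw, br_jacobi]
    exact sub_mem (br_letter x y c (br_word x y (d :: w) hb))
      (br_word x y (d :: w) (br_letter x y c hb))

theorem pow_bot (D : NilD A) : D.U ^ D.n = ⊥ := by
  rw [Submodule.pow_eq_span_pow_set, Submodule.span_eq_bot]
  intro a ha
  obtain ⟨f, rfl⟩ := Set.mem_pow.1 ha
  refine D.nil _ List.length_ofFn fun z hz => ?_
  obtain ⟨i, rfl⟩ := List.mem_ofFn.1 hz
  exact (f i).2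

theorem gen [Algebra ℚ A] [IsScalarTower ℚ ℝ A] (D : NilD A) {x y : A} (hx : x ∈ D.U)
    (hy : y ∈ D.U) : lg D.n (ex D.n x * ex D.n y) - x - y ∈ JJ x y := by
  have uu : D.U * D.U ≤ D.U := Submodule.mul_le.2 D.mul
  have ww : (1 ⊔ D.U) * (1 ⊔ D.U) ≤ 1 ⊔ D.U := by
    rw [Submodule.sup_mul, one_mul, Submodule.mul_sup, mul_one]
    exact sup_le le_rfl (sup_le le_sup_right (uu.trans le_sup_right))
  have cw : ∀ i, D.U ^ i * (1 ⊔ D.U) = (1 ⊔ D.U) * D.U ^ i := fun i => by
    rw [Submodule.sup_mul, Submodule.mul_sup, one_mul, mul_one, ← pow_succ, ← pow_succ']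
  have hF : Nil.Filt fun i => ((1 ⊔ D.U) * D.U ^ i).restrictScalars ℚ := by
    refine ⟨fun i => ?_, fun i j a ha b hb => ?_, D.n, ?_⟩
    · change (1 ⊔ D.U) * D.U ^ (i + 1) ≤ (1 ⊔ D.U) * D.U ^ i
      rw [pow_succ', ← mul_assoc]
      exact mul_le_mul' ((mul_le_mul' le_rfl le_sup_right).trans ww) le_rfl
    · have : (1 ⊔ D.U) * D.U ^ i * ((1 ⊔ D.U) * D.U ^ j) ≤ (1 ⊔ D.U) * D.U ^ (i + j) := by
        rw [mul_assoc, ← mul_assoc (D.U ^ i), cw, mul_assoc, ← mul_assoc, ← pow_add]
        exact mul_le_mul' ww le_rfl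
      exact this (Submodule.mul_mem_mul ha hb)
    · rw [pow_bot, Submodule.mul_bot, Submodule.restrictScalars_bot]
  have u1 : D.U ≤ (1 ⊔ D.U) * D.U ^ 1 := by
    rw [pow_one, Submodule.sup_mul, one_mul]
    exact le_sup_left
  have z : ∀ a ∈ (1 ⊔ D.U) * D.U ^ 1, a ^ (D.n + 1) = 0 := fun a ha => by
    have := hF.le D.n.le_succ (hF.pow_mem ha D.n)
    rwa [pow_bot, Submodule.mul_bot, Submodule.restrictScalars_bot, Submodule.mem_bot] at this
  have e1 : ∀ a ∈ D.U, IsNilpotent.exp a = ex D.n a := fun a ha => by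
    rw [IsNilpotent.exp_eq_sum (z a (u1 ha)), ex]
    exact Finset.sum_congr rfl fun k _ => by
      rw [← Rat.cast_smul_eq_qsmul ℝ, Rat.cast_inv, Rat.cast_natCast]
  have := Nil.bch hF (L := (Submodule.span ℝ (Set.range (nw x y))).restrictScalars ℚ)
    (J := (JJ x y).restrictScalars ℚ)
    (show Submodule.span ℝ (Set.range (nw x y)) ≤ (1 ⊔ D.U) * D.U ^ 1 from
      (Submodule.span_le.2 (Set.range_subset_iff.2 (nw_mem D hx hy))).trans u1)
    (show JJ x y ≤ Submodule.span ℝ (Set.range (nw x y)) from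
      Submodule.span_mono fun v ⟨w, _, h⟩ => ⟨w, h⟩)
    (fun a ha b hb => by
      change br a b ∈ JJ x y
      change a ∈ Submodule.span ℝ (Set.range (nw x y)) at ha
      induction ha using Submodule.span_induction with
      | mem _ h =>
        obtain ⟨w, rfl⟩ := h
        exact br_word x y w hb
      | zero => simp
      | add a b _ _ ha hb => rw [br_add_left]; exact add_mem ha hb
      | smul t a _ ha => rw [br_smul_left]; exact Submodule.smul_mem _ _ ha)
    (x := x) (y := y) (Submodule.subset_span (R := ℝ) ⟨[true], rfl⟩)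
    (Submodule.subset_span (R := ℝ) ⟨[false], rfl⟩)
    (Submodule.subset_span (R := ℝ) ⟨[true, false], by simp, rfl⟩)
  rw [Nil.log_eq_sum (z _ (hF.mul_sub_one_mem (hF.exp_sub_one_mem (u1 hx))
    (hF.exp_sub_one_mem (u1 hy)))), e1 x hx, e1 y hy] at this
  rw [lg, Finset.sum_congr rfl fun k _ => ?_]
  · exact this
  · rw [← Rat.cast_smul_eq_qsmul ℝ]
    push_cast
    rfl

theorem list_of {x y v : A} (h : v ∈ JJ x y) : ∃ L : List (ℝ × List Bool),
    (∀ p ∈ L, true ∈ p.2 ∧ false ∈ p.2) ∧ v = (L.map fun p => p.1 • nw x y p.2).sum := by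
  induction h using Submodule.span_induction with
  | mem _ h =>
    obtain ⟨w, hw, rfl⟩ := h
    exact ⟨[(1, w)], by simpa using hw, by simp⟩
  | zero => exact ⟨[], by simp, rfl⟩
  | add a b _ _ ha hb =>
    obtain ⟨L, h1, rfl⟩ := ha
    obtain ⟨L', h2, rfl⟩ := hb
    exact ⟨L ++ L', fun p hp => (List.mem_append.1 hp).elim (h1 p) (h2 p), by simp⟩
  | smul t a _ ha =>
    obtain ⟨L, h1, rfl⟩ := ha
    refine ⟨L.map fun p => (t * p.1, p.2), fun p hp => ?_, ?_⟩
    · obtain ⟨q, hq, rfl⟩ := List.mem_map.1 hp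
      exact h1 q hq
    · rw [List.smul_sum, List.map_map, List.map_map]
      exact congrArg List.sum (List.map_congr_left fun p _ => (mul_smul _ _ _).symm)

theorem map_nw {B : Type} [Ring B] [Algebra ℝ B] (f : A →ₐ[ℝ] B) (x y : A) :
    ∀ w : List Bool, f (nw x y w) = nw (f x) (f y) w
  | [] => map_zero f
  | [c] => by cases c <;> rfl
  | c :: d :: w => by
    rw [nw, nw, ← map_nw f x y (d :: w)]
    cases c <;> simp [br]

end BCH

theorem pBCH : S_BCH := by
  intro A _ _ D
  let D' : NilD (D.U × D.U → A) :=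
    ⟨Submodule.pi Set.univ fun _ => D.U, D.n, fun a ha b hb p hp => D.mul _ (ha p hp) _ (hb p hp),
      fun L h1 h2 => funext fun p => by
        rw [Pi.list_prod_apply]
        refine D.nil _ (by rw [List.length_map, h1]) fun z hz => ?_
        obtain ⟨a, ha, rfl⟩ := List.mem_map.1 hz
        exact h2 a ha p trivial⟩
  let _ : Algebra ℚ (D.U × D.U → A) := Algebra.compHom _ (algebraMap ℚ ℝ)
  have _ : IsScalarTower ℚ ℝ (D.U × D.U → A) := ⟨fun q r b => by
    rw [Algebra.compHom_smul_def, smul_smul, Algebra.smul_def q r]⟩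
  obtain ⟨L, h1, h2⟩ := BCH.list_of (BCH.gen D' (x := fun p => p.1) (y := fun p => p.2)
    (fun p _ => p.1.2) fun p _ => p.2.2)
  refine ⟨L, h1, fun X hX Y hY => ?_⟩
  have := congrArg (Pi.evalAlgHom ℝ (fun _ : D.U × D.U => A) (⟨X, hX⟩, ⟨Y, hY⟩)) h2
  rw [map_list_sum, List.map_map, map_sub, map_sub, sub_sub, sub_eq_iff_eq_add'] at this
  convert this using 1
  · simp [lg, ex, D']
  · congr 2
    exact List.map_congr_left fun p _ => by
      rw [Function.comp_apply, map_smul, BCH.map_nw]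
      rfl

end ANd
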