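import Pool.Agent.P.MP_5e7d86_al.BRp

/-! Brackets in gauges. -/

set_option autoImplicit false
open Classical
open scoped commutatorElement

namespace ANd

namespace Br

variable {A : Type} [Ring A] [Algebra ℝ A]

theorem bil {Y1 Y2 Y3 : Set A} {a b c : ℝ} {v w : A} (hc : 0 ≤ c)
    (h : ∀ x ∈ Y1, ∀ y ∈ Y2, In Y3 c (br x y)) (hv : In Y1 a v) (hw : In Y2 b w) :
    In Y3 (c * a * b) (br v w) := by
  have h1 : ∀ x ∈ Y1, In Y3 (c * b) (brL.flip w x) := fun x hx =>
    In.map (brL x) hc (h x hx) hw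
  rw [mul_right_comm]
  exact In.map (brL.flip w) (mul_nonneg hc hw.nonneg) h1 hv

theorem prod_zero (D : NilD A) (L : List A) (h : D.n ≤ L.length) (hL : ∀ x ∈ L, x ∈ D.U) :
    L.prod = 0 := by
  rw [← List.take_append_drop D.n L, List.prod_append,
    D.nil _ (by simpa using h) fun x hx => hL x (List.mem_of_mem_take hx), zero_mul]

theorem nest_nil (D : NilD A) : ∀ (j : ℕ) (v : Fin (j + 1) → A), (∀ u, v u ∈ D.U) →
    ∀ L M : List A, (∀ x ∈ L, x ∈ D.U) → (∀ x ∈ M, x ∈ D.U) →
      D.n ≤ L.length + M.length + (j + 1) → L.prod * nest j v * M.prod = 0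
  | 0, v, hv, L, M, hL, hM, h => by
    have e := prod_zero D (L ++ v 0 :: M) (by simp; omega) fun x hx => by
      rcases List.mem_append.1 hx with hx | hx
      · exact hL x hx
      · rcases List.mem_cons.1 hx with rfl | hx
        · exact hv 0
        · exact hM x hx
    rwa [List.prod_append, List.prod_cons, ← mul_assoc] at e
  | j + 1, v, hv, L, M, hL, hM, h => by
    have e1 := nest_nil D j (fun u => v u.succ) (fun u => hv _) (L ++ [v 0]) M
      (fun x hx => by
        rcases List.mem_append.1 hx with hx | hx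
        · exact hL x hx
        · rw [List.mem_singleton.1 hx]
          exact hv 0) hM (by simp; omega)
    have e2 := nest_nil D j (fun u => v u.succ) (fun u => hv _) L (v 0 :: M) hL
      (fun x hx => by
        rcases List.mem_cons.1 hx with rfl | hx
        · exact hv 0
        · exact hM x hx) (by simp; omega)
    rw [List.prod_append, List.prod_singleton] at e1
    rw [List.prod_cons] at e2
    rw [nest_succ, br, mul_sub, sub_mul, ← mul_assoc L.prod, e1, ← mul_assoc L.prod,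
      mul_assoc _ (v 0), e2, sub_zero]

theorem TE_zero_of (D : NilD A) {Y : Set A} (hY : Y ⊆ D.U) {j : ℕ} (h : D.n ≤ j + 1) {w : A}
    (hw : w ∈ TE Y j) : w = 0 := by
  obtain ⟨v, hv, rfl⟩ := hw
  simpa using nest_nil D j v (fun u => hY (hv u)) [] [] (by simp) (by simp) (by simpa using h)

theorem br_TE {Y : Set A} : ∀ (i : ℕ) (v : Fin (i + 1) → A), (∀ u, v u ∈ Y) →
    ∀ (j : ℕ), ∀ w ∈ TE Y j, In (TE Y (i + j + 1)) (2 ^ i) (br (nest i v) w)
  | 0, v, hv, j, w, hw => by
    rw [pow_zero, zero_add]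
    exact In.mem _ (br_mem_TE (hv 0) hw)
  | i + 1, v, hv, j, w, hw => by
    have h1 := In.map (Y' := TE Y (i + j + 1 + 1)) (brL (v 0)) zero_le_one
      (fun y hy => In.mem _ (br_mem_TE (hv 0) hy))
      (br_TE i (fun u => v u.succ) (fun u => hv _) j w hw)
    have h2 := br_TE i (fun u => v u.succ) (fun u => hv _) (j + 1) _ (br_mem_TE (hv 0) hw)
    rw [nest_succ, br_jacobi, show i + 1 + j + 1 = i + j + 1 + 1 by omega]
    exact (h1.sub h2).le (le_of_eq (by ring))

theorem br_TG (D : NilD A) {Y : Set A} (hY : Y ⊆ D.U) {i j : ℕ} {a b : ℝ} {v w : A}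
    (hv : In (TG Y i) a v) (hw : In (TG Y j) b w) :
    In (TG Y (i + j + 1)) (2 ^ D.n * a * b) (br v w) := by
  refine bil (by positivity) ?_ hv hw
  rintro x ⟨i', hi, hx⟩ y ⟨j', hj, hy⟩
  by_cases h : D.n ≤ i' + 1
  · rw [TE_zero_of D hY h hx, br_zero_left]
    exact In.zero' (by positivity)
  · obtain ⟨u, hu, rfl⟩ := hx
    exact ((br_TE i' u hu j' y hy).TE_TG.TG_anti (by omega)).le
      (pow_le_pow_right₀ one_le_two (by omega))

theorem nest_TE {Y : Set A} {a : ℝ} : ∀ (i : ℕ) (v : Fin (i + 1) → A), (∀ u, In Y a (v u)) →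
    In (TE Y i) (a ^ (i + 1)) (nest i v)
  | 0, v, hv => by
    rw [TE_zero, zero_add, pow_one]
    exact hv 0
  | i + 1, v, hv => by
    rw [nest_succ]
    exact (bil zero_le_one (fun x hx y hy => In.mem _ (br_mem_TE hx hy)) (hv 0)
      (nest_TE i (fun u => v u.succ) fun u => hv _)).le (le_of_eq (by ring))

theorem nest_TG (D : NilD A) {Y : Set A} (hY : Y ⊆ D.U) {a : ℝ} :
    ∀ (i : ℕ) (v : Fin (i + 1) → A), (∀ u, In (TG Y 0) a (v u)) →
      In (TG Y i) ((2 ^ D.n) ^ i * a ^ (i + 1)) (nest i v) ∧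
      ∀ s, In (TG Y 1) a (v s) → In (TG Y (i + 1)) ((2 ^ D.n) ^ i * a ^ (i + 1)) (nest i v)
  | 0, v, hv => by
    refine ⟨by simpa using hv 0, fun s hs => ?_⟩
    obtain rfl : s = 0 := Fin.fin_one_eq_zero s
    simpa using hs
  | i + 1, v, hv => by
    obtain ⟨h1, h2⟩ := nest_TG D hY i (fun u => v u.succ) fun u => hv _
    rw [nest_succ]
    refine ⟨((br_TG D hY (hv 0) h1).TG_anti (by omega)).le (le_of_eq (by ring)), fun s => ?_⟩
    refine Fin.cases (fun hs => ?_) (fun s hs => ?_) s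
    · exact ((br_TG D hY hs h1).TG_anti (by omega)).le (le_of_eq (by ring))
    · exact ((br_TG D hY (hv 0) (h2 s hs)).TG_anti (by omega)).le (le_of_eq (by ring))

theorem TG_finite (D : NilD A) {Y : Set A} (hY : Y ⊆ D.U) (hf : Y.Finite) (i : ℕ) :
    (TG Y i).Finite := by
  refine (((Set.finite_lt_nat D.n).biUnion fun j _ => TE_finite hf j).insert 0).subset ?_
  rintro w ⟨j, -, hw⟩
  by_cases h : D.n ≤ j + 1
  · exact Or.inl (TE_zero_of D hY h hw)
  · exact Or.inr (Set.mem_biUnion (show j < D.n by omega) hw)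

end Br

theorem pBr : S_Br := by
  intro A _ _ D Y hY
  refine ⟨fun i => TG_sub D.U D.br_mem hY i, fun j h w hw => Br.TE_zero_of D hY h hw,
    fun i j a b v w hv hw => Br.br_TG D hY hv hw, fun i a v hv => ?_,
    fun i a v hv => Br.nest_TE i v hv, fun i a v hv => Br.nest_TG D hY i v hv,
    fun hf i => Br.TG_finite D hY hf i⟩
  rw [TG_eq] at hv
  exact hv.split_union

end ANd
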