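import Pool.Agent.P.MP_5e7d86_al.BRp

set_option autoImplicit false

open Classical
open scoped commutatorElement

namespace ANd

namespace CC

variable {G : Type} [Group G]

/-- number of points of `X` that stay in `X` after right multiplication by `g` -/
noncomputable def inn (X : Finset G) (g : G) : ℕ := (X.filter (fun x => x * g ∈ X)).card

/-- number of points of `X` that leave `X` after right multiplication by `g` -/
noncomputable def out (X : Finset G) (g : G) : ℕ := (X.filter (fun x => x * g ∉ X)).card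

theorem inn_add_out (X : Finset G) (g : G) : inn X g + out X g = X.card := by
  unfold inn out
  exact Finset.card_filter_add_card_filter_not (s := X) (fun x => x * g ∈ X)

theorem inn_inv_le (X : Finset G) (g : G) : inn X g ≤ inn X g⁻¹ := by
  unfold inn
  refine Finset.card_le_card_of_injOn (fun x => x * g) ?_ ?_
  · intro x hx
    simp only [Finset.coe_filter, Set.mem_ofPred_eq] at hx ⊢
    exact ⟨hx.2, by simpa using hx.1⟩
  · intro x _ y _ h
    exact mul_right_cancel h

theorem out_inv (X : Finset G) (g : G) : out X g⁻¹ = out X g := by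
  have h1 := inn_add_out X g
  have h2 := inn_add_out X g⁻¹
  have h3 := inn_inv_le X g
  have h4 := inn_inv_le X g⁻¹
  rw [inv_inv] at h4
  omega

theorem out_one (X : Finset G) : out X 1 = 0 := by
  unfold out
  rw [Finset.card_eq_zero, Finset.filter_eq_empty_iff]
  intro x hx
  simpa using hx

theorem out_mul (X : Finset G) (g h : G) : out X (g * h) ≤ out X g + out X h := by
  unfold out
  have hsub : X.filter (fun x => x * (g * h) ∉ X) ⊆
      X.filter (fun x => x * g ∉ X) ∪ (X.filter (fun x => x * h ∉ X)).image (fun y => y * g⁻¹) := by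
    intro x hx
    rw [Finset.mem_filter] at hx
    rw [Finset.mem_union]
    by_cases hg : x * g ∈ X
    · right
      rw [Finset.mem_image]
      refine ⟨x * g, ?_, by simp⟩
      rw [Finset.mem_filter]
      exact ⟨hg, by rw [mul_assoc]; exact hx.2⟩
    · left
      rw [Finset.mem_filter]
      exact ⟨hx.1, hg⟩
  refine (Finset.card_le_card hsub).trans ((Finset.card_union_le _ _).trans ?_)
  exact Nat.add_le_add_left Finset.card_image_le _

theorem out_gen (S X : Finset G) (s : G) (hs : s ∈ S) :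
    out X s ≤ (X.filter (fun g => ∃ s ∈ S, g * s ∉ X)).card := by
  unfold out
  refine Finset.card_le_card ?_
  intro x hx
  rw [Finset.mem_filter] at hx ⊢
  exact ⟨hx.1, s, hs, hx.2⟩

theorem out_list (S X : Finset G) (L : List G) (hL : ∀ x ∈ L, x ∈ S ∨ x⁻¹ ∈ S) :
    out X L.prod ≤ L.length * (X.filter (fun g => ∃ s ∈ S, g * s ∉ X)).card := by
  induction L with
  | nil => simp [out_one]
  | cons a L ih =>
    rw [List.prod_cons, List.length_cons]
    have h1 := out_mul X a L.prod
    have h2 := ih (fun x hx => hL x (List.mem_cons_of_mem _ hx))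
    have h3 : out X a ≤ (X.filter (fun g => ∃ s ∈ S, g * s ∉ X)).card := by
      rcases hL a List.mem_cons_self with h | h
      · exact out_gen S X a h
      · rw [← out_inv]; exact out_gen S X _ h
    nlinarith

/-- the class of `X` over the coset `q` -/
noncomputable def cls (E : Subgroup G) (X : Finset G) (q : G ⧸ E) : Finset G :=
  X.filter (fun x : G => (x : G ⧸ E) = q)

theorem card_cls (E : Subgroup G) (X : Finset G) :
    X.card = ∑ q ∈ X.image (fun x : G => (x : G ⧸ E)), (cls E X q).card := by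
  unfold cls
  exact Finset.card_eq_sum_card_fiberwise
    (fun x hx => Finset.mem_coe.2 (Finset.mem_image_of_mem _ hx))

theorem inn_cls (E : Subgroup G) (X : Finset G) (g : G) (hg : g ∈ E) :
    inn X g = ∑ q ∈ X.image (fun x : G => (x : G ⧸ E)), inn (cls E X q) g := by
  unfold inn
  rw [Finset.card_eq_sum_card_fiberwise (f := fun x : G => (x : G ⧸ E))
    (t := X.image (fun x : G => (x : G ⧸ E)))
    (fun x hx => Finset.mem_coe.2 (Finset.mem_image_of_mem _
      (Finset.mem_filter.1 (Finset.mem_coe.1 hx)).1))]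
  refine Finset.sum_congr rfl (fun q _ => ?_)
  congr 1
  ext x
  unfold cls
  simp only [Finset.mem_filter]
  have hq : ((x * g : G) : G ⧸ E) = (x : G ⧸ E) := QuotientGroup.mk_mul_of_mem x hg
  constructor
  · rintro ⟨⟨h1, h2⟩, h3⟩
    exact ⟨⟨h1, h3⟩, h2, by rw [hq]; exact h3⟩
  · rintro ⟨⟨h1, h3⟩, h2, _⟩
    exact ⟨⟨h1, h2⟩, h3⟩

theorem inn_not (E : Subgroup G) (X : Finset G) (g : G) (hg : g ∉ E) (q : G ⧸ E) :
    inn X g + 2 * (cls E X q).card ≤ 2 * X.card := by
  have hc : (cls E X q).card + (X.filter (fun x : G => ¬ (x : G ⧸ E) = q)).card = X.card := by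
    unfold cls
    exact Finset.card_filter_add_card_filter_not (s := X) (fun x : G => (x : G ⧸ E) = q)
  have hsub : X.filter (fun x => x * g ∈ X) ⊆
      X.filter (fun x : G => ¬ (x : G ⧸ E) = q) ∪
        (X.filter (fun x : G => ¬ (x : G ⧸ E) = q)).image (fun y => y * g⁻¹) := by
    intro x hx
    rw [Finset.mem_filter] at hx
    rw [Finset.mem_union]
    by_cases hq : (x : G ⧸ E) = q
    · right
      rw [Finset.mem_image]
      refine ⟨x * g, ?_, by simp⟩
      rw [Finset.mem_filter]
      refine ⟨hx.2, fun h => hg ?_⟩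
      have h2 : (x : G ⧸ E) = ((x * g : G) : G ⧸ E) := hq.trans h.symm
      rw [QuotientGroup.eq] at h2
      simpa using h2
    · left
      rw [Finset.mem_filter]
      exact ⟨hx.1, hq⟩
  have h1 := (Finset.card_le_card hsub).trans (Finset.card_union_le _ _)
  have h2 : ((X.filter (fun x : G => ¬ (x : G ⧸ E) = q)).image (fun y => y * g⁻¹)).card ≤
      (X.filter (fun x : G => ¬ (x : G ⧸ E) = q)).card := Finset.card_image_le
  unfold inn
  omega

theorem ent {ι : Type} (T : Finset ι) (n : ι → ℕ) (q0 : ι) (h0 : q0 ∈ T)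
    (hmax : ∀ q ∈ T, n q ≤ n q0) (N : ℕ) (hN : N = ∑ q ∈ T, n q) :
    ∑ q ∈ T, 3 * ((n q : ℝ) * Real.log (n q)) + 2 * ((N : ℝ) - n q0) ≤
      3 * ((N : ℝ) * Real.log N) := by
  have hl2 : (2 : ℝ) / 3 ≤ Real.log 2 := by
    have := Real.log_two_gt_d9
    linarith
  have hle : ∀ q ∈ T, n q ≤ N := fun q hq => by
    rw [hN]; exact Finset.single_le_sum (fun _ _ => Nat.zero_le _) hq
  have hhalf : ∀ q ∈ T.erase q0, 2 * n q ≤ N := by
    intro q hq
    have hq' := Finset.mem_erase.1 hq
    have h1 := hmax q hq'.2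
    have h2 : n q0 + ∑ x ∈ T.erase q0, n x = ∑ x ∈ T, n x := Finset.add_sum_erase T n h0
    have h3 : n q ≤ ∑ x ∈ T.erase q0, n x :=
      Finset.single_le_sum (fun _ _ => Nat.zero_le _) hq
    omega
  have hA : ∀ q ∈ T.erase q0, 3 * ((n q : ℝ) * Real.log (n q)) + 2 * (n q : ℝ) ≤
      3 * ((n q : ℝ) * Real.log N) := by
    intro q hq
    rcases Nat.eq_zero_or_pos (n q) with h | h
    · simp [h]
    · have hp : (0 : ℝ) < n q := by exact_mod_cast h
      have h1 : Real.log (2 * (n q : ℝ)) ≤ Real.log N := by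
        apply Real.log_le_log (by positivity)
        exact_mod_cast hhalf q hq
      rw [Real.log_mul (by norm_num) hp.ne'] at h1
      nlinarith
  have hB : 3 * ((n q0 : ℝ) * Real.log (n q0)) ≤ 3 * ((n q0 : ℝ) * Real.log N) := by
    rcases Nat.eq_zero_or_pos (n q0) with h | h
    · simp [h]
    · have hp : (0 : ℝ) < n q0 := by exact_mod_cast h
      have h1 : Real.log (n q0 : ℝ) ≤ Real.log N := by
        apply Real.log_le_log hp
        exact_mod_cast hle q0 h0
      nlinarith
  have hS : (N : ℝ) = n q0 + ∑ x ∈ T.erase q0, (n x : ℝ) := by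
    rw [hN, ← Finset.add_sum_erase T n h0]
    push_cast
    rfl
  have hC := Finset.sum_le_sum hA
  rw [Finset.sum_add_distrib, ← Finset.mul_sum (T.erase q0) (fun q => (n q : ℝ)) 2,
    ← Finset.mul_sum (T.erase q0) (fun q => (n q : ℝ) * Real.log N) 3,
    ← Finset.sum_mul] at hC
  rw [← Finset.add_sum_erase T _ h0]
  have hD : ∑ x ∈ T.erase q0, (n x : ℝ) = N - n q0 := by linarith
  rw [hD] at hC
  nlinarith

theorem iso (E : ℕ → Subgroup G) (w : ℕ → G) (hE : Monotone E) (M : ℕ)
    (hw : ∀ i < M, w i ∈ E (i + 1) ∧ w i ∉ E i) (X : Finset G) :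
    ∑ i ∈ Finset.range M, (inn X (w i) : ℝ) ≤ 3 * ((X.card : ℝ) * Real.log X.card) := by
  induction M generalizing X with
  | zero =>
    simp only [Finset.range_zero, Finset.sum_empty]
    have := Real.log_natCast_nonneg X.card
    positivity
  | succ M ih =>
    have ih' := ih (fun i hi => hw i (by omega))
    rcases X.eq_empty_or_nonempty with hX | hX
    · subst hX
      simp [inn]
    obtain ⟨q0, h0, hmax⟩ := Finset.exists_max_image (X.image (fun x : G => (x : G ⧸ E M)))
      (fun q => (cls (E M) X q).card) (hX.image _)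
    rw [Finset.sum_range_succ]
    have h1 : ∑ i ∈ Finset.range M, (inn X (w i) : ℝ) =
        ∑ q ∈ X.image (fun x : G => (x : G ⧸ E M)),
          ∑ i ∈ Finset.range M, (inn (cls (E M) X q) (w i) : ℝ) := by
      rw [Finset.sum_comm]
      refine Finset.sum_congr rfl (fun i hi => ?_)
      have hi' := Finset.mem_range.1 hi
      rw [inn_cls (E M) X (w i) (hE (show i + 1 ≤ M by omega) (hw i (by omega)).1)]
      push_cast
      rfl
    have h2 := Finset.sum_le_sum
      (fun q (_ : q ∈ X.image (fun x : G => (x : G ⧸ E M))) => ih' (cls (E M) X q))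
    have h3 := inn_not (E M) X (w M) (hw M (by omega)).2 q0
    have h3' : (inn X (w M) : ℝ) + 2 * ((cls (E M) X q0).card : ℝ) ≤ 2 * (X.card : ℝ) := by
      exact_mod_cast h3
    have h4 := ent (X.image (fun x : G => (x : G ⧸ E M))) (fun q => (cls (E M) X q).card) q0 h0 hmax
      X.card (card_cls (E M) X)
    rw [h1]
    linarith

end CC

theorem pCC (hW : S_Wl) : S_CC := by
  intro G _ S hS hF
  obtain ⟨C, hC⟩ := hF
  obtain ⟨_, _, hw⟩ := hW G S hS
  refine ⟨12 * C, fun r M E w hE h => ?_⟩
  rcases Nat.eq_zero_or_pos M with hM | hM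
  · omega
  rcases Nat.eq_zero_or_pos r with hr | hr
  · exfalso
    obtain ⟨h1, _, h3⟩ := h 0 hM
    obtain ⟨L, hL, _, hp⟩ := (hw r (w 0)).1 h1
    have : L = [] := List.length_eq_zero_iff.1 (by omega)
    rw [this, List.prod_nil] at hp
    exact h3 (hp ▸ (E 0).one_mem)
  obtain ⟨F, hne, hcard, hb⟩ := hC (2 * r) (by omega)
  have hout : ∀ i < M, (F.card : ℝ) / 2 ≤ (CC.inn F (w i) : ℝ) := by
    intro i hi
    obtain ⟨L, hL, hLS, hp⟩ := (hw r (w i)).1 (h i hi).1
    have h1 := CC.out_list S F L hLS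
    rw [← hp] at h1
    have h2 := CC.inn_add_out F (w i)
    have h3 : L.length * (F.filter (fun g => ∃ s ∈ S, g * s ∉ F)).card ≤
        r * (F.filter (fun g => ∃ s ∈ S, g * s ∉ F)).card := Nat.mul_le_mul_right _ hL
    have hb' : 2 * (r * (F.filter (fun g => ∃ s ∈ S, g * s ∉ F)).card) ≤ F.card := by
      rw [← mul_assoc]
      convert hb
    have h4 : F.card ≤ 2 * CC.inn F (w i) := by omega
    have h5 : (F.card : ℝ) ≤ 2 * (CC.inn F (w i) : ℝ) := by exact_mod_cast h4
    linarith
  have h1 := CC.iso E w hE M (fun i hi => (h i hi).2) F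
  have h2 : ∑ _i ∈ Finset.range M, (F.card : ℝ) / 2 ≤
      ∑ i ∈ Finset.range M, (CC.inn F (w i) : ℝ) :=
    Finset.sum_le_sum (fun i hi => hout i (Finset.mem_range.1 hi))
  rw [Finset.sum_const, Finset.card_range, nsmul_eq_mul] at h2
  have hp : (0 : ℝ) < F.card := by exact_mod_cast hne.card_pos
  have h3 : (M : ℝ) ≤ 6 * Real.log F.card := by
    have : (F.card : ℝ) * M ≤ (F.card : ℝ) * (6 * Real.log F.card) := by nlinarith
    exact le_of_mul_le_mul_left this hp
  have h4 : Real.log F.card ≤ 2 * r * C := by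
    have h5 : Real.log F.card ≤ Real.log ((C : ℝ) ^ (2 * r)) := by
      apply Real.log_le_log hp
      exact_mod_cast hcard
    rw [Real.log_pow] at h5
    have h6 : Real.log C ≤ C := Real.log_le_self (Nat.cast_nonneg C)
    have h7 : ((2 * r : ℕ) : ℝ) * Real.log C ≤ ((2 * r : ℕ) : ℝ) * C :=
      mul_le_mul_of_nonneg_left h6 (Nat.cast_nonneg _)
    push_cast at h5 h7
    linarith
  have h8 : (M : ℝ) ≤ 12 * C * r := by nlinarith
  exact_mod_cast h8

end ANd
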