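import Pool.Agent.P.MP_5e7d86_al.BRp

set_option autoImplicit false
set_option linter.unusedSectionVars false
open Classical
open scoped commutatorElement

namespace ANd

theorem pCar (hAuer : S_Auer) (hCmL : S_CmL) (hGR : S_GR) (hLCS : S_LCS) (hSize : S_Size)
    (hLie1 : S_Lie1) (hEL : S_ExpLog) : S_Car := by
  intro G _ A _ _ S i
  have := S.fd
  have hV := (hLie1 G A S.N S.R S.toSetup.normal).1
  have YU : ∀ k, S.Y k ⊆ S.R.D.U := fun k _ hv => hV.le (S.Y_sub k hv)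
  obtain ⟨-, hfin, -, -⟩ := hSize G A S
  obtain ⟨-, -, -, -, hz, -⟩ := hEL A S.R.D
  set rho := Module.finrank ℝ S.R.V with hrho
  refine ⟨rho, fun Lam => ?_⟩
  obtain ⟨N0, hN0⟩ := exists_nat_ge (Lam + 1)
  obtain ⟨Cm, hCm0, hCm⟩ := hCmL A S.R.D i 1
  obtain ⟨Cg, hCg0, hGr⟩ := hGR A S.R.D (rho * (N0 * (Cm + Cm)))
  obtain ⟨C1, hC1⟩ := exists_nat_ge (Cg + rho * (N0 * (Cm + Cm)))
  refine ⟨C1 + rho * (N0 * 4 ^ i), fun j hj v hv => ?_⟩
  obtain ⟨m, hm, b, hb, hrep⟩ := (hAuer A).1 S.R.V (TE (S.Y j) i) (TE_finite (hfin j).1 i)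
    (TE_sub _ hV.br (S.Y_sub j) i)
  obtain ⟨be, hbe, rfl⟩ := hrep Lam v hv
  have hg : ∀ s, ∃ g : Fin (i + 1) → G, (∀ u, g u ∈ S.toSetup.B j) ∧
      b s = nest i fun u => S.R.L (g u) := fun s => by
    obtain ⟨w, hw, e⟩ := hb s
    choose g hg1 hg2 using hw
    exact ⟨g, hg1, by rw [e]; congr 1; funext u; exact (hg2 u).symm⟩
  choose g hgB hgb using hg
  have hn : ∀ s, |(⌊be s⌋ : ℝ)| ≤ N0 := fun s => by
    have h1 := Int.floor_le (be s)
    have h2 := Int.lt_floor_add_one (be s)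
    have h3 := abs_le.1 (hbe s)
    rw [abs_le]; constructor <;> linarith [h3.1, h3.2]
  have hn' : ∀ s, ⌊be s⌋.natAbs ≤ N0 := fun s => by
    have := hn s
    rw [← Int.cast_abs, ← Int.natCast_natAbs] at this
    exact_mod_cast this
  have hcN : ∀ s, cm i (g s) ∈ S.toSetup.Γ j i := fun s =>
    (hLCS G _).2.1 i _ fun u => S.toSetup.B_sub_E _ (hgB s u)
  have hcm : ∀ s, In (TG (S.Y j) i) (Cm + Cm) (S.R.L (cm i (g s))) ∧
      In (TG (S.Y j) (i + 1)) Cm (S.R.L (cm i (g s)) - b s) := by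
    intro s
    obtain ⟨-, a2, a3⟩ := hCm (S.Y j) (YU _) (fun u => S.R.psi (g s u)) fun u =>
      ⟨S.R.uni _ (hgB s u).1, In.mem _ (sub_TG _ (S.mem_Y (hgB s u)))⟩
    rw [← map_cm] at a3
    rw [hgb s]
    refine ⟨((a3.TG_anti (Nat.le_succ i)).add' a2).congr ?_, a3⟩
    simp [LData.L]
  have hpw : ∀ s, S.R.D.LL (S.R.psi (cm i (g s) ^ ⌊be s⌋)) = (⌊be s⌋ : ℝ) • S.R.L (cm i (g s)) :=
    fun s => by rw [map_zpow, hz _ (S.R.uni _ (S.toSetup.Γ_le j i (hcN s)))]; rfl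
  have hmr : (m : ℝ) ≤ rho := by exact_mod_cast hm
  have hG := hGr (S.Y j) (YU _) i
    (List.ofFn fun s => ((N0 : ℝ) * (Cm + Cm), S.R.psi (cm i (g s) ^ ⌊be s⌋))) (by
      intro p hp
      obtain ⟨s, rfl⟩ := (List.mem_ofFn' _ _).1 hp
      refine ⟨S.R.uni _ (S.N.zpow_mem (S.toSetup.Γ_le j i (hcN s)) _), ?_⟩
      simp only [hpw]
      exact (hcm s).1.smul_le (hn s)) (by
      simp only [List.map_ofFn, List.sum_ofFn, Function.comp_def, Finset.sum_const,
        Finset.card_univ, Fintype.card_fin, nsmul_eq_mul]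
      exact mul_le_mul_of_nonneg_right hmr (by positivity))
  set y := (List.ofFn fun s => cm i (g s) ^ ⌊be s⌋).prod with hy
  have hG' : In (TG (S.Y j) (i + 1)) Cg (S.R.L y - ∑ s, (⌊be s⌋ : ℝ) • S.R.L (cm i (g s))) := by
    refine hG.congr ?_
    simp only [List.map_ofFn, List.sum_ofFn, Function.comp_def, hpw, hy, LData.L, map_list_prod]
  have s1 : In (TG (S.Y j) i) (rho * (N0 * (Cm + Cm)))
      (∑ s, (⌊be s⌋ : ℝ) • S.R.L (cm i (g s))) := by
    refine (In.sum_le Finset.univ _ fun s _ => (hcm s).1.smul_le (hn s)).le ?_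
    simp only [Finset.card_univ, Fintype.card_fin]
    exact mul_le_mul_of_nonneg_right hmr (by positivity)
  have s2 : In (TG (S.Y j) (i + 1)) (rho * (N0 * (Cm + Cm)))
      (∑ s, (⌊be s⌋ : ℝ) • (S.R.L (cm i (g s)) - b s)) := by
    refine (In.sum_le Finset.univ _ fun s _ => (hcm s).2.smul_le (hn s)).le ?_
    simp only [Finset.card_univ, Fintype.card_fin]
    exact mul_le_mul hmr (mul_le_mul_of_nonneg_left (by linarith) (by positivity))
      (by positivity) (by positivity)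
  have hC : Cg + rho * (N0 * (Cm + Cm)) ≤ ((C1 + rho * (N0 * 4 ^ i) : ℕ) : ℝ) := by
    refine hC1.trans ?_
    exact_mod_cast Nat.le_add_right _ _
  refine ⟨y, ?_, ?_, ?_, ∑ s, Int.fract (be s) • b s, ?_, ?_⟩
  · refine Subgroup.list_prod_mem _ fun z hz => ?_
    obtain ⟨s, rfl⟩ := (List.mem_ofFn' _ _).1 hz
    exact Subgroup.zpow_mem _ (hcN s) _
  · refine (S.len.prod_le _ (N0 * (4 ^ i * j)) fun z hz => ?_).trans ?_
    · obtain ⟨s, rfl⟩ := (List.mem_ofFn' _ _).1 hz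
      exact (S.len.zpow _ _).trans
        (Nat.mul_le_mul (hn' s) (S.len.cm _ i _ fun u => (hgB s u).2))
    · rw [List.length_ofFn]
      calc m * (N0 * (4 ^ i * j)) ≤ rho * (N0 * (4 ^ i * j)) := Nat.mul_le_mul_right _ hm
        _ = rho * (N0 * 4 ^ i) * j := by ring
        _ ≤ _ := Nat.mul_le_mul_right _ (Nat.le_add_left _ _)
  · exact (((hG'.TG_anti (Nat.le_succ i)).add' s1).le hC).congr (by abel)
  · refine (In.sum_le Finset.univ _ fun s _ => (In.mem _ (hb s)).smul_le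
      (s := 1) (by rw [abs_of_nonneg (Int.fract_nonneg _)]; exact (Int.fract_lt_one _).le)).le ?_
    simpa using hm
  · refine ((hG'.neg.sub s2).le hC).congr ?_
    have e : ∑ s, be s • b s = ∑ s, (⌊be s⌋ : ℝ) • b s + ∑ s, Int.fract (be s) • b s := by
      rw [← Finset.sum_add_distrib]
      exact Finset.sum_congr rfl fun s _ => by rw [← add_smul, Int.floor_add_fract]
    simp only [e, smul_sub, Finset.sum_sub_distrib]
    abel

end ANd
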