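import Pool.Agent.P.MP_5e7d86_al.BRp

/-! Package ChB: the basic identities of the chain complex. -/

set_option autoImplicit false
open Classical
open scoped commutatorElement

namespace ANd

namespace ChB

variable {P : Type} [Group P] {M : Type} [AddCommGroup M] [Module ℚ M]

omit [Group P] in
theorem bd_single (n : ℕ) (v : Fin (n + 1) → P) (m : M) :
    bd P M n (Finsupp.single v m) =
      ∑ i : Fin (n + 1), ((-1 : ℚ) ^ (i : ℕ)) • Finsupp.single (fun u => v (i.succAbove u)) m := by
  simp [bd, LinearMap.sum_apply, Finsupp.mapDomain_single]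

omit [Group P] in
theorem cone_single (n : ℕ) (x : P) (v : Fin n → P) (m : M) :
    cone M n x (Finsupp.single v m) = Finsupp.single (Fin.cons x v : Fin (n + 1) → P) m := by
  simp [cone, Finsupp.mapDomain_single]

theorem act_single (rho : Representation ℚ P M) (n : ℕ) (g : P) (v : Fin n → P) (m : M) :
    act rho n g (Finsupp.single v m) = Finsupp.single (fun u => g * v u) (rho g m) := by
  simp [act, Finsupp.mapDomain_single]

omit [Group P] in
theorem bd_cone0 (x : P) (c : Ch P M 0) : bd P M 0 (cone M 0 x c) = c := by
  induction c using Finsupp.induction_linear with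
  | zero => simp
  | add a b ha hb => rw [map_add, map_add, ha, hb]
  | single v m =>
    rw [cone_single, bd_single]
    simp only [Nat.reduceAdd, Finset.univ_unique, Finset.sum_singleton, Fin.default_eq_zero,
      Fin.val_zero, pow_zero, one_smul]
    congr 1

omit [Group P] in
theorem bd_cone (n : ℕ) (x : P) (c : Ch P M (n + 1)) :
    bd P M (n + 1) (cone M (n + 1) x c) = c - cone M n x (bd P M n c) := by
  induction c using Finsupp.induction_linear with
  | zero => simp
  | add a b ha hb => simp only [map_add, ha, hb]; abel
  | single v m =>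
    rw [cone_single, bd_single, bd_single, Fin.sum_univ_succ, map_sum, sub_eq_add_neg,
      ← Finset.sum_neg_distrib]
    congr 1
    · simp
    · refine Finset.sum_congr rfl fun i _ => ?_
      rw [map_smul, cone_single, Fin.val_succ, pow_succ, mul_neg_one, neg_smul]
      congr 3
      funext u
      refine Fin.cases ?_ (fun u => ?_) u
      · simp
      · simp

omit [Group P] in
theorem bd_bd (n : ℕ) (c : Ch P M (n + 2)) : bd P M n (bd P M (n + 1) c) = 0 := by
  induction n with
  | zero =>
    induction c using Finsupp.induction_linear with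
    | zero => simp
    | add a b ha hb => rw [map_add, map_add, ha, hb, add_zero]
    | single v m =>
      rw [← Fin.cons_self_tail v, ← cone_single, bd_cone, map_sub, bd_cone0, sub_self]
  | succ n ih =>
    induction c using Finsupp.induction_linear with
    | zero => simp
    | add a b ha hb => rw [map_add, map_add, ha, hb, add_zero]
    | single v m =>
      rw [← Fin.cons_self_tail v, ← cone_single, bd_cone, map_sub, bd_cone, ih, map_zero,
        sub_zero, sub_self]

variable (rho : Representation ℚ P M)

theorem bd_act (n : ℕ) (g : P) (c : Ch P M (n + 1)) :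
    bd P M n (act rho (n + 1) g c) = act rho n g (bd P M n c) := by
  induction c using Finsupp.induction_linear with
  | zero => simp
  | add a b ha hb => simp only [map_add, ha, hb]
  | single v m =>
    rw [act_single, bd_single, bd_single, map_sum]
    refine Finset.sum_congr rfl fun i _ => ?_
    rw [map_smul, act_single]

theorem act_mul (n : ℕ) (g h : P) (c : Ch P M n) :
    act rho n (g * h) c = act rho n g (act rho n h c) := by
  induction c using Finsupp.induction_linear with
  | zero => simp
  | add a b ha hb => simp only [map_add, ha, hb]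
  | single v m => simp only [act_single, map_mul, Module.End.mul_apply, mul_assoc]

theorem act_one (n : ℕ) (c : Ch P M n) : act rho n 1 c = c := by
  induction c using Finsupp.induction_linear with
  | zero => simp
  | add a b ha hb => simp only [map_add, ha, hb]
  | single v m => simp only [act_single, map_one, Module.End.one_apply, one_mul]

theorem bd_JJ (Γ : Subgroup P) (n : ℕ) (c : Ch P M (n + 1)) (h : c ∈ JJ rho Γ (n + 1)) :
    bd P M n c ∈ JJ rho Γ n := by
  refine (Submodule.span_le (p := (JJ rho Γ n).comap (bd P M n))).2 ?_ h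
  rintro _ ⟨g, hg, c, rfl⟩
  refine Submodule.subset_span ⟨g, hg, bd P M n c, ?_⟩
  rw [map_sub, bd_act]

theorem act_JJ (Γ : Subgroup P) (n : ℕ) (g : P) (c : Ch P M n)
    (hg : ∀ x ∈ Γ, g * x * g⁻¹ ∈ Γ) (h : c ∈ JJ rho Γ n) : act rho n g c ∈ JJ rho Γ n := by
  refine (Submodule.span_le (p := (JJ rho Γ n).comap (act rho n g))).2 ?_ h
  rintro _ ⟨x, hx, c, rfl⟩
  refine Submodule.subset_span ⟨_, hg x hx, act rho n g c, ?_⟩
  rw [map_sub, ← act_mul, ← act_mul, inv_mul_cancel_right]

theorem JJ_mono (Γ Γ' : Subgroup P) (n : ℕ) (h : Γ ≤ Γ') : JJ rho Γ n ≤ JJ rho Γ' n :=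
  Submodule.span_mono fun _ ⟨g, hg, c, e⟩ => ⟨g, h hg, c, e⟩

end ChB

theorem pChB : S_ChB := fun _ _ _ _ _ =>
  ⟨ChB.bd_bd, ChB.bd_cone0, ChB.bd_cone, fun rho =>
    ⟨ChB.bd_act rho, ChB.act_mul rho, ChB.act_one rho, ChB.bd_JJ rho, ChB.act_JJ rho,
      ChB.JJ_mono rho⟩⟩

end ANd
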