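import Pool.Agent.P.MP_5e7d86_al.BRp

/-! Covers by families of sets versus colourings with short chains. -/

set_option autoImplicit false
open Classical
open scoped commutatorElement

namespace ANd

namespace Conv

variable {G : Type} [Group G] {l : G → ℕ} {Y : Set G} {r : ℕ}

theorem symm (hl : IsLen l) {x y : G} (h : Relation.ReflTransGen (Step l Y r) x y) :
    Relation.ReflTransGen (Step l Y r) y x := by
  induction h with
  | refl => exact Relation.ReflTransGen.refl
  | tail _ hs ih =>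
    refine Relation.ReflTransGen.head ⟨hs.2.1, hs.1, ?_⟩ ih
    have h := hs.2.2
    rwa [← hl.inv, mul_inv_rev, inv_inv] at h

theorem mem {x y : G} (hx : x ∈ Y) (h : Relation.ReflTransGen (Step l Y r) x y) : y ∈ Y := by
  induction h with
  | refl => exact hx
  | tail _ hs _ => exact hs.2.1

end Conv

theorem pConv (hW : S_Wl) : S_Conv := by
  intro G _ S hS d r B
  obtain ⟨hl, -, hw⟩ := hW G S hS
  constructor
  · rintro ⟨U, h1, h2, h3⟩
    refine ⟨fun i => ⋃₀ U i, fun y _ => h1 y, fun i x y h => ?_⟩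
    have key : x = y ∨ ∃ A ∈ U i, x ∈ A ∧ y ∈ A := by
      induction h with
      | refl => exact Or.inl rfl
      | tail _ hs ih =>
        obtain ⟨⟨A, hA, hb⟩, ⟨A', hA', hc⟩, hr⟩ := hs
        have e : ∀ A ∈ U i, _ ∈ A → A = A' := fun A hA hb => by
          by_contra hne
          exact h3 i A hA A' hA' hne _ hb _ hc ((hw _ _).1 hr)
        rcases ih with rfl | ⟨A1, hA1, k1, k2⟩
        · exact Or.inr ⟨A', hA', e A hA hb ▸ hb, hc⟩
        · exact Or.inr ⟨A', hA', e A1 hA1 k2 ▸ k1, hc⟩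
    rcases key with rfl | ⟨A, hA, k1, k2⟩
    · rw [inv_mul_cancel, hl.one]; exact Nat.zero_le _
    · exact (hw _ _).2 (h2 i A hA x k1 y k2)
  · rintro ⟨Z, h1, h2⟩
    refine ⟨fun i => {A | ∃ x ∈ Z i, A = {y | Relation.ReflTransGen (Step (wl S) (Z i) r) x y}},
      fun g => ?_, ?_, ?_⟩
    · obtain ⟨i, hi⟩ := h1 g trivial
      exact ⟨i, _, ⟨g, hi, rfl⟩, Relation.ReflTransGen.refl⟩
    · rintro i _ ⟨x, -, rfl⟩ g hg h hh
      exact (hw _ _).1 (h2 i g h ((Conv.symm hl hg).trans hh))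
    · rintro i _ ⟨x, hx, rfl⟩ _ ⟨x', hx', rfl⟩ hne g hg h hh hr
      have k : Relation.ReflTransGen (Step (wl S) (Z i) r) x x' :=
        (Relation.ReflTransGen.tail hg ⟨Conv.mem hx hg, Conv.mem hx' hh, (hw _ _).2 hr⟩).trans
          (Conv.symm hl hh)
      exact hne (Set.ext fun y => ⟨fun hy => (Conv.symm hl k).trans hy, fun hy => k.trans hy⟩)

end ANd
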