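import Pool.Agent.P.MP_5e7d86_al.BRp

set_option autoImplicit false
open Classical
open scoped commutatorElement

namespace ANd

theorem pR0 (hU0 : S_U0) (hDbl0 : S_Dbl0) (hDbl : S_Dbl) (hKL0 : S_KL0) (hKL : S_KL)
    (hCar : S_Car) (hLat : S_Lat) (hPhA : S_PhA) (hRI : S_RI) (hGenA : S_GenA) : S_R0 := by
  intro G _ A _ _ S
  obtain ⟨-, ⟨c, hc⟩, -⟩ := hGenA G S.toSetup
  have hU := (hU0 G A S).1
  have top : S.RR c := by
    intro Lam
    refine ⟨0, fun k _ x hx _ => ?_⟩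
    have := S.toSetup.Γ_le_lcs k c hx
    rw [hc, Subgroup.mem_bot] at this
    rw [this, S.len.one]
    exact Nat.zero_le _
  have step : ∀ i, S.RR (i + 1) → S.RR i := fun i h =>
    hRI G A S S.U0 i hU
      (hPhA G A S S.U0 i (hCar G A S i) (hLat G S.toSetup i)
        (hDbl G A S S.U0 hU (hDbl0 G A S) i))
      (hKL G A S S.U0 hU (hKL0 G A S) i) h
  have : ∀ i, S.RR i → S.RR 0 := by
    intro i
    induction i with
    | zero => exact id
    | succ i ih => exact fun h => ih (step i h)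
  exact this c top

theorem pCore (hTower : S_Tower) (hLB : S_LB) (hMk : S_Mk) (hUpper : S_Upper) (hR0 : S_R0)
    (hGeo : S_Geo) : S_Core := by
  intro G _ l hl hp hcc hw N d pr hs hk hF A _ _ R k hA
  have hN : N.Normal := ⟨fun n hn g => by
    rw [hk] at hn ⊢
    simp [hn]⟩
  obtain ⟨t1, t2, t3⟩ := hTower G N
  obtain ⟨g1, -, -, -, -, g6⟩ := hGeo G l hl
  rcases t2 hF with ⟨r, hr⟩ | hinf
  · have h1 : r + d ≤ k := hLB G l hl hp N r d k hN (t1 N r hr) (t3 d pr hs hk) hA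
    obtain ⟨S, e1, e2, e3⟩ := hMk G l hl hp hcc hw N d pr hs hk r hr A R
    obtain ⟨c, hc⟩ := hUpper G A S (hR0 G A S)
    rw [e1, e2, e3] at hc
    exact ⟨c, fun r' => g1 _ _ _ _ _ _ _ _ (hc r') le_rfl h1 le_rfl le_rfl⟩
  · exfalso
    obtain ⟨P, j', hj, hT⟩ := hinf (k + 1)
    obtain ⟨a1, -, a3, a4⟩ := g6 P P.subtype P.subtype_injective
    have hA' : AsLe (fun h : P => l (P.subtype h)) k := fun r => by
      obtain ⟨B, hB⟩ := hA r
      exact ⟨B, (a1 k r B).2 (g1 _ _ _ _ _ _ _ _ hB (Set.subset_univ _) le_rfl le_rfl le_rfl)⟩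
    have := hLB P _ a4 (a3 hp) ⊤ j' 0 k inferInstance hT Tower.base hA'
    omega

end ANd
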