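import Pool.Agent.P.MP_5e7d86_al.BRp

/-! Doubling in all degrees from doubling in degree zero. -/

set_option autoImplicit false
open Classical
open scoped commutatorElement

namespace ANd

namespace Dbl

variable {G : Type} [Group G] {A : Type} [Ring A] [Algebra ℝ A] (S : LSetup G A)
  {U0 : Submodule ℝ A}

theorem br_left (hU : U0 ≤ S.R.V) {i : ℕ} {u w : A} (hu : u ∈ U0) {Y : Set A} (hY : Y ⊆ S.R.V)
    (hw : w ∈ TE Y i) : br u w ∈ S.UI U0 (i + 1) := by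
  obtain ⟨v, hv, rfl⟩ := hw
  refine Submodule.subset_span ⟨Fin.cons u v, fun s => ?_, ⟨0, hu⟩, (nest_cons i u v).symm⟩
  exact Fin.cases (hU hu) (fun s => hY (hv s)) s

theorem br_right {i : ℕ} {a w : A} (ha : a ∈ S.R.V) (hw : w ∈ S.UI U0 i) :
    br a w ∈ S.UI U0 (i + 1) := by
  refine (Submodule.span_le (p := (S.UI U0 (i + 1)).comap (brL a))).2 ?_ hw
  rintro _ ⟨v, hv, ⟨s, hs⟩, rfl⟩
  refine Submodule.subset_span ⟨Fin.cons a v, fun s => ?_, ⟨s.succ, hs⟩, (nest_cons i a v).symm⟩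
  exact Fin.cases ha hv s

theorem br_TE {Y : Set A} {i : ℕ} {a b : ℝ} {x w : A} (hx : In Y a x) (hw : In (TE Y i) b w) :
    In (TE Y (i + 1)) (b * a) (br x w) :=
  In.map (brL.flip w) hw.nonneg (fun y hy => by
    simpa using In.map (brL y) zero_le_one (fun z hz => In.mem _ (br_mem_TE hy hz)) hw) hx

end Dbl

theorem pDbl (hB : S_Br) (hL : S_Lie1) : S_Dbl := by
  intro G _ A _ _ S U0 hU h0 i
  have hV : S.R.V ≤ S.R.D.U := (hL G A S.N S.R S.toSetup.normal).1.le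
  induction i with
  | zero => exact h0
  | succ i ih =>
    intro A0
    obtain ⟨j0, C0, k0⟩ := h0 A0
    obtain ⟨j1, C1, k1⟩ := ih A0
    obtain ⟨C, c1, c2, c3, c4, c5, c6⟩ : ∃ C : ℕ, 1 ≤ C ∧ A0 ≤ C ∧ C0 ≤ C ∧ C1 ≤ C ∧ C1 * C0 ≤ C ∧
        2 ^ S.R.D.n * C0 + 2 ^ S.R.D.n * C0 * C1 ≤ C :=
      ⟨1 + A0 + C0 + C1 + C1 * C0 + (2 ^ S.R.D.n * C0 + 2 ^ S.R.D.n * C0 * C1), by omega, by omega,
        by omega, by omega, by omega, by omega⟩
    refine ⟨j0 + j1, C, fun j hj a v hv => In.split_sub _ (Nat.cast_nonneg C) ?_ hv⟩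
    rintro _ ⟨w, hw, rfl⟩
    have hw' : nest i (fun s => w s.succ) ∈ TE (S.Y (A0 * j)) i := ⟨_, fun s => hw _, rfl⟩
    obtain ⟨x, u, hu, x1, x2⟩ := k0 j (by omega) 1 (w 0) (In.mem _ (by rw [TE_zero]; exact hw 0))
    obtain ⟨y, u', hu', y1, y2⟩ := k1 j (by omega) 1 _ (In.mem _ hw')
    rw [S.UI_zero hU] at hu
    rw [mul_one] at x1 x2 y1 y2
    rw [TE_zero] at x1
    have m : ∀ {c : ℕ}, c ≤ C → S.Y (c * j) ⊆ S.Y (C * j) :=
      fun h => S.Y_mono (Nat.mul_le_mul_right j h)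
    have b := (hB A S.R.D (S.Y (C * j)) fun z hz => hV (S.Y_sub _ hz)).2.2.1
    have b1 := b 1 i _ _ _ _ (x2.TG_mono (m c3)) ((In.mem _ hw').TE_TG.TG_mono (m c2))
    have b2 := b 0 (i + 1) _ _ _ _
      (x1.mono_set fun z hz => sub_TG _ (S.Y_mono (Nat.le_mul_of_pos_left j c1) hz))
      (y2.TG_mono (m c4))
    rw [show 1 + i + 1 = i + 1 + 1 by omega] at b1
    rw [show 0 + (i + 1) + 1 = i + 1 + 1 by omega] at b2
    refine ⟨br x y, _, add_mem (Dbl.br_left S hU hu (S.Y_sub _) hw')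
      (Dbl.br_right S (x1.mem_sub _ (S.Y_sub j)) hu'),
      (Dbl.br_TE x1 y1).le (by exact_mod_cast c5), ((b1.add' b2).le ?_).congr ?_⟩
    · rw [mul_one]
      exact_mod_cast c6
    · simp only [nest_succ, br_sub_left, br_sub_right]
      abel

end ANd
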