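import Pool.Agent.P.MP_5e7d86_al.BRp

/-! Package Dbl0 for MP_5e7d86_al: the doubling step in degree zero. -/

set_option autoImplicit false
open Classical
open scoped commutatorElement

namespace ANd

namespace Dbl0

theorem sp_succ {H : Type} [Group H] {d : ℕ} (t : Fin (d + 1) → H) (q : Fin (d + 1) → ℤ) :
    sp t q = t 0 ^ q 0 * sp (fun a => t a.succ) (fun a => q a.succ) := by
  simp [sp, List.ofFn_succ]

variable {A : Type} [Ring A] [Algebra ℝ A]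

theorem nrm_sp (V : Submodule ℝ A) : ∀ (d : ℕ) (t : Fin d → Aˣ), (∀ a, Nrm (t a) V) →
    ∀ q : Fin d → ℤ, Nrm (sp t q) V
  | 0, t, _, q => by
    have : sp t q = 1 := by simp [sp]
    rw [this]; exact Nrm.one V
  | d + 1, t, h, q => by
    rw [sp_succ]
    exact ((h 0).zpow _).mul (nrm_sp V d _ (fun a => h a.succ) _)

/-- The one dimensional reduction, coordinate by coordinate. -/
theorem coord (hO : S_OneD) (B0 : Set A) (hB : B0.Finite) (U : Submodule ℝ A) (A0 : ℕ) :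
    ∀ (d : ℕ) (t : Fin d → Aˣ), (∀ a, Nrm (t a) (Submodule.span ℝ B0)) →
      (∀ a, Vp B0 (t a) ⊔ Vp B0 (t a)⁻¹ ≤ U) → (∀ a (z : ℤ), ∀ w ∈ U, Ad (t a ^ z) w ∈ U) →
      ∃ (j0 : ℕ) (C : ℝ), 0 ≤ C ∧ ∀ j ≥ j0, ∀ q : Fin d → ℤ, Sm (A0 * j) q →
        ∀ v ∈ Submodule.span ℝ B0, ∃ w ∈ U,
          In {x | ∃ q' : Fin d → ℤ, Sm j q' ∧ x = Ad (sp t q') v} C (Ad (sp t q) v - w)
  | 0, t, _, _, _ => by
    refine ⟨0, 1, zero_le_one, fun j _ q _ v _ => ⟨0, U.zero_mem, ?_⟩⟩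
    rw [sub_zero]
    exact In.of_mem ⟨q, fun a => a.elim0, rfl⟩ le_rfl
  | d + 1, t, hN, hV, hU => by
    obtain ⟨j1, C1, hC1, h1⟩ := coord hO B0 hB U A0 d (fun a => t a.succ) (fun a => hN a.succ)
      (fun a => hV a.succ) (fun a => hU a.succ)
    obtain ⟨j2, C2, hC2, h2⟩ := hO A B0 (t 0) hB (hN 0) A0
    refine ⟨j1 + j2, C2 * C1, mul_nonneg hC2 hC1, fun j hj q hq v hv => ?_⟩
    obtain ⟨w1, hw1, hI⟩ := h1 j (by omega) (fun a => q a.succ) (fun a => hq a.succ) v hv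
    have hI2 : In {x | ∃ q' : Fin d → ℤ, Sm j q' ∧
        x = Ad (t 0 ^ q 0) (Ad (sp (fun a => t a.succ) q') v)} (1 * C1)
        ((AdH (t 0 ^ q 0)).toLinearMap
          (Ad (sp (fun a => t a.succ) (fun a => q a.succ)) v - w1)) := by
      refine In.map _ zero_le_one ?_ hI
      rintro y ⟨q', hq', rfl⟩
      exact In.of_mem ⟨q', hq', rfl⟩ le_rfl
    rw [one_mul] at hI2
    have key := In.lift_sub (Y' := {x | ∃ q' : Fin (d + 1) → ℤ, Sm j q' ∧ x = Ad (sp t q') v})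
      U hC2 (by
        rintro y ⟨q', hq', rfl⟩
        have hv' : Ad (sp (fun a => t a.succ) q') v ∈ Submodule.span ℝ B0 :=
          (nrm_sp _ d _ (fun a => hN a.succ) q' v hv).1
        obtain ⟨w, hw, hI3⟩ := h2 j (by omega) (q 0) (hq 0) _ hv'
        refine ⟨w, hV 0 hw, hI3.mono_set ?_⟩
        rintro x ⟨p', hp', rfl⟩
        refine ⟨Fin.cons p' q', ?_, ?_⟩
        · intro a
          refine Fin.cases ?_ (fun a => ?_) a
          · simpa using hp'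
          · simpa using hq' a
        · rw [sp_succ, Ad_mul]
          simp) hI2
    obtain ⟨u, hu, hI4⟩ := key
    refine ⟨Ad (t 0 ^ q 0) w1 + u, U.add_mem (hU 0 _ _ hw1) hu, hI4.congr ?_⟩
    rw [sp_succ t q, Ad_mul]
    simp only [AlgHom.toLinearMap_apply, AdH_apply, Ad_sub]
    abel

variable {G : Type} [Group G]

theorem L_conj (hE : S_ExpLog) (S : LSetup G A) (g y : G) :
    S.R.L (g * y * g⁻¹) = Ad (S.R.psi g) (S.R.L y) := by
  have := (hE A S.R.D).2.2.2.2.2.1 (S.R.psi g) (S.R.psi y)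
  simp only [LData.L, map_mul, map_inv]
  exact this

theorem conj_B (S : Setup G) {p y : G} {a b : ℕ} (hp : S.l p ≤ a) (hy : y ∈ S.B b) :
    p * y * p⁻¹ ∈ S.B (2 * a + b) :=
  ⟨S.normal.conj_mem _ hy.1 _, (S.len.conj p y).trans (by have := hy.2; omega)⟩

/-- One conjugate of a short element. -/
theorem one (hO : S_OneD) (hU : S_U0) (hB2 : S_B2) (hG : S_GenA) (hE : S_ExpLog) (hL : S_Lie1)
    (S : LSetup G A) : ∃ cs : ℕ, ∀ c0 CL : ℕ, ∃ (j0 K : ℕ) (C : ℝ), 0 ≤ C ∧ ∀ j ≥ j0,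
      ∀ p y : G, S.l p ≤ CL * j → y ∈ S.toSetup.B (c0 * j) → ∃ v1, ∃ u ∈ S.U0,
        In (S.Y ((2 * cs + c0) * j)) C v1 ∧
        In (TG (S.Y (K * j)) 1) C (S.R.L (p * y * p⁻¹) - v1 - u) := by
  obtain ⟨hN, -, hpr, ⟨cp, hcp⟩, ⟨cs, hcs⟩, -, -⟩ := hG G S.toSetup
  obtain ⟨hls, hnrm, -, -⟩ := hL G A S.N S.R hN
  obtain ⟨-, hinv, -, -⟩ := hU G A S
  refine ⟨cs, fun c0 CL => ?_⟩
  obtain ⟨j0, C1, hC1, h1⟩ := coord hO S.B0 S.B0_finite S.U0 (cp * CL) S.d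
    (fun a => S.R.psi (S.t a)) (fun a => by rw [S.B0_span]; exact hnrm _)
    (fun a => sup_le (le_iSup (fun g => Vp S.B0 (S.R.psi g)) (S.t a)) (by
      rw [← map_inv]; exact le_iSup (fun g => Vp S.B0 (S.R.psi g)) (S.t a)⁻¹))
    (fun a z w hw => by rw [← map_zpow]; exact hinv _ _ hw)
  obtain ⟨C2, hC2, h2⟩ := hB2 A S.R.D 1
  refine ⟨j0, CL + 2 * (cs * (cp * CL)) + c0, C1 + C2, add_nonneg hC1 hC2,
    fun j hj p y hp hy => ?_⟩
  set q : Fin S.d → ℤ := Multiplicative.toAdd (S.pr p) with hqdef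
  have hq : Sm (cp * CL * j) q := by
    intro a
    refine (hcp p a).trans ?_
    have : cp * S.l p ≤ cp * CL * j := by
      rw [mul_assoc]; exact Nat.mul_le_mul_left _ hp
    exact_mod_cast this
  have hls' : S.l (S.s q) ≤ cs * (cp * CL) * j := by
    have := hcs _ q hq
    rw [mul_assoc cs]; exact this
  set n : G := p * (S.s q)⁻¹ with hn
  have hnN : n ∈ S.N := by
    rw [S.ker, hn, map_mul, map_inv, hpr, hqdef]
    simp
  have hnl : S.l n ≤ CL * j + cs * (cp * CL) * j := by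
    refine (S.len.mul _ _).trans ?_
    rw [S.len.inv]
    omega
  have hnB : n ∈ S.toSetup.B ((CL + 2 * (cs * (cp * CL)) + c0) * j) :=
    ⟨hnN, hnl.trans (by nlinarith [Nat.zero_le (cs * (cp * CL) * j), Nat.zero_le (c0 * j)])⟩
  have hyB : S.s q * y * (S.s q)⁻¹ ∈ S.toSetup.B ((CL + 2 * (cs * (cp * CL)) + c0) * j) :=
    S.toSetup.B_mono (by nlinarith [Nat.zero_le (CL * j)]) (conj_B S.toSetup hls' hy)
  have hYU : S.Y ((CL + 2 * (cs * (cp * CL)) + c0) * j) ⊆ S.R.D.U :=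
    fun z hz => hls.le (S.Y_sub _ hz)
  have e1 : p * y * p⁻¹ = n * (S.s q * y * (S.s q)⁻¹) * n⁻¹ := by rw [hn]; group
  have h3 := ((h2 _ hYU).2.2 (S.R.psi n) (S.R.L (S.s q * y * (S.s q)⁻¹)) 0 1 1 (S.R.uni n hnN)
    le_rfl (In.of_mem (sub_TG _ (S.mem_Y hnB)) le_rfl)
    (In.of_mem (sub_TG _ (S.mem_Y hyB)) le_rfl)).1
  obtain ⟨w, hw, h4⟩ := h1 j hj q hq (S.R.L y) (by rw [S.B0_span]; exact S.R.L_mem_V hy.1)
  have es : ∀ q' : Fin S.d → ℤ, sp (fun a => S.R.psi (S.t a)) q' = S.R.psi (S.s q') :=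
    fun q' => (map_sp S.R.psi S.t q').symm
  refine ⟨S.R.L (S.s q * y * (S.s q)⁻¹) - w, w, hw, ?_, ?_⟩
  · rw [L_conj hE, ← es]
    refine (h4.mono_set ?_).le (by linarith)
    rintro x ⟨q', hq', rfl⟩
    rw [es, ← L_conj hE]
    refine S.mem_Y (S.toSetup.B_mono (le_of_eq ?_) (conj_B S.toSetup (hcs _ q' hq') hy))
    ring
  · refine (h3.le (by linarith)).congr ?_
    rw [e1, L_conj hE S n]
    abel

/-- Splitting a list of vectors. -/
theorem list_split {I : Type} (U : Submodule ℝ A) (Y1 Y2 : Set A) (c : ℝ) (g : I → A) :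
    ∀ L : List I, (∀ i ∈ L, ∃ v1, ∃ u ∈ U, In Y1 c v1 ∧ In Y2 c (g i - v1 - u)) →
      ∃ v1, ∃ u ∈ U, In Y1 (L.length * c) v1 ∧ In Y2 (L.length * c) ((L.map g).sum - v1 - u)
  | [], _ => ⟨0, 0, U.zero_mem, In.zero' (by simp), by simpa using In.zero⟩
  | i :: L, h => by
    obtain ⟨v1, u, hu, a1, a2⟩ := h i (by simp)
    obtain ⟨v1', u', hu', b1, b2⟩ := list_split U Y1 Y2 c g L (fun i hi => h i (by simp [hi]))
    refine ⟨v1 + v1', u + u', U.add_mem hu hu', (a1.add' b1).le (le_of_eq ?_),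
      ((a2.add' b2).le (le_of_eq ?_)).congr ?_⟩
    · simp only [List.length_cons]; push_cast; ring
    · simp only [List.length_cons]; push_cast; ring
    · simp only [List.map_cons, List.sum_cons]; abel

end Dbl0

open Dbl0 in
theorem pDbl0 (hLo : S_Loop) (hO : S_OneD) (hU : S_U0) (hGR : S_GR) (hB2 : S_B2) (hG : S_GenA)
    (hE : S_ExpLog) (hL : S_Lie1) : S_Dbl0 := by
  intro G _ A _ _ S A0
  obtain ⟨c0, hc0⟩ := hLo G S.toSetup
  obtain ⟨cs, hcs⟩ := one hO hU hB2 hG hE hL S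
  obtain ⟨hls, -, -, -⟩ := hL G A S.N S.R S.toSetup.normal
  have hUV := (hU G A S).1
  set c1 : ℕ := 2 * cs + c0 + 1 with hc1
  have hc1p : 0 < c1 := by omega
  obtain ⟨CL, hCL⟩ := hc0 (A0 * (2 * c1))
  obtain ⟨j0, K, C1, hC1, h1⟩ := hcs c0 CL
  obtain ⟨C2, hC2, h2⟩ := hGR A S.R.D CL
  set C : ℕ := K + (2 * CL + c0) + ⌈C2 + CL * C1⌉₊ with hC
  have hCr : C2 + CL * C1 ≤ (C : ℝ) := by
    refine (Nat.le_ceil _).trans ?_
    exact_mod_cast (by omega : ⌈C2 + CL * C1⌉₊ ≤ C)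
  refine ⟨c1 * (j0 + 1), C, fun j hj a v hv => ?_⟩
  rw [TE_zero] at hv
  rw [TE_zero, S.UI_zero hUV]
  refine In.split_sub S.U0 (Nat.cast_nonneg C) ?_ hv
  rintro _ ⟨x, hx, rfl⟩
  set j' : ℕ := j / c1 with hj'
  have hj1 : j0 + 1 ≤ j' := by
    rw [hj', Nat.le_div_iff_mul_le hc1p, mul_comm]; exact hj
  have hj2 : c1 * j' ≤ j := Nat.mul_div_le j c1
  have hj3 : j ≤ 2 * c1 * j' := by
    have h := Nat.lt_mul_div_succ j hc1p
    rw [← hj'] at h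
    nlinarith
  have hj4 : j' ≤ j := Nat.div_le_self _ _
  have hx' : x ∈ S.toSetup.B (A0 * (2 * c1) * j') :=
    S.toSetup.B_mono (by rw [mul_assoc]; exact Nat.mul_le_mul_left _ hj3) hx
  obtain ⟨L, hLl, hLm, hxe⟩ := hCL j' (by omega) x hx'
  have hYU : S.Y (C * j) ⊆ S.R.D.U := fun z hz => hls.le (S.Y_sub _ hz)
  have hLr : (L.length : ℝ) ≤ CL := by exact_mod_cast hLl
  have hg := h2 _ hYU 0 (L.map fun p => ((1 : ℝ), S.R.psi (p.1 * p.2 * p.1⁻¹))) (by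
      intro z hz
      obtain ⟨p, hp, rfl⟩ := List.mem_map.1 hz
      have hB := conj_B S.toSetup (hLm p hp).1 (hLm p hp).2
      refine ⟨S.R.uni _ hB.1, In.of_mem (sub_TG _ (S.mem_Y (S.toSetup.B_mono ?_ hB))) le_rfl⟩
      calc 2 * (CL * j') + c0 * j' = (2 * CL + c0) * j' := by ring
        _ ≤ C * j := Nat.mul_le_mul (by omega) hj4) (by
      rw [List.map_map]
      have : (L.map (Prod.fst ∘ fun p : G × G =>
          ((1 : ℝ), S.R.psi (p.1 * p.2 * p.1⁻¹)))) = L.map fun _ => (1 : ℝ) := rfl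
      rw [this]
      simpa using hLr)
  have e1 : ((L.map fun p : G × G => ((1 : ℝ), S.R.psi (p.1 * p.2 * p.1⁻¹))).map Prod.snd).prod
      = S.R.psi x := by
    rw [hxe, map_list_prod, List.map_map, List.map_map]
    rfl
  have e2 : ((L.map fun p : G × G => ((1 : ℝ), S.R.psi (p.1 * p.2 * p.1⁻¹))).map
      fun p => S.R.D.LL p.2) = L.map fun p : G × G => S.R.L (p.1 * p.2 * p.1⁻¹) := by
    rw [List.map_map]
    rfl
  rw [e1, e2] at hg
  obtain ⟨v1, u, hu, a1, a2⟩ := list_split S.U0 (S.Y j) (TG (S.Y (C * j)) 1) C1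
    (fun p : G × G => S.R.L (p.1 * p.2 * p.1⁻¹)) L (by
      intro p hp
      obtain ⟨v1, u, hu, b1, b2⟩ := h1 j' (by omega) p.1 p.2 (hLm p hp).1 (hLm p hp).2
      refine ⟨v1, u, hu, b1.mono_set (S.Y_mono ?_), b2.TG_mono (S.Y_mono ?_)⟩
      · exact (Nat.mul_le_mul_right _ (by omega)).trans hj2
      · exact Nat.mul_le_mul (by omega) hj4)
  have hm : (L.length : ℝ) * C1 ≤ CL * C1 := mul_le_mul_of_nonneg_right hLr hC1
  refine ⟨v1, u, hu, a1.le (by linarith), ((hg.add' a2).le (by linarith)).congr ?_⟩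
  simp only [LData.L]
  abel

end ANd
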