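import Pool.Agent.P.MP_5e7d86_al.BRp

/-! EL: elimination along a filtration. -/

set_option autoImplicit false
open Classical
open scoped commutatorElement

namespace ANd

namespace EL

variable {G : Type} [Group G] {ι : Type}

theorem lfc_cons (p : (ι → ℤ) × Bool) (F : List ((ι → ℤ) × Bool)) :
    lfc (p :: F) = (if p.2 then tau p.1 else - tau p.1) + lfc F := by simp [lfc]

theorem lfv_cons (c : (ι → ℤ) → G) (p : (ι → ℤ) × Bool) (F : List ((ι → ℤ) × Bool))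
    (g : ι → ℤ) :
    lfv c (p :: F) g = (if p.2 then c (g + p.1) else (c (g + p.1))⁻¹) * lfv c F g := by simp [lfv]

theorem ex_shift (c : (ι → ℤ) → G) (u : ι → ℤ) (F : List ((ι → ℤ) × Bool)) :
    ∃ F', lfc F' = tau u * lfc F ∧ ∀ g, lfv c F' g = lfv c F (g + u) := by
  induction F with
  | nil => exact ⟨[], by simp [lfc], fun g => by simp [lfv]⟩
  | cons p F ih =>
    obtain ⟨F', h1, h2⟩ := ih
    refine ⟨(u + p.1, p.2) :: F', ?_, fun g => ?_⟩
    · rw [lfc_cons, lfc_cons, h1, mul_add]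
      congr 1
      split_ifs
      · rw [tau_mul]
      · rw [mul_neg, tau_mul]
    · rw [lfv_cons, lfv_cons, h2, add_assoc]

theorem ex_inv (c : (ι → ℤ) → G) (F : List ((ι → ℤ) × Bool)) :
    ∃ F', lfc F' = - lfc F ∧ ∀ g, lfv c F' g = (lfv c F g)⁻¹ := by
  induction F with
  | nil => exact ⟨[], by simp [lfc], fun g => by simp [lfv]⟩
  | cons p F ih =>
    obtain ⟨F', h1, h2⟩ := ih
    refine ⟨F' ++ [(p.1, !p.2)], ?_, fun g => ?_⟩
    · rw [lfc_append, lfc_cons, lfc_cons, h1]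
      rcases p with ⟨u, _ | _⟩ <;> simp [lfc]
    · rw [lfv_append, lfv_cons, lfv_cons, h2]
      rcases p with ⟨u, _ | _⟩ <;> simp [lfv]

theorem ex_mul (c : (ι → ℤ) → G) (F M : List ((ι → ℤ) × Bool)) :
    ∃ F', lfc F' = lfc M * lfc F ∧ ∀ g, lfv c F' g = lfv (lfv c F) M g := by
  induction M with
  | nil => exact ⟨[], by simp [lfc], fun g => by simp [lfv]⟩
  | cons p M ih =>
    obtain ⟨F', h1, h2⟩ := ih
    obtain ⟨F1, a1, a2⟩ := ex_shift c p.1 F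
    obtain ⟨F2, b1, b2⟩ := ex_inv c F1
    rcases p with ⟨u, _ | _⟩
    · refine ⟨F2 ++ F', ?_, fun g => ?_⟩
      · rw [lfc_append, lfc_cons, h1, b1, a1]
        simp [add_mul]
      · rw [lfv_append, lfv_cons, h2, b2, a2]
        simp
    · refine ⟨F1 ++ F', ?_, fun g => ?_⟩
      · rw [lfc_append, lfc_cons, h1, a1]
        simp [add_mul]
      · rw [lfv_append, lfv_cons, h2, a2]
        simp

/-- The conclusion of the statement. -/
def Q (B : ℕ → Subgroup G) (c : (ι → ℤ) → G) (F : List ((ι → ℤ) × Bool)) : Prop :=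
  ∃ C : ℕ, ∀ k ≥ 1, ∀ nu, Win k nu → ∃ sg ph, LineT C (C * k) sg ∧ Win C ph ∧
    Rp (B (C * k)) c {h | Sm (C * k) h} ((nu - sg - ph) * lfc F) 1

theorem base [Fintype ι] {c : (ι → ℤ) → G} {A B : ℕ → Subgroup G}
    (hS : ∀ k, Sec (A k) (B k) c {h | Sm k h}) (F : List ((ι → ℤ) × Bool))
    (hF : ∀ g, lfv c F g = 1) : Q B c F := by
  obtain ⟨k0, hk0⟩ := exists_Sm_fin (F.map Prod.fst).toFinset
  refine ⟨k0 + 1, fun k hk nu hnu => ⟨0, 0, LineT.zero _ _, Win.zero _, ?_⟩⟩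
  rw [sub_zero, sub_zero, eq_sum_tau nu, Finset.sum_mul]
  refine Rp.sum_one (hS _) _ _ fun g hg => ?_
  rw [smul_mul_assoc]
  refine Rp.zsmul_one (hS _) ((Rp.lfv (hS _) F g fun p hp => ?_).cast rfl (hF g)) _
  have h1 : Sm k0 p.1 := hk0 _ (List.mem_toFinset.2 (List.mem_map_of_mem hp))
  refine ((hnu g hg).add h1).mono ?_
  nlinarith

theorem step (hWC : S_WC) [Fintype ι] {c : (ι → ℤ) → G} {N Γ Γ' : Subgroup G}
    {A B : ℕ → Subgroup G} (hB : Monotone B) (hS : ∀ k, Sec (A k) (B k) c {h | Sm k h})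
    (hL : Lay N Γ' Γ) (ih : ∀ F, (∀ g, lfv c F g ∈ Γ) → Q B c F) (F : List ((ι → ℤ) × Bool))
    (hF : ∀ g, lfv c F g ∈ Γ') (J : Ideal (ZH ι))
    (hJ : ∀ x, x ∈ J ↔ ∀ g : ι → ℤ, Rp Γ (fun u => lfv c F (g + u)) Set.univ x 1)
    (hM : MLc J) : Q B c F := by
  obtain ⟨C0, h0⟩ := hM
  obtain ⟨R, C1, hR, h1⟩ := hWC ι J
  have key : ∀ y : ZH ι, ∃ D : ℕ, y ∈ J → ∀ k ≥ 1, ∀ nu, Win k nu → ∃ sg ph,
      LineT D (D * k) sg ∧ Win D ph ∧
        Rp (B (D * k)) c {h | Sm (D * k) h} ((nu * y - sg - ph) * lfc F) 1 := by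
    intro y
    by_cases hy : y ∈ J
    swap
    · exact ⟨0, fun h => absurd h hy⟩
    obtain ⟨M, hM, -⟩ := exists_lfc y
    obtain ⟨F', a1, a2⟩ := ex_mul c F M
    obtain ⟨D, hD⟩ := ih F' fun g => by
      have S : Sec Γ' Γ (fun u => lfv c F (g + u)) Set.univ :=
        ⟨hL.le, (Subgroup.commutator_mono hL.leN le_rfl).trans hL.cen, fun h _ => hF _⟩
      have r1 := Rp.lfv S M 0 fun _ _ => Set.mem_univ _
      rw [tau_zero, one_mul, hM] at r1
      have r2 := Rp.uniq S ((hJ y).1 hy g) r1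
      rw [a2]
      simpa [lfv] using r2
    obtain ⟨e, he⟩ := LineT.mul_fixed y
    obtain ⟨w, hw⟩ := exists_Win y
    refine ⟨e * D + D + e + w, fun _ k hk nu hnu => ?_⟩
    obtain ⟨sg, ph, s1, s2, s3⟩ := hD k hk nu hnu
    have le1 : D * k ≤ (e * D + D + e + w) * k := Nat.mul_le_mul_right _ (by omega)
    have le2 : D * k + e ≤ (e * D + D + e + w) * k :=
      calc D * k + e ≤ (D + e) * k := by
            rw [add_mul]; exact Nat.add_le_add_left (Nat.le_mul_of_pos_right _ hk) _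
        _ ≤ _ := Nat.mul_le_mul_right _ (by omega)
    refine ⟨sg * y, ph * y, (he _ _ _ s1).mono (by omega) le2,
      (s2.mul hw).mono (by omega),
      (s3.mono (hB le1) fun h (hh : Sm _ h) => hh.mono le1).cast ?_ rfl⟩
    rw [a1, hM]
    ring
  choose D hD using key
  obtain ⟨E, hE⟩ : ∃ E, ∀ y ∈ R, D y ≤ E := ⟨R.sup D, fun y hy => Finset.le_sup hy⟩
  refine ⟨C0 + R.card * E + E * ((C1 + 1) * (C0 + 1)), fun k hk nu hnu => ?_⟩
  obtain ⟨sg0, ph0, s1, s2, s3⟩ := h0 k hk nu hnu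
  have k1 : (C0 + 1) * k ≥ 1 := Nat.mul_pos (by omega) hk
  have k2 : (C1 + 1) * ((C0 + 1) * k) ≥ 1 := Nat.mul_pos (by omega) k1
  obtain ⟨mu, m1, m2⟩ := h1 _ k1 _ s3
    (((hnu.mono (by nlinarith)).sub (s1.win.mono (by nlinarith))).sub (s2.mono (by nlinarith)))
  have h2 : ∀ y : ZH ι, ∃ sg ph, y ∈ R →
      LineT (D y) (D y * ((C1 + 1) * ((C0 + 1) * k))) sg ∧ Win (D y) ph ∧
        Rp (B (D y * ((C1 + 1) * ((C0 + 1) * k)))) c
          {h | Sm (D y * ((C1 + 1) * ((C0 + 1) * k))) h} ((mu y * y - sg - ph) * lfc F) 1 := by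
    intro y
    by_cases hy : y ∈ R
    · obtain ⟨sg, ph, h⟩ := hD y (hR y hy) _ k2 (mu y)
        ((m1 y hy).mono (Nat.mul_le_mul_right _ (by omega)))
      exact ⟨sg, ph, fun _ => h⟩
    · exact ⟨0, 0, fun h => absurd h hy⟩
  choose sg ph h2 using h2
  have le1 : ∀ y ∈ R, D y * ((C1 + 1) * ((C0 + 1) * k)) ≤
      (C0 + R.card * E + E * ((C1 + 1) * (C0 + 1))) * k := fun y hy => by
    refine (Nat.mul_le_mul_right _ (hE y hy)).trans ?_
    rw [← mul_assoc (C1 + 1), ← mul_assoc E]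
    exact Nat.mul_le_mul_right _ (by omega)
  have le2 : E ≤ E * ((C1 + 1) * (C0 + 1)) := Nat.le_mul_of_pos_right _ (by positivity)
  refine ⟨sg0 + ∑ y ∈ R, sg y, ph0 + ∑ y ∈ R, ph y, ?_, ?_, ?_⟩
  · refine ((s1.mono le_rfl (Nat.mul_le_mul_right _ (by omega))).add
      (LineT.sum R (fun _ => E) sg fun y hy => (h2 y hy).1.mono (hE y hy) (le1 y hy))).mono ?_ le_rfl
    rw [Finset.sum_const, smul_eq_mul]
    omega
  · exact (s2.mono (by omega)).add
      (Win.sum R ph fun y hy => (h2 y hy).2.1.mono ((hE y hy).trans (by omega)))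
  · refine (Rp.sum_one (hS _) R _ fun y hy => (h2 y hy).2.2.mono (hB (le1 y hy))
      fun h (hh : Sm _ h) => hh.mono (le1 y hy)).cast ?_ rfl
    rw [← Finset.sum_mul, Finset.sum_sub_distrib, Finset.sum_sub_distrib, ← m2]
    ring

end EL

theorem pEL (hAnn : S_Ann) (hWC : S_WC) (hp : S_MLp) (h0 : S_ML0) (hWF : S_WF) : S_EL := by
  intro G _ l hl hcc ι _ c N Γ r hc hΓ A B hB hS
  change ∀ F, (∀ g, lfv c F g ∈ Γ) → EL.Q B c F
  induction hΓ with
  | bot => exact fun F hF => EL.base hS F fun g => Subgroup.mem_bot.1 (hF g)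
  | pt Γ Γ' r _ hL hP ih =>
    intro F hF
    obtain ⟨J, j1, j2, -⟩ := hAnn G l hl hcc ι (lfv c F) N Γ' Γ ((hWF G ι).2.2.1 c hc F) hL hF
    obtain ⟨p, pp, hp'⟩ := hP
    exact EL.step hWC hB hS hL ih F hF J j1 (hp ι J p pp (j2 p pp hp').1 (j2 p pp hp').2)
  | tf Γ Γ' r s _ hL hT _ hD ih =>
    intro F hF
    obtain ⟨J, j1, -, j3⟩ := hAnn G l hl hcc ι (lfv c F) N Γ' Γ ((hWF G ι).2.2.1 c hc F) hL hF
    obtain ⟨t1, rho, t2⟩ := j3 hT s hD
    exact EL.step hWC hB hS hL ih F hF J j1 (h0 ι J rho t1 t2)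

end ANd
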