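import Pool.Agent.P.MP_5e7d86_al.BRp
import Pool.Agent.P.MP_a14ce1_nt.Nil.BCH

/-! Exponential and logarithm on a nilpotent subalgebra. -/

set_option autoImplicit false
open Classical
open scoped commutatorElement

namespace ANd

namespace ExpLog

open Pool.Agent.P.MP_a14ce1_nt.Nil

variable {A : Type} [Ring A] [Algebra ℝ A] (D : NilD A)

theorem nil' (L : List A) (h : D.n ≤ L.length) (hL : ∀ x ∈ L, x ∈ D.U) : L.prod = 0 := by
  rw [← List.take_append_drop D.n L, List.prod_append,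
    D.nil (L.take D.n) (List.length_take_of_le h) fun x hx => hL x (List.mem_of_mem_take hx),
    zero_mul]

variable {D}

theorem pow_zero' {X : A} (hX : X ∈ D.U) {k : ℕ} (hk : D.n ≤ k) : X ^ k = 0 := by
  rw [← List.prod_replicate]
  exact nil' D _ (by simpa using hk) fun x hx => (List.eq_of_mem_replicate hx) ▸ hX

theorem nilp {X : A} (hX : X ∈ D.U) : IsNilpotent X := ⟨_, pow_zero' hX le_rfl⟩

theorem pow_mem {X : A} (hX : X ∈ D.U) (k : ℕ) : X ^ (k + 1) ∈ D.U := by
  induction k with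
  | zero => simpa using hX
  | succ k ih => rw [pow_succ]; exact D.mul _ ih _ hX

theorem ex_mem {X : A} (hX : X ∈ D.U) : ex D.n X - 1 ∈ D.U := by
  rw [ex, Finset.sum_range_succ']
  simp only [Nat.factorial_zero, Nat.cast_one, inv_one, pow_zero, one_smul, add_sub_cancel_right]
  exact D.U.sum_mem fun j _ => D.U.smul_mem _ (pow_mem hX j)

theorem lg_mem {x : A} (hx : x - 1 ∈ D.U) : lg D.n x ∈ D.U :=
  D.U.sum_mem fun j _ => D.U.smul_mem _ (pow_mem hx j)

theorem Ad_lg (g : Aˣ) (n : ℕ) (x : A) : Ad g (lg n x) = lg n (Ad g x) := by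
  change AdH g (lg n x) = lg n (AdH g x)
  simp only [lg, map_sum, map_smul, map_pow, map_sub, map_one]

theorem Ad_ex (g : Aˣ) (n : ℕ) (x : A) : Ad g (ex n x) = ex n (Ad g x) := by
  change AdH g (ex n x) = ex n (AdH g x)
  simp only [ex, map_sum, map_smul, map_pow]

theorem iter_zero {X y : A} (hX : X ∈ D.U) (hy : y ∈ D.U) (j : ℕ) :
    ∀ a b : ℕ, D.n ≤ a + b + (j + 1) → X ^ a * (br X)^[j] y * X ^ b = 0 := by
  induction j with
  | zero =>
    intro a b h
    have := nil' D (List.replicate a X ++ y :: List.replicate b X) (by simp; omega) (by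
      intro x hx
      rcases List.mem_append.1 hx with hx | hx
      · exact (List.eq_of_mem_replicate hx) ▸ hX
      · rcases List.mem_cons.1 hx with rfl | hx
        · exact hy
        · exact (List.eq_of_mem_replicate hx) ▸ hX)
    simpa [mul_assoc] using this
  | succ j ih =>
    intro a b h
    have h1 := ih (a + 1) b (by omega)
    have h2 := ih a (b + 1) (by omega)
    rw [pow_succ] at h1
    rw [pow_succ'] at h2
    rw [Function.iterate_succ_apply', br, mul_sub, sub_mul, ← mul_assoc, h1, mul_assoc, mul_assoc,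
      ← mul_assoc, h2, sub_zero]

section Q

variable [Algebra ℚ A]

theorem qsmul (q : ℚ) (a : A) : q • a = (q : ℝ) • a := by
  have h := ratCast_smul_eq ℚ ℝ q a
  rwa [Rat.cast_id] at h

theorem ex_eq {X : A} (hX : X ∈ D.U) : ex D.n X = IsNilpotent.exp X := by
  rw [IsNilpotent.exp_eq_sum (pow_zero' hX (Nat.le_succ _)), ex]
  refine Finset.sum_congr rfl fun j _ => ?_
  rw [qsmul]; push_cast; rfl

theorem lg_eq {x : A} (hx : x - 1 ∈ D.U) : lg D.n x = log x := by
  rw [log_eq_sum (pow_zero' hx (Nat.le_succ _)), lg]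
  refine Finset.sum_congr rfl fun j _ => ?_
  rw [qsmul]; push_cast; rfl

theorem lg_ex {X : A} (hX : X ∈ D.U) : lg D.n (ex D.n X) = X := by
  rw [lg_eq (ex_mem hX), ex_eq hX, log_exp (nilp hX)]

theorem ex_lg {x : A} (hx : x - 1 ∈ D.U) : ex D.n (lg D.n x) = x := by
  rw [ex_eq (lg_mem hx), lg_eq hx, exp_log (nilp hx)]

theorem ex_add {X Y : A} (hX : X ∈ D.U) (hY : Y ∈ D.U) (h : Commute X Y) :
    ex D.n (X + Y) = ex D.n X * ex D.n Y := by
  rw [ex_eq hX, ex_eq hY, ex_eq (D.U.add_mem hX hY),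
    IsNilpotent.exp_add_of_commute h (nilp hX) (nilp hY)]

theorem val_eq {u : Aˣ} (hu : D.Uni u) : (u : A) = ex D.n (D.LL u) := (ex_lg hu).symm

theorem inv_eq {u : Aˣ} (hu : D.Uni u) : ((u⁻¹ : Aˣ) : A) = ex D.n (-D.LL u) := by
  have hX : D.LL u ∈ D.U := lg_mem hu
  refine Units.inv_eq_of_mul_eq_one_right ?_
  rw [val_eq hu, ex_eq hX, ex_eq (D.U.neg_mem hX)]
  exact IsNilpotent.exp_mul_exp_neg_self (nilp hX)

theorem zpow_eq {u : Aˣ} (hu : D.Uni u) (z : ℤ) :
    ((u ^ z : Aˣ) : A) = ex D.n ((z : ℝ) • D.LL u) := by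
  have hX : D.LL u ∈ D.U := lg_mem hu
  induction z using Int.induction_on with
  | zero =>
    rw [zpow_zero, Int.cast_zero, zero_smul, ex_eq D.U.zero_mem, IsNilpotent.exp_zero]; rfl
  | succ i ih =>
    rw [zpow_add_one, Units.val_mul, ih, Int.cast_add, add_smul, Int.cast_one, one_smul,
      ex_add (D.U.smul_mem _ hX) hX ((Commute.refl _).smul_left _), ← val_eq hu]
  | pred i ih =>
    rw [zpow_sub_one, Units.val_mul, ih, Int.cast_sub, sub_smul, Int.cast_one, one_smul,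
      sub_eq_add_neg, ex_add (D.U.smul_mem _ hX) (D.U.neg_mem hX)
        ((Commute.refl _).smul_left _).neg_right, ← inv_eq hu]

theorem adz_iter (X y : A) (j : ℕ) : (adz X ^ j) y = (br X)^[j] y := by
  rw [Module.End.pow_apply]; rfl

theorem Ad_eq {u : Aˣ} (hu : D.Uni u) {y : A} (hy : y ∈ D.U) : Ad u y =
    ∑ j ∈ Finset.range (D.n + 1), ((j.factorial : ℝ)⁻¹) • (br (D.LL u))^[j] y := by
  have hX : D.LL u ∈ D.U := lg_mem hu
  obtain ⟨K, hK⟩ := isNilpotent_adz (nilp hX)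
  have e : Ad u y = IsNilpotent.exp (adz (D.LL u)) y := by
    rw [← exp_mul_mul_exp_neg (nilp hX), ← ex_eq hX, ← ex_eq (D.U.neg_mem hX), ← inv_eq hu,
      ← val_eq hu, Ad]
  rw [e, IsNilpotent.exp_eq_sum (k := D.n + 1 + K) (pow_eq_zero_of_le (by omega) hK),
    LinearMap.sum_apply, Finset.sum_range_add, Finset.sum_eq_zero (s := Finset.range K), add_zero]
  · refine Finset.sum_congr rfl fun j _ => ?_
    rw [LinearMap.smul_apply, adz_iter, qsmul]; push_cast; rfl
  · intro j _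
    have h := iter_zero hX hy (D.n + 1 + j) 0 0 (by omega)
    rw [pow_zero, one_mul, mul_one] at h
    rw [LinearMap.smul_apply, adz_iter, h, smul_zero]

end Q

end ExpLog

open ExpLog in
theorem pExpLog : S_ExpLog := by
  intro A _ _ D
  letI : Algebra ℚ A := Algebra.compHom A (algebraMap ℚ ℝ)
  refine ⟨fun X hX => ⟨lg_ex hX, ex_mem hX⟩, fun x hx => ⟨ex_lg hx, lg_mem hx⟩, fun X hX => ?_,
    ⟨?_, fun u u' hu hu' => ?_, fun u hu => ?_⟩, fun u hu z => ?_, fun g u => ?_,
    fun g u hu h => ?_, fun u hu y hy => Ad_eq hu hy, fun u u' hu hu' h => ?_,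
    fun u u' hu hu' h => ?_⟩
  · have e : ((IsNilpotent.isUnit_exp (nilp hX)).unit : A) = ex D.n X := by
      rw [IsUnit.unit_spec, ex_eq hX]
    refine ⟨(IsNilpotent.isUnit_exp (nilp hX)).unit, ?_, ?_⟩
    · rw [NilD.Uni, e]; exact ex_mem hX
    · rw [NilD.LL, e]; exact lg_ex hX
  · rw [NilD.Uni, Units.val_one, sub_self]; exact D.U.zero_mem
  · have e : ((u * u' : Aˣ) : A) - 1 = ((u : A) - 1) * (u' - 1) + (u - 1) + (u' - 1) := by
      rw [Units.val_mul]; noncomm_ring
    rw [NilD.Uni, e]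
    exact D.U.add_mem (D.U.add_mem (D.mul _ hu _ hu') hu) hu'
  · rw [NilD.Uni, inv_eq hu]; exact ex_mem (D.U.neg_mem (lg_mem hu))
  · rw [NilD.LL, zpow_eq hu]; exact lg_ex (D.U.smul_mem _ (lg_mem hu))
  · rw [NilD.LL, NilD.LL, Ad_lg, Ad_units]
  · rw [NilD.Uni, ← Ad_units, val_eq hu, Ad_ex]; exact ex_mem h
  · exact Units.ext (by rw [val_eq hu, val_eq hu', h])
  · have hX : D.LL u ∈ D.U := lg_mem hu
    have hX' : D.LL u' ∈ D.U := lg_mem hu'
    have e : ((u * u' : Aˣ) : A) = ex D.n (D.LL u + D.LL u') := by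
      rw [ex_add hX hX' (sub_eq_zero.1 h), ← val_eq hu, ← val_eq hu', Units.val_mul]
    rw [NilD.LL, e, lg_ex (D.U.add_mem hX hX')]

end ANd
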