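import Pool.Agent.P.MP_5e7d86_al.BRp

/-! Embedding a countable field extension in an uncountable algebraically closed field. -/

set_option autoImplicit false
open Classical
open scoped commutatorElement

namespace ANd

open Cardinal in
theorem pExt : S_Ext := by
  intro k L Om _ _ _ _ _ _ _ _
  obtain ⟨s, hs⟩ := exists_isTranscendenceBasis k L
  obtain ⟨t, ht⟩ := exists_isTranscendenceBasis k Om
  have hk : Countable k := (algebraMap k L).injective.countable
  have h1 : #Om = #t := IsAlgClosed.cardinal_eq_cardinal_transcendence_basis_of_aleph0_lt' _ ht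
    (Cardinal.mk_le_aleph0) (Cardinal.aleph0_lt_mk)
  have h2 : #s ≤ #t := by
    rw [← h1]
    exact Cardinal.mk_le_aleph0.trans Cardinal.aleph0_lt_mk.le
  obtain ⟨e⟩ := (Cardinal.le_def _ _).1 h2
  have h3 : AlgebraicIndependent k (fun i : s => ((e i : t) : Om)) := ht.1.comp e e.injective
  let f : Algebra.adjoin k (Set.range ((↑) : s → L)) →ₐ[k] Om :=
    (MvPolynomial.aeval fun i : s => ((e i : t) : Om)).comp hs.1.aevalEquiv.symm.toAlgHom
  have hf : Function.Injective f := by
    have h4 : Function.Injective (MvPolynomial.aeval (R := k) fun i : s => ((e i : t) : Om)) := h3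
    exact h4.comp hs.1.aevalEquiv.symm.injective
  let _ : Algebra (Algebra.adjoin k (Set.range ((↑) : s → L))) Om := f.toRingHom.toAlgebra
  have : IsScalarTower k (Algebra.adjoin k (Set.range ((↑) : s → L))) Om :=
    IsScalarTower.of_algebraMap_eq fun x => (f.commutes x).symm
  have : FaithfulSMul (Algebra.adjoin k (Set.range ((↑) : s → L))) Om :=
    (faithfulSMul_iff_algebraMap_injective _ _).2 hf
  have := hs.isAlgebraic
  exact ⟨(IsAlgClosed.lift (R := Algebra.adjoin k (Set.range ((↑) : s → L))) (S := L)
    (M := Om)).restrictScalars k⟩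

end ANd
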