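import Pool.Agent.P.MP_5e7d86_al.BRp

/-! Finitely generated coefficient rings, and the free part of the abelianisation. -/

set_option autoImplicit false
open Classical
open scoped commutatorElement

namespace ANd.FGR

theorem one (Γ : Type) [Group Γ] [hΓ : Group.FG Γ] (n : ℕ) (R : Type) [CommRing R]
    (psi : Γ →* GL (Fin n) R) (hpsi : Function.Injective psi) :
    ∃ (R0 : Type) (_ : CommRing R0) (_ : Algebra.FiniteType ℤ R0) (psi0 : Γ →* GL (Fin n) R0),
      Function.Injective psi0 := by
  obtain ⟨S, hS, hfin⟩ := Group.fg_iff.1 hΓ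
  let T : Set R := (fun p : Γ × Fin n × Fin n => (psi p.1 : Matrix (Fin n) (Fin n) R) p.2.1 p.2.2) ''
    ((S ∪ S⁻¹) ×ˢ Set.univ)
  have hT : T.Finite := ((hfin.union hfin.inv).prod Set.finite_univ).image _
  let R0 : Subalgebra ℤ R := Algebra.adjoin ℤ T
  have hmem : ∀ g : Γ, ∀ i j, (psi g : Matrix (Fin n) (Fin n) R) i j ∈ R0 := by
    intro g
    have hg : g ∈ Subgroup.closure S := hS ▸ Subgroup.mem_top g
    induction hg using Subgroup.closure_induction'' with
    | one =>
      intro i j
      rw [map_one, Units.val_one, Matrix.one_apply]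
      split_ifs
      · exact one_mem _
      · exact zero_mem _
    | mem x hx => exact fun i j => Algebra.subset_adjoin ⟨(x, i, j), ⟨Or.inl hx, trivial⟩, rfl⟩
    | inv_mem x hx =>
      exact fun i j => Algebra.subset_adjoin ⟨(x⁻¹, i, j), ⟨Or.inr (Set.inv_mem_inv.2 hx), trivial⟩, rfl⟩
    | mul x y _ _ hx hy =>
      intro i j
      rw [map_mul, Units.val_mul, Matrix.mul_apply]
      exact sum_mem fun k _ => mul_mem (hx i k) (hy k j)
  let φ : Γ →* Matrix (Fin n) (Fin n) R0 :=
    { toFun := fun g => Matrix.of fun i j => ⟨_, hmem g i j⟩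
      map_one' := by
        ext i j
        rw [Matrix.of_apply, Matrix.one_apply]
        change (psi 1 : Matrix (Fin n) (Fin n) R) i j = _
        rw [map_one, Units.val_one, Matrix.one_apply]
        split_ifs <;> rfl
      map_mul' := fun g h => by
        ext i j
        rw [Matrix.of_apply, Matrix.mul_apply]
        change (psi (g * h) : Matrix (Fin n) (Fin n) R) i j = _
        rw [map_mul, Units.val_mul, Matrix.mul_apply, AddSubmonoidClass.coe_finsetSum]
        rfl }
  have hF : Algebra.FiniteType ℤ R0 := by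
    have := Algebra.FiniteType.adjoin_of_finite (R := ℤ) hT
    convert this
  refine ⟨R0, inferInstance, hF, φ.toHomUnits, fun g h e => hpsi ?_⟩
  have e' : φ g = φ h := by simpa using congrArg Units.val e
  ext i j
  exact congrArg Subtype.val (congrFun (congrFun e' i) j)

theorem two (K : Type) [Group K] [Group.FG K] : ∃ (G0 : Subgroup K) (d : ℕ)
    (pr : G0 →* Multiplicative (Fin d → ℤ)), G0.FiniteIndex ∧ Function.Surjective pr ∧
      ∀ g : G0, pr g = 1 ↔ (g : K) ∈ commutator K := by
  have hs : Function.Surjective (Abelianization.of : K →* Abelianization K) :=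
    fun q => Quotient.inductionOn' q fun x => ⟨x, rfl⟩
  have : Group.FG (Abelianization K) := Group.fg_of_surjective hs
  obtain ⟨d, ι, _, p, hp, e, ⟨f⟩⟩ :=
    AddCommGroup.equiv_free_prod_directSum_zmod (Additive (Abelianization K))
  have : ∀ i, NeZero (p i ^ e i) := fun i => ⟨pow_ne_zero _ (hp i).ne_zero⟩
  let f' := f.trans (Finsupp.addEquivFunOnFinite.prodCongr (DirectSum.addEquivProd _))
  let F : K →* Multiplicative ((Fin d → ℤ) × ∀ i, ZMod (p i ^ e i)) :=
    (AddMonoidHom.toMultiplicativeRight f'.toAddMonoidHom).comp Abelianization.of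
  have hF : Function.Surjective F := by
    intro y
    obtain ⟨x, hx⟩ := hs (Additive.toMul (f'.symm (Multiplicative.toAdd y)))
    refine ⟨x, ?_⟩
    change Multiplicative.ofAdd (f' (Additive.ofMul (Abelianization.of x))) = y
    rw [hx, ofMul_toMul, f'.apply_symm_apply, ofAdd_toAdd]
  have hK : ∀ g, F g = 1 ↔ g ∈ commutator K := by
    intro g
    rw [← Abelianization.ker_of, MonoidHom.mem_ker]
    change f' (Additive.ofMul (Abelianization.of g)) = 0 ↔ _
    rw [map_eq_zero_iff _ f'.injective]
    rfl
  let F1 : K →* Multiplicative (Fin d → ℤ) :=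
    (AddMonoidHom.toMultiplicative (AddMonoidHom.fst _ _)).comp F
  let F2 : K →* Multiplicative (∀ i, ZMod (p i ^ e i)) :=
    (AddMonoidHom.toMultiplicative (AddMonoidHom.snd _ _)).comp F
  refine ⟨F2.ker, d, F1.comp F2.ker.subtype, inferInstance, fun y => ?_, fun g => ?_⟩
  · obtain ⟨x, hx⟩ := hF (Multiplicative.ofAdd (Multiplicative.toAdd y, 0))
    refine ⟨⟨x, ?_⟩, ?_⟩
    · change Multiplicative.ofAdd (Multiplicative.toAdd (F x)).2 = 1
      rw [hx]
      rfl
    · change Multiplicative.ofAdd (Multiplicative.toAdd (F x)).1 = y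
      rw [hx]
      rfl
  · rw [← hK]
    constructor
    · intro h
      exact Prod.ext h g.2
    · intro h
      change Multiplicative.ofAdd (Multiplicative.toAdd (F g)).1 = 1
      rw [h]
      rfl

end ANd.FGR

namespace ANd

theorem pFGR : S_FGR :=
  ⟨fun Γ _ _ n R _ psi h => FGR.one Γ n R psi h, fun K _ _ => FGR.two K⟩

end ANd
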