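import Pool.Agent.P.MP_5e7d86_al.BRp

/-! Subgroups of finite index: Schreier generators and coarse density. -/

set_option autoImplicit false
open Classical
open scoped commutatorElement

namespace ANd

namespace FI

variable {Γ : Type} [Group Γ]

/-- a finite set of right coset representatives that meets the subgroup only in `1` -/
theorem exists_reps (H : Subgroup Γ) (hH : H.FiniteIndex) :
    ∃ R : Finset Γ, (1 : Γ) ∈ R ∧ (∀ r ∈ R, r ∈ H → r = 1) ∧
      ∀ g : Γ, ∃ r ∈ R, g * r⁻¹ ∈ H := by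
  have : Finite (Γ ⧸ H) := Subgroup.finite_quotient_of_finiteIndex
  have : Fintype (Γ ⧸ H) := Fintype.ofFinite _
  refine ⟨insert 1 ((Finset.univ.image fun q : Γ ⧸ H => (Quotient.out q)⁻¹).filter
    fun r => r ∉ H), Finset.mem_insert_self _ _, ?_, ?_⟩
  · intro r hr hrH
    rcases Finset.mem_insert.1 hr with h | h
    · exact h
    · exact absurd hrH (Finset.mem_filter.1 h).2
  · intro g
    by_cases hg : g ∈ H
    · exact ⟨1, Finset.mem_insert_self _ _, by simpa using hg⟩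
    · obtain ⟨h, hh⟩ := QuotientGroup.mk_out_eq_mul H g⁻¹
      have h1 : g * ((Quotient.out (QuotientGroup.mk g⁻¹ : Γ ⧸ H))⁻¹)⁻¹ ∈ H := by
        rw [inv_inv, hh, ← mul_assoc, mul_inv_cancel, one_mul]
        exact h.2
      refine ⟨_, Finset.mem_insert_of_mem (Finset.mem_filter.2
        ⟨Finset.mem_image.2 ⟨_, Finset.mem_univ _, rfl⟩, fun h2 => hg ?_⟩), h1⟩
      have := H.mul_mem h1 h2
      simpa using this

theorem schreier {G : Type} [Group G] (f : G →* Γ) (S R : Finset Γ) (T : Set G)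
    (hR1 : ∀ r ∈ R, r ∈ f.range → r = 1) (hR2 : ∀ g : Γ, ∃ r ∈ R, g * r⁻¹ ∈ f.range)
    (hT : ∀ x : G, ∀ r ∈ R, ∀ r' ∈ R, ∀ s : Γ, (s ∈ S ∨ s⁻¹ ∈ S) → f x = r * s * r'⁻¹ → x ∈ T)
    (l : List Γ) : (∀ s ∈ l, s ∈ S ∨ s⁻¹ ∈ S) → ∀ r ∈ R, r * l.prod ∈ f.range →
      ∃ L : List G, L.length ≤ l.length ∧ (∀ x ∈ L, x ∈ T ∨ x⁻¹ ∈ T) ∧
        f L.prod = r * l.prod := by
  induction l with
  | nil =>
    intro _ r hr h
    have h1 : r = 1 := hR1 r hr (by simpa using h)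
    exact ⟨[], le_rfl, by simp, by simp [h1]⟩
  | cons s l ih =>
    intro hl r hr h
    obtain ⟨r', hr', x, hx⟩ := hR2 (r * s)
    have h2 : r * (s :: l).prod = f x * (r' * l.prod) := by
      rw [hx, List.prod_cons]; group
    have h3 : r' * l.prod ∈ f.range := by
      have h4 : (f x)⁻¹ * (r * (s :: l).prod) ∈ f.range :=
        f.range.mul_mem (f.range.inv_mem ⟨x, rfl⟩) h
      rwa [h2, ← mul_assoc, inv_mul_cancel, one_mul] at h4
    obtain ⟨L, hL1, hL2, hL3⟩ := ih (fun y hy => hl y (List.mem_cons_of_mem _ hy)) r' hr' h3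
    refine ⟨x :: L, by simpa using hL1, ?_, ?_⟩
    · intro y hy
      rcases List.mem_cons.1 hy with h5 | h5
      · rw [h5]
        exact Or.inl (hT x r hr r' hr' s (hl s List.mem_cons_self) hx)
      · exact hL2 y h5
    · rw [h2, List.prod_cons, map_mul, hL3]

end FI

theorem pFI (hWl : S_Wl) : S_FI := by
  intro Γ _ S hS G _ f hf hfi
  obtain ⟨R, hR0, hR1, hR2⟩ := FI.exists_reps f.range hfi
  obtain ⟨-, -, hW⟩ := hWl Γ S hS
  constructor
  · set U : Finset Γ := ((R ×ˢ (S ∪ S.image fun s => s⁻¹)) ×ˢ R).image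
      fun p => p.1.1 * p.1.2 * p.2⁻¹ with hU
    have hfin : (f ⁻¹' (U : Set Γ)).Finite := U.finite_toSet.preimage hf.injOn
    refine ⟨hfin.toFinset, 1, fun g => ?_⟩
    obtain ⟨l, hl1, hl2, hl3⟩ := (hW (wl S (f g)) (f g)).1 le_rfl
    obtain ⟨L, hL1, hL2, hL3⟩ := FI.schreier f S R (hfin.toFinset : Set G) hR1 hR2 (by
      intro x r hr r' hr' s hs hx
      rw [Set.Finite.coe_toFinset, Set.mem_preimage, Finset.mem_coe, hU, Finset.mem_image]
      refine ⟨((r, s), r'), ?_, hx.symm⟩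
      refine Finset.mem_product.2 ⟨Finset.mem_product.2 ⟨hr, ?_⟩, hr'⟩
      rcases hs with hs | hs
      · exact Finset.mem_union_left _ hs
      · exact Finset.mem_union_right _ (Finset.mem_image.2 ⟨s⁻¹, hs, inv_inv s⟩)) l hl2 1 hR0
      (by rw [one_mul, ← hl3]; exact ⟨g, rfl⟩)
    refine ⟨L, by rw [one_mul]; exact hL1.trans hl1, hL2, hf ?_⟩
    rw [hL3, one_mul, ← hl3]
  · refine ⟨R.sup (wl S), fun g => ?_⟩
    obtain ⟨r, hr, h, hh⟩ := hR2 g
    refine ⟨h, ?_⟩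
    have h1 : (f h)⁻¹ * g = r := by rw [hh]; group
    rw [h1]
    exact Finset.le_sup (f := wl S) hr

end ANd
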