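import Pool.Agent.P.MP_5e7d86_al.BRp

/-! Finiteness of bounded parts of a layer of the lower central series. -/

set_option autoImplicit false
open Classical
open scoped commutatorElement

namespace ANd

namespace FinP

section Grp
variable {G : Type} [Group G]

theorem sub_fg {Q : Type} [CommGroup Q] [Group.FG Q] (K : Subgroup Q) : K.FG := by
  rw [Subgroup.fg_iff_add_fg, ← AddSubgroup.toIntSubmodule_toAddSubgroup K.toAddSubgroup,
    ← Submodule.fg_iff_addSubgroup_fg]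
  have : Module.Finite ℤ (Additive Q) := Module.Finite.iff_addGroup_fg.2 inferInstance
  exact IsNoetherian.noetherian _

/-- the abelian quotient of `Γ` by `D` -/
theorem exQ (Γ D : Subgroup G) (hc : ⁅Γ, Γ⁆ ≤ D) (S : Set G) (hS : S.Finite) (hSΓ : S ⊆ Γ)
    (hD : D ≤ Γ) (hg : Γ ≤ Subgroup.closure S ⊔ D) :
    ∃ (Q : Type) (_ : CommGroup Q) (_ : Group.FG Q) (φ : Γ →* Q),
      ∀ x : Γ, φ x = 1 ↔ (x : G) ∈ D := by
  have hcm : ∀ a b : Γ, ⁅a, b⁆ ∈ D.subgroupOf Γ := fun a b => by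
    rw [Subgroup.mem_subgroupOf]
    exact hc (Subgroup.commutator_mem_commutator a.2 b.2)
  have hn : (D.subgroupOf Γ).Normal := ⟨fun b hb a => by
    simpa [commutatorElement_def] using (D.subgroupOf Γ).mul_mem (hcm a b) hb⟩
  have hcomm : ∀ x y : Γ ⧸ D.subgroupOf Γ, x * y = y * x := by
    intro x y
    obtain ⟨x, rfl⟩ := QuotientGroup.mk'_surjective _ x
    obtain ⟨y, rfl⟩ := QuotientGroup.mk'_surjective _ y
    rw [← commutatorElement_eq_one_iff_mul_comm, ← map_commutatorElement, QuotientGroup.mk'_apply,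
      QuotientGroup.eq_one_iff]
    exact hcm x y
  have hfg : Group.FG (Γ ⧸ D.subgroupOf Γ) := by
    rw [Group.fg_iff]
    refine ⟨QuotientGroup.mk' (D.subgroupOf Γ) '' (Subtype.val ⁻¹' S), ?_,
      (hS.preimage Subtype.val_injective.injOn).image _⟩
    rw [eq_top_iff]
    rintro q -
    obtain ⟨x, rfl⟩ := QuotientGroup.mk'_surjective _ q
    have hle : Subgroup.closure S ⊔ D ≤ ((Subgroup.closure (QuotientGroup.mk' (D.subgroupOf Γ) ''
        (Subtype.val ⁻¹' S))).comap (QuotientGroup.mk' (D.subgroupOf Γ))).map Γ.subtype := by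
      refine sup_le ((Subgroup.closure_le _).2 fun s hs => ⟨⟨s, hSΓ hs⟩, ?_, rfl⟩)
        fun s hs => ⟨⟨s, hD hs⟩, ?_, rfl⟩
      · exact Subgroup.subset_closure ⟨⟨s, hSΓ hs⟩, hs, rfl⟩
      · have : QuotientGroup.mk' (D.subgroupOf Γ) ⟨s, hD hs⟩ = 1 :=
          (QuotientGroup.eq_one_iff _).2 hs
        rw [SetLike.mem_coe, Subgroup.mem_comap, this]
        exact Subgroup.one_mem _
    obtain ⟨y, hy, e⟩ := hle (hg x.2)
    have : y = x := Subtype.ext e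
    subst this
    exact hy
  exact ⟨Γ ⧸ D.subgroupOf Γ, { QuotientGroup.Quotient.group _ with mul_comm := hcomm }, hfg,
    QuotientGroup.mk' _, fun x => QuotientGroup.eq_one_iff x⟩

/-- intermediate subgroups are finitely generated modulo `D` -/
theorem subA (Γ D : Subgroup G) (hc : ⁅Γ, Γ⁆ ≤ D) (S : Set G) (hS : S.Finite) (hSΓ : S ⊆ Γ)
    (hD : D ≤ Γ) (hg : Γ ≤ Subgroup.closure S ⊔ D) (K : Subgroup G) (hK : K ≤ Γ) :
    ∃ S' : Set G, S'.Finite ∧ S' ⊆ K ∧ K ≤ Subgroup.closure S' ⊔ D := by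
  obtain ⟨Q, _, _, φ, hφ⟩ := exQ Γ D hc S hS hSΓ hD hg
  obtain ⟨T, hT, hTf⟩ := (Subgroup.fg_iff _).1 (sub_fg ((K.subgroupOf Γ).map φ))
  have hl : ∀ t : T, ∃ s : Γ, (s : G) ∈ K ∧ φ s = t := fun t => by
    have : (t : Q) ∈ (K.subgroupOf Γ).map φ := hT ▸ Subgroup.subset_closure t.2
    obtain ⟨s, hs, e⟩ := this
    exact ⟨s, hs, e⟩
  choose s hs hst using hl
  have : Finite T := hTf
  refine ⟨Set.range fun t => (s t : G), Set.finite_range _, ?_, fun x hx => ?_⟩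
  · rintro _ ⟨t, rfl⟩
    exact hs t
  · have h1 : φ ⟨x, hK hx⟩ ∈ Subgroup.closure T := hT ▸ ⟨⟨x, hK hx⟩, hx, rfl⟩
    have h2 : Subgroup.closure T ≤
        ((Subgroup.closure (Set.range fun t => (s t : G))).subgroupOf Γ).map φ :=
      (Subgroup.closure_le _).2 fun t ht =>
        ⟨s ⟨t, ht⟩, Subgroup.subset_closure (k := Set.range fun t => (s t : G)) ⟨⟨t, ht⟩, rfl⟩,
          hst ⟨t, ht⟩⟩
    obtain ⟨y, hy, e⟩ := h2 h1
    have h3 : ((y⁻¹ * ⟨x, hK hx⟩ : Γ) : G) ∈ D := (hφ _).1 (by rw [map_mul, map_inv, e]; simp)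
    have h4 : x = y * ((y⁻¹ * ⟨x, hK hx⟩ : Γ) : G) := by simp
    rw [h4]
    exact Subgroup.mul_mem_sup hy h3

/-- the elements that are torsion modulo `D` lie in finitely many cosets -/
theorem subB (Γ D : Subgroup G) (hc : ⁅Γ, Γ⁆ ≤ D) (S : Set G) (hS : S.Finite) (hSΓ : S ⊆ Γ)
    (hD : D ≤ Γ) (hg : Γ ≤ Subgroup.closure S ⊔ D) :
    ∃ (T : Subgroup G) (Ph : Finset G), (∀ x ∈ Γ, ∀ n : ℕ, n ≠ 0 → x ^ n ∈ D → x ∈ T) ∧
      (∀ f ∈ Ph, f ∈ Γ) ∧ ∀ x ∈ T, ∃ f ∈ Ph, f⁻¹ * x ∈ D := by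
  obtain ⟨Q, _, _, φ, hφ⟩ := exQ Γ D hc S hS hSΓ hD hg
  have : Group.FG (CommGroup.torsion Q) := (Group.fg_iff_subgroup_fg _).2 (sub_fg _)
  have hfin : Finite (CommGroup.torsion Q) :=
    CommGroup.finite_of_fg_isMulTorsion _ fun x =>
      (CommGroup.torsion Q).subtype_injective.isOfFinOrder_iff.1 x.2
  let r : CommGroup.torsion Q → Γ := fun t => Function.invFun φ t
  refine ⟨((CommGroup.torsion Q).comap φ).map Γ.subtype,
    (Set.finite_range fun t => (r t : G)).toFinset, fun x hx n hn hxn => ⟨⟨x, hx⟩, ?_, rfl⟩,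
    fun f hf => ?_, ?_⟩
  · refine isOfFinOrder_iff_pow_eq_one.2 ⟨n, Nat.pos_of_ne_zero hn, ?_⟩
    rw [← map_pow]
    exact (hφ _).2 hxn
  · obtain ⟨t, rfl⟩ := (Set.Finite.mem_toFinset _).1 hf
    exact (r t).2
  · rintro _ ⟨x, hx, rfl⟩
    refine ⟨r ⟨φ x, hx⟩, (Set.Finite.mem_toFinset _).2 ⟨_, rfl⟩, ?_⟩
    have e : φ (r ⟨φ x, hx⟩) = φ x := Function.invFun_eq ⟨x, rfl⟩
    exact (hφ ((r ⟨φ x, hx⟩)⁻¹ * x)).1 (by rw [map_mul, map_inv, e]; simp)

end Grp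

section Lin
variable {A : Type} [Ring A] [Algebra ℝ A]

theorem rat_fintype {AQ : Subring A} (h : RAT AQ) (phi : ℝ →ₗ[ℚ] ℚ) {ι : Type} [Fintype ι]
    (b : ι → ℝ) (v : ι → A) (hv : ∀ i, v i ∈ AQ) (e : ∑ i, b i • v i = 0) :
    ∑ i, ((phi (b i) : ℚ) : ℝ) • v i = 0 := by
  have := h phi _ (fun i => b ((Fintype.equivFin ι).symm i))
    (fun i => v ((Fintype.equivFin ι).symm i)) (fun i => hv _)
    (by rw [← e]; exact (Fintype.equivFin ι).symm.sum_comp fun i => b i • v i)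
  rw [← this]
  exact ((Fintype.equivFin ι).symm.sum_comp fun i => ((phi (b i) : ℚ) : ℝ) • v i).symm

theorem rat_mod {AQ : Subring A} (h : RAT AQ) (phi : ℝ →ₗ[ℚ] ℚ) {S0 : Set A} (hS : S0 ⊆ AQ)
    {ι : Type} [Fintype ι] (b : ι → ℝ) (v : ι → A) (hv : ∀ i, v i ∈ AQ)
    (e : ∑ i, b i • v i ∈ Submodule.span ℝ S0) :
    ∑ i, ((phi (b i) : ℚ) : ℝ) • v i ∈ Submodule.span ℝ S0 := by
  obtain ⟨n, c, g, hg⟩ := Submodule.mem_span_set'.1 e
  have := rat_fintype h phi (ι := ι ⊕ Fin n) (Sum.elim b fun j => -c j)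
    (Sum.elim v fun j => (g j : A)) (by
      rintro (i | j)
      · exact hv i
      · exact hS (g j).2) (by
      rw [Fintype.sum_sum_type]
      simp [hg])
  rw [Fintype.sum_sum_type] at this
  simp only [Sum.elim_inl, Sum.elim_inr] at this
  rw [eq_neg_of_add_eq_zero_left this]
  exact Submodule.neg_mem _ (Submodule.sum_mem _ fun j _ =>
    Submodule.smul_mem _ _ (Submodule.subset_span (g j).2))

theorem exists_phi : ∃ phi : ℝ →ₗ[ℚ] ℚ, phi 1 = 1 := by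
  obtain ⟨g, hg⟩ := LinearMap.exists_leftInverse_of_injective (Algebra.linearMap ℚ ℝ)
    (LinearMap.ker_eq_bot.2 (algebraMap ℚ ℝ).injective)
  exact ⟨g, by simpa using LinearMap.congr_fun hg 1⟩

theorem exists_den {ι : Type} [Fintype ι] (q : ι → ℚ) :
    ∃ M : ℕ, M ≠ 0 ∧ ∀ i, ∃ z : ℤ, (M : ℝ) * (q i : ℝ) = z := by
  refine ⟨∏ i, (q i).den, Finset.prod_ne_zero_iff.2 fun i _ => (q i).den_nz, fun i => ?_⟩
  obtain ⟨c, hc⟩ := Finset.dvd_prod_of_mem (fun i => (q i).den) (Finset.mem_univ i)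
  refine ⟨c * (q i).num, ?_⟩
  have h : ((q i).den : ℚ) * q i = (q i).num := Rat.den_mul_eq_num _
  have h' : ((q i).den : ℝ) * (q i : ℝ) = (q i).num := by exact_mod_cast h
  rw [hc]
  push_cast
  rw [← h']
  ring

theorem fin_grid (M : ℕ) (hM : M ≠ 0) (B : ℝ) :
    {t : ℝ | (∃ z : ℤ, (M : ℝ) * t = z) ∧ |t| ≤ B}.Finite := by
  have hM' : (0 : ℝ) < M := by exact_mod_cast Nat.pos_of_ne_zero hM
  refine ((Set.finite_Icc (-⌈M * B⌉) ⌈M * B⌉).image fun z : ℤ => (z : ℝ) / M).subset ?_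
  rintro t ⟨⟨z, hz⟩, ht⟩
  have h1 : |(z : ℝ)| ≤ (⌈M * B⌉ : ℤ) := by
    rw [← hz, abs_mul, abs_of_pos hM']
    exact (mul_le_mul_of_nonneg_left ht hM'.le).trans (Int.le_ceil _)
  have h2 : |z| ≤ ⌈M * B⌉ := by exact_mod_cast h1
  refine ⟨z, abs_le.1 h2, ?_⟩
  simp only [← hz]
  field_simp

/-- finitely many rational vectors generate a discrete subgroup modulo a rational subspace -/
theorem disc {AQ : Subring A} (h : RAT AQ) {S0 : Set A} (hS : S0 ⊆ AQ) (W : Submodule ℝ A)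
    (hW : Submodule.span ℝ S0 = W) {ι : Type} [Finite ι] (c : ι → A) (hc : ∀ k, c k ∈ AQ)
    (B0 : Set A) (be : ℝ) (hB : B0.Finite) :
    ∃ P : AddSubgroup (A ⧸ W), (∀ k, W.mkQ (c k) ∈ P) ∧
      {y | y ∈ P ∧ ∃ b, In B0 be b ∧ W.mkQ b = y}.Finite := by
  obtain ⟨κ, a, ha, hsp, hli⟩ := exists_linearIndependent' ℝ (fun k => W.mkQ (c k))
  have : Finite κ := Finite.of_injective a ha
  have := Fintype.ofFinite κ
  have := Fintype.ofFinite ι
  let T : (κ → ℝ) →ₗ[ℝ] A ⧸ W := Fintype.linearCombination ℝ fun j => W.mkQ (c (a j))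
  have hT : ∀ x, T x = ∑ j, x j • W.mkQ (c (a j)) := fun x => Fintype.linearCombination_apply _ _ x
  obtain ⟨g, hg⟩ := LinearMap.exists_leftInverse_of_injective T
    (LinearMap.ker_eq_bot.2 (linearIndependent_iff_injective_fintypeLinearCombination.1 hli))
  have hgT : ∀ x, g (T x) = x := fun x => LinearMap.congr_fun hg x
  obtain ⟨phi, hphi⟩ := exists_phi
  have hq : ∀ k, ∃ q : κ → ℚ, T (fun j => q j) = W.mkQ (c k) := by
    intro k
    have h1 : W.mkQ (c k) ∈ Submodule.span ℝ (Set.range ((fun k => W.mkQ (c k)) ∘ a)) :=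
      hsp ▸ Submodule.subset_span ⟨k, rfl⟩
    obtain ⟨b, hb⟩ := (Submodule.mem_span_range_iff_exists_fun ℝ).1 h1
    have h2 := rat_mod h phi hS (ι := Option κ) (fun o => o.elim 1 fun j => -b j)
      (fun o => o.elim (c k) fun j => c (a j)) (by rintro (_ | j) <;> exact hc _) (by
        rw [hW, ← Submodule.Quotient.mk_eq_zero, ← Submodule.mkQ_apply, Fintype.sum_option]
        simp only [Option.elim, one_smul, neg_smul, map_add, map_sum, map_neg, map_smul,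
          Finset.sum_neg_distrib, ← hb, Function.comp]
        exact add_neg_cancel _)
    rw [hW, ← Submodule.Quotient.mk_eq_zero, ← Submodule.mkQ_apply, Fintype.sum_option] at h2
    simp only [Option.elim, hphi, Rat.cast_one, one_smul, map_add, map_sum, map_neg, map_smul,
      Rat.cast_neg, neg_smul, Finset.sum_neg_distrib] at h2
    exact ⟨fun j => phi (b j), by rw [hT]; exact (add_neg_eq_zero.1 h2).symm⟩
  choose q hq using hq
  obtain ⟨M, hM, hz⟩ := exists_den fun p : ι × κ => q p.1 p.2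
  have hbd : ∀ j, ∃ C : ℝ, 0 ≤ C ∧ ∀ y ∈ B0, |g (W.mkQ y) j| ≤ C := fun j => by
    obtain ⟨C, hC⟩ := (hB.image fun y => |g (W.mkQ y) j|).bddAbove
    exact ⟨max C 0, le_max_right _ _, fun y hy => (hC ⟨y, hy, rfl⟩).trans (le_max_left _ _)⟩
  choose C hC0 hC using hbd
  refine ⟨{ carrier := {y | T (g y) = y ∧ ∀ j, ∃ z : ℤ, (M : ℝ) * g y j = z}
            zero_mem' := ⟨by simp, fun j => ⟨0, by simp⟩⟩
            add_mem' := ?_
            neg_mem' := ?_ }, fun k => ?_, ?_⟩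
  · rintro y y' ⟨h1, h2⟩ ⟨h3, h4⟩
    refine ⟨by rw [map_add, map_add, h1, h3], fun j => ?_⟩
    obtain ⟨z, hz⟩ := h2 j
    obtain ⟨z', hz'⟩ := h4 j
    exact ⟨z + z', by rw [map_add, Pi.add_apply, mul_add, hz, hz', Int.cast_add]⟩
  · rintro y ⟨h1, h2⟩
    refine ⟨by rw [map_neg, map_neg, h1], fun j => ?_⟩
    obtain ⟨z, hz⟩ := h2 j
    exact ⟨-z, by rw [map_neg, Pi.neg_apply, mul_neg, hz, Int.cast_neg]⟩
  · refine ⟨by rw [← hq k, hgT], fun j => ?_⟩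
    rw [← hq k, hgT]
    exact hz (k, j)
  · refine ((Set.Finite.pi fun j => fin_grid M hM (C j * be)).image T).subset ?_
    rintro y ⟨⟨h1, h2⟩, b, hb, rfl⟩
    refine ⟨_, fun j _ => ⟨h2 j, ?_⟩, h1⟩
    exact In.abs_le ((LinearMap.proj j).comp (g.comp W.mkQ)) (hC0 j) (hC j) hb

omit [Algebra ℝ A] in
theorem nest_sub (AQ : Subring A) : ∀ (i : ℕ) (v : Fin (i + 1) → A), (∀ u, v u ∈ AQ) →
    nest i v ∈ AQ
  | 0, _, h => h 0
  | i + 1, _, h => by
    have := nest_sub AQ i _ fun u => h u.succ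
    exact AQ.sub_mem (AQ.mul_mem (h 0) this) (AQ.mul_mem this (h 0))

end Lin

end FinP

theorem pFin (h1 : S_Lie1) (h3 : S_Lie3) (hL : S_LCS) : S_Fin := by
  intro G _ A _ _ N R hN X hX hXN i B0 be hB
  obtain ⟨-, -, hAQ, -⟩ := h1 G A N R hN
  obtain ⟨-, hsp, hV, hadd, -, htor⟩ := h3 G A N R hN
  set E := Subgroup.closure X with hE
  set Γ := E.lowerCentralSeries i with hΓ
  set W := R.VG (i + 1) with hW
  have hEN : E ≤ N := (Subgroup.closure_le _).2 hXN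
  have hΓN : Γ ≤ N.lowerCentralSeries i := lcs_mono hEN i
  obtain ⟨-, hcm, -, -, hgen, -, -⟩ := hL G E
  set S := {w | ∃ v : Fin (i + 1) → G, (∀ u, v u ∈ X) ∧ w = cm i v} with hSd
  have hg : Γ ≤ Subgroup.closure S ⊔ E.lowerCentralSeries (i + 1) := hgen X i rfl
  have hS : S.Finite := by
    have : (Set.pi Set.univ fun _ : Fin (i + 1) => X).Finite := Set.Finite.pi fun _ => hX
    refine (this.image (cm i)).subset ?_
    rintro w ⟨v, hv, rfl⟩
    exact ⟨v, fun u _ => hv u, rfl⟩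
  have hSΓ : S ⊆ Γ := by
    rintro w ⟨v, hv, rfl⟩
    exact hcm i v fun u => Subgroup.subset_closure (hv u)
  have hc : ⁅Γ, Γ⁆ ≤ E.lowerCentralSeries (i + 1) := Subgroup.commutator_mono le_rfl (lcs_le E i)
  have hD : E.lowerCentralSeries (i + 1) ≤ Γ := E.lowerCentralSeries_antitone (Nat.le_succ i)
  have lam_mul : ∀ x ∈ Γ, ∀ y ∈ Γ, W.mkQ (R.L (x * y)) = W.mkQ (R.L x) + W.mkQ (R.L y) := by
    intro x hx y hy
    have := (Submodule.Quotient.mk_eq_zero W).2 (hadd i x (hΓN hx) y (hΓN hy))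
    rw [← Submodule.mkQ_apply, map_sub, map_sub, sub_sub, sub_eq_zero] at this
    exact this
  have lam_inv : ∀ x ∈ Γ, W.mkQ (R.L x⁻¹) = -W.mkQ (R.L x) := by
    intro x hx
    have := lam_mul _ (Γ.inv_mem hx) x hx
    rw [inv_mul_cancel, R.L_one, map_zero] at this
    exact eq_neg_of_add_eq_zero_left this.symm
  have lam_D : ∀ x ∈ E.lowerCentralSeries (i + 1), W.mkQ (R.L x) = 0 := fun x hx =>
    (Submodule.Quotient.mk_eq_zero W).2 (hV (i + 1) x (lcs_mono hEN _ hx))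
  let pre : AddSubgroup (A ⧸ W) → Subgroup G := fun P =>
    { carrier := {x | x ∈ Γ ∧ W.mkQ (R.L x) ∈ P}
      one_mem' := ⟨Γ.one_mem, by rw [R.L_one, map_zero]; exact P.zero_mem⟩
      mul_mem' := fun {x y} hx hy => ⟨Γ.mul_mem hx.1 hy.1, by
        rw [lam_mul x hx.1 y hy.1]; exact P.add_mem hx.2 hy.2⟩
      inv_mem' := fun {x} hx => ⟨Γ.inv_mem hx.1, by
        rw [lam_inv x hx.1]; exact P.neg_mem hx.2⟩ }
  have hΓN' : Γ ≤ N := (lcs_le E i).trans hEN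
  have : Finite S := hS
  obtain ⟨P, hP, hfin⟩ := FinP.disc R.rat (S0 := TG (R.L '' (N : Set G)) (i + 1)) (by
      rintro _ ⟨j, -, v, hv, rfl⟩
      refine FinP.nest_sub _ j v fun u => ?_
      obtain ⟨x, hx, e⟩ := hv u
      exact e ▸ hAQ x hx) W (hsp _ rfl (i + 1)).2 (fun s : S => R.L s)
    (fun s => hAQ _ (hΓN' (hSΓ s.2))) B0 be hB
  have hΓP : Γ ≤ pre P := hg.trans (sup_le
    ((Subgroup.closure_le _).2 fun s hs => ⟨hSΓ hs, hP ⟨s, hs⟩⟩)
    fun x hx => ⟨hD hx, by rw [lam_D x hx]; exact P.zero_mem⟩)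
  obtain ⟨S', hS', hS'K, hK⟩ := FinP.subA Γ _ hc S hS hSΓ hD hg (pre ⊥) fun x hx => hx.1
  have hk : ∀ s : S', ∃ (n : ℕ) (Xs : Set G), n ≠ 0 ∧ Xs.Finite ∧ Xs ⊆ N ∧
      (s : G) ^ n ∈ (Subgroup.closure Xs).lowerCentralSeries (i + 1) := by
    intro s
    obtain ⟨k1, k2⟩ := hS'K s.2
    obtain ⟨n, hn, hm⟩ := htor (i + 1) s (hΓN' k1)
      ((Submodule.Quotient.mk_eq_zero W).1 (AddSubgroup.mem_bot.1 k2))
    obtain ⟨Xs, k3, k4, k5⟩ := (hL G N).2.2.2.2.2.1 (i + 1) _ hm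
    exact ⟨n, Xs, hn, k3, k4, k5⟩
  choose n Xs hn hXf hXs hpow using hk
  have : Finite S' := hS'
  set X' := X ∪ ⋃ s, Xs s with hX'
  set H := (Subgroup.closure X').lowerCentralSeries (i + 1) with hH
  have hDH : E.lowerCentralSeries (i + 1) ≤ H ⊓ Γ :=
    le_inf (lcs_mono (Subgroup.closure_mono Set.subset_union_left) _) hD
  obtain ⟨T, Ph0, hT, hPh, hcov⟩ := FinP.subB Γ (H ⊓ Γ) (hc.trans hDH) S hS hSΓ inf_le_right
    (hg.trans (sup_le_sup_left hDH _))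
  have hKT : pre ⊥ ≤ T := hK.trans (sup_le
    ((Subgroup.closure_le _).2 fun s hs => hT s (hS'K hs).1 (n ⟨s, hs⟩) (hn _)
      ⟨lcs_mono (Subgroup.closure_mono ((Set.subset_iUnion Xs ⟨s, hs⟩).trans
        Set.subset_union_right)) _ (hpow ⟨s, hs⟩), Γ.pow_mem (hS'K hs).1 _⟩)
    fun x hx => hT x (hD hx) 1 one_ne_zero (by rw [pow_one]; exact hDH hx))
  have hrep : ∀ y : A ⧸ W, ∃ g ∈ Γ, (∃ x ∈ Γ, W.mkQ (R.L x) = y) → W.mkQ (R.L g) = y := by
    intro y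
    by_cases hy : ∃ x ∈ Γ, W.mkQ (R.L x) = y
    · obtain ⟨x, hx, e⟩ := hy
      exact ⟨x, hx, fun _ => e⟩
    · exact ⟨1, Γ.one_mem, fun k => absurd k hy⟩
  choose rp hrΓ hrp using hrep
  refine ⟨(hfin.toFinset ×ˢ Ph0).image fun p => rp p.1 * p.2, X',
    hX.union (Set.finite_iUnion hXf), Set.union_subset hXN (Set.iUnion_subset hXs), ?_, ?_⟩
  · intro f hf
    obtain ⟨p, hp, rfl⟩ := Finset.mem_image.1 hf
    exact Γ.mul_mem (hrΓ _) (hPh _ (Finset.mem_product.1 hp).2)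
  · rintro x hx ⟨b, hb, hxb⟩
    have e : W.mkQ b = W.mkQ (R.L x) := by
      have := (Submodule.Quotient.mk_eq_zero W).2 hxb
      rw [← Submodule.mkQ_apply, map_sub, sub_eq_zero] at this
      exact this.symm
    have hg' := hrΓ (W.mkQ (R.L x))
    have hxK : (rp (W.mkQ (R.L x)))⁻¹ * x ∈ pre ⊥ := ⟨Γ.mul_mem (Γ.inv_mem hg') hx, by
      rw [lam_mul _ (Γ.inv_mem hg') x hx, lam_inv _ hg', hrp _ ⟨x, hx, rfl⟩, neg_add_cancel]
      exact AddSubgroup.zero_mem _⟩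
    obtain ⟨f, hf, hfx⟩ := hcov _ (hKT hxK)
    refine ⟨rp (W.mkQ (R.L x)) * f, Finset.mem_image.2 ⟨(W.mkQ (R.L x), f),
      Finset.mem_product.2 ⟨hfin.mem_toFinset.2 ⟨(hΓP hx).2, b, hb, e⟩, hf⟩, rfl⟩, ?_⟩
    rw [mul_inv_rev, mul_assoc]
    exact hfx.1

end ANd
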