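import Pool.Agent.P.MP_5e7d86_al.BRp

/-! North-south dynamics of a linear map with eigenvalues of different absolute values. -/

set_option autoImplicit false
open Classical
open scoped commutatorElement
open Polynomial

namespace ANd

namespace FurA

variable {K W : Type} [Field K] [AddCommGroup W] [Module K W] {n : ℕ}
  (v : AbsoluteValue K ℝ) (bs : Module.Basis (Fin n) K W)

theorem nv_nonneg (w : W) : 0 ≤ nv v bs w := Finset.sum_nonneg fun _ _ => v.nonneg _

theorem nv_zero : nv v bs 0 = 0 := by simp [nv]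

theorem nv_add (w w' : W) : nv v bs (w + w') ≤ nv v bs w + nv v bs w' := by
  unfold nv
  rw [← Finset.sum_add_distrib]
  refine Finset.sum_le_sum fun i _ => ?_
  rw [map_add, Finsupp.add_apply]
  exact v.add_le _ _

theorem nv_smul (a : K) (w : W) : nv v bs (a • w) = v a * nv v bs w := by
  unfold nv
  rw [Finset.mul_sum]
  refine Finset.sum_congr rfl fun i _ => ?_
  rw [map_smul, Finsupp.smul_apply, smul_eq_mul, v.map_mul]

theorem nv_sub (w w' : W) : nv v bs (w - w') ≤ nv v bs w + nv v bs w' := by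
  have h := nv_add v bs w ((-1 : K) • w')
  rw [nv_smul, v.map_neg, v.map_one, one_mul, neg_one_smul, ← sub_eq_add_neg] at h
  exact h

theorem nv_sum {ι : Type} (s : Finset ι) (f : ι → W) :
    nv v bs (∑ i ∈ s, f i) ≤ ∑ i ∈ s, nv v bs (f i) := by
  induction s using Finset.induction_on with
  | empty => simp [nv_zero]
  | insert a s ha ih =>
    rw [Finset.sum_insert ha, Finset.sum_insert ha]
    exact (nv_add v bs _ _).trans (by linarith)

theorem bounded (f : Module.End K W) : ∃ B : ℝ, 0 < B ∧ ∀ w, nv v bs (f w) ≤ B * nv v bs w := by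
  have h0 : 0 ≤ ∑ i, nv v bs (f (bs i)) := Finset.sum_nonneg fun i _ => nv_nonneg v bs _
  refine ⟨∑ i, nv v bs (f (bs i)) + 1, by linarith, fun w => ?_⟩
  have h1 : f w = ∑ i, bs.repr w i • f (bs i) := by
    conv_lhs => rw [← bs.sum_repr w, map_sum]
    exact Finset.sum_congr rfl fun i _ => map_smul _ _ _
  rw [h1]
  refine (nv_sum v bs _ _).trans ?_
  conv_rhs => rw [nv, Finset.mul_sum]
  refine Finset.sum_le_sum fun i _ => ?_
  rw [nv_smul, mul_comm]
  refine mul_le_mul_of_nonneg_right ?_ (v.nonneg _)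
  have := Finset.single_le_sum (f := fun i => nv v bs (f (bs i)))
    (fun i _ => nv_nonneg v bs _) (Finset.mem_univ i)
  linarith

/-- the monic polynomial with the given roots -/
noncomputable def pr (L : Multiset K) : K[X] := (L.map fun a => X - C a).prod

theorem pr_cons (a : K) (L : Multiset K) : pr (a ::ₘ L) = pr L * (X - C a) := by
  simp [pr, mul_comm]

theorem kill_cons (T : Module.End K W) (a : K) (L : Multiset K) (w : W) :
    aeval T (pr (a ::ₘ L)) w = aeval T (pr L) (T w - a • w) := by
  rw [pr_cons, map_mul, Module.End.mul_apply]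
  simp [Module.algebraMap_end_apply]

theorem comm_pow (T : Module.End K W) (p : K[X]) (N : ℕ) (w : W) :
    aeval T p ((T ^ N) w) = (T ^ N) (aeval T p w) := by
  have h : aeval T p * T ^ N = T ^ N * aeval T p := by
    have h1 : T ^ N = aeval T (X ^ N : K[X]) := by simp
    rw [h1, ← map_mul, ← map_mul, mul_comm]
  rw [← Module.End.mul_apply, h, Module.End.mul_apply]

theorem upper (T : Module.End K W) (s : ℝ) (hs : 0 ≤ s) (L : Multiset K) (hL : ∀ a ∈ L, v a < s) :
    ∃ C : ℝ, 0 < C ∧ ∀ w, aeval T (pr L) w = 0 → ∀ N : ℕ,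
      nv v bs ((T ^ N) w) ≤ C * s ^ N * nv v bs w := by
  induction L using Multiset.induction_on with
  | empty =>
    refine ⟨1, one_pos, fun w hw N => ?_⟩
    have : w = 0 := by simpa [pr] using hw
    simp [this, nv_zero]
  | cons a L ih =>
    obtain ⟨C, hC, h⟩ := ih fun b hb => hL b (Multiset.mem_cons_of_mem hb)
    obtain ⟨B, hB, hb⟩ := bounded v bs (T - a • 1)
    have ha : 0 < s - v a := sub_pos.2 (hL a (Multiset.mem_cons_self _ _))
    refine ⟨1 + C * B / (s - v a), by positivity, fun w hw N => ?_⟩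
    set C' := 1 + C * B / (s - v a) with hC'
    have h1 : C * B ≤ C' * (s - v a) := by
      rw [hC', add_mul, div_mul_cancel₀ _ ha.ne']; linarith
    have h2 : 1 ≤ C' := by
      have : 0 ≤ C * B / (s - v a) := by positivity
      linarith
    have hw0 := nv_nonneg v bs w
    rw [kill_cons] at hw
    have h3 : nv v bs (T w - a • w) ≤ B * nv v bs w := by simpa using hb w
    induction N with
    | zero => simpa using le_mul_of_one_le_left hw0 h2
    | succ N ihN =>
      have e : (T ^ (N + 1)) w = (T ^ N) (T w - a • w) + a • (T ^ N) w := by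
        rw [pow_succ, Module.End.mul_apply, map_sub, map_smul, sub_add_cancel]
      have h4 := h _ hw N
      have h5 : 0 ≤ s ^ N := pow_nonneg hs N
      rw [e]
      refine (nv_add v bs _ _).trans ?_
      rw [nv_smul]
      have h6 : C * s ^ N * nv v bs (T w - a • w) ≤ C * s ^ N * (B * nv v bs w) :=
        mul_le_mul_of_nonneg_left h3 (by positivity)
      have h7 : v a * nv v bs ((T ^ N) w) ≤ v a * (C' * s ^ N * nv v bs w) :=
        mul_le_mul_of_nonneg_left ihN (v.nonneg a)
      have h8 : C * B * (s ^ N * nv v bs w) ≤ C' * (s - v a) * (s ^ N * nv v bs w) :=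
        mul_le_mul_of_nonneg_right h1 (by positivity)
      rw [pow_succ]
      nlinarith

theorem lower (T : Module.End K W) (s : ℝ) (hs : 0 ≤ s) (L : Multiset K) (hL : ∀ a ∈ L, s < v a) :
    ∃ C : ℝ, 0 < C ∧ ∀ (N : ℕ) w, aeval T (pr L) w = 0 →
      s ^ N * nv v bs w ≤ C * nv v bs ((T ^ N) w) := by
  induction L using Multiset.induction_on with
  | empty =>
    refine ⟨1, one_pos, fun N w hw => ?_⟩
    have : w = 0 := by simpa [pr] using hw
    simp [this, nv_zero]
  | cons a L ih =>
    obtain ⟨C, hC, h⟩ := ih fun b hb => hL b (Multiset.mem_cons_of_mem hb)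
    obtain ⟨B, hB, hb⟩ := bounded v bs (T - a • 1)
    have ha : 0 < v a - s := sub_pos.2 (hL a (Multiset.mem_cons_self _ _))
    refine ⟨1 + C * B / (v a - s), by positivity, fun N => ?_⟩
    set C' := 1 + C * B / (v a - s) with hC'
    have h1 : C * B ≤ C' * (v a - s) := by
      rw [hC', add_mul, div_mul_cancel₀ _ ha.ne']; linarith
    have h2 : 1 ≤ C' := by
      have : 0 ≤ C * B / (v a - s) := by positivity
      linarith
    induction N with
    | zero => intro w _; simpa using le_mul_of_one_le_left (nv_nonneg v bs w) h2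
    | succ N ihN =>
      intro w hw
      have hT : aeval T (pr (a ::ₘ L)) (T w) = 0 := by
        have := comm_pow T (pr (a ::ₘ L)) 1 w
        rw [pow_one, hw, map_zero] at this
        exact this
      have h3 := ihN _ hT
      rw [← Module.End.mul_apply, ← pow_succ] at h3
      rw [kill_cons] at hw
      have h4 := h (N + 1) _ hw
      have e : (T ^ (N + 1)) (T w - a • w) = (T - a • 1) ((T ^ (N + 1)) w) := by
        rw [map_sub, map_smul, ← Module.End.mul_apply, ← pow_succ, pow_succ' T (N + 1)]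
        simp
      have h5 := hb ((T ^ (N + 1)) w)
      rw [← e] at h5
      have h6 : v a * nv v bs w ≤ nv v bs (T w) + nv v bs (T w - a • w) := by
        rw [← nv_smul]
        have := nv_sub v bs (T w) (T w - a • w)
        rwa [sub_sub_cancel] at this
      set A := nv v bs ((T ^ (N + 1)) w)
      have hA : 0 ≤ A := nv_nonneg v bs _
      have hva : 0 < v a := by linarith
      refine le_of_mul_le_mul_left ?_ hva
      have h7 : s ^ (N + 1) * (v a * nv v bs w) ≤
          s ^ (N + 1) * (nv v bs (T w) + nv v bs (T w - a • w)) :=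
        mul_le_mul_of_nonneg_left h6 (pow_nonneg hs _)
      have h8 : s * (s ^ N * nv v bs (T w)) ≤ s * (C' * A) := mul_le_mul_of_nonneg_left h3 hs
      have h9 : C * nv v bs ((T ^ (N + 1)) (T w - a • w)) ≤ C * (B * A) :=
        mul_le_mul_of_nonneg_left h5 hC.le
      have h10 : C * B * A ≤ C' * (v a - s) * A := mul_le_mul_of_nonneg_right h1 hA
      rw [pow_succ] at h7 h4 ⊢
      nlinarith

theorem coprime_one (a : K) (L : Multiset K) (h : a ∉ L) : IsCoprime (X - C a) (pr L) := by
  induction L using Multiset.induction_on with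
  | empty => simpa [pr] using isCoprime_one_right
  | cons b L ih =>
    rw [pr_cons]
    refine (ih fun h' => h (Multiset.mem_cons_of_mem h')).mul_right
      (isCoprime_X_sub_C_of_isUnit_sub (Ne.isUnit (sub_ne_zero.2 fun e => h ?_)))
    rw [e]; exact Multiset.mem_cons_self _ _

theorem coprime (L L' : Multiset K) (h : ∀ a ∈ L, a ∉ L') : IsCoprime (pr L) (pr L') := by
  induction L using Multiset.induction_on with
  | empty => simpa [pr] using isCoprime_one_left
  | cons b L ih =>
    rw [pr_cons]
    exact (ih fun a ha => h a (Multiset.mem_cons_of_mem ha)).mul_left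
      (coprime_one b L' (h b (Multiset.mem_cons_self _ _)))

theorem ker_ne_top (T : Module.End K W) (a : K) (ha : Module.End.HasEigenvalue T a)
    (L : Multiset K) (h : a ∉ L) : LinearMap.ker (aeval T (pr L)) ≠ ⊤ := by
  intro e
  obtain ⟨x, hx⟩ := ha.exists_hasEigenvector
  have h1 : aeval T (pr L) x = 0 := by
    rw [← LinearMap.mem_ker, e]; trivial
  rw [Module.End.aeval_apply_of_hasEigenvector hx, smul_eq_zero] at h1
  rcases h1 with h1 | h1
  · rw [pr, eval_multiset_prod, Multiset.prod_eq_zero_iff, Multiset.map_map] at h1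
    obtain ⟨b, hb, h2⟩ := Multiset.mem_map.1 h1
    have h3 : a = b := by simpa [sub_eq_zero] using h2
    exact h (h3 ▸ hb)
  · exact hx.2 h1

theorem exists_between' (L : Multiset K) (t : ℝ) (ht : 0 < t) (hL : ∀ a ∈ L, v a < t) :
    ∃ s : ℝ, 0 < s ∧ s < t ∧ ∀ a ∈ L, v a < s := by
  induction L using Multiset.induction_on with
  | empty => exact ⟨t / 2, by linarith, by linarith, by simp⟩
  | cons b L ih =>
    obtain ⟨s, h0, h1, h2⟩ := ih fun a ha => hL a (Multiset.mem_cons_of_mem ha)
    have hb := hL b (Multiset.mem_cons_self _ _)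
    refine ⟨max s ((v b + t) / 2), lt_max_of_lt_left h0, max_lt h1 (by linarith), fun a ha => ?_⟩
    rcases Multiset.mem_cons.1 ha with rfl | ha
    · exact lt_max_of_lt_right (by linarith)
    · exact lt_max_of_lt_left (h2 a ha)

theorem main [IsAlgClosed K] (T : Module.End K W) (a b : K) (ha : Module.End.HasEigenvalue T a)
    (hb : Module.End.HasEigenvalue T b) (hab : v b < v a) : NS v bs T := by
  have : Module.Finite K W := Module.Finite.of_basis bs
  set R := T.charpoly.roots
  set L1 := R.filter (fun c => ¬ v c < v a) with hL1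
  set L2 := R.filter (fun c => v c < v a) with hL2
  have hR : pr L2 * pr L1 = T.charpoly := by
    rw [pr, pr, ← Multiset.prod_add, ← Multiset.map_add, hL1, hL2, Multiset.filter_add_not]
    exact ((IsAlgClosed.splits T.charpoly).eq_prod_roots_of_monic T.charpoly_monic).symm
  have hva : 0 < v a := lt_of_le_of_lt (v.nonneg b) hab
  obtain ⟨s2, s20, s2a, hs2⟩ := exists_between' v L2 (v a) hva
    fun c hc => (Multiset.mem_filter.1 hc).2
  obtain ⟨s1, s21, s1a⟩ := exists_between s2a
  have s10 : 0 < s1 := s20.trans s21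
  obtain ⟨C2, hC2, h2⟩ := upper v bs T s2 s20.le L2 hs2
  obtain ⟨C1, hC1, h1⟩ := lower v bs T s1 s10.le L1
    fun c hc => s1a.trans_le (not_lt.1 (Multiset.mem_filter.1 hc).2)
  obtain ⟨A, B, hAB⟩ := coprime L1 L2
    fun c hc hc' => (Multiset.mem_filter.1 hc).2 (Multiset.mem_filter.1 hc').2
  have k1 : ∀ w, aeval T (pr L1) (aeval T (B * pr L2) w) = 0 := fun w => by
    rw [← Module.End.mul_apply, ← map_mul,
      show pr L1 * (B * pr L2) = B * (pr L2 * pr L1) by ring, hR, map_mul,
      LinearMap.aeval_self_charpoly, mul_zero, LinearMap.zero_apply]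
  have k2 : ∀ w, aeval T (pr L2) (aeval T (A * pr L1) w) = 0 := fun w => by
    rw [← Module.End.mul_apply, ← map_mul,
      show pr L2 * (A * pr L1) = A * (pr L2 * pr L1) by ring, hR, map_mul,
      LinearMap.aeval_self_charpoly, mul_zero, LinearMap.zero_apply]
  have k3 : ∀ w, aeval T (A * pr L1) w + aeval T (B * pr L2) w = w := fun w => by
    rw [← LinearMap.add_apply, ← map_add, hAB, map_one, Module.End.one_apply]
  obtain ⟨B1, hB1, b1⟩ := bounded v bs (aeval T (B * pr L2))
  obtain ⟨B2, hB2, b2⟩ := bounded v bs (aeval T (A * pr L1))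
  refine ⟨LinearMap.ker (aeval T (pr L1)), LinearMap.ker (aeval T (pr L2)),
    ker_ne_top T b hb L1 fun h => (Multiset.mem_filter.1 h).2 hab,
    ker_ne_top T a ha L2 fun h => lt_irrefl _ (Multiset.mem_filter.1 h).2,
    fun ep0 h0 ep hep => ?_⟩
  obtain ⟨N, hN⟩ := exists_pow_lt_of_lt_one
    (show 0 < ep * ep0 / (C2 * B2 * C1 * B1) by positivity) ((div_lt_one s10).2 s21)
  refine ⟨N, fun w hw => ?_⟩
  set w1 := aeval T (B * pr L2) w with hw1
  set w2 := aeval T (A * pr L1) w with hw2
  have e1 : w - w2 = w1 := by rw [sub_eq_iff_eq_add', hw1, hw2, k3]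
  have g0 : ep0 * nv v bs w < nv v bs w1 := by
    by_contra hc
    exact hw ⟨w2, k2 w, by rw [e1]; exact not_lt.1 hc⟩
  refine ⟨(T ^ N) w1, ?_, ?_⟩
  · rw [LinearMap.mem_ker, comm_pow, hw1, k1, map_zero]
  · have e2 : (T ^ N) w - (T ^ N) w1 = (T ^ N) w2 := by
      rw [← map_sub, ← e1, sub_sub_cancel]
    have g1 := h2 w2 (k2 w) N
    have g2 := h1 N w1 (k1 w)
    have g3 := b1 ((T ^ N) w)
    rw [comm_pow, ← hw1] at g3
    have g4 := b2 w
    rw [← hw2] at g4
    rw [e2]
    have p1 : 0 < s1 ^ N := pow_pos s10 N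
    have p2 : 0 < s2 ^ N := pow_pos s20 N
    rw [div_pow, div_lt_div_iff₀ p1 (by positivity)] at hN
    set Z := nv v bs ((T ^ N) w)
    have hZ : 0 ≤ Z := nv_nonneg v bs _
    have hw0 := nv_nonneg v bs w
    have g5 : s1 ^ N * (ep0 * nv v bs w) ≤ C1 * (B1 * Z) :=
      (mul_le_mul_of_nonneg_left g0.le p1.le).trans
        (g2.trans (mul_le_mul_of_nonneg_left g3 hC1.le))
    have g6 : nv v bs ((T ^ N) w2) ≤ C2 * s2 ^ N * (B2 * nv v bs w) :=
      g1.trans (mul_le_mul_of_nonneg_left g4 (by positivity))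
    refine g6.trans (le_of_mul_le_mul_left ?_ (show 0 < C1 * B1 by positivity))
    have g7 : s2 ^ N * (C2 * B2 * C1 * B1) * nv v bs w ≤ ep * ep0 * s1 ^ N * nv v bs w :=
      mul_le_mul_of_nonneg_right hN.le hw0
    have g8 : ep * (s1 ^ N * (ep0 * nv v bs w)) ≤ ep * (C1 * (B1 * Z)) :=
      mul_le_mul_of_nonneg_left g5 hep.le
    nlinarith

end FurA

theorem pFurA : S_FurA := by
  intro K W _ _ _ _ n v bs T a b _ ha hb hab
  rcases lt_or_gt_of_ne hab with h | h
  · exact FurA.main v bs T b a hb ha h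
  · exact FurA.main v bs T a b ha hb h

end ANd
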