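import Pool.Agent.P.MP_5e7d86_al.BRp

/-! The logarithm of a long product of bounded total mass. -/

set_option autoImplicit false
open Classical
open scoped commutatorElement

namespace ANd

namespace GR

variable {A : Type} [Ring A] [Algebra ℝ A]

theorem nest_smul (s : ℝ) (j : ℕ) (v : Fin (j + 1) → A) :
    nest j (fun u => s • v u) = s ^ (j + 1) • nest j v := by
  have := (nestM (A := A) j).map_smul_univ (fun _ => s) v
  simpa using this

theorem dil1 {Y : Set A} {s a : ℝ} (hs : 1 ≤ s) {i : ℕ} {v : A} (h : In (TG Y i) a v) :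
    In (TG ((fun y => s • y) '' Y) i) (s⁻¹ * a) v := by
  have h0 : 0 < s := by linarith
  refine In.trans (by positivity) ?_ h
  rintro w ⟨j, hj, v, hv, rfl⟩
  have h1 : In (TG ((fun y => s • y) '' Y) i) 1 (nest j fun u => s • v u) :=
    In.mem _ ⟨j, hj, _, fun u => ⟨v u, hv u, rfl⟩, rfl⟩
  have h2 := h1.smul_le (t := (s ^ (j + 1))⁻¹) (s := s⁻¹) (by
    rw [abs_of_pos (by positivity)]
    exact inv_anti₀ h0 (le_self_pow₀ hs (Nat.succ_ne_zero j)))
  rwa [nest_smul, smul_smul, inv_mul_cancel₀ (by positivity), one_smul, mul_one] at h2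

theorem dil2 {Y : Set A} {s a : ℝ} (hs : 1 ≤ s) {n i : ℕ} {v : A}
    (hn : ∀ j, n ≤ j + 1 → ∀ w ∈ TE Y j, w = 0) (h : In (TG ((fun y => s • y) '' Y) i) a v) :
    In (TG Y i) (s ^ n * a) v := by
  have h0 : 0 < s := by linarith
  refine In.trans (by positivity) ?_ h
  rintro w ⟨j, hj, v, hv, rfl⟩
  choose x hx e using hv
  obtain rfl : v = fun u => s • x u := funext fun u => (e u).symm
  rw [nest_smul]
  by_cases c : n ≤ j + 1
  · rw [hn j c _ ⟨x, hx, rfl⟩, smul_zero]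
    exact In.zero' (by positivity)
  · have h1 : In (TG Y i) 1 (nest j x) := In.mem _ ⟨j, hj, x, hx, rfl⟩
    have h2 := h1.smul_le (t := s ^ (j + 1)) (s := s ^ n) (by
      rw [abs_of_pos (by positivity)]
      exact pow_le_pow_right₀ hs (by omega))
    rwa [mul_one] at h2

theorem uni_mul (D : NilD A) {u u' : Aˣ} (h : D.Uni u) (h' : D.Uni u') : D.Uni (u * u') := by
  have e : ((u * u' : Aˣ) : A) - 1 = ((u : A) - 1) * ((u' : A) - 1) + ((u : A) - 1) + ((u' : A) - 1) := by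
    rw [Units.val_mul]
    noncomm_ring
  unfold NilD.Uni
  rw [e]
  exact D.U.add_mem (D.U.add_mem (D.mul _ h _ h') h) h'

theorem small (D : NilD A) {Y : Set A} {C : ℝ} (hC : 0 ≤ C) {i : ℕ} (f : ℝ → ℝ)
    (h2 : ∀ (u u' : Aˣ) (a b : ℝ), D.Uni u → D.Uni u' → a ≤ 1 → b ≤ 1 → In (TG Y i) a (D.LL u) →
      In (TG Y i) b (D.LL u') → In (TG Y (i + i + 1)) (C * a * b) (D.LL (u * u') - D.LL u - D.LL u'))
    (L : List (ℝ × Aˣ)) (hL : ∀ p ∈ L, D.Uni p.2 ∧ In (TG Y i) (f p.1) (D.LL p.2))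
    (hs : 2 * (1 + C) * (L.map fun p => f p.1).sum ≤ 1) :
    D.Uni (L.map Prod.snd).prod ∧ In (TG Y (i + 1)) (L.map fun p => f p.1).sum
      (D.LL (L.map Prod.snd).prod - (L.map fun p => D.LL p.2).sum) := by
  induction L with
  | nil =>
    refine ⟨by simp [NilD.Uni], ?_⟩
    simpa [LL_one] using In.zero
  | cons p L ih =>
    simp only [List.map_cons, List.sum_cons, List.prod_cons] at hs ⊢
    obtain ⟨p1, p2⟩ := hL p List.mem_cons_self
    have hL' := fun q hq => hL q (List.mem_cons_of_mem p hq)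
    have k0 := In.list_sum L (fun p => f p.1) (fun p => D.LL p.2) fun q hq => (hL' q hq).2
    have a0 := p2.nonneg
    have m0 := k0.nonneg
    have c1 := mul_nonneg hC a0
    have c2 := mul_nonneg hC m0
    obtain ⟨k1, k2⟩ := ih hL' (by nlinarith)
    have k3 := ((k2.TG_anti (Nat.le_succ i)).add' k0).congr (sub_add_cancel _ _)
    have k4 := (h2 _ _ _ _ p1 k1 (by nlinarith) (by nlinarith) p2 k3).TG_anti
      (show i + 1 ≤ i + i + 1 by omega)
    refine ⟨uni_mul D p1 k1, ((k4.add' k2).le ?_).congr (by abel)⟩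
    have : C * ((L.map fun p => f p.1).sum + (L.map fun p => f p.1).sum) ≤ 1 := by nlinarith
    nlinarith

end GR

theorem pGR (hB2 : S_B2) (hBr : S_Br) : S_GR := by
  intro A _ _ D A0
  obtain ⟨C, hC, h⟩ := hB2 A D 1
  obtain ⟨s, hs⟩ : ∃ s, s = 1 + 2 * (1 + C) * |A0| := ⟨_, rfl⟩
  have h0 : 0 ≤ 2 * (1 + C) * |A0| := by positivity
  have h1 : 1 ≤ s := by linarith
  have h2 : 0 < s := by linarith
  refine ⟨s ^ D.n, by positivity, fun Y hY i L hL hA => ?_⟩
  have hY' : (fun y => s • y) '' Y ⊆ D.U := by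
    rintro _ ⟨y, hy, rfl⟩
    exact D.U.smul_mem s (hY hy)
  have e : 2 * (1 + C) * (L.map fun p => s⁻¹ * p.1).sum ≤ 1 := by
    rw [List.sum_map_mul_left, mul_left_comm, inv_mul_le_iff₀ h2]
    have := mul_le_mul_of_nonneg_left (hA.trans (le_abs_self A0)) (show 0 ≤ 2 * (1 + C) by positivity)
    linarith
  have k := (GR.small D hC (fun x => s⁻¹ * x) (fun u u' a b => (h _ hY').2.1 u u' i i a b) L
    (fun p hp => ⟨(hL p hp).1, GR.dil1 h1 (hL p hp).2⟩) e).2
  have k0 := k.nonneg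
  have k1 := GR.dil2 h1 (hBr A D Y hY).2.1 (k.le (b := 1) (by nlinarith))
  rwa [mul_one] at k1

end ANd
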