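import Pool.Agent.P.MP_5e7d86_al.BRp

/-! Package GenA: generalities on the group theoretic setup. -/

set_option autoImplicit false
open Classical
open scoped commutatorElement

namespace ANd
namespace GenA

variable {G : Type} [Group G]

theorem sp_succ {d : ℕ} (t : Fin (d + 1) → G) (q : Fin (d + 1) → ℤ) :
    sp t q = t 0 ^ q 0 * sp (fun a : Fin d => t a.succ) (fun a => q a.succ) := by
  unfold sp
  rw [List.ofFn_succ, List.prod_cons]

theorem sp_add_single : ∀ {d : ℕ} (t : Fin d → G) (q : Fin d → ℤ) (b : Fin d) (z : ℤ),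
    (∀ c, b < c → q c = 0) → sp t (q + Pi.single b z) = sp t q * t b ^ z
  | 0, _, _, b, _, _ => b.elim0
  | d + 1, t, q, b, z, h => by
    rw [sp_succ, sp_succ t q]
    refine Fin.cases (motive := fun b => (∀ c, b < c → q c = 0) →
      t 0 ^ (q + Pi.single b z : Fin (d + 1) → ℤ) 0 * sp (fun a : Fin d => t a.succ)
        (fun a => (q + Pi.single b z : Fin (d + 1) → ℤ) a.succ) =
      t 0 ^ q 0 * sp (fun a : Fin d => t a.succ) (fun a => q a.succ) * t b ^ z) ?_ ?_ b h
    · intro h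
      have h1 : (fun a : Fin d => q a.succ) = 0 := funext fun a => h _ (Fin.succ_pos a)
      have h2 : (fun a : Fin d => (q + Pi.single 0 z : Fin (d + 1) → ℤ) a.succ) = 0 :=
        funext fun a => by
          simp [h _ (Fin.succ_pos a)]
      rw [h1, h2, sp_zero]
      simp [zpow_add]
    · intro b h
      have h2 : (fun a : Fin d => (q + Pi.single b.succ z : Fin (d + 1) → ℤ) a.succ) =
          (fun a : Fin d => q a.succ) + Pi.single b z := funext fun a => by
        by_cases e : a = b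
        · subst e; simp
        · have : a.succ ≠ b.succ := fun h => e (Fin.succ_injective _ h)
          simp [Pi.single_eq_of_ne e, Pi.single_eq_of_ne this]
      rw [h2, sp_add_single _ _ b z fun c hc => h _ (Fin.succ_lt_succ_iff.2 hc)]
      simp [mul_assoc]

theorem nilp {N Γ : Subgroup G} {r : ℕ} (h : FiltR N Γ r) :
    ∃ c, ∀ i, N.lowerCentralSeries i ≤ Γ → N.lowerCentralSeries (i + c) = ⊥ := by
  have step : ∀ Γ Γ' : Subgroup G, Lay N Γ' Γ →
      (∃ c, ∀ i, N.lowerCentralSeries i ≤ Γ → N.lowerCentralSeries (i + c) = ⊥) →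
      ∃ c, ∀ i, N.lowerCentralSeries i ≤ Γ' → N.lowerCentralSeries (i + c) = ⊥ := by
    rintro Γ Γ' hL ⟨c, hc⟩
    refine ⟨1 + c, fun i hi => ?_⟩
    rw [← add_assoc]
    apply hc
    rw [Subgroup.lowerCentralSeries_succ, Subgroup.commutator_comm]
    exact (Subgroup.commutator_mono le_rfl hi).trans hL.cen
  induction h with
  | bot => exact ⟨0, fun i hi => le_bot_iff.1 hi⟩
  | pt Γ Γ' r _ hL _ ih => exact step Γ Γ' hL ih
  | tf Γ Γ' r s _ hL _ _ _ ih => exact step Γ Γ' hL ih

variable (S : Setup G)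

theorem pr_s (q : Fin S.d → ℤ) : S.pr (S.s q) = Multiplicative.ofAdd q := by
  unfold Setup.s
  rw [map_sp]
  unfold sp
  rw [List.prod_ofFn]
  simp only [S.prt, ← ofAdd_zsmul, ← ofAdd_sum]
  congr 1
  funext b
  simp [Finset.sum_apply, Pi.single_apply]

/-- The projection, written additively. -/
def pa (g : G) : Fin S.d → ℤ := Multiplicative.toAdd (S.pr g)

theorem pa_mul (g h : G) : pa S (g * h) = pa S g + pa S h := by simp [pa]

theorem pa_one : pa S 1 = 0 := by simp [pa]

theorem pa_N {g : G} (h : g ∈ S.N) : pa S g = 0 := by simp [pa, (S.ker g).1 h]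

theorem pa_t (a : Fin S.d) (z : ℤ) : pa S (S.t a ^ z) = Pi.single a z := by
  unfold pa
  rw [map_zpow, S.prt, toAdd_zpow, toAdd_ofAdd]
  funext b
  simp [Pi.single_apply]

/-- Letters. -/
def Let (w : G) : Prop := w ∈ Set.range S.t ∪ Set.range S.e ∨ w⁻¹ ∈ Set.range S.t ∪ Set.range S.e

theorem Let.cases {S : Setup G} {w : G} (h : Let S w) :
    (∃ a, ∃ z : ℤ, (z = 1 ∨ z = -1) ∧ w = S.t a ^ z) ∨ (∃ j, w = S.e j) ∨ ∃ j, w = (S.e j)⁻¹ := by
  rcases h with (⟨a, h⟩ | ⟨j, h⟩) | (⟨a, h⟩ | ⟨j, h⟩)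
  · exact Or.inl ⟨a, 1, Or.inl rfl, by simp [h]⟩
  · exact Or.inr (Or.inl ⟨j, h.symm⟩)
  · exact Or.inl ⟨a, -1, Or.inr rfl, by simp [h]⟩
  · exact Or.inr (Or.inr ⟨j, by simp [h]⟩)

theorem Let.sm {S : Setup G} {w : G} (h : Let S w) : Sm 1 (pa S w) := by
  rcases h.cases with ⟨a, z, hz, rfl⟩ | ⟨j, rfl⟩ | ⟨j, rfl⟩
  · rw [pa_t]
    intro b
    by_cases h : b = a
    · subst h; rcases hz with rfl | rfl <;> simp
    · simp [Pi.single_eq_of_ne h]
  · rw [pa_N S (S.eN j)]; exact Sm.zero _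
  · rw [pa_N S (S.N.inv_mem (S.eN j))]; exact Sm.zero _

theorem sm_prod : ∀ W : List G, (∀ w ∈ W, Let S w) → Sm W.length (pa S W.prod)
  | [], _ => by simpa [pa_one] using Sm.zero 0
  | w :: W, h => by
    rw [List.prod_cons, pa_mul, List.length_cons, add_comm W.length]
    exact (h w (by simp)).sm.add (sm_prod W fun x hx => h x (by simp [hx]))

theorem pa_le : ∃ c : ℕ, ∀ g a, |Multiplicative.toAdd (S.pr g) a| ≤ (c : ℤ) * S.l g := by
  obtain ⟨c, hc⟩ := S.word
  refine ⟨c, fun g a => ?_⟩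
  obtain ⟨W, h1, h2, h3⟩ := hc g
  have := (sm_prod S W h2).mono h1 a
  rw [h3] at this
  exact_mod_cast this

theorem l_s : ∃ c : ℕ, ∀ k q, Sm k q → S.l (S.s q) ≤ c * k := by
  refine ⟨S.d * Finset.univ.sup fun a => S.l (S.t a), fun k q hq => ?_⟩
  unfold Setup.s sp
  refine (S.len.prod_le _ ((Finset.univ.sup fun a => S.l (S.t a)) * k) ?_).trans ?_
  · intro x hx
    obtain ⟨a, rfl⟩ := (List.mem_ofFn' _ _).1 hx
    refine (S.len.zpow _ _).trans ?_
    rw [mul_comm]
    refine Nat.mul_le_mul (Finset.le_sup (f := fun a => S.l (S.t a)) (Finset.mem_univ a)) ?_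
    have := hq a
    rw [← Int.natCast_natAbs] at this
    exact_mod_cast this
  · simp [mul_assoc]

theorem x_B : ∃ c : ℕ, ∀ k ≥ 1, ∀ j q, Sm k q → S.x j q ∈ S.B (c * k) := by
  obtain ⟨c, hc⟩ := l_s S
  refine ⟨2 * c + Finset.univ.sup fun j => S.l (S.e j), fun k hk j q hq => ⟨S.x_mem j q, ?_⟩⟩
  have h1 := S.len.conj (S.s q) (S.e j)
  have h2 := hc k q hq
  have h3 : S.l (S.e j) ≤ Finset.univ.sup fun j => S.l (S.e j) :=
    Finset.le_sup (f := fun j => S.l (S.e j)) (Finset.mem_univ j)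
  unfold Setup.x
  nlinarith

/-- Products of at most `n` elements `x j q` and inverses with `q` in the window `K`. -/
def XP (K n : ℕ) (g : G) : Prop := ∃ L : List (Fin S.m × (Fin S.d → ℤ) × Bool),
  L.length ≤ n ∧ (∀ p ∈ L, Sm K p.2.1) ∧
    g = (L.map fun p => if p.2.2 then S.x p.1 p.2.1 else (S.x p.1 p.2.1)⁻¹).prod

variable {S}

theorem XP.one (K n : ℕ) : XP S K n 1 := ⟨[], by simp, by simp, by simp⟩

theorem XP.mono {K K' n n' : ℕ} {g : G} (h : XP S K n g) (hK : K ≤ K') (hn : n ≤ n') :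
    XP S K' n' g := by
  obtain ⟨L, h1, h2, h3⟩ := h
  exact ⟨L, h1.trans hn, fun p hp => (h2 p hp).mono hK, h3⟩

theorem XP.mul {K n n' : ℕ} {g g' : G} (h : XP S K n g) (h' : XP S K n' g') :
    XP S K (n + n') (g * g') := by
  obtain ⟨L, h1, h2, h3⟩ := h
  obtain ⟨L', h1', h2', h3'⟩ := h'
  refine ⟨L ++ L', by simpa using add_le_add h1 h1', fun p hp => ?_, ?_⟩
  · exact (List.mem_append.1 hp).elim (h2 p) (h2' p)
  · rw [List.map_append, List.prod_append, ← h3, ← h3']

theorem XP.x {K : ℕ} (j : Fin S.m) {q : Fin S.d → ℤ} (h : Sm K q) : XP S K 1 (S.x j q) :=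
  ⟨[(j, q, true)], by simp, by simpa using h, by simp⟩

theorem XP.xinv {K : ℕ} (j : Fin S.m) {q : Fin S.d → ℤ} (h : Sm K q) : XP S K 1 (S.x j q)⁻¹ :=
  ⟨[(j, q, false)], by simp, by simpa using h, by simp⟩

theorem t_step (K : ℕ) (a : Fin S.d) (z : ℤ) (hz : z = 1 ∨ z = -1) : ∀ (n : ℕ) (q : Fin S.d → ℤ),
    Sm K q → ∑ c, (q c).natAbs = n →
      XP S K n (S.s q * S.t a ^ z * (S.s (q + Pi.single a z))⁻¹) := by
  intro n
  induction n using Nat.strong_induction_on with
  | _ n ih =>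
    intro q hq hn
    by_cases h0 : ∀ c, a < c → q c = 0
    · have : S.s (q + Pi.single a z) = S.s q * S.t a ^ z := sp_add_single _ _ _ _ h0
      rw [this, mul_inv_cancel]
      exact XP.one _ _
    · push Not at h0
      obtain ⟨c0, hc0, hq0⟩ := h0
      obtain ⟨b, hb, hmax⟩ := Finset.exists_max_image (Finset.univ.filter fun c => q c ≠ 0) id
        ⟨c0, by simpa using hq0⟩
      have hb' : q b ≠ 0 := by simpa using hb
      have hmax' : ∀ c, b < c → q c = 0 := fun c hc => by
        by_contra h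
        exact absurd (hmax c (by simpa using h)) (not_le.2 hc)
      have hab : a < b := lt_of_lt_of_le hc0 (hmax c0 (by simpa using hq0))
      obtain ⟨y, hy, hy'⟩ : ∃ y : ℤ, (y = 1 ∨ y = -1) ∧ (q b - y).natAbs + 1 = (q b).natAbs := by
        rcases lt_or_gt_of_ne hb' with h | h
        · exact ⟨-1, Or.inr rfl, by omega⟩
        · exact ⟨1, Or.inl rfl, by omega⟩
      obtain ⟨q', rfl⟩ : ∃ q', q = q' + Pi.single b y := ⟨q - Pi.single b y, by simp⟩
      have hne : ∀ c, c ≠ b → (q' + Pi.single b y : Fin S.d → ℤ) c = q' c := fun c hc => by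
        simp [Pi.single_eq_of_ne hc]
      have hbb : (q' b).natAbs + 1 = ((q' + Pi.single b y : Fin S.d → ℤ) b).natAbs := by
        simpa using hy'
      have hq' : Sm K q' := fun c => by
        by_cases e : c = b
        · subst e
          have := hq c
          rw [← Int.natCast_natAbs] at this ⊢
          omega
        · rw [← hne c e]; exact hq c
      have hz' : ∀ c, b < c → q' c = 0 := fun c hc => by
        rw [← hne c hc.ne']; exact hmax' c hc
      have hsum : ∑ c, (q' c).natAbs + 1 = n := by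
        have e : ∑ c ∈ Finset.univ.erase b, ((q' + Pi.single b y : Fin S.d → ℤ) c).natAbs =
            ∑ c ∈ Finset.univ.erase b, (q' c).natAbs :=
          Finset.sum_congr rfl fun c hc => by rw [hne c (Finset.ne_of_mem_erase hc)]
        rw [← hn, ← Finset.add_sum_erase _ _ (Finset.mem_univ b),
          ← Finset.add_sum_erase _ _ (Finset.mem_univ b), ← hbb, e]
        ring
      have e1 : S.s (q' + Pi.single b y) = S.s q' * S.t b ^ y := sp_add_single _ _ _ _ hz'
      have e2 : S.s (q' + Pi.single b y + Pi.single a z) =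
          S.s (q' + Pi.single a z) * S.t b ^ y := by
        rw [add_right_comm]
        refine sp_add_single _ _ _ _ fun c hc => ?_
        simp [hz' c hc, Pi.single_eq_of_ne (hab.trans hc).ne']
      obtain ⟨j, hj⟩ := S.comm b a y z hy hz
      have := (XP.x j hq').mul (ih _ (by omega) q' hq' rfl)
      rw [add_comm, hsum] at this
      convert this using 1
      rw [e1, e2, Setup.x, hj, commutatorElement_def]
      group

theorem let_step (K : ℕ) {w : G} (hw : Let S w) (q : Fin S.d → ℤ) (hq : Sm K q) :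
    XP S K (S.d * K + 1) (S.s q * w * (S.s (q + pa S w))⁻¹) := by
  rcases hw.cases with ⟨a, z, hz, rfl⟩ | ⟨j, rfl⟩ | ⟨j, rfl⟩
  · rw [pa_t]
    refine (t_step K a z hz _ q hq rfl).mono le_rfl (Nat.le_succ_of_le ?_)
    have : ∀ c ∈ Finset.univ, (q c).natAbs ≤ K := fun c _ => by
      have := hq c
      rw [← Int.natCast_natAbs] at this
      exact_mod_cast this
    simpa using Finset.sum_le_card_nsmul _ _ _ this
  · rw [pa_N S (S.eN j), add_zero]
    exact (XP.x j hq).mono le_rfl (by omega)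
  · rw [pa_N S (S.N.inv_mem (S.eN j)), add_zero]
    have := (XP.xinv j hq).mono le_rfl (by omega : 1 ≤ S.d * K + 1)
    convert this using 1
    rw [Setup.x]
    group

theorem word_step (K : ℕ) : ∀ (W : List G), (∀ w ∈ W, Let S w) → ∀ (K0 : ℕ) (q : Fin S.d → ℤ),
    Sm K0 q → K0 + W.length ≤ K →
      XP S K (W.length * (S.d * K + 1)) (S.s q * W.prod * (S.s (q + pa S W.prod))⁻¹)
  | [], _, K0, q, _, _ => by simpa [pa_one] using XP.one K 0
  | w :: W, h, K0, q, hq, hK => by
    rw [List.length_cons] at hK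
    have hw := h w (by simp)
    have h1 := let_step K hw q (hq.mono (by omega))
    have h2 := word_step K W (fun x hx => h x (by simp [hx])) (K0 + 1) _ (hq.add hw.sm) (by omega)
    have := h1.mul h2
    convert this using 1
    · rw [List.length_cons]; ring
    · rw [List.prod_cons, pa_mul, ← add_assoc]
      group

variable (S) in
theorem gen : ∃ c : ℕ, ∀ k, ∀ g ∈ S.B k, XP S (c * k) (c * k * k) g := by
  obtain ⟨c, hc⟩ := S.word
  refine ⟨c * (S.d * c + 1), fun k g hg => ?_⟩
  obtain ⟨W, h1, h2, h3⟩ := hc g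
  have hW : W.length ≤ c * k := h1.trans (Nat.mul_le_mul_left c hg.2)
  have := word_step (c * k) W h2 0 0 (Sm.zero 0) (by omega)
  rw [h3, pa_N S hg.1, add_zero, Setup.s, sp_zero, one_mul, inv_one, mul_one] at this
  refine this.mono (Nat.mul_le_mul_right k (Nat.le_mul_of_pos_right c (by omega))) ?_
  have hk : k ≤ k * k := Nat.le_mul_self k
  calc W.length * (S.d * (c * k) + 1) ≤ c * k * (S.d * (c * k) + 1) := Nat.mul_le_mul_right _ hW
    _ = c * S.d * c * (k * k) + c * k := by ring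
    _ ≤ c * S.d * c * (k * k) + c * (k * k) := by gcongr
    _ = c * (S.d * c + 1) * k * k := by ring

end GenA

theorem pGenA : S_GenA := fun _ _ S =>
  ⟨S.normal, by
    obtain ⟨c, hc⟩ := GenA.nilp S.filt
    exact ⟨0 + c, hc 0 le_rfl⟩,
  GenA.pr_s S, GenA.pa_le S, GenA.l_s S, GenA.x_B S, GenA.gen S⟩

end ANd
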