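import Pool.Agent.P.MP_5e7d86_al.BRp

set_option autoImplicit false

open Classical
open scoped commutatorElement

namespace ANd

namespace Geo

variable {G : Type} [Group G] {l : G → ℕ}

theorem tri (h : IsLen l) (a b c : G) : l (a⁻¹ * c) ≤ l (a⁻¹ * b) + l (b⁻¹ * c) := by
  have := h.mul (a⁻¹ * b) (b⁻¹ * c)
  rwa [show a⁻¹ * b * (b⁻¹ * c) = a⁻¹ * c by group] at this

theorem sym (h : IsLen l) (a b : G) : l (a⁻¹ * b) = l (b⁻¹ * a) := by
  rw [← h.inv (a⁻¹ * b)]
  congr 1
  group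

theorem self (h : IsLen l) (a : G) : l (a⁻¹ * a) = 0 := by
  rw [inv_mul_cancel, h.one]

theorem ends {Y : Set G} {r : ℕ} {x y : G} (hc : Relation.ReflTransGen (Step l Y r) x y) :
    x = y ∨ (x ∈ Y ∧ y ∈ Y) := by
  induction hc with
  | refl => exact Or.inl rfl
  | tail _ hs ih =>
    rcases ih with h | h
    · subst h
      exact Or.inr ⟨hs.1, hs.2.1⟩
    · exact Or.inr ⟨h.1, hs.2.1⟩

theorem chain_mono {Y : Set G} {r r' B B' : ℕ} (hc : Chain l Y r B) (hr : r' ≤ r) (hB : B ≤ B') :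
    Chain l Y r' B' := by
  intro x y hxy
  refine (hc x y ?_).trans hB
  exact hxy.lift id (fun a b hs => ⟨hs.1, hs.2.1, hs.2.2.trans hr⟩)

theorem chain_empty (h : IsLen l) (r B : ℕ) : Chain l (∅ : Set G) r B := by
  intro x y hxy
  rcases ends hxy with e | e
  · subst e
    rw [self h]
    exact Nat.zero_le _
  · exact e.1.elim

theorem mono (h : IsLen l) (Y Y' : Set G) (k k' r r' B B' : ℕ) (hc : Col l Y k r B) (hY : Y' ⊆ Y)
    (hk : k ≤ k') (hr : r' ≤ r) (hB : B ≤ B') : Col l Y' k' r' B' := by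
  obtain ⟨Z, hZ, hch⟩ := hc
  refine ⟨fun i => if hi : (i : ℕ) < k + 1 then Z ⟨i, hi⟩ else ∅, ?_, ?_⟩
  · intro y hy
    obtain ⟨i, hi⟩ := hZ y (hY hy)
    refine ⟨⟨i, by omega⟩, ?_⟩
    simp only [i.2, dif_pos]
    exact hi
  · intro i
    by_cases hi : (i : ℕ) < k + 1
    · simp only [hi, dif_pos]
      exact chain_mono (hch _) hr hB
    · simp only [hi, dif_neg, not_false_eq_true]
      exact chain_empty h _ _

theorem transl (Y : Set G) (k r B : ℕ) (g : G) (hc : Col l Y k r B) :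
    Col l ((fun x => g * x) '' Y) k r B := by
  obtain ⟨Z, hZ, hch⟩ := hc
  refine ⟨fun i => {x | g⁻¹ * x ∈ Z i}, ?_, ?_⟩
  · rintro _ ⟨y, hy, rfl⟩
    obtain ⟨i, hi⟩ := hZ y hy
    exact ⟨i, by simpa using hi⟩
  · intro i x y hxy
    have h1 : Relation.ReflTransGen (Step l (Z i) r) (g⁻¹ * x) (g⁻¹ * y) := by
      refine hxy.lift (fun x => g⁻¹ * x) (fun a b hs => ⟨hs.1, hs.2.1, ?_⟩)
      rw [show (g⁻¹ * a)⁻¹ * (g⁻¹ * b) = a⁻¹ * b by group]
      exact hs.2.2
    have h2 := hch i _ _ h1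
    rwa [show (g⁻¹ * x)⁻¹ * (g⁻¹ * y) = x⁻¹ * y by group] at h2

theorem near (h : IsLen l) (Y Y' : Set G) (k r B L : ℕ)
    (hn : ∀ y ∈ Y, ∃ y' ∈ Y', l (y'⁻¹ * y) ≤ L) (hc : Col l Y' k (r + 2 * L) B) :
    Col l Y k r (B + 2 * L) := by
  obtain ⟨Z, hZ, hch⟩ := hc
  choose! f hf1 hf2 using hn
  refine ⟨fun i => {y | y ∈ Y ∧ f y ∈ Z i}, ?_, ?_⟩
  · intro y hy
    obtain ⟨i, hi⟩ := hZ _ (hf1 y hy)
    exact ⟨i, hy, hi⟩
  · intro i x y hxy
    rcases ends hxy with e | e
    · subst e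
      rw [self h]
      exact Nat.zero_le _
    have h1 : Relation.ReflTransGen (Step l (Z i) (r + 2 * L)) (f x) (f y) := by
      refine hxy.lift f (fun a b hs => ⟨hs.1.2, hs.2.1.2, ?_⟩)
      have t1 := tri h (f a) a (f b)
      have t2 := tri h a b (f b)
      have t3 := hf2 a hs.1.1
      have t4 := hf2 b hs.2.1.1
      rw [sym h] at t4
      have t5 := hs.2.2
      omega
    have h2 := hch i _ _ h1
    have t1 := tri h x (f x) y
    have t2 := tri h (f x) (f y) y
    have t3 := hf2 x e.1.1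
    have t4 := hf2 y e.2.1
    rw [sym h] at t3
    omega

theorem union (h : IsLen l) (Y1 Y2 : Set G) (r B1 B2 : ℕ) (h1 : Chain l Y1 r B1)
    (h2 : Chain l Y2 (B1 + 2 * r) B2) : Chain l (Y1 ∪ Y2) r (B2 + 2 * B1 + 2 * r) := by
  intro x y hxy
  rcases ends hxy with e | e
  · subst e
    rw [self h]
    exact Nat.zero_le _
  have hx := e.1
  have key : (y ∈ Y1 ∧ Relation.ReflTransGen (Step l Y1 r) x y) ∨
      ∃ f g, l (x⁻¹ * f) ≤ B1 + r ∧ Relation.ReflTransGen (Step l Y2 (B1 + 2 * r)) f g ∧ g ∈ Y2 ∧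
        (y = g ∨ (y ∈ Y1 ∧ ∃ z, l (g⁻¹ * z) ≤ r ∧ Relation.ReflTransGen (Step l Y1 r) z y)) := by
    clear e
    induction hxy with
    | refl =>
      rcases hx with hx | hx
      · exact Or.inl ⟨hx, Relation.ReflTransGen.refl⟩
      · refine Or.inr ⟨x, x, ?_, Relation.ReflTransGen.refl, hx, Or.inl rfl⟩
        rw [self h]
        exact Nat.zero_le _
    | @tail b c _ hs ih =>
      obtain ⟨_, hc, hbc⟩ := hs
      rcases ih with ⟨hb, hch⟩ | ⟨f, g, hf, hch, hg, hlast⟩
      · rcases hc with hc | hc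
        · exact Or.inl ⟨hc, hch.tail ⟨hb, hc, hbc⟩⟩
        · refine Or.inr ⟨c, c, ?_, Relation.ReflTransGen.refl, hc, Or.inl rfl⟩
          have t1 := tri h x b c
          have t2 := h1 _ _ hch
          omega
      · rcases hc with hc | hc
        · refine Or.inr ⟨f, g, hf, hch, hg, Or.inr ⟨hc, ?_⟩⟩
          rcases hlast with e | ⟨hb, z, hz, hzb⟩
          · subst e
            exact ⟨c, hbc, Relation.ReflTransGen.refl⟩
          · exact ⟨z, hz, hzb.tail ⟨hb, hc, hbc⟩⟩
        · refine Or.inr ⟨f, c, hf, hch.tail ⟨hg, hc, ?_⟩, hc, Or.inl rfl⟩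
          rcases hlast with e | ⟨_, z, hz, hzb⟩
          · subst e
            omega
          · have t1 := tri h g z c
            have t2 := tri h z b c
            have t3 := h1 _ _ hzb
            omega
  rcases key with ⟨_, hch⟩ | ⟨f, g, hf, hch, _, hlast⟩
  · have := h1 _ _ hch
    omega
  · have t1 := tri h x f y
    have t2 := tri h f g y
    have t3 := h2 _ _ hch
    rcases hlast with e | ⟨_, z, hz, hzb⟩
    · subst e
      rw [self h] at t2
      omega
    · have t4 := tri h g z y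
      have t5 := h1 _ _ hzb
      omega

theorem zero (h : IsLen l) (Y : Set G) (k : ℕ) : Col l Y k 0 0 := by
  refine ⟨fun _ => Set.univ, fun y _ => ⟨0, Set.mem_univ y⟩, ?_⟩
  intro _ x y hxy
  induction hxy with
  | refl => rw [self h]
  | @tail b c _ hs ih =>
    have t1 := tri h x b c
    have t2 := hs.2.2
    omega

theorem pull (h : IsLen l) {H : Type} [Group H] (f : H →* G) (hf : Function.Injective f)
    (k r B : ℕ) : Col (fun x => l (f x)) Set.univ k r B ↔ Col l (Set.range f) k r B := by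
  constructor
  · rintro ⟨Z, hZ, hch⟩
    refine ⟨fun i => f '' Z i, ?_, ?_⟩
    · rintro _ ⟨y, rfl⟩
      obtain ⟨i, hi⟩ := hZ y (Set.mem_univ y)
      exact ⟨i, y, hi, rfl⟩
    · intro i x y hxy
      rcases ends hxy with e | e
      · subst e
        rw [self h]
        exact Nat.zero_le _
      obtain ⟨x', _, rfl⟩ := e.1
      have key : ∃ y', f y' = y ∧
          Relation.ReflTransGen (Step (fun x => l (f x)) (Z i) r) x' y' := by
        clear e
        induction hxy with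
        | refl => exact ⟨x', rfl, Relation.ReflTransGen.refl⟩
        | @tail b c _ hs ih =>
          obtain ⟨b', hb', hch'⟩ := ih
          obtain ⟨⟨b'', hb'', e1⟩, ⟨c', hc', e2⟩, hbc⟩ := hs
          have e3 : b'' = b' := hf (e1.trans hb'.symm)
          subst e3
          refine ⟨c', e2, hch'.tail ⟨hb'', hc', ?_⟩⟩
          simp only [map_mul, map_inv]
          rw [e1, e2]
          exact hbc
      obtain ⟨y', rfl, hch'⟩ := key
      have := hch i _ _ hch'
      simpa only [map_mul, map_inv] using this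
  · rintro ⟨Z, hZ, hch⟩
    refine ⟨fun i => f ⁻¹' Z i, ?_, ?_⟩
    · intro y _
      exact hZ (f y) ⟨y, rfl⟩
    · intro i x y hxy
      have h1 : Relation.ReflTransGen (Step l (Z i) r) (f x) (f y) := by
        refine hxy.lift f (fun a b hs => ⟨hs.1, hs.2.1, ?_⟩)
        have := hs.2.2
        simpa only [map_mul, map_inv] using this
      have := hch i _ _ h1
      simpa only [map_mul, map_inv] using this

end Geo

theorem pGeo : S_Geo := by
  intro G _ l h
  refine ⟨Geo.mono h, Geo.transl, Geo.near h, Geo.union h, Geo.zero h, ?_⟩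
  intro H _ f hf
  refine ⟨Geo.pull h f hf, ?_, ?_, ?_⟩
  · rintro ⟨C, hC⟩
    refine ⟨C, fun r M E w hE hw => ?_⟩
    refine hC r M (fun i => (E i).map f) (fun i => f (w i))
      (fun i j hij => Subgroup.map_mono (hE hij)) (fun i hi => ?_)
    obtain ⟨h1, h2, h3⟩ := hw i hi
    refine ⟨h1, Subgroup.mem_map_of_mem f h2, fun h4 => h3 ?_⟩
    obtain ⟨x, hx, e⟩ := Subgroup.mem_map.1 h4
    rwa [← hf e]
  · intro hp r
    exact (hp r).preimage hf.injOn
  · exact ⟨by simp [h.one], fun g => by simp [h.inv], fun g g' => by simpa using h.mul _ _⟩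

end ANd
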