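import Pool.Agent.P.MP_5e7d86_al.BRp

/-! The Hurewicz type lemma. -/

set_option autoImplicit false
open Classical
open scoped commutatorElement

namespace ANd

namespace HUR

variable {G : Type} [Group G] {l : G → ℕ}

theorem chain_mono {Y Y' : Set G} {r B : ℕ} (h : Chain l Y r B) (hY : Y' ⊆ Y) : Chain l Y' r B :=
  fun x y c => h x y (by
    induction c with
    | refl => exact .refl
    | tail _ s ih => exact ih.tail ⟨hY s.1, hY s.2.1, s.2.2⟩)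

theorem chain_empty (H : IsLen l) (r B : ℕ) : Chain l ∅ r B := fun x y c => by
  rcases c.cases_head with rfl | ⟨_, s, -⟩
  · simp [H.one]
  · exact s.1.elim

theorem div_succ {n u : ℤ} (hn : 0 < n) (h : (u + 1) % n ≠ 0) : (u + 1) / n = u / n := by
  have h1 := Int.emod_nonneg u hn.ne'
  have h2 := Int.emod_lt_of_pos u hn
  have h3 := Int.emod_add_mul_ediv u n
  rcases (show u % n + 1 < n ∨ u % n + 1 = n by omega) with h4 | h4
  · exact ((Int.ediv_emod_unique (r := u % n + 1) hn).2 ⟨by omega, by omega, h4⟩).1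
  · refine absurd ((Int.ediv_emod_unique (q := u / n + 1) hn).2 ⟨?_, le_rfl, hn⟩).2 h
    rw [mul_add]
    omega

theorem div_near {n u v : ℤ} (hn : 0 < n) (hu : u % n ≠ 0) (hv : v % n ≠ 0) (h1 : u ≤ v + 1)
    (h2 : v ≤ u + 1) : u / n = v / n := by
  rcases (show u = v ∨ u = v + 1 ∨ v = u + 1 by omega) with rfl | rfl | rfl
  · rfl
  · exact div_succ hn hu
  · exact (div_succ hn hv).symm

/-- the label of a cell -/
def lab (k : ℕ) (m : ℤ) : Fin (k + 2) :=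
  ⟨(m % ((k + 2 : ℕ) : ℤ)).toNat, by
    have h1 := Int.emod_nonneg m (show ((k + 2 : ℕ) : ℤ) ≠ 0 by omega)
    have h2 := Int.emod_lt_of_pos m (show (0 : ℤ) < ((k + 2 : ℕ) : ℤ) by omega)
    omega⟩

theorem lab_val (k : ℕ) (m : ℤ) : ((lab k m : ℕ) : ℤ) = m % ((k + 2 : ℕ) : ℤ) :=
  Int.toNat_of_nonneg (Int.emod_nonneg m (by omega))

theorem lab_ne {k : ℕ} {m : ℤ} {c : Fin (k + 2)} (h : lab k m ≠ c) :
    (m - (c : ℕ)) % ((k + 2 : ℕ) : ℤ) ≠ 0 := fun e => h (Fin.ext (by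
  have e1 := Int.emod_eq_emod_iff_emod_sub_eq_zero.2 e
  have e2 : ((c : ℕ) : ℤ) % ((k + 2 : ℕ) : ℤ) = (c : ℕ) :=
    Int.emod_eq_of_lt (by omega) (by exact_mod_cast c.2)
  rw [← lab_val, e2] at e1
  exact_mod_cast e1))

theorem lab_inj {k : ℕ} {m m' c : ℤ} (h : lab k m = lab k m')
    (e : (m - c) / ((k + 2 : ℕ) : ℤ) = (m' - c) / ((k + 2 : ℕ) : ℤ)) : m = m' := by
  have e1 : m % ((k + 2 : ℕ) : ℤ) = m' % ((k + 2 : ℕ) : ℤ) := by rw [← lab_val, ← lab_val, h]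
  have e2 : (m - c) % ((k + 2 : ℕ) : ℤ) = (m' - c) % ((k + 2 : ℕ) : ℤ) := by
    rw [Int.sub_emod, e1, ← Int.sub_emod]
  have h3 := Int.emod_add_mul_ediv (m - c) ((k + 2 : ℕ) : ℤ)
  have h4 := Int.emod_add_mul_ediv (m' - c) ((k + 2 : ℕ) : ℤ)
  rw [e, e2, h4] at h3
  omega

/-- gluing of the colourings of the cells -/
theorem glue (hG : S_Geo) (H : IsLen l) (B : Set G) (f : G → ℤ) (k r L : ℕ) (D : ℕ → ℕ)
    (hf : ∀ a ∈ B, ∀ b ∈ B, l (a⁻¹ * b) ≤ r → f a ≤ f b + 1 ∧ f b ≤ f a + 1)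
    (hc : ∀ m R, Col l {b | b ∈ B ∧ f b = m} k R (D (R + 2 * L) + 2 * L)) :
    Col l B (k + 1) r (hb D L r (k + 2)) := by
  choose Zc h1 h2 using fun m => hc m (hb D L r (lab k m) + 2 * r)
  let Z : Fin (k + 2) → Set G := fun c =>
    {b | b ∈ B ∧ ∃ i, (lab k (f b)).succAbove i = c ∧ b ∈ Zc (f b) i}
  refine ⟨Z, fun b hb => ?_, fun c => ?_⟩
  · obtain ⟨i, hi⟩ := h1 (f b) b ⟨hb, rfl⟩
    exact ⟨_, hb, i, rfl, hi⟩
  have win : ∀ (q : ℤ) (s : ℕ), Chain l {b | (b ∈ Z c ∧ (f b - (c : ℕ)) / ((k + 2 : ℕ) : ℤ) = q) ∧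
      (lab k (f b) : ℕ) < s} r (hb D L r s) := by
    intro q s
    induction s with
    | zero => exact chain_mono (chain_empty H _ _) fun b hb => absurd hb.2 (Nat.not_lt_zero _)
    | succ s ih =>
      have y2 : Chain l {b | (b ∈ Z c ∧ (f b - (c : ℕ)) / ((k + 2 : ℕ) : ℤ) = q) ∧
          (lab k (f b) : ℕ) = s} (hb D L r s + 2 * r) (D (hb D L r s + 2 * r + 2 * L) + 2 * L) := by
        rcases Set.eq_empty_or_nonempty {b | (b ∈ Z c ∧ (f b - (c : ℕ)) / ((k + 2 : ℕ) : ℤ) = q) ∧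
          (lab k (f b) : ℕ) = s} with e | ⟨b0, ⟨⟨-, i0, e0, -⟩, q0⟩, s0⟩
        · rw [e]; exact chain_empty H _ _
        · have c2 := h2 (f b0) i0
          rw [s0] at c2
          refine chain_mono c2 ?_
          rintro b ⟨⟨⟨-, i, e1, m1⟩, q1⟩, s1⟩
          have e : f b = f b0 := lab_inj (Fin.ext (s1.trans s0.symm)) (q1.trans q0.symm)
          rw [e] at e1 m1
          rwa [Fin.succAbove_right_injective (e1.trans e0.symm)] at m1
      refine chain_mono ((hG G l H).2.2.2.1 _ _ r _ _ ih y2) fun b hb => ?_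
      rcases Nat.lt_succ_iff_lt_or_eq.1 hb.2 with e | e
      · exact Or.inl ⟨hb.1, e⟩
      · exact Or.inr ⟨hb.1, e⟩
  have ne : ∀ b ∈ Z c, (f b - (c : ℕ)) % ((k + 2 : ℕ) : ℤ) ≠ 0 := by
    rintro b ⟨-, i, e, -⟩
    exact lab_ne fun e' => Fin.succAbove_ne _ i (e.trans e'.symm)
  intro x y ch
  refine win ((f x - (c : ℕ)) / ((k + 2 : ℕ) : ℤ)) (k + 2) x y ?_
  suffices h : (f y - (c : ℕ)) / ((k + 2 : ℕ) : ℤ) = (f x - (c : ℕ)) / ((k + 2 : ℕ) : ℤ) ∧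
      Relation.ReflTransGen (Step l {b | (b ∈ Z c ∧ (f b - (c : ℕ)) / ((k + 2 : ℕ) : ℤ) =
        (f x - (c : ℕ)) / ((k + 2 : ℕ) : ℤ)) ∧ (lab k (f b) : ℕ) < k + 2} r) x y from h.2
  induction ch with
  | refl => exact ⟨rfl, .refl⟩
  | @tail a b _ s ih =>
    obtain ⟨n1, n2⟩ := hf a s.1.1 b s.2.1.1 s.2.2
    have e : (f b - (c : ℕ)) / ((k + 2 : ℕ) : ℤ) = (f a - (c : ℕ)) / ((k + 2 : ℕ) : ℤ) :=
      div_near (by omega) (ne b s.2.1) (ne a s.1) (by omega) (by omega)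
    exact ⟨e.trans ih.1, ih.2.tail ⟨⟨⟨s.1, ih.1⟩, (lab k _).2⟩,
      ⟨⟨s.2.1, e.trans ih.1⟩, (lab k _).2⟩, s.2.2⟩⟩

theorem floor_near {x y : ℝ} (h : x ≤ y + 1) : ⌊x⌋ ≤ ⌊y⌋ + 1 := by
  rw [← Int.floor_add_one]
  exact Int.floor_mono h

end HUR

theorem pHUR (hG : S_Geo) : S_HUR := by
  refine ⟨fun G _ l H A B p sg k r L D hs hp h1 h2 hA => ?_, fun c c' k => ?_⟩
  · have sub : ∀ a ∈ B, ∀ b ∈ B, p (a⁻¹ * b) = p b - p a := fun a ha b hb => by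
      have e := hp a ha _ (B.mul_mem (B.inv_mem ha) hb)
      rw [mul_inv_cancel_left] at e
      linarith
    have hs2 : 0 < 2 * sg := by linarith
    refine HUR.glue hG H B (fun b => ⌊p b / (2 * sg)⌋) k r L D (fun a ha b hb e => ?_)
      fun m R => ?_
    · have e1 := h1 _ (B.mul_mem (B.inv_mem ha) hb) e
      rw [sub a ha b hb, abs_le] at e1
      constructor <;> apply HUR.floor_near <;>
        rw [div_add_one hs2.ne', div_le_div_iff_of_pos_right hs2] <;> linarith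
    · obtain ⟨b0, h0⟩ : ∃ b0 : G, ∀ b ∈ B, ⌊p b / (2 * sg)⌋ = m →
          b0 ∈ B ∧ ⌊p b0 / (2 * sg)⌋ = m := by
        by_cases e : ∃ b ∈ B, ⌊p b / (2 * sg)⌋ = m
        · obtain ⟨b, e⟩ := e
          exact ⟨b, fun _ _ _ => e⟩
        · exact ⟨1, fun b hb e' => absurd ⟨b, hb, e'⟩ e⟩
      refine (hG G l H).2.2.1 _ _ k R _ L ?_ ((hG G l H).2.1 _ k _ _ b0 (hA (R + 2 * L)))
      rintro b ⟨hb, e⟩
      obtain ⟨hb0, e0⟩ := h0 b hb e
      have e1 := Int.abs_sub_lt_one_of_floor_eq_floor (e.trans e0.symm)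
      rw [← sub_div, abs_div, abs_of_pos hs2, div_lt_one hs2, ← sub b0 hb0 b hb] at e1
      obtain ⟨a, ha, e2⟩ := h2 _ (B.mul_mem (B.inv_mem hb0) hb) e1.le
      exact ⟨b0 * a, ⟨a, ha, rfl⟩, by rwa [mul_inv_rev, mul_assoc]⟩
  · induction k with
    | zero => exact ⟨0, fun r => Nat.zero_le _⟩
    | succ k ih =>
      obtain ⟨e, he⟩ := ih
      refine ⟨c * (e + 2 + 2 * c') + 2 * c' + 2 * e + 2, fun r => ?_⟩
      have h1 := he r
      have h2 := Nat.mul_le_mul_left c h1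
      simp only [hb]
      nlinarith

end ANd
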