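import Pool.Agent.P.MP_5e7d86_al.BRp

/-! A metabelian group embeds in `GL 2` of a commutative ring. -/

set_option autoImplicit false
open Classical
open scoped commutatorElement

namespace ANd.KK

section
variable (Q A : Type) [CommGroup Q] [AddCommGroup A]

/-- functions on `Q` with the shift action -/
def MM (Q A : Type) : Type := Q → A

instance : AddCommGroup (MM Q A) := inferInstanceAs (AddCommGroup (Q → A))

/-- the shift representation -/
def sh : Representation ℤ Q (MM Q A) where
  toFun a :=
    { toFun := fun m q => m (q * a)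
      map_add' := fun _ _ => rfl
      map_smul' := fun _ _ => rfl }
  map_one' := by
    refine LinearMap.ext fun m => funext fun q => ?_
    change m (q * 1) = m q
    rw [mul_one]
  map_mul' a b := by
    refine LinearMap.ext fun m => funext fun q => ?_
    change m (q * (a * b)) = m (q * a * b)
    rw [mul_assoc]

noncomputable instance : Module (MonoidAlgebra ℤ Q) (MM Q A) :=
  Module.compHom (MM Q A) (sh Q A).asAlgebraHom.toRingHom

noncomputable instance : Module (MonoidAlgebra ℤ Q)ᵐᵒᵖ (MM Q A) :=
  Module.compHom (MM Q A) ((RingHom.id (MonoidAlgebra ℤ Q)).fromOpposite mul_comm)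

instance : IsCentralScalar (MonoidAlgebra ℤ Q) (MM Q A) := ⟨fun _ _ => rfl⟩

theorem of_smul (a : Q) (m : MM Q A) :
    (MonoidAlgebra.of ℤ Q a) • m = fun q => m (q * a) := by
  change (sh Q A).asAlgebraHom (MonoidAlgebra.of ℤ Q a) m = _
  rw [Representation.asAlgebraHom_of]
  rfl

end

theorem key (H Q A : Type) [Group H] [CommGroup Q] [AddCommGroup A] (π : H →* Q)
    (f : H → MM Q A) (hf : ∀ h h' q, f (h * h') q = f h q + f h' (q * π h))
    (hinj : ∀ h, π h = 1 → f h = 0 → h = 1) :
    ∃ (R : Type) (_ : CommRing R) (psi : H →* GL (Fin 2) R), Function.Injective psi := by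
  let R := TrivSqZeroExt (MonoidAlgebra ℤ Q) (MM Q A)
  have h1 : f 1 = 0 := by
    funext q
    have := hf 1 1 q
    rw [mul_one, map_one, mul_one] at this
    exact left_eq_add.1 this
  have h2 : ∀ h h', f (h * h') = (MonoidAlgebra.of ℤ Q (π h)) • f h' + f h := by
    intro h h'
    rw [of_smul]
    funext q
    exact (hf h h' q).trans (add_comm _ _)
  let φ : H →* Matrix (Fin 2) (Fin 2) R :=
    { toFun := fun h => !![TrivSqZeroExt.inl (MonoidAlgebra.of ℤ Q (π h)),
        TrivSqZeroExt.inr (f h); 0, 1]
      map_one' := by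
        rw [map_one, map_one, h1, TrivSqZeroExt.inl_one, TrivSqZeroExt.inr_zero,
          Matrix.one_fin_two]
      map_mul' := fun h h' => by
        rw [Matrix.mul_fin_two, map_mul, map_mul, TrivSqZeroExt.inl_mul, h2,
          TrivSqZeroExt.inr_add, TrivSqZeroExt.inl_mul_inr]
        simp only [mul_zero, zero_mul, add_zero, zero_add, mul_one] }
  refine ⟨R, inferInstance, φ.toHomUnits, (injective_iff_map_eq_one _).2 fun h hh => ?_⟩
  have e : φ h = 1 := by simpa using congrArg Units.val hh
  have e0 : (TrivSqZeroExt.inl (MonoidAlgebra.of ℤ Q (π h)) : R) = 1 := congrFun (congrFun e 0) 0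
  have e1 : (TrivSqZeroExt.inr (f h) : R) = 0 := congrFun (congrFun e 0) 1
  refine hinj h (MonoidAlgebra.of_injective (R := ℤ) ?_) (congrArg TrivSqZeroExt.snd e1)
  rw [map_one]
  exact congrArg TrivSqZeroExt.fst e0

end ANd.KK

namespace ANd

theorem pKK : S_KK := by
  intro H _ hH
  have hc : ∀ x y : commutator H, x * y = y * x := fun x y => Subtype.ext
    (Subgroup.mem_centralizer_iff.1
      (Subgroup.commutator_eq_bot_iff_le_centralizer.1 hH y.2) x x.2)
  letI : CommGroup (commutator H) := { (inferInstance : Group (commutator H)) with mul_comm := hc }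
  let π : H →* Abelianization H := Abelianization.of
  have hs : Function.Surjective π := fun q => Quotient.inductionOn' q fun x => ⟨x, rfl⟩
  obtain ⟨s, hs⟩ := hs.hasRightInverse
  have hm : ∀ h q, s q * h * (s (q * π h))⁻¹ ∈ commutator H := fun h q => by
    rw [← Abelianization.ker_of, MonoidHom.mem_ker]
    change π _ = 1
    rw [map_mul, map_mul, map_inv, hs, hs, mul_inv_cancel]
  refine KK.key H (Abelianization H) (Additive (commutator H)) π
    (fun h q => Additive.ofMul ⟨_, hm h q⟩) (fun h h' q => ?_) fun h h1 h2 => ?_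
  · refine congrArg Additive.ofMul (Subtype.ext ?_)
    change s q * (h * h') * (s (q * π (h * h')))⁻¹ =
      s q * h * (s (q * π h))⁻¹ * (s (q * π h) * h' * (s (q * π h * π h'))⁻¹)
    rw [map_mul, ← mul_assoc q]
    group
  · have e : s 1 * h * (s (1 * π h))⁻¹ = 1 :=
      congrArg (fun x : Additive (commutator H) => ((Additive.toMul x : commutator H) : H))
        (congrFun h2 1)
    rw [h1, mul_one, mul_inv_eq_one] at e
    exact mul_eq_left.1 e

end ANd
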