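import Pool.Agent.P.MP_5e7d86_al.BRp

/-! Package KL: the key lemma in every degree from degree zero. -/

set_option autoImplicit false
open Classical
open scoped commutatorElement

namespace ANd.KL

variable {A : Type} [Ring A] [Algebra ℝ A]

theorem nest_span (i : ℕ) (T : Fin (i + 1) → Set A) (P : Submodule ℝ A)
    (h : ∀ w : Fin (i + 1) → A, (∀ u, w u ∈ T u) → nest i w ∈ P) (w : Fin (i + 1) → A)
    (hw : ∀ u, w u ∈ Submodule.span ℝ (T u)) : nest i w ∈ P := by
  have key : ∀ F : Finset (Fin (i + 1)), ∀ w : Fin (i + 1) → A,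
      (∀ u ∈ F, w u ∈ Submodule.span ℝ (T u)) → (∀ u, u ∉ F → w u ∈ T u) → nest i w ∈ P := by
    intro F
    induction F using Finset.induction_on with
    | empty => exact fun w _ h2 => h w fun u => h2 u (by simp)
    | insert a F ha ih =>
      intro w h1 h2
      have e : Submodule.span ℝ (T a) ≤ P.comap (nestS i w a) := Submodule.span_le.2 fun x hx => by
        refine ih (Function.update w a x) (fun u hu => ?_) fun u hu => ?_
        · rw [Function.update_of_ne (by rintro rfl; exact ha hu)]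
          exact h1 u (Finset.mem_insert_of_mem hu)
        · by_cases c : u = a
          · subst c
            rwa [Function.update_self]
          · rw [Function.update_of_ne c]
            exact h2 u (by simp [c, hu])
      have := e (h1 a (Finset.mem_insert_self _ _))
      simpa using this
  exact key Finset.univ w (fun u _ => hw u) fun u hu => absurd (Finset.mem_univ u) hu

theorem split_fam {I : Type} [Fintype I] (N : I → A →ₗ[ℝ] A) (B : Set A) {a : ℝ} {u : A}
    (h : In (⋃ p, N p '' B) a u) : ∃ f : I → A, (∀ p, In B a (f p)) ∧ u = ∑ p, N p (f p) := by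
  induction h with
  | zero => exact ⟨0, fun _ => In.zero, by simp⟩
  | mem v hv =>
    obtain ⟨q, b, hb, rfl⟩ := Set.mem_iUnion.1 hv
    refine ⟨Pi.single q b, fun p => ?_, ?_⟩
    · by_cases c : p = q
      · subst c
        rw [Pi.single_eq_same]
        exact In.mem b hb
      · rw [Pi.single_eq_of_ne c]
        exact In.zero' zero_le_one
    · rw [Finset.sum_eq_single q (fun p _ c => by rw [Pi.single_eq_of_ne c, map_zero]) (by simp),
        Pi.single_eq_same]
  | add a b v w _ _ h1 h2 =>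
    obtain ⟨f, f1, rfl⟩ := h1
    obtain ⟨g, g1, rfl⟩ := h2
    exact ⟨f + g, fun p => (f1 p).add' (g1 p), by simp [Finset.sum_add_distrib]⟩
  | smul t a v _ h1 =>
    obtain ⟨f, f1, rfl⟩ := h1
    exact ⟨t • f, fun p => (f1 p).smul' t, by simp [Finset.smul_sum]⟩
  | mono a b v hab _ h1 =>
    obtain ⟨f, f1, rfl⟩ := h1
    exact ⟨f, fun p => (f1 p).le hab, rfl⟩

variable {G : Type} [Group G] (S : LSetup G A)

/-- The generators together with the neutral element. -/
def ee (j : Option (Fin S.m)) : G := j.elim 1 S.e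

theorem ee_mem (j : Option (Fin S.m)) : ee S j ∈ S.N := by
  cases j with
  | none => exact S.N.one_mem
  | some j => exact S.eN j

/-- Slots and tuples. -/
abbrev Ix (i : ℕ) : Type := Fin (i + 1) × (Fin (i + 1) → Option (Fin S.m))

/-- The bracket with one free slot. -/
noncomputable def NN (i : ℕ) (p : Ix S i) : A →ₗ[ℝ] A :=
  nestS i (fun u => S.R.L (ee S (p.2 u))) p.1

theorem UI_le {U0 : Submodule ℝ A} {B1 : Set A} (h : Submodule.span ℝ B1 = U0) (i : ℕ) :
    S.UI U0 i ≤ Submodule.span ℝ (⋃ p, NN S i p '' B1) := by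
  refine Submodule.span_le.2 ?_
  rintro _ ⟨v, hv, ⟨s, hs⟩, rfl⟩
  refine nest_span i (fun u => if u = s then B1 else S.B0) _ (fun w hw => ?_) v fun u => ?_
  · have a : ∀ u, ∃ j : Option (Fin S.m), u ≠ s → w u = S.R.L (ee S j) := fun u => by
      by_cases c : u = s
      · exact ⟨none, fun d => absurd c d⟩
      · have := hw u
        rw [if_neg c] at this
        obtain ⟨j, hj⟩ := this
        exact ⟨some j, fun _ => hj.symm⟩
    choose J hJ using a
    refine Submodule.subset_span (Set.mem_iUnion.2 ⟨(s, J), w s, by simpa using hw s, ?_⟩)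
    rw [NN, nestS_apply]
    congr 1
    funext u
    by_cases c : u = s
    · subst c
      rw [Function.update_self]
    · rw [Function.update_of_ne c, hJ u c]
  · split_ifs with c
    · rw [h, c]
      exact hs
    · rw [S.B0_span]
      exact hv u

theorem mem_sup (hL : S_LCS) {c K i : ℕ} (hc : c ≤ K) {v : Fin (i + 1) → G}
    (hv : ∀ u, v u ∈ S.toSetup.E c) (s : Fin (i + 1)) {y : G}
    (hy : y ∈ S.toSetup.Γ c 0 ⊔ S.toSetup.Γ K 1) :
    cm i (Function.update v s y) ∈ S.toSetup.Γ c i ⊔ S.toSetup.Γ K (i + 1) := by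
  obtain ⟨-, -, l3, l4, -, -, l7⟩ := hL G (S.toSetup.E K)
  have hE := S.toSetup.E_mono hc
  obtain ⟨a, ha, hz⟩ := l7 (S.toSetup.E c) 1 hE y hy
  have hv' : ∀ u, v u ∈ S.toSetup.E K := fun u => hE (hv u)
  have h1 := l3 i v s a (a⁻¹ * y) hv' (hE ha) (lcs_le _ 1 hz)
  have h2 := l4 i v s (a⁻¹ * y) hv' hz
  have h3 := (hL G (S.toSetup.E c)).2.1 i (Function.update v s a) fun u => by
    by_cases d : u = s
    · subst d
      rwa [Function.update_self]
    · rw [Function.update_of_ne d]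
      exact hv u
  rw [mul_inv_cancel_left] at h1
  have h4 := Subgroup.mul_mem _ (Subgroup.mul_mem _
    (Subgroup.mem_sup_left (T := S.toSetup.Γ K (i + 1)) (S := S.toSetup.Γ c i) h3)
    (Subgroup.mem_sup_right h2)) (Subgroup.mem_sup_right h1)
  rwa [mul_inv_cancel_left] at h4

/-- One term. -/
theorem term (hC : S_CmL) (hL : S_LCS) (hB : S_Br) (hV : S.R.D.LieSub S.R.V) (i : ℕ) (A0 : ℝ)
    (hA : 1 ≤ A0) {c : ℕ} (hc : ∀ j, ee S j ∈ S.toSetup.B c) : ∃ C : ℝ, 0 ≤ C ∧ ∀ K, c ≤ K →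
      ∀ (p : Ix S i) (y0 : G) (x : A), S.l y0 ≤ K → y0 ∈ S.toSetup.Γ c 0 ⊔ S.toSetup.Γ K 1 →
        In (TG (S.Y K) 0) A0 (S.R.L y0) → In (TG (S.Y K) 1) A0 (S.R.L y0 - x) →
        ∃ y ∈ S.toSetup.Γ c i ⊔ S.toSetup.Γ K (i + 1), S.l y ≤ 4 ^ i * K ∧
          In (TG (S.Y K) i) C (S.R.L y) ∧ In (TG (S.Y K) (i + 1)) C (S.R.L y - NN S i p x) := by
  obtain ⟨C, h0, h1⟩ := hC A S.R.D i A0
  refine ⟨C + (C + (2 ^ S.R.D.n) ^ i * A0 ^ (i + 1)), by positivity,
    fun K hK p y0 x l0 m0 a0 b0 => ?_⟩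
  have hY : S.Y K ⊆ S.R.D.U := fun v hv => hV.le (S.Y_sub K hv)
  have n0 : y0 ∈ S.N := (sup_le (S.toSetup.Γ_le c 0) (S.toSetup.Γ_le K 1)) m0
  have e1 : ∀ j, In (TG (S.Y K) 0) A0 (S.R.L (ee S j)) := fun j =>
    In.of_mem (sub_TG _ (S.mem_Y (S.toSetup.B_mono hK (hc j)))) hA
  have e2 : ∀ {z : A}, In (TG (S.Y K) 0) A0 z → ∀ u,
      In (TG (S.Y K) 0) A0 (Function.update (fun u => S.R.L (ee S (p.2 u))) p.1 z u) :=
    fun hz u => by
      by_cases d : u = p.1
      · subst d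
        rwa [Function.update_self]
      · rw [Function.update_of_ne d]
        exact e1 _
  have e3 : (fun u => S.R.D.LL (S.R.psi (Function.update (fun u => ee S (p.2 u)) p.1 y0 u))) =
      Function.update (fun u => S.R.L (ee S (p.2 u))) p.1 (S.R.L y0) := by
    funext u
    by_cases d : u = p.1
    · subst d
      rw [Function.update_self, Function.update_self]
      rfl
    · rw [Function.update_of_ne d, Function.update_of_ne d]
      rfl
  obtain ⟨-, c1, c2⟩ := h1 (S.Y K) hY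
    (fun u => S.R.psi (Function.update (fun u => ee S (p.2 u)) p.1 y0 u)) fun u => by
      refine ⟨S.R.uni _ ?_, ?_⟩
      · by_cases d : u = p.1
        · subst d
          rwa [Function.update_self]
        · rw [Function.update_of_ne d]
          exact ee_mem S _
      · rw [congrFun e3 u]
        exact e2 a0 u
  rw [e3] at c1 c2
  rw [← map_cm] at c2
  have c3 := ((hB A S.R.D (S.Y K) hY).2.2.2.2.2.1 i A0 _ (e2 (b0.TG_anti zero_le_one))).2 p.1
    (by rwa [Function.update_self])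
  have hp : 0 ≤ ((2 : ℝ) ^ S.R.D.n) ^ i * A0 ^ (i + 1) := by positivity
  refine ⟨_, mem_sup S hL hK (fun u => S.toSetup.B_sub_E c (hc (p.2 u))) p.1 m0,
    S.len.cm K i _ fun u => ?_, ?_, ?_⟩
  · by_cases d : u = p.1
    · subst d
      rwa [Function.update_self]
    · rw [Function.update_of_ne d]
      exact (hc _).2.trans hK
  · exact ((c1.add' (c2.TG_anti (Nat.le_succ i))).congr (add_sub_cancel _ _)).le (by linarith)
  · refine ((c2.add' c3).congr ?_).le (by linarith)
    change S.R.L _ - NN S i p _ + NN S i p _ = _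
    rw [map_sub]
    abel

end ANd.KL

namespace ANd

open KL

theorem pKL (hA : S_Auer) (hC : S_CmL) (hL : S_LCS) (hB : S_Br) (hG : S_GR) (h1 : S_Lie1) :
    S_KL := by
  intro G _ A _ _ S U0 hU h0 i
  obtain ⟨c0, C0, h0⟩ := h0
  rw [S.UI_zero hU] at h0
  have hV := (h1 G A S.N S.R S.toSetup.normal).1
  obtain ⟨B1, hB1⟩ : U0.FG := by
    have := S.fd
    have := Submodule.finiteDimensional_of_le hU
    exact (Submodule.fg_iff_finiteDimensional U0).2 this
  obtain ⟨C1, p1, q1⟩ := In.exists_unif (Y := S.B0) B1.finite_toSet (by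
    rw [S.B0_span]
    exact fun v hv => hU (hB1 ▸ Submodule.subset_span hv))
  obtain ⟨C2, p2, q2⟩ := (hA A).2 S.B0 (⋃ p, NN S i p '' (B1 : Set A)) S.B0_finite
    (Set.finite_iUnion fun p => B1.finite_toSet.image _)
  obtain ⟨C4, p4, q4⟩ := In.exists_unif (Y := S.B0) (S := ⋃ p, NN S i p '' S.B0)
    (Set.finite_iUnion fun p => S.B0_finite.image _) (by
      rw [S.B0_span]
      intro v hv
      obtain ⟨p, b, hb, rfl⟩ := Set.mem_iUnion.1 hv
      refine nest_mem _ hV.br i _ fun u => ?_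
      by_cases d : u = p.1
      · subst d
        rw [Function.update_self, ← S.B0_span]
        exact Submodule.subset_span hb
      · rw [Function.update_of_ne d]
        exact S.R.L_mem_V (ee_mem S _))
  obtain ⟨n, hn⟩ := pow_unbounded_of_one_lt (C1 * C2) (one_lt_two (α := ℝ))
  obtain ⟨c1, hc1⟩ := S.toSetup.exists_B (Set.finite_range (ee S)) (by
    rintro _ ⟨j, rfl⟩
    exact ee_mem S j)
  have hc : ∀ j, ee S j ∈ S.toSetup.B (c0 + c1) := fun j =>
    S.toSetup.B_mono (Nat.le_add_left _ _) (hc1 ⟨j, rfl⟩)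
  obtain ⟨C3, p3, q3⟩ := term S hC hL hB hV i (C0 + 1) (by simp) hc
  obtain ⟨M, hM⟩ : ∃ M : ℕ, M = Fintype.card (Ix S i) := ⟨_, rfl⟩
  obtain ⟨C5, p5, q5⟩ := hG A S.R.D (M * C3)
  obtain ⟨C6, q6⟩ := exists_nat_ge (M * C3 + C5 + M * (C4 * C0))
  obtain ⟨K1, hK1⟩ : ∃ K1 : ℕ, K1 = c0 + c1 + C0 * (n + 1) := ⟨_, rfl⟩
  refine ⟨c0 + c1, C6 + (M * 4 ^ i + 1) * K1, fun k hk u hu hin => ?_⟩
  obtain ⟨f, f1, rfl⟩ := split_fam (NN S i) B1 (q2 _ u (UI_le S hB1 i hu) hin)
  have k1 : c0 + c1 ≤ K1 * k := by nlinarith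
  have k2 : C0 * ((n + 1) * k) ≤ K1 * k := by nlinarith
  have k3 : K1 * k ≤ (C6 + (M * 4 ^ i + 1) * K1) * k :=
    Nat.mul_le_mul_right _ (le_add_left (Nat.le_mul_of_pos_left _ (Nat.succ_pos _)))
  have hY : S.Y (K1 * k) ⊆ S.R.D.U := fun v hv => hV.le (S.Y_sub _ hv)
  have step : ∀ p : Ix S i, ∃ (y : G) (b : A),
      y ∈ S.toSetup.Γ (c0 + c1) i ⊔ S.toSetup.Γ (K1 * k) (i + 1) ∧ S.l y ≤ 4 ^ i * (K1 * k) ∧
      In (TG (S.Y (K1 * k)) i) C3 (S.R.L y) ∧ In S.B0 (C4 * C0) b ∧
      In (TG (S.Y (K1 * k)) (i + 1)) C3 (S.R.L y - NN S i p (f p) - b) := fun p => by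
    obtain ⟨y0, a1, a2, a3, b, a4, a5⟩ := h0 ((n + 1) * k) (by nlinarith) (f p)
      (hB1 ▸ (f1 p).mem_span) ((In.trans p1 q1 (f1 p)).le (by
        rw [← mul_assoc, add_mul, one_mul, pow_add]
        refine mul_le_mul_of_nonneg_right (hn.le.trans ?_) (by positivity)
        exact pow_le_pow_right₀ one_le_two (by nlinarith)))
    obtain ⟨y, b1, b2, b3, b4⟩ := q3 (K1 * k) k1 p y0 (f p + b) (a1.trans k2)
      (sup_le_sup (S.toSetup.Γ_mono (Nat.le_add_right _ _) 0) (S.toSetup.Γ_mono k2 1) a2)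
      ((a3.TG_mono (S.Y_mono k2)).le (by simp))
      (((a5.TG_mono (S.Y_mono k2)).le (by simp)).congr (sub_sub _ _ _))
    refine ⟨y, NN S i p b, b1, b2, b3, In.map _ p4 (fun v hv => q4 _ ?_) a4, b4.congr ?_⟩
    · exact Set.mem_iUnion.2 ⟨p, v, hv, rfl⟩
    · rw [map_add, sub_sub]
  choose y b s1 s2 s3 s4 s5 using step
  have hN : ∀ p, y p ∈ S.N := fun p =>
    (sup_le (S.toSetup.Γ_le _ i) (S.toSetup.Γ_le _ (i + 1))) (s1 p)
  have g1 := q5 _ hY i ((Finset.univ : Finset (Ix S i)).toList.map fun p => (C3, S.R.psi (y p)))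
    (by
      intro q hq
      obtain ⟨p, -, rfl⟩ := List.mem_map.1 hq
      exact ⟨S.R.uni _ (hN p), s3 p⟩)
    (by simp [hM, Function.comp_def])
  have e1 : (((Finset.univ : Finset (Ix S i)).toList.map fun p => (C3, S.R.psi (y p))).map
      Prod.snd).prod = S.R.psi ((Finset.univ : Finset (Ix S i)).toList.map y).prod := by
    rw [map_list_prod, List.map_map, List.map_map]
    rfl
  have e2 : (((Finset.univ : Finset (Ix S i)).toList.map fun p => (C3, S.R.psi (y p))).map
      fun q => S.R.D.LL q.2).sum = ∑ p, S.R.L (y p) := by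
    rw [List.map_map, Finset.sum_map_toList]
    rfl
  rw [e1, e2] at g1
  have r0 : (0 : ℝ) ≤ M * C3 := by positivity
  have r1 : (0 : ℝ) ≤ M * (C4 * C0) := by positivity
  have r2 : (C6 : ℝ) ≤ ((C6 + (M * 4 ^ i + 1) * K1 : ℕ) : ℝ) := by
    exact_mod_cast Nat.le_add_right _ _
  have t1 := In.sum_le Finset.univ _ fun p _ => s3 p
  have t2 := In.sum_le Finset.univ _ fun p _ => s4 p
  have t3 := In.sum_le Finset.univ _ fun p _ => s5 p
  rw [Finset.card_univ, ← hM] at t1 t2 t3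
  refine ⟨((Finset.univ : Finset (Ix S i)).toList.map y).prod, ?_, ?_, ?_, ∑ p, b p,
    t2.le (by linarith), ?_⟩
  · refine (S.len.prod_le _ (4 ^ i * (K1 * k)) fun x hx => ?_).trans ?_
    · obtain ⟨p, -, rfl⟩ := List.mem_map.1 hx
      exact s2 p
    · rw [List.length_map, Finset.length_toList, Finset.card_univ, ← hM]
      nlinarith
  · refine Subgroup.list_prod_mem _ fun x hx => ?_
    obtain ⟨p, -, rfl⟩ := List.mem_map.1 hx
    exact sup_le_sup_left (S.toSetup.Γ_mono k3 (i + 1)) _ (s1 p)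
  · exact (((t1.add' (g1.TG_anti (Nat.le_succ i))).congr (add_sub_cancel _ _)).TG_mono
      (S.Y_mono k3)).le (by linarith)
  · refine (((t3.add' g1).congr ?_).TG_mono (S.Y_mono k3)).le (by linarith)
    rw [Finset.sum_sub_distrib, Finset.sum_sub_distrib]
    change _ + (S.R.L _ - _) = _
    abel

end ANd
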