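import Pool.Agent.P.MP_5e7d86_al.BRp

/-! The killing lemma for the sum of the expanding subspaces. -/

set_option autoImplicit false
open Classical
open scoped commutatorElement

namespace ANd.KL0

variable {G : Type} [Group G] {A : Type} [Ring A] [Algebra ℝ A]

theorem kl_bot (S : LSetup G A) : S.KL ⊥ 0 := by
  refine ⟨0, 0, fun k _ u hu _ => ⟨1, by simp [S.len.one], Subgroup.one_mem _, ?_, 0, ?_, ?_⟩⟩
  · rw [S.R.L_one]; exact In.zero' (by simp)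
  · exact In.zero' (by simp)
  · rw [S.UI_zero bot_le, Submodule.mem_bot] at hu
    rw [S.R.L_one, hu]
    simpa using In.zero

theorem exists_span (S : LSetup G A) {U : Submodule ℝ A} (h : U ≤ S.R.V) :
    ∃ B : Set A, B.Finite ∧ Submodule.span ℝ B = U := by
  have := S.fd
  have : FiniteDimensional ℝ U := Submodule.finiteDimensional_of_le h
  exact Submodule.fg_def.1 (Module.Finite.iff_fg.1 this)

theorem split (hA : S_Auer) (S : LSetup G A) {U U' : Submodule ℝ A} (h : U ≤ S.R.V)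
    (h' : U' ≤ S.R.V) : ∃ c0 : ℕ, ∀ k ≥ 1, ∀ u ∈ U ⊔ U', In S.B0 (2 ^ k) u →
      ∃ v ∈ U, u - v ∈ U' ∧ In S.B0 (2 ^ ((c0 + 1) * k)) v ∧
        In S.B0 (2 ^ ((c0 + 1) * k)) (u - v) := by
  obtain ⟨B1, f1, s1⟩ := exists_span S h
  obtain ⟨B2, f2, s2⟩ := exists_span S h'
  obtain ⟨C, hC, H⟩ := (hA A).2 S.B0 (B1 ∪ B2) S.B0_finite (f1.union f2)
  obtain ⟨C', hC', H'⟩ := In.exists_unif (Y := S.B0) (f1.union f2) (by
    rw [S.B0_span]
    rintro x (hx | hx)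
    · exact h (s1 ▸ Submodule.subset_span hx)
    · exact h' (s2 ▸ Submodule.subset_span hx))
  obtain ⟨c0, hc0⟩ := pow_unbounded_of_one_lt (C' * C) (one_lt_two (α := ℝ))
  refine ⟨c0, fun k hk u hu hin => ?_⟩
  obtain ⟨v, h1, h2⟩ := (H _ u (by rw [Submodule.span_union, s1, s2]; exact hu) hin).split_union
  have hle : C' * (C * 2 ^ k) ≤ 2 ^ ((c0 + 1) * k) := by
    rw [← mul_assoc, add_mul, one_mul, pow_add]
    refine mul_le_mul_of_nonneg_right (hc0.le.trans ?_) (by positivity)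
    exact pow_le_pow_right₀ one_le_two (Nat.le_mul_of_pos_right _ hk)
  exact ⟨v, s1 ▸ h1.mem_span, s2 ▸ h2.mem_span,
    (h1.trans hC' fun y hy => H' y (Or.inl hy)).le hle,
    (h2.trans hC' fun y hy => H' y (Or.inr hy)).le hle⟩

theorem kl_sup (hA : S_Auer) (hG : S_GR) (hL : S_Lie1) (S : LSetup G A) {U U' : Submodule ℝ A}
    (h : U ≤ S.R.V) (h' : U' ≤ S.R.V) (k1 : S.KL U 0) (k2 : S.KL U' 0) : S.KL (U ⊔ U') 0 := by
  obtain ⟨c0, hs⟩ := split hA S h h'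
  obtain ⟨c1, C1, k1⟩ := k1
  obtain ⟨c2, C2, k2⟩ := k2
  obtain ⟨Cg, hCg, hg⟩ := hG A S.R.D (C1 + C2)
  have hV := (hL G A S.N S.R S.toSetup.normal).1.le
  refine ⟨c1 + c2, (C1 + C2 + ⌈Cg⌉₊) * (c0 + 1), fun k hk u hu hin => ?_⟩
  rw [S.UI_zero (sup_le h h')] at hu
  obtain ⟨v, hv, hv', i1, i2⟩ := hs k hk u hu hin
  have hk' : (c0 + 1) * k ≥ 1 := Nat.mul_pos (Nat.succ_pos _) hk
  obtain ⟨y1, l1, m1, a1, b1, e1, f1⟩ := k1 _ hk' v (by rw [S.UI_zero h]; exact hv) i1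
  obtain ⟨y2, l2, m2, a2, b2, e2, f2⟩ := k2 _ hk' (u - v) (by rw [S.UI_zero h']; exact hv') i2
  set K := (C1 + C2 + ⌈Cg⌉₊) * (c0 + 1) * k with hK
  have hK0 : C1 * ((c0 + 1) * k) + C2 * ((c0 + 1) * k) ≤ K := by
    rw [hK, mul_assoc, ← add_mul]
    exact Nat.mul_le_mul_right _ (Nat.le_add_right _ _)
  have hK1 : C1 * ((c0 + 1) * k) ≤ K := by omega
  have hK2 : C2 * ((c0 + 1) * k) ≤ K := by omega
  have hC : (C1 : ℝ) + C2 + Cg ≤ (((C1 + C2 + ⌈Cg⌉₊) * (c0 + 1) : ℕ) : ℝ) := by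
    have := Nat.le_ceil Cg
    have h3 : (((C1 + C2 + ⌈Cg⌉₊ : ℕ)) : ℝ) ≤ (((C1 + C2 + ⌈Cg⌉₊) * (c0 + 1) : ℕ) : ℝ) :=
      Nat.cast_le.2 (Nat.le_mul_of_pos_right _ (Nat.succ_pos _))
    push_cast at h3 ⊢
    linarith
  have n1 : y1 ∈ S.N := sup_le (S.toSetup.Γ_le _ _) (S.toSetup.Γ_le _ _) m1
  have n2 : y2 ∈ S.N := sup_le (S.toSetup.Γ_le _ _) (S.toSetup.Γ_le _ _) m2
  have a1' := a1.TG_mono (S.Y_mono hK1)
  have a2' := a2.TG_mono (S.Y_mono hK2)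
  have err : In (TG (S.Y K) (0 + 1)) Cg (S.R.L (y1 * y2) - (S.R.L y1 + S.R.L y2)) := by
    have := hg (S.Y K) ((S.Y_sub K).trans hV) 0 [((C1 : ℝ), S.R.psi y1), ((C2 : ℝ), S.R.psi y2)]
      (by
        intro p hp
        simp only [List.mem_cons, List.not_mem_nil, or_false] at hp
        rcases hp with rfl | rfl
        · exact ⟨S.R.uni _ n1, a1'⟩
        · exact ⟨S.R.uni _ n2, a2'⟩) (by simp)
    simpa [LData.L] using this
  have hC1 : (0 : ℝ) ≤ C1 := Nat.cast_nonneg _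
  have hC2 : (0 : ℝ) ≤ C2 := Nat.cast_nonneg _
  refine ⟨y1 * y2, (S.len.mul _ _).trans ((add_le_add l1 l2).trans hK0), Subgroup.mul_mem _
    (sup_le_sup (S.toSetup.Γ_mono (Nat.le_add_right _ _) _) (S.toSetup.Γ_mono hK1 _) m1)
    (sup_le_sup (S.toSetup.Γ_mono (Nat.le_add_left _ _) _) (S.toSetup.Γ_mono hK2 _) m2), ?_,
    b1 + b2, (e1.add' e2).le (by linarith), ?_⟩
  · exact (((a1'.add' a2').add' (err.TG_anti (Nat.zero_le _))).congr (by abel)).le hC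
  · exact ((((f1.TG_mono (S.Y_mono hK1)).add' (f2.TG_mono (S.Y_mono hK2))).add' err).congr
      (by abel)).le hC

end ANd.KL0

namespace ANd

theorem pKL0 (h1 : S_KLg) (hU : S_U0) (hA : S_Auer) (hG : S_GR) (hL : S_Lie1) : S_KL0 := by
  intro G _ A _ _ S
  obtain ⟨hV, -, ⟨T, hT⟩, -⟩ := hU G A S
  have hg : ∀ g, Vp S.B0 (S.R.psi g) ≤ S.R.V := fun g =>
    le_trans (le_iSup (fun g : G => Vp S.B0 (S.R.psi g)) g) hV
  rw [hT]
  clear hT
  induction T using Finset.induction_on with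
  | empty => simpa using KL0.kl_bot S
  | insert g T _ ih =>
    rw [Finset.iSup_insert]
    exact KL0.kl_sup hA hG hL S (hg g) (iSup₂_le fun g _ => hg g) (h1 G A S g) ih

end ANd
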