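import Pool.Agent.P.MP_5e7d86_al.BRp

/-! Package KLab. -/

set_option autoImplicit false
open Classical
open scoped commutatorElement

namespace ANd
namespace KLab

section
variable {G : Type} [Group G]

theorem exists_phi (E H : Subgroup G) (hH : H ≤ E) (hc : ⁅E, E⁆ ≤ H) :
    ∃ (Q : Type) (_ : AddCommGroup Q) (φ : G → Q),
      (∀ x ∈ E, ∀ y ∈ E, φ (x * y) = φ x + φ y) ∧ ∀ x ∈ E, (φ x = 0 ↔ x ∈ H) := by
  have hcomm : ∀ {a b : G}, a ∈ E → b ∈ E → ⁅a, b⁆ ∈ H := fun ha hb =>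
    hc (Subgroup.commutator_mem_commutator ha hb)
  have hn : (H.subgroupOf E).Normal := ⟨fun b hb a => by
    rw [Subgroup.mem_subgroupOf] at hb ⊢
    have := H.mul_mem (hcomm a.2 (hH hb)) hb
    simpa [commutatorElement_def] using this⟩
  let _ : CommGroup (E ⧸ H.subgroupOf E) :=
    { (inferInstance : Group (E ⧸ H.subgroupOf E)) with
      mul_comm := fun p q => by
        obtain ⟨a, rfl⟩ := QuotientGroup.mk_surjective p
        obtain ⟨b, rfl⟩ := QuotientGroup.mk_surjective q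
        rw [← QuotientGroup.mk_mul, ← QuotientGroup.mk_mul, QuotientGroup.eq,
          Subgroup.mem_subgroupOf]
        have := hcomm (E.inv_mem b.2) (E.inv_mem a.2)
        simpa [commutatorElement_def, mul_assoc] using this }
  refine ⟨Additive (E ⧸ H.subgroupOf E), inferInstance, fun x =>
    if hx : x ∈ E then Additive.ofMul (QuotientGroup.mk (⟨x, hx⟩ : E)) else 0, ?_, ?_⟩
  · intro x hx y hy
    simp only [dif_pos hx, dif_pos hy, dif_pos (E.mul_mem hx hy)]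
    rfl
  · intro x hx
    simp only [dif_pos hx]
    constructor
    · intro h
      have h2 : (QuotientGroup.mk (⟨x, hx⟩ : E) : E ⧸ H.subgroupOf E) = 1 :=
        Additive.ofMul.injective h
      rw [QuotientGroup.eq_one_iff, Subgroup.mem_subgroupOf] at h2
      exact h2
    · intro h
      have : (QuotientGroup.mk (⟨x, hx⟩ : E) : E ⧸ H.subgroupOf E) = 1 :=
        (QuotientGroup.eq_one_iff _).2 (by rw [Subgroup.mem_subgroupOf]; exact h)
      rw [this]; rfl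

variable {Q : Type} [AddCommGroup Q] {E : Subgroup G} {φ : G → Q}

theorem phi_one (h : ∀ x ∈ E, ∀ y ∈ E, φ (x * y) = φ x + φ y) : φ 1 = 0 := by
  have := h 1 E.one_mem 1 E.one_mem
  simpa using this

theorem phi_inv (h : ∀ x ∈ E, ∀ y ∈ E, φ (x * y) = φ x + φ y) {x : G} (hx : x ∈ E) :
    φ x⁻¹ = -φ x := by
  have := h x hx x⁻¹ (E.inv_mem hx)
  rw [mul_inv_cancel, phi_one h] at this
  exact (neg_eq_of_add_eq_zero_right this.symm).symm

theorem phi_pow (h : ∀ x ∈ E, ∀ y ∈ E, φ (x * y) = φ x + φ y) {x : G} (hx : x ∈ E) :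
    ∀ n : ℕ, φ (x ^ n) = n • φ x
  | 0 => by simpa using phi_one h
  | n + 1 => by rw [pow_succ, h _ (E.pow_mem hx n) _ hx, phi_pow h hx n, succ_nsmul]

theorem phi_zpow (h : ∀ x ∈ E, ∀ y ∈ E, φ (x * y) = φ x + φ y) {x : G} (hx : x ∈ E) (n : ℤ) :
    φ (x ^ n) = n • φ x := by
  obtain ⟨m, rfl | rfl⟩ := n.eq_nat_or_neg
  · simpa using phi_pow h hx m
  · rw [zpow_neg, zpow_natCast, phi_inv h (E.pow_mem hx m), phi_pow h hx m]; simp

theorem phi_prod (h : ∀ x ∈ E, ∀ y ∈ E, φ (x * y) = φ x + φ y) :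
    ∀ L : List G, (∀ x ∈ L, x ∈ E) → φ L.prod = (L.map φ).sum
  | [], _ => by simpa using phi_one h
  | x :: L, hL => by
    have h1 : ∀ y ∈ L, y ∈ E := fun y hy => hL y (by simp [hy])
    rw [List.prod_cons, h _ (hL x (by simp)) _ (E.list_prod_mem h1), phi_prod h L h1]
    simp

theorem sp_mem {d : ℕ} {t : Fin d → G} (ht : ∀ a, t a ∈ E) (q : Fin d → ℤ) : sp t q ∈ E := by
  unfold sp
  refine E.list_prod_mem fun x hx => ?_
  obtain ⟨a, rfl⟩ := (List.mem_ofFn' _ _).1 hx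
  exact E.zpow_mem (ht a) _

theorem phi_sp (h : ∀ x ∈ E, ∀ y ∈ E, φ (x * y) = φ x + φ y) {d : ℕ} {t : Fin d → G}
    (ht : ∀ a, t a ∈ E) (q : Fin d → ℤ) : φ (sp t q) = ∑ a, q a • φ (t a) := by
  unfold sp
  rw [phi_prod h _ (fun x hx => by
    obtain ⟨a, rfl⟩ := (List.mem_ofFn' _ _).1 hx
    exact E.zpow_mem (ht a) _), List.map_ofFn, List.sum_ofFn]
  exact Finset.sum_congr rfl fun a _ => phi_zpow h (ht a) _

theorem conj_sp (u : G) {d : ℕ} (t : Fin d → G) (q : Fin d → ℤ) :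
    u * sp t q * u⁻¹ = sp (fun a => u * t a * u⁻¹) q :=
  map_sp (MulAut.conj u).toMonoidHom t q

theorem tel_mem (g : G) (a : ℤ → G) (K : ℕ)
    (ha : ∀ n ∈ Finset.range (2 * K + 1),
      g ^ ((n : ℤ) - K) * a ((n : ℤ) - K) * (g ^ ((n : ℤ) - K))⁻¹ ∈ E) : tel g a K ∈ E := by
  unfold tel
  refine E.list_prod_mem fun x hx => ?_
  obtain ⟨n, hn, rfl⟩ := List.mem_map.1 hx
  exact ha n (by simpa using hn)

theorem sum_range_list (f : ℕ → Q) : ∀ n : ℕ,
    ((List.range n).map f).sum = ∑ i ∈ Finset.range n, f i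
  | 0 => by simp
  | n + 1 => by rw [List.range_succ, Finset.sum_range_succ, List.map_append, List.sum_append,
      sum_range_list f n]; simp

theorem phi_tel (h : ∀ x ∈ E, ∀ y ∈ E, φ (x * y) = φ x + φ y) (g : G) (a : ℤ → G) (K : ℕ)
    (ha : ∀ n ∈ Finset.range (2 * K + 1),
      g ^ ((n : ℤ) - K) * a ((n : ℤ) - K) * (g ^ ((n : ℤ) - K))⁻¹ ∈ E) :
    φ (tel g a K) = ∑ n ∈ Finset.range (2 * K + 1),
      φ (g ^ ((n : ℤ) - K) * a ((n : ℤ) - K) * (g ^ ((n : ℤ) - K))⁻¹) := by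
  unfold tel
  rw [phi_prod h _ (fun x hx => by
    obtain ⟨n, hn, rfl⟩ := List.mem_map.1 hx
    exact ha n (by simpa using hn)), List.map_map]
  exact sum_range_list _ _

/-- The additive map attached to a symbol function. -/
noncomputable def Phi {ι : Type} (q : (ι → ℤ) → Q) : ZH ι →+ Q :=
  (Finsupp.liftAddHom fun g => zmultiplesHom _ (q g)).comp
    AddMonoidAlgebra.coeffAddEquiv.toAddMonoidHom

theorem Phi_tau {ι : Type} (q : (ι → ℤ) → Q) (g : ι → ℤ) : Phi q (tau g) = q g := by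
  simp [Phi, AddMonoidAlgebra.coeffAddEquiv]

theorem Phi_eq {ι : Type} (q : (ι → ℤ) → Q) (x : ZH ι) :
    Phi q x = ∑ h ∈ x.coeff.support, x.coeff h • q h := by
  conv_lhs => rw [eq_sum_tau x]
  rw [map_sum]
  exact Finset.sum_congr rfl fun h _ => by rw [map_zsmul, Phi_tau]

theorem phi_Rp (h : ∀ x ∈ E, ∀ y ∈ E, φ (x * y) = φ x + φ y) {ι : Type} {B : Subgroup G}
    {c : (ι → ℤ) → G} {W : Set (ι → ℤ)} (hB : ∀ x ∈ B, x ∈ E ∧ φ x = 0) (hc : ∀ u ∈ W, c u ∈ E)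
    {lam : ZH ι} {x : G} (H : Rp B c W lam x) : x ∈ E ∧ φ x = Phi (fun u => φ (c u)) lam := by
  induction H with
  | base x hx => exact ⟨(hB x hx).1, by rw [map_zero, (hB x hx).2]⟩
  | pos u lam x hu _ ih =>
    exact ⟨E.mul_mem ih.1 (hc u hu), by rw [h _ ih.1 _ (hc u hu), map_add, Phi_tau, ih.2]⟩
  | neg u lam x hu _ ih =>
    refine ⟨E.mul_mem ih.1 (E.inv_mem (hc u hu)), ?_⟩
    rw [h _ ih.1 _ (E.inv_mem (hc u hu)), map_sub, Phi_tau, ih.2, phi_inv h (hc u hu),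
      sub_eq_add_neg]

theorem Phi_win (q : (Unit → ℤ) → Q) (x : ZH Unit) (K : ℕ) (hx : Win K x) :
    Phi q x = ∑ n ∈ Finset.range (2 * K + 1),
      x.coeff (fun _ => (n : ℤ) - K) • q (fun _ => (n : ℤ) - K) := by
  rw [Phi_eq, ← Finset.sum_image (s := Finset.range (2 * K + 1))
    (g := fun n : ℕ => (fun _ : Unit => (n : ℤ) - K)) (f := fun h => x.coeff h • q h)]
  · refine Finset.sum_subset (fun h hh => ?_) (fun h _ hh => ?_)
    · have := abs_le.1 (hx h hh ())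
      refine Finset.mem_image.2 ⟨(h () + K).toNat, Finset.mem_range.2 (by omega), ?_⟩
      funext u
      cases u
      show (((h () + K).toNat : ℕ) : ℤ) - K = h ()
      omega
    · rw [Finsupp.notMem_support_iff.1 hh, zero_smul]
  · intro a _ b _ hab
    have := congrFun hab ()
    simp only at this
    omega

/-- Abel summation. -/
theorem abel {rho : ℕ} (M : ℕ) (Bm : Fin rho → Fin rho → ℤ) (K : ℕ) (m : ℕ → Fin rho → ℤ)
    (hm : m (K + 1) = 0) (n : ℕ → Fin rho → Q) (h0 : ∀ s, n 0 s = 0) :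
    ∑ i ∈ Finset.range (K + 1), ∑ s, ((M : ℤ) * m i s - ∑ s', Bm s s' * m (i + 1) s') • n i s =
      ∑ s, ∑ i ∈ Finset.range K,
        m (i + 1) s • (M • n (i + 1) s - ∑ s', Bm s' s • n i s') := by
  simp only [sub_smul, smul_sub, Finset.sum_sub_distrib]
  congr 1
  · rw [Finset.sum_range_succ', Finset.sum_comm]
    simp only [h0, smul_zero, Finset.sum_const_zero, add_zero]
    refine Finset.sum_congr rfl fun s _ => Finset.sum_congr rfl fun i _ => ?_
    rw [mul_comm, mul_smul, natCast_zsmul]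
  · rw [Finset.sum_range_succ, hm, Finset.sum_comm (s := Finset.univ)]
    simp only [Pi.zero_apply, mul_zero, Finset.sum_const_zero, zero_smul, add_zero]
    refine Finset.sum_congr rfl fun i _ => ?_
    simp only [Finset.sum_smul, Finset.smul_sum]
    rw [Finset.sum_comm]
    refine Finset.sum_congr rfl fun s _ => Finset.sum_congr rfl fun s' _ => ?_
    rw [mul_comm, mul_smul]

theorem conj_mem_B (S : Setup G) (g x : G) (hx : x ∈ S.N) (a0 k : ℕ)
    (ha : 2 * S.l g + S.l x ≤ a0) (z : ℤ) (hz : |z| ≤ (k : ℤ)) :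
    g ^ z * x * (g ^ z)⁻¹ ∈ S.B (a0 * (k + 1)) := by
  refine ⟨S.normal.conj_mem _ hx _, ?_⟩
  have h1 := S.len.conj (g ^ z) x
  have h2 := S.len.zpow g z
  have h3 : z.natAbs ≤ k := by
    rw [← Int.natCast_natAbs] at hz; exact_mod_cast hz
  have h4 : z.natAbs * S.l g ≤ k * S.l g := Nat.mul_le_mul_right _ h3
  have h5 : (2 * S.l g + S.l x) * (k + 1) ≤ a0 * (k + 1) := Nat.mul_le_mul_right _ ha
  nlinarith [Nat.zero_le (S.l x * k), Nat.zero_le (S.l g)]

theorem conj_wf (g x : G) :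
    (fun h : Unit → ℤ => g ^ h () * x * (g ^ h ())⁻¹) ∈ WordFun G Unit := by
  have h1 : (fun h : Unit → ℤ => g ^ h ()) ∈ WordFun G Unit :=
    Subgroup.subset_closure (Or.inr ⟨g, (), rfl⟩)
  have h2 : (fun _ : Unit → ℤ => x) ∈ WordFun G Unit :=
    Subgroup.subset_closure (Or.inl ⟨x, rfl⟩)
  exact Subgroup.mul_mem _ (Subgroup.mul_mem _ h1 h2) (Subgroup.inv_mem _ h1)

/-- The elimination step for one conjugacy family. -/
theorem el_one (hEL : S_EL) (S : Setup G) (g x : G) (hx : x ∈ S.N) (a0 : ℕ)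
    (ha : 2 * S.l g + S.l x ≤ a0) : ∃ C : ℕ, ∀ k ≥ 1, ∀ nu : ZH Unit, Win k nu →
      ∃ sg ph, LineT C (C * k) sg ∧ Win C ph ∧
        Rp (S.Γ (a0 * (C * k + 1)) 1) (fun h : Unit → ℤ => g ^ h () * x * (g ^ h ())⁻¹)
          {h | Sm (C * k) h} (nu - sg - ph) 1 := by
  obtain ⟨C, hC⟩ := hEL G S.l S.len S.cc Unit
    (fun h : Unit → ℤ => g ^ h () * x * (g ^ h ())⁻¹) S.N S.N S.r (conj_wf g x) S.filt
    (fun k => S.E (a0 * (k + 1))) (fun k => S.Γ (a0 * (k + 1)) 1)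
    (fun k k' hk => S.Γ_mono (Nat.mul_le_mul_left _ (by omega)) 1)
    (fun k => ⟨S.Γ_le_E _ _, S.Γ_comm _ 0, fun h hh =>
      S.B_sub_E _ (conj_mem_B S g x hx a0 k ha _ (hh ()))⟩)
    [(0, true)] (fun u => by
      simp only [lfv, List.map_cons, List.map_nil, List.prod_cons, List.prod_nil, mul_one,
        if_true]
      exact S.normal.conj_mem _ hx _)
  refine ⟨C, fun k hk nu hnu => ?_⟩
  obtain ⟨sg, ph, h1, h2, h3⟩ := hC k hk nu hnu
  refine ⟨sg, ph, h1, h2, h3.cast ?_ rfl⟩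
  simp [lfc, tau_zero]

end

end KLab

open KLab in
theorem pKLab (hEL : S_EL) : S_KLab := by
  intro G _ S g rho nn M Bm hnn
  set ee : Fin rho → G := fun s => nn s ^ M * g⁻¹ * (sp nn fun s' => Bm s' s)⁻¹ * g with hee
  have heeN : ∀ s, ee s ∈ S.N := fun s => by
    have h1 : g⁻¹ * (sp nn fun s' => Bm s' s)⁻¹ * g⁻¹⁻¹ ∈ S.N :=
      S.normal.conj_mem _ (S.N.inv_mem (sp_mem hnn _)) _
    have := S.N.mul_mem (S.N.pow_mem (hnn s) M) h1
    simpa [hee, mul_assoc] using this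
  set a0 : ℕ := 2 * S.l g + ∑ s, (S.l (nn s) + S.l (ee s)) with ha0
  have hl : ∀ s, S.l (nn s) + S.l (ee s) ≤ ∑ s, (S.l (nn s) + S.l (ee s)) := fun s =>
    Finset.single_le_sum (f := fun s => S.l (nn s) + S.l (ee s)) (fun _ _ => Nat.zero_le _)
      (Finset.mem_univ s)
  have han : ∀ s, 2 * S.l g + S.l (nn s) ≤ a0 := fun s => by have := hl s; omega
  have hae : ∀ s, 2 * S.l g + S.l (ee s) ≤ a0 := fun s => by have := hl s; omega
  choose Cs hCs using fun s => el_one hEL S g (ee s) (heeN s) a0 (hae s)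
  set C0 : ℕ := ∑ s, Cs s + 1 with hC0
  have hC0s : ∀ s, Cs s ≤ C0 := fun s =>
    (Finset.single_le_sum (f := Cs) (fun _ _ => Nat.zero_le _) (Finset.mem_univ s)).trans
      (Nat.le_succ _)
  have hC01 : 1 ≤ C0 := by omega
  refine ⟨a0 * (C0 + 1), (a0 + 1) * (C0 + 1), fun K hK m hm => ?_⟩
  set C : ℕ := (a0 + 1) * (C0 + 1) with hC
  have hCC0 : C0 ≤ C := by rw [hC]; nlinarith [Nat.zero_le a0]
  have hsc : ∀ c, c ≤ C0 → a0 * (c * K + 1) ≤ C * K := fun c hc => by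
    have h1 : c * K + 1 ≤ (C0 + 1) * K := by nlinarith [Nat.mul_le_mul_right K hc]
    calc a0 * (c * K + 1) ≤ (a0 + 1) * ((C0 + 1) * K) := Nat.mul_le_mul (Nat.le_succ _) h1
      _ = C * K := by rw [hC]; ring
  have hcK : a0 * (C0 + 1) ≤ C * K := by
    calc a0 * (C0 + 1) ≤ C := Nat.mul_le_mul_right _ (Nat.le_succ _)
      _ ≤ C * K := Nat.le_mul_of_pos_right _ hK
  set nu : Fin rho → ZH Unit := fun s =>
    ∑ i ∈ Finset.range K, m (i + 1) s • tau (fun _ => ((i + 1 : ℕ) : ℤ)) with hnu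
  have hwin : ∀ s, Win K (nu s) := fun s => Win.sum _ _ fun i hi => by
    refine Win.zsmul (Win.tau fun _ => ?_) _
    have := Finset.mem_range.1 hi
    rw [abs_le]; constructor <;> omega
  choose sg ph h1 h2 h3 using fun s => hCs s K hK (nu s) (hwin s)
  refine ⟨fun s z => (sg s).coeff (fun _ => z), fun s z =>
    ((h1 s).2.2 _).trans (by exact_mod_cast (hC0s s).trans hCC0), ?_⟩
  obtain ⟨Q, _, φ, hφ, hker⟩ := exists_phi (S.E (C * K)) (S.Γ (a0 * (C0 + 1)) 0 ⊔ S.Γ (C * K) 1)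
    (sup_le (S.E_mono hcK) (S.Γ_le_E _ _)) ((S.Γ_comm _ 0).trans le_sup_right)
  -- conjugates of the `nn s`
  have hnE : ∀ (z : ℤ), |z| ≤ (K : ℤ) → ∀ s, g ^ z * nn s * (g ^ z)⁻¹ ∈ S.E (C * K) :=
    fun z hz s => S.E_mono (by simpa using hsc 1 hC01)
      (S.B_sub_E _ (conj_mem_B S g (nn s) (hnn s) a0 K (han s) z hz))
  have hfE : ∀ s (z : ℤ), |z| ≤ ((Cs s * K : ℕ) : ℤ) →
      g ^ z * ee s * (g ^ z)⁻¹ ∈ S.E (C * K) :=
    fun s z hz => S.E_mono (hsc _ (hC0s s))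
      (S.B_sub_E _ (conj_mem_B S g (ee s) (heeN s) a0 _ (hae s) z hz))
  have hsmall : ∀ x ∈ S.N, 2 * S.l g + S.l x ≤ a0 → ∀ z : ℤ, |z| ≤ (C0 : ℤ) →
      φ (g ^ z * x * (g ^ z)⁻¹) = 0 := fun x hx hx' z hz => by
    have := S.B_sub_E _ (conj_mem_B S g x hx a0 _ hx' z hz)
    exact (hker _ (S.E_mono hcK this)).2 (Subgroup.mem_sup_left this)
  set n : ℕ → Fin rho → Q := fun i s => φ (g ^ (i : ℤ) * nn s * (g ^ (i : ℤ))⁻¹) with hn
  -- the first telescope
  have hT1m : ∀ j ∈ Finset.range (2 * K + 1), g ^ ((j : ℤ) - K) *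
      (fun z : ℤ => if 0 ≤ z then
        sp nn (fun s => (M : ℤ) * m z.toNat s - ∑ s', Bm s s' * m (z.toNat + 1) s') else 1)
        ((j : ℤ) - K) * (g ^ ((j : ℤ) - K))⁻¹ ∈ S.E (C * K) := fun j hj => by
    have := Finset.mem_range.1 hj
    dsimp only
    split_ifs
    · rw [conj_sp]
      exact sp_mem (hnE _ (by rw [abs_le]; constructor <;> omega)) _
    · simp
  have hT1 := phi_tel hφ g (fun z : ℤ => if 0 ≤ z then
        sp nn (fun s => (M : ℤ) * m z.toNat s - ∑ s', Bm s s' * m (z.toNat + 1) s') else 1) K hT1m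
  rw [show 2 * K + 1 = K + (K + 1) by ring, Finset.sum_range_add, Finset.sum_eq_zero
    (fun j hj => by
      have := Finset.mem_range.1 hj
      rw [if_neg (by omega)]
      simpa using phi_one hφ), zero_add, Finset.sum_congr rfl (g := fun i =>
        ∑ s, ((M : ℤ) * m i s - ∑ s', Bm s s' * m (i + 1) s') • n i s) (fun i hi => by
      have := Finset.mem_range.1 hi
      have e : ((K + i : ℕ) : ℤ) - K = (i : ℤ) := by push_cast; ring
      rw [e, if_pos (by omega), conj_sp,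
        phi_sp hφ (hnE _ (by rw [abs_le]; constructor <;> omega)), Int.toNat_natCast]),
    abel M Bm K m (hm _ (by omega)) n (fun s => hsmall _ (hnn s) (han s) _ (by simp))] at hT1
  -- the other telescopes
  have hYm : ∀ s, ∀ j ∈ Finset.range (2 * (C * K) + 1), g ^ ((j : ℤ) - (C * K : ℕ)) *
      (fun z : ℤ => ee s ^ (sg s).coeff (fun _ => z)) ((j : ℤ) - (C * K : ℕ)) *
        (g ^ ((j : ℤ) - (C * K : ℕ)))⁻¹ ∈ S.E (C * K) ∧
      φ (g ^ ((j : ℤ) - (C * K : ℕ)) *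
      (fun z : ℤ => ee s ^ (sg s).coeff (fun _ => z)) ((j : ℤ) - (C * K : ℕ)) *
        (g ^ ((j : ℤ) - (C * K : ℕ)))⁻¹) = (sg s).coeff (fun _ => (j : ℤ) - (C * K : ℕ)) •
        φ (g ^ ((j : ℤ) - (C * K : ℕ)) * ee s * (g ^ ((j : ℤ) - (C * K : ℕ)))⁻¹) := by
    intro s j _
    dsimp only
    by_cases h0 : (sg s).coeff (fun _ => (j : ℤ) - (C * K : ℕ)) = 0
    · rw [h0]
      simpa using phi_one hφ
    · have := hfE s _ ((h1 s).win _ (Finsupp.mem_support_iff.2 h0) ())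
      rw [← conj_zpow]
      exact ⟨Subgroup.zpow_mem _ this _, phi_zpow hφ this _⟩
  have hY : ∀ s, φ (tel g (fun z : ℤ => ee s ^ (sg s).coeff (fun _ => z)) (C * K)) =
      ∑ i ∈ Finset.range K, m (i + 1) s • (M • n (i + 1) s - ∑ s', Bm s' s • n i s') := by
    intro s
    rw [phi_tel hφ g (fun z : ℤ => ee s ^ (sg s).coeff (fun _ => z)) _
      (fun j hj => (hYm s j hj).1),
      Finset.sum_congr rfl (fun j hj => (hYm s j hj).2)]
    have k1 := (phi_Rp hφ (fun x hx => by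
      have hx' : x ∈ S.Γ (C * K) 1 := S.Γ_mono (hsc _ (hC0s s)) 1 hx
      exact ⟨S.Γ_le_E _ _ hx', (hker _ (S.Γ_le_E _ _ hx')).2 (Subgroup.mem_sup_right hx')⟩)
      (fun u (hu : u ∈ {h : Unit → ℤ | Sm (Cs s * K) h}) => hfE s _ (hu ())) (h3 s)).2
    rw [phi_one hφ, map_sub, map_sub, Phi_eq _ (ph s), Finset.sum_eq_zero (fun h hh => by
      rw [hsmall _ (heeN s) (hae s) _ ((h2 s h hh ()).trans (by exact_mod_cast hC0s s)),
        smul_zero]), sub_zero, eq_comm, sub_eq_zero,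
      Phi_win _ (sg s) (C * K) ((h1 s).win.mono
        (Nat.mul_le_mul_right _ ((hC0s s).trans hCC0)))] at k1
    rw [← k1, hnu]
    simp only [map_sum, map_zsmul, Phi_tau]
    refine Finset.sum_congr rfl fun i hi => ?_
    have := Finset.mem_range.1 hi
    congr 1
    have e : g ^ ((i + 1 : ℕ) : ℤ) * ee s * (g ^ ((i + 1 : ℕ) : ℤ))⁻¹ =
        (g ^ ((i + 1 : ℕ) : ℤ) * nn s * (g ^ ((i + 1 : ℕ) : ℤ))⁻¹) ^ M *
          (sp (fun s' => g ^ (i : ℤ) * nn s' * (g ^ (i : ℤ))⁻¹) fun s' => Bm s' s)⁻¹ := by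
      rw [← conj_sp, conj_pow, hee]
      push_cast
      group
    have m1 := hnE ((i + 1 : ℕ) : ℤ) (by rw [abs_le]; constructor <;> omega) s
    have m2 := hnE (i : ℤ) (by rw [abs_le]; constructor <;> omega)
    rw [e, hφ _ (Subgroup.pow_mem _ m1 _) _ (Subgroup.inv_mem _ (sp_mem m2 _)),
      phi_inv hφ (sp_mem m2 _), phi_sp hφ m2, phi_pow hφ m1, sub_eq_add_neg]
  have hP : ∀ x ∈ (List.ofFn fun s =>
      tel g (fun z : ℤ => ee s ^ (sg s).coeff (fun _ => z)) (C * K)), x ∈ S.E (C * K) := by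
    intro x hx
    obtain ⟨s, rfl⟩ := (List.mem_ofFn' _ _).1 hx
    exact tel_mem g (fun z : ℤ => ee s ^ (sg s).coeff (fun _ => z)) _
      fun j hj => (hYm s j hj).1
  have hPm := (S.E (C * K)).list_prod_mem hP
  have hTm := tel_mem g (fun z : ℤ => if 0 ≤ z then
        sp nn (fun s => (M : ℤ) * m z.toNat s - ∑ s', Bm s s' * m (z.toNat + 1) s') else 1) K hT1m
  refine (hker _ (Subgroup.mul_mem _ hTm (Subgroup.inv_mem _ hPm))).1 ?_
  rw [hφ _ hTm _ (Subgroup.inv_mem _ hPm), phi_inv hφ hPm, phi_prod hφ _ hP, hT1, List.map_ofFn,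
    List.sum_ofFn]
  simp only [Function.comp, hY, add_neg_cancel]

end ANd
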