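import Pool.Agent.P.MP_5e7d86_al.BRp

/-! Short elements with prescribed logarithm in one expanding subspace. -/

set_option autoImplicit false
open Classical
open scoped commutatorElement

namespace ANd
namespace KLg

section Alg
variable {A : Type} [Ring A] [Algebra ℝ A]

theorem sum_Icc (f : ℤ → A) (hf : ∀ z < 0, f z = 0) (K : ℕ) :
    ∑ z ∈ Finset.Icc (-(K : ℤ)) K, f z = ∑ i ∈ Finset.range (K + 1), f i := by
  have h1 : ∑ i ∈ Finset.range (K + 1), f i =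
      ∑ z ∈ (Finset.range (K + 1)).image (fun i : ℕ => (i : ℤ)), f z :=
    (Finset.sum_image (fun a _ b _ h => by exact_mod_cast h)).symm
  rw [h1]
  symm
  refine Finset.sum_subset ?_ ?_
  · intro z hz
    obtain ⟨i, hi, rfl⟩ := Finset.mem_image.1 hz
    rw [Finset.mem_range] at hi
    rw [Finset.mem_Icc]
    omega
  · intro z hz hz'
    refine hf z ?_
    by_contra h
    rw [Finset.mem_Icc] at hz
    exact hz' (Finset.mem_image.2 ⟨z.toNat, Finset.mem_range.2 (by omega), by omega⟩)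

theorem step {rho : ℕ} (u : Aˣ) (w : Fin rho → A) (M : ℕ) (Bm : Fin rho → Fin rho → ℤ)
    (h : ∀ s, Ad u ((M : ℝ) • w s) = ∑ s', (Bm s' s : ℝ) • w s') (p q : Fin rho → ℤ) :
    ∑ s, (((M : ℤ) * p s - ∑ s', Bm s s' * q s' : ℤ) : ℝ) • w s =
      ∑ s, (((M : ℤ) * p s : ℤ) : ℝ) • w s - Ad u (∑ s, (((M : ℤ) * q s : ℤ) : ℝ) • w s) := by
  have h1 : Ad u (∑ s, (((M : ℤ) * q s : ℤ) : ℝ) • w s) =
      ∑ s, (q s : ℝ) • ∑ s', (Bm s' s : ℝ) • w s' := by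
    rw [← AdH_apply, map_sum]
    refine Finset.sum_congr rfl fun s _ => ?_
    rw [← h s, AdH_apply, ← Ad_smul, smul_smul]
    congr 2
    push_cast
    ring
  rw [h1]
  simp only [Finset.smul_sum, smul_smul]
  rw [Finset.sum_comm (s := Finset.univ) (t := Finset.univ)
    (f := fun s s' => ((q s : ℝ) * (Bm s' s : ℝ)) • w s'), ← Finset.sum_sub_distrib]
  refine Finset.sum_congr rfl fun s _ => ?_
  rw [← Finset.sum_smul, ← sub_smul]
  congr 1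
  push_cast
  congr 1
  exact Finset.sum_congr rfl fun s' _ => mul_comm _ _

theorem telesc (u : Aˣ) (be : ℕ → A) (K : ℕ) :
    ∑ i ∈ Finset.range K, Ad (u ^ (i : ℤ)) (be i - Ad u (be (i + 1))) =
      be 0 - Ad (u ^ (K : ℤ)) (be K) := by
  induction K with
  | zero => simp [Ad_one]
  | succ K ih =>
    rw [Finset.sum_range_succ, ih, Ad_sub, ← Ad_mul, Nat.cast_succ, zpow_add_one]
    abel

end Alg

variable {G : Type} [Group G] {A : Type} [Ring A] [Algebra ℝ A]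

theorem sp_mem (N : Subgroup G) {rho : ℕ} (nn : Fin rho → G) (h : ∀ s, nn s ∈ N)
    (q : Fin rho → ℤ) : sp nn q ∈ N := by
  unfold sp
  refine N.list_prod_mem fun x hx => ?_
  obtain ⟨a, rfl⟩ := (List.mem_ofFn' _ _).1 hx
  exact N.zpow_mem (h a) _

theorem V_le_VG (S : LSetup G A) : S.R.V ≤ S.R.VG 0 := fun _ hv =>
  Submodule.subset_span (sub_TG _ hv)

theorem up (S : LSetup G A) {i k k' : ℕ} {a b : ℝ} {v : A} (h : In (TG (S.Y k) i) a v)
    (hk : k ≤ k') (hab : a ≤ b) : In (TG (S.Y k') i) b v := (h.TG_mono (S.Y_mono hk)).le hab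

/-- The main telescoping product. -/
theorem first (hT : S_Tel) (hA : S_AdB) (S : LSetup G A) (g : G) {rho : ℕ} (nn : Fin rho → G)
    (hn : ∀ s, nn s ∈ S.N)
    (hq : ∀ q : Fin rho → ℤ, S.R.L (sp nn q) - ∑ s, (q s : ℝ) • S.R.L (nn s) ∈ S.R.VG 1)
    (Cd : ℕ) : ∃ C : ℕ, ∀ K ≥ 1, ∀ e : ℤ → Fin rho → ℤ, (∀ z, Sm Cd (e z)) →
      tel g (fun z => sp nn (e z)) K ∈ S.toSetup.B (C * K) ∧
      In (TG (S.Y (C * K)) 0) C (S.R.L (tel g (fun z => sp nn (e z)) K)) ∧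
      In (TG (S.Y (C * K)) 1) C (S.R.L (tel g (fun z => sp nn (e z)) K) -
        ∑ z ∈ Finset.Icc (-(K : ℤ)) K,
          Ad (S.R.psi (g ^ z)) (∑ s, (e z s : ℝ) • S.R.L (nn s))) := by
  obtain ⟨C1, H1⟩ := hT G A S g (sp nn '' {q | Sm Cd q}) 0 ((Sm_finite Cd).image _)
    (by rintro _ ⟨q, -, rfl⟩; exact sp_mem _ nn hn q)
    (by rintro _ ⟨q, -, rfl⟩; exact V_le_VG S (S.R.L_mem_V (sp_mem _ nn hn q)))
  obtain ⟨C2, H2⟩ := hA G A S 1
    ((fun q : Fin rho → ℤ => S.R.L (sp nn q) - ∑ s, (q s : ℝ) • S.R.L (nn s)) '' {q | Sm Cd q})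
    ((Sm_finite Cd).image _) (by rintro _ ⟨q, -, rfl⟩; exact hq q)
  refine ⟨C1 + C2 * (S.l g + 3), fun K hK e he => ?_⟩
  obtain ⟨h1, h2, h3⟩ := H1 K hK (fun z => sp nn (e z)) fun z => ⟨e z, he z, rfl⟩
  have k1 : C1 * K ≤ (C1 + C2 * (S.l g + 3)) * K := Nat.mul_le_mul_right _ (Nat.le_add_right _ _)
  have k2 : C2 * ((S.l g + 1) * K) ≤ (C1 + C2 * (S.l g + 3)) * K := by
    rw [← mul_assoc]
    exact Nat.mul_le_mul_right _ ((Nat.mul_le_mul_left _ (by omega)).trans (Nat.le_add_left _ _))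
  have hl : (0 : ℝ) ≤ S.l g := Nat.cast_nonneg _
  have hC2 : (0 : ℝ) ≤ C2 := Nat.cast_nonneg _
  refine ⟨S.toSetup.B_mono k1 h1, up S h2 k1 (by exact_mod_cast Nat.le_add_right _ _), ?_⟩
  have h4 : In (TG (S.Y (C2 * ((S.l g + 1) * K))) 1)
      ((Finset.Icc (-(K : ℤ)) K).card * ((C2 : ℝ) / (((S.l g + 1) * K : ℕ) : ℝ)))
      (∑ z ∈ Finset.Icc (-(K : ℤ)) K, Ad (S.R.psi (g ^ z))
        (S.R.L (sp nn (e z)) - ∑ s, (e z s : ℝ) • S.R.L (nn s))) := by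
    refine In.sum_le _ _ fun z hz => H2 _ (Nat.mul_pos (by omega) hK) _ ?_ _ ⟨e z, he z, rfl⟩
    rw [Finset.mem_Icc] at hz
    refine (S.len.zpow g z).trans ?_
    rw [mul_comm]
    exact Nat.mul_le_mul (by omega) (by omega)
  have h5 : ((Finset.Icc (-(K : ℤ)) K).card : ℝ) * ((C2 : ℝ) / (((S.l g + 1) * K : ℕ) : ℝ)) ≤
      3 * C2 := by
    have e1 : (Finset.Icc (-(K : ℤ)) K).card = 2 * K + 1 := by rw [Int.card_Icc]; omega
    have hK' : (1 : ℝ) ≤ K := by exact_mod_cast hK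
    rw [e1, ← mul_div_assoc, div_le_iff₀ (by push_cast; positivity)]
    push_cast
    have : (2 * (K : ℝ) + 1) ≤ 3 * ((S.l g + 1) * K) := by nlinarith
    nlinarith
  refine (((up S h3 k1 le_rfl).add' (up S h4 k2 h5)).le ?_).congr ?_
  · push_cast
    nlinarith
  · simp only [Ad_sub, Finset.sum_sub_distrib]
    abel

theorem Y_sub_U (hL : S_Lie1) (S : LSetup G A) (k : ℕ) : S.Y k ⊆ S.R.D.U :=
  (S.Y_sub k).trans (hL G A S.N S.R S.toSetup.normal).1.le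

theorem L_zpow (hE : S_ExpLog) (S : LSetup G A) {x : G} (hx : x ∈ S.N) (z : ℤ) :
    S.R.L (x ^ z) = (z : ℝ) • S.R.L x := by
  unfold LData.L
  rw [map_zpow]
  exact (hE A S.R.D).2.2.2.2.1 _ (S.R.uni x hx) z

theorem L_inv (hE : S_ExpLog) (S : LSetup G A) {x : G} (hx : x ∈ S.N) :
    S.R.L x⁻¹ = -S.R.L x := by
  rw [← zpow_neg_one, L_zpow hE S hx]
  simp

/-- One correcting factor. -/
theorem factor (hT : S_Tel) (hE : S_ExpLog) (S : LSetup G A) (g : G)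
    {rho : ℕ} (ee : Fin rho → G) (hn : ∀ s, ee s ∈ S.N) (hv : ∀ s, S.R.L (ee s) ∈ S.R.VG 1)
    (Ck : ℕ) : ∃ C : ℕ, ∀ K ≥ 1, ∀ (s : Fin rho) (sg : ℤ → ℤ), (∀ z, |sg z| ≤ (Ck : ℤ)) →
      tel g (fun z => ee s ^ sg z) (Ck * K) ∈ S.toSetup.B (C * (Ck * K)) ∧
      In (TG (S.Y (C * (Ck * K))) 1) C (S.R.L (tel g (fun z => ee s ^ sg z) (Ck * K))) := by
  obtain ⟨C, H⟩ := hT G A S g
    ((fun p : Fin rho × ℤ => ee p.1 ^ p.2) '' (Set.univ ×ˢ Set.Icc (-(Ck : ℤ)) Ck)) 1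
    ((Set.finite_univ.prod (Set.finite_Icc _ _)).image _)
    (by rintro _ ⟨p, -, rfl⟩; exact S.N.zpow_mem (hn _) _)
    (by rintro _ ⟨p, -, rfl⟩
        rw [L_zpow hE S (hn _)]
        exact Submodule.smul_mem _ _ (hv _))
  refine ⟨C, fun K hK s sg hs => ?_⟩
  rcases Nat.eq_zero_or_pos Ck with rfl | hC
  · have h0 : sg 0 = 0 := by simpa using hs 0
    have e : tel g (fun z => ee s ^ sg z) (0 * K) = 1 := by simp [tel, h0]
    rw [e, S.R.L_one]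
    exact ⟨⟨S.N.one_mem, by rw [S.len.one]; exact Nat.zero_le _⟩, In.zero' (Nat.cast_nonneg _)⟩
  · obtain ⟨h1, h2, -⟩ := H (Ck * K) (Nat.mul_pos hC hK) (fun z => ee s ^ sg z)
      fun z => ⟨(s, sg z), ⟨trivial, abs_le.1 (hs z)⟩, rfl⟩
    exact ⟨h1, h2⟩

/-- A product of a bounded number of elements with logarithm in the commutator part. -/
theorem prod1 (hG : S_GR) (hL : S_Lie1) (S : LSetup G A) (rho C : ℕ) :
    ∃ C' : ℝ, 0 ≤ C' ∧ ∀ (k : ℕ) (t : Fin rho → G), (∀ s, t s ∈ S.toSetup.B k) →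
      (∀ s, In (TG (S.Y k) 1) C (S.R.L (t s))) →
      (List.ofFn t).prod ∈ S.toSetup.B (rho * k) ∧
        In (TG (S.Y k) 1) C' (S.R.L (List.ofFn t).prod) := by
  obtain ⟨Cg, hg, H⟩ := hG A S.R.D (rho * C)
  refine ⟨Cg + rho * C, by positivity, fun k t h1 h2 => ⟨⟨?_, ?_⟩, ?_⟩⟩
  · refine S.N.list_prod_mem fun x hx => ?_
    obtain ⟨a, rfl⟩ := (List.mem_ofFn' _ _).1 hx
    exact (h1 a).1
  · have := S.len.prod_le (List.ofFn t) k fun x hx => by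
      obtain ⟨a, rfl⟩ := (List.mem_ofFn' _ _).1 hx
      exact (h1 a).2
    simpa using this
  · have h3 := H (S.Y k) (Y_sub_U hL S k) 1 (List.ofFn fun s => ((C : ℝ), S.R.psi (t s)))
      (fun p hp => by
        obtain ⟨a, rfl⟩ := (List.mem_ofFn' _ _).1 hp
        exact ⟨S.R.uni _ (h1 a).1, h2 a⟩)
      (by rw [List.map_ofFn, List.sum_ofFn]; simp)
    have e1 : ((List.ofFn fun s => ((C : ℝ), S.R.psi (t s))).map Prod.snd).prod =
        S.R.psi (List.ofFn t).prod := by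
      rw [map_list_prod, List.map_ofFn, List.map_ofFn]; rfl
    have e2 : ((List.ofFn fun s => ((C : ℝ), S.R.psi (t s))).map
        fun p => S.R.D.LL p.2).sum = ∑ s, S.R.L (t s) := by
      rw [List.map_ofFn, List.sum_ofFn]; rfl
    rw [e1, e2] at h3
    have h4 := In.sum_le Finset.univ (fun s => S.R.L (t s)) fun s _ => h2 s
    rw [Finset.card_univ, Fintype.card_fin] at h4
    exact ((h3.TG_anti (by omega)).add' h4).congr (sub_add_cancel _ _)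

/-- The quotient of two elements. -/
theorem quot (hG : S_GR) (hE : S_ExpLog) (hL : S_Lie1) (S : LSetup G A) (a b : ℝ) :
    ∃ C' : ℝ, 0 ≤ C' ∧ ∀ (k : ℕ) (x p : G), x ∈ S.N → p ∈ S.N → In (TG (S.Y k) 0) a (S.R.L x) →
      In (TG (S.Y k) 1) b (S.R.L p) → In (TG (S.Y k) 1) C' (S.R.L (x * p⁻¹) - S.R.L x) := by
  obtain ⟨Cg, hg, H⟩ := hG A S.R.D (a + b)
  refine ⟨Cg + |b|, by positivity, fun k x p hx hp h1 h2 => ?_⟩
  have h3 : In (TG (S.Y k) 1) b (S.R.L p⁻¹) := by rw [L_inv hE S hp]; exact h2.neg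
  have h4 := H (S.Y k) (Y_sub_U hL S k) 0 [(a, S.R.psi x), (b, S.R.psi p⁻¹)]
    (fun q hq => by
      simp only [List.mem_cons, List.not_mem_nil, or_false] at hq
      rcases hq with rfl | rfl
      · exact ⟨S.R.uni _ hx, h1⟩
      · exact ⟨S.R.uni _ (S.N.inv_mem hp), h3.TG_anti (by omega)⟩)
    (by simp)
  have e1 : (([(a, S.R.psi x), (b, S.R.psi p⁻¹)] : List (ℝ × Aˣ)).map Prod.snd).prod =
      S.R.psi (x * p⁻¹) := by simp
  have e2 : (([(a, S.R.psi x), (b, S.R.psi p⁻¹)] : List (ℝ × Aˣ)).map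
      fun q => S.R.D.LL q.2).sum = S.R.L x + S.R.L p⁻¹ := by
    simp only [List.map_cons, List.map_nil, List.sum_cons, List.sum_nil, add_zero]; rfl
  rw [e1, e2] at h4
  refine (h4.add' (h3.le (le_abs_self b))).congr ?_
  change S.R.L (x * p⁻¹) - _ + _ = _
  abel

end KLg

open KLg in
theorem pKLg (hU : S_U0) (hR : S_Rat) (hD : S_Dig) (hK : S_KLab) (hT : S_Tel) (hA : S_AdB)
    (hG : S_GR) (hE : S_ExpLog) (hL : S_Lie1) : S_KLg := by
  intro G _ A _ _ S g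
  obtain ⟨j0, -, hj⟩ := (hU G A S).2.2.2 g
  obtain ⟨rho, nn, M, Bm, hM, hn, hli, hsp, hAd, hq, hee⟩ := hR G A S (g ^ j0)
  have hP : Vp S.B0 (S.R.psi g) ≤ Submodule.span ℝ S.B0 :=
    Vp_le (by rw [S.B0_span]; exact (hL G A S.N S.R S.toSetup.normal).2.1 g)
  obtain ⟨Cd, Hd⟩ := hD A S.B0 rho (fun s => S.R.L (nn s)) (S.R.psi (g ^ j0)) M Bm
    (Vp S.B0 (S.R.psi g)) S.B0_finite hli (by rw [hsp, S.B0_span]) hM hAd hP
    (fun v hv => by
      have := Vp_Ad_zpow hv (-(j0 : ℤ))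
      rwa [zpow_neg, zpow_natCast, ← map_pow] at this) hj
  obtain ⟨c, Ck, Hk⟩ := hK G S.toSetup (g ^ j0) rho nn M Bm hn
  obtain ⟨C1, H1⟩ := first hT hA S (g ^ j0) nn hn hq Cd
  obtain ⟨C2, H2⟩ := factor hT hE S (g ^ j0)
    (fun s => nn s ^ M * (g ^ j0)⁻¹ * (sp nn fun s' => Bm s' s)⁻¹ * g ^ j0)
    (fun s => by
      have h1 := S.toSetup.normal.conj_mem _
        (S.N.inv_mem (sp_mem S.N nn hn fun s' => Bm s' s)) (g ^ j0)⁻¹
      rw [inv_inv] at h1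
      have := S.N.mul_mem (S.N.pow_mem (hn s) M) h1
      simpa only [mul_assoc] using this) hee Ck
  obtain ⟨C3, h3, H3⟩ := prod1 hG hL S rho C2
  obtain ⟨C4, h4, H4⟩ := quot hG hE hL S C1 C3
  obtain ⟨C5, h5⟩ := exists_nat_ge C4
  refine ⟨c, C1 + (rho + 1) * (C2 * Ck) + Ck + C5 + Cd, fun k hk u hu hin => ?_⟩
  generalize hC : C1 + (rho + 1) * (C2 * Ck) + Ck + C5 + Cd = C
  rw [S.UI_zero (hP.trans S.B0_span.le)] at hu
  obtain ⟨m, hm0, hm1, hm2⟩ := Hd k u hu hin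
  obtain ⟨sg, hs1, hs2⟩ := Hk k hk m hm0
  let e : ℤ → Fin rho → ℤ := fun z =>
    if 0 ≤ z then fun s => (M : ℤ) * m z.toNat s - ∑ s', Bm s s' * m (z.toNat + 1) s' else 0
  have he : ∀ z, Sm Cd (e z) := fun z => by
    by_cases h : 0 ≤ z
    · simp only [e, if_pos h]; exact fun s => hm1 _ s
    · simp only [e, if_neg h]; exact Sm.zero _
  have ea : (fun z : ℤ => if 0 ≤ z then
      sp nn (fun s => (M : ℤ) * m z.toNat s - ∑ s', Bm s s' * m (z.toNat + 1) s') else 1) =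
      fun z => sp nn (e z) := by
    funext z
    by_cases h : 0 ≤ z
    · simp only [e, if_pos h]
    · simp only [e, if_neg h, sp_zero]
  rw [ea] at hs2
  obtain ⟨a1, a2, a3⟩ := H1 k hk e he
  have esum : ∑ z ∈ Finset.Icc (-(k : ℤ)) k, Ad (S.R.psi ((g ^ j0) ^ z))
      (∑ s, (e z s : ℝ) • S.R.L (nn s)) = ∑ s, (((M : ℤ) * m 0 s : ℤ) : ℝ) • S.R.L (nn s) := by
    rw [sum_Icc _ (fun z hz => by simp [e, not_le.2 hz, Ad_zero])]
    have := telesc (S.R.psi (g ^ j0))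
      (fun i => ∑ s, (((M : ℤ) * m i s : ℤ) : ℝ) • S.R.L (nn s)) (k + 1)
    rw [hm0 (k + 1) (by omega)] at this
    simp only [Pi.zero_apply, mul_zero, Int.cast_zero, zero_smul, Finset.sum_const_zero, Ad_zero,
      sub_zero] at this
    rw [← this]
    refine Finset.sum_congr rfl fun i _ => ?_
    rw [map_zpow, ← step _ _ M Bm hAd]
    simp only [e, if_pos (Int.natCast_nonneg i), Int.toNat_natCast]
  rw [esum] at a3
  obtain ⟨b1, b2⟩ := H3 (C2 * (Ck * k)) _ (fun s => (H2 k hk s (sg s) (hs1 s)).1)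
    fun s => (H2 k hk s (sg s) (hs1 s)).2
  have k1 : C1 * k ≤ C * k := Nat.mul_le_mul_right _ (by omega)
  have k0 : (C1 + (rho + 1) * (C2 * Ck)) * k ≤ C * k := Nat.mul_le_mul_right _ (by omega)
  have k2 : C2 * (Ck * k) ≤ C * k := by nlinarith [Nat.zero_le (C1 * k), Nat.zero_le (rho * (C2 * Ck) * k)]
  have k3 : C1 * k + rho * (C2 * (Ck * k)) ≤ C * k := by nlinarith [Nat.zero_le (C2 * Ck * k)]
  have k4 : Ck * k ≤ C * k := Nat.mul_le_mul_right _ (by omega)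
  have r1 : C4 + C1 ≤ (C : ℝ) := by
    have : ((C5 + C1 : ℕ) : ℝ) ≤ C := by exact_mod_cast (by omega : C5 + C1 ≤ C)
    push_cast at this
    linarith
  have c1 := H4 (C * k) _ _ a1.1 b1.1 (up S a2 k1 le_rfl) (up S b2 k2 le_rfl)
  refine ⟨_, (S.toSetup.B_mul a1 (S.toSetup.B_inv b1)).2.trans k3,
    sup_le_sup_left (S.toSetup.Γ_mono k4 1) _ hs2, ?_, _, hm2.le (by exact_mod_cast (by omega : Cd ≤ C)), ?_⟩
  · exact (((c1.TG_anti (by omega)).add' (up S a2 k1 le_rfl)).le r1).congr (sub_add_cancel _ _)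
  · refine ((c1.add' (up S a3 k1 le_rfl)).le r1).congr ?_
    abel

end ANd
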