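import Pool.Agent.P.MP_5e7d86_al.BRp

/-! A theorem of Kolchin type: a group acting with a single eigenvalue per element, taken in a
torsion free group of units, leaves a proper subspace invariant. -/

set_option autoImplicit false
open Classical
open scoped commutatorElement

namespace ANd

namespace Kolch

/-- Burnside: an irreducible subalgebra of the endomorphism algebra is everything -/
theorem eq_top {K V : Type} [Field K] [IsAlgClosed K] [AddCommGroup V] [Module K V]
    [FiniteDimensional K V] [Nontrivial V] (R : Subalgebra K (Module.End K V))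
    (h : ∀ W : Submodule K V, (∀ r ∈ R, ∀ v ∈ W, r v ∈ W) → W = ⊥ ∨ W = ⊤) (f : Module.End K V) :
    f ∈ R := by
  have hs : IsSimpleModule R V := by
    rw [isSimpleModule_iff]
    refine ⟨fun W => ?_⟩
    rcases h (W.restrictScalars K) (fun r hr v hv => W.smul_mem (⟨r, hr⟩ : R) hv) with h1 | h1
    · exact Or.inl (Submodule.restrictScalars_injective K R V (by simpa using h1))
    · exact Or.inr (Submodule.restrictScalars_injective K R V (by simpa using h1))
  let f' : Module.End (Module.End R V) V :=
    { toFun := f
      map_add' := f.map_add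
      map_smul' := fun g v => by
        obtain ⟨c, rfl⟩ := (IsSimpleModule.algebraMap_end_bijective_of_isAlgClosed K).2 g
        simp }
  obtain ⟨s, hs'⟩ := Module.Finite.fg_top (R := K) (M := V)
  obtain ⟨r, hr⟩ := jacobson_density f' s
  have : f = r.1 := LinearMap.ext_on hs' fun m hm => hr m hm
  rw [this]
  exact r.2

/-- determinant and trace of an endomorphism with a single eigenvalue -/
theorem det_trace {K V : Type} [Field K] [IsAlgClosed K] [AddCommGroup V] [Module K V]
    [FiniteDimensional K V] (f : Module.End K V) (a : K)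
    (h : ∀ b : K, f.HasEigenvalue b → b = a) :
    LinearMap.det f = a ^ Module.finrank K V ∧
      LinearMap.trace K V f = (Module.finrank K V : K) * a := by
  have hs : f.charpoly.Splits := IsAlgClosed.splits _
  have hr : f.charpoly.roots = Multiset.replicate (Module.finrank K V) a := by
    rw [Multiset.eq_replicate]
    refine ⟨?_, fun b hb => h b ?_⟩
    · rw [← hs.natDegree_eq_card_roots, LinearMap.charpoly_natDegree]
    · rw [Module.End.hasEigenvalue_iff_isRoot_charpoly]
      exact (Polynomial.mem_roots (LinearMap.charpoly_monic f).ne_zero).1 hb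
  refine ⟨?_, ?_⟩
  · rw [Module.End.det_eq_prod_roots_charpoly_of_splits hs, hr, Multiset.prod_replicate]
  · rw [Module.End.trace_eq_sum_roots_charpoly_of_splits hs, hr, Multiset.sum_replicate,
      nsmul_eq_mul]

/-- the trace form is nondegenerate -/
theorem eq_zero_of_trace {K V : Type} [Field K] [AddCommGroup V] [Module K V]
    [FiniteDimensional K V] (g : Module.End K V)
    (h : ∀ f : Module.End K V, LinearMap.trace K V (g * f) = 0) : g = 0 := by
  ext v
  refine (Module.forall_dual_apply_eq_zero_iff K _).1 fun φ => ?_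
  have h1 := h (φ.smulRight v)
  have h2 : g * φ.smulRight v = φ.smulRight (g v) := by
    ext w
    simp
  rw [h2, LinearMap.trace_smulRight] at h1
  exact h1

end Kolch

theorem pKolch : S_Kolch := by
  intro K Γ W _ _ _ _ _ _ rho H La hn hH hLa hmem huniq
  by_contra hcon
  have : Nontrivial W := Module.nontrivial_of_finrank_pos (R := K) (by omega)
  have hirr : ∀ W' : Submodule K W, (∀ h ∈ H, ∀ w ∈ W', rho h w ∈ W') → W' = ⊥ ∨ W' = ⊤ := by
    intro W' hW'
    by_contra hne
    push Not at hne
    exact hcon ⟨H, hH, W', hne.1, hne.2, hW'⟩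
  -- eigenvalues are nonzero
  have hnz : ∀ (h : Γ) (b : K), Module.End.HasEigenvalue (rho h) b → b ≠ 0 := by
    intro h b hb hb0
    obtain ⟨v, hv⟩ := hb.exists_hasEigenvector
    have h1 : rho h v = 0 := by rw [hv.apply_eq_smul, hb0, zero_smul]
    have h2 : rho h⁻¹ (rho h v) = v := by
      rw [← Module.End.mul_apply, ← map_mul, inv_mul_cancel, map_one, Module.End.one_apply]
    rw [h1, map_zero] at h2
    exact hv.2 h2.symm
  have hex : ∀ h ∈ H, ∃ a : Kˣ, a ∈ La ∧
      LinearMap.det (rho h) = (a : K) ^ Module.finrank K W ∧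
      LinearMap.trace K W (rho h) = (Module.finrank K W : K) * (a : K) := by
    intro h hh
    obtain ⟨c, hc⟩ := Module.End.exists_eigenvalue (rho h)
    have hc0 := hnz h c hc
    refine ⟨Units.mk0 c hc0, hmem h hh _ hc, Kolch.det_trace _ _ fun b hb => ?_⟩
    have := huniq h hh (Units.mk0 b (hnz h b hb)) (Units.mk0 c hc0) hb hc
    simpa using congrArg Units.val this
  choose! lam hlamLa hdet htr using hex
  have hmul : ∀ g ∈ H, ∀ h ∈ H, lam (g * h) = lam g * lam h := by
    intro g hg h hh
    have hgh := H.mul_mem hg hh
    have h1 : lam (g * h) * (lam g * lam h)⁻¹ = 1 := by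
      refine hLa _ (La.mul_mem (hlamLa _ hgh) (La.inv_mem (La.mul_mem (hlamLa _ hg)
        (hlamLa _ hh)))) (Module.finrank K W) (by omega) ?_
      rw [mul_pow, inv_pow, mul_inv_eq_one]
      ext
      rw [Units.val_pow_eq_pow_val, Units.val_pow_eq_pow_val, Units.val_mul, mul_pow,
        ← hdet _ hgh, ← hdet _ hg, ← hdet _ hh, map_mul, map_mul]
    exact mul_inv_eq_one.1 h1
  let S : Submonoid (Module.End K W) := H.toSubmonoid.map rho
  have hall : ∀ f : Module.End K W, f ∈ Submodule.span K (S : Set (Module.End K W)) := by
    intro f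
    have h1 : f ∈ Algebra.adjoin K (S : Set (Module.End K W)) := by
      refine Kolch.eq_top _ (fun W' hW' => hirr W' fun h hh w hw => ?_) f
      exact hW' _ (Algebra.subset_adjoin ⟨h, hh, rfl⟩) w hw
    have h2 := Algebra.adjoin_eq_span K (S : Set (Module.End K W))
    rw [Submonoid.closure_eq] at h2
    rw [← h2]
    exact h1
  have hsc : ∀ g ∈ H, rho g = algebraMap K (Module.End K W) (lam g : K) := by
    intro g hg
    rw [← sub_eq_zero]
    refine Kolch.eq_zero_of_trace _ fun f => ?_
    induction hall f using Submodule.span_induction with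
    | mem x hx =>
      obtain ⟨h, hh, rfl⟩ := hx
      have hh' : h ∈ H := hh
      rw [sub_mul, map_sub, ← map_mul, htr _ (H.mul_mem hg hh'), hmul g hg h hh',
        ← Algebra.smul_def, map_smul, htr _ hh', Units.val_mul, smul_eq_mul]
      ring
    | zero => simp
    | add x y _ _ hx hy => rw [mul_add, map_add, hx, hy, add_zero]
    | smul c x _ hx => rw [mul_smul_comm, map_smul, hx, smul_zero]
  obtain ⟨v, hv⟩ := exists_ne (0 : W)
  rcases hirr (Submodule.span K {v}) (fun h hh w hw => by
    rw [hsc h hh, Module.algebraMap_end_apply]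
    exact Submodule.smul_mem _ _ hw) with h1 | h1
  · exact hv (Submodule.span_singleton_eq_bot.1 h1)
  · have h2 := finrank_span_singleton (K := K) hv
    rw [h1, finrank_top] at h2
    omega

end ANd
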