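import Pool.Agent.P.MP_5e7d86_al.BRp

/-! Package LB: the lower bound along two towers. -/

set_option autoImplicit false
open Classical
open scoped commutatorElement

namespace ANd

namespace LB

theorem up (hz : S_LBz) (ht : S_LBt) {P : Type} [Group P] (chi : P →* ℚˣ) {A Γ0 Γ : Subgroup P}
    {j0 j : ℕ} (h : Tower A Γ0 Γ j) (h0 : Van Γ0 j0 ∧ ∃ z, Top chi A Γ0 j0 z) :
    Van Γ (j0 + j) ∧ ∃ z, Top chi A Γ (j0 + j) z := by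
  induction h with
  | base => exact h0
  | zs Γ Γ' j t _ h1 h2 h3 h4 h5 h6 ih => exact hz P chi A Γ Γ' (j0 + j) t h1 h2 h3 h4 h5 h6 ih.1 ih.2
  | ts Γ Γ' j _ h1 h2 h3 h4 ih => exact ht P chi A Γ Γ' (j0 + j) h1 h2 h3 h4 ih.1 ih.2

end LB

theorem pLB (hb : S_LBbase) (hz : S_LBz) (ht : S_LBt) (hf : S_LBfin) : S_LB := by
  intro P _ l hl hp N j j' d hN t1 t2 hd
  obtain ⟨⟨v0, z0, k0⟩, tw⟩ := hb P
  obtain ⟨v1, z1, k1⟩ := LB.up hz ht 1 t1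
    ⟨v0, z0, k0.cyc, k0.ne, k0.gen, fun g _ => k0.inv g (Subgroup.mem_top g)⟩
  obtain ⟨chi, k2⟩ := tw N _ z1 hN k1
  obtain ⟨v3, k3⟩ := LB.up hz ht chi t2 ⟨v1, z1, k2⟩
  have := hf P l hl hp chi _ d v3 k3 hd
  omega

end ANd
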