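import Pool.Agent.P.MP_5e7d86_al.BRp

/-! The base case and the twist for the lower bound (MP_5e7d86_al). -/

set_option autoImplicit false
open Classical
open scoped commutatorElement

namespace ANd

namespace LBbase

variable {P : Type} [Group P] {M : Type} [AddCommGroup M] [Module ℚ M]

theorem act_single (rho : Representation ℚ P M) (n : ℕ) (g : P) (v : Fin n → P) (m : M) :
    act rho n g (Finsupp.single v m) = Finsupp.single (fun u => g * v u) (rho g m) := by
  simp [act, Finsupp.mapDomain_single]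

theorem chr_apply (chi : P →* ℚˣ) (g : P) (m : ℚ) : chr chi g m = (chi g : ℚ) * m := by
  simp [chr]

theorem act_chr (chi : P →* ℚˣ) (n : ℕ) (g : P) (c : Ch P ℚ n) :
    act (chr chi) n g c = (chi g : ℚ) • act (chr (1 : P →* ℚˣ)) n g c := by
  induction c using Finsupp.induction_linear with
  | zero => simp
  | add a b ha hb => simp only [map_add, ha, hb, smul_add]
  | single v m => simp [act_single, chr_apply]

theorem JJ_chr (chi : P →* ℚˣ) (N : Subgroup P) (h : ∀ g ∈ N, chi g = 1) (n : ℕ) :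
    JJ (chr chi) N n = JJ (chr (1 : P →* ℚˣ)) N n := by
  unfold JJ
  congr 1
  ext y
  constructor
  · rintro ⟨g, hg, c, rfl⟩
    exact ⟨g, hg, c, by rw [act_chr chi, h g hg]; simp⟩
  · rintro ⟨g, hg, c, rfl⟩
    exact ⟨g, hg, c, by rw [act_chr chi, h g hg]; simp⟩

theorem JJ_bot (rho : Representation ℚ P M) (n : ℕ) (hone : ∀ c : Ch P M n, act rho n 1 c = c) :
    JJ rho ⊥ n = ⊥ := by
  unfold JJ
  rw [Submodule.span_eq_bot]
  rintro y ⟨g, hg, c, rfl⟩
  rw [Subgroup.mem_bot.1 hg, hone, sub_self]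

theorem bdy_add (rho : Representation ℚ P M) (Γ : Subgroup P) (k : ℕ) {a b : Ch P M (k + 1)}
    (ha : Bdy rho Γ k a) (hb : Bdy rho Γ k b) : Bdy rho Γ k (a + b) := by
  obtain ⟨u, hu⟩ := ha
  obtain ⟨w, hw⟩ := hb
  refine ⟨u + w, ?_⟩
  have := Submodule.add_mem _ hu hw
  rw [map_add]
  convert this using 1
  abel

theorem bdy_smul (rho : Representation ℚ P M) (Γ : Subgroup P) (k : ℕ) {a : Ch P M (k + 1)}
    (r : ℚ) (ha : Bdy rho Γ k a) : Bdy rho Γ k (r • a) := by
  obtain ⟨u, hu⟩ := ha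
  refine ⟨r • u, ?_⟩
  have := Submodule.smul_mem _ r hu
  rwa [map_smul, ← smul_sub]

theorem bdy_of_bd (hC : S_ChB) (rho : Representation ℚ P M) (Γ : Subgroup P) (k : ℕ)
    (c : Ch P M (k + 1)) (hc : bd P M k c = 0) : Bdy rho Γ k c := by
  refine ⟨cone M (k + 1) 1 c, ?_⟩
  rw [(hC P M).2.2.1, hc, map_zero, sub_zero, sub_self]
  exact Submodule.zero_mem _

end LBbase

open LBbase in
theorem pLBbase (hC : S_ChB) : S_LBbase := by
  intro P _
  refine ⟨⟨?_, ?_⟩, ?_⟩
  · intro M _ _ rho k hk c hc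
    have hc' := hc.resolve_left (by omega)
    rw [JJ_bot rho k (((hC P M).2.2.2 rho).2.2.1 k), Submodule.mem_bot] at hc'
    exact bdy_of_bd hC rho ⊥ k c hc'
  · obtain ⟨hbb, hc0, -, hrho⟩ := hC P ℚ
    obtain ⟨hba, -, hone, -⟩ := hrho (chr (1 : P →* ℚˣ))
    let e : Ch P ℚ 0 := Finsupp.single default 1
    refine ⟨cone ℚ 0 1 e, Or.inl rfl, ?_, ?_, ?_⟩
    · rintro ⟨u, hu⟩
      rw [JJ_bot _ _ (hone _), Submodule.mem_bot, sub_eq_zero] at hu
      have h1 := hc0 1 e
      rw [hu, hbb] at h1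
      exact one_ne_zero (Finsupp.single_eq_zero.1 h1.symm)
    · intro c _
      refine ⟨bd P ℚ 0 c default, bdy_of_bd hC _ _ _ _ ?_⟩
      rw [map_sub, map_smul, hc0, sub_eq_zero]
      ext
      simp [e]
    · intro g _
      refine bdy_of_bd hC _ _ _ _ ?_
      rw [map_sub, hba, hc0, act_single, sub_eq_zero, chr_apply]
      simp only [MonoidHom.one_apply, Units.val_one, mul_one]
      congr 1
      exact Subsingleton.elim _ _
  · intro N j z hN hz
    obtain ⟨-, -, -, hrho⟩ := hC P ℚ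
    obtain ⟨hba, hmul, hone, -, hact, -⟩ := hrho (chr (1 : P →* ℚˣ))
    have hnorm : ∀ g : P, ∀ x ∈ N, g * x * g⁻¹ ∈ N := fun g x hx => hN.conj_mem x hx g
    have hcyc : ∀ g, Cyc (chr (1 : P →* ℚˣ)) N j (act (chr (1 : P →* ℚˣ)) (j + 1) g z) := by
      intro g
      refine hz.cyc.imp id fun h => ?_
      rw [hba]
      exact hact N _ g _ (hnorm g) h
    have hbdy : ∀ g c, Bdy (chr (1 : P →* ℚˣ)) N j c →
        Bdy (chr (1 : P →* ℚˣ)) N j (act (chr (1 : P →* ℚˣ)) (j + 1) g c) := by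
      rintro g c ⟨u, hu⟩
      refine ⟨act (chr (1 : P →* ℚˣ)) (j + 2) g u, ?_⟩
      rw [hba, ← map_sub]
      exact hact N _ g _ (hnorm g) hu
    have huniq : ∀ (c : Ch P ℚ (j + 1)) (a b : ℚ), Bdy (chr (1 : P →* ℚˣ)) N j (c - a • z) →
        Bdy (chr (1 : P →* ℚˣ)) N j (c - b • z) → a = b := by
      intro c a b ha hb
      by_contra hab
      have h1 := bdy_smul _ _ _ (b - a)⁻¹ (bdy_add _ _ _ ha (bdy_smul _ _ _ (-1) hb))
      have h2 : c - a • z + (-1 : ℚ) • (c - b • z) = (b - a) • z := by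
        rw [neg_one_smul, sub_smul]
        abel
      rw [h2, smul_smul, inv_mul_cancel₀ (sub_ne_zero.2 (Ne.symm hab)), one_smul] at h1
      exact hz.ne h1
    choose a ha using fun g => hz.gen _ (hcyc g)
    have haN : ∀ g ∈ N, a g = 1 := fun g hg =>
      huniq _ _ _ (ha g) (by rw [one_smul]; exact hz.inv g hg)
    have hamul : ∀ g h, a (g * h) = a g * a h := by
      intro g h
      refine huniq _ _ _ (ha (g * h)) ?_
      have h1 := bdy_add _ _ _ (hbdy g _ (ha h)) (bdy_smul _ _ _ (a h) (ha g))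
      rw [map_sub, map_smul, ← hmul, smul_sub, smul_smul, mul_comm (a h)] at h1
      simpa using h1
    let a0 : P →* ℚ := ⟨⟨a, haN 1 N.one_mem⟩, hamul⟩
    let chi : P →* ℚˣ := a0.toHomUnits⁻¹
    have hchi : ∀ g, (chi g : ℚ) * a g = 1 := fun g => by
      have : a g = (a0.toHomUnits g : ℚ) := rfl
      rw [this]
      simp only [chi, MonoidHom.inv_apply, Units.inv_mul]
    have hchiN : ∀ g ∈ N, chi g = 1 := fun g hg => by
      have := hchi g
      rw [haN g hg, mul_one] at this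
      exact Units.ext this
    have hJ := JJ_chr chi N hchiN
    have hC' : ∀ c, Cyc (chr chi) N j c ↔ Cyc (chr (1 : P →* ℚˣ)) N j c := fun c => by
      simp only [Cyc, hJ]
    have hB' : ∀ c, Bdy (chr chi) N j c ↔ Bdy (chr (1 : P →* ℚˣ)) N j c := fun c => by
      simp only [Bdy, hJ]
    refine ⟨chi, (hC' _).2 hz.cyc, fun h => hz.ne ((hB' _).1 h), fun c hc => ?_, fun g _ => ?_⟩
    · obtain ⟨b, hb⟩ := hz.gen c ((hC' _).1 hc)
      exact ⟨b, (hB' _).2 hb⟩
    · have h1 := bdy_smul _ _ _ (chi g : ℚ) (ha g)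
      rw [smul_sub, smul_smul, hchi, one_smul, ← act_chr] at h1
      exact (hB' _).2 h1

end ANd
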