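import Pool.Agent.P.MP_5e7d86_al.BRp

/-! The end of the lower bound: a nonzero top class forces asymptotic dimension at least `j`. -/

set_option autoImplicit false
open Classical
open scoped commutatorElement

namespace ANd.LBfin

open Finsupp

variable {P : Type} [Group P] {M M' : Type} [AddCommGroup M] [Module ℚ M] [AddCommGroup M']
  [Module ℚ M']

/-- change of coefficients -/
noncomputable def mp (P : Type) (f : M →ₗ[ℚ] M') (n : ℕ) : Ch P M n →ₗ[ℚ] Ch P M' n :=
  Finsupp.mapRange.linearMap f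

omit [Group P] in
theorem mp_single (f : M →ₗ[ℚ] M') (n : ℕ) (v : Fin n → P) (a : M) :
    mp P f n (single v a) = single v (f a) := by simp [mp]

omit [Group P] in
theorem mp_apply (f : M →ₗ[ℚ] M') (n : ℕ) (c : Ch P M n) (v : Fin n → P) :
    mp P f n c v = f (c v) := by simp [mp]

omit [Group P] in
theorem bd_single (n : ℕ) (v : Fin (n + 1) → P) (a : M) : bd P M n (single v a) =
    ∑ i : Fin (n + 1), ((-1 : ℚ) ^ (i : ℕ)) • single (fun u => v (i.succAbove u)) a := by
  simp only [bd, LinearMap.sum_apply, LinearMap.smul_apply, lmapDomain_apply, mapDomain_single]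

theorem act_single (rho : Representation ℚ P M) (n : ℕ) (g : P) (v : Fin n → P) (a : M) :
    act rho n g (single v a) = single (fun u => g * v u) (rho g a) := by
  simp [act, mapDomain_single]

omit [Group P] in
theorem mp_bd (f : M →ₗ[ℚ] M') (n : ℕ) (c : Ch P M (n + 1)) :
    mp P f n (bd P M n c) = bd P M' n (mp P f (n + 1) c) := by
  induction c using Finsupp.induction_linear with
  | zero => simp
  | add a b ha hb => simp only [map_add, ha, hb]
  | single v a => simp only [bd_single, mp_single, map_sum, map_smul]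

theorem mp_act {rho : Representation ℚ P M} {rho' : Representation ℚ P M'} {f : M →ₗ[ℚ] M'}
    (hf : ∀ g a, f (rho g a) = rho' g (f a)) (n : ℕ) (g : P) (c : Ch P M n) :
    mp P f n (act rho n g c) = act rho' n g (mp P f n c) := by
  induction c using Finsupp.induction_linear with
  | zero => simp
  | add a b ha hb => simp only [map_add, ha, hb]
  | single v a => simp only [act_single, mp_single, hf]

theorem map_JJ {rho : Representation ℚ P M} {rho' : Representation ℚ P M'} {n m : ℕ}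
    (F : Ch P M n →ₗ[ℚ] Ch P M' m) (hF : ∀ g c, F (act rho n g c) = act rho' m g (F c))
    (Γ : Subgroup P) {c : Ch P M n} (hc : c ∈ JJ rho Γ n) : F c ∈ JJ rho' Γ m := by
  have : JJ rho Γ n ≤ (JJ rho' Γ m).comap F := by
    refine Submodule.span_le.2 ?_
    rintro _ ⟨g, hg, c, rfl⟩
    exact Submodule.subset_span ⟨g, hg, F c, by rw [map_sub, hF]⟩
  exact this hc

theorem lift_JJ {rho : Representation ℚ P M} {rho' : Representation ℚ P M'} {n : ℕ}
    (F : Ch P M n →ₗ[ℚ] Ch P M' n) (hF : ∀ g c, F (act rho n g c) = act rho' n g (F c))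
    (hs : Function.Surjective F) (Γ : Subgroup P) {c : Ch P M' n} (hc : c ∈ JJ rho' Γ n) :
    ∃ y ∈ JJ rho Γ n, F y = c := by
  have : JJ rho' Γ n ≤ (JJ rho Γ n).map F := by
    refine Submodule.span_le.2 ?_
    rintro _ ⟨g, hg, c, rfl⟩
    obtain ⟨c, rfl⟩ := hs c
    exact ⟨_, Submodule.subset_span ⟨g, hg, c, rfl⟩, by rw [map_sub, hF]⟩
  exact this hc

omit [Group P] in
theorem mp_surj {f : M →ₗ[ℚ] M'} (hf : Function.Surjective f) (n : ℕ) :
    Function.Surjective (mp P f n) := fun c => by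
  obtain ⟨s, hs⟩ := f.exists_rightInverse_of_surjective (LinearMap.range_eq_top.2 hf)
  refine ⟨mp P s n c, ?_⟩
  ext v
  rw [mp_apply, mp_apply]
  exact LinearMap.congr_fun hs (c v)

/-- translation of simplices -/
noncomputable def tr (g : P) (n : ℕ) : Ch P ℚ n →ₗ[ℚ] Ch P ℚ n :=
  lmapDomain ℚ ℚ (fun v u => g * v u)

theorem tr_single (g : P) (n : ℕ) (v : Fin n → P) (a : ℚ) :
    tr g n (single v a) = single (fun u => g * v u) a := by simp [tr, mapDomain_single]

theorem tr_apply (g : P) (n : ℕ) (c : Ch P ℚ n) (v : Fin n → P) :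
    tr g n c (fun u => g * v u) = c v := by
  have : Function.Injective (fun (v : Fin n → P) u => g * v u) := fun v w h => by
    funext u
    exact mul_left_cancel (congrFun h u)
  exact mapDomain_apply this c v

theorem tr_bd (g : P) (n : ℕ) (c : Ch P ℚ (n + 1)) :
    tr g n (bd P ℚ n c) = bd P ℚ n (tr g (n + 1) c) := by
  induction c using Finsupp.induction_linear with
  | zero => simp
  | add a b ha hb => simp only [map_add, ha, hb]
  | single v a => simp only [bd_single, tr_single, map_sum, map_smul]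

theorem tr_act (chi : P →* ℚˣ) (g h : P) (n : ℕ) (c : Ch P ℚ n) :
    tr g n (act (chr chi) n h c) = (chi h : ℚ) • tr (g * h) n c := by
  induction c using Finsupp.induction_linear with
  | zero => simp
  | add a b ha hb => simp only [map_add, ha, hb, smul_add]
  | single v a =>
    rw [act_single, tr_single, tr_single, smul_single]
    simp only [mul_assoc]
    rfl

/-- the coinduced module -/
noncomputable def co (chi : P →* ℚˣ) : Representation ℚ P (P → ℚ) where
  toFun h := (chi h : ℚ) • LinearMap.funLeft ℚ ℚ (fun g => g * h)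
  map_one' := by ext; simp
  map_mul' g h := by ext f x; simp [LinearMap.funLeft_apply, mul_assoc, mul_left_comm]

theorem co_apply (chi : P →* ℚˣ) (h : P) (f : P → ℚ) (g : P) :
    co chi h f g = chi h * f (g * h) := by simp [co, LinearMap.funLeft_apply]

/-- constant functions -/
def io (P : Type) : ℚ →ₗ[ℚ] (P → ℚ) := LinearMap.pi fun _ => LinearMap.id

omit [Group P] in
theorem io_apply (a : ℚ) (g : P) : io P a g = a := rfl

theorem io_eq (chi : P →* ℚˣ) (g : P) (a : ℚ) : io P (chr chi g a) = co chi g (io P a) := by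
  funext x
  simp [co_apply, io_apply, chr]

/-- evaluation at `g` and translation by `g` -/
noncomputable def ev (g : P) (n : ℕ) : Ch P (P → ℚ) n →ₗ[ℚ] Ch P ℚ n :=
  (tr g n).comp (mp P (LinearMap.proj g) n)

theorem ev_single (g : P) (n : ℕ) (v : Fin n → P) (f : P → ℚ) :
    ev g n (single v f) = single (fun u => g * v u) (f g) := by
  simp [ev, mp_single, tr_single]

theorem ev_apply (g : P) (n : ℕ) (c : Ch P (P → ℚ) n) (v : Fin n → P) :
    ev g n c (fun u => g * v u) = c v g := by
  simp [ev, tr_apply, mp_apply]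

theorem ev_ext {n : ℕ} {c c' : Ch P (P → ℚ) n} (h : ∀ g, ev g n c = ev g n c') : c = c' := by
  ext v g
  rw [← ev_apply, h, ev_apply]

theorem ev_bd (g : P) (n : ℕ) (c : Ch P (P → ℚ) (n + 1)) :
    ev g n (bd P _ n c) = bd P ℚ n (ev g (n + 1) c) := by
  simp only [ev, LinearMap.comp_apply, mp_bd, tr_bd]

theorem ev_act (chi : P →* ℚˣ) (g h : P) (n : ℕ) (c : Ch P (P → ℚ) n) :
    ev g n (act (co chi) n h c) = (chi h : ℚ) • ev (g * h) n c := by
  induction c using Finsupp.induction_linear with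
  | zero => simp
  | add a b ha hb => simp only [map_add, ha, hb, smul_add]
  | single v a => simp [act_single, ev_single, co_apply, mul_assoc]

theorem ev_io (g : P) (n : ℕ) (c : Ch P ℚ n) : ev g n (mp P (io P) n c) = tr g n c := by
  induction c using Finsupp.induction_linear with
  | zero => simp
  | add a b ha hb => simp only [map_add, ha, hb]
  | single v a => simp [mp_single, ev_single, tr_single, io_apply]

/-- a controlled operator gives an equivariant operator into the coinduced chains -/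
theorem exists_phi {l : P → ℕ} (hp : Proper l) {B n m : ℕ} (H : Ch P ℚ n →ₗ[ℚ] Ch P ℚ m)
    (hH : ∀ v : Fin n → P, ∀ y ∈ (H (single v 1)).support, ∀ i, ∃ u, l ((v u)⁻¹ * y i) ≤ B) :
    ∃ Ph : Ch P ℚ n →ₗ[ℚ] Ch P (P → ℚ) m, ∀ g c, ev g m (Ph c) = H (tr g n c) := by
  have fin : ∀ v : Fin n → P, (Function.support fun (y : Fin m → P) (g : P) =>
      H (single (fun u => g * v u) 1) (fun i => g * y i)).Finite := by
    intro v
    have h1 : {x : P | ∃ u, l ((v u)⁻¹ * x) ≤ B}.Finite := by
      refine (Set.finite_iUnion fun u => (hp B).image (fun a => v u * a)).subset ?_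
      rintro x ⟨u, hu⟩
      exact Set.mem_iUnion.2 ⟨u, _, hu, by simp⟩
    refine (Set.Finite.pi' fun _ : Fin m => h1).subset fun y hy i => ?_
    obtain ⟨g, hg⟩ := Function.ne_iff.1 hy
    obtain ⟨u, hu⟩ := hH _ _ (mem_support_iff.2 hg) i
    refine ⟨u, ?_⟩
    simpa [mul_assoc] using hu
  refine ⟨Finsupp.linearCombination ℚ fun v => ofSupportFinite _ (fin v), fun g c => ?_⟩
  induction c using Finsupp.induction_linear with
  | zero => simp
  | add a b ha hb => simp only [map_add, ha, hb]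
  | single v a =>
    rw [linearCombination_single, map_smul, tr_single, ← mul_one a, ← smul_eq_mul,
      ← smul_single, map_smul, smul_eq_mul, mul_one]
    congr 1
    ext y
    have : y = fun u => g * (g⁻¹ * y u) := by funext u; simp
    rw [this, ev_apply, ofSupportFinite_coe]

/-- normalisation of the first vertex -/
noncomputable def nm (chi : P →* ℚˣ) (n : ℕ) : Ch P (P → ℚ) (n + 1) →ₗ[ℚ] Ch P ℚ (n + 1) :=
  Finsupp.lsum ℚ fun v => (lsingle fun u => (v 0)⁻¹ * v u).comp
    ((chi (v 0)⁻¹ : ℚ) • LinearMap.proj (v 0)⁻¹)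

theorem nm_single (chi : P →* ℚˣ) (n : ℕ) (v : Fin (n + 1) → P) (f : P → ℚ) :
    nm chi n (single v f) = single (fun u => (v 0)⁻¹ * v u) (chi (v 0)⁻¹ * f (v 0)⁻¹) := by
  simp [nm]

theorem nm_act (chi : P →* ℚˣ) (n : ℕ) (g : P) (c : Ch P (P → ℚ) (n + 1)) :
    nm chi n (act (co chi) (n + 1) g c) = nm chi n c := by
  induction c using Finsupp.induction_linear with
  | zero => simp
  | add a b ha hb => simp only [map_add, ha, hb]
  | single v a =>
    rw [act_single, nm_single, nm_single, co_apply]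
    congr 1
    · funext u
      group
    · rw [← mul_assoc, ← Units.val_mul, ← map_mul]
      simp

theorem nm_JJ (chi : P →* ℚˣ) (n : ℕ) {c : Ch P (P → ℚ) (n + 1)}
    (hc : c ∈ JJ (co chi) ⊤ (n + 1)) : nm chi n c = 0 := by
  have : JJ (co chi) ⊤ (n + 1) ≤ LinearMap.ker (nm chi n) := by
    refine Submodule.span_le.2 ?_
    rintro _ ⟨g, -, c, rfl⟩
    change nm chi n _ = 0
    rw [map_sub, nm_act, sub_self]
  exact this hc

theorem nm_io (chi : P →* ℚˣ) (n : ℕ) (c : Ch P ℚ (n + 1)) :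
    nm chi n (mp P (io P) (n + 1) c) - c ∈ JJ (chr chi) ⊤ (n + 1) := by
  induction c using Finsupp.induction_linear with
  | zero => simp
  | add a b ha hb =>
    have := Submodule.add_mem _ ha hb
    rw [map_add, map_add]
    convert this using 1
    abel
  | single v a =>
    refine Submodule.subset_span ⟨(v 0)⁻¹, trivial, single v a, ?_⟩
    rw [mp_single, nm_single, act_single, io_apply]
    simp [chr]

theorem io_JJ (chi : P →* ℚˣ) (n : ℕ) {c : Ch P ℚ (n + 1)}
    (hc : mp P (io P) (n + 1) c ∈ JJ (co chi) ⊤ (n + 1)) : c ∈ JJ (chr chi) ⊤ (n + 1) := by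
  have := nm_io chi n c
  rw [nm_JJ chi n hc, zero_sub] at this
  exact (Submodule.neg_mem_iff _).1 this

theorem ker_mk (n : ℕ) {c : Ch P (P → ℚ) n}
    (hc : mp P (LinearMap.range (io P)).mkQ n c = 0) : ∃ w, mp P (io P) n w = c := by
  refine ⟨mp P (LinearMap.proj (1 : P)) n c, ?_⟩
  ext v g
  have h : (LinearMap.range (io P)).mkQ (c v) = 0 := by rw [← mp_apply, hc]; rfl
  obtain ⟨a, ha⟩ := (Submodule.Quotient.mk_eq_zero _).1 h
  rw [mp_apply, mp_apply, ← ha]
  rfl

end ANd.LBfin

namespace ANd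

open LBfin Finsupp in
theorem pLBfin (hC : S_ChB) (hG : S_LBgeo) : S_LBfin := by
  intro P _ l hl hp chi j d hV ⟨z, hz⟩ hA
  by_contra hd
  obtain ⟨n, rfl⟩ : ∃ n, j = n + 1 := ⟨j - 1, by omega⟩
  obtain ⟨r, hr⟩ : ∃ r : ℕ, ∀ v ∈ z.support, ∀ u u', l ((v u)⁻¹ * v u') ≤ r :=
    ⟨z.support.sup fun v => Finset.univ.sup fun p : Fin (n + 2) × Fin (n + 2) =>
      l ((v p.1)⁻¹ * v p.2), fun v hv u u' => le_trans (Finset.le_sup
        (f := fun p : Fin (n + 2) × Fin (n + 2) => l ((v p.1)⁻¹ * v p.2))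
        (Finset.mem_univ (u, u'))) (Finset.le_sup (f := fun v : Fin (n + 2) → P =>
          Finset.univ.sup fun p : Fin (n + 2) × Fin (n + 2) => l ((v p.1)⁻¹ * v p.2)) hv)⟩
  obtain ⟨B, hB⟩ := hA r
  obtain ⟨H, be, h1, h2, h3⟩ := hG P l hl d r B hB
  obtain ⟨Ph0, hP0⟩ := exists_phi hp (H n) (h2 n)
  obtain ⟨Ph1, hP1⟩ := exists_phi hp (H (n + 1)) (h2 (n + 1))
  have hbe : ∀ g, be (n + 1) (tr g (n + 2) z) = 0 := by
    intro g
    rw [← z.sum_single, Finsupp.sum, map_sum, map_sum]
    refine Finset.sum_eq_zero fun v hv => ?_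
    rw [tr_single, ← mul_one (z v), ← smul_eq_mul, ← smul_single, map_smul,
      h3 (n + 1) _ (by omega) fun u u' => by simpa [mul_assoc] using hr v hv u u', smul_zero]
  have key : mp P (io P) (n + 2) z = bd P _ (n + 2) (Ph1 z) + Ph0 (bd P ℚ (n + 1) z) := by
    refine ev_ext fun g => ?_
    rw [ev_io, map_add, ev_bd, hP0, hP1, tr_bd, ← h1, hbe, sub_zero]
  have eq0 : ∀ g c, Ph0 (act (chr chi) (n + 1) g c) = act (co chi) (n + 2) g (Ph0 c) :=
    fun g c => ev_ext fun x => by rw [hP0, tr_act, ev_act, hP0, map_smul]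
  have hJ : Ph0 (bd P ℚ (n + 1) z) ∈ JJ (co chi) ⊤ (n + 2) :=
    map_JJ Ph0 eq0 ⊤ (hz.cyc.resolve_left (by omega))
  have hW : ∀ g, LinearMap.range (io P) ≤ (LinearMap.range (io P)).comap (co chi g) := by
    rintro g _ ⟨a, rfl⟩
    exact ⟨_, io_eq chi g a⟩
  set q := (LinearMap.range (io P)).mkQ with hq
  have hqe : ∀ g a, q (co chi g a) = (co chi).quotient _ hW g (q a) := fun g a => rfl
  have hq0 : ∀ m (c : Ch P ℚ m), mp P q m (mp P (io P) m c) = 0 := by
    intro m c
    ext v
    rw [mp_apply, mp_apply]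
    exact (Submodule.Quotient.mk_eq_zero _).2 ⟨_, rfl⟩
  have hs := fun m => mp_surj (P := P) (LinearMap.range (io P)).mkQ_surjective m
  obtain ⟨u', hu'⟩ := hV _ ((co chi).quotient _ hW) (n + 2) (by omega) (mp P q (n + 3) (Ph1 z))
    (Or.inr (by
      have e : bd P _ (n + 2) (Ph1 z) = mp P (io P) (n + 2) z - Ph0 (bd P ℚ (n + 1) z) := by
        rw [key]; abel
      rw [← mp_bd, e, map_sub, hq0, zero_sub]
      exact Submodule.neg_mem _ (map_JJ _ (mp_act hqe _) ⊤ hJ)))
  obtain ⟨u, rfl⟩ := hs _ u'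
  obtain ⟨y, hy, hy'⟩ := lift_JJ _ (mp_act hqe _) (hs _) ⊤ hu'
  obtain ⟨w, hw⟩ := ker_mk (n + 3) (c := Ph1 z - bd P _ (n + 3) u - y) (by
    rw [map_sub, map_sub, mp_bd, hy', sub_self])
  refine hz.ne ⟨w, io_JJ chi (n + 1) ?_⟩
  obtain ⟨c1, -, -, c2⟩ := hC P (P → ℚ)
  rw [map_sub, mp_bd, hw, key, map_sub, map_sub, c1]
  have := Submodule.add_mem _ hJ ((c2 (co chi)).2.2.2.1 ⊤ _ y hy)
  convert this using 1
  abel

end ANd
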