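import Pool.Agent.P.MP_5e7d86_al.BRp

/-! A chain homotopy with bounded propagation that kills small simplices of high degree. -/

set_option autoImplicit false
open Classical
open scoped commutatorElement

namespace ANd

namespace LBgeo

variable {P : Type}

/-- chains supported on simplices with the property `Q` -/
def Sp {n : ℕ} (Q : (Fin n → P) → Prop) : Submodule ℚ (Ch P ℚ n) :=
  Finsupp.supported ℚ ℚ {y | Q y}

theorem sp_single {n : ℕ} {Q : (Fin n → P) → Prop} {y : Fin n → P} (h : Q y) :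
    Finsupp.single y (1 : ℚ) ∈ Sp Q := Finsupp.single_mem_supported ℚ _ h

theorem sp_mono {n : ℕ} {Q Q' : (Fin n → P) → Prop} (h : ∀ y, Q y → Q' y) {c : Ch P ℚ n}
    (hc : c ∈ Sp Q) : c ∈ Sp Q' := Finsupp.supported_mono (fun y hy => h y hy) hc

theorem sp_map {n : ℕ} {Q : (Fin n → P) → Prop} {N : Type} [AddCommGroup N] [Module ℚ N]
    (f : Ch P ℚ n →ₗ[ℚ] N) (U : Submodule ℚ N) (h : ∀ y, Q y → f (Finsupp.single y 1) ∈ U)
    {c : Ch P ℚ n} (hc : c ∈ Sp Q) : f c ∈ U := by
  have : Sp Q ≤ U.comap f := by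
    rw [Sp, Finsupp.supported_eq_span_single, Submodule.span_le]
    rintro _ ⟨y, hy, rfl⟩
    exact h y hy
  exact this hc

theorem sp_eq {n : ℕ} {Q : (Fin n → P) → Prop} {N : Type} [AddCommGroup N] [Module ℚ N]
    (f g : Ch P ℚ n →ₗ[ℚ] N) (h : ∀ y, Q y → f (Finsupp.single y 1) = g (Finsupp.single y 1))
    {c : Ch P ℚ n} (hc : c ∈ Sp Q) : f c = g c := by
  have := sp_map (f - g) ⊥ (fun y hy => by simp [h y hy]) hc
  rw [Submodule.mem_bot, LinearMap.sub_apply, sub_eq_zero] at this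
  exact this

theorem sp_eq_zero {n : ℕ} {Q : (Fin n → P) → Prop} (h : ∀ y, ¬ Q y) {c : Ch P ℚ n}
    (hc : c ∈ Sp Q) : c = 0 :=
  sp_eq LinearMap.id 0 (fun y hy => absurd hy (h y)) hc

theorem bd_single_mem {n : ℕ} {Q : (Fin n → P) → Prop} (y : Fin (n + 1) → P)
    (h : ∀ i : Fin (n + 1), Q (fun u => y (i.succAbove u))) :
    bd P ℚ n (Finsupp.single y 1) ∈ Sp Q := by
  rw [bd, LinearMap.sum_apply]
  refine Submodule.sum_mem _ fun i _ => ?_
  rw [LinearMap.smul_apply, Finsupp.lmapDomain_apply, Finsupp.mapDomain_single]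
  exact Submodule.smul_mem _ _ (sp_single (h i))

theorem cone_single {n : ℕ} (x : P) (y : Fin n → P) :
    cone ℚ n x (Finsupp.single y 1) = Finsupp.single (Fin.cons x y : Fin (n + 1) → P) 1 := by
  rw [cone, Finsupp.lmapDomain_apply, Finsupp.mapDomain_single]

theorem cone_mem {n : ℕ} {S : Set P} {x : P} (hx : x ∈ S) {c : Ch P ℚ n}
    (hc : c ∈ Sp fun y => ∀ i, y i ∈ S) : cone ℚ n x c ∈ Sp fun y => ∀ i, y i ∈ S := by
  refine sp_map _ _ (fun y hy => ?_) hc
  rw [cone_single]
  exact sp_single fun i => Fin.cases (by simpa using hx) (fun j => by simpa using hy j) i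

variable {ι : Type} [LinearOrder ι] (col : P → ι)

/-- projection onto the simplices all of whose colours exceed the colour of `x` -/
noncomputable def fl (x : P) (n : ℕ) : Ch P ℚ n →ₗ[ℚ] Ch P ℚ n :=
  Finsupp.linearCombination ℚ fun y =>
    if ∀ i, col x < col (y i) then Finsupp.single y 1 else 0

theorem fl_single (x : P) {n : ℕ} (y : Fin n → P) :
    fl col x n (Finsupp.single y 1) =
      if ∀ i, col x < col (y i) then Finsupp.single y 1 else 0 := by
  rw [fl, Finsupp.linearCombination_single, one_smul]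

theorem fl_id (x : P) {n : ℕ} {c : Ch P ℚ n} (hc : c ∈ Sp fun y => ∀ i, col x < col (y i)) :
    fl col x n c = c :=
  sp_eq _ LinearMap.id (fun y hy => by rw [fl_single, if_pos hy]; rfl) hc

theorem fl_cone (x : P) {n : ℕ} (c : Ch P ℚ n) : fl col x (n + 1) (cone ℚ n x c) = 0 :=
  sp_eq (Q := fun _ => True) ((fl col x (n + 1)).comp (cone ℚ n x)) 0 (fun y _ => by
    rw [LinearMap.comp_apply, cone_single, fl_single, if_neg]
    · rfl
    · intro h
      simpa using h 0) (fun _ _ => trivial)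

/-- simplices with vertices in `S` and strictly increasing colours -/
def TT (S : Set P) {n : ℕ} (y : Fin n → P) : Prop :=
  (∀ i, y i ∈ S) ∧ StrictMono fun i => col (y i)

/-- the contraction of the complex of increasing simplices -/
noncomputable def hc (x : P) (n : ℕ) : Ch P ℚ n →ₗ[ℚ] Ch P ℚ (n + 1) :=
  (cone ℚ n x).comp (fl col x n)

theorem hc_mem {S : Set P} {x : P} (hx : x ∈ S) {n : ℕ} {c : Ch P ℚ n}
    (h : c ∈ Sp (TT col S)) : hc col x n c ∈ Sp (TT col S) := by
  refine sp_map _ _ (fun y hy => ?_) h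
  rw [hc, LinearMap.comp_apply, fl_single]
  split_ifs with h1
  · rw [cone_single]
    refine sp_single ⟨fun i => Fin.cases (by simpa using hx) (fun j => by simpa using hy.1 j) i, ?_⟩
    intro i j hij
    induction j using Fin.cases with
    | zero => exact absurd hij (Fin.not_lt_zero _)
    | succ j =>
      induction i using Fin.cases with
      | zero => simpa using h1 j
      | succ i => simpa using hy.2 (Fin.succ_lt_succ_iff.1 hij)
  · rw [map_zero]; exact Submodule.zero_mem _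

variable [Group P]

theorem bd_hc0 (hB : S_ChB) (x : P) (c : Ch P ℚ 0) : bd P ℚ 0 (hc col x 0 c) = c := by
  rw [hc, LinearMap.comp_apply, fl_id col x (c := c) (fun _ _ i => i.elim0)]
  exact (hB P ℚ).2.1 x c

theorem bd_hc (hB : S_ChB) {S : Set P} {x : P} (hx : ∀ z ∈ S, z = x ∨ col x < col z) {n : ℕ}
    {c : Ch P ℚ (n + 1)} (h : c ∈ Sp (TT col S)) :
    bd P ℚ (n + 1) (hc col x (n + 1) c) = c - hc col x n (bd P ℚ n c) := by
  refine sp_eq ((bd P ℚ (n + 1)).comp (hc col x (n + 1)))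
    (LinearMap.id - (hc col x n).comp (bd P ℚ n)) (fun y hy => ?_) h
  simp only [hc, LinearMap.comp_apply, LinearMap.sub_apply, LinearMap.id_apply]
  rw [fl_single]
  split_ifs with h1
  · rw [(hB P ℚ).2.2.1, fl_id col x (bd_single_mem y fun i u => h1 _)]
  · have h0 : y 0 = x := by
      push Not at h1
      obtain ⟨i, hi⟩ := h1
      refine (hx _ (hy.1 0)).resolve_right fun h2 => ?_
      exact absurd (h2.trans_le (hy.2.monotone (Fin.zero_le i))) (not_lt.2 hi)
    have h2 : ∀ i, col x < col (Fin.tail y i) := fun i => by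
      rw [← h0]; exact hy.2 (Fin.succ_pos i)
    have h3 : Finsupp.single y (1 : ℚ) = cone ℚ n x (Finsupp.single (Fin.tail y) 1) := by
      rw [cone_single, ← h0, Fin.cons_self_tail]
    have h4 : fl col x n (bd P ℚ n (Finsupp.single y 1)) = Finsupp.single (Fin.tail y) 1 := by
      rw [h3]
      cases n with
      | zero => rw [(hB P ℚ).2.1, fl_single, if_pos h2]
      | succ n => rw [(hB P ℚ).2.2.1, map_sub, fl_cone, sub_zero, fl_single, if_pos h2]
    rw [h4, ← h3, map_zero, map_zero, sub_self]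

variable (o : P → P)

/-- a vertex of least colour -/
noncomputable def mn {n : ℕ} (v : Fin (n + 1) → P) : Fin (n + 1) :=
  (Finite.exists_min fun u => col (v u)).choose

omit [Group P] in
theorem mn_le {n : ℕ} (v : Fin (n + 1) → P) (u : Fin (n + 1)) : col (v (mn col v)) ≤ col (v u) :=
  (Finite.exists_min fun u => col (v u)).choose_spec u

/-- the chain map to increasing simplices -/
noncomputable def bb : ∀ n, Ch P ℚ n →ₗ[ℚ] Ch P ℚ n
  | 0 => LinearMap.id
  | n + 1 => Finsupp.linearCombination ℚ fun v =>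
      hc col (o (v (mn col v))) n (bb n (bd P ℚ n (Finsupp.single v 1)))

omit [Group P] in
theorem bb_single {n : ℕ} (v : Fin (n + 1) → P) : bb col o (n + 1) (Finsupp.single v 1) =
    hc col (o (v (mn col v))) n (bb col o n (bd P ℚ n (Finsupp.single v 1))) := by
  rw [bb, Finsupp.linearCombination_single, one_smul]

variable (Nr : P → P → Prop)

/-- small simplices -/
def Sml {n : ℕ} (v : Fin n → P) : Prop := ∀ u u', Nr (v u) (v u')

omit [Group P] in
theorem bd_sml {n : ℕ} {v : Fin (n + 1) → P} (hv : Sml Nr v) :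
    bd P ℚ n (Finsupp.single v 1) ∈ Sp fun y => Sml Nr y ∧ ∀ i, ∃ u, y i = v u :=
  bd_single_mem v fun _ => ⟨fun _ _ => hv _ _, fun _ => ⟨_, rfl⟩⟩

omit [Group P] in
theorem bb_mem : ∀ (n : ℕ) (v : Fin n → P), Sml Nr v →
    bb col o n (Finsupp.single v 1) ∈ Sp (TT col {z | ∃ u, o (v u) = z})
  | 0, _, _ => sp_single ⟨fun i => i.elim0, fun i => i.elim0⟩
  | n + 1, v, hv => by
    rw [bb_single]
    refine hc_mem col (by exact ⟨_, rfl⟩) (sp_map _ _ (fun y hy => ?_) (bd_sml Nr hv))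
    refine sp_mono (fun w hw => ⟨fun i => ?_, hw.2⟩) (bb_mem n y hy.1)
    obtain ⟨u, hu⟩ := hw.1 i
    obtain ⟨u', hu'⟩ := hy.2 u
    exact ⟨u', by rw [← hu', hu]⟩

omit [Group P] in
theorem bb_bd_mem {n : ℕ} {v : Fin (n + 1) → P} (hv : Sml Nr v) :
    bb col o n (bd P ℚ n (Finsupp.single v 1)) ∈ Sp (TT col {z | ∃ u, o (v u) = z}) := by
  refine sp_map _ _ (fun y hy => ?_) (bd_sml Nr hv)
  refine sp_mono (fun w hw => ⟨fun i => ?_, hw.2⟩) (bb_mem col o Nr n y hy.1)
  obtain ⟨u, hu⟩ := hw.1 i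
  obtain ⟨u', hu'⟩ := hy.2 u
  exact ⟨u', by rw [← hu', hu]⟩

theorem bd_bb (hB : S_ChB) (h1 : ∀ x, col (o x) = col x)
    (h2 : ∀ x y, col x = col y → Nr x y → o x = o y) : ∀ (n : ℕ) (v : Fin (n + 1) → P), Sml Nr v →
    bd P ℚ n (bb col o (n + 1) (Finsupp.single v 1)) = bb col o n (bd P ℚ n (Finsupp.single v 1))
  | 0, v, _ => by rw [bb_single, bd_hc0 col hB]
  | n + 1, v, hv => by
    rw [bb_single, bd_hc col hB (S := {z | ∃ u, o (v u) = z}) _ (bb_bd_mem col o Nr hv)]
    · have : bd P ℚ n (bb col o (n + 1) (bd P ℚ (n + 1) (Finsupp.single v 1))) =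
          bb col o n (bd P ℚ n (bd P ℚ (n + 1) (Finsupp.single v 1))) :=
        sp_eq ((bd P ℚ n).comp (bb col o (n + 1))) ((bb col o n).comp (bd P ℚ n))
          (fun y hy => bd_bb hB h1 h2 n y hy.1) (bd_sml Nr hv)
      rw [this, (hB P ℚ).1, map_zero, map_zero, sub_zero]
    · rintro _ ⟨u, rfl⟩
      rcases (mn_le col v u).eq_or_lt with h | h
      · exact Or.inl (h2 _ _ h.symm (hv _ _))
      · exact Or.inr (by rw [h1, h1]; exact h)

/-- the chain homotopy -/
noncomputable def gg : ∀ n, Ch P ℚ n →ₗ[ℚ] Ch P ℚ (n + 1)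
  | 0 => 0
  | n + 1 => Finsupp.linearCombination ℚ fun v =>
      if Sml Nr v then cone ℚ (n + 1) (v 0) (Finsupp.single v 1 -
        bb col o (n + 1) (Finsupp.single v 1) - gg n (bd P ℚ n (Finsupp.single v 1))) else 0

omit [Group P] in
theorem gg_single {n : ℕ} (v : Fin (n + 1) → P) : gg col o Nr (n + 1) (Finsupp.single v 1) =
    if Sml Nr v then cone ℚ (n + 1) (v 0) (Finsupp.single v 1 -
      bb col o (n + 1) (Finsupp.single v 1) - gg col o Nr n (bd P ℚ n (Finsupp.single v 1)))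
    else 0 := by
  rw [gg, Finsupp.linearCombination_single, one_smul]

omit [Group P] in
theorem gg_mem : ∀ (n : ℕ) (v : Fin n → P),
    gg col o Nr n (Finsupp.single v 1) ∈ Sp fun y => ∀ i, y i ∈ {z | ∃ u, v u = z ∨ o (v u) = z}
  | 0, _ => Submodule.zero_mem _
  | n + 1, v => by
    rw [gg_single]
    split_ifs with hv
    · refine cone_mem (by exact ⟨0, Or.inl rfl⟩)
        (Submodule.sub_mem _ (Submodule.sub_mem _ ?_ ?_) ?_)
      · exact sp_single fun i => ⟨i, Or.inl rfl⟩
      · refine sp_mono (fun w hw i => ?_) (bb_mem col o Nr _ v hv)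
        obtain ⟨u, hu⟩ := hw.1 i
        exact ⟨u, Or.inr hu⟩
      · refine sp_map _ _ (fun y hy => ?_) (bd_sml Nr hv)
        refine sp_mono (fun w hw i => ?_) (gg_mem n y)
        obtain ⟨u, hu⟩ := hw i
        obtain ⟨u', hu'⟩ := hy.2 u
        exact ⟨u', by rw [← hu']; exact hu⟩
    · exact Submodule.zero_mem _

theorem bd_gg (hB : S_ChB) (h1 : ∀ x, col (o x) = col x)
    (h2 : ∀ x y, col x = col y → Nr x y → o x = o y) : ∀ (n : ℕ) (v : Fin (n + 1) → P), Sml Nr v →
    bd P ℚ (n + 1) (gg col o Nr (n + 1) (Finsupp.single v 1)) = Finsupp.single v 1 -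
      bb col o (n + 1) (Finsupp.single v 1) - gg col o Nr n (bd P ℚ n (Finsupp.single v 1))
  | 0, v, hv => by
    rw [gg_single, if_pos hv, (hB P ℚ).2.2.1, map_sub (bd P ℚ 0), map_sub (bd P ℚ 0),
      bd_bb col o Nr hB h1 h2 0 v hv]
    simp [bb, gg]
  | n + 1, v, hv => by
    have : bd P ℚ (n + 1) (gg col o Nr (n + 1) (bd P ℚ (n + 1) (Finsupp.single v 1))) =
        bd P ℚ (n + 1) (Finsupp.single v 1) -
          bb col o (n + 1) (bd P ℚ (n + 1) (Finsupp.single v 1)) -
          gg col o Nr n (bd P ℚ n (bd P ℚ (n + 1) (Finsupp.single v 1))) :=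
      sp_eq ((bd P ℚ (n + 1)).comp (gg col o Nr (n + 1)))
        (LinearMap.id - bb col o (n + 1) - (gg col o Nr n).comp (bd P ℚ n))
        (fun y hy => bd_gg hB h1 h2 n y hy.1) (bd_sml Nr hv)
    rw [gg_single, if_pos hv, (hB P ℚ).2.2.1, map_sub (bd P ℚ (n + 1)), map_sub (bd P ℚ (n + 1)),
      bd_bb col o Nr hB h1 h2 (n + 1) v hv, this, (hB P ℚ).1, map_zero, sub_zero, sub_self,
      map_zero, sub_zero]

/-- colours and centres of chain components -/
theorem centres {l : P → ℕ} (hl : IsLen l) {d r B : ℕ} (h : Col l Set.univ d r B) :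
    ∃ (col : P → Fin (d + 1)) (o : P → P), (∀ x, col (o x) = col x) ∧
      (∀ x y, col x = col y → l (x⁻¹ * y) ≤ r → o x = o y) ∧ ∀ x, l (x⁻¹ * o x) ≤ B := by
  obtain ⟨Z, hZ, hc⟩ := h
  choose col hcol using fun x => hZ x trivial
  let St : P → P → Prop := fun a b => col a = col b ∧ l (a⁻¹ * b) ≤ r
  have hs : ∀ a b, St a b → St b a := fun a b h =>
    ⟨h.1.symm, by rw [← hl.inv, mul_inv_rev, inv_inv]; exact h.2⟩
  have ho : ∀ x, Relation.ReflTransGen St x (Classical.epsilon (Relation.ReflTransGen St x)) :=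
    fun x => Classical.epsilon_spec ⟨x, Relation.ReflTransGen.refl⟩
  have key : ∀ x y, Relation.ReflTransGen St x y →
      col y = col x ∧ Relation.ReflTransGen (Step l (Z (col x)) r) x y := by
    intro x y h
    induction h with
    | refl => exact ⟨rfl, Relation.ReflTransGen.refl⟩
    | tail _ h2 ih =>
      refine ⟨h2.1.symm.trans ih.1, ih.2.tail ⟨?_, ?_, h2.2⟩⟩
      · rw [← ih.1]; exact hcol _
      · rw [← ih.1, h2.1]; exact hcol _
  refine ⟨col, fun x => Classical.epsilon (Relation.ReflTransGen St x),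
    fun x => (key _ _ (ho x)).1, fun x y h1 h2 => ?_, fun x => hc _ _ _ (key _ _ (ho x)).2⟩
  have : Relation.ReflTransGen St x = Relation.ReflTransGen St y := funext fun z => propext
    ⟨fun h => h.head (hs _ _ ⟨h1, h2⟩), fun h => h.head ⟨h1, h2⟩⟩
  show Classical.epsilon _ = Classical.epsilon _
  rw [this]

end LBgeo

open LBgeo in
theorem pLBgeo (hB : S_ChB) : S_LBgeo := by
  intro P _ l hl d r B h
  obtain ⟨col, o, h1, h2, h3⟩ := centres hl h
  let Nr : P → P → Prop := fun a b => l (a⁻¹ * b) ≤ r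
  refine ⟨fun n => gg col o Nr (n + 1), fun n => match n with
    | 0 => 0
    | n + 1 => LinearMap.id - (bd P ℚ (n + 2)).comp (gg col o Nr (n + 2)) -
        (gg col o Nr (n + 1)).comp (bd P ℚ (n + 1)), fun n c => ?_, fun n v y hy i => ?_,
    fun n v hn hv => ?_⟩
  · simp only [LinearMap.sub_apply, LinearMap.comp_apply, LinearMap.id_apply]
    abel
  · obtain ⟨u, hu | hu⟩ := gg_mem col o Nr (n + 1) v hy i
    · exact ⟨u, by rw [← hu, inv_mul_cancel, hl.one]; exact Nat.zero_le _⟩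
    · exact ⟨u, by rw [← hu]; exact h3 _⟩
  · obtain ⟨m, rfl⟩ : ∃ m, n = m + 1 := ⟨n - 1, by omega⟩
    have h4 : bb col o (m + 2) (Finsupp.single v 1) = 0 := by
      refine sp_eq_zero (fun y hy => ?_) (bb_mem col o Nr _ v hv)
      have := Fintype.card_le_of_injective _ hy.2.injective
      simp only [Fintype.card_fin] at this
      omega
    simp only [LinearMap.sub_apply, LinearMap.comp_apply, LinearMap.id_apply]
    rw [bd_gg col o Nr hB h1 h2 (m + 1) v hv, h4]
    abel

end ANd
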