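import Pool.Agent.P.MP_5e7d86_al.BRp

/-! The Wang sequence step for the lower bound (MP_5e7d86_al). -/

set_option autoImplicit false
open Classical
open scoped commutatorElement

namespace ANd

namespace LBz

variable {P : Type} [Group P] {M : Type} [AddCommGroup M] [Module ℚ M]

/-- Restriction of a chain to the simplices satisfying `p`. -/
noncomputable def cut {n : ℕ} (p : (Fin n → P) → Prop) : Ch P M n →ₗ[ℚ] Ch P M n where
  toFun c := Finsupp.filter p c
  map_add' _ _ := Finsupp.filter_add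
  map_smul' _ _ := Finsupp.filter_smul

omit [Group P] in
theorem cut_apply {n : ℕ} (p : (Fin n → P) → Prop) (c : Ch P M n) :
    cut p c = Finsupp.filter p c := rfl

theorem act_single (rho : Representation ℚ P M) (n : ℕ) (g : P) (v : Fin n → P) (m : M) :
    act rho n g (Finsupp.single v m) = Finsupp.single (fun u => g * v u) (rho g m) := by
  simp [act, Finsupp.mapDomain_single]

theorem cut_act (rho : Representation ℚ P M) (n : ℕ) (g : P) (p q : (Fin n → P) → Prop)
    (h : ∀ v, q (fun u => g * v u) ↔ p v) (c : Ch P M n) :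
    cut q (act rho n g c) = act rho n g (cut p c) := by
  induction c using Finsupp.induction_linear with
  | zero => simp
  | add a b ha hb => simp only [map_add, ha, hb]
  | single v m =>
    rw [act_single, cut_apply, cut_apply]
    by_cases hv : p v
    · rw [Finsupp.filter_single_of_pos _ hv, Finsupp.filter_single_of_pos _ ((h v).2 hv),
        act_single]
    · rw [Finsupp.filter_single_of_neg _ hv,
        Finsupp.filter_single_of_neg _ (fun h' => hv ((h v).1 h')), map_zero]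

theorem gen_mem (rho : Representation ℚ P M) (Γ : Subgroup P) (n : ℕ) {g : P} (hg : g ∈ Γ)
    (c : Ch P M n) : act rho n g c - c ∈ JJ rho Γ n :=
  Submodule.subset_span ⟨g, hg, c, rfl⟩

theorem cut_mem (rho : Representation ℚ P M) (Γ : Subgroup P) (n : ℕ)
    (p : (Fin n → P) → Prop) (h : ∀ g ∈ Γ, ∀ v, p (fun u => g * v u) ↔ p v) (c : Ch P M n)
    (hc : c ∈ JJ rho Γ n) : cut p c ∈ JJ rho Γ n := by
  have : JJ rho Γ n ≤ (JJ rho Γ n).comap (cut p) := by
    refine Submodule.span_le.2 ?_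
    rintro y ⟨g, hg, d, rfl⟩
    simp only [SetLike.mem_coe, Submodule.mem_comap, map_sub]
    rw [cut_act rho n g p p (h g hg)]
    exact gen_mem rho Γ n hg _
  exact this hc

/-- A height function along the powers of `t`. -/
theorem exists_ht (Γ Γ' : Subgroup P) (t : P) (hle : Γ ≤ Γ') (ht : t ∈ Γ')
    (hn : ∀ x ∈ Γ, t * x * t⁻¹ ∈ Γ) (hgen : ∀ x ∈ Γ', ∃ n : ℤ, x * (t ^ n)⁻¹ ∈ Γ)
    (hinf : ∀ n : ℤ, t ^ n ∈ Γ → n = 0) :
    ∃ ht : P → ℤ, (∀ x, ht (t * x) = ht x + 1) ∧ ∀ g ∈ Γ, ∀ x, ht (g * x) = ht x := by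
  let r : P → P := fun x => (Quotient.mk (QuotientGroup.rightRel Γ') x).out
  have hr : ∀ x, x * (r x)⁻¹ ∈ Γ' := fun x => by
    have h1 : (QuotientGroup.rightRel Γ') (r x) x := Quotient.exact (Quotient.out_eq _)
    exact QuotientGroup.rightRel_apply.1 h1
  have hr' : ∀ g ∈ Γ', ∀ x, r (g * x) = r x := fun g hg x => by
    have h1 : Quotient.mk (QuotientGroup.rightRel Γ') (g * x) =
        Quotient.mk (QuotientGroup.rightRel Γ') x := by
      refine Quotient.sound (QuotientGroup.rightRel_apply.2 ?_)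
      have : x * (g * x)⁻¹ = g⁻¹ := by group
      rw [this]
      exact Γ'.inv_mem hg
    simp only [r, h1]
  have huniq : ∀ (y : P) (a b : ℤ), y * (t ^ a)⁻¹ ∈ Γ → y * (t ^ b)⁻¹ ∈ Γ → a = b := by
    intro y a b ha hb
    have h1 := Γ.mul_mem (Γ.inv_mem ha) hb
    have h2 : (y * (t ^ a)⁻¹)⁻¹ * (y * (t ^ b)⁻¹) = t ^ (a - b) := by group
    rw [h2] at h1
    have := hinf _ h1
    omega
  choose f hf using fun x => hgen _ (hr x)
  refine ⟨f, fun x => ?_, fun g hg x => ?_⟩
  · refine huniq _ _ _ (hf (t * x)) ?_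
    rw [hr' t ht]
    have h2 : t * x * (r x)⁻¹ * (t ^ (f x + 1))⁻¹ = t * (x * (r x)⁻¹ * (t ^ f x)⁻¹) * t⁻¹ := by
      group
    rw [h2]
    exact hn _ (hf x)
  · refine huniq _ _ _ (hf (g * x)) ?_
    rw [hr' g (hle hg)]
    have h2 : g * x * (r x)⁻¹ * (t ^ f x)⁻¹ = g * (x * (r x)⁻¹ * (t ^ f x)⁻¹) := by group
    rw [h2]
    exact Γ.mul_mem hg (hf x)

/-- `act t - 1` is injective modulo `JJ Γ` in every degree. -/
theorem key (rho : Representation ℚ P M) (Γ : Subgroup P) (t : P) (ht : P → ℤ)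
    (h1 : ∀ x, ht (t * x) = ht x + 1) (h2 : ∀ g ∈ Γ, ∀ x, ht (g * x) = ht x) (k : ℕ)
    (hT : ∀ c, c ∈ JJ rho Γ (k + 1) → act rho (k + 1) t c ∈ JJ rho Γ (k + 1))
    (c : Ch P M (k + 1)) (hc : act rho (k + 1) t c - c ∈ JJ rho Γ (k + 1)) :
    c ∈ JJ rho Γ (k + 1) := by
  let p : ℤ → (Fin (k + 1) → P) → Prop := fun h v => ht (v 0) ≤ h
  have hstep : ∀ h, cut (p h) c ∈ JJ rho Γ (k + 1) → cut (p (h + 1)) c ∈ JJ rho Γ (k + 1) := by
    intro h hh
    have h3 := cut_mem rho Γ (k + 1) (p (h + 1)) (fun g hg v => by simp only [p, h2 g hg]) _ hc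
    rw [map_sub, cut_act rho (k + 1) t (p h) (p (h + 1))
      (fun v => by simp only [p, h1]; omega)] at h3
    have h4 := Submodule.sub_mem _ (hT _ hh) h3
    simpa using h4
  obtain ⟨B, hB⟩ : ∃ B : ℕ, ∀ v ∈ c.support, |ht (v 0)| ≤ B := by
    refine ⟨c.support.sup fun v => (ht (v 0)).natAbs, fun v hv => ?_⟩
    have := Finset.le_sup (f := fun v : Fin (k + 1) → P => (ht (v 0)).natAbs) hv
    rw [Int.abs_eq_natAbs]
    exact_mod_cast this
  have hall : ∀ n : ℕ, cut (p (-(B : ℤ) - 1 + n)) c ∈ JJ rho Γ (k + 1) := by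
    intro n
    induction n with
    | zero =>
      have : cut (p (-(B : ℤ) - 1 + (0 : ℕ))) c = 0 := by
        rw [cut_apply, Finsupp.filter_eq_zero_iff]
        intro v hv
        by_contra hne
        have := abs_le.1 (hB v (Finsupp.mem_support_iff.2 hne))
        simp only [p] at hv
        omega
      rw [this]
      exact Submodule.zero_mem _
    | succ n ih =>
      have := hstep _ ih
      rw [show -(B : ℤ) - 1 + ((n + 1 : ℕ) : ℤ) = -(B : ℤ) - 1 + n + 1 by push_cast; ring]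
      exact this
  have h5 := hall (2 * B + 1)
  have h6 : cut (p (-(B : ℤ) - 1 + ((2 * B + 1 : ℕ) : ℤ))) c = c := by
    rw [cut_apply, Finsupp.filter_eq_self_iff]
    intro v hv
    have := abs_le.1 (hB v (Finsupp.mem_support_iff.2 hv))
    simp only [p]
    omega
  rwa [h6] at h5

/-- `JJ Γ'` is `JJ Γ` plus the image of `act t - 1`. -/
theorem split (rho : Representation ℚ P M) (Γ Γ' : Subgroup P) (t : P) (n : ℕ)
    (hmul : ∀ g h (c : Ch P M n), act rho n (g * h) c = act rho n g (act rho n h c))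
    (hone : ∀ c : Ch P M n, act rho n 1 c = c)
    (hgen : ∀ x ∈ Γ', ∃ m : ℤ, x * (t ^ m)⁻¹ ∈ Γ) (c : Ch P M n) (hc : c ∈ JJ rho Γ' n) :
    ∃ b, c - (act rho n t b - b) ∈ JJ rho Γ n := by
  have hpow : ∀ (m : ℤ) (d : Ch P M n), ∃ b, act rho n (t ^ m) d - d = act rho n t b - b := by
    intro m d
    induction m using Int.induction_on with
    | zero => exact ⟨0, by simp [hone]⟩
    | succ i ih =>
      obtain ⟨b, hb⟩ := ih
      refine ⟨b + act rho n (t ^ (i : ℤ)) d, ?_⟩
      rw [add_comm (i : ℤ) 1, zpow_add, zpow_one, hmul, map_add, add_sub_add_comm, ← hb]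
      abel
    | pred i ih =>
      obtain ⟨b, hb⟩ := ih
      refine ⟨b - act rho n (t ^ (-(i : ℤ) - 1)) d, ?_⟩
      have h1 : act rho n t (act rho n (t ^ (-(i : ℤ) - 1)) d) = act rho n (t ^ (-(i : ℤ))) d := by
        rw [← hmul]
        congr 2
        group
      rw [map_sub, h1, sub_sub_sub_comm, ← hb]
      abel
  refine Submodule.span_induction (p := fun c _ => ∃ b, c - (act rho n t b - b) ∈ JJ rho Γ n)
    ?_ ?_ ?_ ?_ hc
  · rintro y ⟨g, hg, d, rfl⟩
    obtain ⟨m, hm⟩ := hgen g hg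
    obtain ⟨b, hb⟩ := hpow m d
    refine ⟨b, ?_⟩
    have h1 := gen_mem rho Γ n hm (act rho n (t ^ m) d)
    rw [← hmul, inv_mul_cancel_right] at h1
    rw [← hb]
    simpa using h1
  · exact ⟨0, by simp⟩
  · rintro x y _ _ ⟨a, ha⟩ ⟨b, hb⟩
    refine ⟨a + b, ?_⟩
    have := Submodule.add_mem _ ha hb
    rw [map_add]
    convert this using 1
    abel
  · rintro a x _ ⟨b, hb⟩
    refine ⟨a • b, ?_⟩
    have := Submodule.smul_mem _ a hb
    rw [map_smul]
    convert this using 1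
    rw [smul_sub, smul_sub]

end LBz

open LBz in
theorem pLBz (hC : S_ChB) : S_LBz := by
  intro P _ chi A Γ Γ' j t hle hleA hcomm ht hgen hinf hVan ⟨z, hz⟩
  have hcm : ∀ g ∈ A, ∀ x ∈ Γ', ⁅g, x⁆ ∈ Γ := fun g hg x hx =>
    hcomm (Subgroup.commutator_mem_commutator hg hx)
  have hnorm : ∀ g ∈ A, ∀ x ∈ Γ, g * x * g⁻¹ ∈ Γ := by
    intro g hg x hx
    have h1 := Γ.mul_mem (hcm g hg x (hle hx)) hx
    rw [commutatorElement_def, inv_mul_cancel_right] at h1
    exact h1
  have htA : t ∈ A := hleA ht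
  obtain ⟨f, hf1, hf2⟩ := exists_ht Γ Γ' t hle ht (hnorm t htA) hgen hinf
  -- a cycle for the big group gives a cycle for the small one
  have hdel : ∀ (M : Type) [AddCommGroup M] [Module ℚ M] (rho : Representation ℚ P M) (k : ℕ)
      (c : Ch P M (k + 2)), bd P M (k + 1) c ∈ JJ rho Γ' (k + 1) →
      ∃ b, Cyc rho Γ k b ∧ bd P M (k + 1) c - (act rho (k + 1) t b - b) ∈ JJ rho Γ (k + 1) := by
    intro M _ _ rho k c hc
    obtain ⟨hbb, -, -, hrho⟩ := hC P M
    obtain ⟨hba, hmul, hone, hbJ, hact, -⟩ := hrho rho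
    obtain ⟨b, hb⟩ := split rho Γ Γ' t (k + 1) (hmul _) (hone _) hgen _ hc
    refine ⟨b, ?_, hb⟩
    rcases k with _ | k
    · exact Or.inl rfl
    · refine Or.inr ?_
      have h1 := hbJ Γ _ _ hb
      rw [map_sub, hbb, map_sub, hba] at h1
      refine key rho Γ t f hf1 hf2 k (fun c => hact Γ _ t c (hnorm t htA)) _ ?_
      have h2 := Submodule.neg_mem _ h1
      simpa using h2
  -- a chain whose boundary lies in the small submodule, above degree `j`
  have hfin : ∀ (M : Type) [AddCommGroup M] [Module ℚ M] (rho : Representation ℚ P M) (k : ℕ),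
      j < k + 1 → ∀ (c w : Ch P M (k + 2)),
      bd P M (k + 1) (c - (act rho (k + 2) t w - w)) ∈ JJ rho Γ (k + 1) →
      Bdy rho Γ' (k + 1) c := by
    intro M _ _ rho k hk c w hc
    obtain ⟨-, -, -, hrho⟩ := hC P M
    obtain ⟨-, -, -, -, -, hmono⟩ := hrho rho
    obtain ⟨y, hy⟩ := hVan M rho (k + 1) hk _ (Or.inr hc)
    refine ⟨y, ?_⟩
    have h1 := Submodule.add_mem _ (hmono Γ Γ' _ hle hy) (gen_mem rho Γ' (k + 2) ht w)
    convert h1 using 1
    abel
  constructor
  · intro M _ _ rho k hk c hc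
    obtain ⟨k, rfl⟩ : ∃ m, k = m + 1 := ⟨k - 1, by omega⟩
    have hc' : bd P M (k + 1) c ∈ JJ rho Γ' (k + 1) := hc.resolve_left (by omega)
    obtain ⟨b, hb1, hb2⟩ := hdel M rho k c hc'
    obtain ⟨u, hu⟩ := hVan M rho k (by omega) b hb1
    obtain ⟨-, -, -, hrho⟩ := hC P M
    obtain ⟨hba, -, -, -, hact, -⟩ := hrho rho
    refine hfin M rho k (by omega) c u ?_
    have h1 := Submodule.add_mem _ hb2
      (Submodule.sub_mem _ (hact Γ _ t _ (hnorm t htA) hu) hu)
    rw [map_sub, map_sub, hba]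
    rw [map_sub] at h1
    convert h1 using 1
    abel
  · obtain ⟨u, hu⟩ := hz.inv t htA
    obtain ⟨hbb, -, -, hrho⟩ := hC P ℚ
    obtain ⟨hba, hmul, hone, hbJ, hact, hmono⟩ := hrho (chr chi)
    refine ⟨u, ?_, ?_, ?_, ?_⟩
    · refine Or.inr ?_
      have h1 := Submodule.sub_mem _ (gen_mem (chr chi) Γ' (j + 1) ht z) (hmono Γ Γ' _ hle hu)
      simpa using h1
    · rintro ⟨w, hw⟩
      obtain ⟨b, hb⟩ := split (chr chi) Γ Γ' t (j + 2) (hmul _) (hone _) hgen _ hw
      have h1 := hbJ Γ _ _ hb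
      rw [map_sub, map_sub, hbb, map_sub, hba] at h1
      refine hz.ne ⟨b, key (chr chi) Γ t f hf1 hf2 j (fun c => hact Γ _ t c (hnorm t htA)) _ ?_⟩
      have h2 := Submodule.add_mem _ hu h1
      rw [map_sub]
      convert h2 using 1
      abel
    · intro c hc
      have hc' : bd P ℚ (j + 1) c ∈ JJ (chr chi) Γ' (j + 1) := hc.resolve_left (by omega)
      obtain ⟨b, hb1, hb2⟩ := hdel ℚ (chr chi) j c hc'
      obtain ⟨a, w, hw⟩ := hz.gen b hb1
      refine ⟨a, hfin ℚ (chr chi) j (by omega) _ w ?_⟩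
      have h1 := Submodule.add_mem _ (Submodule.add_mem _ hb2
        (Submodule.sub_mem _ (hact Γ _ t _ (hnorm t htA) hw) hw)) (Submodule.smul_mem _ a hu)
      rw [map_sub, map_sub, map_smul] at h1
      rw [map_sub, map_sub, map_sub, hba, map_smul]
      convert h1 using 1
      rw [smul_sub, smul_sub]
      abel
    · intro g hg
      obtain ⟨w, hw⟩ := hz.inv g hg
      refine hfin ℚ (chr chi) j (by omega) _ w ?_
      have h0 := gen_mem (chr chi) Γ (j + 1) (hcm g hg t ht)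
        (act (chr chi) (j + 1) t (act (chr chi) (j + 1) g z))
      have he : ⁅g, t⁆ * (t * g) = g * t := by rw [commutatorElement_def]; group
      rw [← hmul _ t g z, ← hmul, he, hmul, hmul] at h0
      have h1 := hact Γ _ g _ (hnorm g hg) hu
      have h2 := Submodule.sub_mem _ (hact Γ _ t _ (hnorm t htA) hw) hw
      have h3 := Submodule.add_mem _ (Submodule.add_mem _ (Submodule.sub_mem _ h0 h1) h2) hu
      rw [map_sub, map_sub, map_sub, map_sub] at h3
      rw [map_sub, map_sub, map_sub, hba, hba]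
      convert h3 using 1
      abel

end ANd
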