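import Pool.Agent.P.MP_5e7d86_al.BRp

/-! Package LCS: the lower central series of a subgroup. -/

set_option autoImplicit false
open Classical
open scoped commutatorElement

namespace ANd

namespace LCS

variable {G : Type} [Group G]

theorem three {A B C M : Subgroup G} [M.Normal] (h1 : ⁅⁅B, C⁆, A⁆ ≤ M) (h2 : ⁅⁅C, A⁆, B⁆ ≤ M) :
    ⁅⁅A, B⁆, C⁆ ≤ M := by
  have key : ∀ H : Subgroup G, H ≤ M ↔ H.map (QuotientGroup.mk' M) = ⊥ := fun H => by
    rw [Subgroup.map_eq_bot_iff, QuotientGroup.ker_mk']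
  rw [key] at h1 h2 ⊢
  simp only [Subgroup.map_commutator] at h1 h2 ⊢
  exact Subgroup.commutator_commutator_eq_bot_of_rotate h1 h2

theorem top_add (b : ℕ) : ∀ a, ⁅(⊤ : Subgroup G).lowerCentralSeries a,
    (⊤ : Subgroup G).lowerCentralSeries b⁆ ≤ (⊤ : Subgroup G).lowerCentralSeries (a + b + 1) := by
  induction b with
  | zero => exact fun a => le_rfl
  | succ b ih =>
    intro a
    rw [Subgroup.lowerCentralSeries_succ ⊤ b, Subgroup.commutator_comm]
    refine three ?_ ?_
    · rw [Subgroup.commutator_comm ⊤, ← Subgroup.lowerCentralSeries_succ,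
        show a + (b + 1) + 1 = a + 1 + b + 1 by omega]
      exact ih (a + 1)
    · exact Subgroup.commutator_mono (ih a) le_rfl

variable (E : Subgroup G)

theorem add (a b : ℕ) :
    ⁅E.lowerCentralSeries a, E.lowerCentralSeries b⁆ ≤ E.lowerCentralSeries (a + b + 1) := by
  simp only [← Subgroup.top_subtype_lowerCentralSeries E]
  rw [← Subgroup.map_commutator]
  exact Subgroup.map_mono (top_add b a)

theorem comm' (i : ℕ) {g x : G} (hg : g ∈ E) (hx : x ∈ E.lowerCentralSeries i) :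
    ⁅x, g⁆ ∈ E.lowerCentralSeries (i + 1) := Subgroup.commutator_mem_commutator hx hg

theorem mem : ∀ (i : ℕ) (v : Fin (i + 1) → G), (∀ u, v u ∈ E) → cm i v ∈ E.lowerCentralSeries i
  | 0, _, h => h 0
  | i + 1, _, h => lcs_comm E i (h 0) (mem i _ fun u => h u.succ)

theorem upd_zero (i : ℕ) (v : Fin (i + 2) → G) (y : G) :
    cm (i + 1) (Function.update v 0 y) = ⁅y, cm i fun u => v u.succ⁆ := by
  rw [cm_succ, Function.update_self]
  congr 2

theorem upd_succ (i : ℕ) (v : Fin (i + 2) → G) (u : Fin (i + 1)) (y : G) :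
    cm (i + 1) (Function.update v u.succ y) =
      ⁅v 0, cm i (Function.update (fun u => v u.succ) u y)⁆ := by
  rw [cm_succ, Function.update_of_ne (Fin.succ_ne_zero u).symm]
  congr 2
  funext w
  by_cases e : w = u
  · subst e
    rw [Function.update_self, Function.update_self]
  · rw [Function.update_of_ne e, Function.update_of_ne fun e' => e (Fin.succ_injective _ e')]

theorem upd_mem {i : ℕ} {v : Fin (i + 1) → G} (u : Fin (i + 1)) {y : G} (h : ∀ u, v u ∈ E)
    (hy : y ∈ E) (w : Fin (i + 1)) : Function.update v u y w ∈ E := by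
  by_cases e : w = u
  · subst e
    rwa [Function.update_self]
  · rw [Function.update_of_ne e]
    exact h w

theorem mulSlot : ∀ (i : ℕ) (v : Fin (i + 1) → G) (u : Fin (i + 1)) (y y' : G), (∀ u, v u ∈ E) →
    y ∈ E → y' ∈ E → (cm i (Function.update v u y) * cm i (Function.update v u y'))⁻¹ *
      cm i (Function.update v u (y * y')) ∈ E.lowerCentralSeries (i + 1)
  | 0, v, u, y, y', _, _, _ => by
    obtain rfl : u = 0 := Subsingleton.elim (α := Fin 1) _ _
    simp only [cm, Function.update_self, inv_mul_cancel]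
    exact one_mem _
  | i + 1, v, u, y, y', h, hy, hy' => by
    have ht : ∀ u : Fin (i + 1), v u.succ ∈ E := fun u => h u.succ
    refine Fin.cases ?_ (fun u => ?_) u
    · rw [upd_zero, upd_zero, upd_zero]
      have hw := mem E i _ ht
      generalize (cm i fun u => v u.succ) = w at hw
      have e : (⁅y, w⁆ * ⁅y', w⁆)⁻¹ * ⁅y * y', w⁆ = ⁅⁅y', w⁆⁻¹, ⁅y, w⁆⁻¹ * y⁆ := by
        simp only [commutatorElement_def]
        group
      rw [e]
      exact comm' E _ (mul_mem (inv_mem (lcs_le E _ (lcs_comm E i hy hw))) hy)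
        (inv_mem (lcs_comm E i hy' hw))
    · rw [upd_succ, upd_succ, upd_succ]
      have hz := mulSlot i _ u y y' ht hy hy'
      have hw := mem E i _ (upd_mem E u ht hy)
      have hw' := mem E i _ (upd_mem E u ht hy')
      generalize cm i (Function.update (fun u => v u.succ) u y) = w at hw hz
      generalize cm i (Function.update (fun u => v u.succ) u y') = w' at hw' hz
      generalize cm i (Function.update (fun u => v u.succ) u (y * y')) = w'' at hz
      have e : (⁅v 0, w⁆ * ⁅v 0, w'⁆)⁻¹ * ⁅v 0, w''⁆ =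
          ⁅⁅v 0, w'⁆⁻¹, w⁆ * (w * w' * ⁅v 0, (w * w')⁻¹ * w''⁆ * (w * w')⁻¹) := by
        simp only [commutatorElement_def]
        group
      rw [e]
      exact mul_mem (comm' E _ (lcs_le E _ hw) (inv_mem (lcs_comm E i (h 0) hw')))
        (lcs_conj E _ (lcs_le E _ (mul_mem hw hw')) (lcs_comm E _ (h 0) hz))

theorem deep : ∀ (i : ℕ) (v : Fin (i + 1) → G) (u : Fin (i + 1)) (y : G), (∀ u, v u ∈ E) →
    y ∈ E.lowerCentralSeries 1 → cm i (Function.update v u y) ∈ E.lowerCentralSeries (i + 1)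
  | 0, v, u, y, _, hy => by
    obtain rfl : u = 0 := Subsingleton.elim (α := Fin 1) _ _
    simpa only [cm, Function.update_self] using hy
  | i + 1, v, u, y, h, hy => by
    have ht : ∀ u : Fin (i + 1), v u.succ ∈ E := fun u => h u.succ
    refine Fin.cases ?_ (fun u => ?_) u
    · rw [upd_zero, show i + 1 + 1 = 1 + i + 1 by omega]
      exact add E 1 i (Subgroup.commutator_mem_commutator hy (mem E i _ ht))
    · rw [upd_succ]
      exact lcs_comm E _ (h 0) (deep i _ u y ht hy)

/-- the elements of `E` whose commutator with `a` lies in `M` -/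
def cz (M : Subgroup G) (hM : ∀ g ∈ E, ∀ m ∈ M, g * m * g⁻¹ ∈ M) (a : G) : Subgroup G where
  carrier := {w | w ∈ E ∧ ⁅a, w⁆ ∈ M}
  one_mem' := ⟨one_mem _, by rw [commutatorElement_one_right]; exact one_mem _⟩
  mul_mem' := by
    rintro b c ⟨hb, hb'⟩ ⟨hc, hc'⟩
    refine ⟨mul_mem hb hc, ?_⟩
    have e : ⁅a, b * c⁆ = ⁅a, b⁆ * (b * ⁅a, c⁆ * b⁻¹) := by
      simp only [commutatorElement_def]
      group
    rw [e]
    exact mul_mem hb' (hM _ hb _ hc')
  inv_mem' := by
    rintro b ⟨hb, hb'⟩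
    refine ⟨inv_mem hb, ?_⟩
    have e : ⁅a, b⁻¹⁆ = b⁻¹ * ⁅a, b⁆⁻¹ * b⁻¹⁻¹ := by
      simp only [commutatorElement_def]
      group
    rw [e]
    exact hM _ (inv_mem hb) _ (inv_mem hb')

theorem gen (X : Set G) (hE : E = Subgroup.closure X) (i : ℕ) : E.lowerCentralSeries i ≤
    Subgroup.closure {w | ∃ v : Fin (i + 1) → G, (∀ u, v u ∈ X) ∧ w = cm i v} ⊔
      E.lowerCentralSeries (i + 1) := by
  have hX : ∀ x ∈ X, x ∈ E := fun x hx => hE ▸ Subgroup.subset_closure hx
  induction i with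
  | zero =>
    refine le_sup_of_le_left ?_
    rw [Subgroup.lowerCentralSeries_zero, hE]
    exact Subgroup.closure_mono fun x hx => ⟨fun _ => x, fun _ => hx, rfl⟩
  | succ i ih =>
    set M := Subgroup.closure {w | ∃ v : Fin (i + 1 + 1) → G, (∀ u, v u ∈ X) ∧ w = cm (i + 1) v} ⊔
      E.lowerCentralSeries (i + 1 + 1) with hMd
    have hle : M ≤ E.lowerCentralSeries (i + 1) := by
      refine sup_le ((Subgroup.closure_le _).2 ?_) (E.lowerCentralSeries_antitone (by omega))
      rintro _ ⟨v, hv, rfl⟩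
      exact mem E _ v fun u => hX _ (hv u)
    have hM : ∀ g ∈ E, ∀ m ∈ M, g * m * g⁻¹ ∈ M := fun g hg m hm => by
      have e : g * m * g⁻¹ = ⁅g, m⁆ * m := by
        simp only [commutatorElement_def]
        group
      rw [e]
      exact mul_mem (Subgroup.mem_sup_right (lcs_comm E _ hg (hle hm))) hm
    have h1 : ∀ a ∈ X, E.lowerCentralSeries i ≤ cz E M hM a := fun a ha => by
      refine ih.trans (sup_le ((Subgroup.closure_le _).2 ?_) fun w hw => ?_)
      · rintro _ ⟨v, hv, rfl⟩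
        refine ⟨cm_mem E i v fun u => hX _ (hv u), Subgroup.mem_sup_left (Subgroup.subset_closure
          ⟨Fin.cons a v, fun u => Fin.cases ha (fun u => hv u) u, rfl⟩)⟩
      · exact ⟨lcs_le E _ hw, Subgroup.mem_sup_right (lcs_comm E _ (hX a ha) hw)⟩
    rw [Subgroup.lowerCentralSeries_succ E i, Subgroup.commutator_le]
    intro w hw a ha
    have h2 : Subgroup.closure X ≤ cz E M hM w := (Subgroup.closure_le _).2 fun x hx =>
      ⟨hX x hx, by rw [← commutatorElement_inv]; exact inv_mem (h1 x hx hw).2⟩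
    exact (h2 (hE ▸ ha)).2

/-- the directed union over the finitely generated subgroups -/
def du (i : ℕ) : Subgroup G where
  carrier := {x | ∃ X : Set G, X.Finite ∧ X ⊆ E ∧ x ∈ (Subgroup.closure X).lowerCentralSeries i}
  one_mem' := ⟨∅, Set.finite_empty, Set.empty_subset _, one_mem _⟩
  mul_mem' := by
    rintro x y ⟨X, h1, h2, h3⟩ ⟨Y, k1, k2, k3⟩
    exact ⟨X ∪ Y, h1.union k1, Set.union_subset h2 k2,
      mul_mem (lcs_mono (Subgroup.closure_mono Set.subset_union_left) i h3)
        (lcs_mono (Subgroup.closure_mono Set.subset_union_right) i k3)⟩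
  inv_mem' := by
    rintro x ⟨X, h1, h2, h3⟩
    exact ⟨X, h1, h2, inv_mem h3⟩

theorem le_du (i : ℕ) : E.lowerCentralSeries i ≤ du E i := by
  induction i with
  | zero =>
    exact fun x hx => ⟨{x}, Set.finite_singleton x, Set.singleton_subset_iff.2 hx,
      Subgroup.subset_closure rfl⟩
  | succ i ih =>
    rw [Subgroup.lowerCentralSeries_succ E i, Subgroup.commutator_le]
    intro w hw a ha
    obtain ⟨X, h1, h2, h3⟩ := ih hw
    exact ⟨insert a X, h1.insert a, Set.insert_subset ha h2,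
      comm' _ i (Subgroup.subset_closure (Set.mem_insert a X))
        (lcs_mono (Subgroup.closure_mono (Set.subset_insert a X)) i h3)⟩

/-- the product of `K` with a term of the series -/
def pd (K : Subgroup G) (hK : K ≤ E) (i : ℕ) : Subgroup G where
  carrier := {x | ∃ a ∈ K, a⁻¹ * x ∈ E.lowerCentralSeries i}
  one_mem' := ⟨1, one_mem _, by rw [inv_one, one_mul]; exact one_mem _⟩
  mul_mem' := by
    rintro x y ⟨a, ha, hx⟩ ⟨b, hb, hy⟩
    refine ⟨a * b, mul_mem ha hb, ?_⟩
    have e : (a * b)⁻¹ * (x * y) = b⁻¹ * (a⁻¹ * x) * b⁻¹⁻¹ * (b⁻¹ * y) := by group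
    rw [e]
    exact mul_mem (lcs_conj E i (inv_mem (hK hb)) hx) hy
  inv_mem' := by
    rintro x ⟨a, ha, hx⟩
    refine ⟨a⁻¹, inv_mem ha, ?_⟩
    have e : a⁻¹⁻¹ * x⁻¹ = a * (a⁻¹ * x)⁻¹ * a⁻¹ := by group
    rw [e]
    exact lcs_conj E i (hK ha) (inv_mem hx)

theorem le_pd (K : Subgroup G) (hK : K ≤ E) (i : ℕ) : K ⊔ E.lowerCentralSeries i ≤ pd E K hK i :=
  sup_le (fun x hx => ⟨x, hx, by rw [inv_mul_cancel]; exact one_mem _⟩)
    fun x hx => ⟨1, one_mem _, by rwa [inv_one, one_mul]⟩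

end LCS

theorem pLCS : S_LCS := fun _ _ E =>
  ⟨LCS.add E, LCS.mem E, LCS.mulSlot E, LCS.deep E, fun X i h => LCS.gen E X h i,
    fun i _ hx => LCS.le_du E i hx, fun K i hK _ hx => LCS.le_pd E K hK i hx⟩

end ANd
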