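import Pool.Agent.P.MP_5e7d86_al.BRp

/-! The lattice step. -/

set_option autoImplicit false
open Classical
open scoped commutatorElement

namespace ANd

namespace Lat

variable {G : Type} [Group G]

theorem conj_mem {A B D : Subgroup G} (hA : ⁅A, A⁆ ≤ B) (hB : B ≤ D) (hD : D ≤ A) {a x : G}
    (ha : a ∈ A) (hx : x ∈ D) : a * x * a⁻¹ ∈ D := by
  have := D.mul_mem (hB (hA (Subgroup.commutator_mem_commutator ha (hD hx)))) hx
  simpa [commutatorElement_def] using this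

/-- Splitting an element of a finite join of subgroups between `B` and `A`. -/
theorem split {I : Type} {A B : Subgroup G} (hA : ⁅A, A⁆ ≤ B) (hB : B ≤ A) (H : I → Subgroup G)
    (h2 : ∀ J, H J ≤ A) (P : ℕ → G → Prop) (n : ℕ) (h0 : ∀ x ∈ B, P 0 x)
    (h1 : ∀ J, ∀ x ∈ H J, P n x) (hm : ∀ a b x y, P a x → P b y → P (a + b) (x * y))
    (s : Finset I) : ∀ x ∈ (⨆ J ∈ s, H J) ⊔ B, P (s.card * n) x := by
  induction s using Finset.induction_on with
  | empty => simpa using h0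
  | insert J s hJ ih =>
    intro x hx
    have hD : (⨆ J ∈ s, H J) ⊔ B ≤ A := sup_le (iSup₂_le fun J _ => h2 J) hB
    rw [Finset.iSup_insert, sup_assoc, ← SetLike.mem_coe,
      Subgroup.coe_mul_of_left_le_normalizer_right _ _ fun a ha => ?_] at hx
    · obtain ⟨y, hy, z, hz, rfl⟩ := hx
      rw [Finset.card_insert_of_notMem hJ, Nat.succ_mul, add_comm]
      exact hm _ _ _ _ (h1 J y hy) (ih z hz)
    · rw [Subgroup.mem_normalizer_iff]
      refine fun y => ⟨conj_mem hA le_sup_right hD (h2 J ha), fun hy => ?_⟩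
      simpa [mul_assoc] using conj_mem hA le_sup_right hD (A.inv_mem (h2 J ha)) hy

/-- Elements that represent a formal sum supported in the window `k`. -/
def RS {ι : Type} {A B : Subgroup G} {c : (ι → ℤ) → G} {W : Set (ι → ℤ)} (S : Sec A B c W)
    (k : ℕ) : Subgroup G where
  carrier := {y | ∃ nu, Win k nu ∧ Rp B c W nu y}
  one_mem' := ⟨0, Win.zero k, Rp.zero⟩
  mul_mem' := fun ⟨_, h1, h2⟩ ⟨_, h3, h4⟩ => ⟨_, h1.add h3, h2.mul S h4⟩
  inv_mem' := fun ⟨_, h1, h2⟩ => ⟨_, h1.neg, h2.inv S⟩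

end Lat

theorem pLat (hL : S_LCS) (hG : S_GenA) (hW : S_WF) (hE : S_EL) (hP : S_Par) : S_Lat := by
  intro G _ S i
  obtain ⟨-, -, -, -, -, ⟨cx, hx⟩, cg, hg⟩ := hG G S
  have mem : ∀ J k K, 1 ≤ k → cx * k ≤ K → ∀ h, Sm k h → S.cJ i J h ∈ S.Γ K i :=
    fun J k K hk hK h hh => (hL G (S.E K)).2.1 i _ fun u =>
      S.B_sub_E K (S.B_mono hK (hx k hk _ _ fun a => hh (u, a)))
  have sec : ∀ J k K, cx * (k + 1) ≤ K →
      Sec (S.Γ K i) (S.Γ K (i + 1)) (S.cJ i J) {h | Sm k h} := fun J k K hK =>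
    ⟨S.Γ_anti K (Nat.le_succ i), S.Γ_comm K i,
      fun h hh => mem J (k + 1) K (by omega) hK h (Sm.mono hh (Nat.le_succ k))⟩
  choose CE hCE using fun J : Fin (i + 1) → Fin S.m =>
    hE G S.l S.len S.cc _ (S.cJ i J) S.N S.N S.r (((hW G Unit).2.2.2 S).2 i J) S.filt
      (fun k => S.Γ (cx * (k + 1)) i) (fun k => S.Γ (cx * (k + 1)) (i + 1))
      (fun a b hab => S.Γ_mono (Nat.mul_le_mul_left cx (Nat.succ_le_succ hab)) _)
      (fun k => sec J k _ le_rfl) [(0, true)] fun g => by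
        simpa [lfv, Setup.cJ] using cm_mem S.N i _ fun u => S.x_mem _ _
  obtain ⟨C1, h1, hC1⟩ : ∃ C1, 1 ≤ C1 ∧ ∀ J, CE J ≤ C1 :=
    ⟨Finset.univ.sup CE + 1, by omega,
      fun J => (Finset.le_sup (f := CE) (Finset.mem_univ J)).trans (Nat.le_succ _)⟩
  choose CP hCP using fun J : Fin (i + 1) → Fin S.m => hP G S i J C1
  obtain ⟨C2, hC2⟩ : ∃ C2, ∀ J, CP J ≤ C2 :=
    ⟨Finset.univ.sup CP, fun J => Finset.le_sup (f := CP) (Finset.mem_univ J)⟩
  obtain ⟨C, hC, hC', hC''⟩ : ∃ C, Fintype.card (Fin (i + 1) → Fin S.m) * C1 ≤ C ∧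
      cx * (C1 * (cg + 1) + 1) ≤ C ∧ C2 * (C1 * (cg + 1)) ≤ C :=
    ⟨_ + (_ + _), Nat.le_add_right _ _, (Nat.le_add_right _ _).trans (Nat.le_add_left _ _),
      (Nat.le_add_left _ _).trans (Nat.le_add_left _ _)⟩
  refine ⟨cx * C1, C, fun j hj x hxj => ?_⟩
  obtain ⟨k, hk⟩ : ∃ k, k = (cg + 1) * j := ⟨_, rfl⟩
  have k1 : 1 ≤ k := hk ▸ Nat.mul_pos (Nat.succ_pos _) hj
  have k2 : cg * j ≤ k := hk ▸ Nat.mul_le_mul_right j (Nat.le_succ _)
  have k3 : k ≤ C1 * k := Nat.le_mul_of_pos_left _ h1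
  have k4 : C1 ≤ C1 * k := Nat.le_mul_of_pos_right _ k1
  have k5 : cx * (C1 * k + 1) ≤ C * j := by
    refine le_trans ?_ (Nat.mul_le_mul_right j hC')
    rw [mul_assoc cx, hk, add_mul (C1 * (cg + 1)), mul_assoc C1]
    exact Nat.mul_le_mul_left _ (by omega)
  have k6 : C2 * (C1 * k) ≤ C * j := by
    refine le_trans (le_of_eq ?_) (Nat.mul_le_mul_right j hC'')
    rw [hk]; ring
  have k7 : cx * k ≤ C * j := (Nat.mul_le_mul_left cx (by omega)).trans k5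
  have k8 : cx * C1 ≤ C * j := (Nat.mul_le_mul_left cx (by omega)).trans k5
  have sc := fun J => sec J (C1 * k) (C * j) k5
  have hD : S.Γ (cx * C1) i ⊔ S.Γ (C * j) (i + 1) ≤ S.Γ (C * j) i :=
    sup_le (S.Γ_mono k8 i) (S.Γ_anti _ (Nat.le_succ i))
  have key := Lat.split (S.Γ_comm (C * j) i) (S.Γ_anti _ (Nat.le_succ i))
    (fun J => Lat.RS (sc J) k) (fun J y ⟨_, _, hy⟩ => hy.mem (sc J))
    (fun n y => ∃ L : List (Fin (i + 1) → G), L.length ≤ n ∧ (∀ v ∈ L, ∀ u, v u ∈ S.B (C * j)) ∧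
      ((L.map (cm i)).prod)⁻¹ * y ∈ S.Γ (cx * C1) i ⊔ S.Γ (C * j) (i + 1)) C1
    (fun y hy => ⟨[], le_rfl, by simp, by simpa using Subgroup.mem_sup_right hy⟩) ?_ ?_
    Finset.univ x ?_
  · obtain ⟨L, l1, l2, l3⟩ := key
    exact ⟨L, l1.trans hC, l2, l3⟩
  · rintro J y ⟨nu, hnu, hy⟩
    obtain ⟨sg, ph, e1, e2, e3⟩ := hCE J k k1 nu hnu
    have m1 : CE J * k ≤ C1 * k := Nat.mul_le_mul_right k (hC1 J)
    obtain ⟨L, l1, l2, l3⟩ := hCP J (C1 * k) (k1.trans k3) sg (e1.mono (hC1 J) m1)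
    have m2 : CP J * (C1 * k) ≤ C * j := (Nat.mul_le_mul_right _ (hC2 J)).trans k6
    obtain ⟨z, z1, z2⟩ := Rp.exists_rep (sc J) ph fun g hg =>
      Sm.mono (e2 g hg) ((hC1 J).trans k4)
    have z3 : z ∈ S.Γ (cx * C1) i := by
      refine (Subgroup.closure_le _).2 ?_ z1
      rintro _ ⟨g, hg, rfl⟩
      exact mem J C1 _ h1 le_rfl g (Sm.mono (e2 g hg) (hC1 J))
    have e4 := e3.mono (S.Γ_mono ((Nat.mul_le_mul_left cx (Nat.succ_le_succ m1)).trans k5) _)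
      (W' := {h | Sm (C1 * k) h}) fun h hh => Sm.mono hh m1
    have e5 := (((l3.mono (S.Γ_mono m2 _) le_rfl).mul (sc J) z2).mul (sc J) e4).cast (mu := nu)
      (by simp [lfc, tau_zero]) (mul_one _)
    refine ⟨L, l1, fun v hv u => S.B_mono m2 (l2 v hv u), ?_⟩
    have := Subgroup.mul_mem_sup z3 (e5.uniq (sc J) hy)
    simpa [mul_assoc] using this
  · rintro a b y y' ⟨L, l1, l2, l3⟩ ⟨L', l1', l2', l3'⟩
    refine ⟨L ++ L', by rw [List.length_append]; omega, fun v hv => ?_, ?_⟩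
    · exact (List.mem_append.1 hv).elim (l2 v) (l2' v)
    · have p : (L'.map (cm i)).prod ∈ S.Γ (C * j) i := Subgroup.list_prod_mem _ fun w hw => by
        obtain ⟨v, hv, rfl⟩ := List.mem_map.1 hw
        exact (hL G (S.E (C * j))).2.1 i v fun u => S.B_sub_E _ (l2' v hv u)
      have := Subgroup.mul_mem _
        (Lat.conj_mem (S.Γ_comm (C * j) i) le_sup_right hD (Subgroup.inv_mem _ p) l3) l3'
      simpa [mul_assoc] using this
  · set X : Set G := {g | ∃ j' q, Sm k q ∧ g = S.x j' q}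
    have a1 : S.E j ≤ Subgroup.closure X := by
      refine (Subgroup.closure_le _).2 fun g hg' => ?_
      obtain ⟨L, -, l2, rfl⟩ := hg j g hg'
      refine Subgroup.list_prod_mem _ fun w hw => ?_
      obtain ⟨p, hp, rfl⟩ := List.mem_map.1 hw
      have : S.x p.1 p.2.1 ∈ Subgroup.closure X :=
        Subgroup.subset_closure ⟨_, _, (l2 p hp).mono k2, rfl⟩
      split_ifs
      exacts [this, Subgroup.inv_mem _ this]
    have a2 : Subgroup.closure X ≤ S.E (C * j) := by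
      refine Subgroup.closure_mono ?_
      rintro _ ⟨j', q, hq, rfl⟩
      exact S.B_mono k7 (hx k k1 j' q hq)
    refine sup_le_sup ((Subgroup.closure_le _).2 ?_) (lcs_mono a2 (i + 1))
      ((hL G _).2.2.2.2.1 X i rfl (lcs_mono a1 i hxj))
    rintro _ ⟨v, hv, rfl⟩
    choose J q hq hv using hv
    refine (le_iSup₂ (f := fun J (_ : J ∈ Finset.univ) => Lat.RS (sc J) k) J (Finset.mem_univ J) :)
      ⟨tau fun p => q p.1 p.2, Win.tau fun p => hq p.1 p.2, ?_⟩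
    rw [show v = fun u => S.x (J u) (q u) from funext hv]
    exact Rp.tau (c := S.cJ i J) (h := fun p => q p.1 p.2) (Sm.mono (fun p => hq p.1 p.2) k3)

end ANd
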