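import Pool.Agent.P.MP_5e7d86_al.BRp

/-! The span of the logarithms is a Lie algebra, and its dimension is bounded by the rank. -/

set_option autoImplicit false
open Classical
open scoped commutatorElement

namespace ANd

namespace Lie1

section Lin
variable {A : Type} [AddCommGroup A] [Module ℝ A]

theorem lin_coeff (W : Submodule ℝ A) (w : ℕ → A) (y : A) (m : ℕ) (hm : 1 < m)
    (h : ∀ k : ℕ, ∑ j ∈ Finset.range m, (k : ℝ) ^ j • w j - y ∈ W) : w 1 ∈ W := by
  by_contra hw
  obtain ⟨f, hf, hW⟩ := W.exists_le_ker_of_notMem hw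
  have hp : (∑ j ∈ Finset.range m, Polynomial.monomial j (f (w j)) - Polynomial.C (f y) :
      Polynomial ℝ) = 0 := by
    refine Polynomial.eq_zero_of_infinite_isRoot _
      ((Set.infinite_range_of_injective (Nat.cast_injective (R := ℝ))).mono ?_)
    rintro _ ⟨k, rfl⟩
    have := hW (h k)
    rw [LinearMap.mem_ker, map_sub, map_sum] at this
    simp only [Set.mem_ofPred_eq, Polynomial.IsRoot.def, Polynomial.eval_sub,
      Polynomial.eval_finsetSum, Polynomial.eval_monomial, Polynomial.eval_C]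
    rw [← this]
    simp only [map_smul, smul_eq_mul, mul_comm]
  have := congrArg (fun p => Polynomial.coeff p 1) hp
  simp only [Polynomial.coeff_sub, Polynomial.finsetSum_coeff, Polynomial.coeff_monomial,
    Finset.sum_ite_eq', Finset.mem_range, hm, if_true, Polynomial.coeff_C, one_ne_zero, if_false,
    sub_zero, Polynomial.coeff_zero] at this
  exact hf this

theorem rank_le (S : Set A) : ∀ (s : ℕ) (W : Submodule ℝ A) [FiniteDimensional ℝ W],
    (∀ v : Fin (s + 1) → A, (∀ i, v i ∈ S) → ∃ c : Fin (s + 1) → ℝ, c ≠ 0 ∧ ∑ i, c i • v i ∈ W) →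
    ∃ W' : Submodule ℝ A, FiniteDimensional ℝ W' ∧ W ≤ W' ∧ S ⊆ W' ∧
      Module.finrank ℝ W' ≤ Module.finrank ℝ W + s := by
  intro s
  induction s with
  | zero =>
    intro W hW h
    refine ⟨W, hW, le_rfl, fun x hx => ?_, le_rfl⟩
    obtain ⟨c, hc, hs⟩ := h (fun _ => x) fun _ => hx
    rw [Fin.sum_univ_succ, Fin.sum_univ_zero, add_zero] at hs
    refine (W.smul_mem_iff fun e => hc ?_).1 hs
    funext i
    rw [Subsingleton.elim (α := Fin 1) i 0]
    exact e
  | succ s ih =>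
    intro W hW h
    by_cases hS : S ⊆ W
    · exact ⟨W, hW, le_rfl, hS, Nat.le_add_right _ _⟩
    obtain ⟨x, hx, hxW⟩ := Set.not_subset.1 hS
    obtain ⟨W', k1, k2, k3, k4⟩ := ih (W ⊔ Submodule.span ℝ {x}) fun v hv => by
      obtain ⟨c, hc, hs⟩ := h (Fin.cons x v) (Fin.cases hx hv)
      rw [Fin.sum_univ_succ] at hs
      simp only [Fin.cons_zero, Fin.cons_succ] at hs
      refine ⟨fun i => c i.succ, fun e => ?_, ?_⟩
      · have e' : ∀ i : Fin (s + 1), c i.succ = 0 := congrFun e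
        simp only [e', zero_smul, Finset.sum_const_zero, add_zero] at hs
        exact hxW ((W.smul_mem_iff fun e0 => hc (funext (Fin.cases e0 e'))).1 hs)
      · have := Submodule.sub_mem _ (Submodule.mem_sup_left hs (T := Submodule.span ℝ {x}))
          (Submodule.mem_sup_right (Submodule.smul_mem _ (c 0) (Submodule.mem_span_singleton_self x)))
        rwa [add_sub_cancel_left] at this
    refine ⟨W', k1, le_sup_left.trans k2, k3, k4.trans ?_⟩
    have e1 := Submodule.finrank_add_le_finrank_add_finrank W (Submodule.span ℝ {x})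
    have e2 : Module.finrank ℝ (Submodule.span ℝ {x}) = 1 :=
      finrank_span_singleton fun e => hxW (e ▸ W.zero_mem)
    omega

end Lin

section Alg
variable {A : Type} [Ring A] [Algebra ℝ A]

theorem iter_smul (t : ℝ) (X y : A) (j : ℕ) : (br (t • X))^[j] y = t ^ j • (br X)^[j] y := by
  induction j with
  | zero => simp
  | succ j ih =>
    rw [Function.iterate_succ_apply', Function.iterate_succ_apply', ih, br_smul_left,
      br_smul_right, smul_smul, pow_succ']

theorem br_span {S T : Set A} {W : Submodule ℝ A} (h : ∀ x ∈ S, ∀ y ∈ T, br x y ∈ W) :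
    ∀ x ∈ Submodule.span ℝ S, ∀ y ∈ Submodule.span ℝ T, br x y ∈ W := by
  intro x hx y hy
  induction hx using Submodule.span_induction with
  | mem x hx =>
    induction hy using Submodule.span_induction with
    | mem y hy => exact h x hx y hy
    | zero => simp
    | add a b _ _ ha hb => rw [br_add_right]; exact W.add_mem ha hb
    | smul t a _ ha => rw [br_smul_right]; exact W.smul_mem t ha
  | zero => simp
  | add a b _ _ ha hb => rw [br_add_left]; exact W.add_mem ha hb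
  | smul t a _ ha => rw [br_smul_left]; exact W.smul_mem t ha

theorem key (hE : S_ExpLog) (D : NilD A) (W : Submodule ℝ A) {u : Aˣ} (hu : D.Uni u) {y : A}
    (hy : y ∈ D.U) (h : ∀ k : ℕ, Ad (u ^ k) y - y ∈ W) : br (D.LL u) y ∈ W := by
  obtain ⟨-, -, -, ⟨h1, hm, -⟩, hz, -, -, hA, -⟩ := hE A D
  rcases Nat.eq_zero_or_pos D.n with h0 | h0
  · have e : (1 : A) = 0 := D.nil [] h0.symm (by simp)
    rw [← one_mul (br _ _), e, zero_mul]
    exact W.zero_mem
  have hk : ∀ k : ℕ, D.Uni (u ^ k) := fun k => by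
    induction k with
    | zero => rwa [pow_zero]
    | succ k ih => rw [pow_succ]; exact hm _ _ ih hu
  have := lin_coeff W (fun j => ((j.factorial : ℝ)⁻¹) • (br (D.LL u))^[j] y) y (D.n + 1)
    (by omega) fun k => by
      have e := h k
      rw [hA _ (hk k) y hy, ← zpow_natCast, hz u hu] at e
      simpa only [iter_smul, Int.cast_natCast, smul_comm (_ : ℝ)⁻¹] using e
  simpa using this

end Alg

variable {G : Type} [Group G] {A : Type} [Ring A] [Algebra ℝ A] {N : Subgroup G}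

theorem L_mem_U (hE : S_ExpLog) (R : LData G A N) {x : G} (hx : x ∈ N) : R.L x ∈ R.D.U :=
  ((hE A R.D).2.1 _ (R.uni x hx)).2

theorem L_conj (hE : S_ExpLog) (R : LData G A N) (g x : G) :
    Ad (R.psi g) (R.L x) = R.L (g * x * g⁻¹) := by
  rw [LData.L, LData.L, map_mul, map_mul, map_inv, (hE A R.D).2.2.2.2.2.1]

theorem L_zpow (hE : S_ExpLog) (R : LData G A N) {x : G} (hx : x ∈ N) (z : ℤ) :
    R.L (x ^ z) = (z : ℝ) • R.L x := by
  rw [LData.L, LData.L, map_zpow, (hE A R.D).2.2.2.2.1 _ (R.uni x hx)]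

theorem L_mem (R : LData G A N) {Γ : Subgroup G} {x : G} (hx : x ∈ Γ) : R.L x ∈ R.VS Γ :=
  Submodule.subset_span ⟨x, hx, rfl⟩

theorem br_L (hE : S_ExpLog) (R : LData G A N) (W : Submodule ℝ A) {x y : G} (hx : x ∈ N)
    (hy : y ∈ N) (h : ∀ g ∈ N, R.L (g * y * g⁻¹) - R.L y ∈ W) : br (R.L x) (R.L y) ∈ W :=
  key hE R.D W (R.uni x hx) (L_mem_U hE R hy) fun k => by
    rw [← map_pow, L_conj hE]
    exact h _ (N.pow_mem hx k)

theorem ideal (hE : S_ExpLog) (R : LData G A N) {Γ : Subgroup G} (hΓ : Γ ≤ N)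
    (h : ∀ g ∈ N, ∀ y ∈ Γ, g * y * g⁻¹ ∈ Γ) : ∀ x ∈ R.V, ∀ y ∈ R.VS Γ, br x y ∈ R.VS Γ := by
  refine br_span ?_
  rintro _ ⟨x, hx, rfl⟩ _ ⟨y, hy, rfl⟩
  exact br_L hE R _ hx (hΓ hy) fun g hg => sub_mem (L_mem R (h g hg y hy)) (L_mem R hy)

theorem lieSub (hE : S_ExpLog) (R : LData G A N) : R.D.LieSub R.V :=
  ⟨Submodule.span_le.2 (by rintro _ ⟨x, hx, rfl⟩; exact L_mem_U hE R hx),
    ideal hE R le_rfl fun _ hg _ hy => N.mul_mem (N.mul_mem hg hy) (N.inv_mem hg)⟩

theorem Ad_mem (hE : S_ExpLog) (R : LData G A N) (hN : N.Normal) (g : G) :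
    ∀ y ∈ R.V, Ad (R.psi g) y ∈ R.V := by
  intro y hy
  induction hy using Submodule.span_induction with
  | mem y hy =>
    obtain ⟨x, hx, rfl⟩ := hy
    rw [L_conj hE]
    exact R.L_mem_V (hN.conj_mem x hx g)
  | zero => rw [Ad_zero]; exact zero_mem _
  | add a b _ _ ha hb => rw [Ad_add]; exact add_mem ha hb
  | smul t a _ ha => rw [Ad_smul]; exact Submodule.smul_mem _ t ha

theorem L_mul (hE : S_ExpLog) (hB : S_B1) (R : LData G A N) {Γ' Γ : Subgroup G}
    (h : Lay N Γ' Γ) {x y : G} (hx : x ∈ N) (hy : y ∈ Γ') :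
    R.L (x * y) - R.L x - R.L y ∈ R.VS Γ := by
  have hc : ∀ g ∈ N, ∀ y ∈ Γ', ⁅g, y⁆ ∈ Γ := fun g hg y hy =>
    h.cen (Subgroup.commutator_mem_commutator hg hy)
  have he : ∀ g y : G, g * y * g⁻¹ = ⁅g, y⁆ * y := fun g y => by
    rw [commutatorElement_def]; group
  have hI := ideal hE R (h.le.trans h.leN) fun g hg y hy => by
    rw [he]; exact Γ.mul_mem (hc g hg y (h.le hy)) hy
  have hB' : ∀ x ∈ N, ∀ y ∈ N, br (R.L x) (R.L y) ∈ R.VS Γ →
      R.L (x * y) - R.L x - R.L y ∈ R.VS Γ := fun x hx y hy hb => by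
    have := (hB A R.D R.V (lieSub hE R)).2.1 _ hI _ (R.psi_mem_Ex hx) _ (R.psi_mem_Ex hy) hb
    rwa [← map_mul] at this
  refine hB' x hx y (h.leN hy) (br_L hE R _ hx (h.leN hy) fun g hg => ?_)
  have k := hc g hg y hy
  have := add_mem (hB' _ (h.leN (h.le k)) y (h.leN hy) (by
    rw [br_swap]; exact neg_mem (hI _ (R.L_mem_V (h.leN hy)) _ (L_mem R k)))) (L_mem R k)
  rw [he]
  convert this using 1
  abel

theorem L_prod (hE : S_ExpLog) (hB : S_B1) (R : LData G A N) {Γ' Γ : Subgroup G}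
    (h : Lay N Γ' Γ) (l : List G) (hl : ∀ x ∈ l, x ∈ Γ') :
    R.L l.prod - (l.map R.L).sum ∈ R.VS Γ := by
  induction l with
  | nil => simp [R.L_one]
  | cons a l ih =>
    have h1 : ∀ x ∈ l, x ∈ Γ' := fun x hx => hl x (List.mem_cons_of_mem _ hx)
    have := add_mem (L_mul hE hB R h (h.leN (hl a List.mem_cons_self)) (Γ'.list_prod_mem h1))
      (ih h1)
    rw [List.prod_cons, List.map_cons, List.sum_cons]
    convert this using 1
    abel

theorem dim (hE : S_ExpLog) (hB : S_B1) (R : LData G A N) {Γ : Subgroup G} {r : ℕ}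
    (h : FiltR N Γ r) : FiniteDimensional ℝ (R.VS Γ) ∧ Module.finrank ℝ (R.VS Γ) ≤ r := by
  induction h with
  | bot =>
    have e : R.VS ⊥ = ⊥ := by
      rw [LData.VS, Submodule.span_eq_bot]
      rintro _ ⟨x, hx, rfl⟩
      rw [Subgroup.mem_bot.1 hx, R.L_one]
    rw [e]
    exact ⟨inferInstance, (finrank_bot ℝ A).le⟩
  | pt Γ Γ' r _ hL hP ih =>
    obtain ⟨p, hp, hP⟩ := hP
    have e : R.VS Γ' ≤ R.VS Γ := Submodule.span_le.2 (by
      rintro _ ⟨x, hx, rfl⟩
      have := L_mem R (hP x hx)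
      rw [← zpow_natCast, L_zpow hE R (hL.leN hx)] at this
      exact (Submodule.smul_mem_iff _ (by exact_mod_cast hp.ne_zero)).1 this)
    have := ih.1
    exact ⟨Submodule.finiteDimensional_of_le e, (Submodule.finrank_mono e).trans ih.2⟩
  | tf Γ Γ' r s _ hL _ _ hD ih =>
    have := ih.1
    obtain ⟨W, k1, -, k3, k4⟩ := rank_le (R.L '' (Γ' : Set G)) s (R.VS Γ) fun v hv => by
      choose x hx hv using hv
      obtain ⟨n, hn, hp⟩ := hD x hx
      refine ⟨fun i => n i, fun e => hn (funext fun i => Int.cast_eq_zero.1 (congrFun e i)), ?_⟩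
      have := sub_mem (L_mem R hp) (L_prod hE hB R hL (List.ofFn fun i => x i ^ n i) (by
        rw [List.forall_mem_ofFn_iff]; exact fun i => Γ'.zpow_mem (hx i) _))
      rw [sub_sub_cancel, List.map_ofFn, List.sum_ofFn] at this
      convert this using 2 with i
      rw [Function.comp, L_zpow hE R (hL.leN (hx i)), hv]
    have e : R.VS Γ' ≤ W := Submodule.span_le.2 k3
    exact ⟨Submodule.finiteDimensional_of_le e,
      (Submodule.finrank_mono e).trans (k4.trans (Nat.add_le_add_right ih.2 s))⟩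

end Lie1

open Lie1 in
theorem pLie1 (hE : S_ExpLog) (hB : S_B1) : S_Lie1 := by
  intro G _ A _ _ N R hN
  refine ⟨lieSub hE R, fun g y hy => ⟨Ad_mem hE R hN g y hy, ?_⟩, fun x _ => ?_,
    fun Γ r h => dim hE hB R h⟩
  · rw [← map_inv]; exact Ad_mem hE R hN _ y hy
  · rw [LData.L, NilD.LL, lg]
    refine R.AQ.sum_mem fun j _ => ?_
    have := R.AQq ((-1) ^ j / (j + 1)) _ (pow_mem (sub_mem (R.psiQ x) (one_mem _)) (j + 1))
    exact_mod_cast this

end ANd
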