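import Pool.Agent.P.MP_5e7d86_al.BRp

/-! The lower central series of the group and of its Lie algebra. -/

set_option autoImplicit false
set_option linter.unusedSectionVars false
open Classical
open scoped commutatorElement

namespace ANd

namespace Lie3

section Alg
variable {A : Type} [Ring A] [Algebra ℝ A]

theorem br_span {Y : Set A} {i : ℕ} {x w : A} (hx : x ∈ Submodule.span ℝ Y)
    (hw : w ∈ Submodule.span ℝ (TE Y i)) : br x w ∈ Submodule.span ℝ (TE Y (i + 1)) := by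
  induction hx using Submodule.span_induction with
  | mem x hx =>
    induction hw using Submodule.span_induction with
    | mem w hw => exact Submodule.subset_span (br_mem_TE hx hw)
    | zero => simp
    | add a b _ _ h1 h2 => rw [br_add_right]; exact Submodule.add_mem _ h1 h2
    | smul t a _ h1 => rw [br_smul_right]; exact Submodule.smul_mem _ t h1
  | zero => simp
  | add a b _ _ h1 h2 => rw [br_add_left]; exact Submodule.add_mem _ h1 h2
  | smul t a _ h1 => rw [br_smul_left]; exact Submodule.smul_mem _ t h1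

theorem nest_span {Y : Set A} : ∀ (i : ℕ) (v : Fin (i + 1) → A),
    (∀ u, v u ∈ Submodule.span ℝ Y) → nest i v ∈ Submodule.span ℝ (TE Y i)
  | 0, v, h => by rw [TE_zero]; exact h 0
  | i + 1, v, h => by
    rw [nest_succ]
    exact br_span (h 0) (nest_span i _ fun u => h u.succ)

theorem span_TE {Y : Set A} {V : Submodule ℝ A} (hY : Submodule.span ℝ Y = V) (i : ℕ) :
    Submodule.span ℝ (TE Y i) = Submodule.span ℝ (TE (V : Set A) i) := by
  apply le_antisymm
  · refine Submodule.span_mono (TE_mono ?_ i)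
    rw [← hY]; exact Submodule.subset_span
  · refine Submodule.span_le.2 ?_
    rintro w ⟨v, hv, rfl⟩
    exact nest_span i v fun u => by rw [hY]; exact hv u

theorem span_TG {Y : Set A} {V : Submodule ℝ A} (hY : Submodule.span ℝ Y = V) (i : ℕ) :
    Submodule.span ℝ (TG Y i) = Submodule.span ℝ (TG (V : Set A) i) := by
  apply le_antisymm
  · refine Submodule.span_mono (TG_mono ?_ i)
    rw [← hY]; exact Submodule.subset_span
  · refine Submodule.span_le.2 ?_
    rintro w ⟨j, hj, hw⟩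
    have h1 : w ∈ Submodule.span ℝ (TE Y j) := by
      rw [span_TE hY]; exact Submodule.subset_span hw
    refine Submodule.span_mono ?_ h1
    intro z hz
    exact ⟨j, hj, hz⟩

end Alg

section Grp
variable {G : Type} [Group G] {A : Type} [Ring A] [Algebra ℝ A] {N : Subgroup G}
  (R : LData G A N)

theorem VG_le (hV : R.D.LieSub R.V) (i : ℕ) : R.VG i ≤ R.V :=
  Submodule.span_le.2 (TG_sub R.V hV.br le_rfl i)

theorem br_VG (i : ℕ) {x y : A} (hx : x ∈ R.V) (hy : y ∈ R.VG i) : br x y ∈ R.VG (i + 1) := by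
  induction hy using Submodule.span_induction with
  | mem w hw => exact Submodule.subset_span (br_mem_TG hx hw)
  | zero => simp
  | add a b _ _ h1 h2 => rw [br_add_right]; exact Submodule.add_mem _ h1 h2
  | smul t a _ h1 => rw [br_smul_right]; exact Submodule.smul_mem _ t h1

theorem VG_succ (i : ℕ) : R.VG (i + 1) ≤ R.VG i :=
  Submodule.span_mono (TG_anti _ (Nat.le_succ i))

theorem br_VG' (i : ℕ) {x y : A} (hx : x ∈ R.VG i) (hy : y ∈ R.V) : br x y ∈ R.VG (i + 1) := by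
  rw [br_swap]; exact Submodule.neg_mem _ (br_VG R i hy hx)

theorem ideal (i : ℕ) : ∀ x ∈ R.V, ∀ y ∈ R.VG i, br x y ∈ R.VG i :=
  fun _ hx _ hy => VG_succ R i (br_VG R i hx hy)

theorem VG_eq (i : ℕ) : Submodule.span ℝ (TE (R.V : Set A) i) ⊔ R.VG (i + 1) = R.VG i := by
  unfold LData.VG
  rw [TG_eq (R.V : Set A) i, Submodule.span_union]

theorem V_le_VG : R.V ≤ R.VG 0 := fun _ hx => Submodule.subset_span (sub_TG _ hx)

theorem lieSub (hV : R.D.LieSub R.V) (i : ℕ) : R.D.LieSub (R.VG i) :=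
  ⟨(VG_le R hV i).trans hV.le, fun x hx y hy => ideal R i x (VG_le R hV i hx) y hy⟩

theorem iter (i : ℕ) {x : A} (hx : x ∈ R.V) : ∀ (j : ℕ) {y : A}, y ∈ R.VG i →
    (br x)^[j] y ∈ R.VG i
  | 0, _, hy => hy
  | j + 1, _, hy => by
    rw [Function.iterate_succ_apply']
    exact ideal R i x hx _ (iter i hx j hy)

variable (hE : S_ExpLog) (hB : S_B1) (hV : R.D.LieSub R.V)
include hE

theorem L_zpow {x : G} (hx : x ∈ N) (z : ℤ) : R.L (x ^ z) = (z : ℝ) • R.L x := by
  unfold LData.L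
  rw [map_zpow]
  exact (hE A R.D).2.2.2.2.1 _ (R.uni x hx) z

theorem L_pow {x : G} (hx : x ∈ N) (k : ℕ) : R.L (x ^ k) = (k : ℝ) • R.L x := by
  have := L_zpow R hE hx k
  simpa using this

theorem L_inv {x : G} (hx : x ∈ N) : R.L x⁻¹ = -R.L x := by
  have := L_zpow R hE hx (-1)
  simpa using this

theorem L_conj (g x : G) : R.L (g * x * g⁻¹) = Ad (R.psi g) (R.L x) := by
  unfold LData.L
  rw [map_mul, map_mul, map_inv]
  exact (hE A R.D).2.2.2.2.2.1 _ _

include hV in
/-- Second order expansion of `Ad`. -/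
theorem Ad_two (i : ℕ) {a : G} (ha : a ∈ N) {y : A} (hy : y ∈ R.VG i) :
    Ad (R.psi a) y - y - br (R.L a) y ∈ R.VG (i + 2) := by
  have hA := R.L_mem_V ha
  rcases Nat.eq_zero_or_pos R.D.n with h0 | hp
  · have h1 : (1 : A) = 0 := by simpa using R.D.nil [] (by simp [h0]) (by simp)
    have : Subsingleton A := subsingleton_of_zero_eq_one h1.symm
    rw [Subsingleton.elim (Ad (R.psi a) y - y - br (R.L a) y) 0]
    exact Submodule.zero_mem _
  · obtain ⟨m, hm⟩ : ∃ m, R.D.n = m + 1 := ⟨R.D.n - 1, by omega⟩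
    have h1 := (hE A R.D).2.2.2.2.2.2.2.1 _ (R.uni a ha) y (hV.le (VG_le R hV i hy))
    rw [h1, hm, Finset.sum_range_succ', Finset.sum_range_succ']
    have e : ∀ S : A, S + (((0 + 1).factorial : ℝ)⁻¹) • (br (R.D.LL (R.psi a)))^[0 + 1] y +
        (((0 : ℕ).factorial : ℝ)⁻¹) • (br (R.D.LL (R.psi a)))^[0] y - y - br (R.L a) y = S := by
      intro S
      simp [LData.L]
    rw [e]
    refine Submodule.sum_mem _ fun j _ => Submodule.smul_mem _ _ ?_
    rw [Function.iterate_succ_apply, Function.iterate_succ_apply]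
    exact iter R (i + 2) hA j (br_VG R (i + 1) hA (br_VG R i hA hy))

include hV in
theorem Ad_one' (i : ℕ) {a : G} (ha : a ∈ N) {y : A} (hy : y ∈ R.VG i) :
    Ad (R.psi a) y - y ∈ R.VG (i + 1) := by
  have h1 := VG_succ R (i + 1) (Ad_two R hE hV i ha hy)
  have h2 := br_VG R i (R.L_mem_V ha) hy
  have := Submodule.add_mem _ h1 h2
  simpa using this

omit hE in
include hB hV in
theorem L_mul (k : ℕ) {x y : G} (hx : x ∈ N) (hy : y ∈ N) (h : br (R.L x) (R.L y) ∈ R.VG k) :
    R.L (x * y) - R.L x - R.L y ∈ R.VG k := by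
  unfold LData.L
  rw [map_mul]
  exact (hB A R.D R.V hV).2.1 (R.VG k) (ideal R k) _ (R.psi_mem_Ex hx) _ (R.psi_mem_Ex hy) h

include hB hV in
/-- The logarithm of a commutator. -/
theorem L_comm (hN : N.Normal) (i : ℕ) {a c : G} (ha : a ∈ N) (hc : c ∈ N)
    (h : R.L c ∈ R.VG i) : R.L ⁅a, c⁆ - br (R.L a) (R.L c) ∈ R.VG (i + 2) := by
  have h1 := Ad_two R hE hV i ha h
  have h2 := Ad_one' R hE hV i ha h
  have h3 : br (R.L (a * c * a⁻¹)) (R.L c⁻¹) ∈ R.VG (i + 2) := by
    rw [L_conj R hE, L_inv R hE hc, br_neg_right]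
    refine Submodule.neg_mem _ ?_
    have := br_VG' R (i + 1) h2 (R.L_mem_V hc)
    rw [br_sub_left, br_self, sub_zero] at this
    exact this
  have h4 := L_mul R hB hV (i + 2) (hN.conj_mem c hc a) (N.inv_mem hc) h3
  rw [L_conj R hE, L_inv R hE hc] at h4
  have h5 := Submodule.add_mem _ h4 h1
  rw [commutatorElement_def]
  convert h5 using 1
  abel

include hB hV in
theorem L_lcs (hN : N.Normal) : ∀ (i : ℕ), ∀ x ∈ N.lowerCentralSeries i, R.L x ∈ R.VG i
  | 0, x, hx => V_le_VG R (R.L_mem_V hx)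
  | i + 1, x, hx => by
    obtain ⟨K, hK⟩ := (hB A R.D (R.VG (i + 1)) (lieSub R hV (i + 1))).1
    have hle : N.lowerCentralSeries (i + 1) ≤ K.comap R.psi := by
      rw [Subgroup.lowerCentralSeries_succ, Subgroup.commutator_comm, Subgroup.commutator_le]
      intro a ha c hc
      have hcN : c ∈ N := lcs_le N i hc
      have hc' := L_lcs hN i c hc
      have h1 := VG_succ R (i + 1) (L_comm R hE hB hV hN i ha hcN hc')
      have h2 := br_VG R i (R.L_mem_V ha) hc'
      have h3 := Submodule.add_mem _ h1 h2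
      rw [sub_add_cancel] at h3
      have h4 : ⁅a, c⁆ ∈ N := by
        rw [commutatorElement_def]
        exact N.mul_mem (hN.conj_mem c hcN a) (N.inv_mem hcN)
      rw [Subgroup.mem_comap, ← SetLike.mem_coe, hK]
      exact ⟨R.uni _ h4, h3⟩
    have := hle hx
    rw [Subgroup.mem_comap, ← SetLike.mem_coe, hK] at this
    exact this.2

include hB hV in
theorem L_mul_lcs (hN : N.Normal) (i : ℕ) {x y : G} (hx : x ∈ N)
    (hy : y ∈ N.lowerCentralSeries i) : R.L (x * y) - R.L x - R.L y ∈ R.VG (i + 1) :=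
  L_mul R hB hV (i + 1) hx (lcs_le N i hy) (br_VG R i (R.L_mem_V hx) (L_lcs R hE hB hV hN i y hy))

omit hE in
theorem cm_lcs : ∀ (i : ℕ) (v : Fin (i + 1) → G), (∀ u, v u ∈ N) →
    cm i v ∈ N.lowerCentralSeries i
  | 0, _, h => h 0
  | i + 1, v, h => by
    rw [cm_succ]
    exact lcs_comm N i (h 0) (cm_lcs i _ fun u => h u.succ)

include hB hV in
theorem L_cm (hN : N.Normal) : ∀ (i : ℕ) (v : Fin (i + 1) → G), (∀ u, v u ∈ N) →
    R.L (cm i v) - nest i (fun u => R.L (v u)) ∈ R.VG (i + 1)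
  | 0, v, _ => by simp [cm_zero]
  | i + 1, v, h => by
    have hc := cm_lcs i (fun u => v u.succ) fun u => h u.succ
    have h1 := L_comm R hE hB hV hN i (h 0) (lcs_le N i hc) (L_lcs R hE hB hV hN i _ hc)
    have h2 := br_VG R (i + 1) (R.L_mem_V (h 0)) (L_cm hN i (fun u => v u.succ) fun u => h u.succ)
    have h3 := Submodule.add_mem _ h1 h2
    rw [cm_succ, nest_succ]
    convert h3 using 1
    rw [br_sub_right]
    abel

omit hE in
include hV in
theorem VG_bot (hBr : S_Br) {i : ℕ} (hi : R.D.n ≤ i) : R.VG i = ⊥ := by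
  refine Submodule.span_eq_bot.2 ?_
  rintro w ⟨j, hj, hw⟩
  exact (hBr A R.D (R.V : Set A) hV.le).2.1 j (by omega) w hw

include hB hV in
theorem VG_le_VS (hN : N.Normal) (hBr : S_Br) : ∀ (t i : ℕ), R.D.n ≤ i + t →
    R.VG i ≤ R.VS (N.lowerCentralSeries i)
  | 0, i, h => by rw [VG_bot R hV hBr (by simpa using h)]; exact bot_le
  | t + 1, i, h => by
    have ih := VG_le_VS hN hBr t (i + 1) (by omega)
    have h1 : R.VS (N.lowerCentralSeries (i + 1)) ≤ R.VS (N.lowerCentralSeries i) :=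
      Submodule.span_mono (Set.image_mono (N.lowerCentralSeries_antitone (Nat.le_succ i)))
    rw [← VG_eq R i]
    refine sup_le ?_ (ih.trans h1)
    rw [← span_TE (Y := R.L '' (N : Set G)) (V := R.V) rfl i]
    refine Submodule.span_le.2 ?_
    rintro w ⟨v, hv, rfl⟩
    choose g hg hg' using hv
    have e : v = fun u => R.L (g u) := funext fun u => (hg' u).symm
    have h2 := h1 (ih (L_cm R hE hB hV hN i g hg))
    have h3 : R.L (cm i g) ∈ R.VS (N.lowerCentralSeries i) :=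
      Submodule.subset_span ⟨_, cm_lcs i g hg, rfl⟩
    have h4 := Submodule.sub_mem _ h3 h2
    rw [e]
    simpa using h4

omit hE in
/-- A multiple of `v` is a logarithm modulo the next term. -/
def Gd (i : ℕ) (v : A) : Prop :=
  ∃ m : ℕ, m ≠ 0 ∧ ∃ y ∈ N.lowerCentralSeries i, (m : ℝ) • v - R.L y ∈ R.VG (i + 1)

omit hE in
theorem Gd_zero (i : ℕ) : Gd R i 0 :=
  ⟨1, one_ne_zero, 1, Subgroup.one_mem _, by simp [R.L_one]⟩

include hB hV in
theorem Gd_add (hN : N.Normal) (i : ℕ) {v w : A} (hv : Gd R i v) (hw : Gd R i w) :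
    Gd R i (v + w) := by
  obtain ⟨m, hm, y, hy, h1⟩ := hv
  obtain ⟨m', hm', y', hy', h2⟩ := hw
  refine ⟨m * m', mul_ne_zero hm hm', y ^ m' * y' ^ m,
    Subgroup.mul_mem _ (Subgroup.pow_mem _ hy _) (Subgroup.pow_mem _ hy' _), ?_⟩
  have h3 := L_mul_lcs R hE hB hV hN i (N.pow_mem (lcs_le N i hy) m') (Subgroup.pow_mem _ hy' m)
  rw [L_pow R hE (lcs_le N i hy), L_pow R hE (lcs_le N i hy')] at h3
  have h4 := Submodule.sub_mem _ (Submodule.add_mem _ (Submodule.smul_mem _ (m' : ℝ) h1)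
    (Submodule.smul_mem _ (m : ℝ) h2)) h3
  convert h4 using 1
  push_cast
  module

theorem Gd_smul (i : ℕ) (q : ℚ) {y : G} (hy : y ∈ N.lowerCentralSeries i) :
    Gd R i ((q : ℝ) • R.L y) := by
  refine ⟨q.den, q.den_nz, y ^ q.num, Subgroup.zpow_mem _ hy _, ?_⟩
  rw [L_zpow R hE (lcs_le N i hy), smul_smul]
  have : (q.den : ℝ) * (q : ℝ) = q.num := by exact_mod_cast Rat.den_mul_eq_num q
  rw [this, sub_self]
  exact Submodule.zero_mem _

include hB hV in
theorem Gd_L (hN : N.Normal) (hBr : S_Br) (hQ : ∀ x ∈ N, R.L x ∈ R.AQ) (i : ℕ) {x : G}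
    (hx : x ∈ N) (h : R.L x ∈ R.VG i) : Gd R i (R.L x) := by
  have h1 := VG_le_VS R hE hB hV hN hBr R.D.n i (by omega) h
  obtain ⟨n, f, g, hfg⟩ := Submodule.mem_span_set'.1 h1
  choose y hy hy' using fun s => (g s).2
  obtain ⟨phi, hphi⟩ := Module.Projective.exists_dual_eq_one ℚ (one_ne_zero (α := ℝ))
  have h2 := R.rat phi (n + 1) (Fin.cons (-1) f) (Fin.cons (R.L x) fun s => R.L (y s)) ?_ ?_
  · rw [Fin.sum_univ_succ] at h2
    simp only [Fin.cons_zero, Fin.cons_succ, map_neg, hphi] at h2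
    have h3 : R.L x = ∑ s, ((phi (f s) : ℚ) : ℝ) • R.L (y s) := by
      have : ((-1 : ℚ) : ℝ) • R.L x = -R.L x := by simp
      rw [this] at h2
      exact (neg_add_eq_zero.1 h2)
    rw [h3]
    refine Finset.sum_induction _ (Gd R i) (fun a b => Gd_add R hE hB hV hN i) (Gd_zero R i) ?_
    intro s _
    exact Gd_smul R hE i _ (hy s)
  · intro s
    refine Fin.cases ?_ (fun s => ?_) s
    · simpa using hQ x hx
    · simpa using hQ _ (lcs_le N i (hy s))
  · rw [Fin.sum_univ_succ]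
    simp only [Fin.cons_zero, Fin.cons_succ, hy', hfg]
    simp

include hB hV in
theorem root (hN : N.Normal) (hBr : S_Br) (hQ : ∀ x ∈ N, R.L x ∈ R.AQ) : ∀ (t i : ℕ),
    R.D.n ≤ i + t → ∀ x ∈ N, R.L x ∈ R.VG i → ∃ k : ℕ, k ≠ 0 ∧ x ^ k ∈ N.lowerCentralSeries i
  | 0, i, hi, x, hx, h => by
    rw [VG_bot R hV hBr (by simpa using hi), Submodule.mem_bot] at h
    have h1 : R.psi x = 1 := (hE A R.D).2.2.2.2.2.2.2.2.1 _ _ (R.uni x hx)
      (hE A R.D).2.2.2.1.1 (by rw [LL_one]; exact h)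
    obtain ⟨k, hk, hk'⟩ := R.tors x hx h1
    exact ⟨k, hk, by rw [hk']; exact Subgroup.one_mem _⟩
  | t + 1, i, hi, x, hx, h => by
    obtain ⟨m, hm, y, hy, h1⟩ := Gd_L R hE hB hV hN hBr hQ i hx h
    have hyN : y ∈ N := lcs_le N i hy
    have h2 := L_mul_lcs R hE hB hV hN i (N.pow_mem hx m) (Subgroup.inv_mem _ hy)
    rw [L_pow R hE hx, L_inv R hE hyN] at h2
    have h3 : R.L (x ^ m * y⁻¹) ∈ R.VG (i + 1) := by
      have := Submodule.add_mem _ h2 h1
      convert this using 1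
      abel
    obtain ⟨k, hk, h4⟩ := root hN hBr hQ t (i + 1) (by omega) _
      (N.mul_mem (N.pow_mem hx m) (N.inv_mem hyN)) h3
    have h5 : (x ^ m * y⁻¹) ^ k ∈ N.lowerCentralSeries i :=
      N.lowerCentralSeries_antitone (Nat.le_succ i) h4
    refine ⟨m * k, mul_ne_zero hm hk, ?_⟩
    have : (N.lowerCentralSeries i).Normal := inferInstance
    rw [← QuotientGroup.eq_one_iff] at h5 hy ⊢
    rw [QuotientGroup.mk_pow, QuotientGroup.mk_mul, QuotientGroup.mk_inv, hy, inv_one,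
      mul_one] at h5
    rw [pow_mul, QuotientGroup.mk_pow]
    exact h5

end Grp

end Lie3

open Lie3 in
theorem pLie3 (hL : S_Lie1) (hB : S_B1) (hE : S_ExpLog) (hBr : S_Br) : S_Lie3 := by
  intro G _ A _ _ N R hN
  obtain ⟨hV, -, hQ, -⟩ := hL G A N R hN
  refine ⟨fun i => ⟨VG_le R hV i, fun x hx y hy => br_VG R i hx hy, VG_succ R i⟩,
    fun Y hY i => ⟨?_, span_TG hY i⟩, L_lcs R hE hB hV hN,
    fun i x hx y hy => L_mul_lcs R hE hB hV hN i (lcs_le N i hx) hy, L_cm R hE hB hV hN,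
    fun i => root R hE hB hV hN hBr hQ R.D.n i (by omega)⟩
  rw [span_TE hY i]
  exact VG_eq R i

end ANd
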