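import Pool.Agent.P.MP_5e7d86_al.BRp

/-! Loop: short elements of `N` are bounded products of conjugates of shorter elements. -/

set_option autoImplicit false
open Classical
open scoped commutatorElement

namespace ANd

namespace Loop

variable {G : Type} [Group G] (S : Setup G) (c0 : ℕ)

/-- bounded products of conjugates -/
def Pj (C j : ℕ) (y : G) : Prop := ∃ L : List (G × G), L.length ≤ C ∧
  (∀ p ∈ L, S.l p.1 ≤ C * j ∧ p.2 ∈ S.B (c0 * j)) ∧ y = (L.map fun p => p.1 * p.2 * p.1⁻¹).prod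

variable {S c0}

theorem Pj.mul {C C' j : ℕ} {y y' : G} (h : Pj S c0 C j y) (h' : Pj S c0 C' j y') :
    Pj S c0 (C + C') j (y * y') := by
  obtain ⟨L, h1, h2, rfl⟩ := h
  obtain ⟨L', h1', h2', rfl⟩ := h'
  refine ⟨L ++ L', by rw [List.length_append]; omega, fun p hp => ?_, by simp⟩
  rw [add_mul]
  rcases List.mem_append.1 hp with hp | hp
  · exact ⟨(h2 p hp).1.trans (Nat.le_add_right _ _), (h2 p hp).2⟩
  · exact ⟨(h2' p hp).1.trans (Nat.le_add_left _ _), (h2' p hp).2⟩

theorem Pj.inv {C j : ℕ} {y : G} (h : Pj S c0 C j y) : Pj S c0 C j y⁻¹ := by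
  obtain ⟨L, h1, h2, rfl⟩ := h
  refine ⟨(L.map fun p => (p.1, p.2⁻¹)).reverse, by simpa using h1, fun p hp => ?_, ?_⟩
  · obtain ⟨q, hq, rfl⟩ := List.mem_map.1 (List.mem_reverse.1 hp)
    exact ⟨(h2 q hq).1, S.B_inv (h2 q hq).2⟩
  · rw [List.prod_inv_reverse, List.map_reverse, List.map_map, List.map_map]
    congr 2
    refine List.map_congr_left fun p _ => ?_
    simp [mul_assoc]

theorem Pj.conj {C C' j : ℕ} {y g : G} (h : Pj S c0 C j y) (hg : S.l g ≤ C' * j) :
    Pj S c0 (C + C') j (g * y * g⁻¹) := by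
  obtain ⟨L, h1, h2, rfl⟩ := h
  refine ⟨L.map fun p => (g * p.1, p.2), by rw [List.length_map]; omega, fun p hp => ?_, ?_⟩
  · obtain ⟨q, hq, rfl⟩ := List.mem_map.1 hp
    refine ⟨(S.len.mul _ _).trans ?_, (h2 q hq).2⟩
    have := (h2 q hq).1
    rw [add_mul]
    omega
  · clear h1 h2
    induction L with
    | nil => simp
    | cons p L ih =>
      rw [List.map_cons, List.map_cons, List.map_cons, List.prod_cons, List.prod_cons, ← ih]
      group

theorem Pj.single {j : ℕ} {y : G} (h : y ∈ S.B (c0 * j)) : Pj S c0 1 j y :=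
  ⟨[(1, y)], le_rfl, fun p hp => by
    rw [List.mem_singleton.1 hp]
    exact ⟨by simp [S.len.one], h⟩, by simp⟩

variable {I : Type} (S c0) (jj : I → ℕ)

/-- families of linear size -/
def GG : Subgroup (I → G) where
  carrier := {g | ∃ C, ∀ i, S.l (g i) ≤ C * jj i}
  one_mem' := ⟨0, fun i => by simp [S.len.one]⟩
  mul_mem' := by
    rintro a b ⟨C, h⟩ ⟨C', h'⟩
    exact ⟨C + C', fun i => (S.len.mul _ _).trans (by rw [add_mul]; exact add_le_add (h i) (h' i))⟩
  inv_mem' := by
    rintro a ⟨C, h⟩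
    exact ⟨C, fun i => (S.len.inv _).trans_le (h i)⟩

/-- families of bounded products of conjugates -/
def PP : Subgroup (GG S jj) where
  carrier := {y | ∃ C, ∀ i, Pj S c0 C (jj i) (y.1 i)}
  one_mem' := ⟨0, fun i => ⟨[], le_rfl, by simp, by simp⟩⟩
  mul_mem' := by
    rintro a b ⟨C, h⟩ ⟨C', h'⟩
    exact ⟨C + C', fun i => (h i).mul (h' i)⟩
  inv_mem' := by
    rintro a ⟨C, h⟩
    exact ⟨C, fun i => (h i).inv⟩

instance : (PP S c0 jj).Normal := ⟨by
  rintro y ⟨C, h⟩ ⟨g, C', h'⟩
  exact ⟨C + C', fun i => (h i).conj (h' i)⟩⟩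

/-- blocks -/
def Bl (K : ℕ) : Set (GG S jj) := {g | ∀ i, S.l (g.1 i) ≤ K * jj i}

theorem closure_Bl : ∃ K, ∀ (I : Type) (jj : I → ℕ), Subgroup.closure (Bl S jj K) = ⊤ := by
  obtain ⟨K, hK⟩ : ∃ K, ∀ x ∈ Set.range S.t ∪ Set.range S.e, S.l x ≤ K := by
    obtain ⟨K, hK⟩ := (((Set.finite_range S.t).union (Set.finite_range S.e)).image S.l).bddAbove
    exact ⟨K, fun x hx => hK ⟨x, hx, rfl⟩⟩
  obtain ⟨c, hc⟩ := S.word
  refine ⟨K, fun I jj => ?_⟩
  have key : ∀ (M : ℕ) (g : GG S jj), (∀ i, ∃ L : List G, L.length ≤ M * jj i ∧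
      (∀ x ∈ L, S.l x ≤ K) ∧ L.prod = g.1 i) → g ∈ Subgroup.closure (Bl S jj K) := by
    intro M
    induction M with
    | zero =>
      intro g h
      have : g = 1 := Subtype.ext (funext fun i => by
        obtain ⟨L, h1, -, h3⟩ := h i
        rw [← h3, List.length_eq_zero_iff.1 (by simpa using h1 : L.length = 0)]
        rfl)
      rw [this]
      exact one_mem _
    | succ M ih =>
      intro g h
      choose L h1 h2 h3 using h
      have hb : ∀ i, S.l ((L i).take (jj i)).prod ≤ K * jj i := fun i =>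
        (S.len.prod_le _ K fun x hx => h2 i x (List.mem_of_mem_take hx)).trans (by
          rw [mul_comm]
          exact Nat.mul_le_mul_left _ (List.length_take_le _ _))
      let a : GG S jj := ⟨fun i => ((L i).take (jj i)).prod, K, hb⟩
      have ha : a ∈ Subgroup.closure (Bl S jj K) := Subgroup.subset_closure hb
      have := ih (a⁻¹ * g) fun i => ⟨(L i).drop (jj i), by
        have := h1 i
        rw [add_mul, one_mul] at this
        rw [List.length_drop]
        omega, fun x hx => h2 i x (List.mem_of_mem_drop hx), by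
        change _ = ((L i).take (jj i)).prod⁻¹ * g.1 i
        rw [← h3 i, eq_inv_mul_iff_mul_eq, List.prod_take_mul_prod_drop]⟩
      simpa using mul_mem ha this
  rw [eq_top_iff]
  rintro ⟨g, C, hg⟩ -
  refine key (c * C) _ fun i => ?_
  obtain ⟨L, h1, h2, h3⟩ := hc (g i)
  refine ⟨L, h1.trans (by rw [mul_assoc]; exact Nat.mul_le_mul_left _ (hg i)), fun x hx => ?_, h3⟩
  rcases h2 x hx with h | h
  · exact hK x h
  · rw [← S.len.inv]
    exact hK _ h

/-- the `a`-th factor of the section -/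
def uu (c : ℕ) (hc : ∀ g a, |Multiplicative.toAdd (S.pr g) a| ≤ (c : ℤ) * S.l g) (a : Fin S.d) :
    GG S jj →* GG S jj where
  toFun g := ⟨fun i => S.t a ^ Multiplicative.toAdd (S.pr (g.1 i)) a, by
    obtain ⟨C, h⟩ := g.2
    refine ⟨c * C * S.l (S.t a), fun i => (S.len.zpow _ _).trans ?_⟩
    have h1 : (Multiplicative.toAdd (S.pr (g.1 i)) a).natAbs ≤ c * S.l (g.1 i) := by
      have := hc (g.1 i) a
      rw [Int.abs_eq_natAbs] at this
      exact_mod_cast this
    calc _ ≤ c * (C * jj i) * S.l (S.t a) :=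
          Nat.mul_le_mul_right _ (h1.trans (Nat.mul_le_mul_left _ (h i)))
      _ = _ := by ring⟩
  map_one' := Subtype.ext (funext fun i => by simp)
  map_mul' g h := Subtype.ext (funext fun i => by simp [zpow_add])

end Loop

open Loop in
theorem pLoop (hA : S_GenA) : S_Loop := by
  intro G _ S
  obtain ⟨-, -, h3, ⟨c, hc⟩, ⟨c1, hc1⟩, -⟩ := hA G S
  obtain ⟨K, hK⟩ := closure_Bl S
  refine ⟨4 * K + c1 * (c * K), fun A0 => ?_⟩
  set c0 := 4 * K + c1 * (c * K) with hc0
  let I : Type := {p : ℕ × G // p.2 ∈ S.B (A0 * p.1)}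
  let jj : I → ℕ := fun i => i.1.1
  let π := QuotientGroup.mk' (PP S c0 jj)
  have hπ : ∀ y : GG S jj, (∀ i, y.1 i ∈ S.B (c0 * jj i)) → π y = 1 := fun y hy =>
    (QuotientGroup.eq_one_iff y).2 ⟨1, fun i => Pj.single (hy i)⟩
  have hbl : ∀ a ∈ Bl S jj K, ∀ b ∈ Bl S jj K, Commute (π a) (π b) := fun a ha b hb => by
    rw [← commutatorElement_eq_one_iff_commute, ← map_commutatorElement]
    refine hπ _ fun i => ⟨?_, ?_⟩
    · change ⁅a.1 i, b.1 i⁆ ∈ S.N
      rw [S.ker, map_commutatorElement, commutatorElement_eq_one_iff_commute]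
      exact mul_comm _ _
    · refine (S.len.comm (a.1 i) (b.1 i)).trans ?_
      have h1 := ha i
      have h2 := hb i
      rw [hc0, add_mul, mul_assoc 4]
      omega
  have hcomm : ∀ a b : GG S jj, Commute (π a) (π b) := fun a b => by
    have ha : a ∈ Subgroup.closure (Bl S jj K) := by rw [hK]; trivial
    have hb : b ∈ Subgroup.closure (Bl S jj K) := by rw [hK]; trivial
    induction ha, hb using Subgroup.closure_induction₂ with
    | mem a b ha hb => exact hbl a ha b hb
    | one_left => simp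
    | one_right => simp
    | mul_left _ _ _ _ _ _ h h' => rw [map_mul]; exact h.mul_left h'
    | mul_right _ _ _ _ _ _ h h' => rw [map_mul]; exact h.mul_right h'
    | inv_left _ _ _ _ h => rw [map_inv]; exact h.inv_left
    | inv_right _ _ _ _ h => rw [map_inv]; exact h.inv_right
  let _ : CommGroup (GG S jj ⧸ PP S c0 jj) :=
    { (inferInstance : Group (GG S jj ⧸ PP S c0 jj)) with
      mul_comm := fun a b => by
        obtain ⟨a, rfl⟩ := QuotientGroup.mk'_surjective _ a
        obtain ⟨b, rfl⟩ := QuotientGroup.mk'_surjective _ b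
        exact hcomm a b }
  have hψ : π = ∏ a, π.comp (uu S jj c hc a) := by
    refine MonoidHom.eq_of_eqOn_dense (hK I jj) fun w hw => ?_
    have e1 : (∏ a, π.comp (uu S jj c hc a)) w = π (List.ofFn fun a => uu S jj c hc a w).prod := by
      rw [MonoidHom.finsetProd_apply, map_list_prod, List.map_ofFn, List.prod_ofFn]
      rfl
    have e2 : ∀ i, (List.ofFn fun a => uu S jj c hc a w).prod.1 i =
        S.s (Multiplicative.toAdd (S.pr (w.1 i))) := fun i => by
      have := map_list_prod ((Pi.evalMonoidHom (fun _ : I => G) i).comp (GG S jj).subtype)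
        (List.ofFn fun a => uu S jj c hc a w)
      rw [List.map_ofFn] at this
      exact this
    change π w = _
    rw [e1, ← mul_inv_eq_one, ← map_inv, ← map_mul]
    refine hπ _ fun i => ?_
    change w.1 i * ((List.ofFn fun a => uu S jj c hc a w).prod.1 i)⁻¹ ∈ _
    rw [e2]
    refine ⟨by rw [S.ker, map_mul, map_inv, h3]; simp, (S.len.mul _ _).trans ?_⟩
    rw [S.len.inv]
    have h1 := hw i
    have h2 := hc1 (c * K * jj i) (Multiplicative.toAdd (S.pr (w.1 i))) fun a =>
      (hc _ a).trans (by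
        push_cast
        rw [mul_assoc]
        exact mul_le_mul_of_nonneg_left (by exact_mod_cast h1) (Int.natCast_nonneg c))
    rw [hc0, add_mul, mul_assoc 4, mul_assoc c1]
    omega
  let x : GG S jj := ⟨fun i => i.1.2, A0, fun i => i.2.2⟩
  have hx : π x = 1 := by
    rw [hψ, MonoidHom.finsetProd_apply]
    refine Finset.prod_eq_one fun a _ => ?_
    have : uu S jj c hc a x = 1 := Subtype.ext (funext fun i => by
      change S.t a ^ Multiplicative.toAdd (S.pr i.1.2) a = 1
      rw [(S.ker _).1 i.2.1]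
      simp)
    rw [MonoidHom.comp_apply, this, map_one]
  obtain ⟨C, hC⟩ := (QuotientGroup.eq_one_iff x).1 hx
  exact ⟨C, fun j _ y hy => hC ⟨(j, y), hy⟩⟩

end ANd
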