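import Pool.Agent.P.MP_5e7d86_al.BRp

/-! Reduction of window elements to the neighbourhood of the axes, torsion free finite rank case. -/

set_option autoImplicit false
set_option linter.unusedSectionVars false
open Classical
open scoped commutatorElement

namespace ANd

namespace MLa

/-- A finitely generated submodule that is torsion and divisible modulo `L'` lies in `L'`. -/
theorem nak {V : Type} [AddCommGroup V] (s : Set V) (hs : s.Finite) (L' : Submodule ℤ V)
    (ht : ∀ x : V, ∃ n : ℤ, n ≠ 0 ∧ n • x ∈ L')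
    (hp : ∀ p : ℕ, p.Prime → ∀ x ∈ Submodule.span ℤ s, ∃ y ∈ Submodule.span ℤ s,
      x - (p : ℤ) • y ∈ L') : Submodule.span ℤ s ≤ L' := by
  have h1 : ∀ t : Finset V, ∃ N : ℤ, N ≠ 0 ∧ ∀ x ∈ t, N • x ∈ L' := by
    intro t
    induction t using Finset.induction_on with
    | empty => exact ⟨1, one_ne_zero, by simp⟩
    | insert x t _ ih =>
      obtain ⟨N, hN, H⟩ := ih
      obtain ⟨n, hn, H'⟩ := ht x
      refine ⟨N * n, mul_ne_zero hN hn, fun y hy => ?_⟩
      rcases Finset.mem_insert.1 hy with rfl | hy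
      · rw [mul_smul]; exact L'.smul_mem _ H'
      · rw [mul_comm, mul_smul]; exact L'.smul_mem _ (H y hy)
  obtain ⟨N, hN, H⟩ := h1 hs.toFinset
  have h2 : ∀ x ∈ Submodule.span ℤ s, N • x ∈ L' := by
    intro x hx
    induction hx using Submodule.span_induction with
    | mem x hx => exact H x (hs.mem_toFinset.2 hx)
    | zero => simp
    | add x y _ _ hx hy => rw [smul_add]; exact L'.add_mem hx hy
    | smul a x _ hx => rw [smul_comm]; exact L'.smul_mem _ hx
  have h3 : ∀ n : ℕ, n ≠ 0 → ∀ x ∈ Submodule.span ℤ s, ∃ y ∈ Submodule.span ℤ s,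
      x - (n : ℤ) • y ∈ L' := by
    intro n
    induction n using induction_on_primes with
    | zero => intro h; exact absurd rfl h
    | one => intro _ x hx; exact ⟨x, hx, by simp⟩
    | prime_mul p a hpp ih =>
      intro hne x hx
      obtain ⟨y, hy, e1⟩ := hp p hpp x hx
      obtain ⟨z, hz, e2⟩ := ih (right_ne_zero_of_mul hne) y hy
      refine ⟨z, hz, ?_⟩
      have : x - ((p * a : ℕ) : ℤ) • z = (x - (p : ℤ) • y) + (p : ℤ) • (y - (a : ℤ) • z) := by
        push_cast
        rw [mul_smul, smul_sub]; abel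
      rw [this]
      exact L'.add_mem e1 (L'.smul_mem _ e2)
  intro x hx
  obtain ⟨y, hy, e⟩ := h3 N.natAbs (Int.natAbs_ne_zero.2 hN) x hx
  have h4 : ((N.natAbs : ℕ) : ℤ) • y ∈ L' := by
    rcases Int.natAbs_eq N with h | h
    · rw [← h]; exact h2 y hy
    · have : ((N.natAbs : ℕ) : ℤ) = -N := by omega
      rw [this, neg_smul]; exact L'.neg_mem (h2 y hy)
  simpa using L'.add_mem e h4

variable {ι : Type} [Fintype ι] {J : Ideal (ZH ι)}

theorem zs_mem (n : ℤ) {x : ZH ι} (hx : x ∈ J) : n • x ∈ J := by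
  rw [zsmul_eq_mul]; exact J.mul_mem_left _ hx

/-- Finite rank: a fixed window spans everything up to torsion. -/
theorem rank_win : ∀ s : ℕ, (∀ x : Fin s → ZH ι, ∃ n : Fin s → ℤ, n ≠ 0 ∧ ∑ i, n i • x i ∈ J) →
    ∃ c : ℕ, ∀ x : ZH ι, ∃ n : ℤ, n ≠ 0 ∧ ∃ ph, Win c ph ∧ n • x - ph ∈ J := by
  intro s
  induction s with
  | zero =>
    intro H
    obtain ⟨n, hn, -⟩ := H fun i => i.elim0
    exact absurd (funext fun i => i.elim0) hn
  | succ s ih =>
    intro H
    by_cases h0 : ∀ x : Fin s → ZH ι, ∃ n : Fin s → ℤ, n ≠ 0 ∧ ∑ i, n i • x i ∈ J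
    · exact ih h0
    push Not at h0
    obtain ⟨y, hy⟩ := h0
    obtain ⟨c, hc⟩ := exists_Win_fin (Finset.univ.image y)
    refine ⟨c, fun x => ?_⟩
    obtain ⟨n, hn, hJ⟩ := H (Fin.cons x y)
    rw [Fin.sum_univ_succ] at hJ
    simp only [Fin.cons_zero, Fin.cons_succ] at hJ
    refine ⟨n 0, fun h => ?_, -∑ i, n i.succ • y i, ?_, by simpa using hJ⟩
    · rw [h, zero_smul, zero_add] at hJ
      refine hy (fun i => n i.succ) (fun h' => hn ?_) hJ
      funext i
      refine Fin.cases h (fun j => ?_) i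
      exact congrFun h' j
    · exact (Win.sum _ _ fun i _ => (hc _ (Finset.mem_image_of_mem _ (Finset.mem_univ i))).zsmul _).neg

/-- A relation can be taken primitive at a given prime. -/
theorem prim (hT : TF J) {s : ℕ} (x : Fin s → ZH ι) {p : ℕ} (hp : p.Prime) :
    ∀ (m : ℕ) (n : Fin s → ℤ), ∑ i, (n i).natAbs = m → n ≠ 0 → ∑ i, n i • x i ∈ J →
      ∃ n' : Fin s → ℤ, (∃ i, ¬ (p : ℤ) ∣ n' i) ∧ ∑ i, n' i • x i ∈ J := by
  intro m
  induction m using Nat.strong_induction_on with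
  | _ m ih =>
    intro n hm hn hJ
    by_cases h : ∃ i, ¬ (p : ℤ) ∣ n i
    · exact ⟨n, h, hJ⟩
    push Not at h
    choose n' hn' using h
    have h1 : n' ≠ 0 := fun h0 => hn (funext fun i => by rw [hn' i, h0]; simp)
    have h2 : ∑ i, (n i).natAbs = p * ∑ i, (n' i).natAbs := by
      rw [Finset.mul_sum]
      exact Finset.sum_congr rfl fun i _ => by rw [hn' i, Int.natAbs_mul, Int.natAbs_natCast]
    have h3 : 0 < ∑ i, (n' i).natAbs := by
      obtain ⟨i, hi⟩ := Function.ne_iff.1 h1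
      exact lt_of_lt_of_le (Int.natAbs_pos.2 hi) (Finset.single_le_sum
        (f := fun i => (n' i).natAbs) (fun _ _ => Nat.zero_le _) (Finset.mem_univ i))
    refine ih _ ?_ n' rfl h1 (hT p _ (by exact_mod_cast hp.ne_zero) ?_)
    · rw [← hm, h2]
      have := hp.two_le
      nlinarith
    · rw [Finset.smul_sum]
      convert hJ using 2 with i
      rw [hn' i, mul_smul]

/-- Weighted `l1` norm. -/
def wn (w : ι → ℤ) (h : ι → ℤ) : ℤ := ∑ c, w c * |h c|

theorem wn_two (w : ι → ℤ) {h h' : ι → ℤ} {a b : ι} (hab : a ≠ b)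
    (H : ∀ c, c ≠ a → c ≠ b → h' c = h c) :
    wn w h' = wn w h + w a * (|h' a| - |h a|) + w b * (|h' b| - |h b|) := by
  have : wn w h' - wn w h = w a * (|h' a| - |h a|) + w b * (|h' b| - |h b|) := by
    unfold wn
    rw [← Finset.sum_sub_distrib, Fintype.sum_eq_add a b hab]
    · ring
    · intro c hc
      rw [H c hc.1 hc.2, sub_self]
  linarith

theorem wn_nonneg {w : ι → ℤ} (hw : ∀ c, 0 ≤ w c) (h : ι → ℤ) : 0 ≤ wn w h :=
  Finset.sum_nonneg fun c _ => mul_nonneg (hw c) (abs_nonneg _)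

theorem abs_le_wn (h : ι → ℤ) (a : ι) : |h a| ≤ wn 1 h := by
  have := Finset.single_le_sum (f := fun c => (1 : ι → ℤ) c * |h c|)
    (fun c _ => mul_nonneg zero_le_one (abs_nonneg _)) (Finset.mem_univ a)
  simpa [wn] using this

theorem exists_sign (z : ℤ) : ∃ s : ℤ, ∀ d : ℤ, -|z| ≤ d → |z + d * s| = |z| + d := by
  rcases le_total 0 z with h | h
  · refine ⟨1, fun d hd => ?_⟩
    rw [abs_of_nonneg h] at hd ⊢
    rw [abs_of_nonneg (by linarith)]; ring
  · refine ⟨-1, fun d hd => ?_⟩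
    rw [abs_of_nonpos h] at hd ⊢
    rw [abs_of_nonpos (by linarith)]; ring

/-- The reduction step at a point with two large coordinates. -/
theorem red (hT : TF J) {rho : ℕ} (hF : FR J rho) {p : ℕ} (hp : p.Prime) (h : ι → ℤ) {a b : ι}
    (hab : a ≠ b) (ha : (rho : ℤ) ≤ |h a|) (hb : (rho : ℤ) ≤ |h b|) :
    ∃ (g : Fin (rho + 1) → ι → ℤ) (d : Fin (rho + 1) → ℤ) (n : Fin (rho + 1) → ℤ)
      (i0 : Fin (rho + 1)), g i0 = h ∧ ¬ (p : ℤ) ∣ n i0 ∧ ∑ i, n i • tau (g i) ∈ J ∧
      (∀ i, i ≠ i0 → (p : ℤ) ∣ n i ∨ d i < 0) ∧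
      ∀ i (w : ι → ℤ), wn w (g i) = wn w h + (w a - w b) * d i := by
  obtain ⟨sa, hsa⟩ := exists_sign (h a)
  obtain ⟨sb, hsb⟩ := exists_sign (h b)
  let e : Fin (rho + 1) → ι → ℤ := fun i =>
    Pi.single a (((i : ℕ) : ℤ) * sa) - Pi.single b (((i : ℕ) : ℤ) * sb)
  obtain ⟨n0, hn0, hJ0⟩ := hF fun i => tau (e i)
  obtain ⟨n, hn, hJ⟩ := prim hT _ hp _ n0 rfl hn0 hJ0
  obtain ⟨i0, hi0, hmax⟩ := Finset.exists_max_image
    (Finset.univ.filter fun i => ¬ (p : ℤ) ∣ n i) (fun i => i)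
    (hn.imp fun i hi => Finset.mem_filter.2 ⟨Finset.mem_univ _, hi⟩)
  refine ⟨fun i => h - e i0 + e i, fun i => ((i : ℕ) : ℤ) - ((i0 : ℕ) : ℤ), n, i0, by simp,
    (Finset.mem_filter.1 hi0).2, ?_, fun i hi => ?_, fun i w => ?_⟩
  · have := J.mul_mem_left (tau (h - e i0)) hJ
    rw [Finset.mul_sum] at this
    convert this using 2 with i
    rw [mul_smul_comm, tau_mul]
  · by_cases hd : (p : ℤ) ∣ n i
    · exact Or.inl hd
    · right
      have h1 : i ≤ i0 := hmax i (Finset.mem_filter.2 ⟨Finset.mem_univ _, hd⟩)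
      have h2 : (i : ℕ) < i0 := Fin.lt_def.1 (lt_of_le_of_ne h1 hi)
      show ((i : ℕ) : ℤ) - ((i0 : ℕ) : ℤ) < 0
      omega
  · have hi := i.2
    have hi0' := i0.2
    have e1 : (h - e i0 + e i) a = h a + (((i : ℕ) : ℤ) - ((i0 : ℕ) : ℤ)) * sa := by
      simp only [e, Pi.add_apply, Pi.sub_apply, Pi.single_eq_same, Pi.single_eq_of_ne hab]
      ring
    have e2 : (h - e i0 + e i) b = h b + (((i0 : ℕ) : ℤ) - ((i : ℕ) : ℤ)) * sb := by
      simp only [e, Pi.add_apply, Pi.sub_apply, Pi.single_eq_same, Pi.single_eq_of_ne hab.symm]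
      ring
    beta_reduce
    rw [wn_two w hab (h := h) (h' := h - e i0 + e i) (fun c hca hcb => by
      simp only [e, Pi.add_apply, Pi.sub_apply, Pi.single_eq_of_ne hca, Pi.single_eq_of_ne hcb]
      ring), e1, e2, hsa _ (by omega), hsb _ (by omega)]
    ring

theorem ax_add {C K : ℕ} {x y : ZH ι} (hx : Ax C K x) (hy : Ax C K y) : Ax C K (x + y) :=
  fun h hh => (mem_supp_add hh).elim (hx h) (hy h)

theorem ax_zero (C K : ℕ) : Ax C K (0 : ZH ι) := fun h hh => by simp at hh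

theorem ax_smul {C K : ℕ} {x : ZH ι} (hx : Ax C K x) (n : ℤ) : Ax C K (n • x) := fun h hh =>
  hx h (Finsupp.support_smul hh)

/-- The elements that have a decomposition of the required kind. -/
def good (J : Ideal (ZH ι)) (C K : ℕ) : Submodule ℤ (ZH ι) where
  carrier := {nu | ∃ x ph, Ax C K x ∧ Win C ph ∧ nu - x - ph ∈ J}
  add_mem' := by
    rintro u v ⟨x, ph, h1, h2, h3⟩ ⟨x', ph', h1', h2', h3'⟩
    refine ⟨x + x', ph + ph', ax_add h1 h1', h2.add h2', ?_⟩
    have : u + v - (x + x') - (ph + ph') = (u - x - ph) + (v - x' - ph') := by abel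
    rw [this]; exact J.add_mem h3 h3'
  zero_mem' := ⟨0, 0, ax_zero _ _, Win.zero _, by simp⟩
  smul_mem' := by
    rintro n u ⟨x, ph, h1, h2, h3⟩
    refine ⟨n • x, n • ph, ax_smul h1 n, h2.zsmul n, ?_⟩
    rw [← smul_sub, ← smul_sub]; exact zs_mem n h3

theorem good_of_mem {C K : ℕ} {x : ZH ι} (hx : x ∈ J) : x ∈ good J C K :=
  ⟨0, 0, ax_zero _ _, Win.zero _, by simpa using hx⟩

/-- `L' + p L`. -/
def pl {V : Type} [AddCommGroup V] (L L' : Submodule ℤ V) (p : ℤ) : Submodule ℤ V where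
  carrier := {x | ∃ y ∈ L, x - p • y ∈ L'}
  add_mem' := by
    rintro u v ⟨x, h1, h2⟩ ⟨y, h1', h2'⟩
    refine ⟨x + y, L.add_mem h1 h1', ?_⟩
    have : u + v - p • (x + y) = (u - p • x) + (v - p • y) := by rw [smul_add]; abel
    rw [this]; exact L'.add_mem h2 h2'
  zero_mem' := ⟨0, L.zero_mem, by simp⟩
  smul_mem' := by
    rintro n u ⟨x, h1, h2⟩
    refine ⟨n • x, L.smul_mem _ h1, ?_⟩
    rw [smul_comm p, ← smul_sub]; exact L'.smul_mem _ h2

/-- The span of the `l1` ball. -/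
noncomputable def ball (ι : Type) [Fintype ι] (K : ℕ) : Submodule ℤ (ZH ι) :=
  Submodule.span ℤ (tau '' {h : ι → ℤ | wn 1 h ≤ K})

theorem divis (hT : TF J) {rho : ℕ} (hF : FR J rho) {p : ℕ} (hp : p.Prime) {C K K' : ℕ}
    (hC : rho ≤ C) (hK : K ≤ K') : ball ι K ≤ pl (ball ι K) (good J C K') p := by
  let w : ι → ℤ := fun c => ((Fintype.equivFin ι c : ℕ) : ℤ)
  have hw : ∀ c, 0 ≤ w c := fun c => Int.natCast_nonneg _
  have hwi : ∀ a b, w a = w b → a = b := fun a b h =>
    (Fintype.equivFin ι).injective (Fin.ext (Nat.cast_injective (R := ℤ) h))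
  have hC' : (rho : ℤ) ≤ C := by exact_mod_cast hC
  have hK' : (K : ℤ) ≤ K' := by exact_mod_cast hK
  have hgood : ∀ x ∈ good J C K', x ∈ pl (ball ι K) (good J C K') p := fun x hx =>
    ⟨0, Submodule.zero_mem _, by simpa using hx⟩
  have hpm : ∀ x ∈ ball ι K, (p : ℤ) • x ∈ pl (ball ι K) (good J C K') p := fun x hx =>
    ⟨x, hx, by simp⟩
  have key : ∀ m : ℕ, ∀ h : ι → ℤ, wn w h < m → wn 1 h ≤ K →
      tau h ∈ pl (ball ι K) (good J C K') p := by
    intro m
    induction m with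
    | zero => intro h hm; exact absurd (wn_nonneg hw h) (by simpa using hm)
    | succ m ih =>
      intro h hm hK1
      by_cases h2 : ∃ a b, w b < w a ∧ (rho : ℤ) ≤ |h a| ∧ (rho : ℤ) ≤ |h b|
      · obtain ⟨a, b, hba, ha, hb⟩ := h2
        have hab : a ≠ b := fun e => by rw [e] at hba; exact lt_irrefl _ hba
        obtain ⟨g, d, n, i0, hg, hn, hJ, hd, hwn⟩ := red hT hF hp h hab ha hb
        have hb1 : ∀ i, wn 1 (g i) ≤ K := fun i => by rw [hwn]; simpa using hK1
        have hb2 : ∀ i, tau (g i) ∈ ball ι K := fun i =>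
          Submodule.subset_span ⟨g i, hb1 i, rfl⟩
        have h3 : ∑ i ∈ Finset.univ.erase i0, n i • tau (g i) ∈ pl (ball ι K) (good J C K') p := by
          refine Submodule.sum_mem _ fun i hi => ?_
          rcases hd i (Finset.ne_of_mem_erase hi) with ⟨q, hq⟩ | hlt
          · rw [hq, mul_smul]; exact hpm _ (Submodule.smul_mem _ _ (hb2 i))
          · refine Submodule.smul_mem _ _ (ih _ ?_ (hb1 i))
            rw [hwn]
            push_cast at hm
            nlinarith
        have h4 : n i0 • tau h ∈ pl (ball ι K) (good J C K') p := by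
          have := Submodule.sub_mem _ (hgood _ (good_of_mem hJ)) h3
          rwa [← Finset.add_sum_erase _ _ (Finset.mem_univ i0), add_sub_cancel_right, hg] at this
        have hc : IsCoprime (p : ℤ) (n i0) :=
          ((Nat.prime_iff_prime_int.1 hp).irreducible.coprime_iff_not_dvd).2 hn
        obtain ⟨u, v, huv⟩ := hc
        have e : tau h = (p : ℤ) • (u • tau h) + v • (n i0 • tau h) := by
          rw [← mul_smul, ← mul_smul, ← add_smul, mul_comm (p : ℤ), huv, one_smul]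
        rw [e]
        exact Submodule.add_mem _ (hpm _ (Submodule.smul_mem _ _ (hg ▸ hb2 i0)))
          (Submodule.smul_mem _ _ h4)
      · apply hgood
        by_cases h3 : ∃ a, (rho : ℤ) ≤ |h a|
        · obtain ⟨a, ha⟩ := h3
          refine ⟨tau h, 0, fun h' hh => ?_, Win.zero _, by simp⟩
          rw [mem_supp_tau hh]
          refine ⟨a, fun b hb => ?_, ((abs_le_wn h a).trans hK1).trans hK'⟩
          by_contra hc
          have hb' : (rho : ℤ) ≤ |h b| := by omega
          rcases lt_trichotomy (w a) (w b) with h4 | h4 | h4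
          · exact h2 ⟨b, a, h4, hb', ha⟩
          · exact hb (hwi _ _ h4).symm
          · exact h2 ⟨a, b, h4, ha, hb'⟩
        · push Not at h3
          exact ⟨0, tau h, ax_zero _ _, Win.tau fun a => (h3 a).le.trans hC', by simp⟩
  refine Submodule.span_le.2 ?_
  rintro _ ⟨h, hh, rfl⟩
  refine key ((wn w h).toNat + 1) h ?_ hh
  push_cast
  omega

end MLa

open MLa in
theorem pMLa : S_MLa := by
  intro ι _ J rho hT hF
  obtain ⟨c, hc⟩ := rank_win (rho + 1) hF
  refine ⟨rho + c + Fintype.card ι, fun k _ nu hnu => ?_⟩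
  have hle : ball ι (Fintype.card ι * k) ≤
      good J (rho + c + Fintype.card ι) ((rho + c + Fintype.card ι) * k) := by
    refine nak _ (Set.Finite.image _ ((Sm_finite (Fintype.card ι * k)).subset
      fun h hh a => (abs_le_wn h a).trans hh)) _ (fun x => ?_) fun p hp x hx => ?_
    · obtain ⟨n, hn, ph, h1, h2⟩ := hc x
      exact ⟨n, hn, 0, ph, ax_zero _ _, h1.mono (by omega), by simpa using h2⟩
    · exact divis hT hF hp (by omega) (Nat.mul_le_mul_right _ (by omega)) hx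
  refine hle ?_
  rw [eq_sum_tau nu]
  refine Submodule.sum_mem _ fun h hh => Submodule.smul_mem _ _ (Submodule.subset_span ⟨h, ?_, rfl⟩)
  have := Finset.sum_le_card_nsmul Finset.univ (fun a => (1 : ι → ℤ) a * |h a|) (k : ℤ)
    fun a _ => by simpa using hnu h hh a
  simpa [wn] using this

end ANd
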