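import Pool.Agent.P.MP_5e7d86_al.BRp

/-! Package MLb: reduction of the coefficients along coordinate lines. -/

set_option autoImplicit false
open Classical
open scoped commutatorElement

namespace ANd

namespace MLb

variable {ι : Type}

/-- All support points satisfy `P`. -/
def Sup (P : (ι → ℤ) → Prop) (x : ZH ι) : Prop := ∀ h ∈ x.coeff.support, P h

theorem Sup.mono {P Q : (ι → ℤ) → Prop} {x : ZH ι} (H : Sup P x) (hQ : ∀ h, P h → Q h) :
    Sup Q x := fun h hh => hQ h (H h hh)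

theorem Sup.zero (P : (ι → ℤ) → Prop) : Sup P (0 : ZH ι) := fun h hh => by simp at hh

theorem Sup.add {P : (ι → ℤ) → Prop} {x y : ZH ι} (H : Sup P x) (H' : Sup P y) :
    Sup P (x + y) := fun h hh => (mem_supp_add hh).elim (H h) (H' h)

theorem Sup.neg {P : (ι → ℤ) → Prop} {x : ZH ι} (H : Sup P x) : Sup P (-x) :=
  fun h hh => H h (by simpa using hh)

theorem Sup.sum {I : Type} {P : (ι → ℤ) → Prop} (s : Finset I) (f : I → ZH ι)
    (H : ∀ i ∈ s, Sup P (f i)) : Sup P (∑ i ∈ s, f i) := by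
  induction s using Finset.induction_on with
  | empty => simpa using Sup.zero P
  | insert i s hi ih =>
    rw [Finset.sum_insert hi]
    exact (H i (by simp)).add (ih fun j hj => H j (by simp [hj]))

theorem Sup.smul_tau {P : (ι → ℤ) → Prop} (n : ℤ) (g : ι → ℤ) (H : n ≠ 0 → P g) :
    Sup P (n • tau g) := fun h hh => by
  by_cases hn : n = 0
  · simp [hn] at hh
  · rw [mem_supp_tau (Finsupp.support_smul hh)]; exact H hn

/-- The part of `x` on the points with `Q`. -/
noncomputable def fl (Q : (ι → ℤ) → Prop) (x : ZH ι) : ZH ι :=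
  AddMonoidAlgebra.ofCoeff (x.coeff.filter Q)

theorem fl_coeff (Q : (ι → ℤ) → Prop) (x : ZH ι) (h : ι → ℤ) :
    (fl Q x).coeff h = if Q h then x.coeff h else 0 := Finsupp.filter_apply _ _ _

theorem fl_add (Q : (ι → ℤ) → Prop) (x : ZH ι) : x = fl Q x + fl (fun h => ¬ Q h) x := by
  apply AddMonoidAlgebra.coeff_injective
  ext h
  rw [AddMonoidAlgebra.coeff_add, Finsupp.add_apply, fl_coeff, fl_coeff]
  by_cases hq : Q h <;> simp [hq]

theorem Sup.fl {P : (ι → ℤ) → Prop} {x : ZH ι} (H : Sup P x) (Q : (ι → ℤ) → Prop) :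
    Sup (fun h => P h ∧ Q h) (fl Q x) := fun h hh => by
  rw [Finsupp.mem_support_iff, fl_coeff] at hh
  by_cases hq : Q h
  · rw [if_pos hq] at hh
    exact ⟨H h (Finsupp.mem_support_iff.2 hh), hq⟩
  · exact absurd (if_neg hq) hh

/-- Apply `f` to all coefficients. -/
noncomputable def mp (f : ℤ → ℤ) (hf : f 0 = 0) (x : ZH ι) : ZH ι :=
  AddMonoidAlgebra.ofCoeff (x.coeff.mapRange f hf)

theorem mp_coeff (f : ℤ → ℤ) (hf : f 0 = 0) (x : ZH ι) (h : ι → ℤ) :
    (mp f hf x).coeff h = f (x.coeff h) := Finsupp.mapRange_apply (hf := hf)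

theorem Sup.mp {P : (ι → ℤ) → Prop} {x : ZH ι} (H : Sup P x) (f : ℤ → ℤ) (hf : f 0 = 0) :
    Sup P (mp f hf x) := fun h hh => H h (Finsupp.support_mapRange (hf := hf) hh)

theorem div_mod (c : ℤ) (x : ZH ι) :
    x = c • mp (· / c) (by simp) x + mp (· % c) (by simp) x := by
  apply AddMonoidAlgebra.coeff_injective
  ext h
  rw [AddMonoidAlgebra.coeff_add, Finsupp.add_apply, AddMonoidAlgebra.coeff_smul,
    Finsupp.smul_apply, mp_coeff, mp_coeff, smul_eq_mul, Int.mul_ediv_add_emod]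

/-- A relation along the axis `a` in the direction `ε`. -/
theorem rel {J : Ideal (ZH ι)} {rho : ℕ} (hJ : FR J rho) (a : ι) {ε : ℤ} (hε : ε * ε = 1) :
    ∃ (c : ℤ) (w : ZH ι), c ≠ 0 ∧
      Sup (fun h => (∀ b, b ≠ a → h b = 0) ∧ -(rho : ℤ) ≤ ε * h a ∧ ε * h a < 0) w ∧
      c • (1 : ZH ι) - w ∈ J := by
  obtain ⟨n, hn, hs⟩ := hJ fun i => tau (Pi.single a (ε * ((i : ℕ) : ℤ)))
  obtain ⟨e, he, hm⟩ := Finset.exists_max_image (Finset.univ.filter fun i => n i ≠ 0) id (by
    by_contra h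
    refine hn (funext fun i => ?_)
    by_contra hi
    exact h ⟨i, by simpa using hi⟩)
  have he' : n e ≠ 0 := by simpa using he
  refine ⟨n e, -∑ i ∈ Finset.univ.erase e,
    n i • tau (Pi.single a (ε * (((i : ℕ) : ℤ) - ((e : ℕ) : ℤ)))), he', ?_, ?_⟩
  · refine (Sup.sum _ _ fun i hi => Sup.smul_tau _ _ fun h0 => ?_).neg
    have h1 : i ≤ e := hm i (by simpa using h0)
    have h2 : (i : ℕ) < (e : ℕ) := lt_of_le_of_ne h1 fun h => (Finset.mem_erase.1 hi).1 (Fin.ext h)
    have h3 := e.2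
    refine ⟨fun b hb => Pi.single_eq_of_ne hb _, ?_⟩
    rw [Pi.single_eq_same, ← mul_assoc, hε, one_mul]
    omega
  · have := J.mul_mem_left (tau (Pi.single a (-(ε * ((e : ℕ) : ℤ))))) hs
    convert this using 1
    rw [Finset.mul_sum, ← Finset.add_sum_erase _ _ (Finset.mem_univ e), sub_neg_eq_add]
    congr 1
    · rw [mul_smul_comm, tau_mul, ← Pi.single_add, neg_add_cancel, Pi.single_zero, tau_zero]
    · refine Finset.sum_congr rfl fun i _ => ?_
      rw [mul_smul_comm, tau_mul, ← Pi.single_add]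
      congr 3
      ring

/-- Carrying along all half lines in the direction `ε e_a` at once. -/
theorem half {J : Ideal (ZH ι)} {rho C : ℕ} {a : ι} {ε c : ℤ} {w : ZH ι} (hc : c ≠ 0)
    (hw : Sup (fun h => (∀ b, b ≠ a → h b = 0) ∧ -(rho : ℤ) ≤ ε * h a ∧ ε * h a < 0) w)
    (hJ : c • (1 : ZH ι) - w ∈ J) (N : ℕ) : ∀ x : ZH ι,
    Sup (fun h => (∀ b, b ≠ a → |h b| ≤ (C : ℤ)) ∧ -(rho : ℤ) ≤ ε * h a ∧ ε * h a < N) x →
    ∃ sg ph : ZH ι, Sup (fun h => (∀ b, b ≠ a → |h b| ≤ (C : ℤ)) ∧ 0 ≤ ε * h a ∧ ε * h a < N) sg ∧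
      (∀ h, |sg.coeff h| ≤ |c|) ∧
      Sup (fun h => (∀ b, b ≠ a → |h b| ≤ (C : ℤ)) ∧ -(rho : ℤ) ≤ ε * h a ∧ ε * h a < 0) ph ∧
      x - sg - ph ∈ J := by
  induction N with
  | zero =>
    intro x hx
    exact ⟨0, x, Sup.zero _, fun h => by simp, by simpa using hx, by simp⟩
  | succ N ih =>
    intro x hx
    set t := fl (fun h => ε * h a = N) x with ht
    set q := mp (· / c) (by simp) t with hq
    set r := mp (· % c) (by simp) t with hr
    have st := hx.fl fun h => ε * h a = N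
    have sq : Sup _ q := st.mp _ _
    have sr : Sup _ r := st.mp _ _
    obtain ⟨sg, ph, s1, s2, s3, s4⟩ := ih (fl (fun h => ¬ ε * h a = N) x + q * w) (by
      refine Sup.add ((hx.fl _).mono fun h hh => ⟨hh.1.1, hh.1.2.1, ?_⟩) fun h hh => ?_
      · have h1 := hh.1.2.2
        have h2 := hh.2
        push_cast at h1
        omega
      · obtain ⟨g, hg, g', hg', rfl⟩ := mem_supp_mul hh
        obtain ⟨⟨g1, -⟩, g2⟩ := sq g hg
        obtain ⟨g3, g4, g5⟩ := hw g' hg'
        refine ⟨fun b hb => by simpa [g3 b hb] using g1 b hb, ?_⟩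
        rw [Pi.add_apply, mul_add]
        omega)
    refine ⟨sg + r, ph, Sup.add (s1.mono fun h hh => ⟨hh.1, hh.2.1, ?_⟩)
      (sr.mono fun h hh => ⟨hh.1.1, ?_, hh.1.2.2⟩), fun h => ?_, s3, ?_⟩
    · have := hh.2.2
      push_cast
      omega
    · have := hh.2
      omega
    · rw [AddMonoidAlgebra.coeff_add, Finsupp.add_apply]
      by_cases hN : ε * h a = N
      · have : sg.coeff h = 0 := by
          by_contra h0
          have := (s1 h (Finsupp.mem_support_iff.2 h0)).2.2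
          omega
        rw [this, zero_add, hr, mp_coeff, abs_of_nonneg (Int.emod_nonneg _ hc)]
        exact (Int.emod_lt_abs _ hc).le
      · have : r.coeff h = 0 := by
          by_contra h0
          exact hN (sr h (Finsupp.mem_support_iff.2 h0)).2
        rw [this, add_zero]
        exact s2 h
    · have e1 := fl_add (fun h => ε * h a = N) x
      have e2 := div_mod c t
      rw [← ht] at e1
      rw [← hq, ← hr] at e2
      have := J.add_mem s4 (J.mul_mem_left q hJ)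
      convert this using 1
      rw [mul_sub, mul_smul_comm, mul_one]
      generalize fl (fun h => ¬ ε * h a = N) x = y at e1 ⊢
      clear_value q r t
      rw [e1, e2]
      abel

/-- The conclusion of the package. -/
def Gd (J : Ideal (ZH ι)) (C K : ℕ) (x : ZH ι) : Prop :=
  ∃ sg ph, LineT C (K + C) sg ∧ Win C ph ∧ x - sg - ph ∈ J

theorem Gd.add {J : Ideal (ZH ι)} {C C' K : ℕ} {x y : ZH ι} (H : Gd J C K x) (H' : Gd J C' K y) :
    Gd J (C + C') K (x + y) := by
  obtain ⟨s, p, h1, h2, h3⟩ := H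
  obtain ⟨s', p', h1', h2', h3'⟩ := H'
  refine ⟨s + s', p + p', (h1.mono le_rfl (by omega)).add (h1'.mono le_rfl (by omega)),
    (h2.mono (by omega)).add (h2'.mono (by omega)), ?_⟩
  convert J.add_mem h3 h3' using 1
  abel

theorem cover {I : Type} {J : Ideal (ZH ι)} (P : I → ℕ → (ι → ℤ) → Prop) (s : Finset I)
    (hP : ∀ i ∈ s, ∃ C, ∀ K x, Sup (P i K) x → Gd J C K x) :
    ∃ C, ∀ K x, Sup (fun h => ∃ i ∈ s, P i K h) x → Gd J C K x := by
  induction s using Finset.induction_on with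
  | empty =>
    refine ⟨0, fun K x hx => ⟨0, x, LineT.zero _ _, fun h hh => ?_, by simp⟩⟩
    simpa using hx h hh
  | insert i s hi ih =>
    obtain ⟨C, hC⟩ := hP i (by simp)
    obtain ⟨C', hC'⟩ := ih fun j hj => hP j (by simp [hj])
    refine ⟨C + C', fun K x hx => ?_⟩
    rw [fl_add (P i K) x]
    refine (hC K _ ((hx.fl _).mono fun h hh => hh.2)).add
      (hC' K _ ((hx.fl _).mono fun h hh => ?_))
    obtain ⟨⟨j, hj, h1⟩, h2⟩ := hh
    rcases Finset.mem_insert.1 hj with rfl | hj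
    · exact absurd h1 h2
    · exact ⟨j, hj, h1⟩

theorem abs_of_sq {ε z : ℤ} (hε : ε * ε = 1) : |z| = |ε * z| := by
  rcases Int.eq_one_or_neg_one_of_mul_eq_one hε with rfl | rfl <;> simp

theorem line [Fintype ι] {J : Ideal (ZH ι)} {rho : ℕ} (hJ : FR J rho) (C : ℕ) (a : ι) {ε : ℤ}
    (hε : ε * ε = 1) : ∃ C', ∀ (K : ℕ) (x : ZH ι),
      Sup (fun h => (∀ b, b ≠ a → |h b| ≤ (C : ℤ)) ∧ 0 ≤ ε * h a ∧ ε * h a ≤ K) x →
      Gd J C' K x := by
  obtain ⟨c, w, hc, hw, hm⟩ := rel hJ a hε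
  refine ⟨C + rho + c.natAbs + (Sm_finite (ι := ι) C).toFinset.card, fun K x hx => ?_⟩
  obtain ⟨sg, ph, s1, s2, s3, s4⟩ := half (C := C) hc hw hm (K + 1) x
    (hx.mono fun h hh => ⟨hh.1, by have := hh.2.1; omega, by have := hh.2.2; push_cast; omega⟩)
  refine ⟨sg, ph, ⟨⟨(Sm_finite (ι := ι) C).toFinset.image fun h0 => (a, h0),
    Finset.card_image_le.trans (by omega), fun h hh => ?_⟩, fun h hh b => ?_, fun h => ?_⟩,
    fun h hh b => ?_, s4⟩
  · refine ⟨(a, Function.update h a 0), Finset.mem_image_of_mem _ ?_, fun b hb => ?_⟩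
    · rw [Set.Finite.mem_toFinset]
      intro b
      by_cases hb : b = a
      · subst hb; simp
      · rw [Function.update_of_ne hb]; exact (s1 h hh).1 b hb
    · exact (Function.update_of_ne hb _ _).symm
  · obtain ⟨h1, h2, h3⟩ := s1 h hh
    by_cases hb : b = a
    · subst hb
      rw [abs_of_sq hε, abs_of_nonneg h2]
      push_cast at h3 ⊢
      have := abs_nonneg c
      omega
    · refine (h1 b hb).trans ?_
      exact_mod_cast (by omega)
  · refine (s2 h).trans ?_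
    rw [← Int.natCast_natAbs]
    exact_mod_cast (by omega)
  · obtain ⟨h1, h2, h3⟩ := s3 h hh
    by_cases hb : b = a
    · subst hb
      rw [abs_of_sq hε, abs_of_neg h3]
      push_cast
      have := abs_nonneg c
      omega
    · refine (h1 b hb).trans ?_
      exact_mod_cast (by omega)

end MLb

theorem pMLb : S_MLb := by
  intro ι _ J rho _ hJ C
  obtain ⟨C', hC⟩ := MLb.cover (J := J) (fun (i : ι × ℤ) (K : ℕ) (h : ι → ℤ) =>
      (∀ b, b ≠ i.1 → |h b| ≤ (C : ℤ)) ∧ 0 ≤ i.2 * h i.1 ∧ i.2 * h i.1 ≤ K)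
    (Finset.univ ×ˢ ({1, -1} : Finset ℤ)) (fun i hi => MLb.line hJ C i.1 (by
      have := (Finset.mem_product.1 hi).2
      simp only [Finset.mem_insert, Finset.mem_singleton] at this
      rcases this with h | h <;> simp [h]))
  refine ⟨C', fun K x hx => hC K x fun h hh => ?_⟩
  obtain ⟨a, h1, h2⟩ := hx h hh
  have h3 := abs_le.1 h2
  by_cases h0 : 0 ≤ h a
  · exact ⟨(a, 1), by simp, h1, by simpa using h0, by simpa using h3.2⟩
  · refine ⟨(a, -1), by simp, h1, ?_, ?_⟩ <;> simp only <;> omega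

theorem pML0 (h1 : S_MLa) (h2 : S_MLb) : S_ML0 := by
  intro ι _ J rho hT hF
  obtain ⟨C, hC⟩ := h1 ι J rho hT hF
  obtain ⟨C', hC'⟩ := h2 ι J rho hT hF C
  refine ⟨C + C', fun k hk nu hnu => ?_⟩
  obtain ⟨x, ph, a1, a2, a3⟩ := hC k hk nu hnu
  obtain ⟨sg, ph', b1, b2, b3⟩ := hC' _ x a1
  refine ⟨sg, ph + ph', b1.mono (by omega) (by nlinarith), (a2.mono (by omega)).add
    (b2.mono (by omega)), ?_⟩
  convert J.add_mem a3 b3 using 1
  abel

end ANd
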