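import Pool.Agent.P.MP_5e7d86_al.BRp

/-! Package MLp: reduction to boundedly many lines in characteristic `p`. -/

set_option autoImplicit false
open Classical
open scoped commutatorElement

namespace ANd

namespace MLp

variable {ι : Type}

/-- points of the window with at most one coordinate far from the boundary -/
def Ter (k D : ℕ) : Set (ι → ℤ) := {h | Sm k h ∧ ∃ a, ∀ b, b ≠ a → (k : ℤ) - 2 * D < |h b|}

theorem supp_span {T : Set (ι → ℤ)} {y : ZH ι} (hy : y ∈ Submodule.span ℤ (tau '' T)) :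
    ∀ h ∈ y.coeff.support, h ∈ T := by
  induction hy using Submodule.span_induction with
  | mem x hx =>
    obtain ⟨g, hg, rfl⟩ := hx
    exact fun h hh => mem_supp_tau hh ▸ hg
  | zero => simp
  | add x y _ _ hx hy => exact fun h hh => (mem_supp_add hh).elim (hx h) (hy h)
  | smul n x _ hx => exact fun h hh => hx h (Finsupp.support_smul hh)

theorem tau_mem [Fintype ι] [Nonempty ι] {J : Ideal (ZH ι)} {p : ℕ} (hp : p.Prime)
    (hJ : (p : ZH ι) ∈ J) {D : ℕ}
    (hx : ∀ a b : ι, a ≠ b → ∃ x ∈ J, Win D x ∧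
      (∀ h ∈ x.coeff.support, ∀ c, c ≠ a → c ≠ b → h c = 0) ∧ ∃ h, ¬ (p : ℤ) ∣ x.coeff h)
    (k : ℕ) (h : ι → ℤ) (hh : Sm k h) :
    tau h ∈ Submodule.span ℤ (tau '' Ter k D) ⊔ J.restrictScalars ℤ := by
  set M := Submodule.span ℤ (tau '' Ter k D) ⊔ J.restrictScalars ℤ with hM
  let _ : LinearOrder ι := LinearOrder.lift' (Fintype.equivFin ι) (Equiv.injective _)
  have hJM : ∀ y ∈ J, y ∈ M := fun y hy => Submodule.mem_sup_right hy
  have hpM : ∀ (c : ℤ) (y : ZH ι), (p : ℤ) ∣ c → c • y ∈ M := by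
    rintro _ y ⟨c, rfl⟩
    refine hJM _ ?_
    rw [mul_smul, natCast_zsmul, nsmul_eq_mul]
    exact J.mul_mem_right _ hJ
  have wf := (Sm_finite (ι := ι) k).wellFoundedOn (r := fun g g' => toLex g' < toLex g)
  refine wf.induction hh (P := fun h => tau h ∈ M) fun h hh ih => ?_
  by_cases hT : ∃ a, ∀ b, b ≠ a → (k : ℤ) - 2 * D < |h b|
  · exact Submodule.mem_sup_left (Submodule.subset_span ⟨h, ⟨hh, hT⟩, rfl⟩)
  push Not at hT
  obtain ⟨a, -, ha⟩ := hT (Classical.arbitrary ι)
  obtain ⟨b, hba, hb⟩ := hT a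
  obtain ⟨x, x1, x2, x3, m1, x4⟩ := hx a b hba.symm
  obtain ⟨m, hm, hmin⟩ := (x.coeff.support.filter fun m => ¬ (p : ℤ) ∣ x.coeff m).exists_min_image
    toLex ⟨m1, Finset.mem_filter.2 ⟨Finsupp.mem_support_iff.2 fun e => x4 (e ▸ dvd_zero _), x4⟩⟩
  obtain ⟨hm1, hm2⟩ := Finset.mem_filter.1 hm
  have e : tau (h - m) * x = x.coeff m • tau h +
      ∑ u ∈ x.coeff.support.erase m, x.coeff u • tau (h - m + u) := by
    conv_lhs => rw [eq_sum_tau x, Finset.mul_sum, ← Finset.add_sum_erase _ _ hm1]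
    simp only [mul_smul_comm, tau_mul, sub_add_cancel]
  have h1 : x.coeff m • tau h ∈ M := by
    rw [← sub_eq_iff_eq_add] at e
    rw [← e]
    refine M.sub_mem (hJM _ (J.mul_mem_left _ x1)) (M.sum_mem fun u hu => ?_)
    obtain ⟨u1, u2⟩ := Finset.mem_erase.1 hu
    by_cases hd : (p : ℤ) ∣ x.coeff u
    · exact hpM _ _ hd
    refine M.smul_mem _ (ih _ (fun c => ?_) ?_)
    · have k1 := abs_le.1 (x2 m hm1 c)
      have k2 := abs_le.1 (x2 u u2 c)
      rw [Pi.add_apply, Pi.sub_apply]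
      by_cases hc : c = a ∨ c = b
      · have k3 : |h c| ≤ (k : ℤ) - 2 * D := by rcases hc with rfl | rfl <;> assumption
        have k4 := abs_le.1 k3
        rw [abs_le]
        constructor <;> omega
      · push Not at hc
        rw [x3 m hm1 c hc.1 hc.2, x3 u u2 c hc.1 hc.2, sub_zero, add_zero]
        exact hh c
    · have k1 : toLex m < toLex u := (hmin u (Finset.mem_filter.2 ⟨u2, hd⟩)).lt_of_ne
        fun e => u1 (toLex.injective e).symm
      have k2 := add_lt_add_right k1 (toLex (h - m))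
      rwa [← toLex_add, ← toLex_add, sub_add_cancel] at k2
  obtain ⟨r, s, hrs⟩ := (Nat.prime_iff_prime_int.1 hp).irreducible.coprime_iff_not_dvd.2 hm2
  rw [← one_smul ℤ (tau h), ← hrs, add_smul, mul_smul s]
  exact M.add_mem (hpM _ _ (dvd_mul_left _ _)) (M.smul_mem _ h1)

end MLp

theorem pMLp : S_MLp := by
  intro ι _ J p hp hJ hP
  rcases isEmpty_or_nonempty ι with hι | hι
  · exact ⟨0, fun k _ nu _ => ⟨0, nu, LineT.zero _ _, fun _ _ a => hι.elim a, by simp⟩⟩
  choose! x hx using fun q : ι × ι => hP q.1 q.2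
  obtain ⟨D, hD⟩ := exists_Win_fin (Finset.univ.image x)
  refine ⟨Fintype.card ι * (4 * D + 2) ^ Fintype.card ι + p, fun k _ nu hnu => ?_⟩
  have h1 : nu ∈ Submodule.span ℤ (tau '' MLp.Ter k D) ⊔ J.restrictScalars ℤ := by
    rw [eq_sum_tau nu]
    exact Submodule.sum_mem _ fun h hh => Submodule.smul_mem _ _ (MLp.tau_mem hp hJ
      (fun a b hab => ⟨x (a, b), (hx (a, b) hab).1, hD _ (by simp), (hx (a, b) hab).2⟩) k h
      (hnu h hh))
  obtain ⟨y, hy, z, hz, rfl⟩ := Submodule.mem_sup.1 h1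
  have h2 := MLp.supp_span hy
  have hp0 : (0 : ℤ) < p := by exact_mod_cast hp.pos
  set sg : ZH ι := AddMonoidAlgebra.ofCoeff (y.coeff.mapRange (· % (p : ℤ)) (by simp)) with hsg
  set q : ZH ι := AddMonoidAlgebra.ofCoeff (y.coeff.mapRange (· / (p : ℤ)) (by simp)) with hq
  have h3 : ∀ h ∈ sg.coeff.support, h ∈ MLp.Ter k D := fun h hh =>
    h2 h (Finsupp.support_mapRange (hf := by simp) hh)
  have h4 : y = sg + p • q := by
    apply AddMonoidAlgebra.coeff_injective
    ext h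
    change y.coeff h = y.coeff h % p + p • (y.coeff h / p)
    rw [nsmul_eq_mul, Int.emod_add_mul_ediv]
  set I : Finset ℤ := Finset.Icc ((k : ℤ) - 2 * D) k ∪ Finset.Icc (-(k : ℤ)) (-k + 2 * D) with hI
  have h5 : I.card ≤ 4 * D + 2 := by
    refine (Finset.card_union_le _ _).trans ?_
    rw [Int.card_Icc, Int.card_Icc]
    omega
  refine ⟨sg, 0, ⟨⟨Finset.univ ×ˢ Fintype.piFinset fun _ => I, ?_, fun h hh => ?_⟩,
    fun h hh => (h3 h hh).1.mono (Nat.le_mul_of_pos_left _ (by have := hp.pos; omega)),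
    fun h => ?_⟩, Win.zero _, ?_⟩
  · rw [Finset.card_product, Finset.card_univ, Fintype.card_piFinset, Finset.prod_const,
      Finset.card_univ]
    exact (Nat.mul_le_mul_left _ (Nat.pow_le_pow_left h5 _)).trans (Nat.le_add_right _ _)
  · obtain ⟨k1, a, k2⟩ := h3 h hh
    refine ⟨(a, Function.update h a k), Finset.mem_product.2 ⟨Finset.mem_univ _,
      Fintype.mem_piFinset.2 fun b => ?_⟩, fun b hb => (Function.update_of_ne hb _ _).symm⟩
    simp only [hI, Finset.mem_union, Finset.mem_Icc]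
    by_cases hb : b = a
    · rw [hb, Function.update_self]
      omega
    · rw [Function.update_of_ne hb]
      have k3 := abs_le.1 (k1 b)
      have k4 := lt_abs.1 (k2 b hb)
      omega
  · have k1 : sg.coeff h = y.coeff h % p := rfl
    have k2 := Int.emod_nonneg (y.coeff h) hp0.ne'
    have k3 := Int.emod_lt_of_pos (y.coeff h) hp0
    rw [k1, abs_of_nonneg k2]
    push_cast
    exact k3.le.trans (le_add_of_nonneg_left (by positivity))
  · rw [sub_zero, h4, add_sub_right_comm, add_sub_cancel_left, nsmul_eq_mul]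
    exact J.add_mem (J.mul_mem_right _ hJ) hz

end ANd
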