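import Pool.Agent.P.MP_5e7d86_al.BRp

set_option autoImplicit false
open Classical
open scoped commutatorElement

namespace ANd

theorem Main.fi_range {G H K : Type} [Group G] [Group H] [Group K] (f : H →* G) (g : K →* H)
    (hf : f.range.FiniteIndex) (hg : g.range.FiniteIndex) : (f.comp g).range.FiniteIndex := by
  rw [MonoidHom.range_comp]
  refine ⟨?_⟩
  rw [Subgroup.index_map]
  refine mul_ne_zero ?_ hf.index_ne_zero
  exact (Subgroup.finiteIndex_of_le (le_sup_left : g.range ≤ g.range ⊔ f.ker)).index_ne_zero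

theorem Main.fi_sub {G : Type} [Group G] (H : Subgroup G) (h : H.FiniteIndex) :
    H.subtype.range.FiniteIndex := by rwa [Subgroup.range_subtype]

theorem pMain (hWl : S_Wl) (hConv : S_Conv) (hGeo : S_Geo) (hFI : S_FI) (hCC : S_CC)
    (hAmen : S_Amen) (hKK : S_KK) (hFGR : S_FGR) (hUnip : S_Unip) (hMatF : S_MatF)
    (hMatL : S_MatL) (hCore : S_Core) : S_Main := by
  intro G _ S hS ⟨H, hH, hcl⟩ hFol d
  refine ⟨fun has => ?_, fun ⟨c, h⟩ r => ⟨c * r, h r⟩⟩
  have fgG : Group.FG G := Group.fg_iff.2 ⟨S, hS, S.finite_toSet⟩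
  have fgH : Group.FG H := H.fg_of_index_ne_zero
  have hlin : ∃ (n : ℕ) (R : Type) (_ : CommRing R) (psi : H →* GL (Fin n) R),
      Function.Injective psi := by
    rcases hcl with h | h
    · obtain ⟨R, iR, psi, hpsi⟩ := hKK H (by
        rw [← Subgroup.map_eq_bot_iff_of_injective _ H.subtype_injective, Subgroup.map_commutator,
          Subgroup.map_subtype_commutator]
        exact h)
      exact ⟨2, R, iR, psi, hpsi⟩
    · exact h
  obtain ⟨n, R, _, psi, hpsi⟩ := hlin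
  obtain ⟨R0, _, _, psi0, hpsi0⟩ := hFGR.1 H n R psi hpsi
  have amH : Amen H := hAmen.2 G H (hAmen.1 G S hS hFol)
  obtain ⟨H1, e0, hH1, hun⟩ := hUnip H n R0 psi0 amH
  have fgH1 : Group.FG H1 := H1.fg_of_index_ne_zero
  obtain ⟨G0, d0, pr, hG0, hsurj, hker⟩ := hFGR.2 H1
  let j : G0 →* H := H1.subtype.comp G0.subtype
  have hj : Function.Injective j := H1.subtype_injective.comp G0.subtype_injective
  let f : G0 →* G := H.subtype.comp j
  have hf : Function.Injective f := H.subtype_injective.comp hj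
  have hfi : f.range.FiniteIndex :=
    Main.fi_range _ _ (Main.fi_sub H hH) (Main.fi_range _ _ (Main.fi_sub H1 hH1) (Main.fi_sub G0 hG0))
  let psi1 : G0 →* GL (Fin n) R0 := psi0.comp j
  have hpsi1 : Function.Injective psi1 := hpsi0.comp hj
  have hun1 : Unip psi1 pr.ker e0 := by
    intro L hL hmem
    have := hun (L.map j) (by simpa using hL) (by
      intro x hx
      obtain ⟨y, hy, rfl⟩ := List.mem_map.1 hx
      have h1 := (hker y).1 (hmem y hy)
      rw [← Subgroup.map_subtype_commutator]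
      exact Subgroup.mem_map_of_mem _ h1)
    rw [List.map_map] at this
    exact this
  have : IsNoetherianRing R0 := Algebra.FiniteType.isNoetherianRing ℤ R0
  have hF : Filt pr.ker pr.ker := hMatF G0 n R0 psi1 pr.ker e0 hpsi1 hun1
  obtain ⟨A, _, _, ⟨RD⟩⟩ := hMatL G0 n R0 psi1 pr.ker e0 hpsi1 inferInstance hun1
  obtain ⟨w1, w2, -⟩ := hWl G S hS
  obtain ⟨g1, -, g3, -, g5, g6⟩ := hGeo G (wl S) w1
  obtain ⟨a1, a2, a3, a4⟩ := g6 G0 f hf
  obtain ⟨hW, L0, hL0⟩ := hFI G S hS G0 f hf hfi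
  have hAs : AsLe (fun h => wl S (f h)) d := fun r => by
    obtain ⟨B, hB⟩ := has r
    exact ⟨B, (a1 d r B).2 (g1 _ _ _ _ _ _ _ _ ((hConv G S hS d r B).1 hB) (Set.subset_univ _)
      le_rfl le_rfl le_rfl)⟩
  obtain ⟨c, hc⟩ := hCore G0 _ a4 (a3 w2) (a2 (hCC G S hS hFol)) hW pr.ker d0 pr hsurj
    (fun g => MonoidHom.mem_ker) hF A RD d hAs
  refine ⟨c * (1 + 2 * L0) + 2 * L0, fun r => (hConv G S hS d r _).2 ?_⟩
  rcases Nat.eq_zero_or_pos r with rfl | hr
  · simpa using g5 Set.univ d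
  · have h1 := g3 Set.univ (Set.range f) d r (c * (r + 2 * L0)) L0 (fun y _ => by
      obtain ⟨h, hh⟩ := hL0 y
      exact ⟨f h, ⟨h, rfl⟩, hh⟩) ((a1 d _ _).1 (hc (r + 2 * L0)))
    refine g1 _ _ _ _ _ _ _ _ h1 le_rfl le_rfl le_rfl ?_
    have e1 : r + 2 * L0 ≤ (1 + 2 * L0) * r := by nlinarith
    have e2 : 2 * L0 ≤ 2 * L0 * r := Nat.le_mul_of_pos_right _ hr
    have e3 := Nat.mul_le_mul_left c e1
    nlinarith

end ANd
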