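import Pool.Agent.P.MP_5e7d86_al.BRp

/-! The filtration of a unipotent group of matrices over a noetherian ring. -/

set_option autoImplicit false
open Classical
open scoped commutatorElement Pointwise

namespace ANd

namespace MatF

variable {G R A : Type} [Group G] [CommRing R] [Ring A] [Algebra R A] (psi : G →* Aˣ)
  (N : Subgroup G)

/-- the distance from the identity -/
def y (x : G) : A := (psi x : A) - 1

theorem y_mul (x x' : G) : y psi (x * x') = y psi x + y psi x' + y psi x * y psi x' := by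
  simp only [y, map_mul, Units.val_mul]
  noncomm_ring

theorem y_one : y psi 1 = 0 := by simp [y]

/-- the span of the `y x` -/
def U : Submodule R A := Submodule.span R (y psi '' N)

/-- the congruence subgroup -/
def Gam (P : Submodule R A) : Subgroup G where
  carrier := {x | x ∈ N ∧ ∀ g ∈ N, (psi g : A) * y psi x ∈ P}
  one_mem' := ⟨N.one_mem, fun g _ => by rw [y_one, mul_zero]; exact P.zero_mem⟩
  mul_mem' := fun {a b} ha hb => ⟨N.mul_mem ha.1 hb.1, fun g hg => by
    have e : (psi g : A) * y psi (a * b) = psi (g * a) * y psi b + psi g * y psi a := by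
      simp only [y, map_mul, Units.val_mul]
      noncomm_ring
    rw [e]
    exact P.add_mem (hb.2 _ (N.mul_mem hg ha.1)) (ha.2 g hg)⟩
  inv_mem' := fun {a} ha => ⟨N.inv_mem ha.1, fun g hg => by
    have e : (psi g : A) * y psi a⁻¹ = -(psi (g * a⁻¹) * y psi a) := by
      simp only [y, mul_sub, mul_one, ← Units.val_mul, ← map_mul, inv_mul_cancel_right, neg_sub]
    rw [e]
    exact P.neg_mem (ha.2 _ (N.mul_mem hg (N.inv_mem ha.1)))⟩

variable {psi N} {P P' : Submodule R A}

theorem y_mem {x : G} (hx : x ∈ N) : y psi x ∈ (U psi N : Submodule R A) :=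
  Submodule.subset_span ⟨x, hx, rfl⟩

theorem mem_Gam (h : U psi N * P ≤ P) {x : G} : x ∈ Gam psi N P ↔ x ∈ N ∧ y psi x ∈ P := by
  refine and_congr_right fun _ => ⟨fun H => by simpa using H 1 N.one_mem, fun H g hg => ?_⟩
  rw [show (psi g : A) * y psi x = y psi g * y psi x + y psi x by
    rw [y.eq_1 psi g, sub_mul, one_mul, sub_add_cancel]]
  exact P.add_mem (h (Submodule.mul_mem_mul (y_mem hg) H)) H

theorem UU : (U psi N : Submodule R A) * U psi N ≤ U psi N := by
  rw [U, Submodule.span_mul_span, Submodule.span_le]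
  rintro _ ⟨_, ⟨a, ha, rfl⟩, _, ⟨b, hb, rfl⟩, rfl⟩
  rw [show (fun u v => u * v) (y psi a) (y psi b) = y psi (a * b) - y psi a - y psi b by
    rw [y_mul]; abel]
  exact sub_mem (sub_mem (y_mem (N.mul_mem ha hb)) (y_mem ha)) (y_mem hb)

/-- a central layer -/
structure Cen (psi : G →* Aˣ) (N : Subgroup G) (P' P : Submodule R A) : Prop where
  le : P ≤ P'
  l : U psi N * P' ≤ P
  r : P' * U psi N ≤ P

theorem Cen.m (h : Cen psi N P' P) {x : G} : x ∈ Gam psi N P ↔ x ∈ N ∧ y psi x ∈ P :=
  mem_Gam ((mul_le_mul' le_rfl h.le).trans h.l)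

theorem Cen.m' (h : Cen psi N P' P) {x : G} : x ∈ Gam psi N P' ↔ x ∈ N ∧ y psi x ∈ P' :=
  mem_Gam (h.l.trans h.le)

theorem Cen.add (h : Cen psi N P' P) {x x' : G} (hx : x ∈ Gam psi N P') (hx' : x' ∈ Gam psi N P') :
    y psi (x * x') - (y psi x + y psi x') ∈ P := by
  rw [y_mul, add_sub_cancel_left]
  exact h.l (Submodule.mul_mem_mul (y_mem hx.1) (h.m'.1 hx').2)

theorem Cen.pow (h : Cen psi N P' P) {x : G} (hx : x ∈ Gam psi N P') (k : ℕ) :
    y psi (x ^ k) - k • y psi x ∈ P := by
  induction k with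
  | zero => simp [y_one]
  | succ k ih =>
    have := P.add_mem (h.add (pow_mem hx k) hx) ih
    rwa [show y psi (x ^ k * x) - (y psi (x ^ k) + y psi x) + (y psi (x ^ k) - k • y psi x) =
      y psi (x ^ (k + 1)) - (k + 1) • y psi x by rw [pow_succ, succ_nsmul]; abel] at this

/-- the recurrence hypothesis -/
def Rec (R : Type) [CommRing R] [Algebra R A] (psi : G →* Aˣ) : Prop :=
  ∀ (ι : Type) [Fintype ι] (f : (ι → ℤ) → G), f ∈ WordFun G ι →
    ∃ B : Finset (ι → ℤ), ∀ (P : Submodule R A) (x : (ι → ℤ) →₀ ℤ),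
      (∀ g ∈ B, (x.sum fun u z => z • y psi (f (g + u))) ∈ P) →
      ∀ g, (x.sum fun u z => z • y psi (f (g + u))) ∈ P

theorem Cen.lay (h : Cen psi N P' P) (hr : Rec R psi) : Lay N (Gam psi N P') (Gam psi N P) := by
  refine ⟨fun x hx => ⟨hx.1, fun g hg => h.le (hx.2 g hg)⟩, fun x hx => hx.1,
    Subgroup.commutator_le.2 fun g hg x hx => ?_, fun ι _ f hf hf' => ?_⟩
  · have a := (h.m'.1 hx).2
    have n := N.mul_mem (N.inv_mem hg) (N.inv_mem hx.1)
    have b : y psi g * y psi x - y psi x * y psi g ∈ P :=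
      sub_mem (h.l (Submodule.mul_mem_mul (y_mem hg) a)) (h.r (Submodule.mul_mem_mul a (y_mem hg)))
    refine h.m.2 ⟨by
      rw [commutatorElement_def, mul_assoc]
      exact N.mul_mem (N.mul_mem hg hx.1) n, ?_⟩
    have e : y psi ⁅g, x⁆ = (y psi g * y psi x - y psi x * y psi g) * y psi (g⁻¹ * x⁻¹) +
        (y psi g * y psi x - y psi x * y psi g) := by
      have e1 : y psi g * y psi x - y psi x * y psi g = psi (g * x) - psi (x * g) := by
        simp only [y, map_mul, Units.val_mul]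
        noncomm_ring
      rw [e1, y, y, mul_sub, mul_one, sub_add_cancel, sub_mul, ← Units.val_mul, ← Units.val_mul,
        ← map_mul, ← map_mul, commutatorElement_def]
      simp only [mul_assoc, mul_inv_cancel_left, mul_inv_cancel, map_one, Units.val_one]
    rw [e]
    exact P.add_mem (h.r (Submodule.mul_mem_mul (h.le b) (y_mem n))) b
  · obtain ⟨B, hB⟩ := hr ι f hf
    refine ⟨B, fun f' h1 h2 g => ?_⟩
    have key : (∀ g, f' g ∈ Gam psi N P') ∧ ∃ x : (ι → ℤ) →₀ ℤ, ∀ g,
        y psi (f' g) - Finsupp.linearCombination ℤ (fun u => y psi (f (g + u))) x ∈ P := by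
      clear h2
      induction h1 using Subgroup.closure_induction with
      | mem _ hu =>
        obtain ⟨u, rfl⟩ := hu
        exact ⟨fun g => hf' _, Finsupp.single u 1, fun g => by simp [shf]⟩
      | one => exact ⟨fun g => one_mem _, 0, fun g => by simp [y_one]⟩
      | mul a b _ _ ha hb =>
        obtain ⟨a1, x, a2⟩ := ha
        obtain ⟨b1, x', b2⟩ := hb
        refine ⟨fun g => mul_mem (a1 g) (b1 g), x + x', fun g => ?_⟩
        have := P.add_mem (h.add (a1 g) (b1 g)) (P.add_mem (a2 g) (b2 g))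
        rw [map_add, Pi.mul_apply]
        convert this using 1
        abel
      | inv a _ ha =>
        obtain ⟨a1, x, a2⟩ := ha
        refine ⟨fun g => inv_mem (a1 g), -x, fun g => ?_⟩
        have := P.neg_mem (P.add_mem (h.add (a1 g) (inv_mem (a1 g))) (a2 g))
        rw [mul_inv_cancel, y_one] at this
        rw [map_neg, Pi.inv_apply]
        convert this using 1
        abel
    obtain ⟨k1, x, k2⟩ := key
    refine h.m.2 ⟨(k1 g).1, ?_⟩
    have := hB P x (fun g hg => by
      have := P.sub_mem (h.m.1 (h2 g hg)).2 (k2 g)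
      rwa [sub_sub_cancel] at this) g
    exact (sub_add_cancel (y psi (f' g)) _) ▸ P.add_mem (k2 g) this

/-- the elements of `P'` pushed into `P` by `m` -/
def tor (P' P : Submodule R A) (m : ℕ) : Submodule R A :=
  P' ⊓ P.comap (m • (LinearMap.id : A →ₗ[R] A))

theorem mem_tor {m : ℕ} {v : A} : v ∈ tor P' P m ↔ v ∈ P' ∧ m • v ∈ P := Iff.rfl

theorem le_tor (h : P ≤ P') (m : ℕ) : P ≤ tor P' P m := fun _ hv => ⟨h hv, nsmul_mem hv m⟩

theorem tor_le (m k : ℕ) : tor P' P m ≤ tor P' P (k * m) := fun v hv =>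
  mem_tor.2 ⟨hv.1, by rw [mul_smul]; exact nsmul_mem (mem_tor.1 hv).2 k⟩

theorem Cen.mid (h : Cen psi N P' P) {Q Q' : Submodule R A} (h1 : P ≤ Q) (h2 : Q ≤ Q')
    (h3 : Q' ≤ P') : Cen psi N Q' Q :=
  ⟨h2, ((mul_le_mul' le_rfl h3).trans h.l).trans h1, ((mul_le_mul' h3 le_rfl).trans h.r).trans h1⟩

theorem Cen.step [IsNoetherian R A] (h : Cen psi N P' P) (hr : Rec R psi)
    (hF : Filt N (Gam psi N P)) : Filt N (Gam psi N P') := by
  have a : ∀ m : ℕ, m ≠ 0 → Filt N (Gam psi N (tor P' P m)) := fun m => by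
    induction m using induction_on_primes with
    | zero => exact fun h => absurd rfl h
    | one =>
      intro _
      rwa [show tor P' P 1 = P from le_antisymm (fun v hv => by simpa using (mem_tor.1 hv).2)
        (le_tor h.le 1)]
    | prime_mul p m hp ih =>
      intro hm
      have c := h.mid (le_tor h.le m) (tor_le m p) inf_le_left
      refine Filt.step _ _ (ih (right_ne_zero_of_mul hm)) (c.lay hr) (Or.inl ⟨p, hp, fun x hx => ?_⟩)
      obtain ⟨d1, d2⟩ := mem_tor.1 (c.m'.1 hx).2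
      have d3 : p • y psi x ∈ tor P' P m :=
        mem_tor.2 ⟨nsmul_mem d1 p, by rwa [← mul_smul, mul_comm]⟩
      exact c.m.2 ⟨pow_mem hx.1 p, by simpa using add_mem (c.pow hx p) d3⟩
  obtain ⟨_, ⟨m, hm, rfl⟩, hmax⟩ := set_has_maximal_iff_noetherian.2 (inferInstance : IsNoetherian R A)
    {Q | ∃ m : ℕ, m ≠ 0 ∧ tor P' P m = Q} ⟨_, 1, one_ne_zero, rfl⟩
  have c := h.mid (le_tor h.le m) inf_le_left le_rfl
  refine Filt.step _ _ (a m hm) (c.lay hr) (Or.inr fun x hx k hk hxk => c.m.2 ⟨hx.1, ?_⟩)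
  have d1 : k • y psi x ∈ tor P' P m := by
    simpa using sub_mem (c.m.1 hxk).2 (c.pow hx k)
  have d2 : tor P' P m = tor P' P (k * m) :=
    (tor_le m k).eq_or_lt.resolve_right (hmax _ ⟨k * m, mul_ne_zero hk hm, rfl⟩)
  rw [d2]
  exact mem_tor.2 ⟨(c.m'.1 hx).2, by rw [mul_comm, mul_smul]; exact (mem_tor.1 d1).2⟩

theorem filt [IsNoetherian R A] (hr : Rec R psi) (hi : Function.Injective psi) {e0 : ℕ}
    (h0 : (U psi N : Submodule R A) ^ e0 = ⊥) : Filt N N := by
  have c : ∀ s : ℕ, Cen psi N ((U psi N : Submodule R A) ^ (s + 1)) (U psi N ^ (s + 1 + 1)) :=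
    fun s => ⟨by
      rw [pow_succ, pow_succ, mul_assoc]
      exact mul_le_mul' le_rfl UU, (pow_succ' _ _).ge, (pow_succ _ _).ge⟩
  have a : ∀ j s : ℕ, e0 ≤ s + j → Filt N (Gam psi N ((U psi N : Submodule R A) ^ (s + 1))) := by
    intro j
    induction j with
    | zero =>
      intro s hs
      obtain ⟨t, rfl⟩ := Nat.exists_eq_add_of_le hs
      have : Gam psi N ((U psi N : Submodule R A) ^ (e0 + t + 1)) = ⊥ := by
        refine (Subgroup.eq_bot_iff_forall _).2 fun x hx => hi (Units.ext ?_)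
        have := ((c _).m'.1 hx).2
        rw [add_assoc, pow_add, h0, Submodule.bot_mul, Submodule.mem_bot, y, sub_eq_zero] at this
        rw [this, map_one, Units.val_one]
      rw [this]
      exact Filt.bot
    | succ j ih => exact fun s hs => (c s).step hr (ih (s + 1) (by omega))
  have := a e0 0 (by omega)
  rwa [show Gam psi N ((U psi N : Submodule R A) ^ (0 + 1)) = N from le_antisymm (fun x hx => hx.1)
    fun x hx => (c 0).m'.2 ⟨hx, by rw [zero_add, pow_one]; exact y_mem hx⟩] at this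

end MatF

theorem pMatF (hR : S_Rec) : S_MatF := by
  intro G _ n R _ _ psi N e0 hi hU
  refine MatF.filt (R := R) (hR G n R psi) hi (e0 := e0) ?_
  rw [MatF.U, Submodule.span_pow, Submodule.span_eq_bot]
  intro a ha
  obtain ⟨f, rfl⟩ := Set.mem_pow.1 ha
  choose x hx hy using fun i => (f i).2
  have := hU (List.ofFn x) List.length_ofFn fun z hz => by
    obtain ⟨i, rfl⟩ := List.mem_ofFn.1 hz
    exact hx i
  rw [List.map_ofFn] at this
  rw [← this]
  exact congrArg (fun g => (List.ofFn g).prod) (funext fun i => (hy i).symm)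

end ANd
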