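import Pool.Agent.P.MP_5e7d86_al.BRp

set_option autoImplicit false
open Classical
open scoped commutatorElement
open scoped TensorProduct

namespace ANd

namespace MatL

section Tors
variable {M : Type} [Ring M]

theorem pow_exp (y z : M) (h : Commute y z) (k : ℕ) :
    ∃ q, Commute y q ∧ (1 + z) ^ k = 1 + k • z + z * z * q := by
  induction k with
  | zero => exact ⟨0, Commute.zero_right _, by simp⟩
  | succ k ih =>
    obtain ⟨q, hq, e⟩ := ih
    refine ⟨q + (k : M) + q * z, (hq.add_right (Nat.commute_cast y k)).add_right (hq.mul_right h), ?_⟩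
    rw [pow_succ, e, nsmul_eq_mul, nsmul_eq_mul]
    have h1 : (k : M) * z * z = z * z * (k : M) := by
      rw [mul_assoc]; exact (Nat.cast_commute k (z * z)).eq
    push_cast
    rw [mul_add (z * z), mul_add (z * z), ← h1]
    noncomm_ring

theorem pow_iter (y : M) (k : ℕ) (hk : k • y = 0) (i : ℕ) :
    ∃ w, Commute y w ∧ (1 + y) ^ (k ^ i) = 1 + y ^ (i + 1) * w := by
  induction i with
  | zero => exact ⟨1, Commute.one_right _, by simp⟩
  | succ i ih =>
    obtain ⟨w, hw, e⟩ := ih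
    have hz : Commute y (y ^ (i + 1) * w) := ((Commute.refl y).pow_right _).mul_right hw
    obtain ⟨q, hq, e2⟩ := pow_exp y (y ^ (i + 1) * w) hz k
    refine ⟨y ^ i * w * w * q,
      ((((Commute.refl y).pow_right _).mul_right hw).mul_right hw).mul_right hq, ?_⟩
    rw [pow_succ k i, pow_mul, e, e2]
    have h0 : k • (y ^ (i + 1) * w) = 0 := by
      rw [pow_succ, mul_assoc, ← mul_smul_comm, ← smul_mul_assoc, hk, zero_mul, mul_zero]
    rw [h0, add_zero]
    congr 1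
    have h1 : w * y ^ (i + 1) = y ^ (i + 1) * w := (hw.symm.pow_right _).eq
    calc y ^ (i + 1) * w * (y ^ (i + 1) * w) * q
        = y ^ (i + 1) * (w * y ^ (i + 1)) * w * q := by simp only [mul_assoc]
      _ = y ^ (i + 1) * (y ^ (i + 1) * w) * w * q := by rw [h1]
      _ = y ^ (i + 1 + 1) * (y ^ i * w * w * q) := by
        rw [pow_succ y (i + 1), pow_succ' y i]; simp only [mul_assoc]

theorem tors_of_tmul (y : M) (h : (1 : ℝ) ⊗ₜ[ℤ] y = 0) : ∃ k : ℕ, k ≠ 0 ∧ k • y = 0 := by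
  obtain ⟨phi, hphi⟩ : ∃ phi : ℝ →ₗ[ℚ] ℚ, phi 1 = 1 :=
    Module.Projective.exists_dual_eq_one ℚ (one_ne_zero : (1 : ℝ) ≠ 0)
  have h1 : (1 : ℚ) ⊗ₜ[ℤ] y = 0 := by
    have := congrArg (LinearMap.rTensor M (phi.restrictScalars ℤ)) h
    simpa [hphi] using this
  have : IsLocalizedModule (nonZeroDivisors ℤ) (TensorProduct.mk ℤ ℚ M 1) :=
    (isLocalizedModule_iff_isBaseChange (nonZeroDivisors ℤ) ℚ _).2 (TensorProduct.isBaseChange ℤ M ℚ)
  obtain ⟨s, hs⟩ := (IsLocalizedModule.eq_zero_iff (nonZeroDivisors ℤ)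
    (TensorProduct.mk ℤ ℚ M 1)).1 (show TensorProduct.mk ℤ ℚ M 1 y = 0 from h1)
  have hs0 : (s : ℤ) ≠ 0 := nonZeroDivisors.coe_ne_zero s
  refine ⟨(s : ℤ).natAbs, Int.natAbs_ne_zero.2 hs0, ?_⟩
  have hs1 : (s : ℤ) • y = 0 := hs
  rcases Int.natAbs_eq (s : ℤ) with e | e
  · rw [← natCast_zsmul, ← e, hs1]
  · have : ((s : ℤ).natAbs : ℤ) = -(s : ℤ) := by omega
    rw [← natCast_zsmul, this, neg_smul, hs1, neg_zero]

end Tors

section Main
variable {G : Type} [Group G] {M : Type} [Ring M]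

/-- The inclusion of the ring into its real scalar extension. -/
noncomputable def io (M : Type) [Ring M] : M →+* ℝ ⊗[ℤ] M :=
  (Algebra.TensorProduct.includeRight : M →ₐ[ℤ] ℝ ⊗[ℤ] M).toRingHom

theorem io_apply (y : M) : io M y = (1 : ℝ) ⊗ₜ[ℤ] y := rfl

/-- Product of the augmentation elements along a list. -/
def pr (psi : G →* Mˣ) (L : List G) : M := (L.map fun x => ((psi x : Mˣ) : M) - 1).prod

theorem pr_append (psi : G →* Mˣ) (L L' : List G) : pr psi (L ++ L') = pr psi L * pr psi L' := by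
  simp [pr]

/-- The span of the images of long products. -/
noncomputable def W (psi : G →* Mˣ) (N : Subgroup G) (m : ℕ) : Submodule ℝ (ℝ ⊗[ℤ] M) :=
  Submodule.span ℝ {a | ∃ L : List G, m ≤ L.length ∧ (∀ x ∈ L, x ∈ N) ∧ a = io M (pr psi L)}

theorem W_mul (psi : G →* Mˣ) (N : Subgroup G) (a b : ℕ) {x y : ℝ ⊗[ℤ] M}
    (hx : x ∈ W psi N a) (hy : y ∈ W psi N b) : x * y ∈ W psi N (a + b) := by
  induction hx using Submodule.span_induction with
  | zero => rw [zero_mul]; exact Submodule.zero_mem _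
  | add u v _ _ hu hv => rw [add_mul]; exact Submodule.add_mem _ hu hv
  | smul c u _ hu => rw [smul_mul_assoc]; exact Submodule.smul_mem _ _ hu
  | mem u hu =>
    obtain ⟨L, hL, hN, rfl⟩ := hu
    induction hy using Submodule.span_induction with
    | zero => rw [mul_zero]; exact Submodule.zero_mem _
    | add u v _ _ hu hv => rw [mul_add]; exact Submodule.add_mem _ hu hv
    | smul c u _ hu => rw [mul_smul_comm]; exact Submodule.smul_mem _ _ hu
    | mem v hv =>
      obtain ⟨L', hL', hN', rfl⟩ := hv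
      refine Submodule.subset_span ⟨L ++ L', by rw [List.length_append]; omega, ?_, ?_⟩
      · intro x hx
        rcases List.mem_append.1 hx with h | h
        · exact hN x h
        · exact hN' x h
      · rw [pr_append, map_mul]

theorem W_mono (psi : G →* Mˣ) (N : Subgroup G) {a b : ℕ} (h : a ≤ b) : W psi N b ≤ W psi N a := by
  apply Submodule.span_mono
  rintro u ⟨L, hL, hN, rfl⟩
  exact ⟨L, h.trans hL, hN, rfl⟩

theorem W_one (psi : G →* Mˣ) (N : Subgroup G) : (1 : ℝ ⊗[ℤ] M) ∈ W psi N 0 :=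
  Submodule.subset_span ⟨[], le_rfl, by simp, by simp [pr]⟩

theorem W_prod (psi : G →* Mˣ) (N : Subgroup G) (L : List (ℝ ⊗[ℤ] M))
    (h : ∀ x ∈ L, x ∈ W psi N 1) : L.prod ∈ W psi N L.length := by
  induction L with
  | nil => exact W_one psi N
  | cons a L ih =>
    rw [List.prod_cons, List.length_cons, add_comm]
    exact W_mul psi N 1 _ (h a List.mem_cons_self) (ih fun x hx => h x (List.mem_cons_of_mem _ hx))

theorem W_bot (psi : G →* Mˣ) (N : Subgroup G) (e0 : ℕ)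
    (h : ∀ L : List G, L.length = e0 → (∀ x ∈ L, x ∈ N) → pr psi L = 0) {x : ℝ ⊗[ℤ] M}
    (hx : x ∈ W psi N e0) : x = 0 := by
  have : W psi N e0 ≤ ⊥ := by
    apply Submodule.span_le.2
    rintro u ⟨L, hL, hN, rfl⟩
    have h1 : pr psi L = 0 := by
      rw [← List.take_append_drop e0 L, pr_append,
        h (L.take e0) (by rw [List.length_take]; omega) (fun x hx => hN x (List.mem_of_mem_take hx)),
        zero_mul]
    simp [h1]
  exact (Submodule.mem_bot ℝ).1 (this hx)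

theorem pr_conj (psi : G →* Mˣ) (g : G) (L : List G) :
    pr psi (L.map fun x => g * x * g⁻¹) = (psi g : M) * pr psi L * ((psi g)⁻¹ : Mˣ) := by
  induction L with
  | nil => simp [pr]
  | cons a L ih =>
    have e1 : pr psi ((a :: L).map fun x => g * x * g⁻¹) =
        (((psi (g * a * g⁻¹) : Mˣ) : M) - 1) * pr psi (L.map fun x => g * x * g⁻¹) := by
      simp [pr]
    have e2 : pr psi (a :: L) = (((psi a : Mˣ) : M) - 1) * pr psi L := by simp [pr]
    rw [e1, e2, ih, map_mul, map_mul, map_inv, Units.val_mul, Units.val_mul]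
    have h1 : (((psi g)⁻¹ : Mˣ) : M) * (psi g : M) = 1 := Units.inv_mul _
    calc ((psi g : M) * (psi a : M) * ((psi g)⁻¹ : Mˣ) - 1) *
          ((psi g : M) * pr psi L * ((psi g)⁻¹ : Mˣ))
        = (psi g : M) * (psi a : M) * ((((psi g)⁻¹ : Mˣ) : M) * (psi g : M)) * pr psi L *
            ((psi g)⁻¹ : Mˣ) - (psi g : M) * pr psi L * ((psi g)⁻¹ : Mˣ) := by noncomm_ring
      _ = _ := by rw [h1]; noncomm_ring

/-- The extended representation. -/
noncomputable def ps (psi : G →* Mˣ) : G →* (ℝ ⊗[ℤ] M)ˣ :=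
  (Units.map (io M).toMonoidHom).comp psi

theorem ps_val (psi : G →* Mˣ) (g : G) : ((ps psi g : (ℝ ⊗[ℤ] M)ˣ) : ℝ ⊗[ℤ] M) = io M (psi g) := rfl

theorem ps_inv (psi : G →* Mˣ) (g : G) :
    (((ps psi g)⁻¹ : (ℝ ⊗[ℤ] M)ˣ) : ℝ ⊗[ℤ] M) = io M ((psi g)⁻¹ : Mˣ) := rfl

theorem W_Ad (psi : G →* Mˣ) (N : Subgroup G) (hN : N.Normal) (m : ℕ) (g : G) {y : ℝ ⊗[ℤ] M}
    (hy : y ∈ W psi N m) : Ad (ps psi g) y ∈ W psi N m := by
  unfold Ad
  induction hy using Submodule.span_induction with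
  | zero => rw [mul_zero, zero_mul]; exact Submodule.zero_mem _
  | add u v _ _ hu hv => rw [mul_add, add_mul]; exact Submodule.add_mem _ hu hv
  | smul c u _ hu => rw [mul_smul_comm, smul_mul_assoc]; exact Submodule.smul_mem _ _ hu
  | mem u hu =>
    obtain ⟨L, hL, hL', rfl⟩ := hu
    refine Submodule.subset_span ⟨L.map fun x => g * x * g⁻¹, by rwa [List.length_map], ?_, ?_⟩
    · intro x hx
      obtain ⟨z, hz, rfl⟩ := List.mem_map.1 hx
      exact hN.conj_mem z (hL' z hz) g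
    · rw [pr_conj, map_mul, map_mul, ps_val, ps_inv]

/-- The rational form. -/
noncomputable def AQ (M : Type) [Ring M] : Subring (ℝ ⊗[ℤ] M) where
  carrier := {a | ∃ k : ℕ, k ≠ 0 ∧ ∃ y : M, (k : ℝ) • a = io M y}
  one_mem' := ⟨1, one_ne_zero, 1, by simp⟩
  zero_mem' := ⟨1, one_ne_zero, 0, by simp⟩
  mul_mem' := by
    rintro a b ⟨k, hk, y, e⟩ ⟨k', hk', y', e'⟩
    refine ⟨k * k', mul_ne_zero hk hk', y * y', ?_⟩
    rw [map_mul, ← e, ← e', smul_mul_assoc, mul_smul_comm, smul_smul, Nat.cast_mul]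
  add_mem' := by
    rintro a b ⟨k, hk, y, e⟩ ⟨k', hk', y', e'⟩
    refine ⟨k * k', mul_ne_zero hk hk', k' • y + k • y', ?_⟩
    rw [map_add, map_nsmul, map_nsmul, ← e, ← e', ← Nat.cast_smul_eq_nsmul ℝ,
      ← Nat.cast_smul_eq_nsmul ℝ, smul_smul, smul_smul, smul_add, Nat.cast_mul, mul_comm (k' : ℝ)]
  neg_mem' := by
    rintro a ⟨k, hk, y, e⟩
    exact ⟨k, hk, -y, by rw [map_neg, ← e, smul_neg]⟩

theorem AQ_q (q : ℚ) {x : ℝ ⊗[ℤ] M} (hx : x ∈ AQ M) : (q : ℝ) • x ∈ AQ M := by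
  obtain ⟨k, hk, y, e⟩ := hx
  refine ⟨k * q.den, mul_ne_zero hk q.den_ne_zero, q.num • y, ?_⟩
  rw [map_zsmul, ← e, ← Int.cast_smul_eq_zsmul ℝ, smul_smul, smul_smul]
  congr 1
  have h1 : (q : ℝ) * (q.den : ℝ) = q.num := by
    have := Rat.mul_den_eq_num q
    exact_mod_cast this
  push_cast
  rw [← h1]; ring

theorem AQ_rat : RAT (AQ M) := by
  intro phi m b v hv h
  let ph : ℝ →ₗ[ℤ] ℝ := ((Algebra.linearMap ℚ ℝ).comp phi).restrictScalars ℤ
  have key : ∀ (c : ℝ) (w : ℝ ⊗[ℤ] M), w ∈ AQ M →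
      LinearMap.rTensor M ph (c • w) = ((phi c : ℚ) : ℝ) • w := by
    rintro c w ⟨k, hk, y, e⟩
    have hk' : (k : ℝ) ≠ 0 := Nat.cast_ne_zero.2 hk
    have e1 : w = ((k : ℝ)⁻¹) ⊗ₜ[ℤ] y := by
      have : w = (k : ℝ)⁻¹ • ((k : ℝ) • w) := by rw [smul_smul, inv_mul_cancel₀ hk', one_smul]
      rw [this, e, io_apply, TensorProduct.smul_tmul', smul_eq_mul, mul_one]
    rw [e1, TensorProduct.smul_tmul', TensorProduct.smul_tmul', LinearMap.rTensor_tmul]
    congr 1
    have e2 : c • (k : ℝ)⁻¹ = ((k : ℚ)⁻¹) • c := by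
      rw [Rat.smul_def, smul_eq_mul]; push_cast; ring
    show ((phi (c • (k : ℝ)⁻¹) : ℚ) : ℝ) = _
    rw [e2, map_smul, smul_eq_mul, smul_eq_mul]
    push_cast; ring
  have := congrArg (LinearMap.rTensor M ph) h
  rw [map_sum, map_zero] at this
  rw [← this]
  exact Finset.sum_congr rfl fun i _ => (key _ _ (hv i)).symm

theorem main (psi : G →* Mˣ) (N : Subgroup G) (e0 : ℕ) (hinj : Function.Injective psi)
    (hN : N.Normal) (h : ∀ L : List G, L.length = e0 → (∀ x ∈ L, x ∈ N) → pr psi L = 0) :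
    Nonempty (LData G (ℝ ⊗[ℤ] M) N) := by
  refine ⟨⟨⟨W psi N 1, e0, ?_, ?_⟩, ps psi, ?_, ?_, AQ M, ?_, ?_, AQ_rat, ?_⟩⟩
  · intro x hx y hy
    exact W_mono psi N (by omega) (W_mul psi N 1 1 hx hy)
  · intro L hL hU
    have := W_prod psi N L hU
    rw [hL] at this
    exact W_bot psi N e0 h this
  · intro x hx
    refine Submodule.subset_span ⟨[x], le_rfl, by simpa using hx, ?_⟩
    rw [ps_val]; simp [pr]
  · intro g y hy
    exact W_Ad psi N hN 1 g hy
  · intro q x hx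
    exact AQ_q q hx
  · intro g
    exact ⟨1, one_ne_zero, psi g, by rw [ps_val]; simp⟩
  · intro x hx h1
    have h2 : io M ((psi x : M) - 1) = 0 := by
      rw [map_sub, ← ps_val, h1]; simp
    obtain ⟨k, hk, e⟩ := tors_of_tmul _ h2
    obtain ⟨w, -, e2⟩ := pow_iter _ k e e0
    have h3 : ((psi x : M) - 1) ^ e0 = 0 := by
      have := h (List.replicate e0 x) (List.length_replicate) (fun z hz => by
        rw [List.eq_of_mem_replicate hz]; exact hx)
      simpa [pr] using this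
    refine ⟨k ^ e0, pow_ne_zero _ hk, hinj ?_⟩
    rw [map_pow, map_one]
    apply Units.ext
    rw [pow_succ, h3, zero_mul, zero_mul, add_zero, add_sub_cancel] at e2
    rw [Units.val_pow_eq_pow_val, e2, Units.val_one]

end Main

end MatL

theorem pMatL : S_MatL := by
  intro G _ n R _ psi N e0 hinj hN h
  exact ⟨ℝ ⊗[ℤ] Matrix (Fin n) (Fin n) R, inferInstance, inferInstance,
    MatL.main psi N e0 hinj hN h⟩

end ANd
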