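import Pool.Agent.P.MP_5e7d86_al.BRp

/-! Package Mk: construction of the setup. -/

set_option autoImplicit false
open Classical
open scoped commutatorElement

namespace ANd

namespace Mk

variable {G : Type} [Group G]

theorem word_of_mem {X : Set G} {g : G} (h : g ∈ Subgroup.closure X) :
    ∃ L : List G, (∀ x ∈ L, x ∈ X ∨ x⁻¹ ∈ X) ∧ L.prod = g := by
  have h1 : g ∈ Submonoid.closure (X ∪ X⁻¹) := by
    rw [← Subgroup.closure_toSubmonoid]
    exact h
  obtain ⟨L, h2, h3⟩ := Submonoid.exists_list_of_mem_closure h1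
  exact ⟨L, fun x hx => (h2 x hx).imp id fun e => Set.mem_inv.1 e, h3⟩

theorem wordLike_of {l : G → ℕ} {T : Finset G} {X : Set G} (h : WordLike l (T : Set G))
    (hT : ∀ x ∈ T, x ∈ Subgroup.closure X) : WordLike l X := by
  obtain ⟨c, hc⟩ := h
  have k : ∀ x : G, ∃ L : List G, x ∈ Subgroup.closure X →
      (∀ y ∈ L, y ∈ X ∨ y⁻¹ ∈ X) ∧ L.prod = x := fun x => by
    by_cases e : x ∈ Subgroup.closure X
    · obtain ⟨L, hL⟩ := word_of_mem e
      exact ⟨L, fun _ => hL⟩
    · exact ⟨[], fun e' => (e e').elim⟩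
  choose w hw using k
  obtain ⟨n, hn⟩ : ∃ n : ℕ, ∀ x, x ∈ T ∨ x⁻¹ ∈ T → (w x).length ≤ n := by
    refine ⟨∑ x ∈ T, ((w x).length + (w x⁻¹).length), fun x hx => ?_⟩
    rcases hx with hx | hx
    · exact (Nat.le_add_right _ _).trans (Finset.single_le_sum
        (f := fun x => (w x).length + (w x⁻¹).length) (fun _ _ => Nat.zero_le _) hx)
    · have := Finset.single_le_sum
        (f := fun x => (w x).length + (w x⁻¹).length) (fun _ _ => Nat.zero_le _) hx
      simp only [inv_inv] at this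
      exact (Nat.le_add_left _ _).trans this
  have key : ∀ L : List G, (∀ x ∈ L, x ∈ (T : Set G) ∨ x⁻¹ ∈ (T : Set G)) → ∃ L' : List G,
      L'.length ≤ n * L.length ∧ (∀ x ∈ L', x ∈ X ∨ x⁻¹ ∈ X) ∧ L'.prod = L.prod := by
    intro L
    induction L with
    | nil => exact fun _ => ⟨[], by simp, by simp, rfl⟩
    | cons x L ih =>
      intro hL
      obtain ⟨L', h1, h2, h3⟩ := ih fun y hy => hL y (List.mem_cons_of_mem _ hy)
      have hx := hL x List.mem_cons_self
      have hm : x ∈ Subgroup.closure X := hx.elim (hT x) fun e => inv_mem_iff.1 (hT _ e)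
      refine ⟨w x ++ L', ?_, fun y hy => ?_, ?_⟩
      · have := hn x hx
        rw [List.length_append, List.length_cons, mul_add, mul_one]
        omega
      · exact (List.mem_append.1 hy).elim ((hw x hm).1 y) (h2 y)
      · rw [List.prod_append, List.prod_cons, (hw x hm).2, h3]
  refine ⟨n * c, fun g => ?_⟩
  obtain ⟨L, h1, h2, h3⟩ := hc g
  obtain ⟨L', h4, h5, h6⟩ := key L h2
  exact ⟨L', h4.trans (by rw [mul_assoc]; exact Nat.mul_le_mul_left n h1), h5, h6.trans h3⟩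

theorem lift {d : ℕ} (pr : G →* Multiplicative (Fin d → ℤ)) (t : Fin d → G)
    (ht : ∀ a, pr (t a) = Multiplicative.ofAdd (Pi.single a 1)) (g : G) :
    ∃ u ∈ Subgroup.closure (Set.range t), pr u = pr g := by
  have k : ∀ q : Fin d → ℤ, Multiplicative.ofAdd q ∈ (Subgroup.closure (Set.range t)).map pr := by
    intro q
    have e : Multiplicative.ofAdd q = ∏ a, pr (t a) ^ q a := by
      conv_lhs => rw [← Finset.univ_sum_single q, ofAdd_sum]
      refine Finset.prod_congr rfl fun a _ => ?_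
      rw [ht, ← ofAdd_zsmul, ← Pi.single_smul, smul_eq_mul, mul_one]
    rw [e]
    exact prod_mem fun a _ => zpow_mem
      (Subgroup.mem_map_of_mem pr (Subgroup.subset_closure (Set.mem_range_self a))) _
  exact k (pr g).toAdd

end Mk

theorem pMk (hL : S_Lie1) : S_Mk := by
  rintro G _ l hl hp hc ⟨T, hT⟩ N d pr hs hk r hf A _ _ R
  have hN : N.Normal := ⟨fun x hx g => by
    rw [hk] at hx ⊢
    rw [map_mul, map_mul, hx, mul_one, ← map_mul, mul_inv_cancel, map_one]⟩
  have fd : FiniteDimensional ℝ R.V := ((hL G A N R hN).2.2.2 N r hf).1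
  choose t ht using fun a : Fin d => hs (Multiplicative.ofAdd (Pi.single a 1))
  choose u hu hu' using Mk.lift pr t ht
  obtain ⟨S', h1, h2⟩ := (Submodule.fg_span_iff_fg_span_finset_subset _).1
    ((Submodule.fg_iff_finiteDimensional R.V).2 fd)
  obtain ⟨X, h3, rfl⟩ := Finset.subset_set_image_iff.1 h1
  have fin : ((fun x => x * (u x)⁻¹) '' (T : Set G) ∪ (Set.range
      fun p : Fin d × Fin d × ℤˣ × ℤˣ => ⁅t p.1 ^ (p.2.2.1 : ℤ), t p.2.1 ^ (p.2.2.2 : ℤ)⁆) ∪
      (X : Set G)).Finite :=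
    ((T.finite_toSet.image _).union (Set.finite_range _)).union X.finite_toSet
  obtain ⟨m, e, -, he⟩ := fin.fin_param
  have eN : ∀ j, e j ∈ N := fun j => by
    have : e j ∈ Set.range e := ⟨j, rfl⟩
    rw [he] at this
    rcases this with (⟨x, -, h⟩ | ⟨p, h⟩) | h
    · rw [← h, hk, map_mul, map_inv, hu', mul_inv_cancel]
    · rw [← h, hk, map_commutatorElement, commutatorElement_eq_one_iff_mul_comm, mul_comm]
    · exact h3 h
  refine ⟨⟨⟨l, hl, hp, hc, d, N, pr, hk, t, ht, m, e, eN, Mk.wordLike_of hT fun x hx => ?_,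
    fun a b x y hx hy => ?_, r, hf⟩, R, fd, le_antisymm ?_ ?_⟩, rfl, rfl, rfl⟩
  · have e1 : x * (u x)⁻¹ ∈ Subgroup.closure (Set.range t ∪ Set.range e) :=
      Subgroup.subset_closure (Or.inr (he ▸ Or.inl (Or.inl ⟨x, hx, rfl⟩)))
    simpa using mul_mem e1 (Subgroup.closure_mono Set.subset_union_left (hu x))
  · rw [he]
    have k : ∀ x : ℤ, x = 1 ∨ x = -1 → ∃ z : ℤˣ, (z : ℤ) = x := fun x hx =>
      hx.elim (fun e => ⟨1, e.symm⟩) fun e => ⟨-1, e.symm⟩
    obtain ⟨x, rfl⟩ := k x hx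
    obtain ⟨y, rfl⟩ := k y hy
    exact Or.inl (Or.inr ⟨(a, b, x, y), rfl⟩)
  · refine Submodule.span_mono ?_
    rintro _ ⟨j, rfl⟩
    exact ⟨e j, eN j, rfl⟩
  · refine h2.le.trans (Submodule.span_mono fun y hy => ?_)
    obtain ⟨x, hx, rfl⟩ := Finset.mem_image.1 hy
    obtain ⟨j, rfl⟩ : x ∈ Set.range e := he ▸ Or.inr hx
    exact ⟨j, rfl⟩

end ANd
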