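import Pool.Agent.P.MP_5e7d86_al.BRp

/-! An uncountable algebraically closed field of characteristic `p` with a nontrivial
absolute value. -/

set_option autoImplicit false
open Classical
open scoped commutatorElement

namespace ANd

namespace Omega

theorem of_normed (K : Type) [NontriviallyNormedField K] [IsUltrametricDist K] [CompleteSpace K]
    [Uncountable K] (p : ℕ) [CharP K p] : ∃ (Om : Type) (_ : Field Om) (_ : IsAlgClosed Om)
    (_ : CharP Om p) (_ : Uncountable Om) (v : AbsoluteValue Om ℝ) (t : Om), t ≠ 0 ∧ v t ≠ 1 := by
  obtain ⟨x, hx⟩ := NormedField.exists_one_lt_norm K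
  let N := spectralMulAlgNorm K (AlgebraicClosure K)
  let v : AbsoluteValue (AlgebraicClosure K) ℝ :=
    { toFun := fun y => N y
      map_mul' := fun a b => map_mul N a b
      nonneg' := fun a => apply_nonneg N a
      eq_zero' := fun a => map_eq_zero_iff_eq_zero N
      add_le' := fun a b => map_add_le_add N a b }
  refine ⟨AlgebraicClosure K, inferInstance, inferInstance, inferInstance,
    (algebraMap K (AlgebraicClosure K)).injective.uncountable, v, algebraMap K _ x, ?_, ?_⟩
  · rw [Ne, map_eq_zero]
    rintro rfl
    rw [norm_zero] at hx
    exact absurd hx (by norm_num)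
  · have : v (algebraMap K _ x) = ‖x‖ := spectralNorm_extends (L := AlgebraicClosure K) x
    rw [this]
    exact hx.ne'

theorem unc (F : Type) [Field F] : Uncountable (LaurentSeries F) := by
  have h1 : Uncountable (PowerSeries F) := by
    have h2 : Function.Injective fun s : Set ℕ =>
        (PowerSeries.mk fun n => if n ∈ s then 1 else 0 : PowerSeries F) := by
      intro s t h
      ext n
      have := congrArg (PowerSeries.coeff n) h
      simp only [PowerSeries.coeff_mk] at this
      by_cases hs : n ∈ s <;> by_cases ht : n ∈ t <;> simp_all
    have h3 : Uncountable (Set ℕ) := by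
      rw [← Cardinal.aleph0_lt_mk_iff, Cardinal.mk_set, Cardinal.mk_nat]
      exact Cardinal.cantor _
    exact h2.uncountable
  exact (IsFractionRing.injective (PowerSeries F) (LaurentSeries F)).uncountable

end Omega

theorem pOmega : S_Omega := by
  intro p hp
  have := Fact.mk hp
  have := Omega.unc (ZMod p)
  have : CharP (LaurentSeries (ZMod p)) p :=
    charP_of_injective_algebraMap (algebraMap (ZMod p) (LaurentSeries (ZMod p))).injective p
  have : (Valued.v (R := LaurentSeries (ZMod p))).IsRankOneDiscrete := by
    rw [LaurentSeries.valuation_def]; infer_instance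
  let _ : (Valued.v (R := LaurentSeries (ZMod p))).RankOne :=
    Valuation.IsRankOneDiscrete.rankOne _ (e := 2) (by norm_num)
  let _ := Valued.toNontriviallyNormedField (LaurentSeries (ZMod p)) (WithZero (Multiplicative ℤ))
  exact Omega.of_normed (LaurentSeries (ZMod p)) p

end ANd
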