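import Pool.Agent.P.MP_5e7d86_al.BRp

set_option autoImplicit false
set_option linter.unusedSectionVars false
open Classical Polynomial Filter Topology

namespace ANd.OneB

section
variable {E : Type} [NormedAddCommGroup E] [NormedSpace ℂ E]

theorem rec_lim (a b : ℕ → E) (lam : ℂ) (h : ‖lam‖ < 1) (e : ∀ n, a (n + 1) = lam • a n + b n)
    (hb : Tendsto b atTop (𝓝 0)) : Tendsto a atTop (𝓝 0) := by
  rw [NormedAddGroup.tendsto_nhds_zero] at hb ⊢
  intro ep hep
  have h1 : 0 < 1 - ‖lam‖ := by linarith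
  obtain ⟨N, hN⟩ := eventually_atTop.1 (hb (ep / 2 * (1 - ‖lam‖)) (by positivity))
  have key : ∀ m, ‖a (N + m)‖ ≤ ‖lam‖ ^ m * ‖a N‖ + ep / 2 := by
    intro m
    induction m with
    | zero => simp; positivity
    | succ m ih =>
      rw [← add_assoc, e]
      refine (norm_add_le _ _).trans ?_
      rw [norm_smul, pow_succ]
      have := hN (N + m) (by omega)
      have h2 := mul_le_mul_of_nonneg_left ih (norm_nonneg lam)
      nlinarith
  have t := (tendsto_pow_atTop_nhds_zero_of_lt_one (norm_nonneg lam) h).mul_const ‖a N‖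
  rw [zero_mul] at t
  obtain ⟨M, hM⟩ := eventually_atTop.1 (t.eventually (gt_mem_nhds (half_pos hep)))
  refine eventually_atTop.2 ⟨N + M, fun n hn => ?_⟩
  obtain ⟨m, rfl⟩ : ∃ m, n = N + m := ⟨n - N, by omega⟩
  have := hM m (by omega)
  have := key m
  linarith

/-- The product of the linear factors. -/
noncomputable def pp (s : Multiset ℂ) : ℂ[X] := (s.map fun l => X - C l).prod

theorem pp_cons (l : ℂ) (s : Multiset ℂ) : pp (l ::ₘ s) = pp s * (X - C l) := by
  simp [pp, mul_comm]

theorem lim_small (F : Module.End ℂ E) (s : Multiset ℂ) (hs : ∀ l ∈ s, ‖l‖ < 1) :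
    ∀ w, aeval F (pp s) w = 0 → Tendsto (fun n => (F ^ n) w) atTop (𝓝 0) := by
  induction s using Multiset.induction_on with
  | empty => intro w hw; simp [pp] at hw; simp [hw]
  | cons l s ih =>
    intro w hw
    rw [pp_cons, map_mul, Module.End.mul_apply] at hw
    refine rec_lim _ _ l (hs l (by simp)) (fun n => ?_)
      (ih (fun x hx => hs x (by simp [hx])) _ hw)
    simp [pow_succ, Module.algebraMap_end_apply]

theorem lim_big (F Fi : Module.End ℂ E) (hF : Fi * F = 1) (s : Multiset ℂ)
    (hs : ∀ l ∈ s, 1 < ‖l‖) :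
    ∀ w, aeval F (pp s) w = 0 → Tendsto (fun n => (Fi ^ n) w) atTop (𝓝 0) := by
  induction s using Multiset.induction_on with
  | empty => intro w hw; simp [pp] at hw; simp [hw]
  | cons l s ih =>
    intro w hw
    rw [pp_cons, map_mul, Module.End.mul_apply] at hw
    have h1 := hs l (by simp)
    have h0 : l ≠ 0 := by rintro rfl; norm_num at h1
    have t := (((ih (fun x hx => hs x (by simp [hx])) _ hw).comp
      (tendsto_add_atTop_nat 1)).const_smul (-l⁻¹))
    rw [smul_zero] at t
    refine rec_lim _ _ l⁻¹ (by rw [norm_inv]; exact inv_lt_one_of_one_lt₀ h1) (fun n => ?_) t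
    have e : (Fi ^ (n + 1)) (F w) = (Fi ^ n) w := by
      rw [← Module.End.mul_apply, pow_succ, mul_assoc, hF, mul_one]
    simp [Module.algebraMap_end_apply, e, smul_sub, smul_smul, h0]

end

theorem pp_cop (s t : Multiset ℂ) (h : ∀ a ∈ s, ∀ b ∈ t, a ≠ b) : IsCoprime (pp s) (pp t) := by
  induction s using Multiset.induction_on with
  | empty => simpa [pp] using isCoprime_one_left
  | cons a s ih =>
    rw [pp_cons]
    refine IsCoprime.mul_left (ih fun x hx => h x (by simp [hx])) ?_
    have h' : ∀ b ∈ t, a ≠ b := h a (by simp)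
    clear ih h
    induction t using Multiset.induction_on with
    | empty => simpa [pp] using isCoprime_one_right
    | cons b t ih =>
      rw [pp_cons]
      exact IsCoprime.mul_right (ih fun x hx => h' x (by simp [hx]))
        (isCoprime_X_sub_C_of_isUnit_sub (sub_ne_zero.2 (h' b (by simp))).isUnit)

theorem pp_coeff (s : Multiset ℂ) (h : ∀ a ∈ s, ‖a‖ = 1) :
    ∀ k, ‖(pp s).coeff k‖ ≤ 2 ^ s.card := by
  induction s using Multiset.induction_on with
  | empty => intro k; simp only [pp, Multiset.map_zero, Multiset.prod_zero, coeff_one]; split_ifs <;> simp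
  | cons a s ih =>
    have ih' := ih fun x hx => h x (by simp [hx])
    have ha := h a (by simp)
    intro k
    rw [pp_cons, mul_sub, coeff_sub, coeff_mul_C, Multiset.card_cons, pow_succ]
    refine (norm_sub_le _ _).trans ?_
    rw [norm_mul, ha, mul_one]
    have h1 : ‖(pp s * X).coeff k‖ ≤ 2 ^ s.card := by
      cases k with
      | zero => simp
      | succ k => rw [coeff_mul_X]; exact ih' k
    linarith [ih' k]

theorem pp_monic (s : Multiset ℂ) : (pp s).Monic :=
  monic_multiset_prod_of_monic _ _ fun a _ => monic_X_sub_C a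

theorem pp_deg (s : Multiset ℂ) : (pp s).natDegree = s.card := natDegree_multiset_prod_X_sub_C_eq_card s

theorem pp_dvd (s : Multiset ℂ) (i : ℕ) : pp s ∣ (pp (s.map (· ^ i))).comp (X ^ i) := by
  induction s using Multiset.induction_on with
  | empty => simp [pp]
  | cons a s ih =>
    rw [Multiset.map_cons, pp_cons, pp_cons, mul_comp]
    refine mul_dvd_mul ih ?_
    simpa using sub_dvd_pow_sub_pow (X : ℂ[X]) (C a) i

theorem core (n : ℕ) (F Fi : Module.End ℂ (Fin n → ℂ)) (hF : Fi * F = 1) (i : ℕ) :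
    ∃ c : Fin (n + 1) → ℂ, (∀ s, ‖c s‖ ≤ 2 ^ (n + 1)) ∧ ∀ w, ∃ w1 w2,
      Tendsto (fun m => (Fi ^ m) w1) atTop (𝓝 0) ∧ Tendsto (fun m => (F ^ m) w2) atTop (𝓝 0) ∧
      (F ^ (i * (n + 1))) w + ∑ s : Fin (n + 1), c s • (F ^ (i * (s : ℕ))) w = w1 + w2 := by
  set r := F.charpoly.roots with hr
  have hchi : F.charpoly = pp r :=
    (IsAlgClosed.splits F.charpoly).eq_prod_roots_of_monic F.charpoly_monic
  have hcard : r.card = n := by rw [← pp_deg, ← hchi, F.charpoly_natDegree]; simp
  set s0 := r.filter fun l => ‖l‖ = 1 with hs0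
  set s1 := r.filter fun l => 1 < ‖l‖ with hs1
  set s2 := r.filter fun l => ‖l‖ < 1 with hs2
  have hsum : r = s1 + s2 + s0 := by
    ext a
    simp only [hs0, hs1, hs2, Multiset.count_add, Multiset.count_filter]
    rcases lt_trichotomy ‖a‖ 1 with h | h | h
    · simp [h, h.ne, h.not_gt]
    · simp [h]
    · simp [h, h.ne', h.not_gt]
  have hprod : pp r = pp s1 * pp s2 * pp s0 := by
    conv_lhs => rw [hsum]
    simp [pp]
  have he : s0.card ≤ n := hcard ▸ Multiset.card_le_card (Multiset.filter_le _ _)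
  set Q := X ^ (n + 1 - s0.card) * pp (s0.map (· ^ i)) with hQ
  have hQm : Q.Monic := (monic_X_pow _).mul (pp_monic _)
  have hQd : Q.natDegree = n + 1 := by
    rw [hQ, (monic_X_pow _).natDegree_mul (pp_monic _), natDegree_X_pow, pp_deg, Multiset.card_map]
    omega
  refine ⟨fun s => Q.coeff s, fun s => ?_, fun w => ?_⟩
  · simp only [hQ, coeff_X_pow_mul']
    split_ifs
    · refine (pp_coeff _ (fun a ha => ?_) _).trans ?_
      · obtain ⟨b, hb, rfl⟩ := Multiset.mem_map.1 ha
        rw [norm_pow, (Multiset.mem_filter.1 hb).2, one_pow]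
      · rw [Multiset.card_map]
        exact pow_le_pow_right₀ (by norm_num) (by omega)
    · simp
  · have hd : pp s0 ∣ Q.comp (X ^ i) := by
      rw [hQ, mul_comp]; exact Dvd.dvd.mul_left (pp_dvd s0 i) _
    obtain ⟨q, hq⟩ := hd
    have hk : aeval (F ^ i) Q w ∈ LinearMap.ker (aeval F (pp s1 * pp s2)) := by
      have e1 : aeval (F ^ i) Q = aeval F (Q.comp (X ^ i)) := by rw [aeval_comp]; simp
      rw [LinearMap.mem_ker, e1, ← Module.End.mul_apply, ← map_mul, hq, ← mul_assoc, ← hprod,
        ← hchi, map_mul, F.aeval_self_charpoly, zero_mul, LinearMap.zero_apply]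
    rw [← Polynomial.sup_ker_aeval_eq_ker_aeval_mul_of_coprime F (pp_cop s1 s2 fun a ha b hb e => by
      have h1 := (Multiset.mem_filter.1 ha).2
      have h2 := (Multiset.mem_filter.1 hb).2
      rw [e] at h1; linarith)] at hk
    obtain ⟨w1, h1, w2, h2, e⟩ := Submodule.mem_sup.1 hk
    refine ⟨w1, w2, lim_big F Fi hF s1 (fun l hl => (Multiset.mem_filter.1 hl).2) w1 h1,
      lim_small F s2 (fun l hl => (Multiset.mem_filter.1 hl).2) w2 h2, ?_⟩
    rw [e, aeval_eq_sum_range, hQd, Finset.sum_range_succ, ← hQd, hQm.coeff_natDegree, hQd,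
      Finset.sum_range]
    simp only [LinearMap.add_apply, LinearMap.sum_apply, LinearMap.smul_apply, one_smul, ← pow_mul]
    rw [add_comm]

end ANd.OneB

namespace ANd

open OneB in
theorem pOneB : S_One := by
  intro A _ _ B0 u hB hN
  set V := Submodule.span ℝ B0 with hV
  have : FiniteDimensional ℝ V := FiniteDimensional.span_of_finite ℝ hB
  obtain ⟨n, ⟨b⟩⟩ : ∃ n, Nonempty (Module.Basis (Fin n) ℝ V) := ⟨_, ⟨Module.finBasis ℝ V⟩⟩
  let R : ∀ g : Aˣ, Nrm g V → Module.End ℝ V := fun g hg =>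
    (AdH g).toLinearMap.restrict fun y hy => (hg y hy).1
  have hR : ∀ g hg (m : ℕ) (y : V), (((R g hg ^ m) y : V) : A) = Ad (g ^ m) y := by
    intro g hg m
    induction m with
    | zero => intro y; simp [Ad_one]
    | succ m ih => intro y; rw [pow_succ, pow_succ, Module.End.mul_apply, ih, Ad_mul]; rfl
  let cx : Module.End ℝ V →* Module.End ℂ (Fin n → ℂ) :=
    (Matrix.toLinAlgEquiv' (R := ℂ) (n := Fin n)).toMonoidHom.comp
      ((Complex.ofRealHom.mapMatrix (m := Fin n)).toMonoidHom.comp
        (LinearMap.toMatrixAlgEquiv b).toMonoidHom)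
  let re : (Fin n → ℂ) → V := fun w => b.equivFun.symm fun i => (w i).re
  have hre : ∀ (T : Module.End ℝ V) w, re (cx T w) = T (re w) := by
    intro T w
    apply b.equivFun.injective
    funext i
    have h1 := congrFun (LinearMap.toMatrix_mulVec_repr b b T (re w)) i
    simp only [re, LinearEquiv.apply_symm_apply, Module.Basis.equivFun_apply] at h1 ⊢
    rw [← h1]
    simp [cx, Matrix.mulVec, dotProduct, LinearMap.toMatrixAlgEquiv, Finsupp.single_apply]
  have hreadd : ∀ w w', re (w + w') = re w + re w' := fun w w' => by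
    simp only [re, ← map_add]; congr 1
  have hio : ∀ (T : Module.End ℝ V) (y : V) (z : ℂ),
      re (z • cx T fun i => (b.repr y i : ℂ)) = z.re • T y := by
    intro T y z
    rw [← map_smul, hre, ← map_smul]
    congr 1
    apply b.equivFun.injective
    funext i
    simp [re, Finsupp.single_apply]
  obtain ⟨C, hC0, hC⟩ := In.exists_unif (Y := B0) (Set.finite_range fun i => (b i : A)) (by
    rintro _ ⟨i, rfl⟩; exact (b i).2)
  have hlim : ∀ g hg w, Tendsto (fun m => (cx (R g⁻¹ hg) ^ m) w) atTop (𝓝 0) →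
      (re w : A) ∈ Vp B0 g := by
    intro g hg w hw
    rw [mem_Vp]
    intro ep hep
    rw [NormedAddGroup.tendsto_nhds_zero] at hw
    obtain ⟨N, hN⟩ := eventually_atTop.1 (hw (ep / (n * C + 1)) (by positivity))
    refine ⟨N, fun m hm => ?_⟩
    rw [← hR g⁻¹ hg, ← hre, map_pow]
    set x := (cx (R g⁻¹ hg) ^ m) w with hx
    have e : (re x : A) = ∑ i, (x i).re • (b i : A) := by simp [re]
    rw [e]
    refine (In.sum_le Finset.univ _ fun i _ => (hC _ ⟨i, rfl⟩).smul_le (s := ‖x‖)
      ((Complex.abs_re_le_norm _).trans (norm_le_pi_norm x i))).le ?_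
    have h1 := hN m hm
    rw [lt_div_iff₀ (by positivity)] at h1
    simp only [Finset.card_univ, Fintype.card_fin]
    nlinarith [norm_nonneg x]
  refine ⟨n + 1, by omega, fun i => ?_⟩
  have hinv : R u⁻¹ hN.inv * R u hN = 1 := by
    ext y
    exact Ad_inv_Ad u y
  obtain ⟨c, hc, hw⟩ := core n (cx (R u hN)) (cx (R u⁻¹ hN.inv)) (by rw [← map_mul, hinv, map_one]) i
  refine ⟨fun s => -(c s).re, fun s => ?_, fun v hv => ?_⟩
  · rw [abs_neg]; exact (Complex.abs_re_le_norm _).trans (hc s)
  · obtain ⟨w1, w2, h1, h2, e⟩ := hw fun j => (b.repr ⟨v, hv⟩ j : ℂ)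
    have m1 := hlim u hN.inv w1 h1
    have m2 := hlim u⁻¹ (by simpa using hN) w2 (by simpa using h2)
    have e2 := congrArg (fun w => (re w : A)) e
    have hsum : ∀ (s : Finset (Fin (n + 1))) (f : Fin (n + 1) → Fin n → ℂ),
        re (∑ j ∈ s, f j) = ∑ j ∈ s, re (f j) := fun s f => by
      induction s using Finset.induction_on with
      | empty => simp [re]
      | insert j s hj ih => rw [Finset.sum_insert hj, Finset.sum_insert hj, hreadd, ih]
    have e3 := hio (R u hN ^ (i * (n + 1))) ⟨v, hv⟩ 1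
    rw [one_smul] at e3
    simp only [hreadd, hsum, ← map_pow, hio, e3, Complex.one_re, one_smul, Submodule.coe_add,
      Submodule.coe_sum, Submodule.coe_smul, hR] at e2
    simp only [neg_smul, Finset.sum_neg_distrib, sub_neg_eq_add]
    rw [e2]
    exact Submodule.add_mem_sup m1 m2

end ANd
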