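import Pool.Agent.P.MP_5e7d86_al.BRp

/-!
Large powers of `Ad u` are bounded combinations of smaller powers modulo the expanding and
contracting subspaces.
-/

set_option autoImplicit false

open Classical
open scoped commutatorElement

namespace ANd

namespace OneD

variable {A : Type} [Ring A] [Algebra ℝ A]

theorem sup_Ad {B0 : Set A} {u : Aˣ} {w : A} (h : w ∈ Vp B0 u ⊔ Vp B0 u⁻¹) (z : ℤ) :
    Ad (u ^ z) w ∈ Vp B0 u ⊔ Vp B0 u⁻¹ := by
  obtain ⟨x, hx, y, hy, rfl⟩ := Submodule.mem_sup.1 h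
  rw [Ad_add]
  refine Submodule.add_mem_sup (Vp_Ad_zpow hx z) ?_
  have := Vp_Ad_zpow hy (-z)
  rwa [inv_zpow', neg_neg] at this

/-- the reduction rounds -/
theorem rounds {B0 : Set A} {u : Aˣ} {v : A} {rho i j : ℕ} (hrho : 1 ≤ rho) (hij : i * rho ≤ j)
    (c : Fin rho → ℝ) (hc : ∀ s, |c s| ≤ 2 ^ rho)
    (hv : Ad (u ^ (i * rho)) v - ∑ s : Fin rho, c s • Ad (u ^ (i * (s : ℕ))) v ∈
      Vp B0 u ⊔ Vp B0 u⁻¹) (t : ℕ) :
    ∀ p : ℤ, -(j : ℤ) ≤ p → p ≤ j + t * i → ∃ w ∈ Vp B0 u ⊔ Vp B0 u⁻¹,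
      In {x | ∃ p' : ℤ, |p'| ≤ (j : ℤ) ∧ x = Ad (u ^ p') v} (((rho : ℝ) * 2 ^ rho) ^ t)
        (Ad (u ^ p) v - w) := by
  have hM : (1 : ℝ) ≤ (rho : ℝ) * 2 ^ rho :=
    one_le_mul_of_one_le_of_one_le (by exact_mod_cast hrho) (one_le_pow₀ one_le_two)
  induction t with
  | zero =>
    intro p h1 h2
    refine ⟨0, Submodule.zero_mem _, ?_⟩
    rw [pow_zero, sub_zero]
    exact In.mem _ ⟨p, abs_le.2 ⟨h1, by simpa using h2⟩, rfl⟩
  | succ t ih =>
    intro p h1 h2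
    by_cases hp : p ≤ j + t * i
    · obtain ⟨w, hw, h⟩ := ih p h1 hp
      exact ⟨w, hw, h.le (pow_le_pow_right₀ hM (Nat.le_succ t))⟩
    push Not at hp
    have hij' : (i : ℤ) * rho ≤ j := by exact_mod_cast hij
    have hti : (0 : ℤ) ≤ (t : ℤ) * i := by positivity
    have key : ∀ s : Fin rho, ∃ w ∈ Vp B0 u ⊔ Vp B0 u⁻¹,
        In {x | ∃ p' : ℤ, |p'| ≤ (j : ℤ) ∧ x = Ad (u ^ p') v} (((rho : ℝ) * 2 ^ rho) ^ t)
          (Ad (u ^ (p - i * rho + i * (s : ℕ))) v - w) := by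
      intro s
      have hs : ((s : ℕ) : ℤ) + 1 ≤ rho := by exact_mod_cast s.2
      have h3 : (0 : ℤ) ≤ (i : ℤ) * (s : ℕ) := by positivity
      have h4 : (i : ℤ) * (((s : ℕ) : ℤ) + 1) ≤ i * rho :=
        mul_le_mul_of_nonneg_left hs (by positivity)
      refine ih _ (by linarith) ?_
      push_cast at h2
      nlinarith
    choose w hw hin using key
    have hw0 := sup_Ad hv (p - i * rho)
    refine ⟨_ + ∑ s, c s • w s, Submodule.add_mem _ hw0
      (Submodule.sum_mem _ fun s _ => Submodule.smul_mem _ _ (hw s)), ?_⟩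
    have h5 := In.sum_le Finset.univ _ fun s _ => (hin s).smul_le (hc s)
    rw [Finset.card_univ, Fintype.card_fin, ← mul_assoc, ← pow_succ'] at h5
    refine h5.congr ?_
    have e1 : Ad (u ^ (p - i * rho)) (Ad (u ^ (i * rho)) v) = Ad (u ^ p) v := by
      rw [← Ad_mul, ← zpow_natCast, ← zpow_add]
      congr 2
      push_cast
      ring
    have e2 : ∀ s : Fin rho, Ad (u ^ (p - i * rho)) (Ad (u ^ (i * (s : ℕ))) v) =
        Ad (u ^ (p - i * rho + i * (s : ℕ))) v := by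
      intro s
      rw [← Ad_mul, ← zpow_natCast, ← zpow_add]
      congr 2
    have e3 : Ad (u ^ (p - i * rho)) (∑ s : Fin rho, c s • Ad (u ^ (i * (s : ℕ))) v) =
        ∑ s : Fin rho, c s • Ad (u ^ (p - i * rho + i * (s : ℕ))) v := by
      rw [← AdH_apply, map_sum]
      exact Finset.sum_congr rfl fun s _ => by rw [map_smul, AdH_apply, e2]
    rw [Ad_sub, e1, e3]
    simp only [smul_sub, Finset.sum_sub_distrib]
    abel

/-- the case of nonnegative exponents -/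
theorem half (h : S_One) {B0 : Set A} {u : Aˣ} (hB : B0.Finite)
    (hu : Nrm u (Submodule.span ℝ B0)) (A0 : ℕ) : ∃ (j0 : ℕ) (C : ℝ), 0 ≤ C ∧ ∀ j ≥ j0, ∀ p : ℤ,
    0 ≤ p → p ≤ ((A0 * j : ℕ) : ℤ) → ∀ v ∈ Submodule.span ℝ B0, ∃ w ∈ Vp B0 u ⊔ Vp B0 u⁻¹,
      In {x | ∃ p' : ℤ, |p'| ≤ (j : ℤ) ∧ x = Ad (u ^ p') v} C (Ad (u ^ p) v - w) := by
  obtain ⟨rho, hrho, H⟩ := h A B0 u hB hu
  refine ⟨rho, ((rho : ℝ) * 2 ^ rho) ^ (2 * A0 * rho), by positivity, fun j hj p h0 h1 v hv => ?_⟩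
  obtain ⟨c, hc, hv'⟩ := H (j / rho)
  have hi : 1 ≤ j / rho := (Nat.le_div_iff_mul_le hrho).2 (by simpa using hj)
  have hlt : j < (j / rho + 1) * rho := by
    have := Nat.div_add_mod j rho
    have := Nat.mod_lt j hrho
    nlinarith
  have hA : A0 * j ≤ j + 2 * A0 * rho * (j / rho) := by
    have : j ≤ 2 * rho * (j / rho) := by nlinarith
    calc A0 * j ≤ A0 * (2 * rho * (j / rho)) := Nat.mul_le_mul_left _ this
      _ = 2 * A0 * rho * (j / rho) := by ring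
      _ ≤ _ := Nat.le_add_left _ _
  refine rounds hrho (Nat.div_mul_le_self j rho) c hc (hv' v hv) _ p (by omega) (h1.trans ?_)
  exact_mod_cast hA

end OneD

open OneD in
theorem pOneD (h : S_One) : S_OneD := by
  intro A _ _ B0 u hB hu A0
  obtain ⟨j1, C1, hC1, H1⟩ := half h hB hu A0
  obtain ⟨j2, C2, -, H2⟩ := half h hB hu.inv A0
  refine ⟨max j1 j2, max C1 C2, le_max_of_le_left hC1, fun j hj p hp v hv => ?_⟩
  rcases le_total 0 p with h0 | h0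
  · obtain ⟨w, hw, hi⟩ := H1 j (le_of_max_le_left hj) p h0 (le_of_abs_le hp) v hv
    exact ⟨w, hw, hi.le (le_max_left _ _)⟩
  · obtain ⟨w, hw, hi⟩ := H2 j (le_of_max_le_right hj) (-p) (by omega)
      (by rw [abs_of_nonpos h0] at hp; exact hp) v hv
    rw [inv_inv, sup_comm] at hw
    rw [inv_zpow', neg_neg] at hi
    refine ⟨w, hw, (hi.le (le_max_right _ _)).mono_set ?_⟩
    rintro _ ⟨p', h1, rfl⟩
    exact ⟨-p', by rwa [abs_neg], by rw [inv_zpow']⟩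

end ANd
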