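import Pool.Agent.P.MP_5e7d86_al.BRp

/-! Line type elements are represented by boundedly many short commutators. -/

set_option autoImplicit false
open Classical
open scoped commutatorElement

namespace ANd

namespace Par

variable {G : Type} [Group G]

/-- Put `q` into the slot `u` of `h0`. -/
def em {i d : ℕ} (u : Fin (i + 1)) (h0 : Fin (i + 1) × Fin d → ℤ) (q : Fin d → ℤ) :
    Fin (i + 1) × Fin d → ℤ := fun p => if p.1 = u then q p.2 else h0 p

theorem em_self {i d : ℕ} (u : Fin (i + 1)) (h0 : Fin (i + 1) × Fin d → ℤ) (q : Fin d → ℤ)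
    (b : Fin d) : em u h0 q (u, b) = q b := by simp [em]

theorem em_inj {i d : ℕ} (u : Fin (i + 1)) (h0 : Fin (i + 1) × Fin d → ℤ) :
    Function.Injective (em u h0) := fun q q' h => funext fun b => by
  rw [← em_self u h0 q b, h, em_self]

theorem em_sm {i d K : ℕ} (u : Fin (i + 1)) {h0 : Fin (i + 1) × Fin d → ℤ} {q : Fin d → ℤ}
    (h : Sm K h0) (hq : Sm K q) : Sm K (em u h0 q) := fun p => by
  unfold em
  split_ifs
  · exact hq _
  · exact h _

theorem em_line {i d : ℕ} {u : Fin (i + 1)} {a : Fin d} {h0 h : Fin (i + 1) × Fin d → ℤ}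
    (H : ∀ b, b ≠ (u, a) → h b = h0 b) : em u h0 (fun b => h (u, b)) = h := by
  funext p
  unfold em
  split_ifs with hp
  · rw [← hp]
  · exact (H p fun e => hp (by rw [e])).symm

theorem cJ_em (S : Setup G) (i : ℕ) (J : Fin (i + 1) → Fin S.m) (u : Fin (i + 1))
    (h0 : Fin (i + 1) × Fin S.d → ℤ) (q : Fin S.d → ℤ) :
    S.cJ i J (em u h0 q) =
      cm i (Function.update (fun u' => S.x (J u') fun a => h0 (u', a)) u (S.x (J u) q)) := by
  unfold Setup.cJ
  congr 1
  funext u'
  by_cases h : u' = u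
  · subst h
    simp [em]
  · simp [em, h]

/-- Push forward of formal sums. -/
noncomputable def push {ι κ : Type} (f : (ι → ℤ) → (κ → ℤ)) : ZH ι →+ ZH κ :=
  AddMonoidAlgebra.coeffAddEquiv.symm.toAddMonoidHom.comp
    ((Finsupp.mapDomain.addMonoidHom f).comp AddMonoidAlgebra.coeffAddEquiv.toAddMonoidHom)

theorem coeff_push {ι κ : Type} (f : (ι → ℤ) → (κ → ℤ)) (x : ZH ι) :
    (push f x).coeff = x.coeff.mapDomain f := rfl

theorem push_tau {ι κ : Type} (f : (ι → ℤ) → (κ → ℤ)) (q : ι → ℤ) :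
    push f (tau q) = tau (f q) := by
  apply AddMonoidAlgebra.coeff_injective
  rw [coeff_push]
  simp [tau]

section Slot
variable {ι : Type} {E : Subgroup G} {i : ℕ} {c : (ι → ℤ) → G} {W : Set (ι → ℤ)}
  {v : Fin (i + 1) → G} {u : Fin (i + 1)}

theorem rp_mul (hL : S_LCS)
    (T : Sec (E.lowerCentralSeries i) (E.lowerCentralSeries (i + 1)) c W) (hv : ∀ u, v u ∈ E)
    {y y' : G} (hy : y ∈ E) (hy' : y' ∈ E) {lam mu : ZH ι}
    (h : Rp (E.lowerCentralSeries (i + 1)) c W lam (cm i (Function.update v u y)))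
    (h' : Rp (E.lowerCentralSeries (i + 1)) c W mu (cm i (Function.update v u y'))) :
    Rp (E.lowerCentralSeries (i + 1)) c W (lam + mu) (cm i (Function.update v u (y * y'))) :=
  (h.mul T h').congr T ((hL G E).2.2.1 i v u y y' hv hy hy')

theorem rp_inv (hL : S_LCS)
    (T : Sec (E.lowerCentralSeries i) (E.lowerCentralSeries (i + 1)) c W) (hv : ∀ u, v u ∈ E)
    {y : G} (hy : y ∈ E) {lam : ZH ι}
    (h : Rp (E.lowerCentralSeries (i + 1)) c W lam (cm i (Function.update v u y))) :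
    Rp (E.lowerCentralSeries (i + 1)) c W (-lam) (cm i (Function.update v u y⁻¹)) := by
  refine (h.inv T).congr T ?_
  have h1 := (hL G E).2.2.1 i v u y y⁻¹ hv hy (E.inv_mem hy)
  have h2 := (hL G E).2.2.2.1 i v u (y * y⁻¹) hv (by rw [mul_inv_cancel]; exact Subgroup.one_mem _)
  have h3 := Subgroup.inv_mem _ (Subgroup.mul_mem _ h1 (Subgroup.inv_mem _ h2))
  simpa [mul_assoc] using h3

theorem rp_conj (hL : S_LCS)
    (T : Sec (E.lowerCentralSeries i) (E.lowerCentralSeries (i + 1)) c W) (hv : ∀ u, v u ∈ E)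
    {g y : G} (hg : g ∈ E) (hy : y ∈ E) {lam : ZH ι}
    (h : Rp (E.lowerCentralSeries (i + 1)) c W lam (cm i (Function.update v u y))) :
    Rp (E.lowerCentralSeries (i + 1)) c W lam (cm i (Function.update v u (g * y * g⁻¹))) := by
  have h1 : ⁅g, y⁆ ∈ E.lowerCentralSeries 1 := lcs_comm E 0 hg hy
  have h2 := rp_mul hL T hv (lcs_le E 1 h1) hy
    (Rp.base _ ((hL G E).2.2.2.1 i v u _ hv h1)) h
  have e : ⁅g, y⁆ * y = g * y * g⁻¹ := by rw [commutatorElement_def]; group
  rw [e, zero_add] at h2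
  exact h2

theorem rp_list (hL : S_LCS)
    (T : Sec (E.lowerCentralSeries i) (E.lowerCentralSeries (i + 1)) c W) (hv : ∀ u, v u ∈ E)
    {I : Type} (f : I → ZH ι) (g : I → G) : ∀ L : List I, (∀ p ∈ L, g p ∈ E ∧
      Rp (E.lowerCentralSeries (i + 1)) c W (f p) (cm i (Function.update v u (g p)))) →
    Rp (E.lowerCentralSeries (i + 1)) c W (L.map f).sum
      (cm i (Function.update v u (L.map g).prod))
  | [], _ => Rp.base _ ((hL G E).2.2.2.1 i v u _ hv (Subgroup.one_mem _))
  | p :: L, h => by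
    simp only [List.map_cons, List.sum_cons, List.prod_cons]
    refine rp_mul hL T hv (h p (by simp)).1 (E.list_prod_mem fun x hx => ?_) (h p (by simp)).2
      (rp_list hL T hv f g L fun q hq => h q (by simp [hq]))
    obtain ⟨q, hq, rfl⟩ := List.mem_map.1 hx
    exact (h q (by simp [hq])).1

end Slot

end Par

open Par in
theorem pPar (h0 : S_Par0) (hL : S_LCS) (hG : S_GenA) : S_Par := by
  intro G _ S i J C
  obtain ⟨C0, hC0⟩ := h0 G S C
  obtain ⟨c, hc⟩ := (hG G S).2.2.2.2.2.1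
  refine ⟨C0 + c, fun K hK sg hsg => ?_⟩
  have m0 : C0 * K ≤ (C0 + c) * K := Nat.mul_le_mul_right _ (by omega)
  have m1 : c * K ≤ (C0 + c) * K := Nat.mul_le_mul_right _ (by omega)
  have hx : ∀ j q, Sm K q → S.x j q ∈ S.B ((C0 + c) * K) := fun j q hq =>
    S.B_mono m1 (hc K hK j q hq)
  have T : Sec ((S.E ((C0 + c) * K)).lowerCentralSeries i)
      ((S.E ((C0 + c) * K)).lowerCentralSeries (i + 1)) (S.cJ i J) {h | Sm K h} :=
    ⟨S.Γ_anti _ (Nat.le_succ i), S.Γ_comm _ i, fun h hh =>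
      (hL G _).2.1 i _ fun u => S.B_sub_E _ (hx _ _ fun a => hh (u, a))⟩
  obtain ⟨L, l1, l2, l3⟩ := hsg.split
  have key : ∀ p ∈ L, ∃ v : Fin (i + 1) → G, (∀ u, v u ∈ S.B ((C0 + c) * K)) ∧
      Rp ((S.E ((C0 + c) * K)).lowerCentralSeries (i + 1)) (S.cJ i J) {h | Sm K h} p.2.2
        (cm i v) := by
    rintro ⟨⟨u, a⟩, g0, x⟩ hp
    obtain ⟨o1, o2, o3, o4⟩ := l2 _ hp
    simp only at o1 o2 o3 o4 ⊢
    set x' : ZH (Fin S.d) :=
      AddMonoidAlgebra.ofCoeff (x.coeff.comapDomain (em u g0) (em_inj u g0).injOn) with hx'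
    have cx : ∀ q, x'.coeff q = x.coeff (em u g0 q) := fun q => rfl
    have sx : ∀ q ∈ x'.coeff.support, em u g0 q ∈ x.coeff.support := fun q hq => by
      rw [Finsupp.mem_support_iff] at hq ⊢
      rwa [← cx]
    have wx : Win K x' := fun q hq b => by
      rw [← em_self u g0 q b]; exact o2 _ (sx q hq) _
    have px : push (em u g0) x' = x := by
      apply AddMonoidAlgebra.coeff_injective
      rw [coeff_push]
      exact Finsupp.mapDomain_comapDomain _ (em_inj u g0) _ fun h hh =>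
        ⟨_, em_line (o1 h (Finset.mem_coe.1 hh))⟩
    obtain ⟨M, -, k2, k3, k4⟩ := hC0 K hK (J u) a (fun b => g0 (u, b)) x' (fun q hq b hb => by
      rw [← em_self u g0 q b]
      exact o1 _ (sx q hq) (u, b) fun e => hb (Prod.mk.inj e).2) wx fun q => by
        rw [cx]; exact o4 _
    have hv : ∀ u', S.x (J u') (fun b => g0 (u', b)) ∈ S.B ((C0 + c) * K) := fun u' =>
      hx _ _ fun b => o3 (u', b)
    refine ⟨Function.update (fun u' => S.x (J u') fun b => g0 (u', b)) u _, fun u' => ?_,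
      (rp_list (u := u) hL T (fun u' => S.B_sub_E _ (hv u'))
        (fun p : (Fin S.d → ℤ) × Bool × G =>
          push (em u g0) (if p.2.1 then tau p.1 else - tau p.1))
        (fun p => p.2.2 * (if p.2.1 then S.x (J u) p.1 else (S.x (J u) p.1)⁻¹) * p.2.2⁻¹) M
        fun p hp => ?_).cast ?_ rfl⟩
    · by_cases h : u' = u
      · subst h
        rw [Function.update_self]
        exact S.B_mono m0 k4
      · rw [Function.update_of_ne h]
        exact hv u'
    · have s1 : Sm K p.1 := wx _ (k2 p hp).1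
      have e1 : S.x (J u) p.1 ∈ S.E ((C0 + c) * K) := S.B_sub_E _ (hx _ _ s1)
      have e2 : p.2.2 ∈ S.E ((C0 + c) * K) := S.B_sub_E _ (S.B_mono m0 (k2 p hp).2)
      have r1 : Rp ((S.E ((C0 + c) * K)).lowerCentralSeries (i + 1)) (S.cJ i J) {h | Sm K h}
          (tau (em u g0 p.1)) (cm i (Function.update (fun u' => S.x (J u') fun b => g0 (u', b)) u
            (S.x (J u) p.1))) :=
        (Rp.tau (em_sm u o3 s1)).cast rfl (cJ_em S i J u g0 p.1)
      have hv' := fun u' => S.B_sub_E _ (hv u')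
      rcases hb : p.2.1 with _ | _
      · simp only [Bool.false_eq_true, if_false, map_neg, push_tau]
        exact ⟨Subgroup.mul_mem _ (Subgroup.mul_mem _ e2 (Subgroup.inv_mem _ e1))
          (Subgroup.inv_mem _ e2), rp_conj hL T hv' e2 (Subgroup.inv_mem _ e1)
            (rp_inv hL T hv' e1 r1)⟩
      · simp only [if_true, push_tau]
        exact ⟨Subgroup.mul_mem _ (Subgroup.mul_mem _ e2 e1) (Subgroup.inv_mem _ e2),
          rp_conj hL T hv' e2 e1 r1⟩
    · rw [← px, ← k3, lfc, map_list_sum, List.map_map, List.map_map]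
      rfl
  choose! v hv1 hv2 using key
  refine ⟨L.map v, by simpa using l1, fun w hw => ?_, ?_⟩
  · obtain ⟨p, hp, rfl⟩ := List.mem_map.1 hw
    exact hv1 p hp
  · rw [List.map_map]
    exact (Rp.list T L (fun p => p.2.2) (fun p => cm i (v p)) hv2).cast l3.symm rfl

end ANd
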