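import Pool.Agent.P.MP_5e7d86_al.BRp

/-! Products along one coordinate line telescope. -/

set_option autoImplicit false
open Classical
open scoped commutatorElement

namespace ANd

namespace Par0

variable {G : Type} [Group G] {ι : Type}

/-- One block: `|c|` copies of the same entry. -/
theorem block (c : ℤ) (h : ι → ℤ) (g y : G) : ∃ L : List ((ι → ℤ) × Bool × G),
    L.length = c.natAbs ∧ (∀ p ∈ L, c ≠ 0 ∧ p.1 = h ∧ p.2.2 = g) ∧
    lfc (L.map fun p => (p.1, p.2.1)) = c • tau h ∧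
    ∀ x : (ι → ℤ) → G, x h = y →
      (L.map fun p => p.2.2 * (if p.2.1 then x p.1 else (x p.1)⁻¹) * p.2.2⁻¹).prod =
        g * y ^ c * g⁻¹ := by
  obtain ⟨m, rfl | rfl⟩ := c.eq_nat_or_neg
  · refine ⟨List.replicate m (h, true, g), by simp, fun p hp => ?_, by simp [lfc], ?_⟩
    · obtain ⟨h1, rfl⟩ := List.mem_replicate.1 hp
      exact ⟨by exact_mod_cast h1, rfl, rfl⟩
    · rintro x rfl
      simp [conj_pow]
  · refine ⟨List.replicate m (h, false, g), by simp, fun p hp => ?_, by simp [lfc], ?_⟩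
    · obtain ⟨h1, rfl⟩ := List.mem_replicate.1 hp
      exact ⟨by simpa using h1, rfl, rfl⟩
    · rintro x rfl
      simp [conj_pow]

/-- The telescoping induction. -/
theorem tele {l : G → ℕ} (hl : IsLen l) (σ T e : G) (pt : ℤ → ι → ℤ) (γ : ℤ → G)
    (x : (ι → ℤ) → G) (c : ℤ → ℤ) (C : ℕ) (hc : ∀ z, (c z).natAbs ≤ C)
    (hx : ∀ z, γ z * x (pt z) * (γ z)⁻¹ = σ * T ^ z * e * (σ * T ^ z)⁻¹) (z0 : ℤ) (n : ℕ) :
    ∃ L : List ((ι → ℤ) × Bool × G), L.length ≤ C * n ∧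
      (∀ p ∈ L, ∃ i < n, c (z0 + i) ≠ 0 ∧ p.1 = pt (z0 + i) ∧ p.2.2 = γ (z0 + i)) ∧
      lfc (L.map fun p => (p.1, p.2.1)) =
        ∑ i ∈ Finset.range n, c (z0 + i) • tau (pt (z0 + i)) ∧
      ∃ w, l w ≤ n * (C * l e + l T) ∧
        (L.map fun p => p.2.2 * (if p.2.1 then x p.1 else (x p.1)⁻¹) * p.2.2⁻¹).prod =
          σ * T ^ z0 * w * (σ * T ^ (z0 + n))⁻¹ := by
  induction n with
  | zero => exact ⟨[], by simp, by simp, by simp [lfc], 1, by simp [hl.one], by simp⟩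
  | succ n ih =>
    obtain ⟨L, h1, h2, h3, w, h4, h5⟩ := ih
    obtain ⟨L', k1, k2, k3, k4⟩ := block (c (z0 + n)) (pt (z0 + n)) (γ (z0 + n)) (x (pt (z0 + n)))
    refine ⟨L ++ L', ?_, fun p hp => ?_, ?_, w * e ^ c (z0 + n) * T, ?_, ?_⟩
    · have := hc (z0 + n)
      rw [List.length_append, k1, Nat.mul_succ]
      omega
    · rcases List.mem_append.1 hp with hp | hp
      · obtain ⟨i, hi, h⟩ := h2 p hp
        exact ⟨i, by omega, h⟩
      · exact ⟨n, by omega, k2 p hp⟩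
    · rw [List.map_append, lfc_append, h3, k3, Finset.sum_range_succ]
    · have a1 := hl.mul3 w (e ^ c (z0 + n)) T
      have a2 := (hl.zpow e (c (z0 + n))).trans (Nat.mul_le_mul_right _ (hc (z0 + n)))
      rw [Nat.succ_mul]
      omega
    · rw [List.map_append, List.prod_append, h5, k4 x rfl, ← conj_zpow, hx, conj_zpow]
      push_cast
      rw [← add_assoc, zpow_add_one]
      group

end Par0

open Par0

theorem pPar0 (hA : S_GenA) : S_Par0 := by
  intro G _ S C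
  obtain ⟨-, -, hpr, -, ⟨c1, hs⟩, -, -⟩ := hA G S
  obtain ⟨M, hM1, hM2⟩ : ∃ M : ℕ, (∀ a, S.l (S.t a) ≤ M) ∧ ∀ j, S.l (S.e j) ≤ M :=
    ⟨∑ a, S.l (S.t a) + ∑ j, S.l (S.e j), fun a => le_add_right
      (Finset.single_le_sum (f := fun a => S.l (S.t a)) (fun _ _ => Nat.zero_le _)
        (Finset.mem_univ a)), fun j => le_add_left
      (Finset.single_le_sum (f := fun j => S.l (S.e j)) (fun _ _ => Nat.zero_le _)
        (Finset.mem_univ j))⟩
  refine ⟨3 * C + 2 * c1 + 6 * M + 3 * (C * M), fun K hK j a h0 sg hline hwin hc => ?_⟩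
  rcases sg.coeff.support.eq_empty_or_nonempty with he | ⟨h1, hh1⟩
  · have : sg = 0 := AddMonoidAlgebra.coeff_eq_zero.1 (Finsupp.support_eq_empty.1 he)
    exact ⟨[], by simp, by simp, by simp [lfc, this], S.N.one_mem, by simp [S.len.one]⟩
  let pt : ℤ → Fin S.d → ℤ := fun z => Function.update h1 a z
  have hpt : ∀ h ∈ sg.coeff.support, pt (h a) = h := fun h hh => by
    funext b
    by_cases hb : b = a
    · subst hb; simp [pt]
    · simp only [pt, Function.update_of_ne hb]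
      rw [hline h hh b hb, hline h1 hh1 b hb]
  have hpa : ∀ z, pt z a = z := fun z => by simp [pt]
  have hsm : ∀ z : ℤ, |z| ≤ (K : ℤ) → Sm K (pt z) := fun z hz b => by
    by_cases hb : b = a
    · subst hb; rw [hpa]; exact hz
    · simp only [pt, Function.update_of_ne hb]
      exact hwin h1 hh1 b
  have hσ : S.l (S.s (pt 0)) ≤ c1 * K := hs K _ (hsm 0 (by simp))
  have hT : ∀ z : ℤ, ∀ k : ℕ, |z| ≤ (k : ℤ) → S.l (S.t a ^ z) ≤ k * M := fun z k hz =>
    (S.len.zpow _ z).trans (Nat.mul_le_mul (by have := abs_le.1 hz; omega) (hM1 a))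
  let γ : ℤ → G := fun z => S.s (pt 0) * S.t a ^ z * (S.s (pt z))⁻¹
  have hγN : ∀ z, γ z ∈ S.N := fun z => by
    rw [S.ker]
    simp only [γ, map_mul, map_inv, map_zpow, hpr, S.prt]
    rw [mul_inv_eq_one, ← ofAdd_zsmul, ← ofAdd_add]
    congr 1
    funext b
    by_cases hb : b = a
    · subst hb; simp [pt]
    · simp [pt, Function.update_of_ne hb, Pi.single_eq_of_ne hb]
  have hγl : ∀ z : ℤ, |z| ≤ (K : ℤ) → S.l (γ z) ≤ 2 * c1 * K + K * M := fun z hz => by
    have a1 := S.len.mul3 (S.s (pt 0)) (S.t a ^ z) (S.s (pt z))⁻¹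
    rw [S.len.inv] at a1
    have a2 := hs K _ (hsm z hz)
    have a3 := hT z K hz
    simp only [γ]
    nlinarith
  obtain ⟨L, h2, h3, h4, w, h5, h6⟩ := tele S.len (S.s (pt 0)) (S.t a) (S.e j) pt γ (S.x j)
    (fun z => sg.coeff (pt z)) C (fun z => by have := abs_le.1 (hc (pt z)); omega)
    (fun z => by simp only [γ, Setup.x]; group) (-K) (2 * K + 1)
  have hL : ∀ p ∈ L, p.1 ∈ sg.coeff.support ∧ p.2.2 ∈ S.N ∧ S.l p.2.2 ≤ 2 * c1 * K + K * M := by
    intro p hp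
    obtain ⟨i, hi, k1, k2, k3⟩ := h3 p hp
    rw [k2, k3]
    exact ⟨Finsupp.mem_support_iff.2 k1, hγN _, hγl _ (abs_le.2 ⟨by omega, by omega⟩)⟩
  have hexp : (3 * C + 2 * c1 + 6 * M + 3 * (C * M)) * K =
      3 * (C * K) + 2 * (c1 * K) + 6 * (K * M) + 3 * (C * M * K) := by ring
  refine ⟨L, ?_, fun p hp => ⟨(hL p hp).1, (hL p hp).2.1, (hL p hp).2.2.trans ?_⟩,
    ?_, ?_, ?_⟩
  · have : C * (2 * K + 1) ≤ C * (3 * K) := Nat.mul_le_mul_left C (by omega)
    have e : C * (3 * K) = 3 * (C * K) := by ring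
    omega
  · rw [hexp, mul_assoc]
    omega
  · rw [h4]
    conv_rhs => rw [eq_sum_tau sg]
    have hinj : Set.InjOn (fun i : ℕ => pt (-K + i)) (Finset.range (2 * K + 1)) := by
      intro i _ i' _ e
      have := congrFun e a
      simp only [hpa] at this
      omega
    rw [← Finset.sum_image (f := fun h => sg.coeff h • tau h) hinj]
    symm
    refine Finset.sum_subset (fun h hh => ?_) fun h _ hh => ?_
    · have := abs_le.1 (hwin h hh a)
      refine Finset.mem_image.2 ⟨(h a + K).toNat, Finset.mem_range.2 (by omega), ?_⟩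
      rw [show -(K : ℤ) + ((h a + K).toNat : ℕ) = h a by omega]
      exact hpt h hh
    · rw [Finsupp.notMem_support_iff.1 hh, zero_smul]
  · refine S.N.list_prod_mem fun y hy => ?_
    obtain ⟨p, hp, rfl⟩ := List.mem_map.1 hy
    refine S.N.mul_mem (S.N.mul_mem (hL p hp).2.1 ?_) (S.N.inv_mem (hL p hp).2.1)
    split_ifs
    · exact S.x_mem j _
    · exact S.N.inv_mem (S.x_mem j _)
  · rw [h6]
    have a1 := S.len.mul3 (S.s (pt 0) * S.t a ^ (-(K : ℤ))) w
      (S.s (pt 0) * S.t a ^ (-(K : ℤ) + ((2 * K + 1 : ℕ) : ℤ)))⁻¹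
    rw [S.len.inv] at a1
    have a2 := S.len.mul (S.s (pt 0)) (S.t a ^ (-(K : ℤ)))
    have a3 := S.len.mul (S.s (pt 0)) (S.t a ^ (-(K : ℤ) + ((2 * K + 1 : ℕ) : ℤ)))
    have a4 := hT (-(K : ℤ)) K (by simp)
    have a5 := hT (-(K : ℤ) + ((2 * K + 1 : ℕ) : ℤ)) (2 * K) (abs_le.2 ⟨by omega, by omega⟩)
    have a6 : S.l w ≤ 3 * K * (C * M + M) :=
      h5.trans (Nat.mul_le_mul (by omega)
        (add_le_add (Nat.mul_le_mul_left C (hM2 j)) (hM1 a)))
    nlinarith

end ANd
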