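import Pool.Agent.P.MP_5e7d86_al.BRp

set_option autoImplicit false
set_option linter.unusedSectionVars false
open Classical
open scoped commutatorElement

namespace ANd

namespace PhA

variable {G : Type} [Group G] {A : Type} [Ring A] [Algebra ℝ A]

theorem YU (hLie1 : S_Lie1) (S : LSetup G A) (k : ℕ) : S.Y k ⊆ S.R.D.U := fun _ hv =>
  (hLie1 G A S.N S.R S.toSetup.normal).1.le (S.Y_sub k hv)

theorem lsub {I : Type} (L : List I) (f g : I → A) :
    (L.map fun i => f i - g i).sum = (L.map f).sum - (L.map g).sum := by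
  induction L with
  | nil => simp
  | cons i L ih => simp only [List.map_cons, List.sum_cons, ih]; abel

/-- One step of the descent. -/
theorem step (hCmL : S_CmL) (hGR : S_GR) (hLCS : S_LCS) (hLie1 : S_Lie1) (S : LSetup G A)
    (U0 : Submodule ℝ A) (i : ℕ) (hCar : S.Car i) (hLat : S.toSetup.Lat i) (hDbl : S.Dbl U0 i)
    (Lam : ℝ) : ∃ (La : ℝ) (c C1 j1 : ℕ) (C2 : ℝ), Lam ≤ La ∧ 2 ≤ j1 ∧ 1 ≤ C1 ∧ 0 ≤ C2 ∧
      ∀ j ≥ j1, ∀ x ∈ S.toSetup.Γ j i, ∀ v, In (TE (S.Y j) i) La v →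
      ∃ y ∈ S.toSetup.Γ (C1 * j) i, S.l y ≤ C1 * j ∧ In (TG (S.Y (C1 * j)) i) C2 (S.R.L y) ∧
        y⁻¹ * x ∈ S.toSetup.Γ c i ⊔ S.toSetup.Γ (C1 * j) (i + 1) ∧
        ∃ v1, ∃ u ∈ S.UI U0 i, In (TE (S.Y (j / 2)) i) La v1 ∧
          In (TG (S.Y (C1 * j)) (i + 1)) C2 (v - S.R.L y - v1 - u) := by
  obtain ⟨C0, hCar⟩ := hCar
  obtain ⟨cL, CL, hLat⟩ := hLat
  obtain ⟨j0, CD, hDbl⟩ := hDbl (3 * (CL + 1))
  obtain ⟨CC, hCar⟩ := hCar (max Lam (CD * (|C0| + CL)))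
  obtain ⟨Cm, hCm0, hCm⟩ := hCmL A S.R.D i 1
  obtain ⟨Cg, hCg0, hGr⟩ := hGR A S.R.D (CC + CL * (Cm + Cm))
  refine ⟨max Lam (CD * (|C0| + CL)), cL, CC + CL * (4 ^ i * CL) + CD + CL + 1, 2 * j0 + 2,
    CC + CD * (|C0| + CL) + Cg + CL * (Cm + Cm), le_max_left _ _, by omega, by omega,
    by positivity, fun j hj x hx v hv => ?_⟩
  set C1 := CC + CL * (4 ^ i * CL) + CD + CL + 1 with hC1
  have hj1 : 1 ≤ j := by omega
  have k1 : j ≤ C1 * j := Nat.le_mul_of_pos_left _ (by omega)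
  have k2 : CL * j ≤ C1 * j := Nat.mul_le_mul_right _ (by omega)
  have k3 : CD * (j / 2) ≤ C1 * j := Nat.mul_le_mul (by omega) (by omega)
  obtain ⟨y1, hy1, l1, g1, v', hv', e1⟩ := hCar j hj1 v hv
  obtain ⟨L, hL, hLB, hLm⟩ := hLat j hj1 (y1⁻¹ * x)
    (Subgroup.mul_mem _ (Subgroup.inv_mem _ hy1) hx)
  have hcm : ∀ w ∈ L, S.R.D.Uni (S.R.psi (cm i w)) ∧
      In (TG (S.Y (C1 * j)) i) (Cm + Cm) (S.R.L (cm i w)) ∧
      In (TG (S.Y (C1 * j)) (i + 1)) Cm (S.R.L (cm i w) - nest i fun s => S.R.L (w s)) := by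
    intro w hw
    obtain ⟨a1, a2, a3⟩ := hCm (S.Y (C1 * j)) (YU hLie1 S _) (fun s => S.R.psi (w s)) fun s =>
      ⟨S.R.uni _ (hLB w hw s).1, In.mem _ (sub_TG _ (S.Y_mono k2 (S.mem_Y (hLB w hw s))))⟩
    rw [← map_cm] at a1 a3
    refine ⟨a1, ((a3.TG_anti (Nat.le_succ i)).add' a2).congr ?_, a3⟩
    simp [LData.L]
  have hy1N : y1 ∈ S.N := S.toSetup.Γ_le j i hy1
  have hlen : (L.length : ℝ) ≤ CL := by exact_mod_cast hL
  have hG := hGr (S.Y (C1 * j)) (YU hLie1 S _) i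
    (((CC : ℝ), S.R.psi y1) :: L.map fun w => (Cm + Cm, S.R.psi (cm i w))) (by
      intro p hp
      rcases List.mem_cons.1 hp with rfl | hp
      · exact ⟨S.R.uni _ hy1N, g1.TG_mono (S.Y_mono k1)⟩
      · obtain ⟨w, hw, rfl⟩ := List.mem_map.1 hp
        exact ⟨(hcm w hw).1, (hcm w hw).2.1⟩) (by
      simp only [List.map_cons, List.sum_cons, List.map_map, Function.comp_def, List.map_const',
        List.sum_replicate, nsmul_eq_mul]
      have : (L.length : ℝ) * (Cm + Cm) ≤ CL * (Cm + Cm) :=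
        mul_le_mul_of_nonneg_right hlen (by positivity)
      linarith)
  have hG' : In (TG (S.Y (C1 * j)) (i + 1)) Cg (S.R.L (y1 * (L.map (cm i)).prod) -
      (S.R.L y1 + (L.map fun w => S.R.L (cm i w)).sum)) := by
    refine hG.congr ?_
    simp only [List.map_cons, List.prod_cons, List.sum_cons, List.map_map, Function.comp_def,
      LData.L, map_mul, map_list_prod]
  have s1 : In (TG (S.Y (C1 * j)) i) (CL * (Cm + Cm)) (L.map fun w => S.R.L (cm i w)).sum :=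
    (In.list_sum_le L _ fun w hw => (hcm w hw).2.1).le
      (mul_le_mul_of_nonneg_right hlen (by positivity))
  have s2 : In (TG (S.Y (C1 * j)) (i + 1)) (CL * Cm) ((L.map fun w => S.R.L (cm i w)).sum -
      (L.map fun w => nest i fun s => S.R.L (w s)).sum) := by
    refine ((In.list_sum_le L _ fun w hw => (hcm w hw).2.2).le
      (mul_le_mul_of_nonneg_right hlen hCm0)).congr ?_
    exact lsub L _ _
  have k4 : CL * j ≤ 3 * (CL + 1) * (j / 2) := by
    have : j ≤ 3 * (j / 2) := by omega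
    nlinarith
  have k5 : j ≤ 3 * (CL + 1) * (j / 2) := by
    have : j ≤ 3 * (j / 2) := by omega
    nlinarith
  have s3 : In (TE (S.Y (3 * (CL + 1) * (j / 2))) i) CL
      (L.map fun w => nest i fun s => S.R.L (w s)).sum := by
    refine (In.list_sum_le (a := 1) L _ fun w hw => In.mem _ ?_).le (by simpa using hlen)
    exact ⟨_, fun s => S.Y_mono k4 (S.mem_Y (hLB w hw s)), rfl⟩
  have s4 := ((hv'.le (le_abs_self C0)).mono_set (TE_mono (S.Y_mono k5) i)).sub s3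
  obtain ⟨v1, u, hu, d1, d2⟩ := hDbl (j / 2) (by omega) _ _ s4
  have hy2 : (L.map (cm i)).prod ∈ S.toSetup.Γ (C1 * j) i := by
    refine Subgroup.list_prod_mem _ fun z hz => ?_
    obtain ⟨w, hw, rfl⟩ := List.mem_map.1 hz
    exact (hLCS G _).2.1 i w fun s => S.toSetup.B_sub_E _ (S.toSetup.B_mono k2 (hLB w hw s))
  have l2 : S.l (L.map (cm i)).prod ≤ CL * (4 ^ i * CL) * j := by
    refine (S.len.prod_le _ (4 ^ i * (CL * j)) fun z hz => ?_).trans ?_
    · obtain ⟨w, hw, rfl⟩ := List.mem_map.1 hz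
      exact S.len.cm _ i w fun s => (hLB w hw s).2
    · rw [List.length_map]
      calc L.length * (4 ^ i * (CL * j)) ≤ CL * (4 ^ i * (CL * j)) := Nat.mul_le_mul_right _ hL
        _ = _ := by ring
  have p1 : (0 : ℝ) ≤ CD * (|C0| + CL) := by positivity
  have p2 : (0 : ℝ) ≤ CL * Cm := by positivity
  refine ⟨y1 * (L.map (cm i)).prod, Subgroup.mul_mem _ (S.toSetup.Γ_mono k1 i hy1) hy2, ?_, ?_,
    ?_, v1, u, hu, d1.le (le_max_right _ _), ?_⟩
  · refine (S.len.mul _ _).trans ((add_le_add l1 l2).trans ?_)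
    rw [← add_mul]
    exact Nat.mul_le_mul_right _ (by omega)
  · refine (((hG'.TG_anti (Nat.le_succ i)).add' ((g1.TG_mono (S.Y_mono k1)).add' s1)).le
      (by linarith)).congr (by abel)
  · rw [mul_inv_rev, mul_assoc]
    exact sup_le_sup_left (S.toSetup.Γ_mono k2 (i + 1)) _ hLm
  · refine (((((e1.TG_mono (S.Y_mono k1)).add' (d2.TG_mono (S.Y_mono k3))).sub hG').sub s2).le
      (by nlinarith)).congr (by abel)

end PhA

open PhA in
theorem pPhA (hB2 : S_B2) (hCmL : S_CmL) (hGR : S_GR) (hSize : S_Size) (hLCS : S_LCS)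
    (hLie1 : S_Lie1) : S_PhA := by
  intro G _ A _ _ S U0 i hCar hLat hDbl Lam
  obtain ⟨La, cL, C1, j1, C2, hLa, hj1, hC1, hC2, hst⟩ :=
    step hCmL hGR hLCS hLie1 S U0 i hCar hLat hDbl Lam
  obtain ⟨CB, hCB0, hB⟩ := hB2 A S.R.D 1
  obtain ⟨-, hfin, -, hsc⟩ := hSize G A S
  have hV := (hLie1 G A S.N S.R S.toSetup.normal).1
  obtain ⟨Cu, hCu0, hCu⟩ := In.exists_unif (Y := S.B0) (TE_finite (hfin j1).1 i) (by
    rw [S.B0_span]; exact TE_sub _ hV.br (S.Y_sub j1) i)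
  obtain ⟨m, hm⟩ := exists_nat_ge (2 * C2 * (1 + CB) + 2)
  obtain ⟨Cb, hCb⟩ := exists_nat_ge (Cu * La)
  have hm2 : 2 ≤ m := by
    have : (2 : ℝ) ≤ m := le_trans (by nlinarith [mul_nonneg hC2 hCB0]) hm
    exact_mod_cast this
  have hmp : (0 : ℝ) < m := by positivity
  have q0 : 0 ≤ C2 / m := by positivity
  have q1 : C2 / m + 1 / 2 + CB * (C2 / m) * (1 / 2) ≤ 1 := by
    have : C2 / m * (1 + CB) ≤ 1 / 2 := by
      rw [div_mul_eq_mul_div, div_le_iff₀ hmp]; linarith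
    nlinarith [mul_nonneg hCB0 q0]
  have q2 : C2 / m ≤ 1 := by nlinarith [mul_nonneg hCB0 q0]
  refine ⟨cL + j1, m * C1 + Cb, ?_⟩
  set C := m * C1 + Cb with hC
  suffices H : ∀ j ≥ 1, ∀ x ∈ S.toSetup.Γ j i, ∀ v, In (TE (S.Y j) i) La v →
      ∃ y ∈ S.toSetup.Γ (C * j) i, S.l y ≤ C * j ∧ In (TG (S.Y (C * j)) i) 1 (S.R.L y) ∧
      y⁻¹ * x ∈ S.toSetup.Γ (cL + j1) i ⊔ S.toSetup.Γ (C * j) (i + 1) ∧
      ∃ b, ∃ u ∈ S.UI U0 i, In S.B0 C b ∧
        In (TG (S.Y (C * j)) (i + 1)) 1 (v - S.R.L y - b - u) from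
    fun j hj x hx v hv => H j hj x hx v (hv.le hLa)
  intro j
  induction j using Nat.strong_induction_on with
  | _ j ih =>
  intro hj x hx v hv
  by_cases hjj : j < j1
  · refine ⟨1, Subgroup.one_mem _, by rw [S.len.one]; exact Nat.zero_le _,
      by rw [S.R.L_one]; exact In.zero' zero_le_one, ?_, v, 0, Submodule.zero_mem _, ?_, ?_⟩
    · rw [inv_one, one_mul]
      exact Subgroup.mem_sup_left (S.toSetup.Γ_mono (by omega) i hx)
    · refine (In.trans hCu0 hCu (hv.mono_set (TE_mono (S.Y_mono hjj.le) i))).le (hCb.trans ?_)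
      rw [hC]; push_cast
      have : (0 : ℝ) ≤ m * C1 := by positivity
      linarith
    · rw [S.R.L_one]; simpa using In.zero' zero_le_one
  · obtain ⟨y1, hy1, l1, g1, m1, v1, u, hu, t1, e1⟩ := hst j (by omega) x hx v hv
    obtain ⟨y2, hy2, l2, g2, m2, b, u', hu', hb, e2⟩ := ih (j / 2) (by omega) (by omega) 1
      (Subgroup.one_mem _) v1 t1
    have k1 : m * (C1 * j) ≤ C * j := by rw [← mul_assoc]; exact Nat.mul_le_mul_right _ (by omega)
    have k2 : 2 * (C * (j / 2)) ≤ C * j := by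
      rw [mul_left_comm]; exact Nat.mul_le_mul_left _ (by omega)
    have k3 : 2 * (C1 * j) ≤ C * j := (Nat.mul_le_mul_right _ hm2).trans k1
    have g1' := hsc _ _ m i (by omega) k1 _ _ g1
    have g2' := hsc _ _ 2 i (by omega) k2 _ _ g2
    have e1' := hsc _ _ m (i + 1) (by omega) k1 _ _ e1
    have e2' := hsc _ _ 2 (i + 1) (by omega) k2 _ _ e2
    have er := ((hB (S.Y (C * j)) (YU hLie1 S _)).2.1 (S.R.psi y1) (S.R.psi y2) i i _ _
      (S.R.uni _ (S.toSetup.Γ_le _ i hy1)) (S.R.uni _ (S.toSetup.Γ_le _ i hy2)) q2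
      (by norm_num) g1' g2').TG_anti (show i + 1 ≤ i + i + 1 by omega)
    rw [← map_mul] at er
    change In _ _ (S.R.L (y1 * y2) - S.R.L y1 - S.R.L y2) at er
    refine ⟨y1 * y2, Subgroup.mul_mem _ (S.toSetup.Γ_mono (by omega) i hy1)
      (S.toSetup.Γ_mono (by omega) i hy2), (S.len.mul _ _).trans (by omega), ?_, ?_, b, u + u',
      Submodule.add_mem _ hu hu', hb, ?_⟩
    · refine (((g1'.add' g2').add' (er.TG_anti (Nat.le_succ i))).le ?_).congr (by abel)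
      simpa using q1
    · rw [mul_inv_rev, mul_assoc]
      refine Subgroup.mul_mem _ ?_ (sup_le_sup (S.toSetup.Γ_mono (by omega) i)
        (S.toSetup.Γ_mono (by omega) (i + 1)) m1)
      rw [mul_one] at m2
      exact sup_le_sup_left (S.toSetup.Γ_mono (by omega) (i + 1)) _ m2
    · refine (((e1'.add' e2').sub er).le ?_).congr (by abel)
      simpa using q1

end ANd
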