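import Pool.Agent.P.MP_5e7d86_al.BRp

/-! The downward induction step for the length estimate. -/

set_option autoImplicit false
open Classical
open scoped commutatorElement

namespace ANd

namespace RI

variable {G : Type} [Group G] {A : Type} [Ring A] [Algebra ℝ A]

theorem L_inv (hE : S_ExpLog) {N : Subgroup G} (R : LData G A N) {g : G} (hg : g ∈ N) :
    R.L g⁻¹ = -R.L g := by
  have h := (hE A R.D).2.2.2.2.1 (R.psi g) (R.uni g hg) (-1)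
  unfold LData.L
  rw [map_inv]
  simpa using h

/-- The logarithm of a product of four factors. -/
theorem four (hE : S_ExpLog) (hG : S_GR) {N : Subgroup G} (R : LData G A N) (A0 : ℝ) :
    ∃ C : ℝ, 0 ≤ C ∧ ∀ (Y : Set A), Y ⊆ R.D.U → ∀ (i : ℕ) (f y2 y x : G) (a1 a2 a3 a4 : ℝ),
      f ∈ N → y2 ∈ N → y ∈ N → x ∈ N → In (TG Y i) a1 (R.L f) → In (TG Y i) a2 (R.L y2) →
      In (TG Y i) a3 (R.L y) → In (TG Y i) a4 (R.L x) → a1 + a2 + a3 + a4 ≤ A0 →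
      In (TG Y (i + 1)) C
        (R.L (f⁻¹ * (y2⁻¹ * (y⁻¹ * x))) - (-R.L f - R.L y2 - R.L y + R.L x)) := by
  obtain ⟨C, hC, h⟩ := hG A R.D A0
  refine ⟨C, hC, fun Y hY i f y2 y x a1 a2 a3 a4 hf hy2 hy hx h1 h2 h3 h4 hs => ?_⟩
  have e1 := L_inv hE R hf
  have e2 := L_inv hE R hy2
  have e3 := L_inv hE R hy
  have key := h Y hY i [(a1, R.psi f⁻¹), (a2, R.psi y2⁻¹), (a3, R.psi y⁻¹), (a4, R.psi x)] ?_ ?_
  · refine key.congr ?_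
    simp only [List.map_cons, List.map_nil, List.prod_cons, List.prod_nil, List.sum_cons,
      List.sum_nil, mul_one, add_zero]
    have e4 : R.D.LL (R.psi f⁻¹ * (R.psi y2⁻¹ * (R.psi y⁻¹ * R.psi x))) =
        R.L (f⁻¹ * (y2⁻¹ * (y⁻¹ * x))) := by
      unfold LData.L
      rw [map_mul, map_mul, map_mul]
    rw [e4]
    change _ - (R.L f⁻¹ + (R.L y2⁻¹ + (R.L y⁻¹ + R.L x))) = _
    rw [e1, e2, e3]
    abel
  · intro p hp
    simp only [List.mem_cons, List.not_mem_nil, or_false] at hp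
    rcases hp with rfl | rfl | rfl | rfl
    · exact ⟨R.uni _ (N.inv_mem hf), by
        change In _ a1 (R.L f⁻¹); rw [e1]; exact h1.neg⟩
    · exact ⟨R.uni _ (N.inv_mem hy2), by
        change In _ a2 (R.L y2⁻¹); rw [e2]; exact h2.neg⟩
    · exact ⟨R.uni _ (N.inv_mem hy), by
        change In _ a3 (R.L y⁻¹); rw [e3]; exact h3.neg⟩
    · exact ⟨R.uni _ hx, h4⟩
  · simp only [List.map_cons, List.map_nil, List.sum_cons, List.sum_nil]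
    linarith

theorem mem_VG {N : Subgroup G} (R : LData G A N) {Y : Set A} (hY : Y ⊆ R.V) {i : ℕ} {a : ℝ}
    {v : A} (h : In (TG Y i) a v) : v ∈ R.VG i :=
  (h.TG_mono hY).mem_span

theorem exists_pow (t : ℝ) : ∃ n : ℕ, t ≤ 2 ^ n := by
  obtain ⟨n, hn⟩ := pow_unbounded_of_one_lt t (show (1 : ℝ) < 2 by norm_num)
  exact ⟨n, hn.le⟩

end RI

theorem pRI (hSize : S_Size) (hFin : S_Fin) (hLie1 : S_Lie1) (hLie3 : S_Lie3) (hGR : S_GR)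
    (hBr : S_Br) (hAuer : S_Auer) (hLCS : S_LCS) (hE : S_ExpLog) : S_RI := by
  intro G _ A _ _ S U0 i _ hP hK hR Lam
  have hN := S.toSetup.normal
  obtain ⟨hsub, -, -, -⟩ := hLie1 G A S.N S.R hN
  obtain ⟨-, h32, h33, h34, -, -⟩ := hLie3 G A S.N S.R hN
  obtain ⟨⟨Cs, hCs⟩, -, ⟨k0, hk0⟩, -⟩ := hSize G A S
  obtain ⟨c1, C1, hP⟩ := hP Lam
  obtain ⟨c3, C3, hK⟩ := hK
  have hYU : ∀ k, S.Y k ⊆ S.R.D.U := fun k v hv => hsub.le (S.Y_sub k hv)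
  have hB0V : S.B0 ⊆ S.R.V := by
    rw [← S.B0_span]; exact Submodule.subset_span
  have hB0U : S.B0 ⊆ S.R.D.U := fun v hv => hsub.le (hB0V hv)
  obtain ⟨n0, hn0⟩ := RI.exists_pow (Lam + 2 + C1)
  set C2 : ℕ := n0 + Cs * (C1 + 1) + 1 with hC2
  obtain ⟨Ph, X', hX'f, hX'N, hPh, hF⟩ := hFin G A S.N S.R hN (S.toSetup.B (c1 + c3))
    (S.toSetup.B_finite _) (fun g hg => hg.1) i S.B0 ((C1 : ℝ) + C3) S.B0_finite
  obtain ⟨c4, hc4⟩ := S.toSetup.exists_B hX'f hX'N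
  have hPhΓ : ∀ f ∈ Ph, f ∈ S.toSetup.Γ (c1 + c3) i := hPh
  have hfin : (S.R.L '' (Ph : Set G)).Finite := Ph.finite_toSet.image _
  obtain ⟨Cf, hCf0, hCf⟩ := In.exists_unif (Y := TG S.B0 i) hfin (by
    rintro _ ⟨f, hf, rfl⟩
    rw [(h32 S.B0 S.B0_span i).2]
    exact h33 i f (S.toSetup.Γ_le_lcs _ i (hPhΓ f hf)))
  obtain ⟨Cg, hCg0, hCg⟩ := In.exists_unif (Y := S.B0) hfin (by
    rintro _ ⟨f, hf, rfl⟩
    rw [S.B0_span]
    exact S.R.L_mem_V (S.toSetup.Γ_le _ i (hPhΓ f hf)))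
  obtain ⟨CG, hCG0, hfour⟩ := RI.four hE hGR S.R (Cf + C3 + 1 + Lam)
  have hB1 : (TG S.B0 (i + 1)).Finite :=
    (hBr A S.R.D S.B0 hB0U).2.2.2.2.2.2 S.B0_finite (i + 1)
  obtain ⟨CA, hCA0, hCA⟩ := (hAuer A).2 S.B0 (TG S.B0 (i + 1)) S.B0_finite hB1
  obtain ⟨C4, hC4⟩ := hR (CA * ((C1 : ℝ) + C3 + Cg) + (1 + C3 + Lam + CG))
  set K0 : ℕ := c1 + c3 + c4 + k0 + C1 + 1 + C3 * C2 with hK0
  refine ⟨C1 + C3 * C2 + Ph.sup S.l + C4 * K0, fun k hk x hx hLx => ?_⟩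
  have hLam : 0 ≤ Lam := hLx.nonneg
  obtain ⟨v, hv, he1⟩ := (hBr A S.R.D (S.Y k) (hYU k)).2.2.2.1 i Lam _ hLx
  obtain ⟨y, hyΓ, hyl, hLy, hyx, b, u, hu, hb, he2⟩ := hP k hk x hx v hv
  -- scales
  have hmul : ∀ n : ℕ, n ≤ n * k := fun n => Nat.le_mul_of_pos_right n hk
  have hK0k : K0 * k = (c1 + c3) * k + c4 * k + k0 * k + C1 * k + k + C3 * (C2 * k) := by
    rw [hK0]; ring
  have s1 : c1 + c3 ≤ K0 * k := by have := hmul (c1 + c3); omega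
  have s2 : c4 ≤ K0 * k := by have := hmul c4; omega
  have s3 : k0 ≤ K0 * k := by have := hmul k0; omega
  have s4 : C1 * k ≤ K0 * k := by omega
  have s5 : k ≤ K0 * k := by omega
  have s6 : C3 * (C2 * k) ≤ K0 * k := by omega
  -- the size of u
  have hK1 : (C1 + 1) * k = C1 * k + k := by ring
  have t1 : k ≤ (C1 + 1) * k := by omega
  have t2 : C1 * k ≤ (C1 + 1) * k := by omega
  have hu1 : In (TG (S.Y ((C1 + 1) * k)) 0) (Lam + 1 + 1)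
      (v - S.R.L y - (v - S.R.L y - b - u)) :=
    (((hv.TE_TG.TG_anti (Nat.zero_le _)).TG_mono (S.Y_mono t1)).sub
      ((hLy.TG_anti (Nat.zero_le _)).TG_mono (S.Y_mono t2))).sub
      ((he2.TG_anti (Nat.zero_le _)).TG_mono (S.Y_mono t2))
  have hu2 := (hCs _ (hk.trans t1) _ _ hu1).sub hb
  have hu3 : In S.B0 (2 ^ (C2 * k)) u := by
    refine (hu2.le ?_).congr (by abel)
    have p1 : (1 : ℝ) ≤ 2 ^ (Cs * ((C1 + 1) * k)) := one_le_pow₀ (by norm_num)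
    have p2 : (0 : ℝ) ≤ C1 := Nat.cast_nonneg _
    have p3 : n0 + Cs * ((C1 + 1) * k) ≤ C2 * k := by
      have := hmul n0
      have e : C2 * k = n0 * k + Cs * ((C1 + 1) * k) + k := by rw [hC2]; ring
      omega
    calc (Lam + 1 + 1) * 2 ^ (Cs * ((C1 + 1) * k)) + (C1 : ℝ)
        ≤ (Lam + 2 + C1) * 2 ^ (Cs * ((C1 + 1) * k)) := by nlinarith
      _ ≤ 2 ^ n0 * 2 ^ (Cs * ((C1 + 1) * k)) := by gcongr
      _ = 2 ^ (n0 + Cs * ((C1 + 1) * k)) := by rw [pow_add]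
      _ ≤ 2 ^ (C2 * k) := pow_le_pow_right₀ (by norm_num) p3
  have hk2 : 1 ≤ C2 * k := by
    have e : C2 * k = n0 * k + Cs * ((C1 + 1) * k) + k := by rw [hC2]; ring
    omega
  obtain ⟨y2, hy2l, hy2Γ, hLy2, b2, hb2, he3⟩ := hK (C2 * k) hk2 u hu hu3
  -- membership
  have hsup : ∀ {c m : ℕ}, c ≤ c1 + c3 → m ≤ K0 * k →
      S.toSetup.Γ c i ⊔ S.toSetup.Γ m (i + 1) ≤
        S.toSetup.Γ (c1 + c3) i ⊔ S.toSetup.Γ (K0 * k) (i + 1) := fun h1 h2 =>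
    sup_le_sup (S.toSetup.Γ_mono h1 i) (S.toSetup.Γ_mono h2 (i + 1))
  have hsupN : S.toSetup.Γ (c1 + c3) i ⊔ S.toSetup.Γ (K0 * k) (i + 1) ≤ S.N :=
    sup_le (S.toSetup.Γ_le _ _) (S.toSetup.Γ_le _ _)
  have hy2' := hsup (Nat.le_add_left c3 c1) s6 hy2Γ
  have hz : y2⁻¹ * (y⁻¹ * x) ∈ S.toSetup.Γ (c1 + c3) i ⊔ S.toSetup.Γ (K0 * k) (i + 1) :=
    Subgroup.mul_mem _ (Subgroup.inv_mem _ hy2') (hsup (Nat.le_add_right c1 c3) s4 hyx)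
  obtain ⟨a, ha, haz⟩ := (hLCS G (S.toSetup.E (K0 * k))).2.2.2.2.2.2
    (S.toSetup.Γ (c1 + c3) i) (i + 1)
    ((S.toSetup.Γ_le_E _ _).trans (S.toSetup.E_mono s1)) _ hz
  have haz' : a⁻¹ * (y2⁻¹ * (y⁻¹ * x)) ∈ S.toSetup.Γ (K0 * k) (i + 1) := haz
  have hxN : x ∈ S.N := S.toSetup.Γ_le _ _ hx
  have hyN : y ∈ S.N := S.toSetup.Γ_le _ _ hyΓ
  have hy2N : y2 ∈ S.N := hsupN hy2'
  -- the logarithm of the corrected element
  have hlog : ∀ f ∈ S.N, In (TG (S.Y (K0 * k)) i) Cf (S.R.L f) →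
      In (TG (S.Y (K0 * k)) (i + 1)) (1 + C3 + Lam + CG)
        (S.R.L (f⁻¹ * (y2⁻¹ * (y⁻¹ * x))) - (b - b2 - S.R.L f)) := by
    intro f hf hLf
    have q := hfour (S.Y (K0 * k)) (hYU _) i f y2 y x Cf C3 1 Lam hf hy2N hyN hxN hLf
      (hLy2.TG_mono (S.Y_mono s6)) (hLy.TG_mono (S.Y_mono s4)) (hLx.TG_mono (S.Y_mono s5)) le_rfl
    refine ((((he2.TG_mono (S.Y_mono s4)).sub (he3.TG_mono (S.Y_mono s6))).add'
      (he1.TG_mono (S.Y_mono s5))).add' q).congr ?_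
    abel
  have hz1 := hlog 1 S.N.one_mem (by rw [S.R.L_one]; exact In.zero' hCf0)
  rw [inv_one, one_mul, S.R.L_one, sub_zero] at hz1
  have hz2 := RI.mem_VG S.R (S.Y_sub _) hz1
  have hw1 : a⁻¹ * (y2⁻¹ * (y⁻¹ * x)) ∈ S.N.lowerCentralSeries (i + 1) :=
    S.toSetup.Γ_le_lcs _ _ haz'
  have hw2 := h33 (i + 1) _ hw1
  have hw3 := h34 i a (S.toSetup.Γ_le_lcs _ _ ha) _
    (S.N.lowerCentralSeries_antitone (Nat.le_succ i) hw1)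
  rw [mul_inv_cancel_left] at hw3
  have hLa : S.R.L a - (b - b2) ∈ S.R.VG (i + 1) := by
    have := Submodule.sub_mem _ (Submodule.sub_mem _ hz2 hw3) hw2
    convert this using 1
    abel
  obtain ⟨f, hf, hfa⟩ := hF a ha ⟨b - b2, hb.sub hb2, hLa⟩
  have hfN : f ∈ S.N := S.toSetup.Γ_le _ _ (hPhΓ f hf)
  have hfa' : f⁻¹ * a ∈ S.toSetup.Γ (K0 * k) (i + 1) :=
    S.toSetup.Γ_mono s2 (i + 1) (lcs_mono (Subgroup.closure_mono hc4) (i + 1) hfa)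
  have hz' : f⁻¹ * (y2⁻¹ * (y⁻¹ * x)) ∈ S.toSetup.Γ (K0 * k) (i + 1) := by
    have := Subgroup.mul_mem _ hfa' haz'
    rwa [mul_assoc, mul_inv_cancel_left] at this
  have hBY : S.B0 ⊆ S.Y (K0 * k) := hk0.trans (S.Y_mono s3)
  have hz3 := hlog f hfN ((hCf _ ⟨f, hf, rfl⟩).TG_mono hBY)
  have ht1 : b - b2 - S.R.L f ∈ Submodule.span ℝ (TG S.B0 (i + 1)) := by
    rw [(h32 S.B0 S.B0_span (i + 1)).2]
    have := Submodule.sub_mem _ (h33 (i + 1) _ (S.toSetup.Γ_le_lcs _ _ hz'))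
      (RI.mem_VG S.R (S.Y_sub _) hz3)
    convert this using 1
    abel
  have ht2 := (hCA _ _ ht1 ((hb.sub hb2).sub (hCg _ ⟨f, hf, rfl⟩))).TG_mono hBY
  have hz4 := hC4 (K0 * k) (hk.trans s5) _ hz' ((ht2.add' hz3).congr (by abel))
  have hfl : S.l f ≤ Ph.sup S.l * k := (Finset.le_sup (f := S.l) hf).trans (hmul _)
  have ex : x = y * (y2 * (f * (f⁻¹ * (y2⁻¹ * (y⁻¹ * x))))) := by group
  have l1 := S.len.mul y (y2 * (f * (f⁻¹ * (y2⁻¹ * (y⁻¹ * x)))))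
  have l2 := S.len.mul y2 (f * (f⁻¹ * (y2⁻¹ * (y⁻¹ * x))))
  have l3 := S.len.mul f (f⁻¹ * (y2⁻¹ * (y⁻¹ * x)))
  rw [← ex] at l1
  have e5 : (C1 + C3 * C2 + Ph.sup S.l + C4 * K0) * k =
      C1 * k + C3 * (C2 * k) + Ph.sup S.l * k + C4 * (K0 * k) := by ring
  omega

end ANd
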