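import Pool.Agent.P.MP_5e7d86_al.BRp

/-! Package Rat: a basis of logarithms on which `Ad g` has a rational matrix. -/

set_option autoImplicit false
open Classical
open scoped commutatorElement

namespace ANd

namespace Rat

variable {A : Type} [Ring A] [Algebra ℝ A]

theorem Ad_nest (u : Aˣ) : ∀ (i : ℕ) (v : Fin (i + 1) → A),
    Ad u (nest i v) = nest i (fun a => Ad u (v a))
  | 0, _ => rfl
  | i + 1, v => by
    rw [nest_succ, nest_succ, Ad_br, Ad_nest u i]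

theorem Ad_span_TG (u : Aˣ) (V : Submodule ℝ A) (h : Nrm u V) (i : ℕ) {y : A}
    (hy : y ∈ Submodule.span ℝ (TG (V : Set A) i)) :
    Ad u y ∈ Submodule.span ℝ (TG (V : Set A) i) := by
  induction hy using Submodule.span_induction with
  | mem x hx =>
    obtain ⟨j, hj, v, hv, rfl⟩ := hx
    refine Submodule.subset_span ⟨j, hj, fun a => Ad u (v a), fun a => (h _ (hv a)).1, ?_⟩
    exact Ad_nest u j v
  | zero => rw [Ad_zero]; exact Submodule.zero_mem _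
  | add a b _ _ ha hb => rw [Ad_add]; exact Submodule.add_mem _ ha hb
  | smul t a _ ha => rw [Ad_smul]; exact Submodule.smul_mem _ _ ha

theorem exists_phi : ∃ phi : ℝ →ₗ[ℚ] ℚ, phi 1 = 1 := by
  obtain ⟨g, hg⟩ := LinearMap.exists_leftInverse_of_injective (Algebra.linearMap ℚ ℝ)
    (LinearMap.ker_eq_bot.2 (algebraMap ℚ ℝ).injective)
  refine ⟨g, ?_⟩
  have h := LinearMap.congr_fun hg 1
  simpa using h

theorem rat_coeff {AQ : Subring A} (hR : RAT AQ) {m : ℕ} (w : Fin m → A) (hw : ∀ i, w i ∈ AQ)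
    {x : A} (hx : x ∈ AQ) (hs : x ∈ Submodule.span ℝ (Set.range w)) :
    ∃ q : Fin m → ℚ, x = ∑ i, (q i : ℝ) • w i := by
  obtain ⟨b, hb⟩ := (Submodule.mem_span_range_iff_exists_fun ℝ).1 hs
  obtain ⟨phi, hphi⟩ := exists_phi
  have h := hR phi (m + 1) (Fin.cons (-1) b) (Fin.cons x w)
    (fun i => Fin.cases (by simpa using hx) (fun j => by simpa using hw j) i)
    (by rw [Fin.sum_univ_succ]; simp [hb])
  rw [Fin.sum_univ_succ] at h
  simp only [Fin.cons_zero, Fin.cons_succ, map_neg, hphi] at h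
  refine ⟨fun i => phi (b i), ?_⟩
  have h2 : (((-1 : ℚ) : ℚ) : ℝ) • x = -x := by simp
  rw [h2] at h
  exact (neg_add_eq_zero.1 h)

theorem common_den {ι : Type} [Fintype ι] (q : ι → ℚ) :
    ∃ (M : ℕ) (B : ι → ℤ), M ≠ 0 ∧ ∀ i, (M : ℚ) * q i = B i := by
  refine ⟨∏ i, (q i).den, fun i => (∏ j ∈ Finset.univ.erase i, ((q j).den : ℤ)) * (q i).num,
    Finset.prod_ne_zero_iff.2 fun i _ => (q i).den_nz, fun i => ?_⟩
  rw [← Finset.prod_erase_mul _ _ (Finset.mem_univ i)]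
  push_cast
  rw [mul_assoc, mul_comm ((q i).den : ℚ), Rat.mul_den_eq_num]

variable {G : Type} [Group G] {N : Subgroup G}

theorem L_list (R : LData G A N) (W : Submodule ℝ A)
    (h : ∀ x ∈ N, ∀ y ∈ N, R.L (x * y) - R.L x - R.L y ∈ W) :
    ∀ l : List G, (∀ x ∈ l, x ∈ N) → R.L l.prod - (l.map R.L).sum ∈ W
  | [], _ => by simp [R.L_one]
  | x :: l, hl => by
    have h1 := L_list R W h l (fun y hy => hl y (List.mem_cons_of_mem _ hy))
    have h2 := h x (hl x List.mem_cons_self) l.prod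
      (N.list_prod_mem fun y hy => hl y (List.mem_cons_of_mem _ hy))
    have h3 := W.add_mem h1 h2
    rw [List.prod_cons, List.map_cons, List.sum_cons]
    convert h3 using 1
    abel

theorem L_zpow (hE : S_ExpLog) (R : LData G A N) {x : G} (hx : x ∈ N) (z : ℤ) :
    R.L (x ^ z) = (z : ℝ) • R.L x := by
  unfold LData.L
  rw [map_zpow]
  exact (hE A R.D).2.2.2.2.1 _ (R.uni x hx) z

theorem L_conj (hE : S_ExpLog) (R : LData G A N) (g x : G) :
    R.L (g * x * g⁻¹) = Ad (R.psi g) (R.L x) := by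
  unfold LData.L
  rw [map_mul, map_mul, map_inv]
  exact (hE A R.D).2.2.2.2.2.1 _ _

theorem sp_mem {d : ℕ} {t : Fin d → G} (ht : ∀ a, t a ∈ N) (q : Fin d → ℤ) : sp t q ∈ N := by
  unfold sp
  refine N.list_prod_mem fun x hx => ?_
  obtain ⟨a, rfl⟩ := List.mem_ofFn.1 hx
  exact N.zpow_mem (ht a) _

theorem L_sp (hE : S_ExpLog) (R : LData G A N) (W : Submodule ℝ A)
    (h : ∀ x ∈ N, ∀ y ∈ N, R.L (x * y) - R.L x - R.L y ∈ W) {d : ℕ} {t : Fin d → G}
    (ht : ∀ a, t a ∈ N) (q : Fin d → ℤ) :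
    R.L (sp t q) - ∑ a, (q a : ℝ) • R.L (t a) ∈ W := by
  have h1 := L_list R W h (List.ofFn fun a => t a ^ q a) (fun x hx => by
    obtain ⟨a, rfl⟩ := List.mem_ofFn.1 hx
    exact N.zpow_mem (ht a) _)
  rw [List.map_ofFn, List.sum_ofFn] at h1
  have h2 : ∑ a, (R.L ∘ fun a => t a ^ q a) a = ∑ a, (q a : ℝ) • R.L (t a) :=
    Finset.sum_congr rfl fun a _ => L_zpow hE R (ht a) (q a)
  rw [h2] at h1
  exact h1

end Rat

open _root_.ANd.Rat in
theorem pRat (h1 : S_Lie1) (h3 : S_Lie3) (hE : S_ExpLog) : S_Rat := by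
  intro G _ A _ _ S g
  have hN : S.N.Normal := S.toSetup.normal
  obtain ⟨_, hnrm, hAQ, _⟩ := h1 G A S.N S.R hN
  have hadd : ∀ x ∈ S.N, ∀ y ∈ S.N, S.R.L (x * y) - S.R.L x - S.R.L y ∈ S.R.VG 1 :=
    fun x hx y hy => (h3 G A S.N S.R hN).2.2.2.1 0 x hx y hy
  obtain ⟨κ, a, ha, hsp, hli⟩ := exists_linearIndependent' ℝ (fun j => S.R.L (S.e j))
  have : Finite κ := Finite.of_injective a ha
  obtain ⟨rho, ⟨eq⟩⟩ := Finite.exists_equiv_fin κ
  let nn : Fin rho → G := fun s => S.e (a (eq.symm s))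
  have hnn : ∀ s, nn s ∈ S.N := fun s => S.eN _
  have hli' : LinearIndependent ℝ (fun s => S.R.L (nn s)) :=
    hli.comp eq.symm eq.symm.injective
  have hsp' : Submodule.span ℝ (Set.range fun s => S.R.L (nn s)) = S.R.V := by
    rw [← S.spn, ← hsp]
    congr 1
    exact eq.symm.surjective.range_comp ((fun j => S.R.L (S.e j)) ∘ a)
  have hq : ∀ s, ∃ q : Fin rho → ℚ,
      Ad (S.R.psi g) (S.R.L (nn s)) = ∑ i, (q i : ℝ) • S.R.L (nn i) := by
    intro s
    have hm : g * nn s * g⁻¹ ∈ S.N := hN.conj_mem _ (hnn s) g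
    rw [← L_conj hE]
    refine rat_coeff S.R.rat _ (fun i => hAQ _ (hnn i)) (hAQ _ hm) ?_
    rw [hsp']
    exact S.R.L_mem_V hm
  choose q hq using hq
  obtain ⟨M, B, hM, hB⟩ := common_den (fun p : Fin rho × Fin rho => q p.2 p.1)
  have hAd : ∀ s, Ad (S.R.psi g) ((M : ℝ) • S.R.L (nn s)) =
      ∑ s', (B (s', s) : ℝ) • S.R.L (nn s') := by
    intro s
    rw [Ad_smul, hq, Finset.smul_sum]
    refine Finset.sum_congr rfl fun i _ => ?_
    rw [smul_smul]
    congr 1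
    have := hB (i, s)
    exact_mod_cast this
  refine ⟨rho, nn, M, fun s' s => B (s', s), hM, hnn, hli', hsp', hAd,
    fun q => L_sp hE S.R _ hadd hnn q, fun s => ?_⟩
  have hy : sp nn (fun s' => B (s', s)) ∈ S.N := sp_mem hnn _
  have hc : g⁻¹ * (sp nn fun s' => B (s', s))⁻¹ * g⁻¹⁻¹ ∈ S.N :=
    hN.conj_mem _ (S.N.inv_mem hy) g⁻¹
  have e1 : nn s ^ M * g⁻¹ * (sp nn fun s' => B (s', s))⁻¹ * g =
      nn s ^ M * (g⁻¹ * (sp nn fun s' => B (s', s))⁻¹ * g⁻¹⁻¹) := by group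
  have h4 := hadd _ (S.N.pow_mem (hnn s) M) _ hc
  have h5 : S.R.L (nn s ^ M) = (M : ℝ) • S.R.L (nn s) := by
    have := L_zpow hE S.R (hnn s) (M : ℤ)
    rw [zpow_natCast] at this
    rw [this]; simp
  have h6 : S.R.L (sp nn fun s' => B (s', s))⁻¹ = -S.R.L (sp nn fun s' => B (s', s)) := by
    have := L_zpow hE S.R hy (-1)
    rw [zpow_neg_one] at this
    rw [this]; simp
  have h7 := Ad_span_TG (S.R.psi g⁻¹) S.R.V (hnrm g⁻¹) 1
    (L_sp hE S.R _ hadd hnn (fun s' => B (s', s)))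
  rw [← hAd, Ad_sub, map_inv, Ad_inv_Ad] at h7
  rw [L_conj hE, h5, h6, Ad_neg, map_inv] at h4
  have h8 := Submodule.sub_mem _ h4 h7
  show S.R.L (nn s ^ M * g⁻¹ * (sp nn fun s' => B (s', s))⁻¹ * g) ∈ S.R.VG 1
  rw [e1]
  convert h8 using 1
  abel

end ANd
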