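import Pool.Agent.P.MP_5e7d86_al.BRp

/-! Linear recurrences for word functions in a linear group. -/

set_option autoImplicit false
open Classical
open scoped commutatorElement

namespace ANd

namespace Rec

theorem fg_range {R C E : Type} [CommRing R] [CommRing C] [Algebra R C] [Ring E] [Algebra R E]
    [Algebra.FiniteType R C] [Algebra.IsIntegral R E] (φ : C →ₐ[R] E) :
    (LinearMap.range φ.toLinearMap).FG := by
  have hi : Algebra.IsIntegral R (C ⧸ RingHom.ker φ) := ⟨fun x =>
    (isIntegral_algHom_iff (Ideal.kerLiftAlg φ) (Ideal.kerLiftAlg_injective φ)).1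
      (Algebra.IsIntegral.isIntegral _)⟩
  have hf : Module.Finite R (C ⧸ RingHom.ker φ) := Algebra.IsIntegral.finite
  have : LinearMap.range φ.toLinearMap = LinearMap.range (Ideal.kerLiftAlg φ).toLinearMap := by
    ext y
    constructor
    · rintro ⟨c, rfl⟩
      exact ⟨Ideal.Quotient.mk _ c, rfl⟩
    · rintro ⟨c, rfl⟩
      obtain ⟨c, rfl⟩ := Ideal.Quotient.mk_surjective c
      exact ⟨c, rfl⟩
  rw [this, LinearMap.range_eq_map]
  exact (Module.Finite.fg_top (R := R)).map _

/-- a representation of a finitely generated abelian group on a finite module spans a finite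
module of operators -/
theorem fin_span {R H W : Type} [CommRing R] [AddCommGroup H] [AddMonoid.FG H] [AddCommGroup W]
    [Module R W] [Module.Finite R W] (T : Multiplicative H →* Module.End R W) :
    ∃ B : Finset H, ∀ g : H,
      T (.ofAdd g) ∈ Submodule.span R ((fun u => T (.ofAdd u)) '' (B : Set H)) := by
  have h1 := fg_range (AddMonoidAlgebra.lift R (Module.End R W) H T)
  have h2 : LinearMap.range (AddMonoidAlgebra.lift R (Module.End R W) H T).toLinearMap =
      Submodule.span R (Set.range fun u : H => T (.ofAdd u)) := by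
    apply le_antisymm
    · rintro _ ⟨c, rfl⟩
      change AddMonoidAlgebra.lift R (Module.End R W) H T c ∈ _
      rw [AddMonoidAlgebra.lift_apply]
      exact Submodule.sum_mem _ fun a _ => Submodule.smul_mem _ _ (Submodule.subset_span ⟨a, rfl⟩)
    · rw [Submodule.span_le]
      rintro _ ⟨u, rfl⟩
      exact ⟨AddMonoidAlgebra.single u 1, by
        change AddMonoidAlgebra.lift R (Module.End R W) H T _ = _
        rw [AddMonoidAlgebra.lift_single, one_smul]⟩
  rw [h2, Submodule.fg_span_iff_fg_span_finset_subset] at h1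
  obtain ⟨s, hs, he⟩ := h1
  rw [← Set.image_univ, Finset.subset_set_image_iff] at hs
  obtain ⟨B, -, hB⟩ := hs
  refine ⟨B, fun g => ?_⟩
  rw [← Finset.coe_image, hB, ← he]
  exact Submodule.subset_span ⟨g, rfl⟩

variable {R H A : Type} [CommRing R] [AddCommGroup H] [Ring A] [Algebra R A]

variable (R) in
/-- translation -/
def sh (u : H) : (H → A) →ₗ[R] (H → A) where
  toFun w := fun g => w (g + u)
  map_add' _ _ := rfl
  map_smul' _ _ := rfl

theorem sh_mul (u : H) (w w' : H → A) : sh R u (w * w') = sh R u w * sh R u w' := rfl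

variable (R) in
/-- contained in a finitely generated translation invariant submodule -/
def Good (φ : H → A) : Prop :=
  ∃ W : Submodule R (H → A), W.FG ∧ φ ∈ W ∧ ∀ u, ∀ w ∈ W, sh R u w ∈ W

theorem Good.const (a : A) : Good R (fun _ : H => a) := by
  refine ⟨Submodule.span R {fun _ => a}, Submodule.fg_span_singleton _,
    Submodule.mem_span_singleton_self _, fun u w hw => ?_⟩
  obtain ⟨c, rfl⟩ := Submodule.mem_span_singleton.1 hw
  exact Submodule.mem_span_singleton.2 ⟨c, rfl⟩

theorem Good.mul {φ φ' : H → A} (h : Good R φ) (h' : Good R φ') : Good R (φ * φ') := by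
  obtain ⟨W, h1, h2, h3⟩ := h
  obtain ⟨W', h1', h2', h3'⟩ := h'
  refine ⟨W * W', h1.mul h1', Submodule.mul_mem_mul h2 h2', fun u w hw => ?_⟩
  refine Submodule.mul_induction_on hw (fun a ha b hb => ?_) fun a b ha hb => ?_
  · rw [sh_mul]; exact Submodule.mul_mem_mul (h3 u a ha) (h3' u b hb)
  · rw [map_add]; exact add_mem ha hb

theorem Good.sub {φ φ' : H → A} (h : Good R φ) (h' : Good R φ') : Good R (φ - φ') := by
  obtain ⟨W, h1, h2, h3⟩ := h
  obtain ⟨W', h1', h2', h3'⟩ := h'
  refine ⟨W ⊔ W', h1.sup h1', sub_mem (Submodule.mem_sup_left h2) (Submodule.mem_sup_right h2'),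
    fun u w hw => ?_⟩
  obtain ⟨a, ha, b, hb, rfl⟩ := Submodule.mem_sup.1 hw
  rw [map_add]
  exact Submodule.add_mem_sup (h3 u a ha) (h3' u b hb)

theorem Good.hom [Module.Finite R A] {φ : H → A}
    (hφ : ∀ g u, φ (g + u) = φ g * φ u) : Good R φ := by
  let L : A →ₗ[R] (H → A) :=
    { toFun := fun m g => φ g * m
      map_add' := fun m m' => funext fun g => mul_add _ _ _
      map_smul' := fun c m => funext fun g => mul_smul_comm _ _ _ }
  refine ⟨LinearMap.range L, ?_, ⟨1, funext fun g => mul_one _⟩, ?_⟩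
  · rw [LinearMap.range_eq_map]
    exact (Module.Finite.fg_top (R := R)).map _
  · rintro u _ ⟨m, rfl⟩
    refine ⟨φ u * m, funext fun g => ?_⟩
    change φ g * (φ u * m) = φ (g + u) * m
    rw [hφ, mul_assoc]

theorem key [AddMonoid.FG H] {W : Submodule R (H → A)} (h1 : W.FG)
    (h3 : ∀ u, ∀ w ∈ W, sh R u w ∈ W) : ∃ B : Finset H, ∀ P : Submodule R A, ∀ w ∈ W,
      (∀ g ∈ B, w g ∈ P) → ∀ g, w g ∈ P := by
  have : Module.Finite R W := Module.Finite.iff_fg.2 h1
  let T : Multiplicative H →* Module.End R W :=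
    { toFun := fun u => (sh R u.toAdd).restrict (h3 u.toAdd)
      map_one' := by
        ext w g
        exact congrArg w.1 (add_zero g)
      map_mul' := fun u v => by
        ext w g
        exact congrArg w.1 (add_assoc g _ _).symm }
  obtain ⟨B, hB⟩ := fin_span T
  refine ⟨B, fun P w hw hP g => ?_⟩
  have h4 : ∀ t ∈ Submodule.span R ((fun u => T (.ofAdd u)) '' (B : Set H)),
      (t ⟨w, hw⟩).1 0 ∈ P := by
    intro t ht
    induction ht using Submodule.span_induction with
    | mem t ht =>
      obtain ⟨u, hu, rfl⟩ := ht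
      change w (0 + u) ∈ P
      rw [zero_add]
      exact hP u hu
    | zero => exact P.zero_mem
    | add a b _ _ ha hb => exact P.add_mem ha hb
    | smul c a _ ha => exact P.smul_mem c ha
  have h5 := h4 _ (hB g)
  change w (0 + g) ∈ P at h5
  rwa [zero_add] at h5

theorem good_word {G : Type} [Group G] [Module.Finite R A] (psi : G →* A) {ι : Type}
    {f : (ι → ℤ) → G} (hf : f ∈ WordFun G ι) : Good R (fun g => psi (f g)) := by
  have hp : ∀ (x : G) (a : ι), Good R (fun g : ι → ℤ => psi (x ^ g a)) := fun x a =>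
    Good.hom fun g u => by rw [Pi.add_apply, zpow_add, map_mul]
  induction hf using Subgroup.closure_induction'' with
  | mem f hf =>
    rcases hf with ⟨x, rfl⟩ | ⟨x, a, rfl⟩
    · exact Good.const _
    · exact hp x a
  | inv_mem f hf =>
    rcases hf with ⟨x, rfl⟩ | ⟨x, a, rfl⟩
    · exact Good.const (psi x⁻¹)
    · simpa only [Pi.inv_apply, inv_zpow] using hp x⁻¹ a
  | one => exact Good.const (psi 1)
  | mul f f' _ _ h h' =>
    simp only [Pi.mul_apply, map_mul]
    exact h.mul h'

end Rec

open Rec in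
theorem pRec : S_Rec := by
  intro G _ n R _ psi ι _ f hf
  have : AddMonoid.FG (ι → ℤ) :=
    AddGroup.fg_iff_addMonoid_fg.1 (Module.Finite.iff_addGroup_fg.1 inferInstance)
  obtain ⟨W, h1, h2, h3⟩ := (good_word (R := R)
    ((Units.coeHom (Matrix (Fin n) (Fin n) R)).comp psi) hf).sub (Good.const 1)
  obtain ⟨B, hB⟩ := key h1 h3
  refine ⟨B, fun P x => ?_⟩
  have hw : (x.sum fun u z => z • sh R u ((fun g => ((Units.coeHom (Matrix (Fin n) (Fin n) R)).comp
      psi) (f g)) - fun _ => 1)) ∈ W :=
    Submodule.sum_mem _ fun u _ => zsmul_mem (h3 u _ h2) _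
  have := hB P _ hw
  simp only [Finsupp.sum, Finset.sum_apply] at this ⊢
  exact this

end ANd
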