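import Pool.Agent.P.MP_5e7d86_al.BRp

/-! A finite index subgroup whose eigenvalues lie in a torsion-free group. -/

set_option autoImplicit false
open Classical
open scoped commutatorElement

namespace ANd

namespace Selb

theorem jac : IsJacobsonRing ℤ := by
  refine isJacobsonRing_iff_prime_eq.2 fun P hP => ?_
  rcases eq_or_ne P ⊥ with rfl | h
  · refine le_antisymm (fun x hx => ?_) bot_le
    have k := Int.isUnit_iff.1 (Ideal.mem_jacobson_bot.1 hx x)
    have : x * x = 0 := by rcases k with k | k <;> nlinarith [mul_self_nonneg x]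
    exact mul_self_eq_zero.1 this
  · have := hP.isMaximal h
    exact Ideal.jacobson_eq_self_of_isMaximal

/-- a field that is finitely generated as a ring is finite -/
theorem fin_field (F : Type) [Field F] [Algebra.FiniteType ℤ F] :
    Finite F ∧ ∃ l : ℕ, l.Prime ∧ (l : F) = 0 := by
  have := jac
  have := finite_of_finite_type_of_isJacobsonRing ℤ F
  obtain ⟨l, hl⟩ := CharP.exists F
  rcases CharP.char_is_prime_or_zero F l with h | rfl
  · refine ⟨Module.finite_of_fg_torsion F fun x => ⟨⟨l, ?_⟩, ?_⟩, l, h, CharP.cast_eq_zero F l⟩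
    · exact mem_nonZeroDivisors_of_ne_zero (by exact_mod_cast h.ne_zero)
    · simp [Submonoid.smul_def]
  · have := CharP.charP_to_charZero F
    exact (Int.not_isField ((Algebra.IsIntegral.isField_iff_isField
      (algebraMap ℤ F).injective_int).2 (Field.toIsField F))).elim

variable {K : Type} [Field K]

/-- eigenvalues of a matrix with small entries are small -/
theorem eig_lt {ι : Type} [Fintype ι] (O : ValuationSubring K) {N : Matrix ι ι K}
    (hN : ∀ i j, O.valuation (N i j) < 1) {x : ι → K} (hx : x ≠ 0) {c : K}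
    (h : N.mulVec x = c • x) : O.valuation c < 1 := by
  obtain ⟨j, hj⟩ := Function.ne_iff.1 hx
  obtain ⟨i, -, hi⟩ := Finset.univ.exists_max_image (fun i => O.valuation (x i))
    ⟨j, Finset.mem_univ j⟩
  have h0 : 0 < O.valuation (x i) :=
    ((O.valuation.pos_iff).2 hj).trans_le (hi j (Finset.mem_univ j))
  have e : c * x i = ∑ k, N i k * x k := (congrFun h i).symm
  have k : O.valuation (c * x i) < O.valuation (x i) := by
    rw [e]
    refine O.valuation.map_sum_lt h0.ne' fun k _ => ?_
    rw [map_mul]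
    calc O.valuation (N i k) * O.valuation (x k) ≤ O.valuation (N i k) * O.valuation (x i) := by
          gcongr
          exact hi k (Finset.mem_univ k)
      _ < O.valuation (x i) := mul_lt_of_lt_one_left h0 (hN i k)
  rw [map_mul] at k
  exact (mul_lt_iff_lt_one_left h0).1 k

theorem val_nat (O : ValuationSubring K) (n : ℤ) : O.valuation (n : K) ≤ 1 :=
  (O.valuation_le_one_iff _).2 (intCast_mem O n)

theorem eq_of_lt (O : ValuationSubring K) {p q : ℕ} (hp : p.Prime) (hq : q.Prime)
    (h : O.valuation (p : K) < 1) (h' : O.valuation (q : K) < 1) : p = q := by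
  by_contra hn
  obtain ⟨a, b, e⟩ := Nat.isCoprime_iff_coprime.2 ((Nat.coprime_primes hp hq).2 hn)
  have e' : (a : K) * p + b * q = 1 := by exact_mod_cast congrArg (Int.cast : ℤ → K) e
  have k : O.valuation ((a : K) * p + b * q) < 1 := by
    refine O.valuation.map_add_lt ?_ ?_ <;> rw [map_mul]
    · exact mul_lt_one_of_nonneg_of_lt_one_right (val_nat O a) zero_le h
    · exact mul_lt_one_of_nonneg_of_lt_one_right (val_nat O b) zero_le h'
  rw [e', map_one] at k
  exact lt_irrefl _ k

/-- a principal unit of prime order `q` makes `q` small -/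
theorem lt_of_tors (O : ValuationSubring K) {u : Kˣ} (hu : u ∈ O.principalUnitGroup) {q : ℕ}
    (h : u ^ q = 1) (h1 : u ≠ 1) : O.valuation (q : K) < 1 := by
  have h2 : (u : K) - 1 ≠ 0 := sub_ne_zero.2 fun e => h1 (Units.ext e)
  have h3 : ∑ i ∈ Finset.range q, (u : K) ^ i = 0 := by
    refine (mul_eq_zero.1 ?_).resolve_right h2
    rw [geom_sum_mul, ← Units.val_pow_eq_pow_val, h, Units.val_one, sub_self]
  have e : (q : K) = -∑ i ∈ Finset.range q, (((u ^ i : Kˣ) : K) - 1) := by
    simp [Finset.sum_sub_distrib, h3]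
  rw [e, Valuation.map_neg]
  exact O.valuation.map_sum_lt one_ne_zero fun i _ => pow_mem hu i

theorem tors_free {La : Subgroup Kˣ}
    (h : ∀ u ∈ La, ∀ q : ℕ, q.Prime → u ^ q = 1 → u = 1) :
    ∀ u ∈ La, ∀ m : ℕ, m ≠ 0 → u ^ m = 1 → u = 1 := by
  intro u hu m
  induction m using induction_on_primes generalizing u with
  | zero => exact fun k => (k rfl).elim
  | one => exact fun _ k => by simpa using k
  | prime_mul p a hp ih =>
    intro k e
    exact h u hu p hp (ih _ (pow_mem hu p) (right_ne_zero_of_mul k) (by rwa [← pow_mul]))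

/-- the congruence subgroup of a maximal ideal -/
theorem core {Γ ι : Type} [Group Γ] [Group.FG Γ] [Fintype ι] [DecidableEq ι]
    (M : Γ →* Matrix ι ι K) (c : K) :
    ∃ (H : Subgroup Γ) (O : ValuationSubring K), H.FiniteIndex ∧ c ∈ O ∧
      (∃ l : ℕ, l.Prime ∧ O.valuation (l : K) < 1) ∧
      ∀ h ∈ H, ∀ i j, O.valuation ((M h - 1) i j) < 1 := by
  obtain ⟨S, hS⟩ := Monoid.fg_def.1 (Group.fg_iff_monoid_fg.1 ‹Group.FG Γ›)
  let E : Set K := insert c ((fun p : Γ × ι × ι => M p.1 p.2.1 p.2.2) '' ((S : Set Γ) ×ˢ Set.univ))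
  have hE : E.Finite := ((S.finite_toSet.prod Set.finite_univ).image _).insert c
  let R : Subring K := (Algebra.adjoin ℤ E).toSubring
  have hR : Algebra.FiniteType ℤ R :=
    (Subalgebra.fg_iff_finiteType _).1 (Subalgebra.fg_def.2 ⟨E, hE, rfl⟩)
  have hM : ∀ g i j, M g i j ∈ R := fun g => by
    have hg : g ∈ Submonoid.closure (S : Set Γ) := hS ▸ Submonoid.mem_top g
    induction hg using Submonoid.closure_induction with
    | mem x hx => exact fun i j => Algebra.subset_adjoin (Or.inr ⟨(x, i, j), ⟨hx, trivial⟩, rfl⟩)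
    | one =>
      intro i j
      rw [map_one, Matrix.one_apply]
      split_ifs
      exacts [R.one_mem, R.zero_mem]
    | mul x y _ _ hx hy =>
      intro i j
      rw [map_mul, Matrix.mul_apply]
      exact R.sum_mem fun k _ => R.mul_mem (hx i k) (hy k j)
  let M' : Γ →* Matrix ι ι R :=
    { toFun := fun g => Matrix.of fun i j => ⟨M g i j, hM g i j⟩
      map_one' := by
        ext i j
        by_cases e : i = j <;> simp [Matrix.one_apply, e]
      map_mul' := fun x y => by
        ext i j
        simp [Matrix.mul_apply] }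
  obtain ⟨m, hm⟩ := Ideal.exists_maximal R
  obtain ⟨O, h1, h2⟩ := m.image_subset_nonunits_valuationSubring hm.ne_top
  have h3 : ∀ x ∈ m, O.valuation (x : K) < 1 := fun x hx => O.mem_nonunits_iff.1 (h2 ⟨x, hx, rfl⟩)
  let _ := Ideal.Quotient.field m
  obtain ⟨h4, l, hl, h5⟩ := @fin_field (R ⧸ m) _
    (hR.of_surjective (Ideal.Quotient.mk m).toIntAlgHom Ideal.Quotient.mk_surjective)
  let φ : Γ →* (Matrix ι ι (R ⧸ m))ˣ :=
    ((Ideal.Quotient.mk m).mapMatrix.toMonoidHom.comp M').toHomUnits
  refine ⟨φ.ker, O, inferInstance, h1 (Algebra.subset_adjoin (Or.inl rfl)), ⟨l, hl, ?_⟩,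
    fun h hh i j => ?_⟩
  · refine h3 (l : R) (Ideal.Quotient.eq_zero_iff_mem.1 ?_)
    rwa [map_natCast]
  · have e : (Ideal.Quotient.mk m).mapMatrix (M' h - 1) = 0 := by
      rw [map_sub, map_one, sub_eq_zero]
      exact congrArg Units.val (MonoidHom.mem_ker.1 hh)
    have k := h3 _ (Ideal.Quotient.eq_zero_iff_mem.1 (congrFun (congrFun e i) j))
    convert k using 2
    by_cases e : i = j <;> simp [M', e]

end Selb

open Selb in
theorem pSelb : S_Selb := by
  intro K Γ W _ _ _ _ _ _ rho
  let b := Module.finBasis K W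
  let M : Γ →* Matrix _ _ K := (LinearMap.toMatrixAlgEquiv b).toMonoidHom.comp rho
  have key : ∀ (O : ValuationSubring K) (h : Γ), (∀ i j, O.valuation ((M h - 1) i j) < 1) →
      ∀ a : Kˣ, Module.End.HasEigenvalue (rho h) (a : K) → a ∈ O.principalUnitGroup := by
    intro O h hh a ha
    obtain ⟨v, hv⟩ := ha.exists_hasEigenvector
    refine eig_lt O hh (x := b.repr v) (fun e => hv.2 ?_) ?_
    · exact b.repr.map_eq_zero_iff.1 (DFunLike.coe_injective e)
    · have e : (M h).mulVec (b.repr v) = b.repr (rho h v) := LinearMap.toMatrix_mulVec_repr b b _ v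
      rw [Matrix.sub_mulVec, Matrix.one_mulVec, e, hv.apply_eq_smul, map_smul, sub_smul, one_smul]
      rfl
  obtain ⟨H, O, h1, -, ⟨l, hl, h2⟩, h3⟩ := core M (0 : K)
  rcases eq_or_ne (l : K) 0 with h0 | h0
  · refine ⟨H, O.principalUnitGroup, h1, tors_free fun u hu q hq e => ?_,
      fun h hh => key O h (h3 h hh)⟩
    by_contra hn
    obtain rfl := eq_of_lt O hq hl (lt_of_tors O hu e hn) h2
    have := Fact.mk hq
    have := (CharP.charP_iff_prime_eq_zero (R := K) hq).2 h0
    refine hn (Units.ext (sub_eq_zero.1 ((pow_eq_zero_iff hq.ne_zero).1 ?_)))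
    rw [sub_pow_char, ← Units.val_pow_eq_pow_val, e, Units.val_one, one_pow, sub_self]
  · obtain ⟨H', O', k1, k2, -, k3⟩ := core M (l : K)⁻¹
    refine ⟨H ⊓ H', O.principalUnitGroup ⊓ O'.principalUnitGroup, inferInstance,
      tors_free fun u hu q hq e => ?_,
      fun h hh a ha => ⟨key O h (h3 h hh.1) a ha, key O' h (k3 h hh.2) a ha⟩⟩
    by_contra hn
    obtain rfl := eq_of_lt O hq hl (lt_of_tors O hu.1 e hn) h2
    have k := mul_lt_one_of_nonneg_of_lt_one_right ((O'.valuation_le_one_iff _).2 k2) zero_le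
      (lt_of_tors O' hu.2 e hn)
    rw [← map_mul, inv_mul_cancel₀ h0, map_one] at k
    exact lt_irrefl _ k

end ANd
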