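import Pool.Agent.P.MP_5e7d86_al.BRp

/-! Exponential size of the logarithms of a ball. -/

set_option autoImplicit false
open Classical
open scoped commutatorElement

namespace ANd

namespace Size

section Alg
variable {A : Type} [Ring A] [Algebra ℝ A]

theorem exists_pow (C : ℝ) : ∃ n : ℕ, C ≤ 2 ^ n := by
  obtain ⟨n, hn⟩ := pow_unbounded_of_one_lt C (show (1 : ℝ) < 2 by norm_num)
  exact ⟨n, hn.le⟩

theorem two_le {a b : ℕ} (h : a ≤ b) : (2 : ℝ) ^ a ≤ 2 ^ b :=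
  pow_le_pow_right₀ (by norm_num) h

/-- The bracket is bounded for the gauge of a finite spanning set. -/
theorem br_bd (B0 : Set A) (hB : B0.Finite)
    (hV : ∀ x ∈ Submodule.span ℝ B0, ∀ y ∈ Submodule.span ℝ B0, br x y ∈ Submodule.span ℝ B0) :
    ∃ ka : ℕ, ∀ (a b : ℝ) (v w : A), In B0 a v → In B0 b w → In B0 (2 ^ ka * a * b) (br v w) := by
  have hfin : (Set.image2 br B0 B0).Finite := hB.image2 _ hB
  obtain ⟨C, -, hC⟩ := In.exists_unif (Y := B0) hfin (by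
    rintro _ ⟨x, hx, y, hy, rfl⟩
    exact hV x (Submodule.subset_span hx) y (Submodule.subset_span hy))
  obtain ⟨ka, hka⟩ := exists_pow C
  refine ⟨ka, fun a b v w hv hw => ?_⟩
  have h1 : ∀ y ∈ B0, In B0 (2 ^ ka * a) (brL v y) := fun y hy => by
    have := In.map (Y := B0) (Y' := B0) (c := 2 ^ ka) (brL.flip y) (by positivity)
      (fun x hx => (hC _ ⟨x, hx, y, hy, rfl⟩).le hka) hv
    exact this
  exact In.map (brL v) (mul_nonneg (by positivity) hv.nonneg) h1 hw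

theorem nest_bd {B0 : Set A} {ka : ℕ}
    (h : ∀ (a b : ℝ) (v w : A), In B0 a v → In B0 b w → In B0 (2 ^ ka * a * b) (br v w)) (sg : ℕ) :
    ∀ (i : ℕ) (v : Fin (i + 1) → A), (∀ u, In B0 (2 ^ sg) (v u)) →
      In B0 (2 ^ ((ka + sg) * (i + 1))) (nest i v)
  | 0, v, hv => (hv 0).le (two_le (by omega))
  | i + 1, v, hv => by
      have h1 := h _ _ _ _ (hv 0) (nest_bd h sg i (fun u => v u.succ) fun u => hv u.succ)
      rw [nest_succ]
      refine h1.le (le_of_eq ?_)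
      rw [← pow_add, ← pow_add]
      congr 1
      ring

theorem tg_bd (hBr : S_Br) (D : NilD A) {B0 : Set A} {ka : ℕ}
    (h : ∀ (a b : ℝ) (v w : A), In B0 a v → In B0 b w → In B0 (2 ^ ka * a * b) (br v w))
    (sg : ℕ) (Y : Set A) (hY : Y ⊆ D.U) (hs : ∀ y ∈ Y, In B0 (2 ^ sg) y) :
    ∀ w ∈ TG Y 0, In B0 (2 ^ ((ka + sg) * D.n)) w := by
  rintro w ⟨j, -, hw⟩
  by_cases hj : D.n ≤ j + 1
  · rw [(hBr A D Y hY).2.1 j hj w hw]
    exact In.zero' (by positivity)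
  · obtain ⟨v, hv, rfl⟩ := hw
    exact (nest_bd h sg j v fun u => hs _ (hv u)).le
      (two_le (Nat.mul_le_mul_left _ (by omega)))

/-- `Ad u` has norm at most `2 ^ e` for the gauge of `B0`. -/
def Bd (B0 : Set A) (u : Aˣ) (e : ℕ) : Prop :=
  ∀ (b : ℝ) (v : A), In B0 b v → In B0 (2 ^ e * b) (Ad u v)

theorem Bd.one (B0 : Set A) : Bd B0 1 0 := fun b v h => by simpa [Ad_one] using h

theorem Bd.mono {B0 : Set A} {u : Aˣ} {e e' : ℕ} (h : Bd B0 u e) (he : e ≤ e') : Bd B0 u e' :=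
  fun b v hv => (h b v hv).le (mul_le_mul_of_nonneg_right (two_le he) hv.nonneg)

theorem Bd.mul {B0 : Set A} {u u' : Aˣ} {e e' : ℕ} (h : Bd B0 u e) (h' : Bd B0 u' e') :
    Bd B0 (u * u') (e + e') := fun b v hv => by
  rw [Ad_mul, pow_add, mul_assoc]
  exact h _ _ (h' b v hv)

theorem Bd.pow {B0 : Set A} {u : Aˣ} {e : ℕ} (h : Bd B0 u e) : ∀ n : ℕ, Bd B0 (u ^ n) (e * n)
  | 0 => by simpa using Bd.one B0
  | n + 1 => by
      rw [pow_succ, Nat.mul_succ]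
      exact (Bd.pow h n).mul h

theorem Bd.zpow {B0 : Set A} {u : Aˣ} {e : ℕ} (h : Bd B0 u e) (h' : Bd B0 u⁻¹ e) (z : ℤ) :
    Bd B0 (u ^ z) (e * z.natAbs) := by
  rcases Int.natAbs_eq z with hz | hz
  · have := h.pow z.natAbs
    rwa [← zpow_natCast, ← hz] at this
  · have := h'.pow z.natAbs
    rwa [inv_pow, ← zpow_natCast, ← zpow_neg, ← hz] at this

theorem Bd.list {B0 : Set A} {e : ℕ} : ∀ L : List Aˣ, (∀ u ∈ L, Bd B0 u e) →
    Bd B0 L.prod (e * L.length)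
  | [], _ => by simpa using Bd.one B0
  | u :: L, h => by
      rw [List.prod_cons, List.length_cons, Nat.mul_succ, add_comm]
      exact (h u (by simp)).mul (Bd.list L fun w hw => h w (by simp [hw]))

theorem exists_Bd (B0 : Set A) (hB : B0.Finite) (u : Aˣ)
    (hu : ∀ y ∈ Submodule.span ℝ B0, Ad u y ∈ Submodule.span ℝ B0) : ∃ e, Bd B0 u e := by
  obtain ⟨C, -, hC⟩ := In.exists_unif (Y := B0) (hB.image (Ad u)) (by
    rintro _ ⟨x, hx, rfl⟩
    exact hu x (Submodule.subset_span hx))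
  obtain ⟨e, he⟩ := exists_pow C
  exact ⟨e, fun b v hv => In.map (Y := B0) (Y' := B0) (AdH u).toLinearMap (by positivity)
    (fun x hx => (hC _ ⟨x, hx, rfl⟩).le he) hv⟩

theorem exists_Bd_sp (B0 : Set A) (hB : B0.Finite) {d : ℕ} (t : Fin d → Aˣ)
    (ht : ∀ a, Nrm (t a) (Submodule.span ℝ B0)) :
    ∃ e : ℕ, ∀ (k : ℕ) (q : Fin d → ℤ), Sm k q → Bd B0 (sp t q) (e * k) := by
  choose e1 h1 using fun a => exists_Bd B0 hB (t a) fun y hy => (ht a y hy).1
  choose e2 h2 using fun a => exists_Bd B0 hB (t a)⁻¹ fun y hy => (ht a y hy).2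
  set e : ℕ := ∑ a, (e1 a + e2 a) with he
  have hle : ∀ a, e1 a + e2 a ≤ e := fun a =>
    Finset.single_le_sum (f := fun a => e1 a + e2 a) (fun _ _ => Nat.zero_le _) (Finset.mem_univ a)
  refine ⟨e * d, fun k q hq => ?_⟩
  have := Bd.list (B0 := B0) (e := e * k) (List.ofFn fun a => t a ^ q a) (by
    intro u hu
    obtain ⟨a, rfl⟩ := (List.mem_ofFn' _ _).1 hu
    have hk : (q a).natAbs ≤ k := by
      have := hq a
      rw [← Int.natCast_natAbs] at this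
      exact_mod_cast this
    exact (((h1 a).mono (by have := hle a; omega)).zpow ((h2 a).mono (by have := hle a; omega))
      (q a)).mono (Nat.mul_le_mul_left e hk))
  rw [List.length_ofFn] at this
  exact this.mono (le_of_eq (by ring))

/-- The logarithm of a product of elements of size `2 ^ e`. -/
theorem prod_bd (hBr : S_Br) (hGR : S_GR) (D : NilD A) {B0 : Set A} (hU : B0 ⊆ D.U) {ka : ℕ}
    (h : ∀ (a b : ℝ) (v w : A), In B0 a v → In B0 b w → In B0 (2 ^ ka * a * b) (br v w)) :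
    ∃ ga : ℕ, ∀ (e f : ℕ) (L : List Aˣ), (L.length : ℝ) ≤ 2 ^ f →
      (∀ u ∈ L, D.Uni u ∧ In B0 (2 ^ e) (D.LL u)) →
      In B0 (2 ^ ((ka + (e + f)) * D.n + ga + (e + f) + 1)) (D.LL L.prod) := by
  obtain ⟨C, hC0, hC⟩ := hGR A D 1
  obtain ⟨ga, hga⟩ := exists_pow C
  refine ⟨ga, fun e f L hL hu => ?_⟩
  set s : ℝ := 2 ^ (e + f) with hs
  have hs0 : 0 < s := by positivity
  set Y : Set A := (fun b => s • b) '' B0 with hY
  have hYU : Y ⊆ D.U := by
    rintro _ ⟨b, hb, rfl⟩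
    exact D.U.smul_mem _ (hU hb)
  have h1 : ∀ y ∈ Y, In B0 (2 ^ (e + f)) y := by
    rintro _ ⟨b, hb, rfl⟩
    simpa [abs_of_pos hs0] using (In.mem b hb).smul' s
  have h2 : ∀ b ∈ B0, In (TG Y 0) s⁻¹ b := fun b hb => by
    have := (In.mem (s • b) (sub_TG Y ⟨b, hb, rfl⟩)).smul' s⁻¹
    rwa [smul_smul, inv_mul_cancel₀ hs0.ne', one_smul, abs_of_pos (inv_pos.2 hs0), mul_one] at this
  have h3 := hC Y hYU 0 (L.map fun u => (s⁻¹ * 2 ^ e, u)) (by
    intro p hp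
    obtain ⟨u, hu', rfl⟩ := List.mem_map.1 hp
    exact ⟨(hu u hu').1, In.trans (inv_pos.2 hs0).le h2 (hu u hu').2⟩) (by
    rw [List.map_map]
    have : (List.map (Prod.fst ∘ fun u : Aˣ => (s⁻¹ * 2 ^ e, u)) L).sum =
        L.length * (s⁻¹ * 2 ^ e) := by
      simp [Function.comp_def]
    rw [this]
    calc (L.length : ℝ) * (s⁻¹ * 2 ^ e) ≤ 2 ^ f * (s⁻¹ * 2 ^ e) := by gcongr
      _ = 1 := by rw [hs, pow_add]; field_simp)
  rw [List.map_map, List.map_map] at h3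
  have e1 : List.map (Prod.snd ∘ fun u : Aˣ => (s⁻¹ * 2 ^ e, u)) L = L := by
    simp [Function.comp_def]
  rw [e1] at h3
  have h4 := In.trans (by positivity) (tg_bd hBr D h (e + f) Y hYU h1) (h3.TG_anti (Nat.zero_le _))
  have h5 := In.list_sum_le (Y := B0) L (fun u => D.LL u) fun u hu' => (hu u hu').2
  have h6 := h4.add' h5
  have e2 : (List.map ((fun p : ℝ × Aˣ => D.LL p.2) ∘ fun u : Aˣ => (s⁻¹ * 2 ^ e, u)) L) =
      List.map (fun u => D.LL u) L := by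
    simp [Function.comp_def]
  rw [e2, sub_add_cancel] at h6
  refine h6.le ?_
  set N : ℕ := (ka + (e + f)) * D.n with hN
  have a1 : (2 : ℝ) ^ N * C ≤ 2 ^ (N + ga + (e + f)) :=
    calc (2 : ℝ) ^ N * C ≤ 2 ^ N * 2 ^ ga := by gcongr
      _ = 2 ^ (N + ga) := by rw [pow_add]
      _ ≤ _ := two_le (by omega)
  have a2 : (L.length : ℝ) * 2 ^ e ≤ 2 ^ (N + ga + (e + f)) :=
    calc (L.length : ℝ) * 2 ^ e ≤ 2 ^ f * 2 ^ e := by gcongr
      _ = 2 ^ (f + e) := by rw [pow_add]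
      _ ≤ _ := two_le (by omega)
  rw [pow_succ]
  linarith

end Alg

theorem len_le (c k : ℕ) (hk : 1 ≤ k) : ((c * k * k : ℕ) : ℝ) ≤ 2 ^ ((c + 2) * k) := by
  have h1 : c ≤ 2 ^ (c * k) :=
    (Nat.lt_two_pow_self.le).trans (Nat.pow_le_pow_right (by norm_num) (Nat.le_mul_of_pos_right c hk))
  have h2 : k ≤ 2 ^ k := Nat.lt_two_pow_self.le
  have h3 : c * k * k ≤ 2 ^ ((c + 2) * k) :=
    calc c * k * k ≤ 2 ^ (c * k) * 2 ^ k * 2 ^ k := by gcongr
      _ = 2 ^ ((c + 2) * k) := by rw [← pow_add, ← pow_add]; congr 1; ring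
  exact_mod_cast h3

variable {G : Type} [Group G] {A : Type} [Ring A] [Algebra ℝ A]

theorem ball_bd (hG : S_GenA) (hBr : S_Br) (hGR : S_GR) (hL : S_Lie1) (hE : S_ExpLog)
    (S : LSetup G A) {ka : ℕ}
    (h : ∀ (a b : ℝ) (v w : A), In S.B0 a v → In S.B0 b w → In S.B0 (2 ^ ka * a * b) (br v w)) :
    ∃ sg : ℕ, ∀ k ≥ 1, ∀ y ∈ S.Y k, In S.B0 (2 ^ (sg * k)) y := by
  obtain ⟨hLie, hNrm, -⟩ := hL G A S.N S.R S.toSetup.normal
  obtain ⟨-, -, -, -, -, -, c, hc⟩ := hG G S.toSetup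
  obtain ⟨-, -, -, ⟨-, -, hinv⟩, hz, hAd, -⟩ := hE A S.R.D
  have hU : S.B0 ⊆ S.R.D.U := fun b hb =>
    hLie.le (by rw [← S.B0_span]; exact Submodule.subset_span hb)
  obtain ⟨ga, hga⟩ := prod_bd hBr hGR S.R.D hU h
  obtain ⟨e, he⟩ := exists_Bd_sp S.B0 S.B0_finite (fun a => S.R.psi (S.t a))
    (fun a => by rw [S.B0_span]; exact hNrm _)
  refine ⟨(ka + (e * c + (c + 2))) * S.R.D.n + ga + (e * c + (c + 2)) + 1, ?_⟩
  rintro k hk _ ⟨g, hg, rfl⟩
  obtain ⟨L, hlen, hsm, rfl⟩ := hc k g hg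
  have hx : ∀ j q, Sm (c * k) q →
      In S.B0 (2 ^ (e * (c * k))) (S.R.D.LL (S.R.psi (S.toSetup.x j q))) := fun j q hq => by
    have e1 : S.R.psi (S.toSetup.x j q) = sp (fun a => S.R.psi (S.t a)) q * S.R.psi (S.e j) *
        (sp (fun a => S.R.psi (S.t a)) q)⁻¹ := by
      rw [← map_sp]
      simp [Setup.x, Setup.s]
    rw [e1, hAd]
    have := he (c * k) q hq 1 _ (In.mem _ ⟨j, rfl⟩)
    rw [mul_one] at this
    exact this
  have := hga (e * (c * k)) ((c + 2) * k)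
    (L.map fun p => S.R.psi (if p.2.2 then S.toSetup.x p.1 p.2.1 else (S.toSetup.x p.1 p.2.1)⁻¹))
    (by
      rw [List.length_map]
      exact (Nat.cast_le.2 hlen).trans (len_le c k hk))
    (by
      intro u hu
      obtain ⟨p, hp, rfl⟩ := List.mem_map.1 hu
      have hun := S.R.uni _ (S.toSetup.x_mem p.1 p.2.1)
      split_ifs
      · exact ⟨hun, hx _ _ (hsm p hp)⟩
      · rw [map_inv]
        refine ⟨hinv _ hun, ?_⟩
        have := hz _ hun (-1)
        rw [zpow_neg_one] at this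
        rw [this]
        simpa using (hx _ _ (hsm p hp)).neg)
  unfold LData.L
  rw [map_list_prod, List.map_map]
  refine In.le this (two_le ?_)
  have b1 : ka ≤ ka * k := Nat.le_mul_of_pos_right _ hk
  have b2 : ga + 1 ≤ (ga + 1) * k := Nat.le_mul_of_pos_right _ hk
  have b3 : (ka + (e * (c * k) + (c + 2) * k)) * S.R.D.n ≤
      (ka * k + (e * (c * k) + (c + 2) * k)) * S.R.D.n := by gcongr
  nlinarith

theorem dil (hE : S_ExpLog) (S : LSetup G A) (j k m i : ℕ) (hm : 1 ≤ m) (hjk : m * j ≤ k) :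
    ∀ w ∈ TG (S.Y j) i, In (TG (S.Y k) i) (m : ℝ)⁻¹ w := by
  obtain ⟨-, -, -, -, hz, -⟩ := hE A S.R.D
  rintro _ ⟨i', hi, v, hv, rfl⟩
  obtain ⟨g, hg, e0⟩ := hv 0
  have hm0 : (0 : ℝ) < m := by exact_mod_cast hm
  have hjk' : j ≤ k := (Nat.le_mul_of_pos_left j hm).trans hjk
  have e1 : S.R.L (g ^ m) = (m : ℝ) • v 0 := by
    have := hz _ (S.R.uni g hg.1) (m : ℤ)
    rw [zpow_natCast, Int.cast_natCast, ← map_pow] at this
    rw [← e0]
    exact this
  have hmem : nest i' (Function.update v 0 (S.R.L (g ^ m))) ∈ TG (S.Y k) i := by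
    refine ⟨i', hi, _, fun u => ?_, rfl⟩
    by_cases hu : u = 0
    · subst hu
      rw [Function.update_self]
      exact S.mem_Y (S.toSetup.B_mono hjk (S.toSetup.B_pow hg m))
    · rw [Function.update_of_ne hu]
      exact S.Y_mono hjk' (hv u)
  have := (In.mem _ hmem).smul' (m : ℝ)⁻¹
  rwa [e1, nest_update_smul, Function.update_eq_self, smul_smul, inv_mul_cancel₀ hm0.ne', one_smul,
    abs_of_pos (inv_pos.2 hm0), mul_one] at this

end Size

theorem pSize (hG : S_GenA) (hGR : S_GR) (hBr : S_Br) (hL : S_Lie1) (hE : S_ExpLog) : S_Size := by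
  intro G _ A _ _ S
  obtain ⟨hLie, -⟩ := hL G A S.N S.R S.toSetup.normal
  refine ⟨?_, fun k => ⟨(S.toSetup.B_finite k).image _, S.Y_sub k⟩, ?_, ?_⟩
  · obtain ⟨ka, hka⟩ := Size.br_bd S.B0 S.B0_finite (by rw [S.B0_span]; exact hLie.br)
    obtain ⟨sg, hsg⟩ := Size.ball_bd hG hBr hGR hL hE S hka
    refine ⟨(ka + sg) * S.R.D.n, fun k hk a v hv => ?_⟩
    have h1 := Size.tg_bd hBr S.R.D hka (sg * k) (S.Y k) (fun y hy => hLie.le (S.Y_sub k hy))
      (hsg k hk)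
    refine (In.trans (by positivity) h1 hv).le ?_
    rw [mul_comm]
    refine mul_le_mul_of_nonneg_left (Size.two_le ?_) hv.nonneg
    have b1 : ka ≤ ka * k := Nat.le_mul_of_pos_right _ hk
    calc (ka + sg * k) * S.R.D.n ≤ (ka * k + sg * k) * S.R.D.n := by gcongr
      _ = _ := by ring
  · obtain ⟨k0, hk0⟩ := S.toSetup.exists_B (Set.finite_range S.e) (by
      rintro _ ⟨j, rfl⟩
      exact S.eN j)
    refine ⟨k0, ?_⟩
    rintro _ ⟨j, rfl⟩
    exact S.mem_Y (hk0 ⟨j, rfl⟩)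
  · intro j k m i hm hjk a v hv
    have := In.trans (by positivity) (Size.dil hE S j k m i hm hjk) hv
    rwa [mul_comm, ← div_eq_mul_inv] at this

end ANd
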