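import Pool.Agent.P.MP_5e7d86_al.BRp

/-! Tel: length and logarithm of telescoping products. -/

set_option autoImplicit false
open Classical
open scoped commutatorElement

namespace ANd

namespace Tel

theorem len_aux {G : Type} [Group G] {l : G → ℕ} (H : IsLen l) (g : G) (a : ℤ → G) (f0 K : ℕ)
    (ha : ∀ z, l (a z) ≤ f0) : ∀ n : ℕ, l (((List.range n).map fun m : ℕ =>
      g ^ ((m : ℤ) - K) * a ((m : ℤ) - K) * (g ^ ((m : ℤ) - K))⁻¹).prod * g ^ ((n : ℤ) - K)) ≤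
        K * l g + n * (f0 + l g)
  | 0 => by
    have := H.zpow g (-(K : ℤ))
    simpa using this
  | n + 1 => by
    have ih := len_aux H g a f0 K ha n
    rw [List.range_succ, List.map_append, List.prod_append]
    generalize ((List.range n).map fun m : ℕ =>
      g ^ ((m : ℤ) - K) * a ((m : ℤ) - K) * (g ^ ((m : ℤ) - K))⁻¹).prod = P at ih ⊢
    have e : ((n + 1 : ℕ) : ℤ) - K = ((n : ℤ) - K) + 1 := by push_cast; ring
    rw [e, zpow_add_one]
    simp only [List.map_cons, List.map_nil, List.prod_cons, List.prod_nil, mul_one]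
    have e2 : P * (g ^ ((n : ℤ) - K) * a ((n : ℤ) - K) * (g ^ ((n : ℤ) - K))⁻¹) *
        (g ^ ((n : ℤ) - K) * g) = P * g ^ ((n : ℤ) - K) * a ((n : ℤ) - K) * g := by group
    rw [e2]
    have h1 := H.mul3 (P * g ^ ((n : ℤ) - K)) (a ((n : ℤ) - K)) g
    have h2 := ha ((n : ℤ) - K)
    rw [add_mul]
    omega

theorem len_tel {G : Type} [Group G] {l : G → ℕ} (H : IsLen l) (g : G) (a : ℤ → G) (f0 K : ℕ)
    (ha : ∀ z, l (a z) ≤ f0) (hK : 1 ≤ K) : l (tel g a K) ≤ (6 * l g + 3 * f0) * K := by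
  have h1 := len_aux H g a f0 K ha (2 * K + 1)
  have h2 := H.mul (tel g a K * g ^ (((2 * K + 1 : ℕ) : ℤ) - K)) (g ^ (((2 * K + 1 : ℕ) : ℤ) - K))⁻¹
  rw [mul_inv_cancel_right, H.inv] at h2
  have h3 := H.zpow g (((2 * K + 1 : ℕ) : ℤ) - K)
  have h4 : (((2 * K + 1 : ℕ) : ℤ) - K).natAbs = K + 1 := by omega
  rw [h4] at h3
  have h5 : l (tel g a K * g ^ (((2 * K + 1 : ℕ) : ℤ) - K)) ≤
      K * l g + (2 * K + 1) * (f0 + l g) := h1
  have h6 : l g ≤ K * l g := Nat.le_mul_of_pos_left _ hK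
  have h7 : f0 ≤ K * f0 := Nat.le_mul_of_pos_left _ hK
  nlinarith

theorem sum_shift {A : Type} [AddCommMonoid A] (f : ℤ → A) (K : ℕ) :
    ((List.range (2 * K + 1)).map fun m : ℕ => f ((m : ℤ) - K)).sum =
      ∑ z ∈ Finset.Icc (-(K : ℤ)) K, f z := by
  have e : ((K : ℤ) + 1 - -(K : ℤ)).toNat = 2 * K + 1 := by omega
  rw [Int.Icc_eq_finset_map, Finset.sum_map, e]
  have e2 : ((List.range (2 * K + 1)).map fun m : ℕ => f ((m : ℤ) - K)).sum =
      ∑ m ∈ Finset.range (2 * K + 1), f ((m : ℤ) - K) := rfl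
  rw [e2]
  refine Finset.sum_congr rfl fun m _ => congrArg f ?_
  simp
  ring

end Tel

theorem pTel (hAd : S_AdB) (hGR : S_GR) (hE : S_ExpLog) : S_Tel := by
  intro G _ A _ _ S g F i hF hFN hV
  obtain ⟨f0, hf0⟩ := S.toSetup.exists_B hF hFN
  obtain ⟨C1, hC1⟩ := hAd G A S i (S.R.L '' F) (hF.image _) (by
    rintro _ ⟨f, hf, rfl⟩
    exact hV f hf)
  obtain ⟨C2, -, hC2⟩ := hGR A S.R.D (3 * C1)
  obtain ⟨-, hE2, -, -, -, hE6, -⟩ := hE A S.R.D
  obtain ⟨C3, hC3⟩ := exists_nat_ge C2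
  refine ⟨C1 * (S.l g + 1) + (6 * S.l g + 3 * f0) + C3 + 3 * C1, fun K hK a ha => ?_⟩
  generalize hC : C1 * (S.l g + 1) + (6 * S.l g + 3 * f0) + C3 + 3 * C1 = C
  have hK0 : (0 : ℝ) < K := by exact_mod_cast hK
  have hK1 : (1 : ℝ) ≤ K := by exact_mod_cast hK
  have hC10 : (0 : ℝ) ≤ C1 := Nat.cast_nonneg _
  have hc1 : C1 * (S.l g + 1) ≤ C := by omega
  have hc2 : 6 * S.l g + 3 * f0 ≤ C := by omega
  have hc3 : C2 + 3 * C1 ≤ (C : ℝ) := by
    have : C3 + 3 * C1 ≤ C := by omega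
    have h2 : ((C3 + 3 * C1 : ℕ) : ℝ) ≤ C := by exact_mod_cast this
    push_cast at h2
    linarith
  have hYU : S.Y (C * K) ⊆ S.R.D.U := by
    rintro _ ⟨x, hx, rfl⟩
    exact (hE2 _ (S.R.uni x hx.1)).2
  have hN : ∀ z : ℤ, g ^ z * a z * (g ^ z)⁻¹ ∈ S.N := fun z =>
    S.toSetup.normal.conj_mem _ (hFN (ha z)) _
  have hL : ∀ z : ℤ, S.R.D.LL (S.R.psi (g ^ z * a z * (g ^ z)⁻¹)) =
      Ad (S.R.psi (g ^ z)) (S.R.L (a z)) := by
    intro z
    rw [map_mul, map_mul, map_inv]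
    exact hE6 _ _
  have hIn : ∀ m < 2 * K + 1, In (TG (S.Y (C * K)) i) ((C1 : ℝ) / K)
      (Ad (S.R.psi (g ^ ((m : ℤ) - K))) (S.R.L (a ((m : ℤ) - K)))) := by
    intro m hm
    have h1 : S.l (g ^ ((m : ℤ) - K)) ≤ (S.l g + 1) * K := by
      refine (S.len.zpow g _).trans ?_
      have h2 : ((m : ℤ) - K).natAbs ≤ K := by omega
      rw [mul_comm]
      exact Nat.mul_le_mul (Nat.le_succ _) h2
    have h3 := hC1 ((S.l g + 1) * K) (Nat.mul_pos (Nat.succ_pos _) hK) _ h1 _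
      ⟨a ((m : ℤ) - K), ha _, rfl⟩
    refine (h3.TG_mono (S.Y_mono ?_)).le ?_
    · rw [← mul_assoc]
      exact Nat.mul_le_mul_right _ hc1
    · refine div_le_div_of_nonneg_left hC10 hK0 ?_
      exact_mod_cast Nat.le_mul_of_pos_left _ (Nat.succ_pos _)
  have hmass : ((2 * K + 1 : ℕ) : ℝ) * ((C1 : ℝ) / K) ≤ 3 * C1 := by
    rw [← mul_div_assoc, div_le_iff₀ hK0]
    push_cast
    nlinarith
  have hsum : In (TG (S.Y (C * K)) i) (3 * C1)
      (∑ z ∈ Finset.Icc (-(K : ℤ)) K, Ad (S.R.psi (g ^ z)) (S.R.L (a z))) := by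
    rw [← Tel.sum_shift (fun z => Ad (S.R.psi (g ^ z)) (S.R.L (a z))) K]
    have h1 := In.list_sum_le (List.range (2 * K + 1))
      (fun m : ℕ => Ad (S.R.psi (g ^ ((m : ℤ) - K))) (S.R.L (a ((m : ℤ) - K))))
      fun m hm => hIn m (List.mem_range.1 hm)
    rw [List.length_range] at h1
    exact h1.le hmass
  have herr : In (TG (S.Y (C * K)) (i + 1)) C2 (S.R.L (tel g a K) -
      ∑ z ∈ Finset.Icc (-(K : ℤ)) K, Ad (S.R.psi (g ^ z)) (S.R.L (a z))) := by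
    have h1 := hC2 (S.Y (C * K)) hYU i ((List.range (2 * K + 1)).map fun m : ℕ =>
      ((C1 : ℝ) / K, S.R.psi (g ^ ((m : ℤ) - K) * a ((m : ℤ) - K) * (g ^ ((m : ℤ) - K))⁻¹)))
      (by
        intro p hp
        obtain ⟨m, hm, rfl⟩ := List.mem_map.1 hp
        refine ⟨S.R.uni _ (hN _), ?_⟩
        rw [hL]
        exact hIn m (List.mem_range.1 hm))
      (by
        rw [List.map_map]
        refine le_trans (le_of_eq ?_) hmass
        simp [Function.comp_def])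
    refine h1.congr ?_
    rw [← Tel.sum_shift (fun z => Ad (S.R.psi (g ^ z)) (S.R.L (a z))) K, List.map_map,
      List.map_map]
    congr 1
    · unfold LData.L tel
      rw [map_list_prod, List.map_map]
      rfl
    · congr 1
      exact List.map_congr_left fun m _ => hL _
  refine ⟨⟨?_, ?_⟩, ?_, herr.le (by linarith)⟩
  · refine S.N.list_prod_mem fun x hx => ?_
    obtain ⟨m, -, rfl⟩ := List.mem_map.1 hx
    exact hN _
  · exact (Tel.len_tel S.len g a f0 K (fun z => (hf0 (ha z)).2) hK).trans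
      (Nat.mul_le_mul_right _ hc2)
  · exact (((herr.TG_anti (Nat.le_succ i)).add' hsum).le hc3).congr (sub_add_cancel _ _)

end ANd
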