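import Pool.Agent.P.MP_5e7d86_al.BRp

/-! Towers of central cyclic and torsion steps. -/

set_option autoImplicit false
open Classical
open scoped commutatorElement

namespace ANd

namespace Tower'

variable {G : Type} [Group G]

theorem conj_mem {A Γ Γ' : Subgroup G} (h1 : Γ ≤ Γ') (h3 : ⁅A, Γ'⁆ ≤ Γ) {a g : G} (ha : a ∈ A)
    (hg : g ∈ Γ) : a * g * a⁻¹ ∈ Γ := by
  have h := Γ.mul_mem (h3 (Subgroup.commutator_mem_commutator ha (h1 hg))) hg
  rwa [commutatorElement_def, inv_mul_cancel_right] at h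

/-- The subgroup generated by `Γ` and an element normalising it. -/
def adj (Γ : Subgroup G) (t : G) (ht : ∀ (n : ℤ), ∀ g ∈ Γ, t ^ n * g * (t ^ n)⁻¹ ∈ Γ) :
    Subgroup G where
  carrier := {g | ∃ n : ℤ, g * (t ^ n)⁻¹ ∈ Γ}
  one_mem' := ⟨0, by simpa using Γ.one_mem⟩
  mul_mem' := by
    rintro a b ⟨n, hn⟩ ⟨m, hm⟩
    refine ⟨n + m, ?_⟩
    have h := Γ.mul_mem hn (ht n _ hm)
    have e : a * b * (t ^ (n + m))⁻¹ = a * (t ^ n)⁻¹ * (t ^ n * (b * (t ^ m)⁻¹) * (t ^ n)⁻¹) := by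
      rw [zpow_add]; group
    rwa [e]
  inv_mem' := by
    rintro a ⟨n, hn⟩
    refine ⟨-n, ?_⟩
    have h := ht (-n) _ (Γ.inv_mem hn)
    have e : a⁻¹ * (t ^ (-n))⁻¹ = t ^ (-n) * (a * (t ^ n)⁻¹)⁻¹ * (t ^ (-n))⁻¹ := by group
    rwa [e]

/-- independence modulo `Γ` -/
def Ind (Γ : Subgroup G) {s : ℕ} (x : Fin s → G) : Prop :=
  ∀ n : Fin s → ℤ, (List.ofFn fun i => x i ^ n i).prod ∈ Γ → n = 0

theorem exists_ind {Γ Γ' : Subgroup G} {s : ℕ} (h : ¬ Dep Γ' Γ s) :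
    ∃ x : Fin s → G, (∀ i, x i ∈ Γ') ∧ Ind Γ x := by
  by_contra H
  refine h fun x hx => ?_
  by_contra H'
  refine H ⟨x, hx, fun n hn => ?_⟩
  by_contra h0
  exact H' ⟨n, h0, hn⟩

theorem prod_cons {s : ℕ} (x : Fin (s + 1) → G) (n : Fin (s + 1) → ℤ) :
    (List.ofFn fun i => x i ^ n i).prod =
      x 0 ^ n 0 * (List.ofFn fun i : Fin s => x i.succ ^ n i.succ).prod := by
  rw [List.ofFn_succ, List.prod_cons]

theorem prod_mem {Δ : Subgroup G} {s : ℕ} {x : Fin s → G} (hx : ∀ i, x i ∈ Δ) (n : Fin s → ℤ) :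
    (List.ofFn fun i => x i ^ n i).prod ∈ Δ := by
  refine Δ.list_prod_mem fun y hy => ?_
  obtain ⟨i, rfl⟩ := List.mem_ofFn.1 hy
  exact Δ.zpow_mem (hx i) _

theorem climb {A Γ0 Γ' : Subgroup G} (h2 : Γ' ≤ A) (s : ℕ) : ∀ (Γ : Subgroup G) (j : ℕ),
    Tower A Γ0 Γ j → Γ ≤ Γ' → ⁅A, Γ'⁆ ≤ Γ → ∀ x : Fin s → G, (∀ i, x i ∈ Γ') → Ind Γ x →
    ∃ Δ : Subgroup G, Γ ≤ Δ ∧ Δ ≤ Γ' ∧ (∀ i, x i ∈ Δ) ∧ Tower A Γ0 Δ (j + s) := by
  induction s with
  | zero => exact fun Γ j hT h1 _ x _ _ => ⟨Γ, le_rfl, h1, fun i => i.elim0, hT⟩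
  | succ s ih =>
    intro Γ j hT h1 h3 x hx hI
    have ht : ∀ (n : ℤ), ∀ g ∈ Γ, x 0 ^ n * g * (x 0 ^ n)⁻¹ ∈ Γ := fun n g hg =>
      conj_mem h1 h3 (A.zpow_mem (h2 (hx 0)) n) hg
    have k1 : Γ ≤ adj Γ (x 0) ht := fun g hg => ⟨0, by simpa using hg⟩
    have k2 : adj Γ (x 0) ht ≤ Γ' := by
      rintro g ⟨n, hn⟩
      have h := Γ'.mul_mem (h1 hn) (Γ'.zpow_mem (hx 0) n)
      rwa [inv_mul_cancel_right] at h
    have k3 : x 0 ∈ adj Γ (x 0) ht := ⟨1, by simpa using Γ.one_mem⟩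
    have hT1 : Tower A Γ0 (adj Γ (x 0) ht) (j + 1) := by
      refine Tower.zs Γ _ j (x 0) hT k1 (k2.trans h2)
        ((Subgroup.commutator_mono le_rfl k2).trans h3) k3 (fun g hg => hg) fun n hn => ?_
      have h := hI (Fin.cons n 0) (by
        rw [prod_cons]
        simpa using hn)
      simpa using congrFun h 0
    obtain ⟨Δ, d1, d2, d3, d4⟩ := ih (adj Γ (x 0) ht) (j + 1) hT1 k2 (h3.trans k1)
      (fun i => x i.succ) (fun i => hx _) (by
        rintro n ⟨m, hm⟩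
        have h := hI (Fin.cons (-m) n) (by
          rw [prod_cons]
          have h' := ht (-m) _ hm
          simp only [Fin.cons_zero, Fin.cons_succ]
          rwa [mul_assoc, mul_assoc, zpow_neg _ m, inv_inv, inv_mul_cancel, mul_one,
            ← zpow_neg] at h')
        funext i
        simpa using congrFun h i.succ)
    refine ⟨Δ, k1.trans d1, d2, fun i => Fin.cases (d1 k3) d3 i, ?_⟩
    rwa [add_assoc, add_comm 1 s] at d4

theorem of_filtR {N Γ : Subgroup G} {r : ℕ} (h : FiltR N Γ r) : Tower N ⊥ Γ r := by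
  induction h with
  | bot => exact Tower.base
  | pt Γ Γ' r _ hL hP ih =>
    obtain ⟨p, hp, H⟩ := hP
    exact Tower.ts Γ Γ' r ih hL.le hL.leN hL.cen fun x hx => ⟨p, hp.ne_zero, H x hx⟩
  | tf Γ Γ' r s _ hL _ hn hd ih =>
    obtain ⟨x, hx, hI⟩ := exists_ind hn
    obtain ⟨Δ, d1, d2, d3, d4⟩ := climb hL.leN s Γ r ih hL.le hL.cen x hx hI
    refine Tower.ts Δ Γ' _ d4 d2 hL.leN (hL.cen.trans d1) fun y hy => ?_
    obtain ⟨n, hn0, hn⟩ := hd (Fin.cons y x) (fun i => Fin.cases hy hx i)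
    rw [prod_cons] at hn
    simp only [Fin.cons_zero, Fin.cons_succ] at hn
    have h0 : n 0 ≠ 0 := fun h0 => by
      rw [h0, zpow_zero, one_mul] at hn
      have h := hI (fun i => n i.succ) hn
      refine hn0 (funext fun i => Fin.cases h0 (fun i => congrFun h i) i)
    have h1 : y ^ n 0 ∈ Δ := by
      have h := Δ.mul_mem (d1 hn) (Δ.inv_mem (prod_mem d3 fun i => n i.succ))
      rwa [mul_inv_cancel_right] at h
    refine ⟨(n 0).natAbs, Int.natAbs_ne_zero.2 h0, ?_⟩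
    rcases Int.natAbs_eq (n 0) with e | e
    · rwa [e, zpow_natCast] at h1
    · rw [e, zpow_neg, zpow_natCast] at h1
      exact Δ.inv_mem_iff.1 h1

theorem comm_sub {A Γ Γ' P : Subgroup G} (hP : P ≤ A) (h3 : ⁅A, Γ'⁆ ≤ Γ) :
    ⁅(⊤ : Subgroup P), Γ'.subgroupOf P⁆ ≤ Γ.subgroupOf P := by
  rw [Subgroup.commutator_le]
  intro a _ b hb
  exact h3 (Subgroup.commutator_mem_commutator (hP a.2) (Subgroup.mem_subgroupOf.1 hb))

theorem transfer {A Γ0 Γ P : Subgroup G} {j : ℕ} (h : Tower A Γ0 Γ j) (hP : P ≤ A) :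
    Γ ≤ P → Tower (⊤ : Subgroup P) (Γ0.subgroupOf P) (Γ.subgroupOf P) j := by
  induction h with
  | base => exact fun _ => Tower.base
  | zs Γ Γ' j t _ h1 _ h3 ht h4 h5 ih =>
    intro hle
    refine Tower.zs (Γ.subgroupOf P) _ j ⟨t, hle ht⟩ (ih (h1.trans hle))
      (fun g hg => h1 hg) le_top (comm_sub hP h3) ht (fun x hx => ?_) fun n hn => h5 n ?_
    · obtain ⟨n, hn⟩ := h4 x (Subgroup.mem_subgroupOf.1 hx)
      exact ⟨n, by simpa [Subgroup.mem_subgroupOf] using hn⟩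
    · simpa [Subgroup.mem_subgroupOf] using hn
  | ts Γ Γ' j _ h1 _ h3 h4 ih =>
    intro hle
    refine Tower.ts (Γ.subgroupOf P) _ j (ih (h1.trans hle)) (fun g hg => h1 hg) le_top
      (comm_sub hP h3) fun x hx => ?_
    obtain ⟨n, hn0, hn⟩ := h4 x (Subgroup.mem_subgroupOf.1 hx)
    exact ⟨n, hn0, by simpa [Subgroup.mem_subgroupOf] using hn⟩

theorem of_filt {N Γ : Subgroup G} (h : Filt N Γ) : (∃ r, FiltR N Γ r) ∨
    ∀ j : ℕ, ∃ (P : Subgroup G) (j' : ℕ), j ≤ j' ∧ Tower (⊤ : Subgroup P) ⊥ ⊤ j' := by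
  induction h with
  | bot => exact Or.inl ⟨0, FiltR.bot⟩
  | step Γ Γ' _ hL hc ih =>
    rcases ih with ⟨r, hr⟩ | ih
    swap
    · exact Or.inr ih
    rcases hc with hP | hT
    · exact Or.inl ⟨r, FiltR.pt Γ Γ' r hr hL hP⟩
    by_cases hex : ∃ s, Dep Γ' Γ s
    · have h0 : Nat.find hex ≠ 0 := fun e => by
        have h := Nat.find_spec hex
        rw [e] at h
        obtain ⟨n, hn, -⟩ := h (fun i => i.elim0) (fun i => i.elim0)
        exact hn (Subsingleton.elim _ _)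
      obtain ⟨s, hs⟩ := Nat.exists_eq_succ_of_ne_zero h0
      refine Or.inl ⟨r + s, FiltR.tf Γ Γ' r s hr hL hT (Nat.find_min hex (by omega)) ?_⟩
      have h := Nat.find_spec hex
      rwa [hs] at h
    · refine Or.inr fun j => ?_
      obtain ⟨x, hx, hI⟩ := exists_ind (s := j) fun h => hex ⟨j, h⟩
      obtain ⟨Δ, -, d2, -, d4⟩ := climb hL.leN j Γ r (of_filtR hr) hL.le hL.cen x hx hI
      refine ⟨Δ, r + j, Nat.le_add_left _ _, ?_⟩
      have h := transfer d4 (d2.trans hL.leN) le_rfl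
      rwa [Subgroup.bot_subgroupOf, Subgroup.subgroupOf_self] at h

theorem of_pr {N : Subgroup G} {d : ℕ} (pr : G →* Multiplicative (Fin d → ℤ))
    (hs : Function.Surjective pr) (hk : ∀ g, g ∈ N ↔ pr g = 1) : Tower ⊤ N ⊤ d := by
  choose x hx using fun a : Fin d => hs (Multiplicative.ofAdd (Pi.single a 1))
  have hp : ∀ n : Fin d → ℤ,
      pr (List.ofFn fun i => x i ^ n i).prod = Multiplicative.ofAdd n := fun n => by
    rw [map_list_prod, List.map_ofFn, List.prod_ofFn]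
    have e : n = ∑ i, n i • (Pi.single i 1 : Fin d → ℤ) := by
      funext a
      simp [Finset.sum_apply, Pi.single_apply]
    conv_rhs => rw [e, ofAdd_sum]
    refine Finset.prod_congr rfl fun i _ => ?_
    simp only [Function.comp, map_zpow, hx, ofAdd_zsmul]
  have hc : ⁅(⊤ : Subgroup G), (⊤ : Subgroup G)⁆ ≤ N := by
    rw [Subgroup.commutator_le]
    intro a _ b _
    rw [hk, map_commutatorElement, commutatorElement_eq_one_iff_mul_comm, mul_comm]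
  obtain ⟨Δ, d1, -, d3, d4⟩ := climb (A := ⊤) (Γ0 := N) (Γ' := ⊤) le_rfl d N 0 Tower.base le_top hc
    x (fun _ => trivial) fun n hn => by
      rw [hk, hp] at hn
      exact ofAdd_eq_one.1 hn
  have e : Δ = ⊤ := by
    refine top_unique fun g _ => ?_
    have h1 : g * ((List.ofFn fun i => x i ^ (pr g).toAdd i).prod)⁻¹ ∈ N := by
      rw [hk, map_mul, map_inv, hp]
      simp
    have h := Δ.mul_mem (d1 h1) (prod_mem d3 (pr g).toAdd)
    rwa [inv_mul_cancel_right] at h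
  rwa [e, zero_add] at d4

end Tower'

theorem pTower : S_Tower := fun _ _ _ =>
  ⟨fun _ _ h => Tower'.of_filtR h, Tower'.of_filt, fun _ pr hs hk => Tower'.of_pr pr hs hk⟩

end ANd
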