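import Pool.Agent.P.MP_5e7d86_al.BRp

/-!
Virtual triangularisation of representations of finitely generated amenable groups.
-/

set_option autoImplicit false

open Classical
open scoped commutatorElement

namespace ANd

namespace Tri

/-- an intertwining map also intertwines products -/
theorem prod_intertw {K W1 W2 ι : Type} [Field K] [AddCommGroup W1] [Module K W1]
    [AddCommGroup W2] [Module K W2] (f : W1 →ₗ[K] W2) (A : ι → Module.End K W1)
    (B : ι → Module.End K W2) (h : ∀ x w, f (A x w) = B x (f w)) (L : List ι) (w : W1) :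
    f ((L.map A).prod w) = (L.map B).prod (f w) := by
  induction L with
  | nil => simp
  | cons x L ih => simp only [List.map_cons, List.prod_cons, Module.End.mul_apply, h, ih]

/-- in dimension at least two a finite index subgroup acts reducibly -/
theorem vred (h1 : S_Abs) (h2 : S_Furst) (h3 : S_Selb) (h4 : S_Kolch) {K Γ W : Type} [Field K]
    [IsAlgClosed K] [Countable K] [Group Γ] [Group.FG Γ] [AddCommGroup W] [Module K W]
    [FiniteDimensional K W] (rho : Representation K Γ W) (hΓ : Amen Γ)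
    (hW : 2 ≤ Module.finrank K W) : VRed rho := by
  obtain ⟨H, La, hH, hLa, hE⟩ := h3 K Γ W rho
  by_cases hc : ∀ h ∈ H, ∀ a b : Kˣ, Module.End.HasEigenvalue (rho h) (a : K) →
      Module.End.HasEigenvalue (rho h) (b : K) → a = b
  · exact h4 K Γ W rho H La hW hH hLa hE hc
  · push Not at hc
    obtain ⟨g, hg, a, b, ha, hb, hab⟩ := hc
    have hm : a * b⁻¹ ∈ La := La.mul_mem (hE g hg a ha) (La.inv_mem (hE g hg b hb))
    obtain ⟨v, hv⟩ := h1 K ((a * b⁻¹ : Kˣ) : K) (Units.ne_zero _) fun m hm0 e => by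
      have e' : (a * b⁻¹) ^ m = 1 := Units.ext (by rw [Units.val_pow_eq_pow_val, e, Units.val_one])
      exact hab (mul_inv_eq_one.1 (hLa _ hm m hm0 e'))
    refine h2 K Γ W rho v g a b hΓ ha hb fun e => hv ?_
    rw [Units.val_mul, Units.val_inv_eq_inv_val, map_mul, map_inv₀, e,
      mul_inv_cancel₀ (v.ne_zero (Units.ne_zero b))]

/-- in dimension one commutators act trivially -/
theorem dim_one {K Γ W : Type} [Field K] [Group Γ] [AddCommGroup W] [Module K W]
    [FiniteDimensional K W] (rho : Representation K Γ W) (hW : Module.finrank K W = 1) {x : Γ}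
    (hx : x ∈ ⁅(⊤ : Subgroup Γ), (⊤ : Subgroup Γ)⁆) : rho x = 1 := by
  have hs : ∀ f : Module.End K W, ∃ c : K, ∀ w, f w = c • w := by
    intro f
    obtain ⟨v, hv, hv'⟩ := finrank_eq_one_iff'.1 hW
    obtain ⟨c, hc⟩ := hv' (f v)
    refine ⟨c, fun w => ?_⟩
    obtain ⟨d, rfl⟩ := hv' w
    rw [map_smul, ← hc, smul_comm]
  have hc : ∀ f g : Module.End K W, f * g = g * f := by
    intro f g
    obtain ⟨c, hc⟩ := hs f
    obtain ⟨d, hd⟩ := hs g
    ext w
    rw [Module.End.mul_apply, Module.End.mul_apply, hc, hd, hd, hc, smul_comm]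
  have hk : ⁅(⊤ : Subgroup Γ), (⊤ : Subgroup Γ)⁆ ≤ MonoidHom.ker rho := by
    rw [Subgroup.commutator_le]
    intro a _ b _
    rw [MonoidHom.mem_ker, commutatorElement_def, map_mul, map_mul, map_mul, hc (rho a) (rho b),
      mul_assoc (rho b), ← map_mul, mul_inv_cancel, map_one, mul_one, ← map_mul, mul_inv_cancel,
      map_one]
  exact hk hx

end Tri

open Tri in
theorem pTri (h1 : S_Abs) (h2 : S_Furst) (h3 : S_Selb) (h4 : S_Kolch) (h5 : S_Amen) : S_Tri := by
  intro K _ _ _ n
  induction n using Nat.strong_induction_on with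
  | _ n ih =>
  intro Γ W _ _ _ _ _ rho hΓ hW
  rcases Nat.lt_or_ge n 2 with hn | hn
  · refine ⟨⊤, inferInstance, fun L hL hx => ?_⟩
    interval_cases n
    · have : Subsingleton W := Module.finrank_zero_iff.1 hW
      exact LinearMap.ext fun w => Subsingleton.elim _ _
    · obtain ⟨x, rfl⟩ := List.length_eq_one_iff.1 hL
      simp [dim_one rho hW (hx x (List.mem_singleton_self x))]
  obtain ⟨H0, hH0, W', hb, ht, hinv⟩ := vred h1 h2 h3 h4 rho hΓ (hW ▸ hn)
  let rho0 : Representation K H0 W := rho.comp H0.subtype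
  have hle : ∀ g : H0, W' ≤ W'.comap (rho0 g) := fun g w hw => hinv g g.2 w hw
  have hA : Amen H0 := h5.2 Γ H0 hΓ
  have hsum := Submodule.finrank_quotient_add_finrank W'
  have hlt : Module.finrank K W' < n := hW ▸ Submodule.finrank_lt ht
  have hpos : Module.finrank K W' ≠ 0 := fun e => hb (Submodule.finrank_eq_zero.1 e)
  obtain ⟨H1, hH1, hP1⟩ := ih _ hlt H0 W' (rho0.subrepresentation W' hle) hA rfl
  obtain ⟨H2, hH2, hP2⟩ := ih (Module.finrank K (W ⧸ W')) (by omega) H0 (W ⧸ W')
    (rho0.quotient W' hle) hA rfl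
  refine ⟨(H1 ⊓ H2).map H0.subtype, ⟨?_⟩, fun L hL hx => ?_⟩
  · rw [Subgroup.index_map_subtype]
    exact mul_ne_zero Subgroup.FiniteIndex.index_ne_zero Subgroup.FiniteIndex.index_ne_zero
  rw [← Subgroup.map_commutator] at hx
  obtain ⟨L', hL', hx'⟩ : ∃ L' : List H0, L'.map H0.subtype = L ∧
      ∀ x ∈ L', x ∈ ⁅H1 ⊓ H2, H1 ⊓ H2⁆ := by
    clear hL
    induction L with
    | nil => exact ⟨[], rfl, by simp⟩
    | cons x L ihL =>
      obtain ⟨L', e, h'⟩ := ihL fun y hy => hx y (List.mem_cons_of_mem x hy)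
      obtain ⟨x', hx1, hx2⟩ := hx x List.mem_cons_self
      refine ⟨x' :: L', by rw [List.map_cons, e, hx2], fun y hy => ?_⟩
      rcases List.mem_cons.1 hy with rfl | hy
      · exact hx1
      · exact h' y hy
  subst hL'
  rw [List.length_map] at hL
  rw [List.map_map]
  change (L'.map fun x => rho0 x - 1).prod = 0
  have e1 := hP1 (L'.take (Module.finrank K W')) (by rw [List.length_take]; omega) fun x hx =>
    Subgroup.commutator_mono inf_le_left inf_le_left (hx' x (List.mem_of_mem_take hx))
  have e2 := hP2 (L'.drop (Module.finrank K W')) (by rw [List.length_drop]; omega) fun x hx =>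
    Subgroup.commutator_mono inf_le_right inf_le_right (hx' x (List.mem_of_mem_drop hx))
  rw [← List.take_append_drop (Module.finrank K W') L', List.map_append, List.prod_append]
  ext w
  have k2 := prod_intertw W'.mkQ (fun x : H0 => rho0 x - 1)
    (fun x : H0 => rho0.quotient W' hle x - 1) (fun x w => by simp)
    (L'.drop (Module.finrank K W')) w
  rw [e2, LinearMap.zero_apply, Submodule.mkQ_apply, Submodule.Quotient.mk_eq_zero] at k2
  have k1 := prod_intertw W'.subtype (fun x : H0 => rho0.subrepresentation W' hle x - 1)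
    (fun x : H0 => rho0 x - 1) (fun x w => by simp) (L'.take (Module.finrank K W')) ⟨_, k2⟩
  rw [e1, LinearMap.zero_apply, map_zero] at k1
  rw [Module.End.mul_apply, LinearMap.zero_apply]
  exact k1.symm

end ANd
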