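import Pool.Agent.P.MP_5e7d86_al.BRp

/-! The sum of the expanding subspaces. -/

set_option autoImplicit false
open Classical
open scoped commutatorElement

namespace ANd

namespace U0

variable {A : Type} [Ring A] [Algebra ℝ A]

theorem conj {B0 : Set A} (hB : B0.Finite) {u w : Aˣ} (hu : Nrm u (Submodule.span ℝ B0)) {v : A}
    (hv : v ∈ Vp B0 w) : Ad u v ∈ Vp B0 (u * w * u⁻¹) := by
  obtain ⟨C, hC, h⟩ := In.exists_unif (Y := B0) (hB.image (Ad u)) (by
    rintro _ ⟨y, hy, rfl⟩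
    exact (hu y (Submodule.subset_span hy)).1)
  rw [mem_Vp] at hv ⊢
  intro ep hep
  have hC' : 0 < C + 1 := by positivity
  obtain ⟨n0, hn⟩ := hv (ep / (C + 1)) (by positivity)
  refine ⟨n0, fun n h0 => ?_⟩
  have e : (u * w * u⁻¹)⁻¹ ^ n * u = u * w⁻¹ ^ n := by
    rw [show (u * w * u⁻¹)⁻¹ = u * w⁻¹ * u⁻¹ by group, conj_pow]; group
  rw [← Ad_mul, e, Ad_mul]
  refine (In.map (AdH u).toLinearMap hC (fun y hy => h _ ⟨y, hy, rfl⟩) (hn n h0)).le ?_
  rw [← mul_div_assoc, div_le_iff₀ hC']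
  nlinarith

theorem half (hA : S_Auer) {B0 : Set A} (hB : B0.Finite) {u : Aˣ}
    (hu : Nrm u (Submodule.span ℝ B0)) : ∃ j0 : ℕ, 1 ≤ j0 ∧ ∀ (a : ℝ), ∀ v ∈ Vp B0 u,
      In B0 a v → In B0 (a / 2) (Ad (u ^ j0)⁻¹ v) := by
  have := FiniteDimensional.span_of_finite ℝ hB
  have : FiniteDimensional ℝ (Vp B0 u) := Submodule.finiteDimensional_of_le (Vp_le hu)
  obtain ⟨B1, h1⟩ : (Vp B0 u).FG := Module.Finite.iff_fg.1 this
  obtain ⟨C, hC, h⟩ := (hA A).2 B0 B1 hB B1.finite_toSet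
  have hC' : 0 < 2 * C + 1 := by positivity
  have h2 : ∀ y : B1, ∃ n0 : ℕ, ∀ n ≥ n0, In B0 (1 / (2 * C + 1)) (Ad (u⁻¹ ^ n) y) := fun y =>
    mem_Vp.1 (h1 ▸ Submodule.subset_span y.2) _ (by positivity)
  choose n0 hn0 using h2
  refine ⟨Finset.univ.sup n0 + 1, by omega, fun a v hv ha => ?_⟩
  rw [← inv_pow]
  refine (In.map (AdH (u⁻¹ ^ (Finset.univ.sup n0 + 1))).toLinearMap (c := 1 / (2 * C + 1))
    (by positivity) (fun y hy => hn0 ⟨y, hy⟩ _
      ((Finset.le_sup (f := n0) (Finset.mem_univ _)).trans (Nat.le_succ _)))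
    (h a v (h1.symm ▸ hv) ha)).le ?_
  have := ha.nonneg
  rw [div_mul_eq_mul_div, one_mul, div_le_div_iff₀ hC' two_pos]
  nlinarith

end U0

theorem pU0 (hL : S_Lie1) (hA : S_Auer) : S_U0 := by
  intro G _ A _ _ S
  have hN : ∀ g, Nrm (S.R.psi g) (Submodule.span ℝ S.B0) := fun g => by
    rw [S.B0_span]; exact (hL G A S.N S.R S.toSetup.normal).2.1 g
  have hle : S.U0 ≤ S.R.V := iSup_le fun g => (Vp_le (hN g)).trans_eq S.B0_span
  refine ⟨hle, fun g u hu => ?_, ?_, fun g => ?_⟩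
  · have : S.U0 ≤ S.U0.comap (AdH (S.R.psi g)).toLinearMap := iSup_le fun h v hv => by
      have := U0.conj S.B0_finite (hN g) hv
      rw [← map_inv, ← map_mul, ← map_mul] at this
      exact Submodule.mem_iSup_of_mem (g * h * g⁻¹) this
    exact this hu
  · have := S.fd
    have : FiniteDimensional ℝ S.U0 := Submodule.finiteDimensional_of_le hle
    have h1 : S.U0.FG := Module.Finite.iff_fg.1 this
    obtain ⟨T, hT⟩ := CompleteLattice.IsCompactElement.exists_finset_of_le_iSup _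
      ((Submodule.fg_iff_compact _).1 h1) (fun g : G => Vp S.B0 (S.R.psi g)) le_rfl
    exact ⟨T, le_antisymm hT (iSup₂_le fun g _ => le_iSup (fun g : G => Vp S.B0 (S.R.psi g)) g)⟩
  · obtain ⟨j0, h1, h2⟩ := U0.half hA S.B0_finite (hN g)
    exact ⟨j0, h1, fun a v hv ha => by rw [map_pow]; exact h2 a v hv ha⟩

end ANd
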