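import Pool.Agent.P.MP_5e7d86_al.BRp

/-! Package Unip: an amenable linear group over a finitely generated ring is virtually
unipotent-by-abelian. -/

set_option autoImplicit false
open Classical
open scoped commutatorElement

namespace ANd

namespace Unip

variable {n : ℕ} {R : Type} [CommRing R]

/-- All entries lie in the ideal. -/
def Ent (I : Ideal R) (M : Matrix (Fin n) (Fin n) R) : Prop := ∀ i j, M i j ∈ I

theorem Ent.mul {I J : Ideal R} {M N : Matrix (Fin n) (Fin n) R} (h : Ent I M) (h' : Ent J N) :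
    Ent (I * J) (M * N) := fun i j => by
  rw [Matrix.mul_apply]
  exact Ideal.sum_mem _ fun k _ => Ideal.mul_mem_mul (h i k) (h' k j)

theorem blocks {Γ : Type} (f : Γ → Matrix (Fin n) (Fin n) R) (S : Γ → Prop) (I : Ideal R) (e : ℕ)
    (h : ∀ L : List Γ, L.length = e → (∀ x ∈ L, S x) → Ent I (L.map f).prod) (k : ℕ) :
    ∀ L : List Γ, L.length = k * e → (∀ x ∈ L, S x) → Ent (I ^ k) (L.map f).prod := by
  induction k with
  | zero => intro L _ _ i j; simp
  | succ k ih =>
    intro L hL hS
    have hl : e ≤ L.length := by rw [hL, Nat.succ_mul]; omega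
    rw [← List.take_append_drop e L, List.map_append, List.prod_append, pow_succ']
    refine (h _ (by simp [hl]) fun x hx => hS x (List.mem_of_mem_take hx)).mul
      (ih _ ?_ fun x hx => hS x (List.mem_of_mem_drop hx))
    rw [List.length_drop, hL, Nat.succ_mul]; omega

theorem countable (R : Type) [CommRing R] [Algebra.FiniteType ℤ R] : Countable R := by
  obtain ⟨m, f, hf⟩ := Algebra.FiniteType.iff_quotient_mvPolynomial''.1
    (inferInstance : Algebra.FiniteType ℤ R)
  have : Countable (MvPolynomial (Fin m) ℤ) := by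
    rw [← Cardinal.mk_le_aleph0_iff]
    refine MvPolynomial.cardinalMk_le_max.trans ?_
    simp
  exact hf.countable

theorem countable_ac (D : Type) [CommRing D] [IsDomain D] [Countable D] :
    Countable (AlgebraicClosure (FractionRing D)) := by
  rw [← Cardinal.mk_le_aleph0_iff]
  refine (Algebra.IsAlgebraic.cardinalMk_le_max (FractionRing D) _).trans (max_le ?_ le_rfl)
  exact (Localization.cardinalMk_le _).trans Cardinal.mk_le_aleph0

/-- One prime ideal. -/
theorem prime (hT : S_Tri) (Γ : Type) [Group Γ] [Group.FG Γ] [Countable R]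
    (psi : Γ →* GL (Fin n) R) (hA : Amen Γ) (p : Ideal R) (hp : p.IsPrime) :
    ∃ H : Subgroup Γ, H.FiniteIndex ∧ ∀ L : List Γ, L.length = n → (∀ x ∈ L, x ∈ ⁅H, H⁆) →
      Ent p (L.map fun x => ((psi x : GL (Fin n) R) : Matrix (Fin n) (Fin n) R) - 1).prod := by
  have : Countable (R ⧸ p) := Ideal.Quotient.mk_surjective.countable
  let K := AlgebraicClosure (FractionRing (R ⧸ p))
  have : Countable K := countable_ac _
  let φ : R →+* K := (algebraMap (FractionRing (R ⧸ p)) K).comp
    ((algebraMap (R ⧸ p) (FractionRing (R ⧸ p))).comp (Ideal.Quotient.mk p))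
  have hφ : ∀ x, φ x = 0 → x ∈ p := fun x hx => by
    simp only [φ, RingHom.comp_apply, map_eq_zero_iff _ (algebraMap (FractionRing (R ⧸ p)) K).injective,
      map_eq_zero_iff _ (IsFractionRing.injective (R ⧸ p) (FractionRing (R ⧸ p)))] at hx
    exact Ideal.Quotient.eq_zero_iff_mem.1 hx
  let Φ : Matrix (Fin n) (Fin n) R →+* Module.End K (Fin n → K) :=
    (Matrix.toLinAlgEquiv' (R := K) (n := Fin n)).toRingEquiv.toRingHom.comp φ.mapMatrix
  let rho : Representation K Γ (Fin n → K) :=
    Φ.toMonoidHom.comp ((Units.coeHom _).comp psi)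
  obtain ⟨H, hH, h⟩ := hT K n Γ (Fin n → K) rho hA (by simp)
  refine ⟨H, hH, fun L hL hS i j => hφ _ ?_⟩
  have h1 := h L hL hS
  have h2 : Φ (L.map fun x => ((psi x : GL (Fin n) R) : Matrix (Fin n) (Fin n) R) - 1).prod = 0 := by
    rw [map_list_prod, List.map_map, ← h1]
    congr 1
    refine List.map_congr_left fun x _ => ?_
    simp only [Function.comp_apply, map_sub, map_one]
    rfl
  have h3 : φ.mapMatrix
      (L.map fun x => ((psi x : GL (Fin n) R) : Matrix (Fin n) (Fin n) R) - 1).prod = 0 :=
    (Matrix.toLinAlgEquiv' (R := K) (n := Fin n)).injective (by rw [map_zero]; exact h2)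
  exact congrFun (congrFun h3 i) j

end Unip

theorem pUnip (hT : S_Tri) : S_Unip := by
  intro Γ _ _ n R _ _ psi hA
  have : Countable R := Unip.countable R
  have : IsNoetherianRing R := Algebra.FiniteType.isNoetherianRing ℤ R
  have : Finite (minimalPrimes R) := (minimalPrimes.finite_of_isNoetherianRing R).to_subtype
  choose H hH h using fun p : minimalPrimes R =>
    Unip.prime hT Γ psi hA p.1 (Ideal.IsMinimalPrime.isPrime p.2)
  obtain ⟨k, hk⟩ := IsNoetherianRing.isNilpotent_nilradical R
  refine ⟨⨅ p, H p, k * n, Subgroup.finiteIndex_iInf hH, fun L hL hS => ?_⟩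
  have key := Unip.blocks (fun x => ((psi x : GL (Fin n) R) : Matrix (Fin n) (Fin n) R) - 1)
    (fun x => x ∈ ⁅⨅ p, H p, ⨅ p, H p⁆) (nilradical R) n (fun L hL hS i j => by
      rw [nilradical, ← Ideal.sInf_minimalPrimes, Ideal.mem_sInf]
      intro p hp
      exact h ⟨p, hp⟩ L hL (fun x hx => Subgroup.commutator_mono (iInf_le _ _) (iInf_le _ _)
        (hS x hx)) i j) k L hL hS
  ext i j
  have := key i j
  rw [hk] at this
  simpa using this

end ANd
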