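import Pool.Agent.P.MP_5e7d86_al.BRp

/-! The upper bound for the Assouad-Nagata dimension. -/

set_option autoImplicit false
open Classical
open scoped commutatorElement

namespace ANd

namespace Upper

variable {G : Type} [Group G] {A : Type} [Ring A] [Algebra ℝ A]

/-- the cover of the group of exponentials, pulled back to `N` -/
theorem base (hCov : S_Cov) (hLie : S_Lie1) (S : LSetup G A) (hR : S.RR 0) :
    ∃ k1 C : ℕ, ∀ k ≥ k1, Col S.l (S.N : Set G) (Module.finrank ℝ S.R.V) k (C * k) := by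
  have := S.fd
  obtain ⟨Lam, hLam⟩ := hCov A S.R.D S.R.V (hLie G A S.N S.R S.toSetup.normal).1
  obtain ⟨C, hC⟩ := hR Lam
  obtain ⟨k0, hk0⟩ := S.toSetup.exists_B (Set.finite_range S.e) (by
    rintro _ ⟨j, rfl⟩; exact S.eN j)
  refine ⟨k0 + 1, C, fun k hk => ?_⟩
  have hsp : Submodule.span ℝ (S.Y k) = S.R.V := by
    refine le_antisymm (Submodule.span_le.2 (S.Y_sub k)) ?_
    rw [← S.B0_span]
    refine Submodule.span_mono ?_
    rintro _ ⟨j, rfl⟩
    exact S.mem_Y (S.toSetup.B_mono (by omega) (hk0 ⟨j, rfl⟩))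
  obtain ⟨Z, hZ, hZ'⟩ := hLam (S.Y k) ((S.toSetup.B_finite k).image _) hsp
  refine ⟨fun i => {g | g ∈ S.N ∧ S.R.psi g ∈ Z i}, fun y hy => ?_, fun i x y hxy => ?_⟩
  · obtain ⟨i, hi⟩ := hZ _ (S.R.psi_mem_Ex hy)
    exact ⟨i, hy, hi⟩
  · have hB : ∀ a b, Step S.l {g | g ∈ S.N ∧ S.R.psi g ∈ Z i} k a b → a⁻¹ * b ∈ S.toSetup.B k :=
      fun a b h => ⟨S.N.mul_mem (S.N.inv_mem h.1.1) h.2.1.1, h.2.2⟩
    have h1 : x⁻¹ * y ∈ S.toSetup.E k := by
      induction hxy with
      | refl => rw [inv_mul_cancel]; exact one_mem _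
      | @tail b c _ h ih =>
        have := mul_mem ih (S.toSetup.B_sub_E k (hB b c h))
        rwa [mul_assoc, mul_inv_cancel_left] at this
    have hL : ∀ a b : G, S.R.D.LL ((S.R.psi a)⁻¹ * S.R.psi b) = S.R.L (a⁻¹ * b) := fun a b => by
      rw [LData.L, map_mul, map_inv]
    have h2 := hZ' i (S.R.psi x) (S.R.psi y) (by
      clear h1
      induction hxy with
      | refl => exact Relation.ReflTransGen.refl
      | @tail a b _ h ih =>
        refine ih.tail ⟨h.1.2, h.2.1.2, S.R.psi_mem_Ex h.1.1, S.R.psi_mem_Ex h.2.1.1, ?_⟩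
        rw [hL]
        exact In.mem _ (sub_TG _ (S.mem_Y (hB a b h))))
    rw [hL] at h2
    exact hC k (by omega) _ h1 h2

theorem anN (hCov : S_Cov) (hGeo : S_Geo) (hLie : S_Lie1) (S : LSetup G A) (hR : S.RR 0) :
    ANLe S.l (S.N : Set G) S.r := by
  obtain ⟨k1, C, h⟩ := base hCov hLie S hR
  obtain ⟨g1, -, -, -, g5, -⟩ := hGeo G S.l S.len
  have hr : Module.finrank ℝ S.R.V ≤ S.r :=
    ((hLie G A S.N S.R S.toSetup.normal).2.2.2 S.N S.r S.filt).2
  refine ⟨C * (k1 + 1), fun R => ?_⟩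
  rcases Nat.eq_zero_or_pos R with rfl | hR0
  · exact g5 _ _
  · refine g1 _ _ _ _ _ _ _ _ (h ((k1 + 1) * R) (by nlinarith)) subset_rfl hr (by nlinarith) ?_
    rw [mul_assoc]

/-- the coordinates from `s` on vanish -/
def Ns (S : Setup G) (s : ℕ) : Subgroup G where
  carrier := {g | ∀ a : Fin S.d, s ≤ a.val → Multiplicative.toAdd (S.pr g) a = 0}
  mul_mem' := fun {x y} hx hy a ha => by
    rw [map_mul, toAdd_mul, Pi.add_apply, hx a ha, hy a ha, add_zero]
  one_mem' := fun a _ => by rw [map_one, toAdd_one, Pi.zero_apply]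
  inv_mem' := fun {x} hx a ha => by rw [map_inv, toAdd_inv, Pi.neg_apply, hx a ha, neg_zero]

theorem step (hH : S_HUR) (hGeo : S_Geo) (hGen : S_GenA) (S : Setup G) {s k : ℕ} (hs : s < S.d)
    (h : ANLe S.l (Ns S s : Set G) k) : ANLe S.l (Ns S (s + 1) : Set G) (k + 1) := by
  obtain ⟨c, hc⟩ := h
  obtain ⟨g1, -, -, -, g5, -⟩ := hGeo G S.l S.len
  obtain ⟨c1, hc1⟩ := (hGen G S).2.2.2.1
  set a0 : Fin S.d := ⟨s, hs⟩ with ha0
  obtain ⟨c2, hc2⟩ := hH.2 c (2 * (c1 + 1) * S.l (S.t a0)) (k + 2)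
  refine ⟨c2, fun R => ?_⟩
  rcases Nat.eq_zero_or_pos R with rfl | hR0
  · exact g5 _ _
  refine g1 _ _ _ _ _ _ _ _ (hH.1 G S.l S.len (Ns S s) (Ns S (s + 1))
    (fun g => ((Multiplicative.toAdd (S.pr g) a0 : ℤ) : ℝ)) (((c1 + 1) * R : ℕ) : ℝ) k R
    (2 * (c1 + 1) * S.l (S.t a0) * R) (fun R => c * R) (by positivity) (fun x _ y _ => ?_)
    (fun b _ hb => ?_) (fun b hb hp => ?_) hc) subset_rfl le_rfl le_rfl (hc2 R)
  · rw [map_mul, toAdd_mul, Pi.add_apply, Int.cast_add]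
  · have h1 : |Multiplicative.toAdd (S.pr b) a0| ≤ (((c1 + 1) * R : ℕ) : ℤ) := by
      refine (hc1 b a0).trans ?_
      have : c1 * S.l b ≤ (c1 + 1) * R := Nat.mul_le_mul (by omega) hb
      exact_mod_cast this
    exact_mod_cast h1
  · set n : ℤ := Multiplicative.toAdd (S.pr b) a0 with hn
    refine ⟨b * (S.t a0 ^ n)⁻¹, fun a ha => ?_, ?_⟩
    · rw [map_mul, map_inv, map_zpow, S.prt, toAdd_mul, toAdd_inv, toAdd_zpow, toAdd_ofAdd,
        Pi.add_apply, Pi.neg_apply, Pi.smul_apply, smul_eq_mul]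
      by_cases h0 : a = a0
      · rw [h0, Pi.single_eq_same, mul_one, add_neg_cancel]
      · have : s + 1 ≤ a.val := by
          have : a.val ≠ s := fun e => h0 (Fin.ext e)
          omega
        rw [hb a this, Pi.single_eq_of_ne h0, mul_zero, neg_zero, add_zero]
    · rw [mul_inv_rev, inv_inv, mul_assoc, inv_mul_cancel, mul_one]
      refine (S.len.zpow _ n).trans ?_
      have h1 : |n| ≤ ((2 * ((c1 + 1) * R) : ℕ) : ℤ) := by exact_mod_cast hp
      have h2 : n.natAbs ≤ 2 * ((c1 + 1) * R) := by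
        rw [Int.abs_eq_natAbs] at h1
        exact_mod_cast h1
      calc n.natAbs * S.l (S.t a0) ≤ 2 * ((c1 + 1) * R) * S.l (S.t a0) := Nat.mul_le_mul_right _ h2
        _ = _ := by ring

end Upper

theorem pUpper (hCov : S_Cov) (hH : S_HUR) (hGeo : S_Geo) (hGen : S_GenA) (hLie : S_Lie1) :
    S_Upper := by
  intro G _ A _ _ S hR
  have key : ∀ s ≤ S.d, ANLe S.l (Upper.Ns S.toSetup s : Set G) (S.r + s) := by
    intro s
    induction s with
    | zero =>
      intro _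
      have e : (Upper.Ns S.toSetup 0 : Set G) = S.N := by
        ext g
        rw [SetLike.mem_coe, SetLike.mem_coe, S.ker]
        refine ⟨fun h => ?_, fun h a _ => by rw [h, toAdd_one, Pi.zero_apply]⟩
        exact Multiplicative.toAdd.injective (funext fun a => h a (Nat.zero_le _))
      rw [e]
      exact Upper.anN hCov hGeo hLie S hR
    | succ s ih => exact fun hs => Upper.step hH hGeo hGen S.toSetup hs (ih (by omega))
  have e : (Upper.Ns S.toSetup S.d : Set G) = Set.univ :=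
    Set.eq_univ_of_forall fun g a ha => absurd a.isLt (not_lt.2 ha)
  rw [← e]
  exact key _ le_rfl

end ANd
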