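import Pool.Agent.P.MP_5e7d86_al.BRp

/-! Window control for ideals of `Z[Z^ι]`, through the Rees algebra of the window filtration. -/

set_option autoImplicit false
set_option linter.unusedSectionVars false
open Classical
open scoped commutatorElement

namespace ANd.WC
open Polynomial

variable {ι : Type} [Fintype ι]

/-- Degree one generators of the Rees algebra. -/
noncomputable def gens (ι : Type) : Set (Polynomial (ZH ι)) :=
  (fun h : ι → ℤ => (monomial 1 (tau h) : Polynomial (ZH ι))) '' {h | Sm 1 h}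

/-- The Rees algebra. -/
noncomputable def BB (ι : Type) : Subalgebra ℤ (Polynomial (ZH ι)) := Algebra.adjoin ℤ (gens ι)

theorem BB_noeth : IsNoetherianRing (BB ι) :=
  isNoetherianRing_of_fg (Subalgebra.fg_def.2 ⟨gens ι, (Sm_finite 1).image _, rfl⟩)

theorem win_intCast (k : ℕ) (n : ℤ) : Win k ((n : ℤ) : ZH ι) := by
  have : ((n : ℤ) : ZH ι) = n • (1 : ZH ι) := by simp
  rw [this]
  exact (Win.one k).zsmul n

theorem BB_win {p : Polynomial (ZH ι)} (hp : p ∈ BB ι) : ∀ k, Win k (p.coeff k) := by
  unfold BB at hp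
  induction hp using Algebra.adjoin_induction with
  | mem x hx =>
    obtain ⟨h, hh, rfl⟩ := hx
    intro k
    simp only [coeff_monomial]
    split_ifs with e
    · subst e; exact Win.tau hh
    · exact Win.zero k
  | algebraMap r =>
    intro k
    have : (algebraMap ℤ (Polynomial (ZH ι))) r = C ((r : ℤ) : ZH ι) := by simp
    rw [this, coeff_C]
    split_ifs
    · exact win_intCast k r
    · exact Win.zero k
  | add x y _ _ hx hy =>
    intro k
    rw [coeff_add]
    exact (hx k).add (hy k)
  | mul x y _ _ hx hy =>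
    intro k
    rw [coeff_mul]
    refine Win.sum _ _ fun c hc => ?_
    have := (hx c.1).mul (hy c.2)
    rwa [Finset.HasAntidiagonal.mem_antidiagonal.1 hc] at this

theorem mono_tau (k : ℕ) : ∀ h : ι → ℤ, Sm k h → (monomial k (tau h) : Polynomial (ZH ι)) ∈ BB ι := by
  induction k with
  | zero =>
    intro h hh
    have : h = 0 := funext fun a => by
      have := hh a
      simpa using this
    subst this
    have : (monomial 0 (tau (0 : ι → ℤ)) : Polynomial (ZH ι)) = 1 := by
      rw [tau_zero]; simp
    rw [this]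
    exact one_mem _
  | succ k ih =>
    intro h hh
    let g : ι → ℤ := fun a => Int.sign (h a)
    have hg : Sm 1 g := fun a => by
      simp only [g]
      rcases lt_trichotomy (h a) 0 with e | e | e
      · rw [Int.sign_eq_neg_one_of_neg e]; simp
      · rw [e]; simp
      · rw [Int.sign_eq_one_of_pos e]; simp
    have hk : Sm k (h - g) := fun a => by
      have := hh a
      simp only [g, Pi.sub_apply]
      push_cast at this
      rw [abs_le] at this ⊢
      rcases lt_trichotomy (h a) 0 with e | e | e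
      · rw [Int.sign_eq_neg_one_of_neg e]; omega
      · rw [e]; simp
      · rw [Int.sign_eq_one_of_pos e]; omega
    have e : (monomial (k + 1) (tau h) : Polynomial (ZH ι)) =
        monomial k (tau (h - g)) * monomial 1 (tau g) := by
      rw [monomial_mul_monomial, tau_mul, sub_add_cancel]
    rw [e]
    exact mul_mem (ih _ hk) (Algebra.subset_adjoin ⟨g, hg, rfl⟩)

theorem mono_mem {k : ℕ} {x : ZH ι} (hx : Win k x) :
    (monomial k x : Polynomial (ZH ι)) ∈ BB ι := by
  rw [eq_sum_tau x, map_sum]
  refine sum_mem fun h hh => ?_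
  rw [map_zsmul]
  exact zsmul_mem (mono_tau k h (hx h hh)) _

/-- The graded ideal attached to `J`. -/
def II (J : Ideal (ZH ι)) : Ideal (BB ι) where
  carrier := {p | ∀ k, (p : Polynomial (ZH ι)).coeff k ∈ J}
  zero_mem' := fun k => by simp
  add_mem' := fun {a b} ha hb k => by
    rw [Subalgebra.coe_add, coeff_add]
    exact J.add_mem (ha k) (hb k)
  smul_mem' := fun c p hp k => by
    rw [smul_eq_mul, Subalgebra.coe_mul, coeff_mul]
    exact J.sum_mem fun d _ => J.mul_mem_left _ (hp _)

/-- Combinations of the elements of `R` with coefficients in the window `k`. -/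
def Good (R : Finset (ZH ι)) (k : ℕ) (x : ZH ι) : Prop :=
  ∃ nu : ZH ι → ZH ι, (∀ y ∈ R, Win k (nu y)) ∧ x = ∑ y ∈ R, nu y * y

theorem Good.zero (R : Finset (ZH ι)) (k : ℕ) : Good R k 0 :=
  ⟨fun _ => 0, fun _ _ => Win.zero k, by simp⟩

theorem Good.add {R : Finset (ZH ι)} {k : ℕ} {x y : ZH ι} (hx : Good R k x) (hy : Good R k y) :
    Good R k (x + y) := by
  obtain ⟨n1, h1, e1⟩ := hx
  obtain ⟨n2, h2, e2⟩ := hy
  refine ⟨fun z => n1 z + n2 z, fun z hz => (h1 z hz).add (h2 z hz), ?_⟩
  rw [e1, e2, ← Finset.sum_add_distrib]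
  exact Finset.sum_congr rfl fun z _ => by ring

theorem Good.sum {R : Finset (ZH ι)} {k : ℕ} {I : Type} (s : Finset I) (f : I → ZH ι)
    (H : ∀ i ∈ s, Good R k (f i)) : Good R k (∑ i ∈ s, f i) :=
  Finset.sum_induction f (Good R k) (fun _ _ => Good.add) (Good.zero R k) H

theorem Good.single {R : Finset (ZH ι)} {k : ℕ} {a y : ZH ι} (ha : Win k a) (hy : y ∈ R) :
    Good R k (a * y) := by
  refine ⟨fun z => if z = y then a else 0, fun z _ => ?_, ?_⟩
  · dsimp only
    split_ifs
    · exact ha
    · exact Win.zero k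
  · rw [Finset.sum_eq_single y]
    · simp
    · intro b _ hb; simp [hb]
    · intro h; exact absurd hy h

end ANd.WC

namespace ANd
open Polynomial

theorem pWC : S_WC := by
  intro ι _ J
  obtain ⟨S, hS⟩ := (isNoetherianRing_iff_ideal_fg _).1 (WC.BB_noeth (ι := ι)) (WC.II J)
  let R : Finset (ZH ι) := S.biUnion fun s =>
    (s : Polynomial (ZH ι)).support.image fun j => (s : Polynomial (ZH ι)).coeff j
  have hSI : ∀ s ∈ S, s ∈ WC.II J := fun s hs => hS ▸ Ideal.subset_span hs
  refine ⟨R, 1, fun x hx => ?_, fun k _ x hx hw => ?_⟩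
  · obtain ⟨s, hs, hx⟩ := Finset.mem_biUnion.1 hx
    obtain ⟨j, _, rfl⟩ := Finset.mem_image.1 hx
    exact hSI s hs j
  · have hm : (⟨monomial k x, WC.mono_mem hw⟩ : WC.BB ι) ∈ WC.II J := fun i => by
      simp only [coeff_monomial]
      split_ifs
      · exact hx
      · exact J.zero_mem
    rw [← hS] at hm
    obtain ⟨q, _, hq⟩ := Submodule.mem_span_finset.1 hm
    have e := congrArg (fun p : WC.BB ι => (p : Polynomial (ZH ι)).coeff k) hq
    simp only [smul_eq_mul, AddSubmonoidClass.coe_finsetSum, Subalgebra.coe_mul,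
      finsetSum_coeff, coeff_monomial, if_true] at e
    rw [one_mul]
    change WC.Good R k x
    rw [← e]
    refine WC.Good.sum _ _ fun s hs => ?_
    rw [coeff_mul]
    refine WC.Good.sum _ _ fun c hc => ?_
    by_cases h0 : (s : Polynomial (ZH ι)).coeff c.2 = 0
    · rw [h0, mul_zero]; exact WC.Good.zero R k
    · refine WC.Good.single ((WC.BB_win (q s).2 c.1).mono ?_) ?_
      · have := Finset.HasAntidiagonal.mem_antidiagonal.1 hc
        omega
      · exact Finset.mem_biUnion.2 ⟨s, hs, Finset.mem_image.2 ⟨c.2, mem_support_iff.2 h0, rfl⟩⟩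

end ANd
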