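import Pool.Agent.P.MP_5e7d86_al.BRp

/-! Closure properties of word functions. -/

set_option autoImplicit false
set_option linter.unusedSectionVars false
open Classical
open scoped commutatorElement

namespace ANd.WF

variable {G : Type} [Group G] {ι : Type}

theorem const_mem (x : G) : (fun _ : ι → ℤ => x) ∈ WordFun G ι :=
  Subgroup.subset_closure (Or.inl ⟨x, rfl⟩)

theorem pow_mem' (x : G) (a : ι) : (fun g : ι → ℤ => x ^ g a) ∈ WordFun G ι :=
  Subgroup.subset_closure (Or.inr ⟨x, a, rfl⟩)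

theorem ind {p : ((ι → ℤ) → G) → Prop} (h1 : ∀ x : G, p fun _ => x)
    (h2 : ∀ (x : G) (a : ι), p fun g => x ^ g a) (h3 : ∀ f g, p f → p g → p (f * g))
    (h4 : ∀ f, p f → p f⁻¹) : ∀ f ∈ WordFun G ι, p f := by
  intro f hf
  unfold WordFun at hf
  induction hf using Subgroup.closure_induction with
  | mem x hx =>
    rcases hx with ⟨y, rfl⟩ | ⟨y, a, rfl⟩
    · exact h1 y
    · exact h2 y a
  | one => exact h1 1
  | mul x y _ _ hx hy => exact h3 x y hx hy
  | inv x _ hx => exact h4 x hx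

theorem len (l : G → ℕ) (H : IsLen l) :
    ∀ f ∈ WordFun G ι, ∃ c : ℕ, ∀ k g, Sm k g → l (f g) ≤ c * (k + 1) := by
  refine ind (fun x => ⟨l x, fun k g _ => Nat.le_mul_of_pos_right _ (Nat.succ_pos k)⟩)
    (fun x a => ⟨l x, fun k g hg => ?_⟩) ?_ ?_
  · refine (H.zpow x (g a)).trans ?_
    have h1 : (g a).natAbs ≤ k + 1 := by
      have := hg a
      rw [← Int.natCast_natAbs] at this
      omega
    rw [mul_comm]
    exact Nat.mul_le_mul_left _ h1
  · rintro f f' ⟨c, hc⟩ ⟨c', hc'⟩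
    refine ⟨c + c', fun k g hg => ?_⟩
    rw [Pi.mul_apply, add_mul]
    exact (H.mul _ _).trans (add_le_add (hc k g hg) (hc' k g hg))
  · rintro f ⟨c, hc⟩
    refine ⟨c, fun k g hg => ?_⟩
    rw [Pi.inv_apply, H.inv]
    exact hc k g hg

theorem shf_mem (u : ι → ℤ) : ∀ f ∈ WordFun G ι, shf u f ∈ WordFun G ι := by
  refine ind (fun x => const_mem x) (fun x a => ?_) (fun f g hf hg => mul_mem hf hg)
    (fun f hf => inv_mem hf)
  have : shf u (fun g : ι → ℤ => x ^ g a) = (fun g : ι → ℤ => x ^ g a) * fun _ => x ^ u a := by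
    funext g
    simp [shf, zpow_add]
  rw [this]
  exact mul_mem (pow_mem' x a) (const_mem _)

theorem comp_mem {κ : Type} (φ : ι → κ) :
    ∀ f ∈ WordFun G ι, (fun h : κ → ℤ => f fun a => h (φ a)) ∈ WordFun G κ :=
  ind (fun x => const_mem x) (fun x a => pow_mem' x (φ a)) (fun _ _ hf hg => mul_mem hf hg)
    (fun _ hf => inv_mem hf)

theorem lfv_mem {c : (ι → ℤ) → G} (hc : c ∈ WordFun G ι) :
    ∀ F : List ((ι → ℤ) × Bool), lfv c F ∈ WordFun G ι
  | [] => const_mem 1
  | p :: F => by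
    have e : lfv c (p :: F) = (if p.2 then shf p.1 c else (shf p.1 c)⁻¹) * lfv c F := by
      funext g
      simp only [lfv, List.map_cons, List.prod_cons, Pi.mul_apply]
      split_ifs <;> rfl
    rw [e]
    refine mul_mem ?_ (lfv_mem hc F)
    split_ifs
    · exact shf_mem _ _ hc
    · exact inv_mem (shf_mem _ _ hc)

theorem sp_mem {d : ℕ} (t : Fin d → G) : (fun q : Fin d → ℤ => sp t q) ∈ WordFun G (Fin d) := by
  have e : (fun q : Fin d → ℤ => sp t q) =
      (List.ofFn fun a : Fin d => fun q : Fin d → ℤ => t a ^ q a).prod := by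
    funext q
    have := map_list_prod (Pi.evalMonoidHom (fun _ : Fin d → ℤ => G) q)
      (List.ofFn fun a : Fin d => fun q : Fin d → ℤ => t a ^ q a)
    rw [List.map_ofFn] at this
    exact this.symm
  rw [e]
  refine list_prod_mem fun f hf => ?_
  obtain ⟨a, rfl⟩ := List.mem_ofFn.1 hf
  exact pow_mem' _ a

theorem x_mem (S : Setup G) (j : Fin S.m) : S.x j ∈ WordFun G (Fin S.d) :=
  mul_mem (mul_mem (sp_mem S.t) (const_mem (S.e j))) (inv_mem (sp_mem S.t))

theorem cJ_mem (S : Setup G) (i : ℕ) (J : Fin (i + 1) → Fin S.m) :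
    S.cJ i J ∈ WordFun G (Fin (i + 1) × Fin S.d) := by
  have e : S.cJ i J = cm i fun u => fun h : Fin (i + 1) × Fin S.d → ℤ =>
      S.x (J u) fun a => h (u, a) := by
    funext h
    exact (map_cm (Pi.evalMonoidHom (fun _ : Fin (i + 1) × Fin S.d → ℤ => G) h) i
      (fun u => fun h : Fin (i + 1) × Fin S.d → ℤ => S.x (J u) fun a => h (u, a))).symm
  rw [e]
  exact cm_mem _ i _ fun u => comp_mem (fun a => (u, a)) _ (x_mem S (J u))

end ANd.WF

namespace ANd

theorem pWF : S_WF := fun _ _ _ _ =>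
  ⟨fun l H => WF.len l H, fun f hf u => WF.shf_mem u f hf, fun _ hc F => WF.lfv_mem hc F,
    fun S => ⟨WF.x_mem S, WF.cJ_mem S⟩⟩

end ANd
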