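import Pool.Agent.P.MP_5e7d86_al.Wl
import Pool.Agent.P.MP_5e7d86_al.Conv
import Pool.Agent.P.MP_5e7d86_al.Geo
import Pool.Agent.P.MP_5e7d86_al.FI
import Pool.Agent.P.MP_5e7d86_al.CC
import Pool.Agent.P.MP_5e7d86_al.Amen
import Pool.Agent.P.MP_5e7d86_al.KK
import Pool.Agent.P.MP_5e7d86_al.FGR
import Pool.Agent.P.MP_5e7d86_al.Ext
import Pool.Agent.P.MP_5e7d86_al.Omega
import Pool.Agent.P.MP_5e7d86_al.Abs
import Pool.Agent.P.MP_5e7d86_al.FurA
import Pool.Agent.P.MP_5e7d86_al.FurB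
import Pool.Agent.P.MP_5e7d86_al.Selb
import Pool.Agent.P.MP_5e7d86_al.Kolch
import Pool.Agent.P.MP_5e7d86_al.Tri
import Pool.Agent.P.MP_5e7d86_al.Unip
import Pool.Agent.P.MP_5e7d86_al.Rec
import Pool.Agent.P.MP_5e7d86_al.MatF
import Pool.Agent.P.MP_5e7d86_al.MatL
import Pool.Agent.P.MP_5e7d86_al.Tower
import Pool.Agent.P.MP_5e7d86_al.ChB
import Pool.Agent.P.MP_5e7d86_al.LBbase
import Pool.Agent.P.MP_5e7d86_al.LBz
import Pool.Agent.P.MP_5e7d86_al.LBt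
import Pool.Agent.P.MP_5e7d86_al.LBgeo
import Pool.Agent.P.MP_5e7d86_al.LBfin
import Pool.Agent.P.MP_5e7d86_al.LB
import Pool.Agent.P.MP_5e7d86_al.ExpLog
import Pool.Agent.P.MP_5e7d86_al.BCH
import Pool.Agent.P.MP_5e7d86_al.B1
import Pool.Agent.P.MP_5e7d86_al.Lie1
import Pool.Agent.P.MP_5e7d86_al.Mk
import Pool.Agent.P.MP_5e7d86_al.HUR
import Pool.Agent.P.MP_5e7d86_al.Br
import Pool.Agent.P.MP_5e7d86_al.B2
import Pool.Agent.P.MP_5e7d86_al.GR
import Pool.Agent.P.MP_5e7d86_al.Cov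
import Pool.Agent.P.MP_5e7d86_al.GenA
import Pool.Agent.P.MP_5e7d86_al.Upper
import Pool.Agent.P.MP_5e7d86_al.Auer
import Pool.Agent.P.MP_5e7d86_al.U0
import Pool.Agent.P.MP_5e7d86_al.Loop
import Pool.Agent.P.MP_5e7d86_al.OneB
import Pool.Agent.P.MP_5e7d86_al.OneD
import Pool.Agent.P.MP_5e7d86_al.Dbl0
import Pool.Agent.P.MP_5e7d86_al.Dbl
import Pool.Agent.P.MP_5e7d86_al.Lie3
import Pool.Agent.P.MP_5e7d86_al.Rat
import Pool.Agent.P.MP_5e7d86_al.Dig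
import Pool.Agent.P.MP_5e7d86_al.WF
import Pool.Agent.P.MP_5e7d86_al.Ann
import Pool.Agent.P.MP_5e7d86_al.WC
import Pool.Agent.P.MP_5e7d86_al.MLp
import Pool.Agent.P.MP_5e7d86_al.MLa
import Pool.Agent.P.MP_5e7d86_al.MLb
import Pool.Agent.P.MP_5e7d86_al.EL
import Pool.Agent.P.MP_5e7d86_al.KLab
import Pool.Agent.P.MP_5e7d86_al.AdB
import Pool.Agent.P.MP_5e7d86_al.Tel
import Pool.Agent.P.MP_5e7d86_al.KLg
import Pool.Agent.P.MP_5e7d86_al.KL0
import Pool.Agent.P.MP_5e7d86_al.CmL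
import Pool.Agent.P.MP_5e7d86_al.LCS
import Pool.Agent.P.MP_5e7d86_al.KL
import Pool.Agent.P.MP_5e7d86_al.Size
import Pool.Agent.P.MP_5e7d86_al.Car
import Pool.Agent.P.MP_5e7d86_al.Par0
import Pool.Agent.P.MP_5e7d86_al.Par
import Pool.Agent.P.MP_5e7d86_al.Lat
import Pool.Agent.P.MP_5e7d86_al.PhA
import Pool.Agent.P.MP_5e7d86_al.Fin
import Pool.Agent.P.MP_5e7d86_al.RI
import Pool.Agent.P.MP_5e7d86_al.Core
import Pool.Agent.P.MP_5e7d86_al.Main

set_option autoImplicit false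

namespace ANd.All

theorem aWl : S_Wl := pWl
theorem aConv : S_Conv := pConv aWl
theorem aGeo : S_Geo := pGeo
theorem aFI : S_FI := pFI aWl
theorem aCC : S_CC := pCC aWl
theorem aAmen : S_Amen := pAmen
theorem aKK : S_KK := pKK
theorem aFGR : S_FGR := pFGR
theorem aExt : S_Ext := pExt
theorem aOmega : S_Omega := pOmega
theorem aAbs : S_Abs := pAbs aExt aOmega
theorem aFurA : S_FurA := pFurA
theorem aFurB : S_FurB := pFurB
theorem aFurst : S_Furst := pFurst aFurA aFurB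
theorem aSelb : S_Selb := pSelb
theorem aKolch : S_Kolch := pKolch
theorem aTri : S_Tri := pTri aAbs aFurst aSelb aKolch aAmen
theorem aUnip : S_Unip := pUnip aTri
theorem aRec : S_Rec := pRec
theorem aMatF : S_MatF := pMatF aRec
theorem aMatL : S_MatL := pMatL
theorem aTower : S_Tower := pTower
theorem aChB : S_ChB := pChB
theorem aLBbase : S_LBbase := pLBbase aChB
theorem aLBz : S_LBz := pLBz aChB
theorem aLBt : S_LBt := pLBt aChB
theorem aLBgeo : S_LBgeo := pLBgeo aChB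
theorem aLBfin : S_LBfin := pLBfin aChB aLBgeo
theorem aLB : S_LB := pLB aLBbase aLBz aLBt aLBfin
theorem aExpLog : S_ExpLog := pExpLog
theorem aBCH : S_BCH := pBCH
theorem aB1 : S_B1 := pB1 aBCH aExpLog
theorem aLie1 : S_Lie1 := pLie1 aExpLog aB1
theorem aMk : S_Mk := pMk aLie1
theorem aHUR : S_HUR := pHUR aGeo
theorem aBr : S_Br := pBr
theorem aB2 : S_B2 := pB2 aBCH aExpLog aBr
theorem aGR : S_GR := pGR aB2 aBr
theorem aCov : S_Cov := pCov aHUR aGeo aB1 aGR aBr aExpLog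
theorem aGenA : S_GenA := pGenA
theorem aUpper : S_Upper := pUpper aCov aHUR aGeo aGenA aLie1
theorem aAuer : S_Auer := pAuer
theorem aU0 : S_U0 := pU0 aLie1 aAuer
theorem aLoop : S_Loop := pLoop aGenA
theorem aOne : S_One := pOneB
theorem aOneD : S_OneD := pOneD aOne
theorem aDbl0 : S_Dbl0 := pDbl0 aLoop aOneD aU0 aGR aB2 aGenA aExpLog aLie1
theorem aDbl : S_Dbl := pDbl aBr aLie1
theorem aLie3 : S_Lie3 := pLie3 aLie1 aB1 aExpLog aBr
theorem aRat : S_Rat := pRat aLie1 aLie3 aExpLog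
theorem aDig : S_Dig := pDig
theorem aWF : S_WF := pWF
theorem aAnn : S_Ann := pAnn aWF
theorem aWC : S_WC := pWC
theorem aMLp : S_MLp := pMLp
theorem aMLa : S_MLa := pMLa
theorem aMLb : S_MLb := pMLb
theorem aML0 : S_ML0 := pML0 aMLa aMLb
theorem aEL : S_EL := pEL aAnn aWC aMLp aML0 aWF
theorem aKLab : S_KLab := pKLab aEL
theorem aAdB : S_AdB := pAdB aLie3 aExpLog
theorem aTel : S_Tel := pTel aAdB aGR aExpLog
theorem aKLg : S_KLg := pKLg aU0 aRat aDig aKLab aTel aAdB aGR aExpLog aLie1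
theorem aKL0 : S_KL0 := pKL0 aKLg aU0 aAuer aGR aLie1
theorem aCmL : S_CmL := pCmL aB2 aBr aExpLog
theorem aLCS : S_LCS := pLCS
theorem aKL : S_KL := pKL aAuer aCmL aLCS aBr aGR aLie1
theorem aSize : S_Size := pSize aGenA aGR aBr aLie1 aExpLog
theorem aCar : S_Car := pCar aAuer aCmL aGR aLCS aSize aLie1 aExpLog
theorem aPar0 : S_Par0 := pPar0 aGenA
theorem aPar : S_Par := pPar aPar0 aLCS aGenA
theorem aLat : S_Lat := pLat aLCS aGenA aWF aEL aPar
theorem aPhA : S_PhA := pPhA aB2 aCmL aGR aSize aLCS aLie1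
theorem aFin : S_Fin := pFin aLie1 aLie3 aLCS
theorem aRI : S_RI := pRI aSize aFin aLie1 aLie3 aGR aBr aAuer aLCS aExpLog
theorem aR0 : S_R0 := pR0 aU0 aDbl0 aDbl aKL0 aKL aCar aLat aPhA aRI aGenA
theorem aCore : S_Core := pCore aTower aLB aMk aUpper aR0 aGeo
theorem aMain : S_Main := pMain aWl aConv aGeo aFI aCC aAmen aKK aFGR aUnip aMatF aMatL aCore

end ANd.All
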