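import Pool.Agent.P.MP_5e7d86_al.St

/-! Basic facts about gauges, brackets and `Ad`. -/

set_option autoImplicit false
set_option linter.unusedSectionVars false
open Classical
open scoped commutatorElement

namespace ANd

section
variable {A : Type} [Ring A] [Algebra ℝ A]

namespace In
variable {Y Y' Y1 Y2 : Set A} {a b c : ℝ} {v w : A}

theorem nonneg (h : In Y a v) : 0 ≤ a := by
  induction h with
  | zero => exact le_rfl
  | mem v _ => exact zero_le_one
  | add a b v w _ _ h1 h2 => positivity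
  | smul t a v _ h1 => positivity
  | mono a b v hab _ h1 => exact h1.trans hab

theorem zero' (h : 0 ≤ a) : In Y a 0 := In.mono 0 a 0 h In.zero

theorem le (h : In Y a v) (hab : a ≤ b) : In Y b v := In.mono a b v hab h

theorem add' (h : In Y a v) (h' : In Y b w) : In Y (a + b) (v + w) := In.add a b v w h h'

theorem smul' (t : ℝ) (h : In Y a v) : In Y (|t| * a) (t • v) := In.smul t a v h

theorem smul_le {t s : ℝ} (h : In Y a v) (ht : |t| ≤ s) : In Y (s * a) (t • v) :=
  (h.smul' t).le (mul_le_mul_of_nonneg_right ht h.nonneg)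

theorem neg (h : In Y a v) : In Y a (-v) := by
  have := h.smul' (-1)
  simpa using this

theorem sub (h : In Y a v) (h' : In Y b w) : In Y (a + b) (v - w) := by
  rw [sub_eq_add_neg]; exact h.add' h'.neg

theorem congr (h : In Y a v) (e : v = w) : In Y a w := e ▸ h

theorem of_mem (h : v ∈ Y) (ha : 1 ≤ a) : In Y a v := (In.mem v h).le ha

/-- Image under a linear map. -/
theorem map (f : A →ₗ[ℝ] A) (hc : 0 ≤ c) (hf : ∀ y ∈ Y, In Y' c (f y)) (h : In Y a v) :
    In Y' (c * a) (f v) := by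
  induction h with
  | zero => simpa using In.zero
  | mem v hv => simpa using hf v hv
  | add a b v w _ _ h1 h2 => rw [map_add, mul_add]; exact h1.add' h2
  | smul t a v _ h1 => rw [map_smul, mul_left_comm]; exact h1.smul' t
  | mono a b v hab _ h1 => exact h1.le (mul_le_mul_of_nonneg_left hab hc)

theorem trans (hc : 0 ≤ c) (hf : ∀ y ∈ Y, In Y' c y) (h : In Y a v) : In Y' (c * a) v :=
  In.map LinearMap.id hc hf h

theorem mono_set (hY : Y ⊆ Y') (h : In Y a v) : In Y' a v := by
  have := In.trans (Y' := Y') zero_le_one (fun y hy => In.mem y (hY hy)) h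
  simpa using this

theorem sum {I : Type} (s : Finset I) (f : I → ℝ) (g : I → A) (h : ∀ i ∈ s, In Y (f i) (g i)) :
    In Y (∑ i ∈ s, f i) (∑ i ∈ s, g i) := by
  induction s using Finset.induction_on with
  | empty => simpa using In.zero
  | insert i s hi ih =>
    rw [Finset.sum_insert hi, Finset.sum_insert hi]
    exact (h i (by simp)).add' (ih fun j hj => h j (by simp [hj]))

theorem sum_le {I : Type} (s : Finset I) (g : I → A) (h : ∀ i ∈ s, In Y a (g i)) :
    In Y (s.card * a) (∑ i ∈ s, g i) := by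
  have := In.sum s (fun _ => a) g h
  simpa using this

theorem list_sum {I : Type} (L : List I) (f : I → ℝ) (g : I → A) (h : ∀ i ∈ L, In Y (f i) (g i)) :
    In Y (L.map f).sum (L.map g).sum := by
  induction L with
  | nil => simpa using In.zero
  | cons i L ih =>
    simp only [List.map_cons, List.sum_cons]
    exact (h i (by simp)).add' (ih fun j hj => h j (by simp [hj]))

theorem list_sum_le {I : Type} (L : List I) (g : I → A) (h : ∀ i ∈ L, In Y a (g i)) :
    In Y (L.length * a) (L.map g).sum := by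
  have := In.list_sum L (fun _ => a) g h
  simpa using this

theorem mem_sub (U : Submodule ℝ A) (hY : Y ⊆ U) (h : In Y a v) : v ∈ U := by
  induction h with
  | zero => exact U.zero_mem
  | mem v hv => exact hY hv
  | add a b v w _ _ h1 h2 => exact U.add_mem h1 h2
  | smul t a v _ h1 => exact U.smul_mem t h1
  | mono a b v _ _ h1 => exact h1

theorem mem_span (h : In Y a v) : v ∈ Submodule.span ℝ Y := h.mem_sub _ Submodule.subset_span

theorem exists_of_span (h : v ∈ Submodule.span ℝ Y) : ∃ a, In Y a v := by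
  induction h using Submodule.span_induction with
  | mem x hx => exact ⟨1, In.mem x hx⟩
  | zero => exact ⟨0, In.zero⟩
  | add x y _ _ h1 h2 =>
    obtain ⟨a, ha⟩ := h1
    obtain ⟨b, hb⟩ := h2
    exact ⟨_, ha.add' hb⟩
  | smul t x _ h1 =>
    obtain ⟨a, ha⟩ := h1
    exact ⟨_, ha.smul' t⟩

/-- A finite set inside the span is uniformly bounded. -/
theorem exists_unif {S : Set A} (hS : S.Finite) (h : S ⊆ Submodule.span ℝ Y) :
    ∃ C : ℝ, 0 ≤ C ∧ ∀ v ∈ S, In Y C v := by
  induction S, hS using Set.Finite.induction_on with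
  | empty => exact ⟨0, le_rfl, by simp⟩
  | @insert x S _ _ ih =>
    obtain ⟨C, hC, h1⟩ := ih (fun y hy => h (Set.mem_insert_of_mem _ hy))
    obtain ⟨a, ha⟩ := In.exists_of_span (h (Set.mem_insert _ _))
    refine ⟨max C a, le_max_of_le_left hC, ?_⟩
    rintro v (rfl | hv)
    · exact ha.le (le_max_right _ _)
    · exact (h1 v hv).le (le_max_left _ _)

/-- Splitting into two gauges, after a linear map. -/
theorem split_map (f : A →ₗ[ℝ] A) (hc : 0 ≤ c)
    (hf : ∀ y ∈ Y, ∃ y', In Y1 c y' ∧ In Y2 c (f y - y')) (h : In Y a v) :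
    ∃ v', In Y1 (c * a) v' ∧ In Y2 (c * a) (f v - v') := by
  induction h with
  | zero => exact ⟨0, by simpa using In.zero, by simpa using In.zero⟩
  | mem v hv => simpa using hf v hv
  | add a b v w _ _ h1 h2 =>
    obtain ⟨x, hx, hx'⟩ := h1
    obtain ⟨y, hy, hy'⟩ := h2
    refine ⟨x + y, by rw [mul_add]; exact hx.add' hy, ?_⟩
    rw [mul_add]
    exact (hx'.add' hy').congr (by rw [map_add]; abel)
  | smul t a v _ h1 =>
    obtain ⟨x, hx, hx'⟩ := h1
    refine ⟨t • x, by rw [mul_left_comm]; exact hx.smul' t, ?_⟩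
    rw [mul_left_comm]
    exact (hx'.smul' t).congr (by rw [map_smul, smul_sub])
  | mono a b v hab _ h1 =>
    obtain ⟨x, hx, hx'⟩ := h1
    exact ⟨x, hx.le (mul_le_mul_of_nonneg_left hab hc), hx'.le (mul_le_mul_of_nonneg_left hab hc)⟩

theorem split (hc : 0 ≤ c) (hf : ∀ y ∈ Y, ∃ y', In Y1 c y' ∧ In Y2 c (y - y')) (h : In Y a v) :
    ∃ v', In Y1 (c * a) v' ∧ In Y2 (c * a) (v - v') :=
  In.split_map LinearMap.id hc hf h

theorem split_union (h : In (Y1 ∪ Y2) a v) : ∃ v', In Y1 a v' ∧ In Y2 a (v - v') := by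
  have := In.split (Y1 := Y1) (Y2 := Y2) zero_le_one ?_ h
  · simpa using this
  · rintro y (hy | hy)
    · exact ⟨y, In.mem y hy, by simpa using In.zero' zero_le_one⟩
    · exact ⟨0, In.zero' zero_le_one, by simpa using In.mem y hy⟩

/-- Splitting into two gauges and a subspace. -/
theorem split_sub (U : Submodule ℝ A) (hc : 0 ≤ c)
    (hf : ∀ y ∈ Y, ∃ y', ∃ u ∈ U, In Y1 c y' ∧ In Y2 c (y - y' - u)) (h : In Y a v) :
    ∃ v', ∃ u ∈ U, In Y1 (c * a) v' ∧ In Y2 (c * a) (v - v' - u) := by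
  induction h with
  | zero => exact ⟨0, 0, U.zero_mem, by simpa using In.zero, by simpa using In.zero⟩
  | mem v hv => simpa using hf v hv
  | add a b v w _ _ h1 h2 =>
    obtain ⟨x, u, hu, hx, hx'⟩ := h1
    obtain ⟨y, u', hu', hy, hy'⟩ := h2
    refine ⟨x + y, u + u', U.add_mem hu hu', by rw [mul_add]; exact hx.add' hy, ?_⟩
    rw [mul_add]
    exact (hx'.add' hy').congr (by abel)
  | smul t a v _ h1 =>
    obtain ⟨x, u, hu, hx, hx'⟩ := h1
    refine ⟨t • x, t • u, U.smul_mem t hu, by rw [mul_left_comm]; exact hx.smul' t, ?_⟩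
    rw [mul_left_comm]
    exact (hx'.smul' t).congr (by rw [smul_sub, smul_sub])
  | mono a b v hab _ h1 =>
    obtain ⟨x, u, hu, hx, hx'⟩ := h1
    exact ⟨x, u, hu, hx.le (mul_le_mul_of_nonneg_left hab hc),
      hx'.le (mul_le_mul_of_nonneg_left hab hc)⟩

/-- Approximation modulo a subspace. -/
theorem lift_sub (U : Submodule ℝ A) (hc : 0 ≤ c)
    (hf : ∀ y ∈ Y, ∃ u ∈ U, In Y' c (y - u)) (h : In Y a v) : ∃ u ∈ U, In Y' (c * a) (v - u) := by
  obtain ⟨v', u, hu, h1, h2⟩ := In.split_sub (Y1 := ∅) (Y2 := Y') U hc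
    (fun y hy => by
      obtain ⟨u, hu, h1⟩ := hf y hy
      exact ⟨0, u, hu, In.zero' hc, by simpa using h1⟩) h
  have : v' = 0 := by simpa using h1.mem_span
  subst this
  exact ⟨u, hu, by simpa using h2⟩

theorem abs_le (f : A →ₗ[ℝ] ℝ) {M : ℝ} (hM : 0 ≤ M) (hf : ∀ y ∈ Y, |f y| ≤ M) (h : In Y a v) :
    |f v| ≤ M * a := by
  induction h with
  | zero => simp
  | mem v hv => simpa using hf v hv
  | add a b v w _ _ h1 h2 => rw [map_add, mul_add]; exact (abs_add_le _ _).trans (add_le_add h1 h2)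
  | smul t a v _ h1 =>
    rw [map_smul, smul_eq_mul, abs_mul, mul_left_comm]
    exact mul_le_mul_of_nonneg_left h1 (abs_nonneg t)
  | mono a b v hab _ h1 => exact h1.trans (mul_le_mul_of_nonneg_left hab hM)

/-- An element of a gauge ball is a finite combination. -/
theorem exists_list (h : In Y a v) : ∃ L : List (ℝ × A), (∀ p ∈ L, p.2 ∈ Y) ∧
    (L.map fun p => |p.1|).sum ≤ a ∧ v = (L.map fun p => p.1 • p.2).sum := by
  induction h with
  | zero => exact ⟨[], by simp, by simp, by simp⟩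
  | mem v hv => exact ⟨[(1, v)], by simpa using hv, by simp, by simp⟩
  | add a b v w _ _ h1 h2 =>
    obtain ⟨L, l1, l2, l3⟩ := h1
    obtain ⟨M, m1, m2, m3⟩ := h2
    refine ⟨L ++ M, ?_, ?_, ?_⟩
    · intro p hp
      rcases List.mem_append.1 hp with hp | hp
      · exact l1 p hp
      · exact m1 p hp
    · simp only [List.map_append, List.sum_append]; linarith
    · simp only [List.map_append, List.sum_append]; rw [l3, m3]
  | smul t a v _ h1 =>
    obtain ⟨L, l1, l2, l3⟩ := h1
    refine ⟨L.map fun p => (t * p.1, p.2), ?_, ?_, ?_⟩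
    · intro p hp
      obtain ⟨q, hq, rfl⟩ := List.mem_map.1 hp
      exact l1 q hq
    · refine le_trans (le_of_eq ?_) (mul_le_mul_of_nonneg_left l2 (abs_nonneg t))
      rw [List.map_map, ← List.sum_map_mul_left]
      congr 1
      exact List.map_congr_left fun p _ => by simp [abs_mul]
    · rw [l3, List.map_map, List.smul_sum, List.map_map]
      congr 1
      exact List.map_congr_left fun p _ => by simp [mul_smul]
  | mono a b v hab _ h1 =>
    obtain ⟨L, l1, l2, l3⟩ := h1
    exact ⟨L, l1, l2.trans hab, l3⟩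

end In

/-! ### Brackets -/

/-- The bracket as a bilinear map. -/
def brL : A →ₗ[ℝ] A →ₗ[ℝ] A :=
  LinearMap.mk₂ ℝ br (fun x y z => by unfold br; noncomm_ring)
    (fun t x y => by unfold br; simp [smul_sub])
    (fun x y z => by unfold br; noncomm_ring) (fun t x y => by unfold br; simp [smul_sub])

@[simp] theorem brL_apply (x y : A) : brL x y = br x y := rfl

theorem br_add_left (x y z : A) : br (x + y) z = br x z + br y z := by unfold br; noncomm_ring
theorem br_add_right (x y z : A) : br x (y + z) = br x y + br x z := by unfold br; noncomm_ring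
theorem br_sub_left (x y z : A) : br (x - y) z = br x z - br y z := by unfold br; noncomm_ring
theorem br_sub_right (x y z : A) : br x (y - z) = br x y - br x z := by unfold br; noncomm_ring
theorem br_neg_left (x y : A) : br (-x) y = -br x y := by unfold br; noncomm_ring
theorem br_neg_right (x y : A) : br x (-y) = -br x y := by unfold br; noncomm_ring
theorem br_smul_left (t : ℝ) (x y : A) : br (t • x) y = t • br x y := by unfold br; simp [smul_sub]
theorem br_smul_right (t : ℝ) (x y : A) : br x (t • y) = t • br x y := by unfold br; simp [smul_sub]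
@[simp] theorem br_zero_left (x : A) : br 0 x = 0 := by unfold br; simp
@[simp] theorem br_zero_right (x : A) : br x 0 = 0 := by unfold br; simp
@[simp] theorem br_self (x : A) : br x x = 0 := by unfold br; simp
theorem br_swap (x y : A) : br x y = -br y x := by unfold br; noncomm_ring
theorem br_jacobi (x y z : A) : br (br x y) z = br x (br y z) - br y (br x z) := by
  unfold br; noncomm_ring
theorem br_leibniz (x y z : A) : br x (br y z) = br (br x y) z + br y (br x z) := by
  unfold br; noncomm_ring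

@[simp] theorem nest_zero (v : Fin 1 → A) : nest 0 v = v 0 := rfl
theorem nest_succ (i : ℕ) (v : Fin (i + 2) → A) :
    nest (i + 1) v = br (v 0) (nest i fun u => v u.succ) := rfl
theorem nest_cons (i : ℕ) (x : A) (v : Fin (i + 1) → A) :
    nest (i + 1) (Fin.cons x v : Fin (i + 2) → A) = br x (nest i v) := by
  rw [nest_succ]; simp

theorem update_succ_zero {α : Type} {i : ℕ} (v : Fin (i + 1) → α) (x : α) :
    (fun u : Fin i => Function.update v 0 x u.succ) = fun u => v u.succ := by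
  funext u; rw [Function.update_of_ne (Fin.succ_ne_zero u)]

theorem update_succ_succ {α : Type} {i : ℕ} (v : Fin (i + 1) → α) (s : Fin i) (x : α) :
    (fun u : Fin i => Function.update v s.succ x u.succ) =
      Function.update (fun u : Fin i => v u.succ) s x := by
  funext u
  by_cases h : u = s
  · subst h; simp
  · rw [Function.update_of_ne h, Function.update_of_ne (fun e => h (Fin.succ_injective _ e))]

theorem nest_update_add : ∀ (i : ℕ) (v : Fin (i + 1) → A) (s : Fin (i + 1)) (x y : A),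
    nest i (Function.update v s (x + y)) =
      nest i (Function.update v s x) + nest i (Function.update v s y)
  | 0, v, s, x, y => by
    have : s = 0 := Fin.fin_one_eq_zero s
    subst this; simp
  | i + 1, v, s, x, y => by
    refine Fin.cases ?_ (fun s => ?_) s
    · simp only [nest_succ, update_succ_zero, Function.update_self, br_add_left]
    · simp only [nest_succ, update_succ_succ, Function.update_of_ne (Fin.succ_ne_zero s).symm]
      rw [nest_update_add i, br_add_right]

theorem nest_update_smul : ∀ (i : ℕ) (v : Fin (i + 1) → A) (s : Fin (i + 1)) (t : ℝ) (x : A),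
    nest i (Function.update v s (t • x)) = t • nest i (Function.update v s x)
  | 0, v, s, t, x => by
    have : s = 0 := Fin.fin_one_eq_zero s
    subst this; simp
  | i + 1, v, s, t, x => by
    refine Fin.cases ?_ (fun s => ?_) s
    · simp only [nest_succ, update_succ_zero, Function.update_self, br_smul_left]
    · simp only [nest_succ, update_succ_succ, Function.update_of_ne (Fin.succ_ne_zero s).symm]
      rw [nest_update_smul i, br_smul_right]

/-- The nested bracket as a multilinear map. -/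
def nestM (i : ℕ) : MultilinearMap ℝ (fun _ : Fin (i + 1) => A) A where
  toFun := nest i
  map_update_add' := fun {d} v s x y => by
    obtain rfl : d = instDecidableEqFin (i + 1) := Subsingleton.elim _ _
    exact nest_update_add i v s x y
  map_update_smul' := fun {d} v s t x => by
    obtain rfl : d = instDecidableEqFin (i + 1) := Subsingleton.elim _ _
    exact nest_update_smul i v s t x

@[simp] theorem nestM_apply (i : ℕ) (v : Fin (i + 1) → A) : nestM i v = nest i v := rfl

/-- One slot of the nested bracket as a linear map. -/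
def nestS (i : ℕ) (v : Fin (i + 1) → A) (s : Fin (i + 1)) : A →ₗ[ℝ] A where
  toFun x := nest i (Function.update v s x)
  map_add' := nest_update_add i v s
  map_smul' := nest_update_smul i v s

@[simp] theorem nestS_apply (i : ℕ) (v : Fin (i + 1) → A) (s : Fin (i + 1)) (x : A) :
    nestS i v s x = nest i (Function.update v s x) := rfl

theorem nest_mem (V : Submodule ℝ A) (hV : ∀ x ∈ V, ∀ y ∈ V, br x y ∈ V) :
    ∀ (i : ℕ) (v : Fin (i + 1) → A), (∀ u, v u ∈ V) → nest i v ∈ V
  | 0, _, h => h 0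
  | i + 1, _, h => hV _ (h 0) _ (nest_mem V hV i _ fun u => h u.succ)

theorem TE_zero (Y : Set A) : TE Y 0 = Y := by
  ext w
  constructor
  · rintro ⟨v, hv, rfl⟩; exact hv 0
  · intro h; exact ⟨fun _ => w, fun _ => h, rfl⟩

theorem TE_mono {Y Y' : Set A} (h : Y ⊆ Y') (i : ℕ) : TE Y i ⊆ TE Y' i := by
  rintro w ⟨v, hv, rfl⟩; exact ⟨v, fun u => h (hv u), rfl⟩

theorem TG_mono {Y Y' : Set A} (h : Y ⊆ Y') (i : ℕ) : TG Y i ⊆ TG Y' i := by
  rintro w ⟨j, hj, hw⟩; exact ⟨j, hj, TE_mono h j hw⟩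

theorem TG_anti (Y : Set A) {i j : ℕ} (h : i ≤ j) : TG Y j ⊆ TG Y i := by
  rintro w ⟨k, hk, hw⟩; exact ⟨k, h.trans hk, hw⟩

theorem TE_sub_TG (Y : Set A) (i : ℕ) : TE Y i ⊆ TG Y i := fun _ hw => ⟨i, le_rfl, hw⟩

theorem sub_TG (Y : Set A) : Y ⊆ TG Y 0 := fun _ hw => ⟨0, le_rfl, by rw [TE_zero]; exact hw⟩

theorem TG_eq (Y : Set A) (i : ℕ) : TG Y i = TE Y i ∪ TG Y (i + 1) := by
  ext w
  constructor
  · rintro ⟨j, hj, hw⟩
    rcases hj.eq_or_lt with rfl | hj
    · exact Or.inl hw
    · exact Or.inr ⟨j, hj, hw⟩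
  · rintro (hw | hw)
    · exact TE_sub_TG Y i hw
    · exact TG_anti Y (Nat.le_succ i) hw

theorem br_mem_TE {Y : Set A} {x w : A} {i : ℕ} (hx : x ∈ Y) (hw : w ∈ TE Y i) :
    br x w ∈ TE Y (i + 1) := by
  obtain ⟨v, hv, rfl⟩ := hw
  refine ⟨Fin.cons x v, fun u => ?_, (nest_cons i x v).symm⟩
  refine Fin.cases ?_ (fun u => ?_) u
  · simpa using hx
  · simpa using hv u

theorem br_mem_TG {Y : Set A} {x w : A} {i : ℕ} (hx : x ∈ Y) (hw : w ∈ TG Y i) :
    br x w ∈ TG Y (i + 1) := by
  obtain ⟨j, hj, hw⟩ := hw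
  exact ⟨j + 1, by omega, br_mem_TE hx hw⟩

theorem TE_finite {Y : Set A} (hY : Y.Finite) (i : ℕ) : (TE Y i).Finite := by
  have : (Set.pi Set.univ fun _ : Fin (i + 1) => Y).Finite := Set.Finite.pi fun _ => hY
  refine (this.image (nest i)).subset ?_
  rintro w ⟨v, hv, rfl⟩
  exact ⟨v, fun u _ => hv u, rfl⟩

theorem TE_sub (V : Submodule ℝ A) (hV : ∀ x ∈ V, ∀ y ∈ V, br x y ∈ V) {Y : Set A} (hY : Y ⊆ V)
    (i : ℕ) : TE Y i ⊆ V := by
  rintro w ⟨v, hv, rfl⟩; exact nest_mem V hV i v fun u => hY (hv u)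

theorem TG_sub (V : Submodule ℝ A) (hV : ∀ x ∈ V, ∀ y ∈ V, br x y ∈ V) {Y : Set A} (hY : Y ⊆ V)
    (i : ℕ) : TG Y i ⊆ V := by
  rintro w ⟨j, _, hw⟩; exact TE_sub V hV hY j hw

theorem In.TG_anti {Y : Set A} {i j : ℕ} {a : ℝ} {v : A} (h : In (TG Y j) a v) (hij : i ≤ j) :
    In (TG Y i) a v := h.mono_set (ANd.TG_anti Y hij)

theorem In.TG_mono {Y Y' : Set A} {i : ℕ} {a : ℝ} {v : A} (h : In (TG Y i) a v) (hY : Y ⊆ Y') :
    In (TG Y' i) a v := h.mono_set (ANd.TG_mono hY i)

theorem In.TE_TG {Y : Set A} {i : ℕ} {a : ℝ} {v : A} (h : In (TE Y i) a v) :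
    In (TG Y i) a v := h.mono_set (TE_sub_TG Y i)

/-! ### The adjoint action -/

/-- `Ad u` as an algebra homomorphism. -/
def AdH (u : Aˣ) : A →ₐ[ℝ] A where
  toFun := Ad u
  map_one' := by simp [Ad]
  map_mul' x y := by simp [Ad, mul_assoc]
  map_zero' := by simp [Ad]
  map_add' x y := by simp [Ad, mul_add, add_mul]
  commutes' r := by
    simp only [Ad, Algebra.algebraMap_eq_smul_one]
    simp

@[simp] theorem AdH_apply (u : Aˣ) (y : A) : AdH u y = Ad u y := rfl

theorem Ad_one (y : A) : Ad 1 y = y := by simp [Ad]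
theorem Ad_mul (u u' : Aˣ) (y : A) : Ad (u * u') y = Ad u (Ad u' y) := by simp [Ad, mul_assoc]
theorem Ad_inv_Ad (u : Aˣ) (y : A) : Ad u⁻¹ (Ad u y) = y := by rw [← Ad_mul]; simp [Ad_one]
theorem Ad_Ad_inv (u : Aˣ) (y : A) : Ad u (Ad u⁻¹ y) = y := by rw [← Ad_mul]; simp [Ad_one]
theorem Ad_add (u : Aˣ) (x y : A) : Ad u (x + y) = Ad u x + Ad u y := map_add (AdH u) x y
theorem Ad_sub (u : Aˣ) (x y : A) : Ad u (x - y) = Ad u x - Ad u y := map_sub (AdH u) x y
theorem Ad_neg (u : Aˣ) (x : A) : Ad u (-x) = -Ad u x := map_neg (AdH u) x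
theorem Ad_zero (u : Aˣ) : Ad u (0 : A) = 0 := map_zero (AdH u)
theorem Ad_smul (u : Aˣ) (t : ℝ) (x : A) : Ad u (t • x) = t • Ad u x := map_smul (AdH u) t x
theorem Ad_mul' (u : Aˣ) (x y : A) : Ad u (x * y) = Ad u x * Ad u y := map_mul (AdH u) x y
theorem Ad_br (u : Aˣ) (x y : A) : Ad u (br x y) = br (Ad u x) (Ad u y) := by
  unfold br; rw [Ad_sub, Ad_mul', Ad_mul']
theorem Ad_units (u g : Aˣ) : Ad u (g : A) = ((u * g * u⁻¹ : Aˣ) : A) := by simp [Ad]

theorem Nrm.one (V : Submodule ℝ A) : Nrm 1 V := fun y hy => by simpa [Ad_one] using hy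
theorem Nrm.inv {V : Submodule ℝ A} {u : Aˣ} (h : Nrm u V) : Nrm u⁻¹ V :=
  fun y hy => ⟨(h y hy).2, by simpa using (h y hy).1⟩
theorem Nrm.mul {V : Submodule ℝ A} {u u' : Aˣ} (h : Nrm u V) (h' : Nrm u' V) : Nrm (u * u') V :=
  fun y hy => ⟨by rw [Ad_mul]; exact (h _ (h' y hy).1).1,
    by rw [mul_inv_rev, Ad_mul]; exact (h' _ (h y hy).2).2⟩
theorem Nrm.zpow {V : Submodule ℝ A} {u : Aˣ} (h : Nrm u V) (z : ℤ) : Nrm (u ^ z) V := by
  induction z using Int.induction_on with
  | zero => simpa using Nrm.one V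
  | succ n ih => rw [zpow_add_one]; exact ih.mul h
  | pred n ih => rw [zpow_sub_one]; exact ih.mul h.inv

theorem mem_Vp {B0 : Set A} {u : Aˣ} {v : A} : v ∈ Vp B0 u ↔ v ∈ Ctr B0 u := by
  refine ⟨fun h => ?_, fun h => Submodule.subset_span h⟩
  induction h using Submodule.span_induction with
  | mem x hx => exact hx
  | zero => exact fun ep hep => ⟨0, fun n _ => by rw [Ad_zero]; exact In.zero' hep.le⟩
  | add x y _ _ h1 h2 =>
    intro ep hep
    obtain ⟨n1, h1⟩ := h1 (ep / 2) (by positivity)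
    obtain ⟨n2, h2⟩ := h2 (ep / 2) (by positivity)
    refine ⟨max n1 n2, fun n hn => ?_⟩
    rw [Ad_add]
    exact ((h1 n (le_of_max_le_left hn)).add' (h2 n (le_of_max_le_right hn))).le (by linarith)
  | smul t x _ h1 =>
    intro ep hep
    have ht : 0 < |t| + 1 := by positivity
    obtain ⟨n1, h1⟩ := h1 (ep / (|t| + 1)) (by positivity)
    refine ⟨n1, fun n hn => ?_⟩
    rw [Ad_smul]
    refine ((h1 n hn).smul_le (s := |t| + 1) (by linarith)).le (le_of_eq ?_)
    field_simp

theorem Vp_Ad_zpow {B0 : Set A} {u : Aˣ} {v : A} (h : v ∈ Vp B0 u) (z : ℤ) :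
    Ad (u ^ z) v ∈ Vp B0 u := by
  rw [mem_Vp] at h ⊢
  intro ep hep
  obtain ⟨n0, h⟩ := h ep hep
  refine ⟨n0 + z.natAbs, fun n hn => ?_⟩
  obtain ⟨m, hm⟩ : ∃ m : ℕ, (n : ℤ) - z = m := ⟨((n : ℤ) - z).toNat, by omega⟩
  have e : u⁻¹ ^ n * u ^ z = u⁻¹ ^ m := by
    rw [inv_pow, inv_pow, ← zpow_natCast, ← zpow_natCast, ← zpow_neg, ← zpow_neg, ← zpow_add]
    congr 1; omega
  rw [← Ad_mul, e]
  exact h m (by omega)

theorem Vp_le {B0 : Set A} {u : Aˣ} (h : Nrm u (Submodule.span ℝ B0)) :
    Vp B0 u ≤ Submodule.span ℝ B0 := by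
  intro v hv
  obtain ⟨n, hn⟩ := mem_Vp.1 hv 1 one_pos
  have := ((h.zpow n) _ (hn n le_rfl).mem_span).1
  rwa [← Ad_mul, zpow_natCast, inv_pow, mul_inv_cancel, Ad_one] at this

theorem LL_one (D : NilD A) : D.LL 1 = 0 := by simp [NilD.LL, lg]

theorem NilD.br_mem (D : NilD A) : ∀ x ∈ D.U, ∀ y ∈ D.U, br x y ∈ D.U :=
  fun x hx y hy => D.U.sub_mem (D.mul x hx y hy) (D.mul y hy x hx)

end

end ANd
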