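import Pool.Agent.P.MP_5e7d86_al.BWin
import Pool.Agent.P.MP_5e7d86_al.BIn

/-! Basic facts about `Rp`, length functions and the filtration subgroups. -/

set_option autoImplicit false
set_option linter.unusedSectionVars false
open Classical
open scoped commutatorElement

namespace ANd

section Len
variable {G : Type} [Group G] {l : G → ℕ}

theorem IsLen.pow (H : IsLen l) (g : G) : ∀ n : ℕ, l (g ^ n) ≤ n * l g
  | 0 => by simp [H.one]
  | n + 1 => by
    rw [pow_succ, Nat.succ_mul]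
    exact (H.mul _ _).trans (Nat.add_le_add_right (H.pow g n) _)

theorem IsLen.zpow (H : IsLen l) (g : G) (n : ℤ) : l (g ^ n) ≤ n.natAbs * l g := by
  obtain ⟨m, rfl | rfl⟩ := n.eq_nat_or_neg
  · simpa using H.pow g m
  · simpa [H.inv] using H.pow g m

theorem IsLen.mul3 (H : IsLen l) (a b c : G) : l (a * b * c) ≤ l a + l b + l c :=
  (H.mul _ _).trans (Nat.add_le_add_right (H.mul _ _) _)

theorem IsLen.conj (H : IsLen l) (a b : G) : l (a * b * a⁻¹) ≤ 2 * l a + l b := by
  have := H.mul3 a b a⁻¹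
  rw [H.inv] at this; omega

theorem IsLen.tri (H : IsLen l) (a b c : G) : l (a⁻¹ * c) ≤ l (a⁻¹ * b) + l (b⁻¹ * c) := by
  have := H.mul (a⁻¹ * b) (b⁻¹ * c)
  simpa [mul_assoc] using this

theorem IsLen.symm (H : IsLen l) (a b : G) : l (a⁻¹ * b) = l (b⁻¹ * a) := by
  rw [← H.inv]; simp

theorem IsLen.prod (H : IsLen l) : ∀ L : List G, l L.prod ≤ (L.map l).sum
  | [] => by simp [H.one]
  | x :: L => by
    simp only [List.prod_cons, List.map_cons, List.sum_cons]
    exact (H.mul _ _).trans (Nat.add_le_add_left (H.prod L) _)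

theorem IsLen.prod_le (H : IsLen l) (L : List G) (K : ℕ) (h : ∀ x ∈ L, l x ≤ K) :
    l L.prod ≤ L.length * K := by
  refine (H.prod L).trans ?_
  have := List.sum_le_card_nsmul (L.map l) K (by simpa using h)
  simpa using this

theorem IsLen.comm (H : IsLen l) (a b : G) : l ⁅a, b⁆ ≤ 2 * l a + 2 * l b := by
  rw [commutatorElement_def]
  have h1 := H.mul (a * b * a⁻¹) b⁻¹
  have h2 := H.conj a b
  rw [H.inv] at h1; omega

theorem IsLen.cm (H : IsLen l) (K : ℕ) : ∀ (i : ℕ) (v : Fin (i + 1) → G), (∀ u, l (v u) ≤ K) →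
    l (cm i v) ≤ 4 ^ i * K
  | 0, v, h => by simpa [ANd.cm] using h 0
  | i + 1, v, h => by
    have h1 := H.comm (v 0) (ANd.cm i fun u => v u.succ)
    have h2 := H.cm K i (fun u => v u.succ) fun u => h u.succ
    have h3 := h 0
    have h4 : K ≤ 4 ^ i * K := Nat.le_mul_of_pos_left _ (by positivity)
    have : ANd.cm (i + 1) v = ⁅v 0, ANd.cm i fun u => v u.succ⁆ := rfl
    rw [this, pow_succ]
    nlinarith

theorem cm_zero (v : Fin 1 → G) : cm 0 v = v 0 := rfl

theorem cm_succ (i : ℕ) (v : Fin (i + 2) → G) :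
    cm (i + 1) v = ⁅v 0, cm i fun u => v u.succ⁆ := rfl

theorem map_cm {H : Type} [Group H] (f : G →* H) : ∀ (i : ℕ) (v : Fin (i + 1) → G),
    f (cm i v) = cm i fun u => f (v u)
  | 0, _ => rfl
  | i + 1, v => by rw [cm_succ, cm_succ, map_commutatorElement, map_cm f i]

theorem cm_mem (E : Subgroup G) : ∀ (i : ℕ) (v : Fin (i + 1) → G), (∀ u, v u ∈ E) → cm i v ∈ E
  | 0, _, h => h 0
  | i + 1, v, h => by
    have := cm_mem E i (fun u => v u.succ) fun u => h u.succ
    rw [cm_succ, commutatorElement_def]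
    exact E.mul_mem (E.mul_mem (E.mul_mem (h 0) this) (E.inv_mem (h 0))) (E.inv_mem this)

theorem map_sp {H : Type} [Group H] (f : G →* H) {d : ℕ} (t : Fin d → G) (q : Fin d → ℤ) :
    f (sp t q) = sp (fun a => f (t a)) q := by
  unfold sp
  rw [map_list_prod, List.map_ofFn]
  congr 2
  funext a; simp

theorem sp_zero {d : ℕ} (t : Fin d → G) : sp t 0 = 1 := by
  unfold sp
  apply List.prod_eq_one
  intro x hx
  obtain ⟨a, rfl⟩ := (List.mem_ofFn' _ _).1 hx
  simp

theorem lcs_mono {E E' : Subgroup G} (h : E ≤ E') : ∀ i,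
    E.lowerCentralSeries i ≤ E'.lowerCentralSeries i
  | 0 => h
  | i + 1 => Subgroup.commutator_mono (lcs_mono h i) h

theorem lcs_le (E : Subgroup G) (i : ℕ) : E.lowerCentralSeries i ≤ E :=
  E.lowerCentralSeries_antitone (Nat.zero_le i)

theorem lcs_conj (E : Subgroup G) (i : ℕ) {g x : G} (hg : g ∈ E)
    (hx : x ∈ E.lowerCentralSeries i) : g * x * g⁻¹ ∈ E.lowerCentralSeries i :=
  (Subgroup.mem_normalizer_iff.1 (E.self_le_normalizer_lowerCentralSeries i hg) x).1 hx

theorem lcs_comm (E : Subgroup G) (i : ℕ) {g x : G} (hg : g ∈ E)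
    (hx : x ∈ E.lowerCentralSeries i) : ⁅g, x⁆ ∈ E.lowerCentralSeries (i + 1) := by
  rw [Subgroup.lowerCentralSeries_succ, Subgroup.commutator_comm]
  exact Subgroup.commutator_mem_commutator hg hx

end Len

/-! ### `Rp` -/

section RpS
variable {G : Type} [Group G] {ι : Type} {A B B' : Subgroup G} {c : (ι → ℤ) → G}
  {W W' : Set (ι → ℤ)} {lam mu : ZH ι} {x y : G}

theorem Sec.conj (S : Sec A B c W) {a b : G} (ha : a ∈ A) (hb : b ∈ B) : a * b * a⁻¹ ∈ B := by
  have : ⁅a, b⁆ ∈ B := S.ab (Subgroup.commutator_mem_commutator ha (S.le hb))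
  have := B.mul_mem this hb
  simpa [commutatorElement_def] using this

theorem Sec.comm (S : Sec A B c W) {a b : G} (ha : a ∈ A) (hb : b ∈ A) : ⁅a, b⁆ ∈ B :=
  S.ab (Subgroup.commutator_mem_commutator ha hb)

namespace Rp

theorem mono (h : Rp B c W lam x) (hB : B ≤ B') (hW : W ⊆ W') : Rp B' c W' lam x := by
  induction h with
  | base x hx => exact Rp.base x (hB hx)
  | pos h lam x hh _ ih => exact Rp.pos h lam x (hW hh) ih
  | neg h lam x hh _ ih => exact Rp.neg h lam x (hW hh) ih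

theorem cast (h : Rp B c W lam x) (e : lam = mu) (e' : x = y) : Rp B c W mu y := e ▸ e' ▸ h

theorem zero : Rp B c W 0 1 := Rp.base 1 B.one_mem

theorem mem (S : Sec A B c W) (h : Rp B c W lam x) : x ∈ A := by
  induction h with
  | base x hx => exact S.le hx
  | pos h lam x hh _ ih => exact A.mul_mem ih (S.mem h hh)
  | neg h lam x hh _ ih => exact A.mul_mem ih (A.inv_mem (S.mem h hh))

theorem mul_right (S : Sec A B c W) (h : Rp B c W lam x) {b : G} (hb : b ∈ B) :
    Rp B c W lam (x * b) := by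
  induction h generalizing b with
  | base x hx => exact Rp.base _ (B.mul_mem hx hb)
  | pos h lam x hh _ ih =>
    exact (Rp.pos h lam _ hh (ih (S.conj (S.mem h hh) hb))).cast rfl (by group)
  | neg h lam x hh _ ih =>
    exact (Rp.neg h lam _ hh (ih (S.conj (A.inv_mem (S.mem h hh)) hb))).cast rfl (by group)

theorem congr (S : Sec A B c W) (h : Rp B c W lam x) (e : x⁻¹ * y ∈ B) : Rp B c W lam y :=
  (h.mul_right S e).cast rfl (by group)

theorem mul (S : Sec A B c W) (h : Rp B c W lam x) (h' : Rp B c W mu y) :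
    Rp B c W (lam + mu) (x * y) := by
  induction h' with
  | base y hy => exact (h.mul_right S hy).cast (by simp) rfl
  | pos g mu y hg _ ih => exact (Rp.pos g _ _ hg ih).cast (by abel) (by group)
  | neg g mu y hg _ ih => exact (Rp.neg g _ _ hg ih).cast (by abel) (by group)

theorem inv (S : Sec A B c W) (h : Rp B c W lam x) : Rp B c W (-lam) x⁻¹ := by
  induction h with
  | base x hx => exact (Rp.base _ (B.inv_mem hx)).cast (by simp) rfl
  | pos g lam x hg h0 ih =>
    refine ((Rp.neg g _ _ hg ih).congr S ?_).cast (by abel) rfl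
    have := S.comm (S.mem g hg) (h0.mem S)
    simpa [commutatorElement_def, mul_assoc] using this
  | neg g lam x hg h0 ih =>
    refine ((Rp.pos g _ _ hg ih).congr S ?_).cast (by abel) rfl
    have := S.comm (A.inv_mem (S.mem g hg)) (h0.mem S)
    simpa [commutatorElement_def, mul_assoc] using this

theorem tau {h : ι → ℤ} (hh : h ∈ W) : Rp B c W (tau h) (c h) :=
  (Rp.pos h 0 1 hh Rp.zero).cast (by simp) (by simp)

theorem pow (S : Sec A B c W) (h : Rp B c W lam x) : ∀ n : ℕ, Rp B c W (n • lam) (x ^ n)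
  | 0 => Rp.zero.cast (by simp) (by simp)
  | n + 1 => ((h.pow S n).mul S h).cast (by rw [succ_nsmul]) (by rw [pow_succ])

theorem zpow (S : Sec A B c W) (h : Rp B c W lam x) (n : ℤ) : Rp B c W (n • lam) (x ^ n) := by
  obtain ⟨m, rfl | rfl⟩ := n.eq_nat_or_neg
  · simpa using h.pow S m
  · simpa using (h.pow S m).inv S

theorem list (S : Sec A B c W) {I : Type} (L : List I) (f : I → ZH ι) (g : I → G)
    (h : ∀ i ∈ L, Rp B c W (f i) (g i)) : Rp B c W (L.map f).sum (L.map g).prod := by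
  induction L with
  | nil => exact Rp.zero
  | cons i L ih =>
    simp only [List.map_cons, List.sum_cons, List.prod_cons]
    exact (h i (by simp)).mul S (ih fun j hj => h j (by simp [hj]))

theorem add_one (S : Sec A B c W) (h : Rp B c W lam 1) (h' : Rp B c W mu 1) :
    Rp B c W (lam + mu) 1 := (h.mul S h').cast rfl (by simp)

theorem neg_one (S : Sec A B c W) (h : Rp B c W lam 1) : Rp B c W (-lam) 1 :=
  (h.inv S).cast rfl (by simp)

theorem zsmul_one (S : Sec A B c W) (h : Rp B c W lam 1) (n : ℤ) : Rp B c W (n • lam) 1 :=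
  (h.zpow S n).cast rfl (by simp)

theorem sum_one (S : Sec A B c W) {I : Type} (s : Finset I) (f : I → ZH ι)
    (h : ∀ i ∈ s, Rp B c W (f i) 1) : Rp B c W (∑ i ∈ s, f i) 1 := by
  induction s using Finset.induction_on with
  | empty => simpa using Rp.zero
  | insert i s hi ih =>
    rw [Finset.sum_insert hi]
    exact (h i (by simp)).add_one S (ih fun j hj => h j (by simp [hj]))

/-- Every formal sum supported in `W` is represented, by an element of the closure. -/
theorem exists_rep (S : Sec A B c W) (lam : ZH ι) (h : ∀ g ∈ lam.coeff.support, g ∈ W) :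
    ∃ x ∈ Subgroup.closure (c '' (lam.coeff.support : Set (ι → ℤ))), Rp B c W lam x := by
  have key : ∀ s : Finset (ι → ℤ), s ⊆ lam.coeff.support →
      ∃ x ∈ Subgroup.closure (c '' (lam.coeff.support : Set (ι → ℤ))),
        Rp B c W (∑ g ∈ s, lam.coeff g • ANd.tau g) x := by
    intro s
    induction s using Finset.induction_on with
    | empty => exact fun _ => ⟨1, Subgroup.one_mem _, by simpa using Rp.zero⟩
    | insert g s hg ih =>
      intro hs
      obtain ⟨x, hx, h1⟩ := ih fun u hu => hs (Finset.mem_insert_of_mem hu)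
      have hg' := hs (Finset.mem_insert_self g s)
      refine ⟨c g ^ lam.coeff g * x, Subgroup.mul_mem _ (Subgroup.zpow_mem _
        (Subgroup.subset_closure (Set.mem_image_of_mem c (Finset.mem_coe.2 hg'))) _) hx, ?_⟩
      rw [Finset.sum_insert hg]
      exact ((Rp.tau (h g hg')).zpow S _).mul S h1
  obtain ⟨x, hx, h1⟩ := key _ le_rfl
  exact ⟨x, hx, h1.cast (eq_sum_tau lam).symm rfl⟩

theorem mem_of_zero (S : Sec A B c W) (h : Rp B c W 0 x) : x ∈ B := by
  have hn : (B.subgroupOf A).Normal := ⟨fun b hb a => by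
    rw [Subgroup.mem_subgroupOf] at hb ⊢
    exact S.conj a.2 hb⟩
  let _ : CommGroup (A ⧸ B.subgroupOf A) :=
    { (inferInstance : Group (A ⧸ B.subgroupOf A)) with
      mul_comm := fun p q => by
        obtain ⟨a, rfl⟩ := QuotientGroup.mk_surjective p
        obtain ⟨b, rfl⟩ := QuotientGroup.mk_surjective q
        rw [← QuotientGroup.mk_mul, ← QuotientGroup.mk_mul, QuotientGroup.eq,
          Subgroup.mem_subgroupOf]
        have := S.comm (A.inv_mem b.2) (A.inv_mem a.2)
        simpa [commutatorElement_def, mul_assoc] using this }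
  let q : (ι → ℤ) → Additive (A ⧸ B.subgroupOf A) := fun g =>
    if hg : g ∈ W then Additive.ofMul (QuotientGroup.mk (⟨c g, S.mem g hg⟩ : A)) else 0
  let ph : ZH ι →+ Additive (A ⧸ B.subgroupOf A) :=
    (Finsupp.liftAddHom fun g => zmultiplesHom _ (q g)).comp
      AddMonoidAlgebra.coeffAddEquiv.toAddMonoidHom
  have pht : ∀ g, ph (ANd.tau g) = q g := fun g => by
    simp [ph, AddMonoidAlgebra.coeffAddEquiv]
  have key : ∀ lam x, Rp B c W lam x → ∀ hx : x ∈ A,
      ph lam = Additive.ofMul (QuotientGroup.mk (⟨x, hx⟩ : A)) := by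
    intro lam x h
    induction h with
    | base x hb =>
      intro hx
      rw [map_zero]
      have : (QuotientGroup.mk (⟨x, hx⟩ : A) : A ⧸ B.subgroupOf A) = 1 :=
        (QuotientGroup.eq_one_iff _).2 (by rw [Subgroup.mem_subgroupOf]; exact hb)
      rw [this]; rfl
    | pos g lam x hg h0 ih =>
      intro hx
      rw [map_add, ih (h0.mem S), pht]
      simp only [q, dif_pos hg]
      rfl
    | neg g lam x hg h0 ih =>
      intro hx
      rw [map_sub, ih (h0.mem S), pht]
      simp only [q, dif_pos hg, sub_eq_add_neg]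
      rfl
  have := key 0 x h (h.mem S)
  rw [map_zero] at this
  have h2 : (QuotientGroup.mk (⟨x, h.mem S⟩ : A) : A ⧸ B.subgroupOf A) = 1 :=
    (Additive.ofMul.injective this).symm
  rw [QuotientGroup.eq_one_iff, Subgroup.mem_subgroupOf] at h2
  exact h2

theorem uniq (S : Sec A B c W) (h : Rp B c W lam x) (h' : Rp B c W lam y) : x⁻¹ * y ∈ B :=
  Rp.mem_of_zero S (((h.inv S).mul S h').cast (by simp) rfl)

theorem lfv (S : Sec A B c W) (F : List ((ι → ℤ) × Bool)) (g : ι → ℤ)
    (h : ∀ p ∈ F, g + p.1 ∈ W) : Rp B c W (ANd.tau g * lfc F) (lfv c F g) := by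
  unfold ANd.lfc ANd.lfv
  rw [← List.sum_map_mul_left]
  refine Rp.list S F _ _ fun p hp => ?_
  rcases p with ⟨u, _ | _⟩
  · simpa [tau_mul] using (Rp.tau (h _ hp)).inv S
  · simpa [tau_mul] using Rp.tau (B := B) (c := c) (h _ hp)

end Rp

theorem lfc_append (F F' : List ((ι → ℤ) × Bool)) : lfc (F ++ F') = lfc F + lfc F' := by
  simp [lfc]

theorem lfv_append (F F' : List ((ι → ℤ) × Bool)) (g : ι → ℤ) :
    lfv c (F ++ F') g = lfv c F g * lfv c F' g := by simp [lfv]

theorem exists_lfc (lam : ZH ι) : ∃ F : List ((ι → ℤ) × Bool), lfc F = lam ∧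
    ∀ p ∈ F, p.1 ∈ lam.coeff.support := by
  have key : ∀ s : Finset (ι → ℤ), ∃ F : List ((ι → ℤ) × Bool),
      lfc F = ∑ g ∈ s, lam.coeff g • tau g ∧ ∀ p ∈ F, p.1 ∈ s := by
    intro s
    induction s using Finset.induction_on with
    | empty => exact ⟨[], by simp [lfc], by simp⟩
    | insert g s hg ih =>
      obtain ⟨F, h1, h2⟩ := ih
      have : ∃ F0 : List ((ι → ℤ) × Bool), lfc F0 = lam.coeff g • tau g ∧ ∀ p ∈ F0, p.1 = g := by
        obtain ⟨m, e | e⟩ := (lam.coeff g).eq_nat_or_neg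
        · refine ⟨List.replicate m (g, true), by simp [lfc, e], fun p hp => ?_⟩
          rw [List.eq_of_mem_replicate hp]
        · refine ⟨List.replicate m (g, false), by simp [lfc, e], fun p hp => ?_⟩
          rw [List.eq_of_mem_replicate hp]
      obtain ⟨F0, f1, f2⟩ := this
      refine ⟨F0 ++ F, by rw [lfc_append, Finset.sum_insert hg, f1, h1], fun p hp => ?_⟩
      rcases List.mem_append.1 hp with hp | hp
      · rw [f2 p hp]; simp
      · exact Finset.mem_insert_of_mem (h2 p hp)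
  obtain ⟨F, h1, h2⟩ := key lam.coeff.support
  exact ⟨F, h1.trans (eq_sum_tau lam).symm, h2⟩

end RpS

/-! ### The scale subgroups -/

namespace Setup
variable {G : Type} [Group G] (S : Setup G)

theorem B_mono {k k' : ℕ} (h : k ≤ k') : S.B k ⊆ S.B k' := fun _ hg => ⟨hg.1, hg.2.trans h⟩

theorem B_finite (k : ℕ) : (S.B k).Finite := (S.proper k).subset fun _ hg => hg.2

theorem B_inv {k : ℕ} {g : G} (h : g ∈ S.B k) : g⁻¹ ∈ S.B k :=
  ⟨S.N.inv_mem h.1, by rw [S.len.inv]; exact h.2⟩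

theorem B_mul {k k' : ℕ} {g g' : G} (h : g ∈ S.B k) (h' : g' ∈ S.B k') : g * g' ∈ S.B (k + k') :=
  ⟨S.N.mul_mem h.1 h'.1, (S.len.mul _ _).trans (add_le_add h.2 h'.2)⟩

theorem B_pow {k : ℕ} {g : G} (h : g ∈ S.B k) (n : ℕ) : g ^ n ∈ S.B (n * k) :=
  ⟨S.N.pow_mem h.1 n, (S.len.pow g n).trans (Nat.mul_le_mul_left n h.2)⟩

theorem B_sub_E (k : ℕ) : S.B k ⊆ S.E k := Subgroup.subset_closure

theorem E_mono {k k' : ℕ} (h : k ≤ k') : S.E k ≤ S.E k' := Subgroup.closure_mono (S.B_mono h)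

theorem E_le (k : ℕ) : S.E k ≤ S.N := (Subgroup.closure_le _).2 fun _ hg => hg.1

theorem Γ_zero (k : ℕ) : S.Γ k 0 = S.E k := rfl

theorem Γ_mono {k k' : ℕ} (h : k ≤ k') (i : ℕ) : S.Γ k i ≤ S.Γ k' i := lcs_mono (S.E_mono h) i

theorem Γ_anti (k : ℕ) {i j : ℕ} (h : i ≤ j) : S.Γ k j ≤ S.Γ k i :=
  (S.E k).lowerCentralSeries_antitone h

theorem Γ_le_E (k i : ℕ) : S.Γ k i ≤ S.E k := lcs_le _ i

theorem Γ_le_lcs (k i : ℕ) : S.Γ k i ≤ S.N.lowerCentralSeries i := lcs_mono (S.E_le k) i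

theorem Γ_le (k i : ℕ) : S.Γ k i ≤ S.N := (S.Γ_le_E k i).trans (S.E_le k)

theorem Γ_comm (k i : ℕ) : ⁅S.Γ k i, S.Γ k i⁆ ≤ S.Γ k (i + 1) :=
  Subgroup.commutator_mono le_rfl (S.Γ_le_E k i)

theorem normal : S.N.Normal := ⟨fun n hn g => by
  rw [S.ker] at hn ⊢
  simp [hn]⟩

theorem x_mem (j : Fin S.m) (q : Fin S.d → ℤ) : S.x j q ∈ S.N :=
  S.normal.conj_mem _ (S.eN j) _

theorem exists_B {X : Set G} (hX : X.Finite) (h : X ⊆ S.N) : ∃ k, X ⊆ S.B k := by
  refine ⟨hX.toFinset.sup S.l, fun g hg => ⟨h hg, ?_⟩⟩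
  exact Finset.le_sup (f := S.l) (hX.mem_toFinset.2 hg)

end Setup

namespace LData
variable {G : Type} [Group G] {A : Type} [Ring A] [Algebra ℝ A] {N : Subgroup G} (R : LData G A N)

theorem L_one : R.L 1 = 0 := by unfold LData.L; rw [map_one, LL_one]

theorem L_mem_V {g : G} (h : g ∈ N) : R.L g ∈ R.V := Submodule.subset_span ⟨g, h, rfl⟩

theorem psi_mem_Ex {g : G} (h : g ∈ N) : R.psi g ∈ R.D.Ex R.V := ⟨R.uni g h, R.L_mem_V h⟩

end LData

namespace LSetup
variable {G : Type} [Group G] {A : Type} [Ring A] [Algebra ℝ A] (S : LSetup G A)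

theorem Y_mono {k k' : ℕ} (h : k ≤ k') : S.Y k ⊆ S.Y k' := Set.image_mono (S.toSetup.B_mono h)

theorem mem_Y {k : ℕ} {g : G} (h : g ∈ S.toSetup.B k) : S.R.L g ∈ S.Y k := ⟨g, h, rfl⟩

theorem Y_sub (k : ℕ) : S.Y k ⊆ S.R.V := by
  rintro _ ⟨g, hg, rfl⟩; exact S.R.L_mem_V hg.1

theorem B0_finite : S.B0.Finite := Set.finite_range _

theorem B0_span : Submodule.span ℝ S.B0 = S.R.V := S.spn

theorem UI_zero {U0 : Submodule ℝ A} (h : U0 ≤ S.R.V) : S.UI U0 0 = U0 := by
  apply le_antisymm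
  · refine Submodule.span_le.2 ?_
    rintro w ⟨v, _, ⟨u, hu⟩, rfl⟩
    rw [Fin.fin_one_eq_zero u] at hu
    exact hu
  · intro w hw
    exact Submodule.subset_span ⟨fun _ => w, fun _ => h hw, ⟨0, hw⟩, rfl⟩

end LSetup

end ANd
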