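import Pool.Agent.P.MP_5e7d86_al.St

/-! Basic facts about windows and line type elements of `Z[Z^ι]`. -/

set_option autoImplicit false
set_option linter.unusedSectionVars false
open Classical

namespace ANd

section
variable {ι : Type}

theorem Sm.mono {k k' : ℕ} {h : ι → ℤ} (H : Sm k h) (hk : k ≤ k') : Sm k' h :=
  fun a => (H a).trans (by exact_mod_cast hk)

theorem Sm.add {k k' : ℕ} {h h' : ι → ℤ} (H : Sm k h) (H' : Sm k' h') : Sm (k + k') (h + h') :=
  fun a => by
    push_cast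
    exact (abs_add_le _ _).trans (add_le_add (H a) (H' a))

theorem Sm.neg {k : ℕ} {h : ι → ℤ} (H : Sm k h) : Sm k (-h) := fun a => by simpa using H a

theorem Sm.zero (k : ℕ) : Sm k (0 : ι → ℤ) := fun a => by simp

theorem Sm.single {k : ℕ} (a : ι) {z : ℤ} (hz : |z| ≤ (k : ℤ)) : Sm k (Pi.single a z : ι → ℤ) := by
  intro b
  by_cases h : b = a
  · subst h; simpa using hz
  · simp [Pi.single_eq_of_ne h]

theorem exists_Sm [Fintype ι] (h : ι → ℤ) : ∃ k, Sm k h := by
  refine ⟨∑ a, (h a).natAbs, fun a => ?_⟩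
  rw [← Int.natCast_natAbs]
  exact_mod_cast Finset.single_le_sum (f := fun a => (h a).natAbs) (fun _ _ => Nat.zero_le _)
    (Finset.mem_univ a)

theorem exists_Sm_fin [Fintype ι] (s : Finset (ι → ℤ)) : ∃ k, ∀ h ∈ s, Sm k h := by
  choose k hk using fun h : ι → ℤ => exists_Sm h
  exact ⟨s.sup k, fun h hh => (hk h).mono (Finset.le_sup hh)⟩

theorem Sm_finite [Fintype ι] (k : ℕ) : {h : ι → ℤ | Sm k h}.Finite := by
  have : (Set.pi Set.univ fun _ : ι => Set.Icc (-(k : ℤ)) k).Finite :=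
    Set.Finite.pi fun _ => Set.finite_Icc _ _
  refine this.subset fun h hh a _ => ?_
  exact abs_le.1 (hh a)

theorem tau_mul (g h : ι → ℤ) : tau g * tau h = tau (g + h) := by
  simp [tau, AddMonoidAlgebra.single_mul_single]

theorem tau_zero : (tau 0 : ZH ι) = 1 := rfl

theorem coeff_tau_mul (g h : ι → ℤ) (x : ZH ι) : (tau g * x).coeff h = x.coeff (h - g) := by
  rw [AddMonoidAlgebra.coeff_single_mul_apply]; simp [sub_eq_neg_add]

theorem coeff_mul_tau (g h : ι → ℤ) (x : ZH ι) : (x * tau g).coeff h = x.coeff (h - g) := by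
  rw [mul_comm, coeff_tau_mul]

theorem eq_sum_tau (x : ZH ι) : x = ∑ h ∈ x.coeff.support, x.coeff h • tau h := by
  conv_lhs => rw [← AddMonoidAlgebra.sum_coeff_single x]
  unfold Finsupp.sum
  refine Finset.sum_congr rfl fun h _ => ?_
  simp [tau]

theorem mem_supp_mul {x y : ZH ι} {h : ι → ℤ} (H : h ∈ (x * y).coeff.support) :
    ∃ g ∈ x.coeff.support, ∃ g' ∈ y.coeff.support, g + g' = h := by
  have := AddMonoidAlgebra.support_coeff_mul_subset x y H
  exact Finset.mem_add.1 this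

theorem mem_supp_add {x y : ZH ι} {h : ι → ℤ} (H : h ∈ (x + y).coeff.support) :
    h ∈ x.coeff.support ∨ h ∈ y.coeff.support := by
  rw [AddMonoidAlgebra.coeff_add] at H
  exact Finset.mem_union.1 (Finsupp.support_add H)

theorem mem_supp_tau {g h : ι → ℤ} (H : h ∈ (tau g).coeff.support) : h = g := by
  have := Finsupp.support_single_subset H
  simpa using this

namespace Win
variable {k k' : ℕ} {x y : ZH ι}

theorem mono (H : Win k x) (hk : k ≤ k') : Win k' x := fun h hh => (H h hh).mono hk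

theorem zero (k : ℕ) : Win k (0 : ZH ι) := fun h hh => by simp at hh

theorem tau {g : ι → ℤ} (H : Sm k g) : Win k (tau g) := fun h hh => by
  rw [mem_supp_tau hh]; exact H

theorem one (k : ℕ) : Win k (1 : ZH ι) := Win.tau (Sm.zero k)

theorem add (H : Win k x) (H' : Win k y) : Win k (x + y) := fun h hh =>
  (mem_supp_add hh).elim (H h) (H' h)

theorem neg (H : Win k x) : Win k (-x) := fun h hh => H h (by simpa using hh)

theorem sub (H : Win k x) (H' : Win k y) : Win k (x - y) := by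
  rw [sub_eq_add_neg]; exact H.add H'.neg

theorem zsmul (H : Win k x) (n : ℤ) : Win k (n • x) := fun h hh =>
  H h (Finsupp.support_smul hh)

theorem sum {I : Type} (s : Finset I) (f : I → ZH ι) (H : ∀ i ∈ s, Win k (f i)) :
    Win k (∑ i ∈ s, f i) := by
  induction s using Finset.induction_on with
  | empty => simpa using Win.zero k
  | insert i s hi ih =>
    rw [Finset.sum_insert hi]
    exact (H i (by simp)).add (ih fun j hj => H j (by simp [hj]))

theorem mul (H : Win k x) (H' : Win k' y) : Win (k + k') (x * y) := fun h hh => by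
  obtain ⟨g, hg, g', hg', rfl⟩ := mem_supp_mul hh
  exact (H g hg).add (H' g' hg')

end Win

theorem exists_Win [Fintype ι] (x : ZH ι) : ∃ k, Win k x := exists_Sm_fin x.coeff.support

theorem exists_Win_fin [Fintype ι] (s : Finset (ZH ι)) : ∃ k, ∀ x ∈ s, Win k x := by
  choose k hk using fun x : ZH ι => exists_Win x
  exact ⟨s.sup k, fun h hh => (hk h).mono (Finset.le_sup hh)⟩

namespace LineT
variable {C C' K K' : ℕ} {x y : ZH ι}

theorem win (H : LineT C K x) : Win K x := H.2.1

theorem mono (H : LineT C K x) (hC : C ≤ C') (hK : K ≤ K') : LineT C' K' x := by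
  obtain ⟨⟨s, hs, h1⟩, h2, h3⟩ := H
  exact ⟨⟨s, hs.trans hC, h1⟩, h2.mono hK, fun h => (h3 h).trans (by exact_mod_cast hC)⟩

theorem zero (C K : ℕ) : LineT C K (0 : ZH ι) :=
  ⟨⟨∅, by simp, by simp⟩, Win.zero K, fun h => by simp⟩

theorem add (H : LineT C K x) (H' : LineT C' K y) : LineT (C + C') K (x + y) := by
  obtain ⟨⟨s, hs, h1⟩, h2, h3⟩ := H
  obtain ⟨⟨s', hs', h1'⟩, h2', h3'⟩ := H'
  refine ⟨⟨s ∪ s', (Finset.card_union_le _ _).trans (add_le_add hs hs'), fun h hh => ?_⟩,
    h2.add h2', fun h => ?_⟩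
  · rcases mem_supp_add hh with hh | hh
    · obtain ⟨p, hp, e⟩ := h1 h hh
      exact ⟨p, Finset.mem_union_left _ hp, e⟩
    · obtain ⟨p, hp, e⟩ := h1' h hh
      exact ⟨p, Finset.mem_union_right _ hp, e⟩
  · push_cast
    rw [AddMonoidAlgebra.coeff_add, Finsupp.add_apply]
    exact (abs_add_le _ _).trans (add_le_add (h3 h) (h3' h))

theorem neg (H : LineT C K x) : LineT C K (-x) := by
  obtain ⟨⟨s, hs, h1⟩, h2, h3⟩ := H
  exact ⟨⟨s, hs, fun h hh => h1 h (by simpa using hh)⟩, h2.neg, fun h => by simpa using h3 h⟩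

theorem sub (H : LineT C K x) (H' : LineT C' K y) : LineT (C + C') K (x - y) := by
  rw [sub_eq_add_neg]; exact H.add H'.neg

theorem sum {I : Type} (s : Finset I) (c : I → ℕ) (f : I → ZH ι)
    (H : ∀ i ∈ s, LineT (c i) K (f i)) : LineT (∑ i ∈ s, c i) K (∑ i ∈ s, f i) := by
  induction s using Finset.induction_on with
  | empty => simpa using LineT.zero 0 K
  | insert i s hi ih =>
    rw [Finset.sum_insert hi, Finset.sum_insert hi]
    exact (H i (by simp)).add (ih fun j hj => H j (by simp [hj]))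

theorem nsmul (H : LineT C K x) : ∀ n : ℕ, LineT (n * C) K (n • x)
  | 0 => by simpa using LineT.zero 0 K
  | n + 1 => by rw [succ_nsmul, Nat.succ_mul]; exact (H.nsmul n).add H

theorem zsmul (H : LineT C K x) (n : ℤ) : LineT (n.natAbs * C) K (n • x) := by
  obtain ⟨m, rfl | rfl⟩ := n.eq_nat_or_neg
  · simpa using H.nsmul m
  · simpa using (H.nsmul m).neg

theorem mul_tau {g : ι → ℤ} (H : LineT C K x) (hg : Sm K' g) :
    LineT C (K + K') (x * tau g) := by
  obtain ⟨⟨s, hs, h1⟩, h2, h3⟩ := H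
  refine ⟨⟨s.image fun p => (p.1, p.2 + g), Finset.card_image_le.trans hs, fun h hh => ?_⟩,
    h2.mul (Win.tau hg), fun h => ?_⟩
  · obtain ⟨u, hu, g', hg', rfl⟩ := mem_supp_mul hh
    rw [mem_supp_tau hg']
    obtain ⟨p, hp, e⟩ := h1 u hu
    exact ⟨_, Finset.mem_image_of_mem _ hp, fun b hb => by simp [e b hb]⟩
  · rw [coeff_mul_tau]; exact h3 _

/-- Multiplication by a fixed element. -/
theorem mul_fixed [Fintype ι] (y : ZH ι) : ∃ c : ℕ, ∀ (C K : ℕ) (x : ZH ι), LineT C K x →
    LineT (c * C) (K + c) (x * y) := by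
  obtain ⟨k, hk⟩ := exists_Win y
  refine ⟨k + ∑ h ∈ y.coeff.support, (y.coeff h).natAbs, fun C K x H => ?_⟩
  have e : x * y = ∑ h ∈ y.coeff.support, y.coeff h • (x * ANd.tau h) := by
    conv_lhs => rw [eq_sum_tau y, Finset.mul_sum]
    exact Finset.sum_congr rfl fun h _ => by rw [mul_smul_comm]
  rw [e]
  refine (LineT.sum _ (fun h => (y.coeff h).natAbs * C) _
    (fun h hh => (H.mul_tau (hk h hh)).zsmul _)).mono ?_ (by omega)
  rw [← Finset.sum_mul]
  exact Nat.mul_le_mul_right _ (by omega)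

/-- A line type element is a sum of pieces carried by single lines. -/
theorem split (H : LineT C K x) : ∃ L : List (ι × (ι → ℤ) × ZH ι), L.length ≤ C ∧
    (∀ p ∈ L, OnLine p.1 p.2.1 p.2.2 ∧ Win K p.2.2 ∧ Sm K p.2.1 ∧
      ∀ h, |p.2.2.coeff h| ≤ (C : ℤ)) ∧ x = (L.map fun p => p.2.2).sum := by
  obtain ⟨⟨s, hs, h1⟩, h2, h3⟩ := H
  suffices h : ∀ (s : Finset (ι × (ι → ℤ))) (x : ZH ι),
      (∀ h ∈ x.coeff.support, ∃ p ∈ s, ∀ b, b ≠ p.1 → h b = p.2 b) → Win K x →
      (∀ h, |x.coeff h| ≤ (C : ℤ)) → ∃ L : List (ι × (ι → ℤ) × ZH ι), L.length ≤ s.card ∧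
      (∀ p ∈ L, OnLine p.1 p.2.1 p.2.2 ∧ Win K p.2.2 ∧ Sm K p.2.1 ∧
        ∀ h, |p.2.2.coeff h| ≤ (C : ℤ)) ∧ x = (L.map fun p => p.2.2).sum by
    obtain ⟨L, l1, l2, l3⟩ := h s x h1 h2 h3
    exact ⟨L, l1.trans hs, l2, l3⟩
  intro s
  induction s using Finset.induction_on with
  | empty =>
    intro x h1 _ _
    refine ⟨[], by simp, by simp, ?_⟩
    have : x.coeff.support = ∅ := Finset.eq_empty_of_forall_notMem fun h hh => by
      simpa using h1 h hh
    simpa using this
  | insert p s hp ih =>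
    intro x h1 h2 h3
    set Q : (ι → ℤ) → Prop := fun h => ∀ b, b ≠ p.1 → h b = p.2 b with hQ
    set x1 : ZH ι := AddMonoidAlgebra.ofCoeff (x.coeff.filter Q) with hx1
    set x2 : ZH ι := AddMonoidAlgebra.ofCoeff (x.coeff.filter fun h => ¬ Q h) with hx2
    have e : x = x1 + x2 := by
      apply AddMonoidAlgebra.coeff_injective
      simp [hx1, hx2, Finsupp.filter_add_filter_not]
    have s1 : ∀ h ∈ x1.coeff.support, h ∈ x.coeff.support ∧ Q h := fun h hh => by
      simpa [hx1, Finsupp.support_filter] using hh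
    have s2 : ∀ h ∈ x2.coeff.support, h ∈ x.coeff.support ∧ ¬ Q h := fun h hh => by
      have : h ∈ (x.coeff.filter fun h => ¬ Q h).support := hh
      rw [Finsupp.support_filter, Finset.mem_filter] at this
      exact this
    have b1 : ∀ h, |x1.coeff h| ≤ (C : ℤ) := fun h => by
      have : x1.coeff h = if Q h then x.coeff h else 0 := Finsupp.filter_apply _ _ _
      rw [this]; split_ifs
      · exact h3 h
      · simp
    have b2 : ∀ h, |x2.coeff h| ≤ (C : ℤ) := fun h => by
      have : x2.coeff h = if ¬ Q h then x.coeff h else 0 := Finsupp.filter_apply _ _ _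
      rw [this]; split_ifs
      · simp
      · exact h3 h
    obtain ⟨L, l1, l2, l3⟩ := ih x2 (fun h hh => by
      obtain ⟨q, hq, eq⟩ := h1 h (s2 h hh).1
      rcases Finset.mem_insert.1 hq with rfl | hq
      · exact absurd eq (s2 h hh).2
      · exact ⟨q, hq, eq⟩) (fun h hh => h2 h (s2 h hh).1) b2
    rw [Finset.card_insert_of_notMem hp]
    by_cases hne : x1.coeff.support.Nonempty
    · obtain ⟨h0, hh0⟩ := hne
      refine ⟨(p.1, h0, x1) :: L, by simpa using l1, ?_, by simp [← l3, ← e]⟩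
      intro q hq
      rcases List.mem_cons.1 hq with rfl | hq
      · refine ⟨fun h hh b hb => ?_, fun h hh => h2 h (s1 h hh).1, h2 h0 (s1 h0 hh0).1, b1⟩
        exact ((s1 h hh).2 b hb).trans ((s1 h0 hh0).2 b hb).symm
      · exact l2 q hq
    · have : x1 = 0 := by
        rw [Finset.not_nonempty_iff_eq_empty, Finsupp.support_eq_empty] at hne
        exact AddMonoidAlgebra.coeff_eq_zero.1 hne
      refine ⟨L, by omega, l2, ?_⟩
      rw [e, this, zero_add]; exact l3

end LineT

end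

end ANd
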