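import Pool.Agent.P.MP_5e7d86_al.BRp

/-! The logarithm of an iterated group commutator. -/

set_option autoImplicit false
open Classical
open scoped commutatorElement

namespace ANd

namespace CmL

theorem main (h2 : S_B2) (hB : S_Br) (hE : S_ExpLog) (A : Type) [Ring A] [Algebra ℝ A]
    (D : NilD A) (A0 : ℝ) (hA : 0 ≤ A0) (i : ℕ) :
    ∃ C : ℝ, 0 ≤ C ∧ ∀ (Y : Set A), Y ⊆ D.U →
      ∀ u : Fin (i + 1) → Aˣ, (∀ s, D.Uni (u s) ∧ In (TG Y 0) A0 (D.LL (u s))) →
        D.Uni (cm i u) ∧ In (TG Y i) C (nest i (fun s => D.LL (u s))) ∧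
        In (TG Y (i + 1)) C (D.LL (cm i u) - nest i (fun s => D.LL (u s))) := by
  obtain ⟨-, -, -, ⟨-, hmul, hinv⟩, hpow, hconj, -⟩ := hE A D
  induction i with
  | zero =>
    refine ⟨A0, hA, fun Y _ u hu => ⟨(hu 0).1, (hu 0).2, ?_⟩⟩
    rw [cm_zero, nest_zero, sub_self]
    exact In.zero' hA
  | succ i ih =>
    obtain ⟨C, hC, H⟩ := ih
    obtain ⟨C1, hC1, H1⟩ := h2 A D A0
    obtain ⟨C2, hC2, H2⟩ := h2 A D (C + C + C1 * A0 * (C + C))
    have p1 : 0 ≤ C1 * A0 * (C + C) := by positivity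
    have p2 : 0 ≤ C2 * (2 ^ D.n * (C1 * A0 * (C + C)) * (C + C)) := by positivity
    have p3 : 0 ≤ 2 ^ D.n * A0 * C := by positivity
    refine ⟨C2 * (2 ^ D.n * (C1 * A0 * (C + C)) * (C + C)) + C1 * A0 * (C + C) + 2 ^ D.n * A0 * C,
      by positivity, fun Y hY u hu => ?_⟩
    obtain ⟨uw, k1, k2⟩ := H Y hY (fun s => u s.succ) fun s => hu s.succ
    obtain ⟨ux, kx⟩ := hu 0
    have hbr := (hB A D Y hY).2.2.1
    rw [cm_succ, nest_succ, commutatorElement_def]
    set x := u 0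
    set w := cm i fun s => u s.succ
    set Nn := nest i fun s => D.LL (u s.succ)
    have kw : In (TG Y i) (C + C) (D.LL w) :=
      (k1.add' (k2.TG_anti (Nat.le_succ i))).congr (by abel)
    obtain ⟨e1, e2⟩ := (H1 Y hY).2.2 x (D.LL w) i A0 (C + C) ux le_rfl kx kw
    have up : D.Uni (x * w * x⁻¹) := hmul _ _ (hmul _ _ ux uw) (hinv _ ux)
    have lw : D.LL w⁻¹ = -D.LL w := by simpa using hpow w uw (-1)
    have e3 := (H2 Y hY).1 (x * w * x⁻¹) w⁻¹ (i + 2) (2 ^ D.n * (C1 * A0 * (C + C)) * (C + C)) up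
      (hinv _ uw) (by
        rw [hconj]
        exact ((kw.TG_anti (Nat.zero_le _)).add' (e1.TG_anti (Nat.zero_le _))).congr (by abel))
      (by
        rw [lw]
        exact (kw.TG_anti (Nat.zero_le _)).neg.le (by linarith))
      (by
        rw [hconj, lw]
        refine ((hbr _ _ _ _ _ _ e1 kw).TG_anti (by omega)).neg.congr ?_
        rw [br_sub_left, br_self, sub_zero, br_neg_right])
    rw [hconj, lw] at e3
    refine ⟨hmul _ _ up (hinv _ uw), ((hbr _ _ _ _ _ _ kx k1).TG_anti (by omega)).le (by linarith),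
      ((e3.add' e2).add' ((hbr _ _ _ _ _ _ kx k2).TG_anti (by omega))).congr ?_⟩
    rw [br_sub_right]
    abel

end CmL

theorem pCmL (h2 : S_B2) (hB : S_Br) (hE : S_ExpLog) : S_CmL := by
  intro A _ _ D i A0
  obtain ⟨C, hC, H⟩ := CmL.main h2 hB hE A D (max A0 0) (le_max_right _ _) i
  exact ⟨C, hC, fun Y hY u hu => H Y hY u fun s => ⟨(hu s).1, (hu s).2.le (le_max_left _ _)⟩⟩

end ANd
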