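import Pool.Agent.P.MP_5e7d86_al.BRp

set_option autoImplicit false
open Classical
open scoped commutatorElement

namespace ANd

namespace Cov

variable {A : Type} [Ring A] [Algebra ℝ A]

/-- `u` is a product of at most `n` elements with logarithm in the unit ball. -/
def W (D : NilD A) (K : Subgroup Aˣ) (Y : Set A) (n : ℕ) (u : K) : Prop :=
  ∃ L : List K, L.length ≤ n ∧ (∀ x ∈ L, In (TG Y 0) 1 (D.LL (x : Aˣ))) ∧ L.prod = u

noncomputable def ln (D : NilD A) (K : Subgroup Aˣ) (Y : Set A) (u : K) : ℕ :=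
  sInf {n | W D K Y n u}

theorem W.mono {D : NilD A} {K : Subgroup Aˣ} {Y : Set A} {n m : ℕ} {u : K} (h : W D K Y n u)
    (hnm : n ≤ m) : W D K Y m u := by
  obtain ⟨L, h1, h2, h3⟩ := h
  exact ⟨L, h1.trans hnm, h2, h3⟩

theorem W.mul {D : NilD A} {K : Subgroup Aˣ} {Y : Set A} {n m : ℕ} {u v : K} (h : W D K Y n u)
    (h' : W D K Y m v) : W D K Y (n + m) (u * v) := by
  obtain ⟨L, h1, h2, h3⟩ := h
  obtain ⟨L', h1', h2', h3'⟩ := h'
  refine ⟨L ++ L', by simp; omega, fun x hx => ?_, by simp [h3, h3']⟩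
  rcases List.mem_append.1 hx with hx | hx
  · exact h2 x hx
  · exact h2' x hx

theorem LL_inv (hE : S_ExpLog) (D : NilD A) {u : Aˣ} (hu : D.Uni u) : D.LL u⁻¹ = -D.LL u := by
  have := (hE A D).2.2.2.2.1 u hu (-1)
  simpa using this

section
variable {D : NilD A} {V : Submodule ℝ A} {K : Subgroup Aˣ}

theorem memK (hK : (K : Set Aˣ) = D.Ex V) (u : K) : (u : Aˣ) ∈ D.Ex V := by
  rw [← hK]; exact u.2

theorem W.inv (hE : S_ExpLog) (hK : (K : Set Aˣ) = D.Ex V) {Y : Set A} {n : ℕ} {u : K}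
    (h : W D K Y n u) : W D K Y n u⁻¹ := by
  obtain ⟨L, h1, h2, h3⟩ := h
  refine ⟨(L.map fun x => x⁻¹).reverse, by simpa using h1, fun x hx => ?_, ?_⟩
  · rw [List.mem_reverse, List.mem_map] at hx
    obtain ⟨y, hy, rfl⟩ := hx
    rw [Subgroup.coe_inv, LL_inv hE D (memK hK y).1]
    exact (h2 y hy).neg
  · rw [← h3, List.prod_inv_reverse]

theorem exK (hE : S_ExpLog) (hV : D.LieSub V) (hK : (K : Set Aˣ) = D.Ex V) {X : A} (hX : X ∈ V) :
    ∃ w : K, D.LL (w : Aˣ) = X := by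
  obtain ⟨w, hw, hw'⟩ := (hE A D).2.2.1 X (hV.le hX)
  have : w ∈ (K : Set Aˣ) := by rw [hK]; exact ⟨hw, hw' ▸ hX⟩
  exact ⟨⟨w, this⟩, hw'⟩

theorem W_of_In (hE : S_ExpLog) (hV : D.LieSub V) (hK : (K : Set Aˣ) = D.Ex V) {Y : Set A}
    {a : ℝ} {m : ℕ} {u : K} (h : In (TG Y 0) a (D.LL (u : Aˣ))) (ham : a ≤ m) (hm : 1 ≤ m) :
    W D K Y m u := by
  have hm0 : (0 : ℝ) < m := by exact_mod_cast hm
  obtain ⟨w, hw⟩ := exK hE hV hK (V.smul_mem ((m : ℝ)⁻¹) (memK hK u).2)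
  refine ⟨List.replicate m w, by simp, fun x hx => ?_, ?_⟩
  · rw [List.eq_of_mem_replicate hx, hw]
    refine (h.smul' _).le ?_
    rw [abs_of_pos (inv_pos.2 hm0), inv_mul_le_iff₀ hm0]
    simpa using ham
  · rw [List.prod_replicate]
    apply Subtype.ext
    refine (hE A D).2.2.2.2.2.2.2.2.1 _ _ (memK hK _).1 (memK hK _).1 ?_
    have := (hE A D).2.2.2.2.1 (w : Aˣ) (memK hK w).1 (m : ℤ)
    rw [zpow_natCast] at this
    rw [Subgroup.coe_pow, this, hw, smul_smul]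
    simp [hm0.ne']

theorem exW (hE : S_ExpLog) (hV : D.LieSub V) (hK : (K : Set Aˣ) = D.Ex V) {Y : Set A}
    (hY : Submodule.span ℝ Y = V) (u : K) : ∃ n, W D K Y n u := by
  have h1 : D.LL (u : Aˣ) ∈ Submodule.span ℝ (TG Y 0) := by
    refine Submodule.span_mono (sub_TG Y) ?_
    rw [hY]; exact (memK hK u).2
  obtain ⟨a, ha⟩ := In.exists_of_span h1
  refine ⟨⌈a⌉₊ + 1, W_of_In hE hV hK ha ?_ (by omega)⟩
  push_cast
  linarith [Nat.le_ceil a]

theorem W_ln (hE : S_ExpLog) (hV : D.LieSub V) (hK : (K : Set Aˣ) = D.Ex V) {Y : Set A}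
    (hY : Submodule.span ℝ Y = V) (u : K) : W D K Y (ln D K Y u) u :=
  Nat.sInf_mem (s := {n | W D K Y n u}) (exW hE hV hK hY u)

theorem ln_le {Y : Set A} {n : ℕ} {u : K} (h : W D K Y n u) : ln D K Y u ≤ n :=
  Nat.sInf_le (s := {n | W D K Y n u}) h

theorem isLen (hE : S_ExpLog) (hV : D.LieSub V) (hK : (K : Set Aˣ) = D.Ex V) {Y : Set A}
    (hY : Submodule.span ℝ Y = V) : IsLen (ln D K Y) where
  one := Nat.le_zero.1 (ln_le ⟨[], le_rfl, by simp, by simp⟩)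
  inv g := by
    apply le_antisymm
    · exact ln_le ((W_ln hE hV hK hY g).inv hE hK)
    · have := (W_ln hE hV hK hY g⁻¹).inv hE hK
      rw [inv_inv] at this
      exact ln_le this
  mul g h := ln_le ((W_ln hE hV hK hY g).mul (W_ln hE hV hK hY h))

theorem exC (hE : S_ExpLog) (hG : S_GR) (hV : D.LieSub V) (hK : (K : Set Aˣ) = D.Ex V) :
    ∃ C : ℕ → ℝ, (∀ R, 0 ≤ C R) ∧ ∀ Y : Set A, Submodule.span ℝ Y = V → ∀ (R : ℕ) (u : K),
      ln D K Y u ≤ R → In (TG Y 0) (C R) (D.LL (u : Aˣ)) := by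
  choose C hC0 hC using hG A D
  refine ⟨fun R => C R + R, fun R => add_nonneg (hC0 _) (Nat.cast_nonneg _), ?_⟩
  intro Y hY R u hu
  obtain ⟨L, h1, h2, h3⟩ := (W_ln hE hV hK hY u).mono hu
  have hYU : Y ⊆ D.U := fun y hy => hV.le (hY ▸ Submodule.subset_span hy)
  have h4 := hC R Y hYU 0 (L.map fun x : K => ((1 : ℝ), (x : Aˣ))) ?_ ?_
  · have h5 := In.list_sum_le L (fun x : K => D.LL (x : Aˣ)) h2
    have h6 : ((L.map fun x : K => ((1 : ℝ), (x : Aˣ))).map Prod.snd).prod = (u : Aˣ) := by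
      rw [List.map_map, ← h3]
      exact (map_list_prod K.subtype L).symm
    rw [h6, List.map_map] at h4
    have h7 := (h4.TG_anti (Nat.zero_le _)).add' h5
    refine (h7.congr ?_).le ?_
    · simp [Function.comp_def]
    · have : (L.length : ℝ) ≤ R := by exact_mod_cast h1
      linarith
  · intro p hp
    obtain ⟨x, hx, rfl⟩ := List.mem_map.1 hp
    exact ⟨(memK hK x).1, h2 x hx⟩
  · rw [List.map_map]
    have : (List.map (Prod.fst ∘ fun x : K => ((1 : ℝ), (x : Aˣ))) L).sum = L.length := by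
      simp [Function.comp_def]
    rw [this]
    exact_mod_cast h1

/-- The subgroup of `K` cut out by an ideal. -/
theorem exSub (hE : S_ExpLog) (hB : S_B1) (hV : D.LieSub V) (hK : (K : Set Aˣ) = D.Ex V)
    (I : Submodule ℝ A) (hI : ∀ x ∈ V, ∀ y ∈ I, br x y ∈ I) :
    ∃ H : Subgroup K, (H : Set K) = {u : K | D.LL (u : Aˣ) ∈ I} := by
  refine ⟨⟨⟨⟨{u : K | D.LL (u : Aˣ) ∈ I}, ?_⟩, ?_⟩, ?_⟩, rfl⟩
  · intro a b ha hb
    have h := (hB A D V hV).2.1 I hI a (memK hK a) b (memK hK b) (hI _ (memK hK a).2 _ hb)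
    have := I.add_mem (I.add_mem h hb) ha
    simpa using this
  · simp [LL_one]
  · intro a ha
    simp only [Set.mem_setOf_eq, Subgroup.coe_inv]
    rw [LL_inv hE D (memK hK a).1]
    exact I.neg_mem ha

/-- A nonzero ideal carries a nonzero functional killing brackets. -/
theorem exLam (hBr : S_Br) (hV : D.LieSub V) (I : Submodule ℝ A) (hIV : I ≤ V) (hne : I ≠ ⊥) :
    ∃ lam : A →ₗ[ℝ] ℝ, (∃ y ∈ I, lam y ≠ 0) ∧ ∀ x ∈ V, ∀ y ∈ I, lam (br x y) = 0 := by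
  set J : Submodule ℝ A := Submodule.span ℝ {w | ∃ x ∈ V, ∃ y ∈ I, w = br x y} with hJ
  by_cases h : I ≤ J
  · exfalso
    have h1 : ∀ j, I ≤ Submodule.span ℝ (TE (V : Set A) j) := by
      intro j
      induction j with
      | zero => rw [TE_zero, Submodule.span_eq]; exact hIV
      | succ j ih =>
        refine h.trans (Submodule.span_le.2 ?_)
        rintro w ⟨x, hx, y, hy, rfl⟩
        have hy' := ih hy
        clear hy
        induction hy' using Submodule.span_induction with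
        | mem z hz => exact Submodule.subset_span (br_mem_TE hx hz)
        | zero => simp
        | add a b _ _ ha hb => rw [br_add_right]; exact Submodule.add_mem _ ha hb
        | smul t a _ ha => rw [br_smul_right]; exact Submodule.smul_mem _ _ ha
    apply hne
    rw [eq_bot_iff]
    refine (h1 D.n).trans (Submodule.span_le.2 ?_)
    intro w hw
    exact (hBr A D V hV.le).2.1 D.n (by omega) w hw
  · obtain ⟨y, hy, hyJ⟩ := SetLike.not_le_iff_exists.1 h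
    obtain ⟨f, hf, hfJ⟩ := Submodule.exists_le_ker_of_notMem hyJ
    exact ⟨f, ⟨y, hy, hf⟩, fun x hx z hz => hfJ (Submodule.subset_span ⟨x, hx, z, hz, rfl⟩)⟩

theorem step (hH : S_HUR) (hE : S_ExpLog) (hB : S_B1) (hBr : S_Br) (hV : D.LieSub V)
    (hK : (K : Set Aˣ) = D.Ex V) (C : ℕ → ℝ) (hC0 : ∀ R, 0 ≤ C R) {Y : Set A} (hYf : Y.Finite)
    (hY : Submodule.span ℝ Y = V)
    (hC : ∀ (R : ℕ) (u : K), ln D K Y u ≤ R → In (TG Y 0) (C R) (D.LL (u : Aˣ)))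
    (I : Submodule ℝ A) (hIV : I ≤ V) (hI : ∀ x ∈ V, ∀ y ∈ I, br x y ∈ I)
    (lam : A →ₗ[ℝ] ℝ) (h1 : ∃ y ∈ I, lam y ≠ 0) (h2 : ∀ x ∈ V, ∀ y ∈ I, lam (br x y) = 0)
    (n r : ℕ) (hr : 1 ≤ r) (Df : ℕ → ℕ)
    (ih : ∀ R, Col (ln D K Y) {u : K | D.LL (u : Aˣ) ∈ I ⊓ LinearMap.ker lam} n R (Df R)) :
    Col (ln D K Y) {u : K | D.LL (u : Aˣ) ∈ I} (n + 1) r
      (hb Df (⌈4 * C r⌉₊ + 1) r (n + 2)) := by
  have hI' : ∀ x ∈ V, ∀ y ∈ I, br x y ∈ I ⊓ LinearMap.ker lam :=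
    fun x hx y hy => ⟨hI x hx y hy, h2 x hx y hy⟩
  obtain ⟨H, hH1⟩ := exSub hE hB hV hK I hI
  obtain ⟨H', hH2⟩ := exSub hE hB hV hK (I ⊓ LinearMap.ker lam) fun x hx y hy => hI' x hx y hy.1
  have mH : ∀ u : K, u ∈ H ↔ D.LL (u : Aˣ) ∈ I := fun u => by
    rw [← SetLike.mem_coe, hH1]; rfl
  have mH' : ∀ u : K, u ∈ H' ↔ D.LL (u : Aˣ) ∈ I ⊓ LinearMap.ker lam := fun u => by
    rw [← SetLike.mem_coe, hH2]; rfl
  have hYU : Y ⊆ D.U := fun y hy => hV.le (hY ▸ Submodule.subset_span hy)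
  set p : K → ℝ := fun u => lam (D.LL (u : Aˣ)) with hp
  have hadd : ∀ x ∈ H, ∀ y ∈ H, p (x * y) = p x + p y := by
    intro x _ y hy
    have h := (hB A D V hV).2.1 (I ⊓ LinearMap.ker lam) (fun x hx y hy => hI' x hx y hy.1)
      x (memK hK x) y (memK hK y) (hI' _ (memK hK x).2 _ ((mH y).1 hy))
    have h3 : lam (D.LL ((x : Aˣ) * y) - D.LL (x : Aˣ) - D.LL (y : Aˣ)) = 0 := h.2
    rw [map_sub, map_sub] at h3
    simp only [hp, Subgroup.coe_mul]
    linarith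
  obtain ⟨M, hM⟩ := (((hBr A D Y hYU).2.2.2.2.2.2 hYf 0).image fun y => |lam y|).bddAbove
  set S : Set ℝ := {t | ∃ b ∈ H, ln D K Y b ≤ r ∧ t = |p b|} with hS
  have hSb : BddAbove S := by
    refine ⟨max M 0 * C r, ?_⟩
    rintro t ⟨b, _, hb, rfl⟩
    exact In.abs_le lam (le_max_right _ _)
      (fun y hy => (hM ⟨y, hy, rfl⟩).trans (le_max_left _ _)) (hC r b hb)
  have hpos : ∃ t ∈ S, 0 < t := by
    obtain ⟨y, hy, hy0⟩ := h1
    have h3 : y ∈ Submodule.span ℝ (TG Y 0) := by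
      refine Submodule.span_mono (sub_TG Y) ?_
      rw [hY]; exact hIV hy
    obtain ⟨a, ha⟩ := In.exists_of_span h3
    have ha0 : 0 < a + 1 := by linarith [ha.nonneg]
    obtain ⟨w, hw⟩ := exK hE hV hK (V.smul_mem ((a + 1)⁻¹) (hIV hy))
    refine ⟨|p w|, ⟨w, (mH w).2 (hw ▸ I.smul_mem _ hy), ?_, rfl⟩, ?_⟩
    · refine (ln_le (W_of_In (a := 1) hE hV hK ?_ (by simp) le_rfl)).trans hr
      rw [hw]
      refine (ha.smul' _).le ?_
      rw [abs_of_pos (inv_pos.2 ha0), inv_mul_le_iff₀ ha0]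
      linarith
    · simp only [hp, hw, map_smul, smul_eq_mul]
      exact abs_pos.2 (mul_ne_zero (inv_ne_zero ha0.ne') hy0)
  obtain ⟨t0, ht0, ht0'⟩ := hpos
  have hsg : 0 < sSup S := ht0'.trans_le (le_csSup hSb ht0)
  obtain ⟨t1, ⟨b0, hb0, hb0', rfl⟩, ht1⟩ :=
    exists_lt_of_lt_csSup ⟨t0, ht0⟩ (half_lt_self hsg)
  have key := hH.1 K (ln D K Y) (isLen hE hV hK hY) H' H p (sSup S) n r (⌈4 * C r⌉₊ + 1) Df hsg
    hadd (fun b hb hb' => le_csSup hSb ⟨b, hb, hb', rfl⟩) ?_ (by rw [hH2]; exact ih)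
  · rw [hH1] at key; exact key
  intro b hb hbs
  have hp0 : 0 < |p b0| := by linarith
  have hp0' : p b0 ≠ 0 := abs_pos.1 hp0
  obtain ⟨w, hw⟩ := exK hE hV hK (V.smul_mem (p b / p b0) (memK hK b0).2)
  have hwH : w ∈ H := (mH w).2 (hw ▸ I.smul_mem _ ((mH b0).1 hb0))
  have hpw : p w = p b := by
    have : p w = p b / p b0 * p b0 := by
      simp only [hp] at hw ⊢
      rw [hw, map_smul, smul_eq_mul]
    rw [this]; field_simp
  refine ⟨b * w⁻¹, (mH' _).2 ⟨(mH _).1 (H.mul_mem hb (H.inv_mem hwH)), ?_⟩, ?_⟩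
  · have h3 := hadd (b * w⁻¹) (H.mul_mem hb (H.inv_mem hwH)) w hwH
    rw [inv_mul_cancel_right, hpw] at h3
    have : p (b * w⁻¹) = 0 := by linarith
    exact this
  · have : (b * w⁻¹)⁻¹ * b = w := by group
    rw [this]
    refine ln_le (W_of_In (a := 4 * C r) hE hV hK ?_ ?_ (by omega))
    · rw [hw]
      refine (hC r b0 hb0').smul_le ?_
      rw [abs_div, div_le_iff₀ hp0]
      linarith
    · push_cast
      linarith [Nat.le_ceil (4 * C r)]

theorem main (hH : S_HUR) (hGeo : S_Geo) (hE : S_ExpLog) (hB : S_B1) (hBr : S_Br)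
    [FiniteDimensional ℝ V] (hV : D.LieSub V)
    (hK : (K : Set Aˣ) = D.Ex V) (C : ℕ → ℝ) (hC0 : ∀ R, 0 ≤ C R)
    (hC : ∀ Y : Set A, Submodule.span ℝ Y = V →
      ∀ (R : ℕ) (u : K), ln D K Y u ≤ R → In (TG Y 0) (C R) (D.LL (u : Aˣ))) (n : ℕ) :
    ∃ Df : ℕ → ℕ, ∀ I : Submodule ℝ A, I ≤ V → (∀ x ∈ V, ∀ y ∈ I, br x y ∈ I) →
      Module.finrank ℝ I ≤ n → ∀ Y : Set A, Y.Finite → Submodule.span ℝ Y = V → ∀ R,
        Col (ln D K Y) {u : K | D.LL (u : Aˣ) ∈ I} n R (Df R) := by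
  induction n with
  | zero =>
    refine ⟨fun _ => 0, fun I hIV _ hn Y _ hY R => ?_⟩
    haveI : FiniteDimensional ℝ I := Submodule.finiteDimensional_of_le hIV
    have hI : I = ⊥ := Submodule.finrank_eq_zero.1 (Nat.le_zero.1 hn)
    refine ⟨fun _ => {1}, fun y hy => ⟨0, ?_⟩, fun _ x y hxy => ?_⟩
    · rw [hI] at hy
      apply Subtype.ext
      refine (hE A D).2.2.2.2.2.2.2.2.1 _ _ (memK hK _).1 (memK hK _).1 ?_
      rw [show D.LL (y : Aˣ) = 0 from hy]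
      simp [LL_one]
    · have : x = y := by
        induction hxy with
        | refl => rfl
        | tail _ h ih => rw [ih, show _ = (1 : K) from h.1, show _ = (1 : K) from h.2.1]
      rw [this, inv_mul_cancel, (isLen hE hV hK hY).one]
  | succ n ih =>
    obtain ⟨Df, hDf⟩ := ih
    refine ⟨fun R => Df R + hb Df (⌈4 * C (R + 1)⌉₊ + 1) (R + 1) (n + 2),
      fun I hIV hI hn Y hYf hY R => ?_⟩
    haveI : FiniteDimensional ℝ I := Submodule.finiteDimensional_of_le hIV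
    have hm := (hGeo K (ln D K Y) (isLen hE hV hK hY)).1
    by_cases h0 : I = ⊥
    · refine hm _ _ _ _ _ _ _ _ (hDf I hIV hI ?_ Y hYf hY R) subset_rfl (by omega) le_rfl
        (Nat.le_add_right _ _)
      rw [h0]; simp
    obtain ⟨lam, h1, h2⟩ := exLam hBr hV I hIV h0
    have hlt : I ⊓ LinearMap.ker lam < I := by
      refine lt_of_le_of_ne inf_le_left fun h => ?_
      obtain ⟨y, hy, hy0⟩ := h1
      rw [← h] at hy
      exact hy0 hy.2
    have hrk := Submodule.finrank_lt_finrank_of_lt hlt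
    refine hm _ _ _ _ _ _ _ _ (step hH hE hB hBr hV hK C hC0 hYf hY (hC Y hY) I hIV hI lam h1 h2
      n (R + 1) (by omega) Df fun R' => hDf _ (inf_le_left.trans hIV)
        (fun x hx y hy => ⟨hI x hx y hy.1, h2 x hx y hy.1⟩) (by omega) Y hYf hY R')
      subset_rfl le_rfl (by omega) (Nat.le_add_left _ _)

end

end Cov

theorem pCov (hH : S_HUR) (hGeo : S_Geo) (hB : S_B1) (hG : S_GR) (hBr : S_Br) (hE : S_ExpLog) :
    S_Cov := by
  intro A _ _ D V _ hV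
  obtain ⟨K, hK⟩ := (hB A D V hV).1
  obtain ⟨C, hC0, hC⟩ := Cov.exC hE hG hV hK
  obtain ⟨Df, hDf⟩ := Cov.main hH hGeo hE hB hBr hV hK C hC0 hC (Module.finrank ℝ V)
  refine ⟨C (Df 1), fun Y hYf hY => ?_⟩
  obtain ⟨Z, hZ, hZ'⟩ := hDf V le_rfl hV.br le_rfl Y hYf hY 1
  refine ⟨fun i => Subtype.val '' Z i, fun u hu => ?_, fun i u u' h => ?_⟩
  · have huK : u ∈ K := by rw [← SetLike.mem_coe, hK]; exact hu
    obtain ⟨i, hi⟩ := hZ ⟨u, huK⟩ hu.2
    exact ⟨i, ⟨u, huK⟩, hi, rfl⟩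
  · have key : u = u' ∨ ∃ a b : K, (a : Aˣ) = u ∧ (b : Aˣ) = u' ∧
        Relation.ReflTransGen (Step (Cov.ln D K Y) (Z i) 1) a b := by
      induction h with
      | refl => exact Or.inl rfl
      | tail _ h ih =>
        obtain ⟨⟨x, hx, rfl⟩, ⟨y, hy, rfl⟩, _, _, h5⟩ := h
        have hs : Step (Cov.ln D K Y) (Z i) 1 x y :=
          ⟨hx, hy, Cov.ln_le (Cov.W_of_In (a := 1) hE hV hK (by simpa using h5) (by simp) le_rfl)⟩
        right
        rcases ih with rfl | ⟨a, b, ha, hb, hab⟩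
        · exact ⟨x, y, rfl, rfl, Relation.ReflTransGen.single hs⟩
        · have : b = x := Subtype.ext hb
          subst this
          exact ⟨a, y, ha, rfl, hab.tail hs⟩
    rcases key with rfl | ⟨a, b, rfl, rfl, hab⟩
    · rw [inv_mul_cancel, LL_one]
      exact In.zero' (hC0 _)
    · have := hC Y hY _ _ (hZ' i a b hab)
      simpa using this

end ANd
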