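import Mathlib

/-! Definitions for MP_5e7d86_al (Assouad-Nagata dimension of linear groups). -/

set_option autoImplicit false
open Classical
open scoped commutatorElement

namespace ANd

/-! ### Coarse geometry -/

section Coarse
variable {G : Type} [Group G]

/-- A length function. -/
structure IsLen (l : G → ℕ) : Prop where
  one : l 1 = 0
  inv : ∀ g, l g⁻¹ = l g
  mul : ∀ g h, l (g * h) ≤ l g + l h

def Proper (l : G → ℕ) : Prop := ∀ r : ℕ, {g | l g ≤ r}.Finite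

def Step (l : G → ℕ) (Y : Set G) (r : ℕ) (a b : G) : Prop := a ∈ Y ∧ b ∈ Y ∧ l (a⁻¹ * b) ≤ r

/-- Every `r`-chain inside `Y` has its end points within `B`. -/
def Chain (l : G → ℕ) (Y : Set G) (r B : ℕ) : Prop :=
  ∀ x y, Relation.ReflTransGen (Step l Y r) x y → l (x⁻¹ * y) ≤ B

def Col (l : G → ℕ) (Y : Set G) (k r B : ℕ) : Prop :=
  ∃ Z : Fin (k + 1) → Set G, (∀ y ∈ Y, ∃ i, y ∈ Z i) ∧ ∀ i, Chain l (Z i) r B

def AsLe (l : G → ℕ) (d : ℕ) : Prop := ∀ r : ℕ, ∃ B : ℕ, Col l Set.univ d r B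

def ANLe (l : G → ℕ) (Y : Set G) (d : ℕ) : Prop := ∃ c : ℕ, ∀ r : ℕ, Col l Y d r (c * r)

/-- `g` is a word of length at most `n` in `S` and inverses. -/
def IsW (S : Finset G) (n : ℕ) (g : G) : Prop :=
  ∃ l : List G, l.length ≤ n ∧ (∀ x ∈ l, x ∈ S ∨ x⁻¹ ∈ S) ∧ g = l.prod

noncomputable def wl (S : Finset G) (g : G) : ℕ := sInf {n | IsW S n g}

/-- The cover condition of the frozen statement. -/
def FCov (S : Finset G) (d r B : ℕ) : Prop :=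
  ∃ U : Fin (d + 1) → Set (Set G),
    (∀ g : G, ∃ i, ∃ A ∈ U i, g ∈ A) ∧
    (∀ i, ∀ A ∈ U i, ∀ g ∈ A, ∀ h ∈ A, IsW S B (g⁻¹ * h)) ∧
    (∀ i, ∀ A ∈ U i, ∀ A' ∈ U i, A ≠ A' → ∀ g ∈ A, ∀ h ∈ A', ¬ IsW S r (g⁻¹ * h))

/-- The Folner hypothesis of the frozen statement. -/
def Fol (S : Finset G) : Prop :=
  ∃ C : ℕ, ∀ n : ℕ, 1 ≤ n → ∃ F : Finset G, F.Nonempty ∧ F.card ≤ C ^ n ∧
    n * (F.filter (fun g => ∃ s ∈ S, g * s ∉ F)).card ≤ F.card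

/-- Chains of subgroups whose steps are witnessed by short elements are short. -/
def CC (l : G → ℕ) : Prop :=
  ∃ C : ℕ, ∀ (r M : ℕ) (E : ℕ → Subgroup G) (w : ℕ → G), Monotone E →
    (∀ i < M, l (w i) ≤ r ∧ w i ∈ E (i + 1) ∧ w i ∉ E i) → M ≤ C * r

/-- `l` is dominated below by a word length: every `g` is a product of `c * l g` letters. -/
def WordLike (l : G → ℕ) (T : Set G) : Prop :=
  ∃ c : ℕ, ∀ g, ∃ L : List G, L.length ≤ c * l g ∧ (∀ x ∈ L, x ∈ T ∨ x⁻¹ ∈ T) ∧ L.prod = g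

/-- The bound produced by the Hurewicz lemma. -/
def hb (D : ℕ → ℕ) (L r : ℕ) : ℕ → ℕ
  | 0 => 0
  | s + 1 => D (hb D L r s + 2 * r + 2 * L) + 2 * L + 2 * hb D L r s + 2 * r

end Coarse

/-- A left invariant finitely additive probability. -/
def Amen (G : Type) [Group G] : Prop :=
  ∃ mu : Set G → ℝ, mu Set.univ = 1 ∧ (∀ A, 0 ≤ mu A) ∧
    (∀ A B, Disjoint A B → mu (A ∪ B) = mu A + mu B) ∧ ∀ (g : G) A, mu ((fun x => g * x) '' A) = mu A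

/-! ### The ring `Z[Z^ι]` -/

abbrev ZH (ι : Type) := AddMonoidAlgebra ℤ (ι → ℤ)

section Win
variable {ι : Type}

def Sm (k : ℕ) (h : ι → ℤ) : Prop := ∀ a, |h a| ≤ (k : ℤ)

noncomputable abbrev tau (h : ι → ℤ) : ZH ι := AddMonoidAlgebra.single h 1

def Win (k : ℕ) (x : ZH ι) : Prop := ∀ h ∈ x.coeff.support, Sm k h

/-- Supported on one line parallel to the axis `a` through `h0`. -/
def OnLine (a : ι) (h0 : ι → ℤ) (x : ZH ι) : Prop :=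
  ∀ h ∈ x.coeff.support, ∀ b, b ≠ a → h b = h0 b

/-- Supported on at most `C` coordinate lines, in the window `K`, coefficients at most `C`. -/
def LineT (C K : ℕ) (x : ZH ι) : Prop :=
  (∃ s : Finset (ι × (ι → ℤ)), s.card ≤ C ∧
    ∀ h ∈ x.coeff.support, ∃ p ∈ s, ∀ b, b ≠ p.1 → h b = p.2 b) ∧
  Win K x ∧ ∀ h, |x.coeff h| ≤ (C : ℤ)

def TF (J : Ideal (ZH ι)) : Prop := ∀ (n : ℤ) (x : ZH ι), n ≠ 0 → n • x ∈ J → x ∈ J

def FR (J : Ideal (ZH ι)) (rho : ℕ) : Prop :=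
  ∀ x : Fin (rho + 1) → ZH ι, ∃ n : Fin (rho + 1) → ℤ, n ≠ 0 ∧ ∑ i, n i • x i ∈ J

def Planar (J : Ideal (ZH ι)) (p : ℕ) : Prop :=
  ∀ a b : ι, a ≠ b → ∃ x ∈ J, (∀ h ∈ x.coeff.support, ∀ c, c ≠ a → c ≠ b → h c = 0) ∧
    ∃ h, ¬ (p : ℤ) ∣ x.coeff h

end Win

/-! ### Group combinatorics -/

section Grp
variable {G : Type} [Group G]

/-- `x` represents the formal sum `lam` of the symbols `c h`, `h ∈ W`, modulo `B`. -/
inductive Rp {ι : Type} (B : Subgroup G) (c : (ι → ℤ) → G) (W : Set (ι → ℤ)) : ZH ι → G → Prop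
  | base (x : G) : x ∈ B → Rp B c W 0 x
  | pos (h : ι → ℤ) (lam : ZH ι) (x : G) : h ∈ W → Rp B c W lam x →
      Rp B c W (lam + tau h) (x * c h)
  | neg (h : ι → ℤ) (lam : ZH ι) (x : G) : h ∈ W → Rp B c W lam x →
      Rp B c W (lam - tau h) (x * (c h)⁻¹)

/-- The standing hypothesis under which `Rp B c W` is well behaved. -/
structure Sec {ι : Type} (A B : Subgroup G) (c : (ι → ℤ) → G) (W : Set (ι → ℤ)) : Prop where
  le : B ≤ A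
  ab : ⁅A, A⁆ ≤ B
  mem : ∀ h ∈ W, c h ∈ A

variable (G) in
/-- Word functions `Z^ι → G`. -/
def WordFun (ι : Type) : Subgroup ((ι → ℤ) → G) :=
  Subgroup.closure ({f | ∃ x : G, f = fun _ => x} ∪ {f | ∃ (x : G) (a : ι), f = fun g => x ^ g a})

def shf {ι : Type} (u : ι → ℤ) (f : (ι → ℤ) → G) : (ι → ℤ) → G := fun g => f (g + u)

/-- Recurrence property of the layer `Γ' / Γ`. -/
def REC (Γ' Γ : Subgroup G) : Prop :=
  ∀ (ι : Type) [Fintype ι] (f : (ι → ℤ) → G), f ∈ WordFun G ι → (∀ g, f g ∈ Γ') →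
    ∃ B : Finset (ι → ℤ), ∀ f' ∈ Subgroup.closure (Set.range fun u => shf u f),
      (∀ g ∈ B, f' g ∈ Γ) → ∀ g, f' g ∈ Γ

structure Lay (N Γ' Γ : Subgroup G) : Prop where
  le : Γ ≤ Γ'
  leN : Γ' ≤ N
  cen : ⁅N, Γ'⁆ ≤ Γ
  rcr : REC Γ' Γ

def PT (Γ' Γ : Subgroup G) : Prop := ∃ p : ℕ, p.Prime ∧ ∀ x ∈ Γ', x ^ p ∈ Γ

def TFL (Γ' Γ : Subgroup G) : Prop := ∀ x ∈ Γ', ∀ n : ℕ, n ≠ 0 → x ^ n ∈ Γ → x ∈ Γ

/-- Any `s` elements of `Γ'` are dependent modulo `Γ`. -/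
def Dep (Γ' Γ : Subgroup G) (s : ℕ) : Prop :=
  ∀ x : Fin s → G, (∀ i, x i ∈ Γ') →
    ∃ n : Fin s → ℤ, n ≠ 0 ∧ (List.ofFn fun i => x i ^ n i).prod ∈ Γ

inductive Filt (N : Subgroup G) : Subgroup G → Prop
  | bot : Filt N ⊥
  | step (Γ Γ' : Subgroup G) : Filt N Γ → Lay N Γ' Γ → (PT Γ' Γ ∨ TFL Γ' Γ) → Filt N Γ'

inductive FiltR (N : Subgroup G) : Subgroup G → ℕ → Prop
  | bot : FiltR N ⊥ 0
  | pt (Γ Γ' : Subgroup G) (r : ℕ) : FiltR N Γ r → Lay N Γ' Γ → PT Γ' Γ → FiltR N Γ' r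
  | tf (Γ Γ' : Subgroup G) (r s : ℕ) : FiltR N Γ r → Lay N Γ' Γ → TFL Γ' Γ →
      ¬ Dep Γ' Γ s → Dep Γ' Γ (s + 1) → FiltR N Γ' (r + s)

inductive Tower (A Γ0 : Subgroup G) : Subgroup G → ℕ → Prop
  | base : Tower A Γ0 Γ0 0
  | zs (Γ Γ' : Subgroup G) (j : ℕ) (t : G) : Tower A Γ0 Γ j → Γ ≤ Γ' → Γ' ≤ A → ⁅A, Γ'⁆ ≤ Γ →
      t ∈ Γ' → (∀ x ∈ Γ', ∃ n : ℤ, x * (t ^ n)⁻¹ ∈ Γ) → (∀ n : ℤ, t ^ n ∈ Γ → n = 0) →
      Tower A Γ0 Γ' (j + 1)
  | ts (Γ Γ' : Subgroup G) (j : ℕ) : Tower A Γ0 Γ j → Γ ≤ Γ' → Γ' ≤ A → ⁅A, Γ'⁆ ≤ Γ →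
      (∀ x ∈ Γ', ∃ n : ℕ, n ≠ 0 ∧ x ^ n ∈ Γ) → Tower A Γ0 Γ' j

/-- Right nested group commutator of `i + 1` elements. -/
def cm : (i : ℕ) → (Fin (i + 1) → G) → G
  | 0, v => v 0
  | i + 1, v => ⁅v 0, cm i (fun u => v u.succ)⁆

/-- Value at `g` of the list family `F` over the symbol function `c`. -/
def lfv {ι : Type} (c : (ι → ℤ) → G) (F : List ((ι → ℤ) × Bool)) (g : ι → ℤ) : G :=
  (F.map fun p => if p.2 then c (g + p.1) else (c (g + p.1))⁻¹).prod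

/-- Class of a list family. -/
noncomputable def lfc {ι : Type} (F : List ((ι → ℤ) × Bool)) : ZH ι :=
  (F.map fun p => if p.2 then tau p.1 else - tau p.1).sum

end Grp

/-! ### Chains for the lower bound -/

section Hom
variable {P : Type} [Group P] {M : Type} [AddCommGroup M] [Module ℚ M]

abbrev Ch (P M : Type) [Zero M] (n : ℕ) := (Fin n → P) →₀ M

noncomputable def bd (P M : Type) [AddCommGroup M] [Module ℚ M] (n : ℕ) :
    Ch P M (n + 1) →ₗ[ℚ] Ch P M n :=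
  ∑ i : Fin (n + 1), ((-1 : ℚ) ^ (i : ℕ)) • Finsupp.lmapDomain M ℚ (fun v u => v (i.succAbove u))

noncomputable def act (rho : Representation ℚ P M) (n : ℕ) (g : P) : Ch P M n →ₗ[ℚ] Ch P M n :=
  (Finsupp.mapRange.linearMap (rho g)).comp (Finsupp.lmapDomain M ℚ (fun v u => g * v u))

noncomputable def cone (M : Type) [AddCommGroup M] [Module ℚ M] (n : ℕ) (x : P) :
    Ch P M n →ₗ[ℚ] Ch P M (n + 1) :=
  Finsupp.lmapDomain M ℚ (fun v : Fin n → P => (Fin.cons x v : Fin (n + 1) → P))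

noncomputable def JJ (rho : Representation ℚ P M) (Γ : Subgroup P) (n : ℕ) : Submodule ℚ (Ch P M n) :=
  Submodule.span ℚ {y | ∃ g ∈ Γ, ∃ c, y = act rho n g c - c}

def Cyc (rho : Representation ℚ P M) (Γ : Subgroup P) (k : ℕ) (c : Ch P M (k + 1)) : Prop :=
  k = 0 ∨ bd P M k c ∈ JJ rho Γ k

def Bdy (rho : Representation ℚ P M) (Γ : Subgroup P) (k : ℕ) (c : Ch P M (k + 1)) : Prop :=
  ∃ u : Ch P M (k + 2), c - bd P M (k + 1) u ∈ JJ rho Γ (k + 1)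

/-- No homology of `Γ` above degree `j`. -/
def Van (Γ : Subgroup P) (j : ℕ) : Prop :=
  ∀ (M : Type) [AddCommGroup M] [Module ℚ M] (rho : Representation ℚ P M) (k : ℕ), j < k →
    ∀ c : Ch P M (k + 1), Cyc rho Γ k c → Bdy rho Γ k c

/-- The one dimensional representation given by a character. -/
noncomputable def chr (chi : P →* ℚˣ) : Representation ℚ P ℚ where
  toFun g := (chi g : ℚ) • LinearMap.id
  map_one' := by ext; simp
  map_mul' g h := by ext; simp [mul_comm]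

/-- `z` spans the homology of `Γ` in degree `j`, and `A` acts trivially on it. -/
structure Top (chi : P →* ℚˣ) (A Γ : Subgroup P) (j : ℕ) (z : Ch P ℚ (j + 1)) : Prop where
  cyc : Cyc (chr chi) Γ j z
  ne : ¬ Bdy (chr chi) Γ j z
  gen : ∀ c, Cyc (chr chi) Γ j c → ∃ a : ℚ, Bdy (chr chi) Γ j (c - a • z)
  inv : ∀ g ∈ A, Bdy (chr chi) Γ j (act (chr chi) (j + 1) g z - z)

end Hom

/-! ### Real algebras, gauges -/

section Alg
variable {A : Type} [Ring A] [Algebra ℝ A]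

/-- `v` is a real combination of elements of `Y` with sum of absolute values at most `a`. -/
inductive In (Y : Set A) : ℝ → A → Prop
  | zero : In Y 0 0
  | mem (v : A) : v ∈ Y → In Y 1 v
  | add (a b : ℝ) (v w : A) : In Y a v → In Y b w → In Y (a + b) (v + w)
  | smul (t a : ℝ) (v : A) : In Y a v → In Y (|t| * a) (t • v)
  | mono (a b : ℝ) (v : A) : a ≤ b → In Y a v → In Y b v

def br (x y : A) : A := x * y - y * x

def nest : (i : ℕ) → (Fin (i + 1) → A) → A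
  | 0, v => v 0
  | i + 1, v => br (v 0) (nest i (fun u => v u.succ))

/-- Brackets of exactly `i + 1` elements of `Y`. -/
def TE (Y : Set A) (i : ℕ) : Set A := {w | ∃ v : Fin (i + 1) → A, (∀ u, v u ∈ Y) ∧ w = nest i v}

/-- Brackets of at least `i + 1` elements of `Y`. -/
def TG (Y : Set A) (i : ℕ) : Set A := {w | ∃ j, i ≤ j ∧ w ∈ TE Y j}

/-- Right nested bracket of a word in two letters. -/
def nw (X Y : A) : List Bool → A
  | [] => 0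
  | [b] => if b then X else Y
  | b :: c :: w => br (if b then X else Y) (nw X Y (c :: w))

variable (A) in
/-- A nilpotent subalgebra without unit. -/
structure NilD where
  U : Submodule ℝ A
  n : ℕ
  mul : ∀ x ∈ U, ∀ y ∈ U, x * y ∈ U
  nil : ∀ L : List A, L.length = n → (∀ x ∈ L, x ∈ U) → L.prod = 0

noncomputable def ex (n : ℕ) (X : A) : A :=
  ∑ j ∈ Finset.range (n + 1), ((j.factorial : ℝ)⁻¹) • X ^ j

noncomputable def lg (n : ℕ) (x : A) : A :=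
  ∑ j ∈ Finset.range n, ((-1 : ℝ) ^ j / (j + 1)) • (x - 1) ^ (j + 1)

def Ad (u : Aˣ) (y : A) : A := (u : A) * y * ((u⁻¹ : Aˣ) : A)

noncomputable def NilD.LL (D : NilD A) (u : Aˣ) : A := lg D.n (u : A)

def NilD.Uni (D : NilD A) (u : Aˣ) : Prop := (u : A) - 1 ∈ D.U

/-- The exponential image of `V`. -/
def NilD.Ex (D : NilD A) (V : Submodule ℝ A) : Set Aˣ := {u | D.Uni u ∧ D.LL u ∈ V}

structure NilD.LieSub (D : NilD A) (V : Submodule ℝ A) : Prop where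
  le : V ≤ D.U
  br : ∀ x ∈ V, ∀ y ∈ V, br x y ∈ V

/-- `u` normalises `V`. -/
def Nrm (u : Aˣ) (V : Submodule ℝ A) : Prop := ∀ y ∈ V, Ad u y ∈ V ∧ Ad u⁻¹ y ∈ V

/-- Ordered product of powers. -/
def sp {H : Type} [Group H] {d : ℕ} (t : Fin d → H) (q : Fin d → ℤ) : H :=
  (List.ofFn fun a => t a ^ q a).prod

/-- Product of the conjugates `g ^ z * a z * g ^ (-z)` for `z` from `-K` to `K`. -/
def tel {H : Type} [Group H] (g : H) (a : ℤ → H) (K : ℕ) : H :=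
  ((List.range (2 * K + 1)).map fun n : ℕ =>
    g ^ ((n : ℤ) - K) * a ((n : ℤ) - K) * (g ^ ((n : ℤ) - K))⁻¹).prod

/-- Vectors contracted by the inverse of `Ad u`. -/
def Ctr (B0 : Set A) (u : Aˣ) : Set A :=
  {v | ∀ ep : ℝ, 0 < ep → ∃ n0 : ℕ, ∀ n ≥ n0, In B0 ep (Ad (u⁻¹ ^ n) v)}

def Vp (B0 : Set A) (u : Aˣ) : Submodule ℝ A := Submodule.span ℝ (Ctr B0 u)

/-- Rational relations can be read off real ones. -/
def RAT (AQ : Subring A) : Prop :=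
  ∀ (phi : ℝ →ₗ[ℚ] ℚ) (m : ℕ) (b : Fin m → ℝ) (v : Fin m → A), (∀ i, v i ∈ AQ) →
    ∑ i, b i • v i = 0 → ∑ i, ((phi (b i) : ℚ) : ℝ) • v i = 0

end Alg

/-- The real representation of `G`, unipotent on `N`. -/
structure LData (G : Type) [Group G] (A : Type) [Ring A] [Algebra ℝ A] (N : Subgroup G) where
  D : NilD A
  psi : G →* Aˣ
  uni : ∀ x ∈ N, D.Uni (psi x)
  nrmU : ∀ g, ∀ y ∈ D.U, Ad (psi g) y ∈ D.U
  AQ : Subring A
  AQq : ∀ (q : ℚ), ∀ x ∈ AQ, (q : ℝ) • x ∈ AQ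
  psiQ : ∀ g, (psi g : A) ∈ AQ
  rat : RAT AQ
  tors : ∀ x ∈ N, psi x = 1 → ∃ k : ℕ, k ≠ 0 ∧ x ^ k = 1

namespace LData
variable {G : Type} [Group G] {A : Type} [Ring A] [Algebra ℝ A] {N : Subgroup G}

noncomputable def L (R : LData G A N) (g : G) : A := R.D.LL (R.psi g)

def VS (R : LData G A N) (Γ : Subgroup G) : Submodule ℝ A := Submodule.span ℝ (R.L '' (Γ : Set G))

def V (R : LData G A N) : Submodule ℝ A := R.VS N

def VG (R : LData G A N) (i : ℕ) : Submodule ℝ A := Submodule.span ℝ (TG (R.V : Set A) i)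

end LData

/-- The group theoretic data. -/
structure Setup (G : Type) [Group G] where
  l : G → ℕ
  len : IsLen l
  proper : Proper l
  cc : CC l
  d : ℕ
  N : Subgroup G
  pr : G →* Multiplicative (Fin d → ℤ)
  ker : ∀ g, g ∈ N ↔ pr g = 1
  t : Fin d → G
  prt : ∀ a, pr (t a) = Multiplicative.ofAdd (Pi.single a 1)
  m : ℕ
  e : Fin m → G
  eN : ∀ j, e j ∈ N
  word : WordLike l (Set.range t ∪ Set.range e)
  comm : ∀ a b (x y : ℤ), (x = 1 ∨ x = -1) → (y = 1 ∨ y = -1) → ⁅t a ^ x, t b ^ y⁆ ∈ Set.range e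
  r : ℕ
  filt : FiltR N N r

namespace Setup
variable {G : Type} [Group G]

def s (S : Setup G) (q : Fin S.d → ℤ) : G := sp S.t q

def x (S : Setup G) (j : Fin S.m) (q : Fin S.d → ℤ) : G := S.s q * S.e j * (S.s q)⁻¹

def B (S : Setup G) (k : ℕ) : Set G := {g | g ∈ S.N ∧ S.l g ≤ k}

def E (S : Setup G) (k : ℕ) : Subgroup G := Subgroup.closure (S.B k)

def Γ (S : Setup G) (k i : ℕ) : Subgroup G := (S.E k).lowerCentralSeries i

def cJ (S : Setup G) (i : ℕ) (J : Fin (i + 1) → Fin S.m) (h : Fin (i + 1) × Fin S.d → ℤ) : G :=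
  cm i (fun u => S.x (J u) (fun a => h (u, a)))

end Setup

structure LSetup (G : Type) [Group G] (A : Type) [Ring A] [Algebra ℝ A] extends Setup G where
  R : LData G A N
  fd : FiniteDimensional ℝ R.V
  spn : Submodule.span ℝ (Set.range fun j => R.L (e j)) = R.V

namespace LSetup
variable {G : Type} [Group G] {A : Type} [Ring A] [Algebra ℝ A]

def Y (S : LSetup G A) (k : ℕ) : Set A := S.R.L '' S.toSetup.B k

def B0 (S : LSetup G A) : Set A := Set.range fun j => S.R.L (S.e j)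

/-- The sum of all expanding subspaces. -/
def U0 (S : LSetup G A) : Submodule ℝ A := ⨆ g : G, Vp S.B0 (S.R.psi g)

def UI (S : LSetup G A) (U0 : Submodule ℝ A) (i : ℕ) : Submodule ℝ A :=
  Submodule.span ℝ {w | ∃ v : Fin (i + 1) → A, (∀ u, v u ∈ S.R.V) ∧ (∃ u, v u ∈ U0) ∧ w = nest i v}

def Dbl (S : LSetup G A) (U0 : Submodule ℝ A) (i : ℕ) : Prop :=
  ∀ A0 : ℕ, ∃ j0 C : ℕ, ∀ j ≥ j0, ∀ (a : ℝ) (v : A), In (TE (S.Y (A0 * j)) i) a v →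
    ∃ v1, ∃ u ∈ S.UI U0 i, In (TE (S.Y j) i) (C * a) v1 ∧
      In (TG (S.Y (C * j)) (i + 1)) (C * a) (v - v1 - u)

def KL (S : LSetup G A) (U0 : Submodule ℝ A) (i : ℕ) : Prop :=
  ∃ c C : ℕ, ∀ k ≥ 1, ∀ u ∈ S.UI U0 i, In S.B0 (2 ^ k) u → ∃ y : G, S.l y ≤ C * k ∧
    y ∈ S.toSetup.Γ c i ⊔ S.toSetup.Γ (C * k) (i + 1) ∧ In (TG (S.Y (C * k)) i) C (S.R.L y) ∧
    ∃ b, In S.B0 C b ∧ In (TG (S.Y (C * k)) (i + 1)) C (S.R.L y - u - b)

def Car (S : LSetup G A) (i : ℕ) : Prop :=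
  ∃ C0 : ℝ, ∀ Lam : ℝ, ∃ C : ℕ, ∀ j ≥ 1, ∀ v, In (TE (S.Y j) i) Lam v → ∃ y ∈ S.toSetup.Γ j i,
    S.l y ≤ C * j ∧ In (TG (S.Y j) i) C (S.R.L y) ∧
    ∃ v', In (TE (S.Y j) i) C0 v' ∧ In (TG (S.Y j) (i + 1)) C (v - S.R.L y - v')

def PhA (S : LSetup G A) (U0 : Submodule ℝ A) (i : ℕ) : Prop :=
  ∀ Lam : ℝ, ∃ c C : ℕ, ∀ j ≥ 1, ∀ x ∈ S.toSetup.Γ j i, ∀ v, In (TE (S.Y j) i) Lam v →
    ∃ y ∈ S.toSetup.Γ (C * j) i, S.l y ≤ C * j ∧ In (TG (S.Y (C * j)) i) 1 (S.R.L y) ∧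
      y⁻¹ * x ∈ S.toSetup.Γ c i ⊔ S.toSetup.Γ (C * j) (i + 1) ∧
      ∃ b, ∃ u ∈ S.UI U0 i, In S.B0 C b ∧ In (TG (S.Y (C * j)) (i + 1)) 1 (v - S.R.L y - b - u)

def RR (S : LSetup G A) (i : ℕ) : Prop :=
  ∀ Lam : ℝ, ∃ C : ℕ, ∀ k ≥ 1, ∀ x ∈ S.toSetup.Γ k i, In (TG (S.Y k) i) Lam (S.R.L x) →
    S.l x ≤ C * k

end LSetup

/-- The lattice step. -/
def Setup.Lat {G : Type} [Group G] (S : Setup G) (i : ℕ) : Prop :=
  ∃ c C : ℕ, ∀ j ≥ 1, ∀ x ∈ S.Γ j i, ∃ L : List (Fin (i + 1) → G), L.length ≤ C ∧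
    (∀ v ∈ L, ∀ u, v u ∈ S.B (C * j)) ∧
    ((L.map (cm i)).prod)⁻¹ * x ∈ S.Γ c i ⊔ S.Γ (C * j) (i + 1)

end ANd
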