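import Pool.Agent.P.MP_5e7d86_al.BRp

/-! Digit expansion of a vector along a contracting inverse. -/

set_option autoImplicit false
set_option linter.unusedSectionVars false
open Classical
open scoped commutatorElement

namespace ANd

namespace Dig

theorem floor_err {M : ℝ} (hM : 0 < M) (x : ℝ) : |M * (⌊x / M⌋ : ℤ) - x| ≤ M := by
  have h1 := Int.floor_le (x / M)
  have h2 := Int.lt_floor_add_one (x / M)
  rw [le_div_iff₀ hM] at h1
  rw [div_lt_iff₀ hM] at h2
  rw [abs_le]
  constructor <;> nlinarith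

theorem floor_err' (x : ℝ) : |x - (⌊x⌋ : ℤ)| ≤ 1 := by
  have h1 := Int.floor_le x
  have h2 := Int.lt_floor_add_one x
  rw [abs_le]
  constructor <;> linarith

end Dig

open Dig in
theorem pDig : S_Dig := by
  intro A _ _ B0 rho w u M Bm P hB hw hsp hM hT hP hP1 hP2
  have hM' : (0 : ℝ) < M := by exact_mod_cast Nat.pos_of_ne_zero hM
  obtain ⟨g, hg⟩ := LinearMap.exists_leftInverse_of_injective (Fintype.linearCombination ℝ w)
    (LinearMap.ker_eq_bot.2 (linearIndependent_iff_injective_fintypeLinearCombination.1 hw))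
  have hg1 : ∀ c : Fin rho → ℝ, g (∑ s, c s • w s) = c := fun c => by
    have := LinearMap.congr_fun hg c
    rwa [LinearMap.comp_apply, Fintype.linearCombination_apply] at this
  have hg2 : ∀ v ∈ P, ∑ s, g v s • w s = v := fun v hv => by
    have h1 := hP hv
    rw [← hsp, Submodule.mem_span_range_iff_exists_fun] at h1
    obtain ⟨c, rfl⟩ := h1
    rw [hg1]
  obtain ⟨D, hD⟩ := (hB.image fun y => ∑ s, |g y s|).bddAbove
  have hD1 : ∀ s, ∀ y ∈ B0, |g y s| ≤ max D 0 := fun s y hy =>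
    ((Finset.single_le_sum (f := fun s => |g y s|) (fun _ _ => abs_nonneg _)
      (Finset.mem_univ s)).trans (hD ⟨y, hy, rfl⟩)).trans (le_max_left _ _)
  obtain ⟨Cw, hCw, hCw1⟩ := In.exists_unif (Y := B0) (Set.finite_range w)
    (by rw [← hsp]; exact Submodule.subset_span)
  set E : ℝ := ∑ s, ∑ s', |(Bm s s' : ℝ)| with hE
  have hE0 : 0 ≤ E := Finset.sum_nonneg fun _ _ => Finset.sum_nonneg fun _ _ => abs_nonneg _
  have hE1 : ∀ s, ∑ s', |(Bm s s' : ℝ)| ≤ E := fun s =>
    Finset.single_le_sum (f := fun s => ∑ s', |(Bm s s' : ℝ)|)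
      (fun _ _ => Finset.sum_nonneg fun _ _ => abs_nonneg _) (Finset.mem_univ s)
  obtain ⟨C, hC⟩ := exists_nat_ge (M + E + max D 0 + rho * (M * Cw))
  have hD0 : 0 ≤ max D 0 := le_max_right _ _
  have hR0 : 0 ≤ (rho : ℝ) * (M * Cw) := by positivity
  refine ⟨C, fun k v hv hin => ?_⟩
  let vv : ℕ → A := fun i => (Ad u⁻¹)^[i] v
  have hvs : ∀ i, vv (i + 1) = Ad u⁻¹ (vv i) := fun i => Function.iterate_succ_apply' _ _ _
  have hv1 : ∀ i, vv i ∈ P ∧ In B0 (2 ^ k / 2 ^ i) (vv i) := by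
    intro i
    induction i with
    | zero => exact ⟨hv, by rw [pow_zero, div_one]; exact hin⟩
    | succ i ih =>
      rw [hvs, pow_succ, ← div_div]
      exact ⟨hP1 _ ih.1, hP2 _ _ ih.1 ih.2⟩
  have hrec : ∀ i s, g (vv i) s = ∑ s', (Bm s s' : ℝ) * (g (vv (i + 1)) s' / M) := by
    intro i s
    have h1 : vv i = ∑ s, (∑ s', (Bm s s' : ℝ) * (g (vv (i + 1)) s' / M)) • w s := by
      have h2 : vv i = AdH u (∑ s', (g (vv (i + 1)) s' / M) • ((M : ℝ) • w s')) := by
        have : ∑ s', (g (vv (i + 1)) s' / M) • ((M : ℝ) • w s') = vv (i + 1) := by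
          conv_rhs => rw [← hg2 _ (hv1 (i + 1)).1]
          exact Finset.sum_congr rfl fun s' _ => by rw [smul_smul, div_mul_cancel₀ _ hM'.ne']
        rw [this, hvs]
        exact (Ad_Ad_inv u _).symm
      rw [h2, map_sum]
      simp only [Finset.sum_smul]
      rw [Finset.sum_comm]
      refine Finset.sum_congr rfl fun s' _ => ?_
      rw [map_smul]
      have : AdH u ((M : ℝ) • w s') = ∑ s, (Bm s s' : ℝ) • w s := hT s'
      rw [this, Finset.smul_sum]
      exact Finset.sum_congr rfl fun s _ => by rw [smul_smul, mul_comm]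
    conv_lhs => rw [h1, hg1]
  refine ⟨fun i s => if i ≤ k then ⌊g (vv i) s / M⌋ else 0, fun i hi => ?_, fun i s => ?_, ?_⟩
  · funext s; simp [hi.not_ge]
  · have key : ∀ z : ℤ, |(z : ℝ)| ≤ M + E + max D 0 → |z| ≤ (C : ℤ) := fun z hz => by
      have : |(z : ℝ)| ≤ C := by linarith
      exact_mod_cast this
    apply key
    rcases lt_trichotomy i k with h | h | h
    · simp only [if_pos h.le, if_pos (Nat.succ_le_of_lt h)]
      push_cast
      have e : (M : ℝ) * (⌊g (vv i) s / M⌋ : ℤ) - ∑ s', (Bm s s' : ℝ) * (⌊g (vv (i + 1)) s' / M⌋ : ℤ)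
          = (M * (⌊g (vv i) s / M⌋ : ℤ) - g (vv i) s) + ∑ s', (Bm s s' : ℝ) *
            (g (vv (i + 1)) s' / M - (⌊g (vv (i + 1)) s' / M⌋ : ℤ)) := by
        simp only [mul_sub, Finset.sum_sub_distrib]
        rw [← hrec i s]; ring
      rw [e]
      refine (abs_add_le _ _).trans ?_
      have h1 := floor_err hM' (g (vv i) s)
      have h2 : |∑ s', (Bm s s' : ℝ) * (g (vv (i + 1)) s' / M - (⌊g (vv (i + 1)) s' / M⌋ : ℤ))|
          ≤ E := by
        refine (Finset.abs_sum_le_sum_abs _ _).trans ((Finset.sum_le_sum fun s' _ => ?_).trans (hE1 s))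
        rw [abs_mul]
        exact mul_le_of_le_one_right (abs_nonneg _) (floor_err' _)
      linarith
    · subst h
      simp only [if_pos le_rfl, if_neg (Nat.not_succ_le_self i), mul_zero, Finset.sum_const_zero,
        sub_zero]
      push_cast
      have h1 := floor_err hM' (g (vv i) s)
      have h2 : |g (vv i) s| ≤ max D 0 * (2 ^ i / 2 ^ i) :=
        In.abs_le ((LinearMap.proj s).comp g) hD0 (hD1 s) (hv1 i).2
      rw [div_self (by positivity), mul_one] at h2
      have h3 := abs_add_le ((M : ℝ) * (⌊g (vv i) s / M⌋ : ℤ) - g (vv i) s) (g (vv i) s)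
      rw [sub_add_cancel] at h3
      linarith
    · simp only [if_neg h.not_ge, if_neg (Nat.lt_succ_of_lt h).not_ge, mul_zero,
        Finset.sum_const_zero, sub_zero, Int.cast_zero, abs_zero]
      positivity
  · simp only [if_pos (Nat.zero_le k)]
    have e : ∑ s, (((M : ℤ) * ⌊g (vv 0) s / M⌋ : ℤ) : ℝ) • w s - v =
        ∑ s, ((M : ℝ) * (⌊g (vv 0) s / M⌋ : ℤ) - g (vv 0) s) • w s := by
      simp only [sub_smul, Finset.sum_sub_distrib]
      rw [hg2 _ (hv1 0).1]
      push_cast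
      rfl
    rw [e]
    refine (In.sum_le _ _ fun s _ => (hCw1 _ ⟨s, rfl⟩).smul_le (floor_err hM' _)).le ?_
    rw [Finset.card_univ, Fintype.card_fin]
    linarith

end ANd
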