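import Pool.Agent.P.MP_5e7d86_al.BRp

/-! FurB: an amenable group with an element of north-south type is virtually reducible. -/

set_option autoImplicit false
open Classical
open scoped commutatorElement

namespace ANd

namespace FurB

section Norm
variable {K W : Type} [Field K] [AddCommGroup W] [Module K W] {n : ℕ}
  (v : AbsoluteValue K ℝ) (b : Module.Basis (Fin n) K W)

theorem nv_nonneg (w : W) : 0 ≤ nv v b w := Finset.sum_nonneg fun _ _ => v.nonneg _

theorem nv_zero : nv v b (0 : W) = 0 := by simp [nv]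

theorem nv_pos {w : W} (hw : w ≠ 0) : 0 < nv v b w := by
  rcases (nv_nonneg v b w).eq_or_lt with h | h
  · exfalso
    apply hw
    have h1 := (Finset.sum_eq_zero_iff_of_nonneg fun i _ => v.nonneg (b.repr w i)).1 h.symm
    apply b.repr.injective
    ext i
    simpa using h1 i (Finset.mem_univ i)
  · exact h

theorem nv_add (x y : W) : nv v b (x + y) ≤ nv v b x + nv v b y := by
  unfold nv
  rw [← Finset.sum_add_distrib]
  refine Finset.sum_le_sum fun i _ => ?_
  rw [map_add, Finsupp.add_apply]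
  exact v.add_le _ _

theorem nv_smul (c : K) (x : W) : nv v b (c • x) = v c * nv v b x := by
  unfold nv
  rw [Finset.mul_sum]
  refine Finset.sum_congr rfl fun i _ => ?_
  rw [map_smul, Finsupp.smul_apply, smul_eq_mul, v.map_mul]

theorem nv_neg (x : W) : nv v b (-x) = nv v b x := by
  rw [← neg_one_smul K x, nv_smul]
  simp

theorem nv_sum {ι : Type} (s : Finset ι) (f : ι → W) :
    nv v b (∑ i ∈ s, f i) ≤ ∑ i ∈ s, nv v b (f i) := by
  induction s using Finset.induction_on with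
  | empty => simp [nv_zero]
  | insert a s ha ih =>
    rw [Finset.sum_insert ha, Finset.sum_insert ha]
    exact (nv_add v b _ _).trans (by linarith)

theorem nv_bdd (T : W →ₗ[K] W) : ∃ C : ℝ, 0 < C ∧ ∀ w, nv v b (T w) ≤ C * nv v b w := by
  have h0 : 0 ≤ ∑ j, nv v b (T (b j)) := Finset.sum_nonneg fun j _ => nv_nonneg v b _
  refine ⟨∑ j, nv v b (T (b j)) + 1, by linarith, fun w => ?_⟩
  have e : T w = ∑ i, b.repr w i • T (b i) := by
    conv_lhs => rw [← b.sum_repr w]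
    rw [map_sum]
    exact Finset.sum_congr rfl fun i _ => map_smul _ _ _
  rw [e]
  refine (nv_sum v b _ _).trans ?_
  conv_rhs => unfold nv
  rw [Finset.mul_sum]
  refine Finset.sum_le_sum fun i _ => ?_
  rw [nv_smul, mul_comm]
  refine mul_le_mul_of_nonneg_right ?_ (v.nonneg _)
  have h1 : nv v b (T (b i)) ≤ ∑ j, nv v b (T (b j)) :=
    Finset.single_le_sum (f := fun j => nv v b (T (b j))) (fun j _ => nv_nonneg v b _)
      (Finset.mem_univ i)
  have h2 : (∑ j, nv v b (T (b j))) = ∑ j, ∑ i, v (b.repr (T (b j)) i) := rfl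
  linarith

theorem near_mono {ep ep' : ℝ} (h : ep ≤ ep') {X : Submodule K W} {w : W}
    (hw : Near v b ep X w) : Near v b ep' X w := by
  obtain ⟨w', h1, h2⟩ := hw
  exact ⟨w', h1, h2.trans (mul_le_mul_of_nonneg_right h (nv_nonneg v b w))⟩

theorem near_map (S T : W →ₗ[K] W) (hST : ∀ w, S (T w) = w) :
    ∃ C : ℝ, 0 < C ∧ ∀ (ep : ℝ), 0 ≤ ep → ∀ (X : Submodule K W) (w : W),
      Near v b ep X w → Near v b (C * ep) (X.map T) (T w) := by
  obtain ⟨C1, h1, hC1⟩ := nv_bdd v b T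
  obtain ⟨C2, h2, hC2⟩ := nv_bdd v b S
  refine ⟨C1 * C2, mul_pos h1 h2, fun ep hep X w ⟨w', hw', h⟩ =>
    ⟨T w', Submodule.mem_map_of_mem hw', ?_⟩⟩
  have h3 := hC2 (T w)
  rw [hST] at h3
  rw [← map_sub]
  calc nv v b (T (w - w')) ≤ C1 * nv v b (w - w') := hC1 _
    _ ≤ C1 * (ep * nv v b w) := mul_le_mul_of_nonneg_left h h1.le
    _ ≤ C1 * (ep * (C2 * nv v b (T w))) :=
      mul_le_mul_of_nonneg_left (mul_le_mul_of_nonneg_left h3 hep) h1.le
    _ = C1 * C2 * ep * nv v b (T w) := by ring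

theorem exists_split (X Y : Submodule K W) :
    ∃ L : W →ₗ[K] W, ∀ x ∈ X, ∀ y ∈ Y, x - L (x - y) ∈ X ⊓ Y := by
  let φ : (X × Y) →ₗ[K] W :=
    X.subtype.comp (LinearMap.fst K X Y) - Y.subtype.comp (LinearMap.snd K X Y)
  have hφ : ∀ z : X × Y, φ z = (z.1 : W) - z.2 := fun _ => rfl
  obtain ⟨s0, hs0⟩ := φ.rangeRestrict.exists_rightInverse_of_surjective φ.range_rangeRestrict
  obtain ⟨s, hs⟩ := LinearMap.exists_extend s0
  refine ⟨X.subtype.comp ((LinearMap.fst K X Y).comp s), fun x hx y hy => ?_⟩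
  have hm : x - y ∈ LinearMap.range φ := ⟨(⟨x, hx⟩, ⟨y, hy⟩), rfl⟩
  have h1 : s (x - y) = s0 ⟨x - y, hm⟩ := by
    rw [← hs]; rfl
  have h2 : φ (s0 ⟨x - y, hm⟩) = x - y :=
    congrArg Subtype.val (LinearMap.congr_fun hs0 ⟨x - y, hm⟩)
  rw [← h1, hφ] at h2
  refine ⟨sub_mem hx (s (x - y)).1.2, ?_⟩
  have h3 : x - ((s (x - y)).1 : W) = y - (s (x - y)).2 := by
    rw [sub_eq_sub_iff_sub_eq_sub]
    exact h2.symm
  show x - ((s (x - y)).1 : W) ∈ Y
  rw [h3]
  exact sub_mem hy (s (x - y)).2.2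

theorem near_inf (X Y : Submodule K W) :
    ∃ C : ℝ, 0 < C ∧ ∀ (ep : ℝ) (w : W),
      Near v b ep X w → Near v b ep Y w → Near v b (C * ep) (X ⊓ Y) w := by
  obtain ⟨L, hL⟩ := exists_split X Y
  obtain ⟨C, hC, hb⟩ := nv_bdd v b L
  refine ⟨1 + 2 * C, by linarith, fun ep w ⟨x, hx, h1⟩ ⟨y, hy, h2⟩ => ⟨_, hL x hx y hy, ?_⟩⟩
  have e1 : w - (x - L (x - y)) = (w - x) + L (x - y) := by abel
  have e2 : x - y = -(w - x) + (w - y) := by abel
  have h3 : nv v b (x - y) ≤ nv v b (w - x) + nv v b (w - y) := by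
    conv_lhs => rw [e2]
    exact (nv_add v b _ _).trans (by rw [nv_neg])
  have h4 := nv_add v b (w - x) (L (x - y))
  have h5 := hb (x - y)
  have h6 : C * nv v b (x - y) ≤ C * (2 * (ep * nv v b w)) :=
    mul_le_mul_of_nonneg_left (by linarith) hC.le
  rw [e1]
  nlinarith

end Norm

section Mean
variable {G : Type} {mu : Set G → ℝ}

structure Mn (mu : Set G → ℝ) : Prop where
  univ : mu Set.univ = 1
  nn : ∀ A, 0 ≤ mu A
  add : ∀ A B, Disjoint A B → mu (A ∪ B) = mu A + mu B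

theorem Mn.empty (h : Mn mu) : mu ∅ = 0 := by
  have := h.add ∅ ∅ (by simp)
  rw [Set.union_self] at this
  linarith

theorem Mn.mono (h : Mn mu) {A B : Set G} (hAB : A ⊆ B) : mu A ≤ mu B := by
  have := h.add A (B \ A) Set.disjoint_sdiff_right
  rw [Set.union_diff_cancel hAB] at this
  have := h.nn (B \ A)
  linarith

theorem Mn.union_le (h : Mn mu) (A B : Set G) : mu (A ∪ B) ≤ mu A + mu B := by
  have h1 := h.add A (B \ A) Set.disjoint_sdiff_right
  rw [Set.union_diff_self] at h1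
  have h2 : mu (B \ A) ≤ mu B := h.mono Set.diff_subset
  linarith

theorem Mn.biUnion_le (h : Mn mu) {ι : Type} (s : Finset ι) (A : ι → Set G) :
    mu (⋃ i ∈ s, A i) ≤ ∑ i ∈ s, mu (A i) := by
  induction s using Finset.induction_on with
  | empty => simp [h.empty]
  | insert a s ha ih =>
    rw [Finset.sum_insert ha, Finset.set_biUnion_insert]
    exact (h.union_le _ _).trans (by linarith)

theorem Mn.biUnion_eq (h : Mn mu) {ι : Type} (s : Finset ι) (A : ι → Set G)
    (hd : ∀ i ∈ s, ∀ j ∈ s, i ≠ j → Disjoint (A i) (A j)) :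
    mu (⋃ i ∈ s, A i) = ∑ i ∈ s, mu (A i) := by
  induction s using Finset.induction_on with
  | empty => simp [h.empty]
  | insert a s ha ih =>
    rw [Finset.sum_insert ha, Finset.set_biUnion_insert, h.add,
      ih fun i hi j hj => hd i (Finset.mem_insert_of_mem hi) j (Finset.mem_insert_of_mem hj)]
    rw [Set.disjoint_iUnion₂_right]
    intro i hi
    exact hd a (Finset.mem_insert_self a s) i (Finset.mem_insert_of_mem hi)
      fun e => ha (e ▸ hi)

theorem Mn.bonf (h : Mn mu) {ι : Type} (s : Finset ι) (A : ι → Set G) :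
    ∑ i ∈ s, mu (A i) ≤ 1 + ∑ i ∈ s, ∑ j ∈ s.erase i, mu (A i ∩ A j) := by
  let B : ι → Set G := fun i => A i \ ⋃ j ∈ s.erase i, A j
  have h1 : ∑ i ∈ s, mu (B i) ≤ 1 := by
    rw [← h.biUnion_eq s B, ← h.univ]
    · exact h.mono (Set.subset_univ _)
    · intro i hi j hj hij
      rw [Set.disjoint_left]
      intro x hx hx'
      exact hx.2 (Set.mem_biUnion (Finset.mem_coe.2 (Finset.mem_erase.2 ⟨hij.symm, hj⟩)) hx'.1)
  have h2 : ∀ i ∈ s, mu (A i) ≤ mu (B i) + ∑ j ∈ s.erase i, mu (A i ∩ A j) := by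
    intro i _
    have h3 : A i ⊆ B i ∪ ⋃ j ∈ s.erase i, A i ∩ A j := by
      intro x hx
      by_cases e : x ∈ ⋃ j ∈ s.erase i, A j
      · obtain ⟨j, hj, hx'⟩ := Set.mem_iUnion₂.1 e
        exact Or.inr (Set.mem_iUnion₂.2 ⟨j, hj, hx, hx'⟩)
      · exact Or.inl ⟨hx, e⟩
    have h4 := h.biUnion_le (s.erase i) fun j => A i ∩ A j
    exact (h.mono h3).trans ((h.union_le _ _).trans (by linarith))
  have h5 := Finset.sum_le_sum h2
  rw [Finset.sum_add_distrib] at h5
  linarith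

end Mean

section Main
variable {K Γ W : Type} [Field K] [Group Γ] [AddCommGroup W] [Module K W] {n : ℕ}
  (rho : Representation K Γ W) (v : AbsoluteValue K ℝ) (b : Module.Basis (Fin n) K W) (x0 : W)

/-- the group elements which move `x0` close to `X` -/
def AA (ep : ℝ) (X : Submodule K W) : Set Γ := {g | Near v b ep X (rho g x0)}

/-- the mass of `X` is at least `dl` -/
def PP (mu : Set Γ → ℝ) (dl : ℝ) (X : Submodule K W) : Prop :=
  ∀ ep : ℝ, 0 < ep → dl ≤ mu (AA rho v b x0 ep X)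

theorem rho_mul (g h : Γ) (w : W) : rho (g * h) w = rho g (rho h w) := by
  rw [map_mul]; rfl

theorem rho_inv (g : Γ) (w : W) : rho g⁻¹ (rho g w) = w := by
  rw [← rho_mul, inv_mul_cancel, map_one]; rfl

/-- the action on subspaces -/
@[reducible] def sact : MulAction Γ (Submodule K W) where
  smul g X := X.map (rho g)
  one_smul X := by
    show X.map (rho 1) = X
    rw [map_one]
    exact Submodule.map_id X
  mul_smul g h X := by
    show X.map (rho (g * h)) = (X.map (rho h)).map (rho g)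
    rw [map_mul, ← Submodule.map_comp]
    rfl

theorem finrank_map [FiniteDimensional K W] (g : Γ) (X : Submodule K W) :
    Module.finrank K (X.map (rho g)) = Module.finrank K X := by
  refine le_antisymm (Submodule.finrank_map_le _ _) ?_
  have e : (X.map (rho g)).map (rho g⁻¹) = X := by
    rw [← Submodule.map_comp]
    have : (rho g⁻¹).comp (rho g) = LinearMap.id := LinearMap.ext (rho_inv rho g)
    rw [this, Submodule.map_id]
  conv_lhs => rw [← e]
  exact Submodule.finrank_map_le _ _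

variable {rho v b x0} {mu : Set Γ → ℝ}

theorem shift (h : Mn mu) (hi : ∀ (g : Γ) A, mu ((fun x => g * x) '' A) = mu A) (g : Γ)
    {A B : Set Γ} (hAB : ∀ x ∈ A, g * x ∈ B) : mu A ≤ mu B := by
  rw [← hi g A]
  refine h.mono ?_
  rintro _ ⟨x, hx, rfl⟩
  exact hAB x hx

theorem PP.map (h : Mn mu) (hi : ∀ (g : Γ) A, mu ((fun x => g * x) '' A) = mu A) {dl : ℝ}
    {X : Submodule K W} (hX : PP rho v b x0 mu dl X) (g : Γ) :
    PP rho v b x0 mu dl (X.map (rho g)) := by
  obtain ⟨C, hC, hb⟩ := near_map v b (rho g⁻¹) (rho g) (rho_inv rho g)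
  intro ep hep
  have h1 : 0 < ep / C := div_pos hep hC
  refine (hX _ h1).trans (shift h hi g fun x hx => ?_)
  have h2 := hb _ h1.le X _ hx
  rw [mul_div_cancel₀ _ hC.ne', ← rho_mul] at h2
  exact h2

theorem not_bot (h : Mn mu) (hx : x0 ≠ 0) {dl : ℝ} (hd : 0 < dl) :
    ¬ PP rho v b x0 mu dl ⊥ := by
  intro hP
  have h1 := hP (1 / 2) (by norm_num)
  have h2 : AA rho v b x0 (1 / 2) ⊥ = ∅ := by
    rw [Set.eq_empty_iff_forall_notMem]
    rintro g ⟨w', hw', h3⟩
    rw [(Submodule.mem_bot K).1 hw', sub_zero] at h3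
    have h4 : rho g x0 ≠ 0 := fun e => hx (by rw [← rho_inv rho g x0, e, map_zero])
    have h5 := nv_pos v b h4
    linarith
  rw [h2, h.empty] at h1
  linarith

theorem one_of (h : Mn mu) (hi : ∀ (g : Γ) A, mu ((fun x => g * x) '' A) = mu A) {g : Γ}
    {V1 V2 : Submodule K W} (hns : ∀ ep0 : ℝ, 0 < ep0 → ∀ ep : ℝ, 0 < ep →
      ∃ N : ℕ, ∀ w, ¬ Near v b ep0 V2 w → Near v b ep V1 ((rho g ^ N) w)) :
    PP rho v b x0 mu (1 / 2) V1 ∨ PP rho v b x0 mu (1 / 2) V2 := by
  by_cases h2 : PP rho v b x0 mu (1 / 2) V2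
  · exact Or.inr h2
  left
  unfold PP at h2
  push Not at h2
  obtain ⟨ep0, h0, h3⟩ := h2
  intro ep hep
  obtain ⟨N, hN⟩ := hns ep0 h0 ep hep
  have h4 := h.add (AA rho v b x0 ep0 V2) (AA rho v b x0 ep0 V2)ᶜ disjoint_compl_right
  rw [Set.union_compl_self, h.univ] at h4
  have h5 : mu (AA rho v b x0 ep0 V2)ᶜ ≤ mu (AA rho v b x0 ep V1) := by
    refine shift h hi (g ^ N) fun x hx => ?_
    have h6 := hN _ hx
    rw [← map_pow, ← rho_mul] at h6
    exact h6
  linarith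

theorem small (h : Mn mu) {X Y : Submodule K W}
    (hn : ∀ dl : ℝ, 0 < dl → ¬ PP rho v b x0 mu dl (X ⊓ Y)) :
    Filter.Tendsto (fun ep => mu (AA rho v b x0 ep X ∩ AA rho v b x0 ep Y))
      (nhdsWithin 0 (Set.Ioi 0)) (nhds 0) := by
  obtain ⟨C, hC, hb⟩ := near_inf v b X Y
  rw [Metric.tendsto_nhdsWithin_nhds]
  intro dl hdl
  have h1 := hn dl hdl
  unfold PP at h1
  push Not at h1
  obtain ⟨ep0, h0, h2⟩ := h1
  refine ⟨ep0 / C, div_pos h0 hC, fun ep hep hlt => ?_⟩
  have hep' : 0 < ep := hep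
  rw [Real.dist_eq, sub_zero, abs_of_pos hep', lt_div_iff₀ hC] at hlt
  rw [Real.dist_eq, sub_zero, abs_of_nonneg (h.nn _)]
  refine lt_of_le_of_lt (h.mono ?_) h2
  rintro x ⟨hx, hy⟩
  exact near_mono v b (by linarith) (hb ep _ hx hy)

theorem card_le (h : Mn mu) {dl : ℝ} (F : Finset (Submodule K W))
    (hF : ∀ X ∈ F, PP rho v b x0 mu dl X)
    (hn : ∀ X ∈ F, ∀ Y ∈ F, X ≠ Y → ∀ e : ℝ, 0 < e → ¬ PP rho v b x0 mu e (X ⊓ Y)) :
    (F.card : ℝ) * dl ≤ 1 := by
  have h1 : Filter.Tendsto (fun ep => 1 + ∑ X ∈ F, ∑ Y ∈ F.erase X,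
      mu (AA rho v b x0 ep X ∩ AA rho v b x0 ep Y)) (nhdsWithin 0 (Set.Ioi 0))
      (nhds (1 + ∑ X ∈ F, ∑ _Y ∈ F.erase X, (0 : ℝ))) := by
    refine Filter.Tendsto.const_add _ ?_
    refine tendsto_finsetSum _ fun X hX => tendsto_finsetSum _ fun Y hY => ?_
    exact small h (hn X hX Y (Finset.mem_of_mem_erase hY) (Finset.ne_of_mem_erase hY).symm)
  simp only [Finset.sum_const_zero, add_zero] at h1
  refine ge_of_tendsto h1 ?_
  filter_upwards [self_mem_nhdsWithin] with ep hep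
  refine le_trans ?_ (h.bonf F fun X => AA rho v b x0 ep X)
  have h2 := Finset.card_nsmul_le_sum F (fun X => mu (AA rho v b x0 ep X)) dl
    fun X hX => hF X hX ep hep
  rwa [nsmul_eq_mul] at h2

end Main

end FurB

open FurB in
theorem pFurB : S_FurB := by
  intro K Γ W _ _ _ _ n rho v b g ⟨mu, m1, m2, m3, hi⟩ ⟨V1, V2, hV1, hV2, hns⟩
  have h : Mn mu := ⟨m1, m2, m3⟩
  have : FiniteDimensional K W := Module.Finite.of_basis b
  obtain ⟨x0, -, hx1⟩ := SetLike.exists_of_lt (lt_top_iff_ne_top.2 hV1)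
  have hx0 : x0 ≠ 0 := fun e => hx1 (e ▸ V1.zero_mem)
  have hex : ∃ V : Submodule K W, V ≠ ⊤ ∧ ∃ dl : ℝ, 0 < dl ∧ PP rho v b x0 mu dl V := by
    rcases one_of (x0 := x0) h hi hns with h1 | h1
    · exact ⟨V1, hV1, _, by norm_num, h1⟩
    · exact ⟨V2, hV2, _, by norm_num, h1⟩
  obtain ⟨V, hV, hP⟩ := hex
  obtain ⟨X, ⟨dl, hdl, hX⟩, hmin⟩ := exists_minimalFor_of_wellFoundedLT
    (fun Y : Submodule K W => ∃ dl : ℝ, 0 < dl ∧ PP rho v b x0 mu dl Y)
    (fun Y => Module.finrank K Y) ⟨V, hP⟩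
  have hmin' : ∀ Y : Submodule K W, Module.finrank K Y < Module.finrank K X →
      ∀ e : ℝ, 0 < e → ¬ PP rho v b x0 mu e Y := fun Y hY e he hP' =>
    absurd (hmin ⟨e, he, hP'⟩ hY.le) (not_le.2 hY)
  have hXt : X ≠ ⊤ := by
    rintro rfl
    obtain ⟨e, he, hP'⟩ := hP
    exact hmin' V (Submodule.finrank_lt_finrank_of_lt (lt_top_iff_ne_top.2 hV)) e he hP'
  have hXb : X ≠ ⊥ := by
    rintro rfl
    exact not_bot h hx0 hdl hX
  let _ := sact rho
  have hfin : (MulAction.orbit Γ X).Finite := by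
    by_contra hinf
    obtain ⟨M, hM⟩ := exists_nat_gt (1 / dl)
    obtain ⟨F, hF, hc⟩ := Set.Infinite.exists_subset_card_eq hinf M
    have h1 := card_le (rho := rho) (v := v) (b := b) (x0 := x0) h (dl := dl) F ?_ ?_
    · rw [hc] at h1
      rw [div_lt_iff₀ hdl] at hM
      linarith
    · intro Y hY
      obtain ⟨a, rfl⟩ := hF hY
      exact hX.map h hi a
    · intro Y hY Z hZ hYZ
      obtain ⟨a, ha⟩ := hF hY
      obtain ⟨c, hc⟩ := hF hZ
      have e1 : Module.finrank K Y = Module.finrank K X := by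
        rw [← ha]; exact finrank_map rho a X
      have e2 : Module.finrank K Z = Module.finrank K X := by
        rw [← hc]; exact finrank_map rho c X
      refine hmin' _ ?_
      rw [← e1]
      refine Submodule.finrank_lt_finrank_of_lt (lt_of_le_of_ne inf_le_left fun e => hYZ ?_)
      exact Submodule.eq_of_le_of_finrank_eq (inf_eq_left.1 e) (e1.trans e2.symm)
  refine ⟨MulAction.stabilizer Γ X, ⟨?_⟩, X, hXb, hXt, fun a ha w hw => ?_⟩
  · rw [MulAction.index_stabilizer]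
    exact ((Set.ncard_pos hfin).2 (MulAction.nonempty_orbit X)).ne'
  · have e : X.map (rho a) = X := ha
    rw [← e]
    exact Submodule.mem_map_of_mem hw

theorem pFurst (h1 : S_FurA) (h2 : S_FurB) : S_Furst := by
  intro K Γ W _ _ _ _ _ _ rho v g a b hA ha hb hab
  exact h2 K Γ W _ rho v (Module.finBasis K W) g hA
    (h1 K W _ v (Module.finBasis K W) (rho g) a b ((Group.isUnit g).map rho) ha hb hab)

end ANd
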