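import Pool.Agent.P.MP_5e7d86_al.BRp

/-! Package LBt: torsion steps of a tower do not change rational homology. -/

set_option autoImplicit false
open Classical
open scoped commutatorElement

namespace ANd

namespace LBt

variable {P : Type} [Group P] {M : Type} [AddCommGroup M] [Module ℚ M]

/-- Averaging operators over `Γ'`, relative to `Γ`. -/
structure Good (rho : Representation ℚ P M) (Γ Γ' : Subgroup P)
    (E : ∀ n, Ch P M n →ₗ[ℚ] Ch P M n) : Prop where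
  aff : ∀ n (c : Ch P M n) (W : Submodule ℚ (Ch P M n)),
    (∀ g ∈ Γ', act rho n g c - c ∈ W) → E n c - c ∈ W
  bdc : ∀ n (c : Ch P M (n + 1)), bd P M n (E (n + 1) c) = E n (bd P M n c)
  comm : ∀ n (c : Ch P M n), ∀ g ∈ Γ', E n (act rho n g c) - act rho n g (E n c) ∈ JJ rho Γ n

theorem gen_mem (rho : Representation ℚ P M) (Γ : Subgroup P) (n : ℕ) {g : P} (hg : g ∈ Γ)
    (c : Ch P M n) : act rho n g c - c ∈ JJ rho Γ n :=
  Submodule.subset_span ⟨g, hg, c, rfl⟩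

section
variable (hB : S_ChB) {rho : Representation ℚ P M} {Γ Γ' : Subgroup P}
include hB

theorem act_mul (n : ℕ) (g h : P) (c : Ch P M n) :
    act rho n (g * h) c = act rho n g (act rho n h c) :=
  ((hB P M).2.2.2 rho).2.1 n g h c

theorem act_one (n : ℕ) (c : Ch P M n) : act rho n 1 c = c :=
  ((hB P M).2.2.2 rho).2.2.1 n c

theorem bd_act (n : ℕ) (g : P) (c : Ch P M (n + 1)) :
    bd P M n (act rho (n + 1) g c) = act rho n g (bd P M n c) :=
  ((hB P M).2.2.2 rho).1 n g c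

theorem JJ_mono (n : ℕ) (h : Γ ≤ Γ') : JJ rho Γ n ≤ JJ rho Γ' n :=
  ((hB P M).2.2.2 rho).2.2.2.2.2 Γ Γ' n h

theorem act_pres (hle : Γ ≤ Γ') (hc : ∀ x ∈ Γ', ∀ y ∈ Γ', ⁅x, y⁆ ∈ Γ) (n : ℕ) {g : P}
    (hg : g ∈ Γ') {c : Ch P M n} (h : c ∈ JJ rho Γ n) : act rho n g c ∈ JJ rho Γ n := by
  refine ((hB P M).2.2.2 rho).2.2.2.2.1 Γ n g c (fun x hx => ?_) h
  have h1 : g * x * g⁻¹ = ⁅g, x⁆ * x := by
    rw [commutatorElement_def]; group
  rw [h1]
  exact Γ.mul_mem (hc g hg x (hle hx)) hx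

theorem Good.span {E : ∀ n, Ch P M n →ₗ[ℚ] Ch P M n} (hE : Good rho Γ Γ' E) (n : ℕ)
    (c : Ch P M n) (W : Submodule ℚ (Ch P M n)) (h : ∀ g ∈ Γ', act rho n g c ∈ W) :
    E n c ∈ W := by
  have hc : c ∈ W := by
    have := h 1 Γ'.one_mem
    rwa [act_one hB] at this
  have h1 := hE.aff n c W (fun g hg => W.sub_mem (h g hg) hc)
  have h2 := W.add_mem h1 hc
  rwa [sub_add_cancel] at h2

theorem Good.pres (hle : Γ ≤ Γ') (hc : ∀ x ∈ Γ', ∀ y ∈ Γ', ⁅x, y⁆ ∈ Γ)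
    {E : ∀ n, Ch P M n →ₗ[ℚ] Ch P M n} (hE : Good rho Γ Γ' E) (n : ℕ)
    {c : Ch P M n} (h : c ∈ JJ rho Γ n) : E n c ∈ JJ rho Γ n :=
  hE.span hB n c _ (fun _ hg => act_pres hB hle hc n hg h)

omit hB in
theorem good_id : Good rho Γ Γ' (fun _ => LinearMap.id) where
  aff := fun n c W _ => by simp
  bdc := fun n c => rfl
  comm := fun n c g _ => by simp

theorem Good.comp (hle : Γ ≤ Γ') (hc : ∀ x ∈ Γ', ∀ y ∈ Γ', ⁅x, y⁆ ∈ Γ)
    {E1 E2 : ∀ n, Ch P M n →ₗ[ℚ] Ch P M n} (h1 : Good rho Γ Γ' E1) (h2 : Good rho Γ Γ' E2) :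
    Good rho Γ Γ' (fun n => (E1 n).comp (E2 n)) where
  aff := fun n c W hW => by
    have ha : E2 n c - c ∈ W := h2.aff n c W hW
    have hb : E1 n (E2 n c) - E2 n c ∈ W := by
      refine h1.aff n _ W (fun g hg => ?_)
      have hd : E2 n c - c ∈ W.comap (act rho n g - LinearMap.id) := by
        refine h2.aff n c _ (fun h hh => ?_)
        rw [Submodule.mem_comap]
        have e : (act rho n g - LinearMap.id : Ch P M n →ₗ[ℚ] Ch P M n) (act rho n h c - c) =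
            (act rho n (g * h) c - c) - (act rho n g c - c) - (act rho n h c - c) := by
          rw [act_mul hB]
          simp only [LinearMap.sub_apply, LinearMap.id_apply, map_sub]
          abel
        rw [e]
        exact W.sub_mem (W.sub_mem (hW _ (Γ'.mul_mem hg hh)) (hW g hg)) (hW h hh)
      rw [Submodule.mem_comap] at hd
      have e : act rho n g (E2 n c) - E2 n c =
          (act rho n g - LinearMap.id : Ch P M n →ₗ[ℚ] Ch P M n) (E2 n c - c) +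
            (act rho n g c - c) := by
        simp only [LinearMap.sub_apply, LinearMap.id_apply, map_sub]
        abel
      rw [e]
      exact W.add_mem hd (hW g hg)
    have e : ((E1 n).comp (E2 n)) c - c = (E1 n (E2 n c) - E2 n c) + (E2 n c - c) := by
      simp only [LinearMap.comp_apply]
      abel
    rw [e]
    exact W.add_mem hb ha
  bdc := fun n c => by
    simp only [LinearMap.comp_apply]
    rw [h1.bdc, h2.bdc]
  comm := fun n c g hg => by
    have e : ((E1 n).comp (E2 n)) (act rho n g c) - act rho n g (((E1 n).comp (E2 n)) c) =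
        E1 n (E2 n (act rho n g c) - act rho n g (E2 n c)) +
          (E1 n (act rho n g (E2 n c)) - act rho n g (E1 n (E2 n c))) := by
      simp only [LinearMap.comp_apply, map_sub]
      abel
    rw [e]
    exact Submodule.add_mem _ (h1.pres hB hle hc n (h2.comm n c g hg)) (h1.comm n _ g hg)

theorem good_cyc (hc : ∀ x ∈ Γ', ∀ y ∈ Γ', ⁅x, y⁆ ∈ Γ) {g : P} (hg : g ∈ Γ') {m : ℕ}
    (hm : m ≠ 0) :
    Good rho Γ Γ' (fun n => (m : ℚ)⁻¹ • ∑ i ∈ Finset.range m, act rho n (g ^ i)) where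
  aff := fun n c W hW => by
    have hm' : (m : ℚ) ≠ 0 := Nat.cast_ne_zero.2 hm
    have e : ((m : ℚ)⁻¹ • ∑ i ∈ Finset.range m, act rho n (g ^ i)) c - c =
        (m : ℚ)⁻¹ • ∑ i ∈ Finset.range m, (act rho n (g ^ i) c - c) := by
      rw [Finset.sum_sub_distrib, smul_sub, Finset.sum_const, Finset.card_range,
        ← Nat.cast_smul_eq_nsmul ℚ, smul_smul, inv_mul_cancel₀ hm', one_smul,
        LinearMap.smul_apply, LinearMap.sum_apply]
    rw [e]
    exact W.smul_mem _ (W.sum_mem fun i _ => hW _ (Γ'.pow_mem hg i))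
  bdc := fun n c => by
    simp only [LinearMap.smul_apply, LinearMap.sum_apply, map_smul, map_sum, bd_act hB]
  comm := fun n c h hh => by
    simp only [LinearMap.smul_apply, LinearMap.sum_apply, map_smul, map_sum]
    rw [← smul_sub, ← Finset.sum_sub_distrib]
    refine Submodule.smul_mem _ _ (Submodule.sum_mem _ fun i _ => ?_)
    rw [← act_mul hB, ← act_mul hB]
    have e : g ^ i * h = ⁅g ^ i, h⁆ * (h * g ^ i) := by
      rw [commutatorElement_def]; group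
    rw [e, act_mul hB]
    exact gen_mem rho Γ n (hc _ (Γ'.pow_mem hg i) h hh) _

theorem exists_good (hle : Γ ≤ Γ') (hc : ∀ x ∈ Γ', ∀ y ∈ Γ', ⁅x, y⁆ ∈ Γ)
    (ht : ∀ x ∈ Γ', ∃ n : ℕ, n ≠ 0 ∧ x ^ n ∈ Γ) (n : ℕ) {c : Ch P M n}
    (h : c ∈ JJ rho Γ' n) : ∃ E, Good rho Γ Γ' E ∧ E n c ∈ JJ rho Γ n := by
  induction h using Submodule.span_induction with
  | mem y hy =>
    obtain ⟨g, hg, c, rfl⟩ := hy
    obtain ⟨m, hm, hgm⟩ := ht g hg
    refine ⟨_, good_cyc hB hc hg hm, ?_⟩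
    simp only [LinearMap.smul_apply, LinearMap.sum_apply]
    refine Submodule.smul_mem _ _ ?_
    have e : ∑ i ∈ Finset.range m, act rho n (g ^ i) (act rho n g c - c) =
        act rho n (g ^ m) c - c := by
      have h1 := Finset.sum_range_sub (fun i => act rho n (g ^ i) c) m
      simp only [pow_zero, act_one hB] at h1
      rw [← h1]
      refine Finset.sum_congr rfl fun i _ => ?_
      rw [map_sub, ← act_mul hB, pow_succ]
    rw [e]
    exact gen_mem rho Γ n hgm c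
  | zero => exact ⟨_, good_id, by simp⟩
  | add a b _ _ ha hb =>
    obtain ⟨E1, h1, ha⟩ := ha
    obtain ⟨E2, h2, hb⟩ := hb
    refine ⟨_, h1.comp hB hle hc h2, ?_⟩
    simp only [LinearMap.comp_apply, map_add]
    refine Submodule.add_mem _ ?_ (h1.pres hB hle hc n hb)
    have h3 : E2 n a ∈ (JJ rho Γ n).comap (E1 n) := by
      refine h2.span hB n a _ (fun g hg => ?_)
      rw [Submodule.mem_comap]
      have h4 := Submodule.add_mem _ (h1.comm n a g hg) (act_pres hB hle hc n hg ha)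
      rwa [sub_add_cancel] at h4
    exact h3
  | smul r a _ ha =>
    obtain ⟨E, h1, ha⟩ := ha
    exact ⟨E, h1, by rw [map_smul]; exact Submodule.smul_mem _ _ ha⟩

omit hB in
theorem bdy_iff (rho : Representation ℚ P M) (Γ : Subgroup P) (k : ℕ) (c : Ch P M (k + 1)) :
    Bdy rho Γ k c ↔ c ∈ JJ rho Γ (k + 1) ⊔ LinearMap.range (bd P M (k + 1)) := by
  constructor
  · rintro ⟨u, hu⟩
    exact Submodule.mem_sup.2 ⟨_, hu, _, ⟨u, rfl⟩, sub_add_cancel _ _⟩
  · intro h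
    obtain ⟨a, ha, b, ⟨u, rfl⟩, rfl⟩ := Submodule.mem_sup.1 h
    exact ⟨u, by rwa [add_sub_cancel_right]⟩

theorem bdy_mono (hle : Γ ≤ Γ') {k : ℕ} {c : Ch P M (k + 1)} (h : Bdy rho Γ k c) :
    Bdy rho Γ' k c := by
  obtain ⟨u, hu⟩ := h
  exact ⟨u, JJ_mono hB _ hle hu⟩

/-- A cycle over `Γ'` is congruent to a cycle over `Γ`. -/
theorem exists_cyc (hle : Γ ≤ Γ') (hc : ∀ x ∈ Γ', ∀ y ∈ Γ', ⁅x, y⁆ ∈ Γ)
    (ht : ∀ x ∈ Γ', ∃ n : ℕ, n ≠ 0 ∧ x ^ n ∈ Γ) (k : ℕ) {c : Ch P M (k + 1)}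
    (h : Cyc rho Γ' k c) : ∃ c', Cyc rho Γ k c' ∧ c' - c ∈ JJ rho Γ' (k + 1) := by
  rcases h with h | h
  · exact ⟨c, Or.inl h, by simp⟩
  · obtain ⟨E, hE, h1⟩ := exists_good hB hle hc ht k h
    refine ⟨E (k + 1) c, Or.inr ?_, hE.aff _ c _ (fun g hg => gen_mem rho Γ' _ hg c)⟩
    rw [hE.bdc]
    exact h1

end

end LBt

open LBt in
theorem pLBt (hB : S_ChB) : S_LBt := by
  intro P _ chi A Γ Γ' j hle hA hcm ht hV ⟨z, hz⟩
  have hc : ∀ x ∈ Γ', ∀ y ∈ Γ', ⁅x, y⁆ ∈ Γ := fun x hx y hy =>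
    hcm (Subgroup.commutator_mem_commutator (hA hx) hy)
  refine ⟨?_, z, ?_, ?_, ?_, ?_⟩
  · intro M _ _ rho k hk c hcy
    obtain ⟨c', h1, h2⟩ := exists_cyc hB hle hc ht k hcy
    obtain ⟨u, hu⟩ := hV M rho k hk c' h1
    refine ⟨u, ?_⟩
    have e : c - bd P M (k + 1) u = (c' - bd P M (k + 1) u) - (c' - c) := by abel
    rw [e]
    exact Submodule.sub_mem _ (JJ_mono hB _ hle hu) h2
  · rcases hz.cyc with h | h
    · exact Or.inl h
    · exact Or.inr (JJ_mono hB _ hle h)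
  · rintro ⟨u, hu⟩
    obtain ⟨E, hE, h1⟩ := exists_good hB hle hc ht _ hu
    apply hz.ne
    rw [bdy_iff]
    have h2 : E (j + 1) z - z ∈
        JJ (chr chi) Γ (j + 1) ⊔ LinearMap.range (bd P ℚ (j + 1)) :=
      hE.aff _ z _ (fun g hg => (bdy_iff _ _ _ _).1 (hz.inv g (hA hg)))
    have h3 : E (j + 1) z ∈ JJ (chr chi) Γ (j + 1) ⊔ LinearMap.range (bd P ℚ (j + 1)) := by
      rw [← bdy_iff]
      refine ⟨E (j + 2) u, ?_⟩
      rw [hE.bdc, ← map_sub]
      exact h1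
    have h4 := Submodule.sub_mem _ h3 h2
    rwa [sub_sub_cancel] at h4
  · intro c hcy
    obtain ⟨c', h1, h2⟩ := exists_cyc hB hle hc ht j hcy
    obtain ⟨a, u, hu⟩ := hz.gen c' h1
    refine ⟨a, u, ?_⟩
    have e : c - a • z - bd P ℚ (j + 1) u = (c' - a • z - bd P ℚ (j + 1) u) - (c' - c) := by abel
    rw [e]
    exact Submodule.sub_mem _ (JJ_mono hB _ hle hu) h2
  · intro g hg
    exact bdy_mono hB hle (hz.inv g hg)

end ANd
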