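import Pool.Agent.P.MP_5e7d86_al.Defs

/-! Package statements for MP_5e7d86_al. -/

set_option autoImplicit false
open Classical
open scoped commutatorElement

namespace ANd

/-! ### A. Coarse geometry -/

def S_Wl : Prop := ∀ (G : Type) [Group G] (S : Finset G), Subgroup.closure (S : Set G) = ⊤ →
  IsLen (wl S) ∧ Proper (wl S) ∧ ∀ n g, wl S g ≤ n ↔ IsW S n g

def S_Conv : Prop := ∀ (G : Type) [Group G] (S : Finset G), Subgroup.closure (S : Set G) = ⊤ →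
  ∀ d r B, FCov S d r B ↔ Col (wl S) Set.univ d r B

def S_Geo : Prop := ∀ (G : Type) [Group G] (l : G → ℕ), IsLen l →
  (∀ (Y Y' : Set G) (k k' r r' B B' : ℕ), Col l Y k r B → Y' ⊆ Y → k ≤ k' → r' ≤ r → B ≤ B' →
    Col l Y' k' r' B') ∧
  (∀ (Y : Set G) (k r B : ℕ) (g : G), Col l Y k r B → Col l ((fun x => g * x) '' Y) k r B) ∧
  (∀ (Y Y' : Set G) (k r B L : ℕ), (∀ y ∈ Y, ∃ y' ∈ Y', l (y'⁻¹ * y) ≤ L) →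
    Col l Y' k (r + 2 * L) B → Col l Y k r (B + 2 * L)) ∧
  (∀ (Y1 Y2 : Set G) (r B1 B2 : ℕ), Chain l Y1 r B1 → Chain l Y2 (B1 + 2 * r) B2 →
    Chain l (Y1 ∪ Y2) r (B2 + 2 * B1 + 2 * r)) ∧
  (∀ (Y : Set G) (k : ℕ), Col l Y k 0 0) ∧
  (∀ (H : Type) [Group H] (f : H →* G), Function.Injective f →
    (∀ k r B, Col (fun h => l (f h)) Set.univ k r B ↔ Col l (Set.range f) k r B) ∧
    (CC l → CC (fun h => l (f h))) ∧ (Proper l → Proper (fun h => l (f h))) ∧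
    IsLen (fun h => l (f h)))

def S_FI : Prop := ∀ (Γ : Type) [Group Γ] (S : Finset Γ), Subgroup.closure (S : Set Γ) = ⊤ →
  ∀ (G : Type) [Group G] (f : G →* Γ), Function.Injective f → f.range.FiniteIndex →
    (∃ T : Finset G, WordLike (fun g => wl S (f g)) (T : Set G)) ∧
    ∃ L0 : ℕ, ∀ g : Γ, ∃ h : G, wl S ((f h)⁻¹ * g) ≤ L0

def S_CC : Prop := ∀ (G : Type) [Group G] (S : Finset G), Subgroup.closure (S : Set G) = ⊤ →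
  Fol S → CC (wl S)

def S_Amen : Prop :=
  (∀ (G : Type) [Group G] (S : Finset G), Subgroup.closure (S : Set G) = ⊤ → Fol S → Amen G) ∧
  ∀ (G : Type) [Group G] (H : Subgroup G), Amen G → Amen H

def S_HUR : Prop :=
  (∀ (G : Type) [Group G] (l : G → ℕ), IsLen l →
    ∀ (A B : Subgroup G) (p : G → ℝ) (sg : ℝ) (k r L : ℕ) (D : ℕ → ℕ), 0 < sg →
      (∀ x ∈ B, ∀ y ∈ B, p (x * y) = p x + p y) → (∀ b ∈ B, l b ≤ r → |p b| ≤ sg) →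
      (∀ b ∈ B, |p b| ≤ 2 * sg → ∃ a ∈ A, l (a⁻¹ * b) ≤ L) →
      (∀ R, Col l (A : Set G) k R (D R)) → Col l (B : Set G) (k + 1) r (hb D L r (k + 2))) ∧
  ∀ c c' k : ℕ, ∃ c'' : ℕ, ∀ r, hb (fun R => c * R) (c' * r) r k ≤ c'' * r

/-! ### B. Lower bound -/

def S_ChB : Prop := ∀ (P : Type) [Group P] (M : Type) [AddCommGroup M] [Module ℚ M],
  (∀ n (c : Ch P M (n + 2)), bd P M n (bd P M (n + 1) c) = 0) ∧
  (∀ (x : P) (c : Ch P M 0), bd P M 0 (cone M 0 x c) = c) ∧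
  (∀ n (x : P) (c : Ch P M (n + 1)),
    bd P M (n + 1) (cone M (n + 1) x c) = c - cone M n x (bd P M n c)) ∧
  ∀ rho : Representation ℚ P M,
    (∀ n g (c : Ch P M (n + 1)), bd P M n (act rho (n + 1) g c) = act rho n g (bd P M n c)) ∧
    (∀ n g h (c : Ch P M n), act rho n (g * h) c = act rho n g (act rho n h c)) ∧
    (∀ n (c : Ch P M n), act rho n 1 c = c) ∧
    (∀ (Γ : Subgroup P) n (c : Ch P M (n + 1)), c ∈ JJ rho Γ (n + 1) → bd P M n c ∈ JJ rho Γ n) ∧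
    (∀ (Γ : Subgroup P) n g (c : Ch P M n), (∀ x ∈ Γ, g * x * g⁻¹ ∈ Γ) → c ∈ JJ rho Γ n →
      act rho n g c ∈ JJ rho Γ n) ∧
    (∀ (Γ Γ' : Subgroup P) n, Γ ≤ Γ' → JJ rho Γ n ≤ JJ rho Γ' n)

def S_LBbase : Prop := ∀ (P : Type) [Group P],
  (Van (⊥ : Subgroup P) 0 ∧ ∃ z, Top (1 : P →* ℚˣ) ⊤ ⊥ 0 z) ∧
  ∀ (N : Subgroup P) (j : ℕ) (z : Ch P ℚ (j + 1)), N.Normal → Top (1 : P →* ℚˣ) N N j z →
    ∃ chi : P →* ℚˣ, Top chi ⊤ N j z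

def S_LBz : Prop := ∀ (P : Type) [Group P] (chi : P →* ℚˣ) (A Γ Γ' : Subgroup P) (j : ℕ) (t : P),
  Γ ≤ Γ' → Γ' ≤ A → ⁅A, Γ'⁆ ≤ Γ → t ∈ Γ' → (∀ x ∈ Γ', ∃ n : ℤ, x * (t ^ n)⁻¹ ∈ Γ) →
  (∀ n : ℤ, t ^ n ∈ Γ → n = 0) → Van Γ j → (∃ z, Top chi A Γ j z) →
  Van Γ' (j + 1) ∧ ∃ z, Top chi A Γ' (j + 1) z

def S_LBt : Prop := ∀ (P : Type) [Group P] (chi : P →* ℚˣ) (A Γ Γ' : Subgroup P) (j : ℕ),
  Γ ≤ Γ' → Γ' ≤ A → ⁅A, Γ'⁆ ≤ Γ → (∀ x ∈ Γ', ∃ n : ℕ, n ≠ 0 ∧ x ^ n ∈ Γ) →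
  Van Γ j → (∃ z, Top chi A Γ j z) → Van Γ' j ∧ ∃ z, Top chi A Γ' j z

def S_LBgeo : Prop := ∀ (P : Type) [Group P] (l : P → ℕ), IsLen l → ∀ d r B : ℕ,
  Col l Set.univ d r B →
  ∃ (H : ∀ n, Ch P ℚ (n + 1) →ₗ[ℚ] Ch P ℚ (n + 2)) (be : ∀ n, Ch P ℚ (n + 1) →ₗ[ℚ] Ch P ℚ (n + 1)),
    (∀ n (c : Ch P ℚ (n + 2)),
      c - be (n + 1) c = bd P ℚ (n + 2) (H (n + 1) c) + H n (bd P ℚ (n + 1) c)) ∧
    (∀ n (v : Fin (n + 1) → P), ∀ y ∈ (H n (Finsupp.single v 1)).support, ∀ i,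
      ∃ u, l ((v u)⁻¹ * y i) ≤ B) ∧
    (∀ n (v : Fin (n + 1) → P), d < n → (∀ u u', l ((v u)⁻¹ * v u') ≤ r) →
      be n (Finsupp.single v 1) = 0)

def S_LBfin : Prop := ∀ (P : Type) [Group P] (l : P → ℕ), IsLen l → Proper l →
  ∀ (chi : P →* ℚˣ) (j d : ℕ), Van (⊤ : Subgroup P) j → (∃ z, Top chi ⊤ ⊤ j z) → AsLe l d → j ≤ d

def S_LB : Prop := ∀ (P : Type) [Group P] (l : P → ℕ), IsLen l → Proper l →
  ∀ (N : Subgroup P) (j j' d : ℕ), N.Normal → Tower N ⊥ N j → Tower ⊤ N ⊤ j' → AsLe l d →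
    j + j' ≤ d

def S_Tower : Prop := ∀ (G : Type) [Group G] (N : Subgroup G),
  (∀ (Γ : Subgroup G) (r : ℕ), FiltR N Γ r → Tower N ⊥ Γ r) ∧
  (Filt N N → (∃ r, FiltR N N r) ∨
    ∀ j : ℕ, ∃ (P : Subgroup G) (j' : ℕ), j ≤ j' ∧ Tower (⊤ : Subgroup P) ⊥ ⊤ j') ∧
  (∀ (d : ℕ) (pr : G →* Multiplicative (Fin d → ℤ)), Function.Surjective pr →
    (∀ g, g ∈ N ↔ pr g = 1) → Tower ⊤ N ⊤ d)

/-! ### C. Modules over `Z[Z^ι]` -/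

def S_WC : Prop := ∀ (ι : Type) [Fintype ι] (J : Ideal (ZH ι)),
  ∃ (R : Finset (ZH ι)) (C : ℕ), (∀ x ∈ R, x ∈ J) ∧ ∀ k ≥ 1, ∀ x ∈ J, Win k x →
    ∃ nu : ZH ι → ZH ι, (∀ y ∈ R, Win (C * k) (nu y)) ∧ x = ∑ y ∈ R, nu y * y

def MLc {ι : Type} (J : Ideal (ZH ι)) : Prop :=
  ∃ C : ℕ, ∀ k ≥ 1, ∀ nu, Win k nu → ∃ sg ph, LineT C (C * k) sg ∧ Win C ph ∧ nu - sg - ph ∈ J

def S_MLp : Prop := ∀ (ι : Type) [Fintype ι] (J : Ideal (ZH ι)) (p : ℕ), p.Prime →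
  (p : ZH ι) ∈ J → Planar J p → MLc J

/-- Supported near the coordinate axes. -/
def Ax {ι : Type} (C K : ℕ) (x : ZH ι) : Prop :=
  ∀ h ∈ x.coeff.support, ∃ a, (∀ b, b ≠ a → |h b| ≤ (C : ℤ)) ∧ |h a| ≤ (K : ℤ)

def S_MLa : Prop := ∀ (ι : Type) [Fintype ι] (J : Ideal (ZH ι)) (rho0 : ℕ), TF J → FR J rho0 →
  ∃ C : ℕ, ∀ k ≥ 1, ∀ nu, Win k nu → ∃ x ph, Ax C (C * k) x ∧ Win C ph ∧ nu - x - ph ∈ J

def S_MLb : Prop := ∀ (ι : Type) [Fintype ι] (J : Ideal (ZH ι)) (rho0 : ℕ), TF J → FR J rho0 →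
  ∀ C : ℕ, ∃ C' : ℕ, ∀ K x, Ax C K x → ∃ sg ph, LineT C' (K + C') sg ∧ Win C' ph ∧ x - sg - ph ∈ J

def S_ML0 : Prop := ∀ (ι : Type) [Fintype ι] (J : Ideal (ZH ι)) (rho0 : ℕ), TF J → FR J rho0 →
  MLc J

/-! ### D. Group combinatorics -/

def S_LCS : Prop := ∀ (G : Type) [Group G] (E : Subgroup G),
  (∀ a b, ⁅E.lowerCentralSeries a, E.lowerCentralSeries b⁆ ≤ E.lowerCentralSeries (a + b + 1)) ∧
  (∀ i (v : Fin (i + 1) → G), (∀ u, v u ∈ E) → cm i v ∈ E.lowerCentralSeries i) ∧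
  (∀ i (v : Fin (i + 1) → G) (u : Fin (i + 1)) (y y' : G), (∀ u, v u ∈ E) → y ∈ E → y' ∈ E →
    (cm i (Function.update v u y) * cm i (Function.update v u y'))⁻¹ *
      cm i (Function.update v u (y * y')) ∈ E.lowerCentralSeries (i + 1)) ∧
  (∀ i (v : Fin (i + 1) → G) (u : Fin (i + 1)) (y : G), (∀ u, v u ∈ E) →
    y ∈ E.lowerCentralSeries 1 → cm i (Function.update v u y) ∈ E.lowerCentralSeries (i + 1)) ∧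
  (∀ (X : Set G) i, E = Subgroup.closure X → E.lowerCentralSeries i ≤
    Subgroup.closure {w | ∃ v : Fin (i + 1) → G, (∀ u, v u ∈ X) ∧ w = cm i v} ⊔
      E.lowerCentralSeries (i + 1)) ∧
  (∀ i, ∀ x ∈ E.lowerCentralSeries i, ∃ X : Set G, X.Finite ∧ X ⊆ E ∧
    x ∈ (Subgroup.closure X).lowerCentralSeries i) ∧
  (∀ (K : Subgroup G) i, K ≤ E → ∀ x ∈ K ⊔ E.lowerCentralSeries i,
    ∃ a ∈ K, a⁻¹ * x ∈ E.lowerCentralSeries i)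

def S_WF : Prop := ∀ (G : Type) [Group G] (ι : Type) [Fintype ι],
  (∀ (l : G → ℕ), IsLen l → ∀ f ∈ WordFun G ι, ∃ c : ℕ, ∀ k g, Sm k g → l (f g) ≤ c * (k + 1)) ∧
  (∀ f ∈ WordFun G ι, ∀ u, shf u f ∈ WordFun G ι) ∧
  (∀ c ∈ WordFun G ι, ∀ F, lfv c F ∈ WordFun G ι) ∧
  ∀ S : Setup G, (∀ j, S.x j ∈ WordFun G (Fin S.d)) ∧
    ∀ i J, S.cJ i J ∈ WordFun G (Fin (i + 1) × Fin S.d)

def S_GenA : Prop := ∀ (G : Type) [Group G] (S : Setup G),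
  S.N.Normal ∧ (∃ c, S.N.lowerCentralSeries c = ⊥) ∧
  (∀ q, S.pr (S.s q) = Multiplicative.ofAdd q) ∧
  (∃ c : ℕ, ∀ g a, |Multiplicative.toAdd (S.pr g) a| ≤ (c : ℤ) * S.l g) ∧
  (∃ c : ℕ, ∀ k q, Sm k q → S.l (S.s q) ≤ c * k) ∧
  (∃ c : ℕ, ∀ k ≥ 1, ∀ j q, Sm k q → S.x j q ∈ S.B (c * k)) ∧
  (∃ c : ℕ, ∀ k, ∀ g ∈ S.B k, ∃ L : List (Fin S.m × (Fin S.d → ℤ) × Bool),
    L.length ≤ c * k * k ∧ (∀ p ∈ L, Sm (c * k) p.2.1) ∧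
    g = (L.map fun p => if p.2.2 then S.x p.1 p.2.1 else (S.x p.1 p.2.1)⁻¹).prod)

def S_Par0 : Prop := ∀ (G : Type) [Group G] (S : Setup G) (C : ℕ), ∃ C' : ℕ, ∀ K ≥ 1,
  ∀ (j : Fin S.m) (a : Fin S.d) (h0 : Fin S.d → ℤ) (sg : ZH (Fin S.d)), OnLine a h0 sg → Win K sg →
    (∀ h, |sg.coeff h| ≤ (C : ℤ)) → ∃ L : List ((Fin S.d → ℤ) × Bool × G), L.length ≤ C' * K ∧
      (∀ p ∈ L, p.1 ∈ sg.coeff.support ∧ p.2.2 ∈ S.B (C' * K)) ∧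
      lfc (L.map fun p => (p.1, p.2.1)) = sg ∧
      (L.map fun p => p.2.2 * (if p.2.1 then S.x j p.1 else (S.x j p.1)⁻¹) * p.2.2⁻¹).prod
        ∈ S.B (C' * K)

def S_Par : Prop := ∀ (G : Type) [Group G] (S : Setup G) (i : ℕ) (J : Fin (i + 1) → Fin S.m)
  (C : ℕ), ∃ C' : ℕ, ∀ K ≥ 1, ∀ sg, LineT C K sg → ∃ L : List (Fin (i + 1) → G), L.length ≤ C ∧
    (∀ v ∈ L, ∀ u, v u ∈ S.B (C' * K)) ∧
    Rp (S.Γ (C' * K) (i + 1)) (S.cJ i J) {h | Sm K h} sg (L.map (cm i)).prod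

def S_Ann : Prop := ∀ (G : Type) [Group G] (l : G → ℕ), IsLen l → CC l →
  ∀ (ι : Type) [Fintype ι] (f : (ι → ℤ) → G) (N Γ' Γ : Subgroup G), f ∈ WordFun G ι →
    Lay N Γ' Γ → (∀ g, f g ∈ Γ') → ∃ J : Ideal (ZH ι),
      (∀ x, x ∈ J ↔ ∀ g : ι → ℤ, Rp Γ (fun u => f (g + u)) Set.univ x 1) ∧
      (∀ p : ℕ, p.Prime → (∀ x ∈ Γ', x ^ p ∈ Γ) → (p : ZH ι) ∈ J ∧ Planar J p) ∧
      (TFL Γ' Γ → ∀ s, Dep Γ' Γ (s + 1) → TF J ∧ ∃ rho, FR J rho)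

def S_EL : Prop := ∀ (G : Type) [Group G] (l : G → ℕ), IsLen l → CC l →
  ∀ (ι : Type) [Fintype ι] (c : (ι → ℤ) → G) (N Γ : Subgroup G) (r : ℕ), c ∈ WordFun G ι →
    FiltR N Γ r → ∀ (A B : ℕ → Subgroup G), Monotone B → (∀ k, Sec (A k) (B k) c {h | Sm k h}) →
    ∀ F : List ((ι → ℤ) × Bool), (∀ g, lfv c F g ∈ Γ) → ∃ C : ℕ, ∀ k ≥ 1, ∀ nu, Win k nu →
      ∃ sg ph, LineT C (C * k) sg ∧ Win C ph ∧
        Rp (B (C * k)) c {h | Sm (C * k) h} ((nu - sg - ph) * lfc F) 1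

def S_Lat : Prop := ∀ (G : Type) [Group G] (S : Setup G) (i : ℕ), S.Lat i

/-! ### E. Real geometry -/

def S_ExpLog : Prop := ∀ (A : Type) [Ring A] [Algebra ℝ A] (D : NilD A),
  (∀ X ∈ D.U, lg D.n (ex D.n X) = X ∧ ex D.n X - 1 ∈ D.U) ∧
  (∀ x : A, x - 1 ∈ D.U → ex D.n (lg D.n x) = x ∧ lg D.n x ∈ D.U) ∧
  (∀ X ∈ D.U, ∃ u : Aˣ, D.Uni u ∧ D.LL u = X) ∧
  (D.Uni 1 ∧ (∀ u u', D.Uni u → D.Uni u' → D.Uni (u * u')) ∧ ∀ u, D.Uni u → D.Uni u⁻¹) ∧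
  (∀ u, D.Uni u → ∀ z : ℤ, D.LL (u ^ z) = (z : ℝ) • D.LL u) ∧
  (∀ g u : Aˣ, D.LL (g * u * g⁻¹) = Ad g (D.LL u)) ∧
  (∀ g u : Aˣ, D.Uni u → Ad g (D.LL u) ∈ D.U → D.Uni (g * u * g⁻¹)) ∧
  (∀ u, D.Uni u → ∀ y ∈ D.U, Ad u y =
    ∑ j ∈ Finset.range (D.n + 1), ((j.factorial : ℝ)⁻¹) • (br (D.LL u))^[j] y) ∧
  (∀ u u', D.Uni u → D.Uni u' → D.LL u = D.LL u' → u = u') ∧
  (∀ u u', D.Uni u → D.Uni u' → br (D.LL u) (D.LL u') = 0 → D.LL (u * u') = D.LL u + D.LL u')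

def S_BCH : Prop := ∀ (A : Type) [Ring A] [Algebra ℝ A] (D : NilD A),
  ∃ L : List (ℝ × List Bool), (∀ p ∈ L, true ∈ p.2 ∧ false ∈ p.2) ∧ ∀ X ∈ D.U, ∀ Y ∈ D.U,
    lg D.n (ex D.n X * ex D.n Y) = X + Y + (L.map fun p => p.1 • nw X Y p.2).sum

def S_B1 : Prop := ∀ (A : Type) [Ring A] [Algebra ℝ A] (D : NilD A) (V : Submodule ℝ A),
  D.LieSub V →
  (∃ K : Subgroup Aˣ, (K : Set Aˣ) = D.Ex V) ∧
  (∀ I : Submodule ℝ A, (∀ x ∈ V, ∀ y ∈ I, br x y ∈ I) → ∀ u ∈ D.Ex V, ∀ u' ∈ D.Ex V,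
    br (D.LL u) (D.LL u') ∈ I → D.LL (u * u') - D.LL u - D.LL u' ∈ I) ∧
  (∀ I : Submodule ℝ A, (∀ x ∈ V, ∀ y ∈ I, br x y ∈ I) → ∀ u ∈ D.Ex V, ∀ y ∈ D.U,
    br (D.LL u) y ∈ I → Ad u y - y ∈ I) ∧
  (∀ g : Aˣ, Nrm g V → ∀ u ∈ D.Ex V, g * u * g⁻¹ ∈ D.Ex V)

def S_Br : Prop := ∀ (A : Type) [Ring A] [Algebra ℝ A] (D : NilD A) (Y : Set A), Y ⊆ D.U →
  (∀ i, TG Y i ⊆ D.U) ∧ (∀ j, D.n ≤ j + 1 → ∀ w ∈ TE Y j, w = 0) ∧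
  (∀ i j (a b : ℝ) (v w : A), In (TG Y i) a v → In (TG Y j) b w →
    In (TG Y (i + j + 1)) (2 ^ D.n * a * b) (br v w)) ∧
  (∀ i (a : ℝ) (v : A), In (TG Y i) a v →
    ∃ v1, In (TE Y i) a v1 ∧ In (TG Y (i + 1)) a (v - v1)) ∧
  (∀ i (a : ℝ) (v : Fin (i + 1) → A), (∀ u, In Y a (v u)) → In (TE Y i) (a ^ (i + 1)) (nest i v)) ∧
  (∀ i (a : ℝ) (v : Fin (i + 1) → A), (∀ u, In (TG Y 0) a (v u)) →
    In (TG Y i) ((2 ^ D.n) ^ i * a ^ (i + 1)) (nest i v) ∧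
    ∀ s, In (TG Y 1) a (v s) → In (TG Y (i + 1)) ((2 ^ D.n) ^ i * a ^ (i + 1)) (nest i v)) ∧
  (Y.Finite → ∀ i, (TG Y i).Finite)

def S_B2 : Prop := ∀ (A : Type) [Ring A] [Algebra ℝ A] (D : NilD A) (A0 : ℝ), ∃ C : ℝ, 0 ≤ C ∧
  ∀ (Y : Set A), Y ⊆ D.U →
    (∀ (u u' : Aˣ) (k : ℕ) (g : ℝ), D.Uni u → D.Uni u' → In (TG Y 0) A0 (D.LL u) →
      In (TG Y 0) A0 (D.LL u') → In (TG Y k) g (br (D.LL u) (D.LL u')) →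
      In (TG Y k) (C * g) (D.LL (u * u') - D.LL u - D.LL u')) ∧
    (∀ (u u' : Aˣ) (i j : ℕ) (a b : ℝ), D.Uni u → D.Uni u' → a ≤ A0 → b ≤ A0 →
      In (TG Y i) a (D.LL u) → In (TG Y j) b (D.LL u') →
      In (TG Y (i + j + 1)) (C * a * b) (D.LL (u * u') - D.LL u - D.LL u')) ∧
    (∀ (u : Aˣ) (y : A) (i : ℕ) (a b : ℝ), D.Uni u → a ≤ A0 → In (TG Y 0) a (D.LL u) →
      In (TG Y i) b y → In (TG Y (i + 1)) (C * a * b) (Ad u y - y) ∧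
        In (TG Y (i + 2)) (C * a * b) (Ad u y - y - br (D.LL u) y))

def S_GR : Prop := ∀ (A : Type) [Ring A] [Algebra ℝ A] (D : NilD A) (A0 : ℝ), ∃ C : ℝ, 0 ≤ C ∧
  ∀ (Y : Set A), Y ⊆ D.U →
    ∀ (i : ℕ) (L : List (ℝ × Aˣ)), (∀ p ∈ L, D.Uni p.2 ∧ In (TG Y i) p.1 (D.LL p.2)) →
      (L.map Prod.fst).sum ≤ A0 →
      In (TG Y (i + 1)) C (D.LL (L.map Prod.snd).prod - (L.map fun p => D.LL p.2).sum)

def S_CmL : Prop := ∀ (A : Type) [Ring A] [Algebra ℝ A] (D : NilD A) (i : ℕ) (A0 : ℝ),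
  ∃ C : ℝ, 0 ≤ C ∧ ∀ (Y : Set A), Y ⊆ D.U →
    ∀ u : Fin (i + 1) → Aˣ, (∀ s, D.Uni (u s) ∧ In (TG Y 0) A0 (D.LL (u s))) →
      D.Uni (cm i u) ∧ In (TG Y i) C (nest i (fun s => D.LL (u s))) ∧
      In (TG Y (i + 1)) C (D.LL (cm i u) - nest i (fun s => D.LL (u s)))

def S_Auer : Prop := ∀ (A : Type) [Ring A] [Algebra ℝ A],
  (∀ (V : Submodule ℝ A) [FiniteDimensional ℝ V] (S : Set A), S.Finite → S ⊆ V →
    ∃ m ≤ Module.finrank ℝ V, ∃ b : Fin m → A, (∀ s, b s ∈ S) ∧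
      ∀ (a : ℝ) (v : A), In S a v → ∃ be : Fin m → ℝ, (∀ s, |be s| ≤ a) ∧ v = ∑ s, be s • b s) ∧
  ∀ B0 B1 : Set A, B0.Finite → B1.Finite → ∃ C : ℝ, 0 ≤ C ∧
    ∀ (a : ℝ) (u : A), u ∈ Submodule.span ℝ B1 → In B0 a u → In B1 (C * a) u

def S_Lie1 : Prop := ∀ (G : Type) [Group G] (A : Type) [Ring A] [Algebra ℝ A] (N : Subgroup G)
  (R : LData G A N), N.Normal →
  R.D.LieSub R.V ∧ (∀ g, Nrm (R.psi g) R.V) ∧ (∀ x ∈ N, R.L x ∈ R.AQ) ∧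
  ∀ (Γ : Subgroup G) (r : ℕ), FiltR N Γ r →
    FiniteDimensional ℝ (R.VS Γ) ∧ Module.finrank ℝ (R.VS Γ) ≤ r

def S_Lie3 : Prop := ∀ (G : Type) [Group G] (A : Type) [Ring A] [Algebra ℝ A] (N : Subgroup G)
  (R : LData G A N), N.Normal →
  (∀ i, R.VG i ≤ R.V ∧ (∀ x ∈ R.V, ∀ y ∈ R.VG i, br x y ∈ R.VG (i + 1)) ∧
    R.VG (i + 1) ≤ R.VG i) ∧
  (∀ Y : Set A, Submodule.span ℝ Y = R.V → ∀ i, Submodule.span ℝ (TE Y i) ⊔ R.VG (i + 1) = R.VG i ∧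
    Submodule.span ℝ (TG Y i) = R.VG i) ∧
  (∀ i, ∀ x ∈ N.lowerCentralSeries i, R.L x ∈ R.VG i) ∧
  (∀ i, ∀ x ∈ N.lowerCentralSeries i, ∀ y ∈ N.lowerCentralSeries i,
    R.L (x * y) - R.L x - R.L y ∈ R.VG (i + 1)) ∧
  (∀ i (v : Fin (i + 1) → G), (∀ u, v u ∈ N) →
    R.L (cm i v) - nest i (fun u => R.L (v u)) ∈ R.VG (i + 1)) ∧
  (∀ i, ∀ x ∈ N, R.L x ∈ R.VG i → ∃ k : ℕ, k ≠ 0 ∧ x ^ k ∈ N.lowerCentralSeries i)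

def S_Fin : Prop := ∀ (G : Type) [Group G] (A : Type) [Ring A] [Algebra ℝ A] (N : Subgroup G)
  (R : LData G A N), N.Normal → ∀ (X : Set G), X.Finite → X ⊆ N → ∀ (i : ℕ) (B0 : Set A) (be : ℝ),
    B0.Finite → ∃ (Ph : Finset G) (X' : Set G), X'.Finite ∧ X' ⊆ N ∧
      (∀ f ∈ Ph, f ∈ (Subgroup.closure X).lowerCentralSeries i) ∧
      ∀ x ∈ (Subgroup.closure X).lowerCentralSeries i,
        (∃ b, In B0 be b ∧ R.L x - b ∈ R.VG (i + 1)) →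
        ∃ f ∈ Ph, f⁻¹ * x ∈ (Subgroup.closure X').lowerCentralSeries (i + 1)

def S_Size : Prop := ∀ (G : Type) [Group G] (A : Type) [Ring A] [Algebra ℝ A] (S : LSetup G A),
  (∃ C : ℕ, ∀ k ≥ 1, ∀ (a : ℝ) (v : A), In (TG (S.Y k) 0) a v → In S.B0 (a * 2 ^ (C * k)) v) ∧
  (∀ k, (S.Y k).Finite ∧ S.Y k ⊆ S.R.V) ∧
  (∃ k0 : ℕ, S.B0 ⊆ S.Y k0) ∧
  (∀ j k m i : ℕ, 1 ≤ m → m * j ≤ k → ∀ (a : ℝ) (v : A), In (TG (S.Y j) i) a v →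
    In (TG (S.Y k) i) (a / m) v)

def S_One : Prop := ∀ (A : Type) [Ring A] [Algebra ℝ A] (B0 : Set A) (u : Aˣ), B0.Finite →
  Nrm u (Submodule.span ℝ B0) → ∃ rho : ℕ, 1 ≤ rho ∧ ∀ i : ℕ, ∃ c : Fin rho → ℝ,
    (∀ s, |c s| ≤ 2 ^ rho) ∧ ∀ v ∈ Submodule.span ℝ B0,
      Ad (u ^ (i * rho)) v - ∑ s : Fin rho, c s • Ad (u ^ (i * (s : ℕ))) v ∈ Vp B0 u ⊔ Vp B0 u⁻¹

def S_OneD : Prop := ∀ (A : Type) [Ring A] [Algebra ℝ A] (B0 : Set A) (u : Aˣ), B0.Finite →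
  Nrm u (Submodule.span ℝ B0) → ∀ A0 : ℕ, ∃ (j0 : ℕ) (C : ℝ), 0 ≤ C ∧ ∀ j ≥ j0, ∀ p : ℤ,
    |p| ≤ ((A0 * j : ℕ) : ℤ) → ∀ v ∈ Submodule.span ℝ B0, ∃ w ∈ Vp B0 u ⊔ Vp B0 u⁻¹,
      In {x | ∃ p' : ℤ, |p'| ≤ (j : ℤ) ∧ x = Ad (u ^ p') v} C (Ad (u ^ p) v - w)

def S_Loop : Prop := ∀ (G : Type) [Group G] (S : Setup G), ∃ c0 : ℕ, ∀ A0 : ℕ, ∃ C : ℕ,
  ∀ j ≥ 1, ∀ x ∈ S.B (A0 * j), ∃ L : List (G × G), L.length ≤ C ∧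
    (∀ p ∈ L, S.l p.1 ≤ C * j ∧ p.2 ∈ S.B (c0 * j)) ∧
    x = (L.map fun p => p.1 * p.2 * p.1⁻¹).prod

def S_U0 : Prop := ∀ (G : Type) [Group G] (A : Type) [Ring A] [Algebra ℝ A] (S : LSetup G A),
  S.U0 ≤ S.R.V ∧ (∀ g, ∀ u ∈ S.U0, Ad (S.R.psi g) u ∈ S.U0) ∧
  (∃ T : Finset G, S.U0 = ⨆ g ∈ T, Vp S.B0 (S.R.psi g)) ∧
  ∀ g, ∃ j0 : ℕ, 1 ≤ j0 ∧ ∀ (a : ℝ), ∀ v ∈ Vp S.B0 (S.R.psi g), In S.B0 a v →
    In S.B0 (a / 2) (Ad (S.R.psi (g ^ j0))⁻¹ v)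

def S_Dbl0 : Prop := ∀ (G : Type) [Group G] (A : Type) [Ring A] [Algebra ℝ A] (S : LSetup G A),
  S.Dbl S.U0 0

def S_Dbl : Prop := ∀ (G : Type) [Group G] (A : Type) [Ring A] [Algebra ℝ A] (S : LSetup G A)
  (U0 : Submodule ℝ A), U0 ≤ S.R.V → S.Dbl U0 0 → ∀ i, S.Dbl U0 i

def S_AdB : Prop := ∀ (G : Type) [Group G] (A : Type) [Ring A] [Algebra ℝ A] (S : LSetup G A)
  (i : ℕ) (W : Set A), W.Finite → W ⊆ S.R.VG i → ∃ C : ℕ, ∀ k ≥ 1, ∀ p : G, S.l p ≤ k →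
    ∀ w ∈ W, In (TG (S.Y (C * k)) i) ((C : ℝ) / k) (Ad (S.R.psi p) w)

def S_Tel : Prop := ∀ (G : Type) [Group G] (A : Type) [Ring A] [Algebra ℝ A] (S : LSetup G A)
  (g : G) (F : Set G) (i : ℕ), F.Finite → F ⊆ S.N → (∀ f ∈ F, S.R.L f ∈ S.R.VG i) →
  ∃ C : ℕ, ∀ K ≥ 1, ∀ a : ℤ → G, (∀ z, a z ∈ F) → tel g a K ∈ S.toSetup.B (C * K) ∧
    In (TG (S.Y (C * K)) i) C (S.R.L (tel g a K)) ∧
    In (TG (S.Y (C * K)) (i + 1)) C (S.R.L (tel g a K) -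
      ∑ z ∈ Finset.Icc (-(K : ℤ)) K, Ad (S.R.psi (g ^ z)) (S.R.L (a z)))

def S_Rat : Prop := ∀ (G : Type) [Group G] (A : Type) [Ring A] [Algebra ℝ A] (S : LSetup G A)
  (g : G), ∃ (rho : ℕ) (nn : Fin rho → G) (M : ℕ) (Bm : Fin rho → Fin rho → ℤ), M ≠ 0 ∧
    (∀ s, nn s ∈ S.N) ∧ LinearIndependent ℝ (fun s => S.R.L (nn s)) ∧
    Submodule.span ℝ (Set.range fun s => S.R.L (nn s)) = S.R.V ∧
    (∀ s, Ad (S.R.psi g) ((M : ℝ) • S.R.L (nn s)) = ∑ s', (Bm s' s : ℝ) • S.R.L (nn s')) ∧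
    (∀ q : Fin rho → ℤ, S.R.L (sp nn q) - ∑ s, (q s : ℝ) • S.R.L (nn s) ∈ S.R.VG 1) ∧
    ∀ s, S.R.L (nn s ^ M * g⁻¹ * (sp nn fun s' => Bm s' s)⁻¹ * g) ∈ S.R.VG 1

def S_Dig : Prop := ∀ (A : Type) [Ring A] [Algebra ℝ A] (B0 : Set A) (rho : ℕ) (w : Fin rho → A)
  (u : Aˣ) (M : ℕ) (Bm : Fin rho → Fin rho → ℤ) (P : Submodule ℝ A), B0.Finite →
  LinearIndependent ℝ w → Submodule.span ℝ (Set.range w) = Submodule.span ℝ B0 → M ≠ 0 →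
  (∀ s, Ad u ((M : ℝ) • w s) = ∑ s', (Bm s' s : ℝ) • w s') → P ≤ Submodule.span ℝ B0 →
  (∀ v ∈ P, Ad u⁻¹ v ∈ P) → (∀ (a : ℝ), ∀ v ∈ P, In B0 a v → In B0 (a / 2) (Ad u⁻¹ v)) →
  ∃ C : ℕ, ∀ k : ℕ, ∀ v ∈ P, In B0 (2 ^ k) v → ∃ m : ℕ → Fin rho → ℤ, (∀ i, k < i → m i = 0) ∧
    (∀ i s, |(M : ℤ) * m i s - ∑ s', Bm s s' * m (i + 1) s'| ≤ (C : ℤ)) ∧
    In B0 C (∑ s, (((M : ℤ) * m 0 s : ℤ) : ℝ) • w s - v)

def S_KLab : Prop := ∀ (G : Type) [Group G] (S : Setup G) (g : G) (rho : ℕ) (nn : Fin rho → G)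
  (M : ℕ) (Bm : Fin rho → Fin rho → ℤ), (∀ s, nn s ∈ S.N) → ∃ c C : ℕ, ∀ K ≥ 1,
  ∀ m : ℕ → Fin rho → ℤ, (∀ i, K < i → m i = 0) → ∃ sg : Fin rho → ℤ → ℤ,
    (∀ s z, |sg s z| ≤ (C : ℤ)) ∧
    tel g (fun z => if 0 ≤ z then
        sp nn (fun s => (M : ℤ) * m z.toNat s - ∑ s', Bm s s' * m (z.toNat + 1) s') else 1) K *
      ((List.ofFn fun s => tel g (fun z =>
        (nn s ^ M * g⁻¹ * (sp nn fun s' => Bm s' s)⁻¹ * g) ^ sg s z) (C * K)).prod)⁻¹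
      ∈ S.Γ c 0 ⊔ S.Γ (C * K) 1

def S_KLg : Prop := ∀ (G : Type) [Group G] (A : Type) [Ring A] [Algebra ℝ A] (S : LSetup G A)
  (g : G), S.KL (Vp S.B0 (S.R.psi g)) 0

def S_KL0 : Prop := ∀ (G : Type) [Group G] (A : Type) [Ring A] [Algebra ℝ A] (S : LSetup G A),
  S.KL S.U0 0

def S_KL : Prop := ∀ (G : Type) [Group G] (A : Type) [Ring A] [Algebra ℝ A] (S : LSetup G A)
  (U0 : Submodule ℝ A), U0 ≤ S.R.V → S.KL U0 0 → ∀ i, S.KL U0 i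

def S_Car : Prop := ∀ (G : Type) [Group G] (A : Type) [Ring A] [Algebra ℝ A] (S : LSetup G A)
  (i : ℕ), S.Car i

def S_PhA : Prop := ∀ (G : Type) [Group G] (A : Type) [Ring A] [Algebra ℝ A] (S : LSetup G A)
  (U0 : Submodule ℝ A) (i : ℕ), S.Car i → S.toSetup.Lat i → S.Dbl U0 i → S.PhA U0 i

def S_RI : Prop := ∀ (G : Type) [Group G] (A : Type) [Ring A] [Algebra ℝ A] (S : LSetup G A)
  (U0 : Submodule ℝ A) (i : ℕ), U0 ≤ S.R.V → S.PhA U0 i → S.KL U0 i → S.RR (i + 1) → S.RR i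

def S_Cov : Prop := ∀ (A : Type) [Ring A] [Algebra ℝ A] (D : NilD A) (V : Submodule ℝ A)
  [FiniteDimensional ℝ V], D.LieSub V → ∃ Lam : ℝ, ∀ Y : Set A, Y.Finite →
    Submodule.span ℝ Y = V → ∃ Z : Fin (Module.finrank ℝ V + 1) → Set Aˣ,
      (∀ u ∈ D.Ex V, ∃ i, u ∈ Z i) ∧ ∀ i u u', Relation.ReflTransGen
        (fun a b => a ∈ Z i ∧ b ∈ Z i ∧ a ∈ D.Ex V ∧ b ∈ D.Ex V ∧ In (TG Y 0) 1 (D.LL (a⁻¹ * b)))
        u u' → In (TG Y 0) Lam (D.LL (u⁻¹ * u'))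

def S_Upper : Prop := ∀ (G : Type) [Group G] (A : Type) [Ring A] [Algebra ℝ A] (S : LSetup G A),
  S.RR 0 → ANLe S.l Set.univ (S.r + S.d)

def S_R0 : Prop := ∀ (G : Type) [Group G] (A : Type) [Ring A] [Algebra ℝ A] (S : LSetup G A),
  S.RR 0

/-! ### F. Linear groups -/

/-- Products of `e0` elements `psi x - 1`, `x ∈ N`, vanish. -/
def Unip {G : Type} [Group G] {n : ℕ} {R : Type} [CommRing R] (psi : G →* GL (Fin n) R)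
    (N : Subgroup G) (e0 : ℕ) : Prop :=
  ∀ L : List G, L.length = e0 → (∀ x ∈ L, x ∈ N) →
    (L.map fun x => ((psi x : GL (Fin n) R) : Matrix (Fin n) (Fin n) R) - 1).prod = 0

def S_Rec : Prop := ∀ (G : Type) [Group G] (n : ℕ) (R : Type) [CommRing R]
  (psi : G →* GL (Fin n) R) (ι : Type) [Fintype ι] (f : (ι → ℤ) → G), f ∈ WordFun G ι →
  ∃ B : Finset (ι → ℤ), ∀ (P : Submodule R (Matrix (Fin n) (Fin n) R)) (x : (ι → ℤ) →₀ ℤ),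
    (∀ g ∈ B, (x.sum fun u z => z • (((psi (f (g + u)) : GL (Fin n) R) :
      Matrix (Fin n) (Fin n) R) - 1)) ∈ P) →
    ∀ g, (x.sum fun u z => z • (((psi (f (g + u)) : GL (Fin n) R) :
      Matrix (Fin n) (Fin n) R) - 1)) ∈ P

def S_MatF : Prop := ∀ (G : Type) [Group G] (n : ℕ) (R : Type) [CommRing R] [IsNoetherianRing R]
  (psi : G →* GL (Fin n) R) (N : Subgroup G) (e0 : ℕ), Function.Injective psi → Unip psi N e0 →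
  Filt N N

def S_MatL : Prop := ∀ (G : Type) [Group G] (n : ℕ) (R : Type) [CommRing R]
  (psi : G →* GL (Fin n) R) (N : Subgroup G) (e0 : ℕ), Function.Injective psi → N.Normal →
  Unip psi N e0 → ∃ (A : Type) (_ : Ring A) (_ : Algebra ℝ A), Nonempty (LData G A N)

/-- A finite index subgroup preserves a proper nonzero subspace. -/
def VRed {K Γ W : Type} [Field K] [Group Γ] [AddCommGroup W] [Module K W]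
    (rho : Representation K Γ W) : Prop :=
  ∃ H : Subgroup Γ, H.FiniteIndex ∧ ∃ W' : Submodule K W, W' ≠ ⊥ ∧ W' ≠ ⊤ ∧
    ∀ h ∈ H, ∀ w ∈ W', rho h w ∈ W'

def S_Ext : Prop := ∀ (k L Om : Type) [Field k] [Field L] [Field Om] [Algebra k L] [Algebra k Om]
  [IsAlgClosed Om] [Countable L] [Uncountable Om], Nonempty (L →ₐ[k] Om)

def S_Omega : Prop := ∀ p : ℕ, p.Prime → ∃ (Om : Type) (_ : Field Om) (_ : IsAlgClosed Om)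
  (_ : CharP Om p) (_ : Uncountable Om) (v : AbsoluteValue Om ℝ) (t : Om), t ≠ 0 ∧ v t ≠ 1

def S_Abs : Prop := ∀ (K : Type) [Field K] [Countable K] (th : K), th ≠ 0 →
  (∀ m : ℕ, m ≠ 0 → th ^ m ≠ 1) → ∃ v : AbsoluteValue K ℝ, v th ≠ 1

noncomputable def nv {K W : Type} [Field K] [AddCommGroup W] [Module K W] {n : ℕ}
    (v : AbsoluteValue K ℝ) (b : Module.Basis (Fin n) K W) (w : W) : ℝ := ∑ i, v (b.repr w i)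

def Near {K W : Type} [Field K] [AddCommGroup W] [Module K W] {n : ℕ}
    (v : AbsoluteValue K ℝ) (b : Module.Basis (Fin n) K W) (ep : ℝ) (W' : Submodule K W) (w : W) :
    Prop := ∃ w' ∈ W', nv v b (w - w') ≤ ep * nv v b w

/-- North-south dynamics of `T`. -/
def NS {K W : Type} [Field K] [AddCommGroup W] [Module K W] {n : ℕ}
    (v : AbsoluteValue K ℝ) (b : Module.Basis (Fin n) K W) (T : Module.End K W) : Prop :=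
  ∃ V1 V2 : Submodule K W, V1 ≠ ⊤ ∧ V2 ≠ ⊤ ∧ ∀ ep0 : ℝ, 0 < ep0 → ∀ ep : ℝ, 0 < ep →
    ∃ N : ℕ, ∀ w, ¬ Near v b ep0 V2 w → Near v b ep V1 ((T ^ N) w)

def S_FurA : Prop := ∀ (K W : Type) [Field K] [IsAlgClosed K] [AddCommGroup W] [Module K W] (n : ℕ)
  (v : AbsoluteValue K ℝ) (bs : Module.Basis (Fin n) K W) (T : Module.End K W) (a b : K),
  IsUnit T → Module.End.HasEigenvalue T a → Module.End.HasEigenvalue T b → v a ≠ v b → NS v bs T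

def S_FurB : Prop := ∀ (K Γ W : Type) [Field K] [Group Γ] [AddCommGroup W] [Module K W] (n : ℕ)
  (rho : Representation K Γ W) (v : AbsoluteValue K ℝ) (bs : Module.Basis (Fin n) K W) (g : Γ),
  Amen Γ → NS v bs (rho g) → VRed rho

def S_Furst : Prop := ∀ (K Γ W : Type) [Field K] [IsAlgClosed K] [Group Γ] [AddCommGroup W]
  [Module K W] [FiniteDimensional K W] (rho : Representation K Γ W) (v : AbsoluteValue K ℝ)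
  (g : Γ) (a b : K), Amen Γ → Module.End.HasEigenvalue (rho g) a →
  Module.End.HasEigenvalue (rho g) b → v a ≠ v b → VRed rho

def S_Selb : Prop := ∀ (K Γ W : Type) [Field K] [Group Γ] [Group.FG Γ] [AddCommGroup W]
  [Module K W] [FiniteDimensional K W] (rho : Representation K Γ W),
  ∃ (H : Subgroup Γ) (La : Subgroup Kˣ), H.FiniteIndex ∧
    (∀ u ∈ La, ∀ m : ℕ, m ≠ 0 → u ^ m = 1 → u = 1) ∧
    ∀ h ∈ H, ∀ a : Kˣ, Module.End.HasEigenvalue (rho h) (a : K) → a ∈ La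

def S_Kolch : Prop := ∀ (K Γ W : Type) [Field K] [IsAlgClosed K] [Group Γ] [AddCommGroup W]
  [Module K W] [FiniteDimensional K W] (rho : Representation K Γ W) (H : Subgroup Γ)
  (La : Subgroup Kˣ), 2 ≤ Module.finrank K W → H.FiniteIndex →
  (∀ u ∈ La, ∀ m : ℕ, m ≠ 0 → u ^ m = 1 → u = 1) →
  (∀ h ∈ H, ∀ a : Kˣ, Module.End.HasEigenvalue (rho h) (a : K) → a ∈ La) →
  (∀ h ∈ H, ∀ a b : Kˣ, Module.End.HasEigenvalue (rho h) (a : K) →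
    Module.End.HasEigenvalue (rho h) (b : K) → a = b) → VRed rho

def S_Tri : Prop := ∀ (K : Type) [Field K] [IsAlgClosed K] [Countable K] (n : ℕ)
  (Γ W : Type) [Group Γ] [Group.FG Γ] [AddCommGroup W] [Module K W] [FiniteDimensional K W]
  (rho : Representation K Γ W), Amen Γ → Module.finrank K W = n →
  ∃ H : Subgroup Γ, H.FiniteIndex ∧ ∀ L : List Γ, L.length = n → (∀ x ∈ L, x ∈ ⁅H, H⁆) →
    (L.map fun x => rho x - 1).prod = 0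

def S_Unip : Prop := ∀ (Γ : Type) [Group Γ] [Group.FG Γ] (n : ℕ) (R : Type) [CommRing R]
  [Algebra.FiniteType ℤ R] (psi : Γ →* GL (Fin n) R), Amen Γ →
  ∃ (H : Subgroup Γ) (e0 : ℕ), H.FiniteIndex ∧ Unip psi ⁅H, H⁆ e0

def S_FGR : Prop :=
  (∀ (Γ : Type) [Group Γ] [Group.FG Γ] (n : ℕ) (R : Type) [CommRing R]
    (psi : Γ →* GL (Fin n) R), Function.Injective psi →
    ∃ (R0 : Type) (_ : CommRing R0) (_ : Algebra.FiniteType ℤ R0) (psi0 : Γ →* GL (Fin n) R0),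
      Function.Injective psi0) ∧
  ∀ (K : Type) [Group K] [Group.FG K], ∃ (G0 : Subgroup K) (d : ℕ)
    (pr : G0 →* Multiplicative (Fin d → ℤ)), G0.FiniteIndex ∧ Function.Surjective pr ∧
      ∀ g : G0, pr g = 1 ↔ (g : K) ∈ commutator K

def S_KK : Prop := ∀ (H : Type) [Group H], ⁅commutator H, commutator H⁆ = ⊥ →
  ∃ (R : Type) (_ : CommRing R) (psi : H →* GL (Fin 2) R), Function.Injective psi

def S_Mk : Prop := ∀ (G : Type) [Group G] (l : G → ℕ), IsLen l → Proper l → CC l →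
  (∃ T : Finset G, WordLike l (T : Set G)) → ∀ (N : Subgroup G) (d : ℕ)
    (pr : G →* Multiplicative (Fin d → ℤ)), Function.Surjective pr → (∀ g, g ∈ N ↔ pr g = 1) →
    ∀ r, FiltR N N r → ∀ (A : Type) [Ring A] [Algebra ℝ A], LData G A N →
      ∃ S : LSetup G A, S.l = l ∧ S.d = d ∧ S.r = r

def S_Core : Prop := ∀ (G : Type) [Group G] (l : G → ℕ), IsLen l → Proper l → CC l →
  (∃ T : Finset G, WordLike l (T : Set G)) → ∀ (N : Subgroup G) (d : ℕ)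
    (pr : G →* Multiplicative (Fin d → ℤ)), Function.Surjective pr → (∀ g, g ∈ N ↔ pr g = 1) →
    Filt N N → ∀ (A : Type) [Ring A] [Algebra ℝ A], LData G A N →
      ∀ k, AsLe l k → ANLe l Set.univ k

def S_Main : Prop := ∀ (G : Type) [Group G] (S : Finset G), Subgroup.closure (S : Set G) = ⊤ →
  (∃ H : Subgroup G, H.FiniteIndex ∧ (⁅⁅H, H⁆, ⁅H, H⁆⁆ = ⊥ ∨
    ∃ (n : ℕ) (R : Type) (_ : CommRing R) (psi : H →* GL (Fin n) R), Function.Injective psi)) →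
  Fol S → ∀ d : ℕ, (∀ r : ℕ, ∃ B : ℕ, FCov S d r B) ↔ ∃ c : ℕ, ∀ r : ℕ, FCov S d r (c * r)

end ANd
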