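import Pool.Agent.P.MP_5e7d86_al.BRp

/-! The word length is a proper length function. -/

set_option autoImplicit false
open Classical
open scoped commutatorElement

namespace ANd

namespace Wl

variable {G : Type} [Group G] {S : Finset G} {m n : ℕ} {g h : G}

theorem mono (k : IsW S m g) (hmn : m ≤ n) : IsW S n g := by
  obtain ⟨l, h1, h2, h3⟩ := k
  exact ⟨l, h1.trans hmn, h2, h3⟩

theorem one : IsW S 0 (1 : G) := ⟨[], le_rfl, by simp, rfl⟩

theorem mul (k : IsW S m g) (k' : IsW S n h) : IsW S (m + n) (g * h) := by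
  obtain ⟨l, h1, h2, rfl⟩ := k
  obtain ⟨l', k1, k2, rfl⟩ := k'
  exact ⟨l ++ l', by rw [List.length_append]; omega,
    fun x hx => (List.mem_append.1 hx).elim (h2 x) (k2 x), List.prod_append.symm⟩

theorem inv (k : IsW S m g) : IsW S m g⁻¹ := by
  obtain ⟨l, h1, h2, rfl⟩ := k
  refine ⟨(l.map fun x => x⁻¹).reverse, by simpa using h1, fun x hx => ?_, List.prod_inv_reverse l⟩
  obtain ⟨y, hy, rfl⟩ := List.mem_map.1 (List.mem_reverse.1 hx)
  rw [inv_inv]
  exact (h2 y hy).symm

theorem ex (hS : Subgroup.closure (S : Set G) = ⊤) (g : G) : ∃ n, IsW S n g := by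
  have hg : g ∈ Subgroup.closure (S : Set G) := hS ▸ Subgroup.mem_top g
  induction hg using Subgroup.closure_induction with
  | mem s hs => exact ⟨1, [s], le_rfl, by simpa using Or.inl hs, by simp⟩
  | one => exact ⟨0, one⟩
  | mul x y _ _ hx hy => exact hx.elim fun _ k => hy.elim fun _ k' => ⟨_, mul k k'⟩
  | inv x _ hx => exact hx.imp fun _ => inv

theorem le_iff (hS : Subgroup.closure (S : Set G) = ⊤) (n : ℕ) (g : G) : wl S g ≤ n ↔ IsW S n g :=
  ⟨mono (Nat.sInf_mem (ex hS g)), fun k => Nat.sInf_le k⟩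

theorem fin (S : Finset G) (n : ℕ) : {g | IsW S n g}.Finite := by
  induction n with
  | zero =>
    refine (Set.finite_singleton 1).subset ?_
    rintro _ ⟨l, h1, -, rfl⟩
    rw [List.length_eq_zero_iff.1 (Nat.le_zero.1 h1)]
    rfl
  | succ n ih =>
    refine ((((S.finite_toSet.union S.finite_toSet.inv).image2 (· * ·) ih)).insert 1).subset ?_
    rintro _ ⟨l, h1, h2, rfl⟩
    rcases l with _ | ⟨x, l⟩
    · exact Or.inl rfl
    · exact Or.inr ⟨x, h2 x List.mem_cons_self, l.prod, ⟨l, by simpa using h1,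
        fun y hy => h2 y (List.mem_cons_of_mem _ hy), rfl⟩, List.prod_cons.symm⟩

end Wl

theorem pWl : S_Wl := fun _ _ S hS => by
  have h := Wl.le_iff hS
  refine ⟨⟨Nat.le_zero.1 ((h _ _).2 Wl.one), fun g => le_antisymm
    ((h _ _).2 (Wl.inv ((h _ _).1 le_rfl))) ?_,
    fun g k => (h _ _).2 (Wl.mul ((h _ _).1 le_rfl) ((h _ _).1 le_rfl))⟩, fun r => ?_, h⟩
  · have := Wl.inv ((h _ g⁻¹).1 le_rfl)
    rw [inv_inv] at this
    exact (h _ _).2 this
  · simpa only [h] using Wl.fin S r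

end ANd
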